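import Pool.Agent.Lib.ISO.BlueK

/-! Fourier series of smooth periodic functions. -/

open scoped ContDiff ComplexConjugate
open Complex MeasureTheory

noncomputable section

namespace Pool.Agent.Lib.ISO

namespace FOU

/-- Fourier coefficient of a complex function -/
def gc (g : ℝ → ℂ) (j : ℤ) : ℂ :=
  (2 * Real.pi : ℂ)⁻¹ * ∫ s in (0 : ℝ)..(2 * Real.pi), g s * exp (-(I * j * s))

lemma fc_eq (k : ℝ → ℝ) (j : ℤ) : fc k j = gc (fun s => (k s : ℂ)) j := rfl

lemma pi_ne : (2 * Real.pi : ℂ) ≠ 0 := by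
  have := Real.pi_pos
  exact_mod_cast (by positivity : (2 * Real.pi : ℝ) ≠ 0)

lemma norm_ex (j : ℤ) (s : ℝ) : ‖exp (I * j * s)‖ = 1 := by
  have : I * j * s = ((j * s : ℝ) : ℂ) * I := by push_cast; ring
  rw [this, norm_exp_ofReal_mul_I]

lemma norm_ex' (j : ℤ) (s : ℝ) : ‖exp (-(I * j * s))‖ = 1 := by
  have := norm_ex (-j) s
  rwa [show I * ((-j : ℤ) : ℂ) * s = -(I * j * s) by push_cast; ring] at this

variable {L : ℝ} {k l : ℝ → ℝ}

lemma per_cont (h : Per L k) : Continuous k := h.smooth.continuous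

lemma per_deriv (h : Per L k) : Per L (deriv k) := by
  refine ⟨(contDiff_infty_iff_deriv.1 h.smooth).2, fun s => ?_⟩
  have : (fun x => k (x + L)) = k := funext h.per
  rw [← deriv_comp_add_const, this]

lemma per_iter (h : Per L k) (r : ℕ) : Per L (iteratedDeriv r k) := by
  induction r with
  | zero => simpa using h
  | succ r ih => rw [iteratedDeriv_succ]; exact per_deriv ih

lemma per_mul (h : Per L k) (h' : Per L l) : Per L (fun s => k s * l s) :=
  ⟨h.smooth.mul h'.smooth, fun s => by rw [h.per, h'.per]⟩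

lemma cont_ex (j : ℤ) : Continuous fun s : ℝ => exp (-(I * j * s)) := by fun_prop

lemma fc_deriv (h : Per (2 * Real.pi) k) (j : ℤ) : fc (deriv k) j = I * j * fc k j := by
  have hd : ∀ s, HasDerivAt k (deriv k s) s := fun s =>
    ((contDiff_infty_iff_deriv.1 h.smooth).1 s).hasDerivAt
  have h1 : ∀ s : ℝ, HasDerivAt (fun s : ℝ => (k s : ℂ) * exp (-(I * j * s)))
      ((deriv k s : ℝ) * exp (-(I * j * s)) - I * j * ((k s : ℂ) * exp (-(I * j * s)))) s := by
    intro s
    have a : HasDerivAt (fun s : ℝ => (k s : ℂ)) ((deriv k s : ℝ) : ℂ) s := (hd s).ofReal_comp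
    have b : HasDerivAt (fun s : ℝ => -(I * j * (s : ℂ))) (-(I * j * 1)) s :=
      (((hasDerivAt_id s).ofReal_comp).const_mul (I * j)).neg
    exact (a.mul b.cexp).congr_deriv (by ring)
  have c1 : Continuous fun s : ℝ => ((deriv k s : ℝ) : ℂ) * exp (-(I * j * s)) :=
    (continuous_ofReal.comp (per_cont (per_deriv h))).mul (cont_ex j)
  have c2 : Continuous fun s : ℝ => (k s : ℂ) * exp (-(I * j * s)) :=
    (continuous_ofReal.comp (per_cont h)).mul (cont_ex j)
  have c3 : Continuous fun s : ℝ => I * j * ((k s : ℂ) * exp (-(I * j * s))) :=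
    continuous_const.mul c2
  have h2 := intervalIntegral.integral_eq_sub_of_hasDerivAt (a := 0) (b := 2 * Real.pi)
    (fun s _ => h1 s) ((c1.sub c3).intervalIntegrable _ _)
  have h3 : k (2 * Real.pi) = k 0 := by simpa using h.per 0
  have h4 : exp (-(I * j * ((2 * Real.pi : ℝ) : ℂ))) = 1 := by
    have := exp_int_mul_two_pi_mul_I (-j)
    rw [← this]; congr 1; push_cast; ring
  rw [intervalIntegral.integral_sub (c1.intervalIntegrable _ _)
    (c3.intervalIntegrable _ _), intervalIntegral.integral_const_mul,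
    h3, h4] at h2
  simp only [ofReal_zero, mul_zero, neg_zero, exp_zero, sub_self] at h2
  unfold fc
  rw [sub_eq_zero.1 h2]; ring

lemma fc_iter (h : Per (2 * Real.pi) k) (r : ℕ) (j : ℤ) :
    fc (iteratedDeriv r k) j = (I * j) ^ r * fc k j := by
  induction r with
  | zero => simp
  | succ r ih => rw [iteratedDeriv_succ, fc_deriv (per_iter h r), ih]; ring

lemma gc_bdd (g : ℝ → ℂ) : ∃ C, ∀ j, ‖gc g j‖ ≤ C := by
  refine ⟨‖(2 * Real.pi : ℂ)⁻¹‖ * ∫ s in (0 : ℝ)..(2 * Real.pi), ‖g s‖, fun j => ?_⟩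
  unfold gc
  rw [norm_mul]
  refine mul_le_mul_of_nonneg_left ?_ (norm_nonneg _)
  refine (intervalIntegral.norm_integral_le_integral_norm (by positivity)).trans (le_of_eq ?_)
  simp only [norm_mul, norm_ex', mul_one]

lemma norm_iter (h : Per (2 * Real.pi) k) (r : ℕ) (j : ℤ) :
    ‖fc (iteratedDeriv r k) j‖ = |(j : ℝ)| ^ r * ‖fc k j‖ := by
  rw [fc_iter h, norm_mul, norm_pow, norm_mul, norm_I, one_mul, norm_intCast]

lemma dec (h : Per (2 * Real.pi) k) (r : ℕ) : Summable fun j : ℤ => |(j : ℝ)| ^ r * ‖fc k j‖ := by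
  obtain ⟨C, hC⟩ := gc_bdd (fun s => ((iteratedDeriv (r + 2) k s : ℝ) : ℂ))
  have hs : Summable fun j : ℤ => C * (1 / (j : ℝ) ^ 2) :=
    (Real.summable_one_div_int_pow.2 (by norm_num)).mul_left C
  refine Summable.of_norm_bounded_eventually hs ?_
  have : ∀ᶠ j : ℤ in Filter.cofinite, j ≠ 0 := Filter.eventually_cofinite_ne 0
  filter_upwards [this] with j hj
  have h1 := hC j
  rw [← fc_eq, norm_iter h] at h1
  have h2 : (0 : ℝ) < (j : ℝ) ^ 2 := by
    have : (j : ℝ) ≠ 0 := by exact_mod_cast hj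
    positivity
  rw [Real.norm_of_nonneg (by positivity), mul_one_div, le_div_iff₀ h2, ← sq_abs]
  refine le_trans (le_of_eq ?_) h1
  ring

lemma summ (h : Per (2 * Real.pi) k) : Summable fun j : ℤ => ‖fc k j‖ := by
  simpa using dec h 0

lemma cj (k : ℝ → ℝ) (j : ℤ) : fc k (-j) = conj (fc k j) := by
  unfold fc
  have h0 : (0 : ℝ) ≤ 2 * Real.pi := by positivity
  rw [map_mul, intervalIntegral.integral_of_le h0, intervalIntegral.integral_of_le h0,
    ← integral_conj]
  congr 1
  · simp [map_ofNat]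
  · refine integral_congr_ae (Filter.Eventually.of_forall fun s => ?_)
    simp only [map_mul, conj_ofReal, ← exp_conj, map_neg, conj_I, map_intCast]
    push_cast
    ring_nf

lemma series (h : Per (2 * Real.pi) k) (s : ℝ) :
    HasSum (fun j : ℤ => fc k j * exp (I * j * s)) (k s) := by
  have hT : Fact (0 < 2 * Real.pi) := ⟨by positivity⟩
  have hp : Function.Periodic (fun s => (k s : ℂ)) (2 * Real.pi) := fun s => by
    simp only [h.per]
  let F : C(AddCircle (2 * Real.pi), ℂ) :=
    ⟨hp.lift, continuous_coinduced_dom.mpr (continuous_ofReal.comp (per_cont h))⟩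
  have hF : ∀ x : ℝ, F x = k x := fun x => hp.lift_coe x
  have hf : ∀ (n : ℤ) (x : ℝ), fourier n (x : AddCircle (2 * Real.pi)) = exp (I * n * x) := by
    intro n x
    rw [fourier_coe_apply]
    congr 1
    have := pi_ne
    push_cast
    field_simp
  have hc : fourierCoeff F = fc k := by
    funext n
    rw [fourierCoeff_eq_intervalIntegral F n 0, zero_add, fc, real_smul]
    congr 1
    · push_cast; rw [one_div]
    · refine intervalIntegral.integral_congr fun x _ => ?_
      simp only [hf, hF, smul_eq_mul]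
      push_cast
      ring_nf
  have := has_pointwise_sum_fourier_series_of_summable (f := F) (hc ▸ (summ h).of_norm)
    (s : AddCircle (2 * Real.pi))
  simpa only [hc, hf, hF, smul_eq_mul] using this

/-- coefficients of a product -/
lemma prod (h : Per (2 * Real.pi) k) {g : ℝ → ℂ} (hg : Continuous g) (j : ℤ) :
    HasSum (fun i : ℤ => fc k i * gc g (j - i)) (gc (fun s => (k s : ℂ) * g s) j) := by
  have h1 : HasSum (fun i : ℤ => ∫ s in (0 : ℝ)..(2 * Real.pi),
      fc k i * exp (I * i * s) * (g s * exp (-(I * j * s))))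
      (∫ s in (0 : ℝ)..(2 * Real.pi), (k s : ℂ) * (g s * exp (-(I * j * s)))) := by
    refine intervalIntegral.hasSum_integral_of_dominated_convergence
      (fun i s => ‖fc k i‖ * ‖g s‖) (fun i => ?_) (fun i => ?_) ?_ ?_ ?_
    · exact Continuous.aestronglyMeasurable (by fun_prop)
    · refine Filter.Eventually.of_forall fun s _ => le_of_eq ?_
      simp only [norm_mul, norm_ex, norm_ex', mul_one]
    · exact Filter.Eventually.of_forall fun s _ => (summ h).mul_right _
    · simp only [tsum_mul_right]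
      exact (continuous_const.mul hg.norm).intervalIntegrable _ _
    · exact Filter.Eventually.of_forall fun s _ => (series h s).mul_right _
  have h2 := h1.mul_left (2 * Real.pi : ℂ)⁻¹
  have h3 : ∀ i : ℤ, (2 * Real.pi : ℂ)⁻¹ * (∫ s in (0 : ℝ)..(2 * Real.pi),
      fc k i * exp (I * i * s) * (g s * exp (-(I * j * s)))) = fc k i * gc g (j - i) := by
    intro i
    unfold gc
    rw [mul_left_comm, ← intervalIntegral.integral_const_mul (fc k i)]
    congr 1
    refine intervalIntegral.integral_congr fun s _ => ?_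
    have : exp (-(I * ((j - i : ℤ) : ℂ) * s)) = exp (I * i * s) * exp (-(I * j * s)) := by
      rw [← exp_add]; congr 1; push_cast; ring
    simp only [this]
    ring
  simp only [h3] at h2
  unfold gc
  simp only [mul_assoc (k _ : ℂ)]
  exact h2

lemma prod' (h : Per (2 * Real.pi) k) (hl : Continuous l) (j : ℤ) :
    HasSum (fun i : ℤ => fc k i * fc l (j - i)) (fc (fun s => k s * l s) j) := by
  have := prod h (g := fun s => (l s : ℂ)) (continuous_ofReal.comp hl) j
  simpa only [fc_eq, ofReal_mul] using this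

lemma fc_zero (k : ℝ → ℝ) :
    fc k 0 = ((∫ s in (0 : ℝ)..(2 * Real.pi), k s) / (2 * Real.pi) : ℝ) := by
  unfold fc
  simp only [Int.cast_zero, mul_zero, zero_mul, neg_zero, exp_zero, mul_one]
  rw [intervalIntegral.integral_ofReal]
  push_cast
  ring

lemma int_eq (k : ℝ → ℝ) : ∫ s in (0 : ℝ)..(2 * Real.pi), k s = 2 * Real.pi * (fc k 0).re := by
  rw [fc_zero, ofReal_re]
  have := Real.pi_pos
  field_simp

lemma cv_eq (h : Per (2 * Real.pi) k) (j : ℤ) :
    cv (fc k) (fc k) j = fc (fun s => k s * k s) j := (prod' h (per_cont h) j).tsum_eq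

lemma hs_eq (h : Per (2 * Real.pi) k) (r : ℕ) :
    mint (2 * Real.pi) [r, r] k = 2 * Real.pi * Hs r (fc k) := by
  have h1 : mint (2 * Real.pi) [r, r] k =
      ∫ s in (0 : ℝ)..(2 * Real.pi), iteratedDeriv r k s * iteratedDeriv r k s := by
    simp [mint, mono]
  rw [h1, int_eq]
  congr 1
  have h2 := prod' (per_iter h r) (per_cont (per_iter h r)) 0
  have h3 := Complex.hasSum_re h2
  rw [← h3.tsum_eq, Hs]
  refine tsum_congr fun j => ?_
  rw [zero_sub, cj, mul_conj, ofReal_re, normSq_eq_norm_sq, norm_iter h, mul_pow, ← pow_mul,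
    mul_comm r 2, pow_mul, sq_abs, ← pow_mul]

lemma qs_eq (h : Per (2 * Real.pi) k) (r : ℕ) :
    mint (2 * Real.pi) [r, r, 0, 0] k = 2 * Real.pi * Qs r (fc k) := by
  have h1 : mint (2 * Real.pi) [r, r, 0, 0] k = ∫ s in (0 : ℝ)..(2 * Real.pi),
      iteratedDeriv r k s * (iteratedDeriv r k s * (k s * k s)) := by
    simp [mint, mono]
  rw [h1, int_eq, Qs]
  congr 2
  have hr := per_iter h r
  have hkk := per_mul h h
  have h2 := prod' hr (per_cont (per_mul hr hkk)) 0
  obtain ⟨C, hC⟩ := gc_bdd (fun s => ((k s * k s : ℝ) : ℂ))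
  have hsum : Summable fun p : ℤ × ℤ => (p.1 : ℂ) ^ r * fc k p.1 *
      conj ((p.2 : ℂ) ^ r * fc k p.2) * cv (fc k) (fc k) (p.2 - p.1) := by
    have a := ((dec h r).mul_of_nonneg (dec h r) (fun _ => by positivity)
      (fun _ => by positivity)).mul_right C
    refine Summable.of_norm_bounded a fun p => ?_
    rw [norm_mul, norm_mul, RCLike.norm_conj, norm_mul, norm_mul, norm_pow, norm_pow,
      norm_intCast, norm_intCast, cv_eq h]
    exact mul_le_mul_of_nonneg_left (hC _) (by positivity)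
  rw [hsum.tsum_prod, ← h2.tsum_eq]
  refine tsum_congr fun p => ?_
  have h3 := ((prod' hr (per_cont hkk) (0 - p)).mul_left (fc (iteratedDeriv r k) p))
  rw [← h3.tsum_eq, ← (Equiv.neg ℤ).tsum_eq]
  refine tsum_congr fun q => ?_
  have h4 : (0 : ℤ) - p - -q = q - p := by ring
  have h5 : I ^ r * conj (I ^ r) = 1 := by
    rw [mul_conj, normSq_eq_norm_sq, norm_pow, norm_I]; simp
  simp only [Equiv.neg_apply]
  rw [h4, cj, cv_eq h, fc_iter h, fc_iter h, mul_pow, mul_pow, mul_assoc (I ^ r) ((q : ℂ) ^ r),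
    map_mul _ (I ^ r)]
  linear_combination ((p : ℂ) ^ r * fc k p * conj ((q : ℂ) ^ r * fc k q) *
    fc (fun s => k s * k s) (q - p)) * h5

end FOU

theorem st_fou : St_FOU := by
  intro k h
  refine ⟨⟨FOU.cj k, FOU.dec h⟩, FOU.hs_eq h, FOU.qs_eq h, ?_, FOU.fc_zero k, FOU.series h,
    FOU.fc_iter h⟩
  rw [FOU.cv_eq h, FOU.fc_zero]
  simp only [sq]

end Pool.Agent.Lib.ISO
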