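import Pool.Agent.Lib.ISO.B_K44

/-! Block K4: a marker forces the envelope of the second sequence. -/

open Filter Topology

noncomputable section

namespace Pool.Agent.Lib.ISO

namespace K4

lemma er_nonneg (m W : ℕ) (z : ℤ → ℂ) : 0 ≤ er m W z := by
  have h1 : 0 ≤ Nr W z := tsum_nonneg fun _ => by split_ifs <;> positivity
  have h2 : 0 ≤ Jk m W z := tsum_nonneg fun ξ => by
    have := yy_nonneg W ξ
    split_ifs <;> positivity
  unfold er
  positivity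

lemma dd (hMAS : St_MAS) (C : ℕ → ℝ) (M : ℕ) (B : ℝ) : ∃ K, 0 ≤ K ∧ ∀ (W : ℕ) z y, 4 ≤ W → Sq z →
    Sq y → An z ≤ B → An y ≤ B → Inv C B z y → ∀ k,
    |(qq (2 * M + 4) W (amp M W) y).e k - (qq (2 * M + 4) W (amp M W) z).e k +
      2 * fd (fun i => Sc (2 * M + 4 + i)) k * ((W : ℝ)⁻¹ ^ 4 *
        (qf (cv y y) (sh y W (amp M W)) W - qf (cv z z) (sh z W (amp M W)) W))| ≤
      K * ((W : ℝ)⁻¹ * ((W : ℝ)⁻¹ ^ 4 * (qq (2 * M + 4) W (amp M W) z).n +
        (qq (2 * M + 4) W (amp M W) z).j) + (W : ℝ)⁻¹ * ((W : ℝ)⁻¹ ^ 4 *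
        (qq (2 * M + 4) W (amp M W) y).n + (qq (2 * M + 4) W (amp M W) y).j) + 2 * (W : ℝ)⁻¹ ^ 8) := by
  obtain ⟨m, hm⟩ : ∃ m, 2 * M + 4 = m := ⟨_, rfl⟩
  obtain ⟨c0, hc⟩ := hMAS m B (by omega)
  obtain ⟨c, hcs⟩ : ∃ c, ∑ i ∈ Finset.range 5,
    (1 + |Sc (m + i)| + |C (m + i) * B ^ (2 * (m + i) + 2)|) = c := ⟨_, rfl⟩
  have c1 : ∀ i ≤ 4, 1 + |Sc (m + i)| + |C (m + i) * B ^ (2 * (m + i) + 2)| ≤ c := fun i hi => by
    rw [← hcs]
    exact Finset.single_le_sum (f := fun i => 1 + |Sc (m + i)| + |C (m + i) * B ^ (2 * (m + i) + 2)|)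
      (fun _ _ => by positivity) (Finset.mem_range.2 (by omega))
  have c2 : 0 ≤ c := le_trans (by positivity) (c1 0 (by norm_num))
  refine ⟨16 * (c * |c0|), by positivity, fun W z y hW hz hy bz by' hi k => ?_⟩
  have h2 : (4 : ℝ) ≤ W := by exact_mod_cast hW
  have w0 : (0 : ℝ) < W := by linarith
  have A0 : 0 < amp M W := by unfold amp; positivity
  have hE : 0 ≤ |c0| * (er m W z + er m W y) :=
    mul_nonneg (abs_nonneg _) (add_nonneg (er_nonneg _ _ _) (er_nonneg _ _ _))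
  have h3 := fd_le (R := c * (|c0| * (er m W z + er m W y))) (f := fun i => Hi (m + i) W y -
    Hi (m + i) W z + 2 * (qf (cv y y) (sh y W 1) W - qf (cv z z) (sh z W 1) W) / (W : ℝ) ^ 4 *
      Sc (m + i)) (fun i i4 => by
    obtain ⟨z1, z2, z3⟩ := hc W z hW hz bz i i4
    obtain ⟨y1, y2, y3⟩ := hc W y hW hy by' i i4
    have ez := mul_le_mul_of_nonneg_right (le_abs_self c0) (er_nonneg m W z)
    have ey := mul_le_mul_of_nonneg_right (le_abs_self c0) (er_nonneg m W y)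
    have P0 : 0 < (W : ℝ) ^ (4 * (m + i)) := by positivity
    have h4 := div_le_div_of_nonneg_right ((hi (m + i) (by omega)).trans
      (mul_le_mul_of_nonneg_right (le_abs_self _)
        (add_nonneg (Real.sqrt_nonneg _) (Real.sqrt_nonneg _)))) P0.le
    rw [← abs_of_pos P0, ← abs_div, abs_of_pos P0, mul_div_assoc, add_div] at h4
    have h5 := h4.trans (mul_le_mul_of_nonneg_left (add_le_add (z3.trans ez) (y3.trans ey))
      (abs_nonneg _))
    have h6 := mul_le_mul_of_nonneg_left (z2.trans ez) (abs_nonneg (Sc (m + i)))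
    have h7 := mul_le_mul_of_nonneg_left (y2.trans ey) (abs_nonneg (Sc (m + i)))
    rw [← abs_mul] at h6 h7
    have h8 := mul_le_mul_of_nonneg_right (c1 i i4) hE
    simp only [Iv, sub_div, add_div, mul_div_assoc] at h5 h6 h7 z1 y1 ⊢
    rw [abs_le] at h5 h6 h7 z1 y1 ⊢
    constructor <;> linarith [h5.1, h5.2, h6.1, h6.2, h7.1, h7.2, z1.1, z1.2, y1.1, y1.2]) k
  rw [fd_lin] at h3
  have h4 := div_le_div_of_nonneg_right h3 (sq_nonneg (amp M W))
  rw [← abs_of_nonneg (sq_nonneg (amp M W)), ← abs_div, abs_of_nonneg (sq_nonneg (amp M W))] at h4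
  have h5 : ((W : ℝ) ^ (2 * m))⁻¹ = amp M W ^ 2 * (W : ℝ)⁻¹ ^ 8 := by
    rw [← hm, amp]; field_simp; ring
  simp only [qq, hm, qf_sh _ _ W (amp M W)]
  refine (le_of_eq (congrArg abs ?_)).trans (h4.trans_eq ?_)
  · field_simp
  · simp only [er, h5]
    field_simp
    ring

/-- the data of the statement -/
structure Dat (C : ℕ → ℝ) (M J : ℕ) (B : ℝ) where
  W : ℕ
  z : ℤ → ℂ
  y : ℤ → ℂ
  a : ℤ → ℂ
  w4 : 4 ≤ W
  wJ : 2 * J ≤ W
  hz : Sq z
  hy : Sq y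
  bz : An z ≤ B
  bd : An y ≤ B
  ha : Env J a
  hi : Inv C B z y
  hm : Mk M W a z

end K4

open K4

theorem st_k4 (hMAS : St_MAS) (hRD : St_RD) (hK8 : St_K8) : St_K4 := by
  intro C M J B η hη
  obtain ⟨γ, Λ, hγ, hI⟩ := ineq (2 * M + 4)
  obtain ⟨K, hK, hD⟩ := dd hMAS C M B
  obtain ⟨c, hc⟩ := hRD (2 * M + 4) B
  obtain ⟨s2, s3⟩ := hK8 (2 * M + 4) (by omega)
  let l : Filter (Dat C M J B) := comap Dat.W atTop
  let v : Dat C M J B → ℝ := fun d => (d.W : ℝ)⁻¹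
  have hv : Tendsto v l (𝓝 0) := tendsto_inv_atTop_nhds_zero_nat.comp tendsto_comap
  have w0 : ∀ d : Dat C M J B, (0 : ℝ) < d.W := fun d => by exact_mod_cast d.w4.trans_lt' (by norm_num)
  have v0 : ∀ d, 0 < v d := fun d => inv_pos.2 (w0 d)
  have A0 : ∀ d : Dat C M J B, 0 < amp M d.W := fun d => inv_pos.2 (pow_pos (w0 d) _)
  have hJ : ∀ d : Dat C M J B, J ≤ d.W := fun d => by have := d.wJ; omega
  let x : Dat C M J B → Q := fun d => qq (2 * M + 4) d.W (amp M d.W) d.z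
  let y : Dat C M J B → Q := fun d => qq (2 * M + 4) d.W (amp M d.W) d.y
  have hx : ∀ d, Ineq γ Λ (2 * M + 4 : ℕ) (v d) (x d) := fun d => hI _ _ _ d.w4 d.hz (A0 d)
  have hy : ∀ d, Ineq γ Λ (2 * M + 4 : ℕ) (v d) (y d) := fun d => hI _ _ _ d.w4 d.hy (A0 d)
  have nr : ∀ d : Dat C M J B, ∀ t ∈ win d.W, ‖sh d.z d.W (amp M d.W) t - d.a t‖ ≤ v d ^ 4 :=
    fun d t ht => near_le d.w4 (hJ d) d.hz d.ha d.hm ht
  have md : ∀ e ≤ 2, Ov l v 1 fun d => (x d).m e - mom e d.a J := fun e he =>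
    (Ov.one.cmul _).of_le fun d => mom_diff d.w4 (hJ d) d.ha (nr d) he
  have xm : ∀ e ≤ 2, Ov l v 0 fun d => (x d).m e := fun e he =>
    (((md e he).mono hv (Nat.zero_le _)).add ((Ov.const _).of_le fun d => mom_env d.ha e)).congr_left
      fun d => sub_add_cancel _ _
  have ho : Ov l v 1 fun d => (x d).n - 2 * (x d).m 0 - 2 * (x d).m 2 := Ov.one.of_le fun d => by
    rw [abs_of_nonneg (by linarith [(hx d).o0])]
    have h1 := (div_le_iff₀ (pow_pos (A0 d) 2)).2 (out_le d.w4 (hJ d) d.hz d.ha d.hm)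
    simp only [x, qq, mom_sh _ d.W (amp M d.W)]
    exact le_of_eq_of_le (by ring) h1
  have hn : Ov l v 0 fun d => (x d).n := (((ho.mono hv (Nat.zero_le _)).add
    ((xm 0 (by norm_num)).cmul 2)).add ((xm 2 le_rfl).cmul 2)).congr_left fun d => by ring
  have hj : Ov l v 8 fun d => (x d).j := ((Ov.pow 8).cmul 2).of_le fun d => by
    rw [abs_of_nonneg (hx d).j0]
    exact (div_le_iff₀ (pow_pos (A0 d) 2)).2 (jk_le d.w4 (hJ d) d.hz d.ha d.hm)
  let δ : Dat C M J B → ℝ := fun d => qf (cv d.y d.y) (sh d.y d.W (amp M d.W)) d.W -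
    qf (cv d.z d.z) (sh d.z d.W (amp M d.W)) d.W
  have hδ : ∀ d, |δ d| ≤ B ^ 2 * ((y d).m 0 + (x d).m 0) := fun d => by
    rw [mul_add]
    exact (abs_sub _ _).trans (add_le_add (schur d.hy d.bd _ _) (schur d.hz d.bz _ _))
  have hD' := fun d : Dat C M J B => hD d.W d.z d.y d.w4 d.hz d.hy d.bz d.bd d.hi
  obtain ⟨yn, yj, o0, o1, g, og, hg⟩ := core (σ := fd fun i => Sc (2 * M + 4 + i)) hγ
    (Nat.cast_nonneg _) (sq_nonneg B) hK v0 hv hx hy hn hj ho hδ hD'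
    (by simpa only [fd, add_zero] using s2) (by simpa only [fd, add_zero] using s3)
  have qd : Ov l v 1 fun d => qf (cv d.z d.z) (sh d.z d.W (amp M d.W)) d.W - qf (cv d.z d.z) d.a J :=
    (((Ov.pow 3).cmul _).of_le fun d => qf_diff d.w4 (hJ d) d.hz d.bz d.ha (nr d)).mono hv
      (by norm_num)
  have rr : ∀ u : Dat C M J B → Q, (Ov l v 0 fun d => (u d).n) → (Ov l v 0 fun d => (u d).j) →
      Ov l v 1 fun d => |c| * (v d * (1 + ((u d).n + (u d).j))) := fun u h1 h2 =>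
    (Ov.one.mul ((Ov.const 1).add (h1.add h2))).cmul _
  have rs : ∀ (d : Dat C M J B) (u : ℤ → ℂ), Sq u → An u ≤ B → ∀ i : ℤ, |i| ≤ J →
      ‖cv u u ((d.W : ℤ) ^ 2 + i) / (2 * amp M d.W) - ∑ t ∈ win d.W, u (i - t) * sh u d.W (amp M d.W) t‖ ≤
      |c| * (v d * (1 + ((qq (2 * M + 4) d.W (amp M d.W) u).n +
        (qq (2 * M + 4) d.W (amp M d.W) u).j))) := fun d u h1 h2 i h3 => by
    have h4 := hI _ _ _ d.w4 h1 (A0 d)
    have h5 : (qq (2 * M + 4) d.W (amp M d.W) u).n + (qq (2 * M + 4) d.W (amp M d.W) u).j =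
      (Nr d.W u + Jk (2 * M + 4) d.W u) / amp M d.W ^ 2 := (add_div _ _ _).symm
    have h6 := d.wJ
    rw [h5]
    exact rd_sc (A0 d) _ i (by rw [← h5]; linarith [h4.m0, h4.m2, h4.o0, h4.j0])
      (hc d.W u d.w4 h1 h2 i (by omega))
  have fin : ∀ᶠ d in l, Out η (2 * M + 4) J d.W (amp M d.W) d.a d.z d.y := by
    filter_upwards [(o0.add (md 0 (by norm_num))).small hv hη, (o1.add (md 1 (by norm_num))).small hv hη,
      ((og.add ((md 2 le_rfl).cmul 4)).add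
        (Ov.cmul (Asymptotics.IsBigO.abs_left qd) (2 * M + 4))).small hv hη,
      (rr y yn (yj.mono hv (Nat.zero_le _))).small hv hη,
      ((rr x hn (hj.mono hv (Nat.zero_le _))).add (((Ov.pow 4).mono hv (by norm_num)).cmul B)).small
        hv hη, ((Ov.pow 4).mono hv (show 1 ≤ 4 by norm_num)).small hv hη] with d e0 e1 e2 e3 e4 e5
    rw [sub_add_sub_cancel] at e0 e1
    refine ⟨hJ d, e0, e1, ?_, fun i hi => (rs d d.y d.hy d.bd i hi).trans (abs_le.1 e3).2,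
      fun i hi => ?_, fun t ht => (nr d t ht).trans (abs_le.1 e5).2⟩
    · have h1 := hg d
      have h2 := mul_le_mul_of_nonneg_left (abs_sub_le (qf (cv d.y d.y) (sh d.y d.W (amp M d.W)) d.W)
        (qf (cv d.z d.z) (sh d.z d.W (amp M d.W)) d.W) (qf (cv d.z d.z) d.a J))
        (show (0 : ℝ) ≤ 2 * M + 4 by positivity)
      have h3 : (y d).m 2 = mom 2 (sh d.y d.W (amp M d.W)) d.W := rfl
      push_cast at h1
      linarith [(abs_le.1 e2).2]
    · exact (norm_sub_le_norm_sub_add_norm_sub _ _ _).trans ((add_le_add (rs d d.z d.hz d.bz i hi)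
        (rd_diff (hJ d) d.hz d.bz d.ha (pow_pos (v0 d) 4).le (nr d) i)).trans (abs_le.1 e4).2)
  obtain ⟨W0, h0⟩ := eventually_atTop.1 (eventually_comap.1 fin)
  refine ⟨max W0 (max 4 (2 * J)), fun W hW z z' a h1 h2 h3 h4 h5 h6 h7 => ?_⟩
  rw [max_le_iff, max_le_iff] at hW
  exact h0 W hW.1 ⟨W, z, z', a, hW.2.1, hW.2.2, h1, h2, h3, h4, h5, h6, h7⟩ rfl

end Pool.Agent.Lib.ISO
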