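import Pool.Agent.Lib.ISO.Base
import Pool.Agent.Lib.MP_312682_mp.Final

/-! Part E (expansion of the trace to all orders) and the geometric half of part G. -/

open scoped InnerProductSpace ENNReal ContDiff ComplexConjugate Topology
open MeasureTheory Complex Set Filter

noncomputable section

namespace Pool.Agent.Lib.ISO

open Pool.Agent.Lib.MP_312682_mp

/-! ## The fibre -/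

abbrev nu1 : Measure ℝ := volume.restrict (Ioc 0 1)
abbrev Y := L2 nu1
def t1 (a b c : ℝ → ℂ) : Y := tl nu1 fun r => (!₂[a r, b r, c r] : E3)
def gen1 (D x : ℝ) : Set Y := {y | ∃ u : ℝ → ℂ, ContDiff ℝ ∞ u ∧ u 0 = 0 ∧ u 1 = 0 ∧
  y = t1 (fun r => D * u r) (fun r => I * (D * x : ℝ) * u r) (deriv u)}
def P1 (D x : ℝ) : Y →L[ℂ] Y := PC (gen1 D x)
def E1 : Y →L[ℂ] Y := mm nu1 fun _ => Em I 0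
def f1 (j : ℤ) : Y := t1 (ex 1 j) 0 0
/-- operator valued symbols, functions of `D = μ δ` and `x = ξ / μ` -/
abbrev Sy := ℝ → ℝ → Y →L[ℂ] Y
def Dsy : Sy := fun D _ => (D : ℂ) • (1 : Y →L[ℂ] Y)
def csy (T : Y →L[ℂ] Y) : Sy := fun _ _ => T
def Wa : Subalgebra ℂ Sy := Algebra.adjoin ℂ (insert P1 (insert Dsy (range csy)))

def St_FIB : Prop :=
  (∀ D x η : ℝ, 0 < D → p0 nu1 * P1 D (x + η) = p0 nu1 * P1 D x * (1 - (η : ℂ) • E1) * P1 D (x + η)) ∧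
  (∀ D x : ℝ, 0 < D → HasDerivAt (P1 D)
    (P1 D x * star E1 * (1 - P1 D x) + (1 - P1 D x) * E1 * P1 D x) x) ∧
  (∀ D x : ℝ, 0 < D → HL (p0 nu1 * P1 D x * p0 nu1) (D / √(1 + x ^ 2))) ∧
  (∀ (D x : ℝ) (a b c F : ℝ → ℂ), 0 < D → ContDiff ℝ ∞ a → ContDiff ℝ ∞ b → ContDiff ℝ ∞ c →
    (∀ r, F r = D * a r - I * (D * x : ℝ) * b r - deriv c r) →
    P1 D x (t1 a b c) = t1 (fun r => D * Sol (D * √(1 + x ^ 2)) 1 F r)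
      (fun r => I * (D * x : ℝ) * Sol (D * √(1 + x ^ 2)) 1 F r) (Sol' (D * √(1 + x ^ 2)) 1 F)) ∧
  Dense {y : Y | ∃ a b c : ℝ → ℂ, ContDiff ℝ ∞ a ∧ ContDiff ℝ ∞ b ∧ ContDiff ℝ ∞ c ∧ y = t1 a b c} ∧
  Pars f1 (p0 nu1)

def St_TAY : Prop := ∀ f ∈ Wa,
  (∃ C, ∃ q : ℕ, ∀ D x : ℝ, 1 ≤ D → ‖f D x‖ ≤ C * D ^ q) ∧
  (∃ f' ∈ Wa, ∀ D x : ℝ, 0 < D → HasDerivAt (f D) (f' D x) x) ∧
  ∀ N : ℕ, ∃ F : ℕ → Sy, (∀ j, F j ∈ Wa) ∧ F 0 = f ∧ ∃ C, ∃ q : ℕ, ∀ D x η : ℝ, 1 ≤ D →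
    ‖f D (x + η) - ∑ j ∈ Finset.range N, ((η : ℂ) ^ j) • F j D x‖ ≤ C * D ^ q * |η| ^ N

def chi1 : Y →L[ℂ] Y := sm nu1 fun r => (chi 1 r : ℂ)
def gip (f f' : Sy) (D x : ℝ) : ℂ := ∑' j : ℤ,
  ⟪(chi1 * (p0 nu1 * P1 D x * f D x * P1 D x * p0 nu1)) (f1 j),
    (chi1 * (p0 nu1 * P1 D x * f' D x * P1 D x * p0 nu1)) (f1 j)⟫_ℂ

def St_TRG : Prop := ∀ f ∈ Wa, ∀ f' ∈ Wa, ∀ N : ℕ, ∃ (Γ : ℝ → ℂ) (C : ℝ) (q : ℕ), ∀ D, 1 ≤ D →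
  ‖Γ D‖ ≤ C * D ^ q ∧ ∀ h : ℝ, 0 < h → h ≤ 1 →
    ‖(h : ℂ) * ∑' n : ℤ, gip f f' D (h * n) - Γ D‖ ≤ C * D ^ q * h ^ N

/-! ## The cylinder -/

open Classical in
/-- the isometry of the fibre onto the `n`-th Fourier mode -/
def io (L δ : ℝ) (n : ℤ) : Y →L[ℂ] L2 (nu L δ) :=
  if h : ∃ T : Y →L[ℂ] L2 (nu L δ), ∀ y,
    T y =ᵐ[nu L δ] fun z => (ex L n z.re * ((√δ : ℝ) : ℂ)⁻¹) • y (z.im / δ) then h.choose else 0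

open Classical in
/-- Fourier multiplier with operator values -/
def Op (L δ : ℝ) (f : ℤ → Y →L[ℂ] Y) : L2 (nu L δ) →L[ℂ] L2 (nu L δ) :=
  if h : ∃ T : L2 (nu L δ) →L[ℂ] L2 (nu L δ), ∀ n, T ∘L io L δ n = io L δ n ∘L f n then h.choose
  else 0

def opw (L δ μ : ℝ) (f : Sy) : L2 (nu L δ) →L[ℂ] L2 (nu L δ) :=
  Op L δ fun n => f (μ * δ) (xi L n / μ)
/-- multiplication by a function of the tangential variable -/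
def sms (L δ : ℝ) (a : ℝ → ℝ) : L2 (nu L δ) →L[ℂ] L2 (nu L δ) := sm (nu L δ) fun z => (a z.re : ℂ)

def St_OP : Prop := ∀ L δ : ℝ, 0 < L → 0 < δ →
  (∀ T T' : L2 (nu L δ) →L[ℂ] L2 (nu L δ), (∀ n, T ∘L io L δ n = T' ∘L io L δ n) → T = T') ∧
  (∀ (f : ℤ → Y →L[ℂ] Y) (c : ℝ), (∀ n, ‖f n‖ ≤ c) →
    ‖Op L δ f‖ ≤ c ∧ ∀ n, Op L δ f ∘L io L δ n = io L δ n ∘L f n) ∧
  (∀ μ n, 0 < μ → PK L δ μ ∘L io L δ n = io L δ n ∘L P1 (μ * δ) (xi L n / μ)) ∧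
  (∀ (M : ℝ → Mat) n, Continuous M →
    mm (nu L δ) (fun z => M (z.im / δ)) ∘L io L δ n = io L δ n ∘L mm nu1 M) ∧
  (∀ n k, sm (nu L δ) (fun z => exp (I * xi L k * z.re)) ∘L io L δ n = io L δ (n + k)) ∧
  (∀ (a a' : ℝ → ℝ) n y y', Continuous a → Continuous a' →
    ⟪sms L δ a (io L δ n y), sms L δ a' (io L δ n y')⟫_ℂ =
      ((∫ s in (0 : ℝ)..L, a s * a' s) / L : ℝ) * ⟪y, y'⟫_ℂ) ∧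
  ∀ n j, io L δ n (f1 j) = fr L δ (n, j)

def St_COM : Prop := ∀ f ∈ Wa, ∀ N : ℕ, ∃ F : ℕ → Sy, (∀ j, F j ∈ Wa) ∧ F 0 = f ∧ ∃ q : ℕ, ∀ K : ℝ,
  ∃ C, ∀ (L δ μ K' : ℝ) (a : ℝ → ℝ), 1 ≤ K → K⁻¹ ≤ L → L ≤ K → 0 < δ → 1 ≤ μ → 1 ≤ μ * δ →
    Per L a → (∀ j ≤ N + 2, ∀ s, |iteratedDeriv j a s| ≤ K') →
    ‖opw L δ μ f * sms L δ a - ∑ j ∈ Finset.range N,
      (((μ ^ j)⁻¹ : ℝ) : ℂ) • (sms L δ (iteratedDeriv j a) * opw L δ μ (F j))‖ ≤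
      C * K' * (μ * δ) ^ q * (μ ^ N)⁻¹

structure Bnd (N : ℕ) (K L : ℝ) (κ : ℝ → ℝ) : Prop where
  kap : Kap L K κ
  lo : K⁻¹ ≤ L
  hi : L ≤ K
  bd : ∀ j ≤ N, ∀ s, |iteratedDeriv j κ s| ≤ K

structure Adk (N : ℕ) (K L δ μ : ℝ) (κ : ℝ → ℝ) : Prop extends Bnd N K L κ where
  dpos : 0 < δ
  big : 1 ≤ μ * δ
  small : 100 * K ^ 3 * δ ≤ 1

def St_NF : Prop := ∀ N : ℕ, ∃ (l : List (List ℕ × Sy)) (N' q : ℕ), (∀ p ∈ l, p.2 ∈ Wa) ∧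
  ∀ K : ℝ, ∃ C, ∀ L δ μ κ, Adk N' K L δ μ κ → ∃ R : L2 (nu L δ) →L[ℂ] L2 (nu L δ),
    ‖R‖ ≤ C * (μ * δ) ^ q * (μ ^ N)⁻¹ ∧ p0 _ * QK L δ μ κ * p0 _ =
      (l.map fun p => (((μ ^ wt p.1)⁻¹ : ℝ) : ℂ) • (sms L δ (mono p.1 κ) *
        (p0 _ * PK L δ μ * opw L δ μ p.2 * PK L δ μ * p0 _))).sum +
      p0 _ * PK L δ μ * R * PK L δ μ * p0 _

def St_COL : Prop := ∀ N : ℕ, ∃ (s : Finset (List ℕ)) (Γ : List ℕ → ℝ → ℝ) (N' q : ℕ),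
  (∀ α ∈ s, wt α < N) ∧ (∃ C, ∀ α D, 1 ≤ D → |Γ α D| ≤ C * D ^ q) ∧
  ∀ K : ℝ, ∃ C, ∀ L δ μ κ, Adk N' K L δ μ κ → HL (p0 _ * QK L δ μ κ * p0 _) (C * μ ^ 2) ∧
    |hsq (sm _ (fun z => chi δ z.im) * (p0 _ * QK L δ μ κ * p0 _)) -
      ∑ α ∈ s, μ / μ ^ wt α * (Γ α (μ * δ) * mint L α κ)| ≤ C * (μ * δ) ^ q * (μ / μ ^ N)

def St_FLAT : Prop := ∀ (N : ℕ) (M : ℝ), 1 ≤ M → ∃ C, ∀ (μ : ℝ) (χ : ℂ → ℝ), 1 ≤ μ →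
  AEStronglyMeasurable χ (nu M M) → (∀ z, |χ z| ≤ 1) → (∀ z, χ z ≠ 0 → z.im ∈ Icc 1 (M / 2)) →
  |hsq (sm _ (fun z => χ z) * (p0 _ * PK M M μ * p0 _)) -
    μ ^ 2 * (∫ z, χ z ^ 2 ∂nu M M) / (4 * Real.pi)| ≤ C * (μ ^ N)⁻¹

/-! ## Domains -/

structure Dom (N : ℕ) (K : ℝ) (Ω : Set ℂ) {n : ℕ} (γ : Fin n → ℝ → ℂ) (L : Fin n → ℝ) : Prop where
  one_le : 1 ≤ K
  fam : Fam Ω γ L K⁻¹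
  box : ∃ a, InBox Ω K a
  card : (n : ℝ) ≤ K
  bnd : ∀ i, Bnd N K (L i) (kap (γ i))

def mI {n : ℕ} (α : List ℕ) (γ : Fin n → ℝ → ℂ) (L : Fin n → ℝ) : ℝ :=
  ∑ i, mint (L i) α (kap (γ i))
/-- the trace without the area term -/
def Ft (Ω : Set ℂ) (μ : ℝ) : ℝ := hsq (GO μ Ω) - μ ^ 2 * vol.real Ω / (4 * Real.pi)

def St_DOM : Prop := ∀ (N n : ℕ) Ω (γ : Fin n → ℝ → ℂ) L δ0, Fam Ω γ L δ0 → ∃ K, Dom N K Ω γ L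

def St_ASM : Prop := ∀ N : ℕ, 2 ≤ N → ∃ (s : Finset (List ℕ)) (Γ : List ℕ → ℝ → ℝ) (N' q : ℕ),
  (∀ α ∈ s, wt α < N) ∧ (∃ C, ∀ α D, 1 ≤ D → |Γ α D| ≤ C * D ^ q) ∧
  ∀ K : ℝ, ∃ C D0 c, 0 < c ∧ ∀ (n : ℕ) Ω (γ : Fin n → ℝ → ℂ) L, Dom N' K Ω γ L →
    ∀ μ D, D0 ≤ D → 1 ≤ D → C * D ≤ μ → 1 ≤ μ →
    |Ft Ω μ - ∑ α ∈ s, μ / μ ^ wt α * (Γ α D * mI α γ L)| ≤
      C * (D ^ q * (μ / μ ^ N) + μ ^ 4 * Real.exp (-(c * D)))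

def St_MIR : Prop := ∀ (N n : ℕ) K Ω (γ : Fin n → ℝ → ℂ) L, Dom N K Ω γ L →
  ∃ Ω' γ', Dom N K Ω' γ' L ∧ (∀ μ, 1 ≤ μ → Ft Ω' μ = Ft Ω μ) ∧
    ∀ α, mI α γ' L = (-1) ^ α.sum * mI α γ L

def Expn (N N' : ℕ) (s : Finset (List ℕ)) (c : List ℕ → ℝ) : Prop :=
  (∀ α ∈ s, wt α < N ∧ Even α.sum ∧ Nrm α) ∧
  ∀ K : ℝ, ∃ C μ0, ∀ (n : ℕ) Ω (γ : Fin n → ℝ → ℂ) L, Dom N' K Ω γ L → ∀ μ, μ0 ≤ μ →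
    |Ft Ω μ - ∑ α ∈ s, μ / μ ^ wt α * (c α * mI α γ L)| ≤ C * (μ * √μ / μ ^ N)

def St_EXP : Prop := ∀ N, 2 ≤ N → ∃ N' s c, Expn N N' s c

/-- the invariant of weight `2m+2` -/
def Jm (m : ℕ) (s : Finset (List ℕ)) (c : List ℕ → ℝ) (L : ℝ) (κ : ℝ → ℝ) : ℝ :=
  mint L [m, m] κ + Sc m * mint L [m - 1, m - 1, 0, 0] κ + ∑ α ∈ s, c α * mint L α κ

def St_INV : Prop := ∀ m, 2 ≤ m → ∃ (s : Finset (List ℕ)) (c : List ℕ → ℝ),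
  (∀ α ∈ s, wt α = 2 * m + 2 ∧ Tame (m - 1) α) ∧
  ∀ Ω Ω' (γ γ' : Fin 1 → ℝ → ℂ) L L' δ δ', Fam Ω γ L δ → Fam Ω' γ' L' δ' →
    (∀ μ, 1 ≤ μ → Ft Ω μ = Ft Ω' μ) → Jm m s c (L 0) (kap (γ 0)) = Jm m s c (L' 0) (kap (γ' 0))

/-! ## Curves and domains -/

def St_GEO1 : Prop := ∀ f ∈ Jordan, ∀ Ω, Defs.SmoothDomain Ω →
  frontier Ω = range (UniformFun.toFun (f 0)) → ∃ (σ v : ℝ) (φ : ℂ → ℝ), (σ = 1 ∨ σ = -1) ∧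
    0 < v ∧ v = ‖UniformFun.toFun (f 1) 0‖ ∧
    Geo Ω (fun (_ : Fin 1) s => UniformFun.toFun (f 0) (σ * s / v)) (fun _ => 2 * Real.pi * v) φ ∧
    ∀ s, kap (fun s => UniformFun.toFun (f 0) (σ * s / v)) s =
      σ * ((UniformFun.toFun (f 2) (σ * s / v) * conj (UniformFun.toFun (f 1) (σ * s / v))).im /
        v ^ 2) / v

def St_SCL : Prop := ∀ (σ v : ℝ) (k : ℝ → ℝ) α, (σ = 1 ∨ σ = -1) → 0 < v → Per (2 * Real.pi) k →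
  mint (2 * Real.pi * v) α (fun s => σ * k (σ * s / v) / v) =
    σ ^ wt α * (v / v ^ wt α) * mint (2 * Real.pi) α k

def St_CONG : Prop := ∀ Ω Ω' (γ γ' : ℝ → ℂ) (L σ s0 : ℝ) φ φ',
  Geo Ω (fun _ : Fin 1 => γ) (fun _ => L) φ → Geo Ω' (fun _ : Fin 1 => γ') (fun _ => L) φ' →
  IsConnected Ω → IsConnected Ω' → (σ = 1 ∨ σ = -1) → (∀ s, kap γ' s = kap γ (σ * s + s0)) →
  ∃ e : ℂ ≃ᵢ ℂ, e '' Ω = Ω'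

end Pool.Agent.Lib.ISO
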