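import Pool.Agent.Lib.ISO.BlueK
import Pool.Agent.Lib.ISO.BlueE

/-! Assembly of the blocks. -/

open scoped ContDiff ComplexConjugate Topology
open Complex Set Filter MeasureTheory

noncomputable section

namespace Pool.Agent.Lib.ISO

open Pool.Agent.Lib.MP_312682_mp

def St_MAIN : Prop := ∃ G : Set Jordan, IsGδ G ∧ Dense G ∧ ∀ f ∈ G, ∀ g ∈ G, ∀ Ω Ω' : Set ℂ,
  Defs.SmoothDomain Ω → Defs.SmoothDomain Ω' → frontier Ω = range (UniformFun.toFun (f.1 0)) →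
  frontier Ω' = range (UniformFun.toFun (g.1 0)) → (∀ n, Defs.dirEig Ω n = Defs.dirEig Ω' n) →
  ∃ e : ℂ ≃ᵢ ℂ, e '' Ω = Ω'

namespace Main

lemma Tm_nonneg (r : ℕ) (z : ℤ → ℂ) : 0 ≤ Tm r z := Real.sqrt_nonneg _

/-- the invariants on the Fourier side -/
lemma inv_of (hFOU : St_FOU) (hTAME : St_TAME) (s : ℕ → Finset (List ℕ)) (c : ℕ → List ℕ → ℝ)
    (hs : ∀ m, 2 ≤ m → ∀ α ∈ s m, wt α = 2 * m + 2 ∧ Tame (m - 1) α) :
    ∃ C : ℕ → ℝ, ∀ k k', Per (2 * Real.pi) k → Per (2 * Real.pi) k' →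
      (∀ m, 2 ≤ m → Jm m (s m) (c m) (2 * Real.pi) k = Jm m (s m) (c m) (2 * Real.pi) k') →
      ∀ B, 1 ≤ B → An (fc k) ≤ B → An (fc k') ≤ B → Inv C B (fc k) (fc k') := by
  have h1 : ∀ r α, ∃ C, 0 ≤ C ∧ (1 ≤ r → Tame r α → ∀ k B, Per (2 * Real.pi) k → 1 ≤ B →
      An (fc k) ≤ B → |mint (2 * Real.pi) α k| ≤ C * B ^ α.length * Tm r (fc k)) := by
    intro r α
    by_cases h : 1 ≤ r ∧ Tame r α
    · obtain ⟨C, h0, h2⟩ := hTAME r α h.1 h.2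
      exact ⟨C, h0, fun _ _ => h2⟩
    · exact ⟨0, le_rfl, fun a b => (h ⟨a, b⟩).elim⟩
  choose CT h0 hT using h1
  refine ⟨fun m => ∑ α ∈ s m, |c m α| * CT (m - 1) α, fun k k' hk hk' hJ B hB a1 a2 m hm => ?_⟩
  have e : ∀ k, Per (2 * Real.pi) k → Jm m (s m) (c m) (2 * Real.pi) k =
      2 * Real.pi * Iv m (fc k) + ∑ α ∈ s m, c m α * mint (2 * Real.pi) α k := fun k hk => by
    obtain ⟨-, f1, f2, -⟩ := hFOU k hk
    rw [Jm, f1, f2, Iv]; ring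
  have b : ∀ k, Per (2 * Real.pi) k → An (fc k) ≤ B → |∑ α ∈ s m, c m α * mint (2 * Real.pi) α k| ≤
      (∑ α ∈ s m, |c m α| * CT (m - 1) α) * B ^ (2 * m + 2) * Tm (m - 1) (fc k) := fun k hk a => by
    rw [Finset.sum_mul, Finset.sum_mul]
    refine (Finset.abs_sum_le_sum_abs _ _).trans (Finset.sum_le_sum fun α hα => ?_)
    have h2 := hT (m - 1) α (by omega) (hs m hm α hα).2 k B hk hB a
    have h3 : B ^ α.length ≤ B ^ (2 * m + 2) :=
      pow_le_pow_right₀ hB (by have := (hs m hm α hα).1; unfold wt at this; omega)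
    rw [abs_mul, mul_assoc, mul_assoc]
    refine mul_le_mul_of_nonneg_left (h2.trans ?_) (abs_nonneg _)
    rw [mul_assoc]
    exact mul_le_mul_of_nonneg_left (mul_le_mul_of_nonneg_right h3 (Tm_nonneg _ _)) (h0 _ _)
  have h4 := hJ m hm
  rw [e k hk, e k' hk'] at h4
  have h5 : |2 * Real.pi * (Iv m (fc k) - Iv m (fc k'))| ≤
      (∑ α ∈ s m, |c m α| * CT (m - 1) α) * B ^ (2 * m + 2) *
        (Tm (m - 1) (fc k) + Tm (m - 1) (fc k')) := by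
    have b1 := abs_le.1 (b k hk a1)
    have b2 := abs_le.1 (b k' hk' a2)
    rw [abs_le]; constructor <;> nlinarith [b1.1, b1.2, b2.1, b2.2]
  refine le_trans ?_ h5
  rw [abs_mul, abs_of_pos Real.two_pi_pos]
  exact le_mul_of_one_le_left (abs_nonneg _) (by linarith [Real.pi_gt_three])

lemma Jm_scl (hSCL : St_SCL) {m : ℕ} (hm : 2 ≤ m) {s : Finset (List ℕ)} (c : List ℕ → ℝ)
    (hs : ∀ α ∈ s, wt α = 2 * m + 2) {σ v : ℝ} {k : ℝ → ℝ} (hσ : σ = 1 ∨ σ = -1) (hv : 0 < v)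
    (hk : Per (2 * Real.pi) k) :
    Jm m s c (2 * Real.pi * v) (fun s => σ * k (σ * s / v) / v) =
      v / v ^ (2 * m + 2) * Jm m s c (2 * Real.pi) k := by
  have e : ∀ α, wt α = 2 * m + 2 → mint (2 * Real.pi * v) α (fun s => σ * k (σ * s / v) / v) =
      v / v ^ (2 * m + 2) * mint (2 * Real.pi) α k := fun α h => by
    rw [hSCL σ v k α hσ hv hk, h]
    have : σ ^ (2 * m + 2) = 1 := by
      rcases hσ with rfl | rfl
      · simp
      · exact Even.neg_one_pow ⟨m + 1, by ring⟩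
    rw [this, one_mul]
  rw [Jm, Jm, e _ (by simp [wt]; omega), e _ (by simp [wt]; omega),
    Finset.sum_congr rfl fun α hα => by rw [e α (hs α hα)], mul_add, mul_add, Finset.mul_sum]
  refine congrArg₂ _ (by ring) (Finset.sum_congr rfl fun α _ => by ring)

lemma four_inv (hFOU : St_FOU) {k k' : ℝ → ℝ} (hk : Per (2 * Real.pi) k) (hk' : Per (2 * Real.pi) k')
    {e τ : ℤ} {α : ℝ} (hτ : τ = 1 ∨ τ = -1)
    (h : ∀ j, fc k j = e * exp (I * j * α) * fc k' (τ * j)) (s : ℝ) :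
    k s = e * k' (τ * (s + α)) := by
  have h1 := (hFOU k hk).2.2.2.2.2.1 s
  have h2 := ((hFOU k' hk').2.2.2.2.2.1 (τ * (s + α))).mul_left (e : ℂ)
  have h3 : HasSum (fun j : ℤ => (e : ℂ) * (fc k' (τ * j) *
      exp (I * (τ * j : ℤ) * (τ * (s + α) : ℝ)))) (e * k' (τ * (s + α))) := by
    rcases hτ with rfl | rfl
    · simpa using h2
    · have := (Equiv.neg ℤ).hasSum_iff.2 h2
      simpa [Function.comp_def] using this
  have h4 : (fun j : ℤ => fc k j * exp (I * j * s)) = fun j : ℤ => (e : ℂ) * (fc k' (τ * j) *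
      exp (I * (τ * j : ℤ) * (τ * (s + α) : ℝ))) := by
    funext j
    have : I * (τ * j : ℤ) * (τ * (s + α) : ℝ) = I * j * α + I * j * s := by
      rcases hτ with rfl | rfl <;> push_cast <;> ring
    rw [h j, this, exp_add]; ring
  rw [h4] at h1
  exact_mod_cast h1.unique h3

end Main

open Main in
theorem st_main (hINV : St_INV) (hTAME : St_TAME) (hFOU : St_FOU) (hSCL : St_SCL) (hDM : St_DM)
    (hK5 : St_K5) (hK6 : St_K6) (hK7 : St_K7) (hBAIRE : St_BAIRE) (hOPEN : St_OPEN)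
    (hDENSE : St_DENSE) (hGEO1 : St_GEO1) (hCONG : St_CONG) : St_MAIN := by
  have h1 : ∀ m, ∃ (s : Finset (List ℕ)) (c : List ℕ → ℝ), 2 ≤ m →
      (∀ α ∈ s, wt α = 2 * m + 2 ∧ Tame (m - 1) α) ∧
      ∀ Ω Ω' (γ γ' : Fin 1 → ℝ → ℂ) L L' δ δ', Fam Ω γ L δ → Fam Ω' γ' L' δ' →
        (∀ μ, 1 ≤ μ → Ft Ω μ = Ft Ω' μ) →
        Jm m s c (L 0) (kap (γ 0)) = Jm m s c (L' 0) (kap (γ' 0)) := fun m => by
    by_cases hm : 2 ≤ m
    · obtain ⟨s, c, h⟩ := hINV m hm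
      exact ⟨s, c, fun _ => h⟩
    · exact ⟨∅, 0, fun h => (hm h).elim⟩
  choose s c hsc using h1
  obtain ⟨C, hC⟩ := inv_of hFOU hTAME s c fun m hm => (hsc m hm).1
  obtain ⟨W0, hW⟩ := hDM C
  have : BaireSpace Jordan := hBAIRE
  let U : {p : ℕ × (ℤ →₀ ℚ × ℚ) // Env p.1 (ra p.2)} → Set Jordan := fun p =>
    {f | ∃ M W, p.1.1 ≤ M ∧ W0 p.1.1 M ≤ W ∧ Mk M W (ra p.1.2) (fc (kf f.1))}
  have hU : ∀ p, IsOpen (U p) := fun p => by
    have : U p = ⋃ M, ⋃ W, ⋃ _ : p.1.1 ≤ M ∧ W0 p.1.1 M ≤ W,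
        {f : Jordan | Mk M W (ra p.1.2) (fc (kf f.1))} := by
      ext f; simp [U]
    rw [this]
    exact isOpen_iUnion fun M => isOpen_iUnion fun W => isOpen_iUnion fun _ =>
      hOPEN.2 M W _ _ p.2
  refine ⟨⋂ p, U p, IsGδ.iInter_of_isOpen hU,
    dense_iInter_of_isOpen hU fun p => hDENSE _ _ _ _ p.2, ?_⟩
  intro f hf g hg Ω Ω' hΩ hΩ' e1 e2 hs
  have gf : Gm W0 (fc (kf f.1)) := fun j l h => mem_iInter.1 hf ⟨(j, l), h⟩
  have gg : Gm W0 (fc (kf g.1)) := fun j l h => mem_iInter.1 hg ⟨(j, l), h⟩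
  have pf := hOPEN.1 f.1 f.2
  have pg := hOPEN.1 g.1 g.2
  obtain ⟨σ, v, φ, hσ, hv, ev, G1, k1⟩ := hGEO1 f.1 f.2 Ω hΩ e1
  obtain ⟨σ', v', φ', hσ', hv', ev', G2, k2⟩ := hGEO1 g.1 g.2 Ω' hΩ' e2
  have k1' : kap (fun s => UniformFun.toFun (f.1 0) (σ * s / v)) =
      fun s => σ * kf f.1 (σ * s / v) / v := funext fun s => by rw [k1, kf, ← ev]
  have k2' : kap (fun s => UniformFun.toFun (g.1 0) (σ' * s / v')) =
      fun s => σ' * kf g.1 (σ' * s / v') / v' := funext fun s => by rw [k2, kf, ← ev']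
  obtain ⟨δ, F1, -⟩ := G1.fam
  obtain ⟨δ', F2, -⟩ := G2.fam
  obtain ⟨C1, t1⟩ := trace_asym F1
  obtain ⟨C2, t2⟩ := trace_asym F2
  obtain ⟨c1, -, l1⟩ := HL_GO G1.bdd
  obtain ⟨c2, -, l2⟩ := HL_GO G2.bdd
  have eq : ∀ μ : ℝ, 1 ≤ μ → hsq (GO μ Ω) = hsq (GO μ Ω') := fun μ hμ =>
    hsq_GO_eq (by positivity) (l1 _ hμ).ne_top (l2 _ hμ).ne_top (CC_congr hs)
  obtain ⟨eA, eL, -, eE⟩ := tr4_unique t1 (by
    filter_upwards [t2, eventually_ge_atTop 1] with τ e t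
    rwa [eq _ (one_le_pow₀ (n := 6) t)])
  simp only [Finset.univ_unique, Finset.sum_singleton] at eL eE
  obtain rfl : v = v' := mul_left_cancel₀ Real.two_pi_pos.ne' eL
  have hJ : ∀ m, 2 ≤ m → Jm m (s m) (c m) (2 * Real.pi) (kf f.1) =
      Jm m (s m) (c m) (2 * Real.pi) (kf g.1) := fun m hm => by
    have := (hsc m hm).2 _ _ _ _ _ _ _ _ F1 F2 fun μ hμ => by rw [Ft, Ft, eq μ hμ, eA]
    rw [k1', k2', Jm_scl hSCL hm _ (fun α h => ((hsc m hm).1 α h).1) hσ hv pf,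
      Jm_scl hSCL hm _ (fun α h => ((hsc m hm).1 α h).1) hσ' hv pg] at this
    exact mul_left_cancel₀ (by positivity) this
  have q1 := (hFOU _ pf).1
  have q2 := (hFOU _ pg).1
  have D1 := hW _ _ q1 q2 (hC _ _ pf pg hJ) gf
  have D2 := hW _ _ q2 q1 (hC _ _ pg pf fun m hm => (hJ m hm).symm) gg
  have sq : ∀ {σ : ℝ} {k : ℝ → ℝ}, (σ = 1 ∨ σ = -1) → Per (2 * Real.pi) k →
      ∫ s in (0 : ℝ)..(2 * Real.pi * v), (σ * k (σ * s / v) / v) ^ 2 =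
        v / v ^ 2 * ∫ s in (0 : ℝ)..(2 * Real.pi), k s ^ 2 := fun {σ k} hσ hk => by
    have := hSCL σ v k [0, 0] hσ hv hk
    have e : σ ^ 2 = 1 := by rcases hσ with rfl | rfl <;> simp
    simpa [mint, mono, wt, e, sq] using this
  have z0 : ∀ {σ : ℝ} {k : ℝ → ℝ}, (σ = 1 ∨ σ = -1) → Per (2 * Real.pi) k →
      ∫ s in (0 : ℝ)..(2 * Real.pi * v), σ * k (σ * s / v) / v = 2 * Real.pi → fc k 0 = σ :=
    fun {σ k} hσ hk h => by
    have := hSCL σ v k [0] hσ hv hk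
    simp only [mint, mono, wt, List.map_cons, List.map_nil, List.prod_cons, List.prod_nil,
      iteratedDeriv_zero, mul_one, List.length_singleton, List.sum_cons, List.sum_nil, add_zero,
      pow_one, div_self hv.ne'] at this
    rw [(hFOU k hk).2.2.2.2.1, ofReal_inj, div_eq_iff Real.two_pi_pos.ne']
    rw [h] at this
    rcases hσ with rfl | rfl <;> linarith
  obtain ⟨i1, o1, -⟩ := G1.outer hΩ.2.1.2 hΩ.2.1.1
  obtain ⟨i2, o2, -⟩ := G2.outer hΩ'.2.1.2 hΩ'.2.1.1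
  rw [k1'] at o1
  rw [k2'] at o2
  have z1 := z0 hσ pf o1
  have z2 := z0 hσ' pg o2
  have ev0 : cv (fc (kf f.1)) (fc (kf f.1)) 0 = cv (fc (kf g.1)) (fc (kf g.1)) 0 := by
    rw [k1', k2', sq hσ pf, sq hσ' pg] at eE
    rw [(hFOU _ pf).2.2.2.1, (hFOU _ pg).2.2.2.1, mul_left_cancel₀ (by positivity) eE]
  obtain ⟨n1, n2⟩ := hK6 _ _ q1 q2 D1 (hK5 _ _ q1 q2 D1 D2 ev0)
  obtain ⟨e, τ, α, he, hτ, hz⟩ := hK7 _ _ q1 q2 D1
    (by rw [z1]; rcases hσ with rfl | rfl <;> simp) n1 n2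
  have es : σ * e = σ' := by
    have := hz 0
    simp only [Int.cast_zero, mul_zero, zero_mul, exp_zero, mul_one, z1, z2] at this
    have h2 : σ = e * σ' := by exact_mod_cast this
    rcases he with rfl | rfl <;> simp [h2]
  obtain ⟨E, hE⟩ := hCONG Ω' Ω _ _ _ (σ' * τ * σ) (σ' * τ * α * v) _ _ G2 G1 hΩ'.2.1 hΩ.2.1
    (by rcases hσ with rfl | rfl <;> rcases hσ' with rfl | rfl <;> rcases hτ with rfl | rfl <;> simp)
    (fun s => by
      rw [k1', k2']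
      have : σ' * (σ' * τ * σ * s + σ' * τ * α * v) / v = τ * (σ * s / v + α) := by
        have e : σ' * σ' = 1 := by rcases hσ' with rfl | rfl <;> simp
        field_simp
        linear_combination (τ * (σ * s + α * v)) * e
      simp only [this]
      rw [four_inv hFOU pf pg hτ hz, ← mul_assoc, es])
  exact ⟨E.symm, by rw [← hE, ← image_comp]; simp⟩

end Pool.Agent.Lib.ISO
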