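import Pool.Agent.Lib.ISO.B_K43

/-! Block K4, part 4: the Schur bound and the marker side. -/

open scoped ComplexConjugate

noncomputable section

namespace Pool.Agent.Lib.ISO.K4

variable {z a b : ℤ → ℂ} {W M J : ℕ} {B : ℝ}

lemma l1_le (h : Sq z) (hB : An z ≤ B) {f : ℤ → ℤ} (hf : f.Injective) (s : Finset ℤ) :
    ∑ j ∈ s, ‖z (f j)‖ ≤ B := by
  have h1 : Summable fun j : ℤ => (1 + |(j : ℝ)|) * ‖z j‖ :=
    ((Dec.zero h.dec).add (h.dec 1)).congr fun j => by ring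
  rw [show ∑ j ∈ s, ‖z (f j)‖ = ∑ j ∈ s.map ⟨f, hf⟩, ‖z j‖ from
    (Finset.sum_map s ⟨f, hf⟩ fun j => ‖z j‖).symm]
  refine le_trans (Finset.sum_le_sum fun j _ => ?_)
    ((h1.sum_le_tsum _ fun _ _ => by positivity).trans hB)
  exact le_mul_of_one_le_left (norm_nonneg _) (le_add_of_nonneg_right (abs_nonneg _))

lemma cv_le (h : Sq z) (hB : An z ≤ B) {f : ℤ → ℤ} (hf : f.Injective) (s : Finset ℤ) :
    ∑ j ∈ s, ‖cv z z (f j)‖ ≤ B ^ 2 := by
  have B0 : 0 ≤ B := by simpa using l1_le h hB hf ∅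
  have h0 := Dec.zero h.dec
  have S : ∀ j, Summable fun i => ‖z i * z (j - i)‖ := fun j =>
    Summable.of_nonneg_of_le (fun _ => norm_nonneg _) (fun i => by
      rw [norm_mul]
      exact mul_le_mul_of_nonneg_left (by simpa using l1_le h hB Function.injective_id {j - i})
        (norm_nonneg _)) (h0.mul_right B)
  have H := hasSum_sum (s := s) fun j _ => (S (f j)).hasSum
  refine (Finset.sum_le_sum fun j _ => norm_tsum_le_tsum_norm (S _)).trans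
    ((hasSum_le (fun i => ?_) H (h0.hasSum.mul_right B)).trans ?_)
  · simp only [norm_mul, ← Finset.mul_sum]
    exact mul_le_mul_of_nonneg_left (l1_le h hB (f := fun j => f j - i)
      (fun _ _ e => hf (sub_left_injective e)) s) (norm_nonneg _)
  · rw [pow_two]
    exact mul_le_mul_of_nonneg_right
      (h0.tsum_le_of_sum_le fun s => l1_le h hB Function.injective_id s) B0

lemma schur (h : Sq z) (hB : An z ≤ B) (a : ℤ → ℂ) (W : ℕ) :
    |qf (cv z z) a W| ≤ B ^ 2 * mom 0 a W := by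
  refine (Complex.abs_re_le_norm _).trans ((norm_sum_le _ _).trans
    ((Finset.sum_le_sum fun t _ => norm_sum_le _ _).trans ?_))
  have h1 : ∀ t t', ‖a t * conj (a t') * cv z z (t' - t)‖ ≤
      ‖a t‖ ^ 2 / 2 * ‖cv z z (t' - t)‖ + ‖a t'‖ ^ 2 / 2 * ‖cv z z (t' - t)‖ := fun t t' => by
    rw [norm_mul, norm_mul, Complex.norm_conj, ← add_mul]
    exact mul_le_mul_of_nonneg_right (by nlinarith [sq_nonneg (‖a t‖ - ‖a t'‖)]) (norm_nonneg _)
  refine (Finset.sum_le_sum fun t _ => Finset.sum_le_sum fun t' _ => h1 t t').trans ?_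
  simp only [Finset.sum_add_distrib]
  rw [Finset.sum_comm (f := fun t t' => ‖a t'‖ ^ 2 / 2 * ‖cv z z (t' - t)‖), ← Finset.sum_add_distrib,
    mom, Finset.mul_sum]
  refine Finset.sum_le_sum fun t _ => ?_
  rw [← Finset.mul_sum, ← Finset.mul_sum]
  have h2 := cv_le h hB (f := fun t' => t' - t) sub_left_injective (win W)
  have h3 := cv_le h hB (f := fun t' => t - t') sub_right_injective (win W)
  have h4 : 0 ≤ ‖a t‖ ^ 2 / 2 := by positivity
  nlinarith [mul_le_mul_of_nonneg_left h2 h4, mul_le_mul_of_nonneg_left h3 h4]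

lemma qf_sh (u z : ℤ → ℂ) (W : ℕ) (A : ℝ) : qf u (sh z W A) W = qf u (sh z W 1) W / A ^ 2 := by
  rw [qf, qf, ← Complex.div_ofReal_re, Finset.sum_div]
  refine congrArg Complex.re (Finset.sum_congr rfl fun t _ => ?_)
  rw [Finset.sum_div]
  refine Finset.sum_congr rfl fun t' _ => ?_
  simp only [sh, map_div₀, Complex.conj_ofReal, Complex.ofReal_one, div_one, Complex.ofReal_pow]
  ring

lemma gm_zero (ha : Env J a) {ξ : ℤ} (h : (J : ℤ) < |(|ξ| - (W : ℤ) ^ 2)|) : gm a W ξ = 0 := by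
  have h0 : (0 : ℤ) ≤ (W : ℤ) ^ 2 := by positivity
  rw [gm, ha.1, ha.1, map_zero, add_zero]
  all_goals
    rw [lt_abs] at h ⊢
    rcases abs_cases ξ with k | k <;> omega

lemma mk_le (hz : Sq z) (ha : Env J a) (hm : Mk M W a z) {f : ℤ → ℝ} {F c : ℝ} (hf : HasSum f F)
    (hc : 0 ≤ c) (hw : ∀ ξ, f ξ ≤ c * if (W : ℤ) < |ξ| then
      (ξ : ℝ) ^ (2 * (2 * M + 8)) * ‖z ξ - amp M W * gm a W ξ‖ ^ 2 else 0) : F ≤ c * amp M W ^ 2 := by
  have h1 : Dec fun ξ => z ξ - amp M W * gm a W ξ := fun r => by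
    have h2 : Summable fun j : ℤ => |(j : ℝ)| ^ r * ‖amp M W * gm a W j‖ := by
      refine summable_of_ne_finset_zero (s := win (W ^ 2 + J)) fun j hj => ?_
      rw [mem_win] at hj
      rw [gm_zero ha, mul_zero, norm_zero, mul_zero]
      rw [lt_abs]
      push_cast at hj
      omega
    refine Summable.of_nonneg_of_le (fun j => by positivity) (fun j => ?_) ((hz.dec r).add h2)
    rw [← mul_add]
    exact mul_le_mul_of_nonneg_left (norm_sub_le _ _) (by positivity)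
  have h2 : Summable fun ξ : ℤ => if (W : ℤ) < |ξ| then
      (ξ : ℝ) ^ (2 * (2 * M + 8)) * ‖z ξ - amp M W * gm a W ξ‖ ^ 2 else 0 := by
    refine Summable.of_nonneg_of_le (fun j => ?_) (fun j => ?_) (h1.sq (2 * (2 * M + 8)))
    all_goals
      simp only [pow_mul, sq_abs]
      split_ifs
      all_goals first | positivity | exact le_rfl
  exact (hasSum_le hw hf (h2.hasSum.mul_left c)).trans (mul_le_mul_of_nonneg_left hm.le hc)

lemma pow_ge (hW : 4 ≤ W) {ξ : ℤ} (h : (W : ℤ) < |ξ|) {k e : ℕ} (hk : k ≤ 2 * e) :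
    (W : ℝ) ^ k ≤ (ξ : ℝ) ^ (2 * e) := by
  have h1 : (W : ℝ) ≤ |(ξ : ℝ)| := by exact_mod_cast h.le
  have h2 : (4 : ℝ) ≤ W := by exact_mod_cast hW
  rw [← (even_two_mul e).pow_abs]
  exact (pow_le_pow_right₀ (by linarith) hk).trans (pow_le_pow_left₀ (by linarith) h1 _)

lemma jk_le (hW : 4 ≤ W) (hJ : J ≤ W) (hz : Sq z) (ha : Env J a) (hm : Mk M W a z) :
    Jk (2 * M + 4) W z ≤ 2 * (W : ℝ)⁻¹ ^ 8 * amp M W ^ 2 := by
  refine mk_le hz ha hm (sum_Jk hz.dec _ W) (by positivity) fun ξ => ?_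
  have h2 : (4 : ℝ) ≤ W := by exact_mod_cast hW
  have hW' : (4 : ℤ) ≤ W := by exact_mod_cast hW
  have hq : 4 * (W : ℤ) ≤ (W : ℤ) ^ 2 := by nlinarith
  split_ifs with k1 k2 k2
  · rw [gm_zero ha (by omega), mul_zero, sub_zero, ← mul_assoc]
    refine mul_le_mul_of_nonneg_right ?_ (by positivity)
    have h3 : ∀ e, 2 ≤ e → e ≤ 2 * M + 8 → yy W ξ ^ e ≤ (W : ℝ)⁻¹ ^ 8 * (ξ : ℝ) ^ (2 * (2 * M + 8)) :=
      fun e e1 e2 => by
      have h4 := pow_ge hW k2 (k := 0) (e := 1) (by norm_num)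
      rw [yy, div_pow, inv_pow, ← div_eq_inv_mul, pow_mul, ← pow_mul (W : ℝ)]
      exact div_le_div₀ (by positivity) (pow_le_pow_right₀ (by simpa using h4) e2) (by positivity)
        (pow_le_pow_right₀ (by linarith) (by omega))
    linarith [h3 (2 * M + 4) (by omega) (by omega), h3 (2 * M + 4 + 4) (by omega) (by omega)]
  · exact absurd k1.1 k2
  · rw [pow_mul]; positivity
  · simp

lemma out_le (hW : 4 ≤ W) (hJ : J ≤ W) (hz : Sq z) (ha : Env J a) (hm : Mk M W a z) :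
    Nr W z - 2 * mom 0 (sh z W 1) W - 2 * mom 2 (sh z W 1) W ≤ (W : ℝ)⁻¹ * amp M W ^ 2 := by
  refine mk_le hz ha hm (((sum_Nr hz.dec W).sub (sum_win hz hW 0)).sub (sum_win hz hW 2))
    (by positivity) fun ξ => ?_
  have h2 : (4 : ℝ) ≤ W := by exact_mod_cast hW
  have hW' : (4 : ℤ) ≤ W := by exact_mod_cast hW
  have hq : 4 * (W : ℤ) ≤ (W : ℤ) ^ 2 := by nlinarith
  have h0 : 0 ≤ (W : ℝ)⁻¹ * if (W : ℤ) < |ξ| then
      (ξ : ℝ) ^ (2 * (2 * M + 8)) * ‖z ξ - amp M W * gm a W ξ‖ ^ 2 else 0 := by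
    rw [pow_mul]; split_ifs <;> positivity
  by_cases k2 : |(|ξ| - (W : ℤ) ^ 2)| ≤ W
  · rw [if_pos k2, if_pos k2, if_pos (by omega)]
    exact le_of_eq_of_le (by ring) h0
  rw [if_neg k2, if_neg k2, sub_zero, sub_zero]
  by_cases k3 : 2 * |(|ξ| - (W : ℤ) ^ 2)| ≤ (W : ℤ) ^ 2
  swap
  · rwa [if_neg k3]
  have k1 : (W : ℤ) < |ξ| := by have := neg_abs_le (|ξ| - (W : ℤ) ^ 2); omega
  rw [if_pos k3, if_pos k1, gm_zero ha (by omega), mul_zero, sub_zero, ← mul_assoc]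
  refine mul_le_mul_of_nonneg_right ?_ (by positivity)
  have h3 := pow_ge hW k1 (k := 5) (e := 2 * M + 8) (by omega)
  have h4 := cast_near k3
  have h5 := abs_nonneg (|(ξ : ℝ)| - (W : ℝ) ^ 2)
  have h6 : (16 : ℝ) ≤ (W : ℝ) ^ 2 := by nlinarith
  rw [← sq_abs (|(ξ : ℝ)| - (W : ℝ) ^ 2), le_inv_mul_iff₀ (by linarith)]
  refine le_trans ?_ h3
  rw [show (W : ℝ) ^ 5 = W * (W ^ 2) ^ 2 by ring]
  exact mul_le_mul_of_nonneg_left (by nlinarith) (by linarith)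

lemma near_le (hW : 4 ≤ W) (hJ : J ≤ W) (hz : Sq z) (ha : Env J a) (hm : Mk M W a z) {t : ℤ}
    (ht : t ∈ win W) : ‖sh z W (amp M W) t - a t‖ ≤ (W : ℝ)⁻¹ ^ 4 := by
  have h2 : (4 : ℝ) ≤ W := by exact_mod_cast hW
  have hW' : (4 : ℤ) ≤ W := by exact_mod_cast hW
  have hq : 4 * (W : ℤ) ≤ (W : ℤ) ^ 2 := by nlinarith
  have A0 : 0 < amp M W := by unfold amp; positivity
  rw [mem_win, abs_le] at ht
  have k1 : (W : ℤ) < |(W : ℤ) ^ 2 + t| := by rw [lt_abs]; omega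
  have h3 := mk_le hz ha hm (hasSum_ite_eq ((W : ℤ) ^ 2 + t)
    (‖z ((W : ℤ) ^ 2 + t) - amp M W * a t‖ ^ 2)) (c := ((W : ℝ)⁻¹ ^ 4) ^ 2) (by positivity) fun ξ => by
    by_cases k : ξ = (W : ℤ) ^ 2 + t
    · rw [if_pos k, k, if_pos k1, gm, add_sub_cancel_left, ha.1 (-_ - _) (by rw [lt_abs]; omega),
        map_zero, add_zero, ← mul_assoc]
      refine le_mul_of_one_le_left (by positivity) ?_
      rw [← pow_mul, inv_pow, le_inv_mul_iff₀ (by positivity), mul_one]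
      exact pow_ge hW k1 (by omega)
    · rw [if_neg k, pow_mul]; split_ifs <;> positivity
  rw [← mul_pow] at h3
  have h4 : (amp M W : ℂ) ≠ 0 := Complex.ofReal_ne_zero.2 A0.ne'
  rw [sh, div_sub' h4, norm_div, Complex.norm_real, Real.norm_of_nonneg A0.le, div_le_iff₀ A0]
  exact (pow_le_pow_iff_left₀ (norm_nonneg _) (by positivity) two_ne_zero).1 h3

lemma sum_env (hJ : J ≤ W) (ha : Env J a) {E : Type} [AddCommMonoid E] (f : ℤ → E)
    (hf : ∀ t, a t = 0 → f t = 0) : ∑ t ∈ win J, f t = ∑ t ∈ win W, f t :=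
  Finset.sum_subset (fun t ht => by rw [mem_win] at ht ⊢; omega) fun t _ ht =>
    hf t (ha.1 t (by rwa [mem_win, not_le] at ht))

lemma sum_win_le (hW : 4 ≤ W) {f : ℤ → ℝ} {c : ℝ} (hc : 0 ≤ c) (hf : ∀ t ∈ win W, f t ≤ c) :
    ∑ t ∈ win W, f t ≤ 3 * W * c := by
  refine (Finset.sum_le_card_nsmul _ _ _ hf).trans ?_
  have h1 : (win W).card ≤ 3 * W := by rw [win, Int.card_Icc]; omega
  rw [nsmul_eq_mul]
  exact mul_le_mul_of_nonneg_right (by exact_mod_cast h1) hc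

lemma prod_le {p q p' q' : ℂ} {c u : ℝ} (h1 : ‖p - q‖ ≤ u) (h2 : ‖p' - q'‖ ≤ u) (h3 : ‖q‖ ≤ c)
    (h4 : ‖q'‖ ≤ c) (h5 : u ≤ 1) : ‖p * conj p' - q * conj q'‖ ≤ (2 * c + 1) * u := by
  rw [show p * conj p' - q * conj q' = (p - q) * conj (p' - q') + ((p - q) * conj q' +
    q * conj (p' - q')) by rw [map_sub]; ring]
  have u0 := (norm_nonneg _).trans h1
  have c0 := (norm_nonneg _).trans h3
  refine (norm_add_le _ _).trans ((add_le_add_right (norm_add_le _ _) _).trans ?_)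
  simp only [norm_mul, Complex.norm_conj]
  linarith [mul_le_mul (h1.trans h5) h2 (norm_nonneg _) zero_le_one,
    mul_le_mul h1 h4 (norm_nonneg _) u0, mul_le_mul h3 h2 (norm_nonneg _) c0]

lemma inv4 (hW : 4 ≤ W) : (W : ℝ)⁻¹ ^ 4 ≤ 1 :=
  pow_le_one₀ (by positivity) (inv_le_one_of_one_le₀ (by exact_mod_cast (by omega : 1 ≤ W)))

lemma mom_diff (hW : 4 ≤ W) (hJ : J ≤ W) (ha : Env J a)
    (hb : ∀ t ∈ win W, ‖b t - a t‖ ≤ (W : ℝ)⁻¹ ^ 4) {e : ℕ} (he : e ≤ 2) :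
    |mom e b W - mom e a J| ≤ 3 * (2 * J + 1) * (W : ℝ)⁻¹ := by
  have h2 : (4 : ℝ) ≤ W := by exact_mod_cast hW
  rw [mom, mom, sum_env hJ ha _ (fun t h => by simp [h]), ← Finset.sum_sub_distrib]
  refine (Finset.abs_sum_le_sum_abs _ _).trans ((sum_win_le hW
    (c := W ^ 2 * ((2 * J + 1) * (W : ℝ)⁻¹ ^ 4)) (by positivity) fun t ht => ?_).trans_eq
    (by field_simp))
  rw [← mul_sub, abs_mul, abs_pow]
  refine mul_le_mul ?_ ?_ (abs_nonneg _) (by positivity)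
  · have h3 : |(t : ℝ)| ≤ W := by exact_mod_cast mem_win.1 ht
    exact (pow_le_pow_left₀ (abs_nonneg _) h3 e).trans (pow_le_pow_right₀ (by linarith) he)
  · have h3 := prod_le (hb t ht) (hb t ht) (ha.2 t) (ha.2 t) (inv4 hW)
    rwa [Complex.mul_conj', Complex.mul_conj', ← Complex.ofReal_pow, ← Complex.ofReal_pow,
      ← Complex.ofReal_sub, Complex.norm_real, Real.norm_eq_abs] at h3

lemma mom_env (ha : Env J a) (e : ℕ) : |mom e a J| ≤ ∑ t ∈ win J, |(t : ℝ) ^ e| * J ^ 2 := by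
  refine (Finset.abs_sum_le_sum_abs _ _).trans (Finset.sum_le_sum fun t _ => ?_)
  rw [abs_mul, abs_of_nonneg (sq_nonneg ‖a t‖)]
  exact mul_le_mul_of_nonneg_left (pow_le_pow_left₀ (norm_nonneg _) (ha.2 t) 2) (abs_nonneg _)

lemma qf_diff (hW : 4 ≤ W) (hJ : J ≤ W) (hz : Sq z) (hB : An z ≤ B) (ha : Env J a)
    (hb : ∀ t ∈ win W, ‖b t - a t‖ ≤ (W : ℝ)⁻¹ ^ 4) :
    |qf (cv z z) b W - qf (cv z z) a J| ≤ 3 * ((2 * J + 1) * B ^ 2) * (W : ℝ)⁻¹ ^ 3 := by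
  have h2 : (4 : ℝ) ≤ W := by exact_mod_cast hW
  rw [qf, qf, sum_env hJ ha _ (fun t h => by simp [h]), ← Complex.sub_re, ← Finset.sum_sub_distrib]
  refine (Complex.abs_re_le_norm _).trans ((norm_sum_le _ _).trans ((sum_win_le hW
    (c := (2 * J + 1) * (W : ℝ)⁻¹ ^ 4 * B ^ 2) (by positivity) fun t ht => ?_).trans_eq
    (by field_simp)))
  rw [sum_env hJ ha _ (fun t h => by simp [h]), ← Finset.sum_sub_distrib]
  refine (norm_sum_le _ _).trans (le_trans ?_ (mul_le_mul_of_nonneg_left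
    (cv_le hz hB (f := fun t' => t' - t) sub_left_injective (win W)) (by positivity)))
  rw [Finset.mul_sum]
  refine Finset.sum_le_sum fun t' ht' => ?_
  rw [← sub_mul, norm_mul]
  exact mul_le_mul_of_nonneg_right (prod_le (hb t ht) (hb t' ht') (ha.2 t) (ha.2 t') (inv4 hW))
    (norm_nonneg _)

lemma rd_diff (hJ : J ≤ W) (hz : Sq z) (hB : An z ≤ B) (ha : Env J a) {u : ℝ} (hu : 0 ≤ u)
    (hb : ∀ t ∈ win W, ‖b t - a t‖ ≤ u) (i : ℤ) :
    ‖∑ t ∈ win W, z (i - t) * b t - ∑ t ∈ win J, z (i - t) * a t‖ ≤ B * u := by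
  rw [sum_env hJ ha _ (fun t h => by simp [h]), ← Finset.sum_sub_distrib]
  refine (norm_sum_le _ _).trans (le_trans ?_ (mul_le_mul_of_nonneg_right
    (l1_le hz hB (f := fun t => i - t) sub_right_injective (win W)) hu))
  rw [Finset.sum_mul]
  refine Finset.sum_le_sum fun t ht => ?_
  rw [← mul_sub, norm_mul]
  exact mul_le_mul_of_nonneg_left (hb t ht) (norm_nonneg _)

lemma rd_sc {A C N : ℝ} (hA : 0 < A) (p : ℂ) (i : ℤ) (hN : 0 ≤ N / A ^ 2)
    (h : ‖p - 2 * ∑ t ∈ win W, z (i - t) * sh z W 1 t‖ ≤ C * (W : ℝ)⁻¹ * √N) :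
    ‖p / (2 * A) - ∑ t ∈ win W, z (i - t) * sh z W A t‖ ≤ |C| * ((W : ℝ)⁻¹ * (1 + N / A ^ 2)) := by
  have h4 : (A : ℂ) ≠ 0 := Complex.ofReal_ne_zero.2 hA.ne'
  have h1 : p / (2 * A) - ∑ t ∈ win W, z (i - t) * sh z W A t =
      (p - 2 * ∑ t ∈ win W, z (i - t) * sh z W 1 t) / (2 * A) := by
    rw [sub_div, mul_div_mul_comm, div_self two_ne_zero, one_mul, Finset.sum_div]
    simp only [sh, Complex.ofReal_one, div_one, mul_div_assoc]
  have h2 : √N / A ≤ 1 + N / A ^ 2 := by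
    rw [← Real.sqrt_sq hA.le, ← Real.sqrt_div' _ (sq_nonneg A), Real.sqrt_sq hA.le]
    nlinarith [Real.sq_sqrt hN, sq_nonneg (√(N / A ^ 2) - 1)]
  rw [h1, norm_div, norm_mul, Complex.norm_real, Real.norm_of_nonneg hA.le, Complex.norm_two]
  have h3 : C * ((W : ℝ)⁻¹ * (√N / A)) ≤ |C| * ((W : ℝ)⁻¹ * (1 + N / A ^ 2)) :=
    mul_le_mul (le_abs_self C) (mul_le_mul_of_nonneg_left h2 (by positivity)) (by positivity)
      (abs_nonneg C)
  have h5 := div_le_div_of_nonneg_right h hA.le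
  have h6 := div_nonneg (norm_nonneg (p - 2 * ∑ t ∈ win W, z (i - t) * sh z W 1 t)) hA.le
  rw [mul_div_assoc, mul_assoc] at h5
  rw [mul_comm 2 A, ← div_div]
  linarith

end Pool.Agent.Lib.ISO.K4
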