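import Pool.Agent.Lib.ISO.BlueE

/-! Domains whose boundary curves have the same curvature function are congruent. -/

open scoped ContDiff ComplexConjugate Topology
open Complex Set Filter

noncomputable section

namespace Pool.Agent.Lib.ISO

open Pool.Agent.Lib.MP_312682_mp

namespace CONG

lemma ode {g g' t t' : ℝ → ℂ} {k : ℝ → ℝ} (hg : ∀ s, HasDerivAt g (t s) s)
    (hg' : ∀ s, HasDerivAt g' (t' s) s) (ht : ∀ s, HasDerivAt t (k s * (I * t s)) s)
    (ht' : ∀ s, HasDerivAt t' (k s * (I * t' s)) s) (n : ∀ s, ‖t s‖ = 1) (n' : ∀ s, ‖t' s‖ = 1) :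
    ∃ c b : ℂ, ‖c‖ = 1 ∧ ∀ s, g' s = b + c * g s ∧ t' s = c * t s := by
  have h1 : ∀ s, HasDerivAt (fun s => t' s * conj (t s)) 0 s := fun s => by
    refine ((ht' s).mul (ht s).star).congr_deriv ?_
    simp
    ring
  have h2 : ∀ s, t' s * conj (t s) = t' 0 * conj (t 0) := fun s =>
    is_const_of_deriv_eq_zero (fun s => (h1 s).differentiableAt) (fun s => (h1 s).deriv) s 0
  have h3 : ∀ s, t' s = t' 0 * conj (t 0) * t s := fun s => by
    have : t s * conj (t s) = 1 := by rw [Complex.mul_conj, normSq_eq_norm_sq, n]; simp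
    rw [← h2 s]
    linear_combination (-t' s) * this
  have h4 : ∀ s, HasDerivAt (fun s => g' s - t' 0 * conj (t 0) * g s) 0 s := fun s =>
    ((hg' s).sub ((hg s).const_mul _)).congr_deriv (by rw [← h3 s, sub_self])
  refine ⟨t' 0 * conj (t 0), g' 0 - t' 0 * conj (t 0) * g 0, by simp [n, n'], fun s => ⟨?_, h3 s⟩⟩
  have : g' s - t' 0 * conj (t 0) * g s = g' 0 - t' 0 * conj (t 0) * g 0 :=
    is_const_of_deriv_eq_zero (fun s => (h4 s).differentiableAt) (fun s => (h4 s).deriv) s 0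
  rw [← this]
  ring

lemma exists_iso (b : ℂ) {c : ℂ} (hc : ‖c‖ = 1) : ∃ e : ℂ ≃ᵢ ℂ, ∀ z, e z = b + c * z :=
  ⟨(rotation ⟨c, by simpa [Submonoid.unitSphere] using hc⟩).toIsometryEquiv.trans
    (IsometryEquiv.addLeft b), fun _ => rfl⟩

lemma sub {Ω : Set ℂ} (hΩ : IsPreconnected Ω) {f : ℂ → ℝ} (hf : Continuous f)
    (h0 : ∀ z ∈ Ω, f z ≠ 0) {z0 : ℂ} (hz : z0 ∈ Ω) (h1 : f z0 < 0) : ∀ z ∈ Ω, f z < 0 := by
  intro z hz'
  by_contra h
  obtain ⟨w, hw, e⟩ := hΩ.intermediate_value hz hz' hf.continuousOn ⟨h1.le, not_lt.1 h⟩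
  exact h0 w hw e

lemma image_eq {Ω Ω' : Set ℂ} {γ γ' : ℝ → ℂ} {L : ℝ} {φ φ' : ℂ → ℝ}
    (h : Geo Ω (fun _ : Fin 1 => γ) (fun _ => L) φ)
    (h' : Geo Ω' (fun _ : Fin 1 => γ') (fun _ => L) φ') (hc : IsConnected Ω)
    (hc' : IsConnected Ω') (e : ℂ ≃ᵢ ℂ) {a : ℝ → ℝ} (ha : Function.Surjective a)
    (he : ∀ s, e (γ (a s)) = γ' s)
    (hn : ∀ x : ℝ, e (Phi γ (a 0 + x * I)) = Phi γ' ((0 : ℝ) + x * I)) : e '' Ω = Ω' := by
  obtain ⟨x, ⟨h1, h2⟩, hx⟩ :=
    (((h.sign 0).and (h'.sign 0)).filter_mono (nhdsWithin_le_nhds (s := Ioi 0))).and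
      self_mem_nhdsWithin |>.exists
  have h3 := (h1 (a 0 + x * I) (by simp)).1 (by simpa using hx)
  have h4 := (h2 ((0 : ℝ) + x * I) (by simp)).1 (by simpa using hx)
  apply Subset.antisymm
  · rintro _ ⟨z, hz, rfl⟩
    refine h'.mem.2 (sub hc.2 (h'.smooth.continuous.comp e.continuous) (fun w hw h0 => ?_)
      (h.mem.2 h3) (by rwa [Function.comp_apply, hn]) z hz)
    obtain ⟨-, s, hs⟩ := (h'.zero _).1 h0
    rw [← he] at hs
    exact h.not_mem 0 _ (e.injective hs ▸ hw)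
  · intro z hz
    refine ⟨e.symm z, h.mem.2 (sub hc'.2 (h.smooth.continuous.comp e.symm.continuous)
      (fun w hw h0 => ?_) (h'.mem.2 h4) ?_ z hz), e.apply_symm_apply z⟩
    · obtain ⟨-, s, hs⟩ := (h.zero _).1 h0
      obtain ⟨s, rfl⟩ := ha s
      have : γ' s = w := by rw [← he, hs, e.apply_symm_apply]
      exact h'.not_mem 0 _ (this ▸ hw)
    · rwa [Function.comp_apply, ← hn, e.symm_apply_apply]

end CONG

theorem st_cong : St_CONG := by
  intro Ω Ω' γ γ' L σ s0 φ φ' h h' hc hc' hσ hk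
  have c : Cv0 γ := (h.cv 0).toCv0
  have c' : Cv0 γ' := (h'.cv 0).toCv0
  rcases hσ with rfl | rfl
  · obtain ⟨m, b, hm, H⟩ := CONG.ode (g := fun s => γ (s + s0)) (t := fun s => deriv γ (s + s0))
      (k := kap γ') (fun s => (c.hd0 _).comp_add_const s s0) c'.hd0
      (fun s => by rw [hk, one_mul]; exact (c.hd1' _).comp_add_const s s0) c'.hd1'
      (fun s => c.unit _) c'.unit
    obtain ⟨e, he⟩ := CONG.exists_iso b hm
    refine ⟨e, CONG.image_eq h h' hc hc' e (a := fun s => s + s0) (fun t => ⟨t - s0, by simp⟩)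
      (fun s => by rw [he, (H s).1]) fun x => ?_⟩
    have := H 0
    simp only [zero_add] at this
    simp [he, Phi, this.1, this.2]
    ring
  · obtain ⟨m, b, hm, H⟩ := CONG.ode (g := fun s => conj (γ (s0 - s)))
      (t := fun s => -conj (deriv γ (s0 - s))) (k := kap γ')
      (fun s => by simpa using ((c.hd0 _).comp_const_sub s0 s).star) c'.hd0
      (fun s => by
        refine (((c.hd1' _).comp_const_sub s0 s).star.neg).congr_deriv ?_
        rw [hk, show -1 * s + s0 = s0 - s by ring]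
        simp) c'.hd1'
      (fun s => by simpa using c.unit _) c'.unit
    obtain ⟨e, he⟩ := CONG.exists_iso b hm
    have he' : ∀ z, (conjLIE.toIsometryEquiv.trans e) z = b + m * conj z := fun z => he _
    refine ⟨_, CONG.image_eq h h' hc hc' (conjLIE.toIsometryEquiv.trans e) (a := fun s => s0 - s)
      (fun t => ⟨s0 - t, by simp⟩) (fun s => by rw [he', (H s).1]) fun x => ?_⟩
    have := H 0
    simp only [sub_zero] at this
    simp [he', Phi, this.1, this.2]
    ring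

end Pool.Agent.Lib.ISO
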