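import Pool.Agent.Lib.ISO.BlueK

/-! Block BAIRE: the space of smooth Jordan curves is a Baire space. -/

open Set Filter Topology

noncomputable section

namespace Pool.Agent.Lib.ISO

namespace BAIRE

/-- periodic derivative chains of constant speed -/
def Cl : Set (ℕ → UniformFun ℝ ℂ) :=
  {f | (∀ n t, HasDerivAt (UniformFun.toFun (f n)) (UniformFun.toFun (f (n + 1)) t) t) ∧
    Function.Periodic (UniformFun.toFun (f 0)) (2 * Real.pi) ∧
    ∀ t, ‖UniformFun.toFun (f 1) t‖ = ‖UniformFun.toFun (f 1) 0‖}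

theorem cont_ev (n : ℕ) (t : ℝ) :
    Continuous fun f : ℕ → UniformFun ℝ ℂ => UniformFun.toFun (f n) t :=
  (UniformFun.uniformContinuous_eval ℂ t).continuous.comp (continuous_apply n)

theorem tu (f : ℕ → UniformFun ℝ ℂ) (n : ℕ) {l : Filter (ℕ → UniformFun ℝ ℂ)} (hl : l ≤ 𝓝 f) :
    TendstoUniformly (fun g : ℕ → UniformFun ℝ ℂ => UniformFun.toFun (g n))
      (UniformFun.toFun (f n)) l :=
  UniformFun.tendsto_iff_tendstoUniformly.1 (((continuous_apply n).tendsto f).mono_left hl)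

theorem closed_Cl : IsClosed Cl := by
  refine IsClosed.and ?_ (IsClosed.and ?_ ?_)
  · refine isClosed_of_closure_subset fun f hf n t => ?_
    have hne := mem_closure_iff_nhdsWithin_neBot.1 hf
    refine @hasDerivAt_of_tendstoUniformly _ _ _ _ _ _ _ _ _ _ _ _ hne
      (tu f (n + 1) nhdsWithin_le_nhds) ?_
      (fun x => ((cont_ev n x).tendsto f).mono_left nhdsWithin_le_nhds) t
    filter_upwards [self_mem_nhdsWithin] with g hg
    exact hg n
  · simp only [Function.Periodic, Set.ofPred_forall]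
    exact isClosed_iInter fun t => isClosed_eq (cont_ev 0 _) (cont_ev 0 _)
  · simp only [Set.ofPred_forall]
    exact isClosed_iInter fun t => isClosed_eq (cont_ev 1 _).norm (cont_ev 1 _).norm

theorem sub : Jordan ⊆ Cl := by
  rintro f ⟨h1, h2, -, v, -, h3⟩
  exact ⟨h1, h2, fun t => by rw [h3, h3]⟩

theorem near (f : ℕ → UniformFun ℝ ℂ) (n : ℕ) {η : ℝ} (hη : 0 < η) :
    ∀ᶠ g in 𝓝 f, ∀ t, ‖UniformFun.toFun (g n) t - UniformFun.toFun (f n) t‖ ≤ η := by
  filter_upwards [Metric.tendstoUniformly_iff.1 (tu f n le_rfl) η hη] with g hg t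
  rw [← dist_eq_norm, dist_comm]
  exact (hg t).le

theorem baire_Cl : BaireSpace Cl := by
  have : CompleteSpace Cl := closed_Cl.completeSpace_coe
  infer_instance

end BAIRE

theorem st_baire (hEMB : St_EMB) : St_BAIRE := by
  have := BAIRE.baire_Cl
  refine (IsOpenEmbedding.inclusion BAIRE.sub ?_).baireSpace
  rw [isOpen_iff_mem_nhds]
  intro f hf
  obtain ⟨η, hη, h⟩ := hEMB f hf
  obtain ⟨v, hv, h3⟩ := hf.2.2.2
  have h4 : ∀ᶠ g in 𝓝 f.1, 0 < ‖UniformFun.toFun (g 1) 0‖ :=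
    (BAIRE.cont_ev 1 0).norm.continuousAt.eventually (lt_mem_nhds (hv.trans_eq (h3 0).symm))
  have h5 := continuous_subtype_val.continuousAt.eventually
    (((BAIRE.near f.1 0 hη).and (BAIRE.near f.1 1 hη)).and h4)
  filter_upwards [h5] with g hg
  exact ⟨g.2.1, g.2.2.1, h _ _ (g.2.1 0) g.2.2.1 hg.1.1 hg.1.2, _, hg.2, g.2.2.2⟩

end Pool.Agent.Lib.ISO
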