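import Pool.Agent.Lib.ISO.B_DENSE1

/-! Block DENSE: markers can be inserted by a small perturbation. -/

open scoped ContDiff ComplexConjugate
open Complex Filter Topology

noncomputable section

namespace Pool.Agent.Lib.ISO

namespace DENSE

/-- frequency -/
def qq (W : ℕ) (t : ℤ) : ℂ := I * (((W : ℤ) ^ 2 + t : ℤ) : ℂ)

/-- derivatives of the primitive of the marker -/
def pp (a : ℤ → ℂ) (J W : ℕ) (A : ℝ) (n : ℕ) (s : ℝ) : ℂ :=
  ∑ t ∈ win J, A * a t * (qq W t ^ n / qq W t) * exp (qq W t * s)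

def GG (a : ℤ → ℂ) (J W : ℕ) (A : ℝ) (n : ℕ) (s : ℝ) : ℝ := 2 * (pp a J W A n s).re

theorem pp_der (a : ℤ → ℂ) (J W : ℕ) (A : ℝ) (n : ℕ) (s : ℝ) :
    HasDerivAt (pp a J W A n) (pp a J W A (n + 1) s) s := by
  refine HasDerivAt.fun_sum fun t _ => ?_
  refine ((exp_der (qq W t) s).const_mul _).congr_deriv ?_
  ring

theorem GG_der (a : ℤ → ℂ) (J W : ℕ) (A : ℝ) (n : ℕ) (s : ℝ) :
    HasDerivAt (GG a J W A n) (GG a J W A (n + 1) s) s :=
  (reCLM.hasFDerivAt.comp_hasDerivAt s (pp_der a J W A n s)).const_mul 2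

theorem GG_per (a : ℤ → ℂ) (J W : ℕ) (A : ℝ) :
    Function.Periodic (GG a J W A 0) (2 * Real.pi) := by
  intro s
  unfold GG pp
  congr 2
  refine Finset.sum_congr rfl fun t _ => ?_
  have h : qq W t * ((s + 2 * Real.pi : ℝ) : ℂ) =
      qq W t * s + (((W : ℤ) ^ 2 + t : ℤ) : ℂ) * (2 * Real.pi * I) := by
    unfold qq
    rw [ofReal_add, ofReal_mul, ofReal_ofNat]
    ring
  rw [h, exp_add, exp_int_mul_two_pi_mul_I, mul_one]

theorem qq_norm {J W : ℕ} (hW : J < W) {t : ℤ} (ht : t ∈ win J) :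
    1 ≤ ‖qq W t‖ ∧ ‖qq W t‖ ≤ 2 * (W : ℝ) ^ 2 := by
  obtain ⟨h1, h2⟩ := Finset.mem_Icc.1 ht
  have h3 : (J : ℤ) < W := by exact_mod_cast hW
  have h4 : (0 : ℤ) ≤ J := Int.natCast_nonneg J
  have h5 : (1 : ℤ) ≤ (W : ℤ) ^ 2 + t := by nlinarith
  have h6 : (W : ℤ) ^ 2 + t ≤ 2 * (W : ℤ) ^ 2 := by nlinarith
  unfold qq
  rw [norm_mul, norm_I, one_mul, norm_intCast, abs_of_nonneg (by exact_mod_cast h5.trans' zero_le_one)]
  exact ⟨by exact_mod_cast h5, by exact_mod_cast h6⟩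

theorem GG_bd {a : ℤ → ℂ} {J W M N : ℕ} (ha : Env J a) (hW : J < W) (hM : N + 1 ≤ M) :
    ∀ n ≤ N, ∀ s, |GG a J W (amp M W) n s| ≤ 2 * ((win J).card * (J * 2 ^ N)) / W := by
  intro n hn s
  have hW1 : (1 : ℝ) ≤ W := by exact_mod_cast (Nat.zero_le J).trans_lt hW
  have h1 : ‖pp a J W (amp M W) n s‖ ≤ (win J).card * (J * 2 ^ N / W) := by
    rw [← nsmul_eq_mul]
    refine (norm_sum_le _ _).trans (Finset.sum_le_card_nsmul _ _ _ fun t ht => ?_)
    obtain ⟨h2, h3⟩ := qq_norm hW ht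
    have h4 : ‖exp (qq W t * s)‖ = 1 := by
      unfold qq
      rw [mul_assoc, ← ofReal_intCast, ← ofReal_mul, norm_exp_I_mul_ofReal]
    have h5 : ‖qq W t‖ ^ n / ‖qq W t‖ ≤ (2 * (W : ℝ) ^ 2) ^ N :=
      (div_le_self (by positivity) h2).trans ((pow_le_pow_right₀ h2 hn).trans
        (pow_le_pow_left₀ (norm_nonneg _) h3 N))
    have h6 : amp M W * (2 * (W : ℝ) ^ 2) ^ N ≤ 2 ^ N / W := by
      unfold amp
      rw [mul_pow, ← pow_mul, inv_mul_le_iff₀ (by positivity), mul_div_assoc',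
        le_div_iff₀ (by positivity), mul_assoc, ← pow_succ, mul_comm]
      exact mul_le_mul_of_nonneg_right (pow_le_pow_right₀ hW1 (by omega)) (by positivity)
    have h7 : 0 ≤ amp M W := by unfold amp; positivity
    rw [norm_mul, norm_mul, norm_mul, h4, mul_one, norm_div, norm_pow, norm_real,
      Real.norm_eq_abs, abs_of_nonneg h7]
    calc amp M W * ‖a t‖ * (‖qq W t‖ ^ n / ‖qq W t‖)
        ≤ amp M W * J * (2 * (W : ℝ) ^ 2) ^ N := by
          have := ha.2 t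
          gcongr
      _ = J * (amp M W * (2 * (W : ℝ) ^ 2) ^ N) := by ring
      _ ≤ J * (2 ^ N / W) := by gcongr
      _ = J * 2 ^ N / W := by ring
  unfold GG
  rw [abs_mul, abs_two]
  have h2 := (abs_re_le_norm _).trans h1
  calc 2 * |(pp a J W (amp M W) n s).re| ≤ 2 * ((win J).card * (J * 2 ^ N / W)) := by gcongr
    _ = _ := by ring

theorem orth (m j : ℤ) : (2 * Real.pi : ℂ)⁻¹ * ∫ s in (0 : ℝ)..(2 * Real.pi),
    exp (I * m * s) * exp (-(I * j * s)) = if m = j then 1 else 0 := by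
  have h1 : ∀ s : ℝ, exp (I * m * s) * exp (-(I * j * s)) = exp (I * ((m - j : ℤ) : ℂ) * s) :=
    fun s => by
      rw [← exp_add]
      congr 1
      push_cast
      ring
  simp only [h1]
  have hpi : (2 * Real.pi : ℂ) ≠ 0 := by exact_mod_cast Real.two_pi_pos.ne'
  split_ifs with h
  · rw [h, sub_self]
    simp only [Int.cast_zero, mul_zero, zero_mul, exp_zero, intervalIntegral.integral_const,
      sub_zero, real_smul, mul_one]
    push_cast
    exact inv_mul_cancel₀ hpi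
  · have h2 : I * ((m - j : ℤ) : ℂ) ≠ 0 :=
      mul_ne_zero I_ne_zero (by exact_mod_cast sub_ne_zero.2 h)
    have h3 : I * ((m - j : ℤ) : ℂ) * ((2 * Real.pi : ℝ) : ℂ) =
        ((m - j : ℤ) : ℂ) * (2 * Real.pi * I) := by
      rw [ofReal_mul, ofReal_ofNat]
      ring
    rw [integral_exp_mul_complex h2, h3, exp_int_mul_two_pi_mul_I]
    simp

theorem fc_GG {a : ℤ → ℂ} {J W : ℕ} (ha : Env J a) (hW : J < W) (A : ℝ) (ξ : ℤ) :
    fc (GG a J W A 1) ξ = A * gm a W ξ := by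
  have h1 : ∀ s : ℝ, (GG a J W A 1 s : ℂ) * exp (-(I * ξ * s)) =
      ∑ t ∈ win J, (A * a t * (exp (I * (((W : ℤ) ^ 2 + t : ℤ) : ℂ) * s) * exp (-(I * ξ * s))) +
        A * conj (a t) * (exp (I * ((-((W : ℤ) ^ 2 + t) : ℤ) : ℂ) * s) * exp (-(I * ξ * s)))) := by
    intro s
    unfold GG
    rw [← add_conj, pp, map_sum, ← Finset.sum_add_distrib, Finset.sum_mul]
    refine Finset.sum_congr rfl fun t ht => ?_
    have h2 : qq W t ≠ 0 := fun h => by
      have := (qq_norm hW ht).1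
      rw [h, norm_zero] at this
      linarith
    have h3 : conj (exp (qq W t * s)) = exp (I * ((-((W : ℤ) ^ 2 + t) : ℤ) : ℂ) * s) := by
      rw [← exp_conj]
      congr 1
      unfold qq
      rw [map_mul, map_mul, conj_I, conj_ofReal, map_intCast, Int.cast_neg]
      ring
    rw [pow_one, div_self h2, mul_one, map_mul, map_mul, h3, conj_ofReal]
    unfold qq
    ring
  have hc : ∀ m : ℤ, IntervalIntegrable (fun s : ℝ => exp (I * m * s) * exp (-(I * ξ * s)))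
      MeasureTheory.volume 0 (2 * Real.pi) := fun m =>
    Continuous.intervalIntegrable (by fun_prop) _ _
  unfold fc
  simp only [h1]
  rw [intervalIntegral.integral_finsetSum fun t _ =>
    ((hc _).const_mul _).add ((hc _).const_mul _), Finset.mul_sum]
  have h2 : ∀ t ∈ win J, (2 * Real.pi : ℂ)⁻¹ * ∫ s in (0 : ℝ)..(2 * Real.pi),
      (A * a t * (exp (I * (((W : ℤ) ^ 2 + t : ℤ) : ℂ) * s) * exp (-(I * ξ * s))) +
        A * conj (a t) * (exp (I * ((-((W : ℤ) ^ 2 + t) : ℤ) : ℂ) * s) * exp (-(I * ξ * s)))) =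
      (if t = ξ - (W : ℤ) ^ 2 then A * a t else 0) +
        if t = -ξ - (W : ℤ) ^ 2 then A * conj (a t) else 0 := by
    intro t _
    rw [intervalIntegral.integral_add ((hc _).const_mul _) ((hc _).const_mul _),
      intervalIntegral.integral_const_mul, intervalIntegral.integral_const_mul, mul_add,
      mul_left_comm, orth, mul_left_comm (2 * Real.pi : ℂ)⁻¹, orth]
    congr 1
    · by_cases h : t = ξ - (W : ℤ) ^ 2
      · rw [if_pos h, if_pos (by omega), mul_one]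
      · rw [if_neg h, if_neg (by omega), mul_zero]
    · by_cases h : t = -ξ - (W : ℤ) ^ 2
      · rw [if_pos h, if_pos (by omega), mul_one]
      · rw [if_neg h, if_neg (by omega), mul_zero]
  have h3 : ∀ t, t ∉ win J → a t = 0 := fun t ht =>
    ha.1 t (not_le.1 fun h => ht (Finset.mem_Icc.2 (abs_le.1 h)))
  rw [Finset.sum_congr rfl h2, Finset.sum_add_distrib, Finset.sum_ite_eq', Finset.sum_ite_eq', gm,
    mul_add]
  congr 1
  · split_ifs with h
    · rfl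
    · rw [h3 _ h, mul_zero]
  · split_ifs with h
    · rfl
    · rw [h3 _ h, map_zero, mul_zero]

theorem fc_lin {k g p q : ℝ → ℝ} (hk : Continuous k) (hg : Continuous g) (hp : Continuous p)
    (hq : Continuous q) (x y : ℝ) (j : ℤ) :
    fc (fun s => k s + (g s + (x * p s + y * q s))) j =
      fc k j + (fc g j + (x * fc p j + y * fc q j)) := by
  have hc : ∀ {u : ℝ → ℝ}, Continuous u → IntervalIntegrable
      (fun s : ℝ => (u s : ℂ) * exp (-(I * j * s))) MeasureTheory.volume 0 (2 * Real.pi) :=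
    fun hu => Continuous.intervalIntegrable (by fun_prop) _ _
  have h1 : ∀ s : ℝ, ((k s + (g s + (x * p s + y * q s)) : ℝ) : ℂ) * exp (-(I * j * s)) =
      k s * exp (-(I * j * s)) + (g s * exp (-(I * j * s)) + (x * (p s * exp (-(I * j * s))) +
        y * (q s * exp (-(I * j * s))))) := fun s => by
    push_cast
    ring
  unfold fc
  simp only [h1]
  rw [intervalIntegral.integral_add (hc hk) ((hc hg).add (((hc hp).const_mul _).add
      ((hc hq).const_mul _))),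
    intervalIntegral.integral_add (hc hg) (((hc hp).const_mul _).add ((hc hq).const_mul _)),
    intervalIntegral.integral_add ((hc hp).const_mul _) ((hc hq).const_mul _),
    intervalIntegral.integral_const_mul, intervalIntegral.integral_const_mul]
  ring

theorem tail (M : ℕ) {u : ℤ → ℝ} (hu : ∀ j, 0 ≤ u j)
    (hs : Summable fun j : ℤ => |(j : ℝ)| ^ (4 * M + 9) * u j) {W : ℕ}
    (hW : ∑' j : ℤ, |(j : ℝ)| ^ (4 * M + 9) * u j < W) {w : ℤ → ℂ} (hw : ∀ j, ‖w j‖ ≤ u j) :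
    (∑' ξ : ℤ, if (W : ℤ) < |ξ| then (ξ : ℝ) ^ (2 * (2 * M + 8)) * ‖w ξ‖ ^ 2 else 0) <
      amp M W ^ 2 := by
  have h0 : ∀ j : ℤ, 0 ≤ |(j : ℝ)| ^ (4 * M + 9) * u j := fun j =>
    mul_nonneg (by positivity) (hu j)
  have hS : ∀ j : ℤ, |(j : ℝ)| ^ (4 * M + 9) * u j ≤ ∑' j : ℤ, |(j : ℝ)| ^ (4 * M + 9) * u j :=
    fun j => hs.le_tsum j fun i _ => h0 i
  have hsum := hs.hasSum
  generalize ∑' j : ℤ, |(j : ℝ)| ^ (4 * M + 9) * u j = S at hW hS hsum
  have hS0 : 0 ≤ S := (h0 0).trans (hS 0)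
  have hW0 : (0 : ℝ) < W := hS0.trans_lt hW
  have h1 : ∀ ξ : ℤ, (if (W : ℤ) < |ξ| then (ξ : ℝ) ^ (2 * (2 * M + 8)) * ‖w ξ‖ ^ 2 else 0) ≤
      |(ξ : ℝ)| ^ (4 * M + 9) * u ξ * (S / (W : ℝ) ^ (4 * M + 2)) := by
    intro ξ
    split_ifs with h
    · have h2 : (W : ℝ) ≤ |(ξ : ℝ)| := by exact_mod_cast h.le
      rw [mul_div_assoc', le_div_iff₀ (by positivity), ← (even_two_mul (2 * M + 8)).pow_abs]
      calc |(ξ : ℝ)| ^ (2 * (2 * M + 8)) * ‖w ξ‖ ^ 2 * (W : ℝ) ^ (4 * M + 2)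
          ≤ |(ξ : ℝ)| ^ (2 * (2 * M + 8)) * u ξ ^ 2 * |(ξ : ℝ)| ^ (4 * M + 2) := by
            have := hw ξ
            gcongr
        _ = |(ξ : ℝ)| ^ (4 * M + 9) * u ξ * (|(ξ : ℝ)| ^ (4 * M + 9) * u ξ) := by ring
        _ ≤ _ := mul_le_mul_of_nonneg_left (hS ξ) (h0 ξ)
    · exact mul_nonneg (h0 ξ) (by positivity)
  have h2 : ∀ ξ : ℤ,
      0 ≤ (if (W : ℤ) < |ξ| then (ξ : ℝ) ^ (2 * (2 * M + 8)) * ‖w ξ‖ ^ 2 else 0) := fun ξ => by
    split_ifs
    · exact mul_nonneg ((even_two_mul _).pow_nonneg _) (sq_nonneg _)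
    · exact le_rfl
  have h3 := hsum.mul_right (S / (W : ℝ) ^ (4 * M + 2))
  refine (((Summable.of_nonneg_of_le h2 h1 h3.summable).tsum_le_tsum h1 h3.summable).trans_eq
    h3.tsum_eq).trans_lt ?_
  unfold amp
  rw [mul_div_assoc', div_lt_iff₀ (by positivity)]
  have h4 : (((W : ℝ) ^ (2 * M))⁻¹) ^ 2 * (W : ℝ) ^ (4 * M + 2) = W * W := by
    field_simp
    ring
  rw [h4]
  exact mul_self_lt_mul_self hS0 hW

theorem rot_im (p q : ℂ) (θ x : ℝ) :
    ((q + p * (I * x)) * exp (I * θ) * conj (p * exp (I * θ))).im =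
      (q * conj p).im + x * ‖p‖ ^ 2 := by
  have h1 : exp (I * θ) * conj (exp (I * θ)) = 1 := by
    rw [mul_conj', norm_exp_I_mul_ofReal]
    norm_num
  have h2 : (q + p * (I * x)) * exp (I * θ) * conj (p * exp (I * θ)) =
      q * conj p + I * ((x * ‖p‖ ^ 2 : ℝ) : ℂ) := by
    rw [map_mul, ofReal_mul, ofReal_pow, ← mul_conj']
    linear_combination (q + p * (I * x)) * conj p * h1
  rw [h2, add_im, mul_im I, I_re, I_im, ofReal_re, zero_mul, zero_add, one_mul]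

/-- the family of derivatives of a curve with tangent `T` -/
def fam (γ T : ℝ → ℂ) : ℕ → UniformFun ℝ ℂ
  | 0 => UniformFun.ofFun γ
  | n + 1 => UniformFun.ofFun (iteratedDeriv n T)

/-- rotation of the tangent by a small periodic angle -/
theorem rotate (hEMB : St_EMB) {f : ℕ → UniformFun ℝ ℂ} (hf : f ∈ Jordan) (N : ℕ) {ε : ℝ}
    (hε : 0 < ε) : ∃ δ > 0, ∀ θ : ℕ → ℝ → ℝ, (∀ n t, HasDerivAt (θ n) (θ (n + 1) t) t) →
      Function.Periodic (θ 0) (2 * Real.pi) → (∀ n ≤ N, ∀ t, |θ n t| ≤ δ) →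
      ∫ s in (0 : ℝ)..(2 * Real.pi), UniformFun.toFun (f 1) s * exp (I * θ 0 s) = 0 →
      ∃ g ∈ Jordan, (∀ n ≤ N, ∀ t, ‖UniformFun.toFun (g n) t - UniformFun.toFun (f n) t‖ ≤ ε) ∧
        kf g = fun s => kf f s + θ 1 s := by
  obtain ⟨η, hη, hE⟩ := hEMB f hf
  obtain ⟨hd, hp, -, v, hv, hn⟩ := hf
  have hkf : kf f = fun s => (UniformFun.toFun (f 2) s * conj (UniformFun.toFun (f 1) s)).im /
      ‖UniformFun.toFun (f 1) 0‖ ^ 2 := rfl
  rw [hkf]
  obtain ⟨F, hF⟩ : ∃ F : ℕ → ℝ → ℂ, ∀ n, UniformFun.toFun (f n) = F n := ⟨_, fun _ => rfl⟩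
  simp only [hF] at hd hp hn hE ⊢
  obtain ⟨B, hB1, hB⟩ := chain_bd hd hp (N + 1)
  have hpi := Real.two_pi_pos
  have hpi1 : 1 ≤ 2 * Real.pi := by linarith [Real.pi_gt_three]
  obtain ⟨D, hD0, hD1, hD2⟩ : ∃ D : ℝ, 0 < D ∧ D ≤ 1 ∧
      2 ^ N * (B * (2 * N.factorial * D)) * (2 * Real.pi) ≤ min ε η := by
    have hm : 0 < min ε η := lt_min hε hη
    refine ⟨min 1 (min ε η / (2 ^ N * (B * (2 * N.factorial)) * (2 * Real.pi))), by positivity,
      min_le_left _ _, ?_⟩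
    have h1 := min_le_right 1 (min ε η / (2 ^ N * (B * (2 * N.factorial)) * (2 * Real.pi)))
    rw [le_div_iff₀ (by positivity)] at h1
    linarith
  refine ⟨D ^ (N + 1), by positivity, fun θ hθ hθp hθb hcl => ?_⟩
  have sθ := chain_sm hθ 0
  have sE : ContDiff ℝ ∞ (ee 0 ∘ θ 0) := (chain_sm ee_der 0).comp sθ
  have sF := chain_sm hd 1
  have b1 := mul_bd sF sE (N := N) (B := B) (fun n hn s => by
    rw [chain_it hd]
    exact hB _ (by omega) s) (exp_bd N sθ hD0.le hD1 fun i hi s => by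
      rw [chain_it hθ, Nat.zero_add]
      exact hθb i hi s)
  have b0 : 0 ≤ 2 ^ N * (B * (2 * N.factorial * D)) := by positivity
  generalize 2 ^ N * (B * (2 * N.factorial * D)) = e at hD2 b1 b0
  have b2 : e ≤ min ε η := le_trans (le_mul_of_one_le_right b0 hpi1) hD2
  obtain ⟨T, hT⟩ : ∃ T : ℝ → ℂ, T = fun s => F 1 s * exp (I * θ 0 s) := ⟨_, rfl⟩
  have hT2 : T = fun s => F 1 s + F 1 s * (ee 0 ∘ θ 0) s := by
    rw [hT]
    funext s
    simp only [Function.comp_apply, ee]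
    ring
  have sT : ContDiff ℝ ∞ T := by
    rw [hT2]
    exact sF.add (sF.mul sE)
  have b3 : ∀ n ≤ N, ∀ s, ‖iteratedDeriv n T s - F (n + 1) s‖ ≤ e := fun n hn s => by
    rw [hT2, iteratedDeriv_fun_add (sF.of_le (by exact_mod_cast le_top)).contDiffAt
      ((sF.mul sE).of_le (by exact_mod_cast le_top)).contDiffAt, chain_it hd, Nat.add_comm 1 n,
      add_sub_cancel_left]
    exact b1 n hn s
  have b4 : ∀ s, ‖T s - F 1 s‖ ≤ e := fun s => by
    have := b3 0 (Nat.zero_le N) s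
    rwa [iteratedDeriv_zero] at this
  have pT : Function.Periodic T (2 * Real.pi) := fun s => by
    rw [hT]
    simp only [chain_per hd hp 1 s, hθp s]
  have nT : ∀ s, ‖T s‖ = v := fun s => by
    rw [hT]
    simp only []
    rw [norm_mul, norm_exp_I_mul_ofReal, mul_one, hn]
  obtain ⟨γ, hγ⟩ : ∃ γ : ℝ → ℂ, γ = fun t => F 0 0 + ∫ s in (0 : ℝ)..t, T s := ⟨_, rfl⟩
  have dγ : ∀ t, HasDerivAt γ (T t) t := fun t => by
    rw [hγ]
    exact (intervalIntegral.integral_hasDerivAt_right (sT.continuous.intervalIntegrable _ _)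
      (sT.continuous.stronglyMeasurableAtFilter _ _) sT.continuous.continuousAt).const_add _
  have pγ : Function.Periodic γ (2 * Real.pi) := fun t => by
    have h1 := pT.intervalIntegral_add_eq t 0
    rw [zero_add, hT, hcl, ← hT] at h1
    rw [hγ]
    simp only []
    rw [← intervalIntegral.integral_add_adjacent_intervals (b := t)
      (sT.continuous.intervalIntegrable _ _) (sT.continuous.intervalIntegrable _ _), h1, add_zero]
  have b5 : ∀ t, ‖γ t - F 0 t‖ ≤ min ε η := fun t => by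
    obtain ⟨y, hy, h1⟩ := (pγ.sub hp).exists_mem_Ico₀ hpi t
    have h2 := Convex.norm_image_sub_le_of_norm_hasDerivWithin_le
      (f := fun t => γ t - F 0 t) (f' := fun t => T t - F 1 t) (s := Set.univ) (x := 0) (y := y)
      (fun x _ => ((dγ x).fun_sub (hd 0 x)).hasDerivWithinAt) (fun x _ => b4 x) convex_univ
      trivial trivial
    have h3 : γ 0 - F 0 0 = 0 := by
      rw [hγ]
      simp
    simp only [h3, sub_zero, Real.norm_eq_abs, abs_of_nonneg hy.1] at h2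
    simp only [Pi.sub_apply] at h1
    rw [h1]
    exact h2.trans ((mul_le_mul_of_nonneg_left hy.2.le b0).trans hD2)
  have hinj := hE γ T dγ pγ (fun t => (b5 t).trans (min_le_right _ _))
    fun t => (b4 t).trans (b2.trans (min_le_right _ _))
  refine ⟨fam γ T, ⟨?_, pγ, hinj, v, hv, nT⟩, ?_, ?_⟩
  · rintro (_ | n) t
    · exact dγ t
    · exact it_chain sT n t
  · rintro (_ | n) hn t
    · exact (b5 t).trans (min_le_left _ _)
    · exact (b3 n (by omega) t).trans (b2.trans (min_le_left _ _))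
  · funext s
    have h1 : HasDerivAt T ((F 2 s + F 1 s * (I * θ 1 s)) * exp (I * θ 0 s)) s := by
      rw [hT]
      have h2 := (hd 1 s).fun_mul (((hθ 0 s).ofReal_comp.const_mul I).cexp)
      refine h2.congr_deriv ?_
      ring
    show (iteratedDeriv 1 T s * conj (T s)).im / ‖T 0‖ ^ 2 = _
    have h3 : T s = F 1 s * exp (I * θ 0 s) := by rw [hT]
    rw [iteratedDeriv_one, h1.deriv, h3, rot_im, nT, hn, hn, add_div,
      mul_div_cancel_right₀ _ (by positivity)]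

theorem approx (hEMB : St_EMB) (hFOU : St_FOU) (hOPEN : St_OPEN) (j J : ℕ) (W0 : ℕ → ℕ)
    {a : ℤ → ℂ} (ha : Env J a) {f : ℕ → UniformFun ℝ ℂ} (hf : f ∈ Jordan) (N : ℕ) {ε : ℝ}
    (hε : 0 < ε) :
    ∃ g ∈ Jordan, (∀ n ≤ N, ∀ t, ‖UniformFun.toFun (g n) t - UniformFun.toFun (f n) t‖ ≤ ε) ∧
      ∃ M W, j ≤ M ∧ W0 M ≤ W ∧ Mk M W a (fc (kf g)) := by
  obtain ⟨δ, hδ, hR⟩ := rotate hEMB hf N hε
  have hk := hOPEN.1 f hf
  obtain ⟨hd, hp, -, v, hv, hn⟩ := hf
  obtain ⟨F, hF⟩ : ∃ F : ℕ → ℝ → ℂ, ∀ n, UniformFun.toFun (f n) = F n := ⟨_, fun _ => rfl⟩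
  have hR' : ∀ θ : ℕ → ℝ → ℝ, (∀ n t, HasDerivAt (θ n) (θ (n + 1) t) t) →
      Function.Periodic (θ 0) (2 * Real.pi) → (∀ n ≤ N, ∀ t, |θ n t| ≤ δ) →
      ∫ s in (0 : ℝ)..(2 * Real.pi), F 1 s * exp (I * θ 0 s) = 0 → _ :=
    fun θ h1 h2 h3 h4 => hR θ h1 h2 h3 (by rw [hF]; exact h4)
  simp only [hF] at hd hp hn
  obtain ⟨B, hB1, hB⟩ := chain_bd hd hp (N + 1)
  have hp0 : F 0 (2 * Real.pi) = F 0 0 := by
    have := hp 0
    rwa [zero_add] at this
  obtain ⟨δ', hδ', hC⟩ := closing (hd 0) (chain_sm hd 1).continuous hp0 hv hn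
    (ε := min 1 (δ / 2 / B)) (by positivity)
  have hre : Per (2 * Real.pi) fun s => (F 2 s).re :=
    ⟨reCLM.contDiff.comp (chain_sm hd 2), fun s => by rw [chain_per hd hp 2 s]⟩
  have him : Per (2 * Real.pi) fun s => (F 2 s).im :=
    ⟨imCLM.contDiff.comp (chain_sm hd 2), fun s => by rw [chain_per hd hp 2 s]⟩
  have hs : Summable fun ξ : ℤ => |(ξ : ℝ)| ^ (4 * (N + 1 + j) + 9) * (‖fc (kf f) ξ‖ +
      (‖fc (fun s => (F 2 s).re) ξ‖ + ‖fc (fun s => (F 2 s).im) ξ‖)) := by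
    simp only [mul_add]
    exact ((hFOU _ hk).1.dec _).add (((hFOU _ hre).1.dec _).add ((hFOU _ him).1.dec _))
  have hm : 0 < min δ' (δ / 2) := by positivity
  obtain ⟨W, hW1, hW2, hW3, hW4⟩ : ∃ W : ℕ, W0 (N + 1 + j) ≤ W ∧ J < W ∧
      ∑' ξ : ℤ, |(ξ : ℝ)| ^ (4 * (N + 1 + j) + 9) * (‖fc (kf f) ξ‖ +
        (‖fc (fun s => (F 2 s).re) ξ‖ + ‖fc (fun s => (F 2 s).im) ξ‖)) < W ∧
      2 * (((win J).card : ℝ) * (J * 2 ^ N)) / min δ' (δ / 2) < W :=
    ((eventually_ge_atTop _).and ((eventually_gt_atTop _).and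
      ((tendsto_natCast_atTop_atTop.eventually_gt_atTop _).and
        (tendsto_natCast_atTop_atTop.eventually_gt_atTop _)))).exists
  have hG : ∀ n ≤ N, ∀ s, |GG a J W (amp (N + 1 + j) W) n s| ≤ min δ' (δ / 2) := fun n hn s => by
    refine (GG_bd ha hW2 (by omega) n hn s).trans ?_
    have h1 : (0 : ℝ) < W := by exact_mod_cast (Nat.zero_le J).trans_lt hW2
    rw [div_lt_iff₀ hm] at hW4
    rw [div_le_iff₀ h1]
    linarith
  have sG := chain_sm (GG_der a J W (amp (N + 1 + j) W))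
  obtain ⟨c, hc1, hc2⟩ := hC _ (sG 0).continuous
    fun s => (hG 0 (Nat.zero_le N) s).trans (min_le_left _ _)
  obtain ⟨g, hg, hg1, hg2⟩ := hR' (fun n s => GG a J W (amp (N + 1 + j) W) n s + ip c (F (n + 1) s))
    (fun n t => (GG_der _ _ _ _ n t).fun_add
      (((reCLM.hasFDerivAt.comp_hasDerivAt t (hd (n + 1) t)).const_mul c.re).fun_add
        ((imCLM.hasFDerivAt.comp_hasDerivAt t (hd (n + 1) t)).const_mul c.im)))
    (fun s => by simp only [GG_per a J W _ s, chain_per hd hp (0 + 1) s])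
    (fun n hn t => by
      have h1 := (hG n hn t).trans (min_le_right _ _)
      have h2 := ip_le c (F (n + 1) t)
      have h3 := hc1.trans (min_le_right _ _)
      rw [le_div_iff₀ (by positivity)] at h3
      have h4 := mul_le_mul_of_nonneg_left (hB (n + 1) (by omega) t) (norm_nonneg c)
      have h5 := abs_add_le (GG a J W (amp (N + 1 + j) W) n t) (ip c (F (n + 1) t))
      linarith) hc2
  refine ⟨g, hg, hg1, N + 1 + j, W, by omega, hW1, tail _ (fun ξ => by positivity) hs hW3 fun ξ => ?_⟩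
  have h1 := fc_lin hk.smooth.continuous (sG 1).continuous hre.smooth.continuous
    him.smooth.continuous c.re c.im ξ
  have h2 : kf g = fun s => kf f s + (GG a J W (amp (N + 1 + j) W) 1 s +
      (c.re * (F 2 s).re + c.im * (F 2 s).im)) := hg2
  have h3 := hc1.trans (min_le_left _ _)
  have h4 : ∀ (x : ℝ) (w : ℂ), |x| ≤ 1 → ‖x * w‖ ≤ ‖w‖ := fun x w hx => by
    rw [norm_mul, norm_real, Real.norm_eq_abs]
    exact mul_le_of_le_one_left (norm_nonneg _) hx
  rw [h2, h1, fc_GG ha hW2, add_left_comm, add_sub_cancel_left]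
  exact norm_add_le_of_le le_rfl (norm_add_le_of_le (h4 _ _ ((abs_re_le_norm c).trans h3))
    (h4 _ _ ((abs_im_le_norm c).trans h3)))

end DENSE

theorem st_dense (hEMB : St_EMB) (hFOU : St_FOU) (hOPEN : St_OPEN) : St_DENSE := by
  intro j J W0 a ha f
  have h := fun N : ℕ => DENSE.approx hEMB hFOU hOPEN j J W0 ha f.2 N
    (Nat.one_div_pos_of_nat (n := N))
  choose g hg h1 h2 using h
  refine mem_closure_of_tendsto (f := fun N => (⟨g N, hg N⟩ : Jordan)) (b := atTop) ?_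
    (Eventually.of_forall h2)
  rw [tendsto_subtype_rng, tendsto_pi_nhds]
  intro n
  rw [UniformFun.tendsto_iff_tendstoUniformly, Metric.tendstoUniformly_iff]
  intro ε hε
  filter_upwards [eventually_ge_atTop n,
    (tendsto_one_div_add_atTop_nhds_zero_nat (𝕜 := ℝ)).eventually (gt_mem_nhds hε)] with N h3 h4 t
  rw [dist_comm, dist_eq_norm]
  exact (h1 N n h3 t).trans_lt h4

end Pool.Agent.Lib.ISO
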