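import Pool.Agent.Lib.ISO.BlueE

/-! Block GEO1: the boundary of a smooth Jordan domain in arc length, with the domain on its left. -/

open scoped ContDiff ComplexConjugate Topology
open Complex Set Filter

noncomputable section

namespace Pool.Agent.Lib.ISO

open Pool.Agent.Lib.MP_312682_mp

namespace GEO1

theorem smooth {g : ℕ → ℝ → ℂ} (h : ∀ n t, HasDerivAt (g n) (g (n + 1) t) t) (n : ℕ) :
    ContDiff ℝ ∞ (g n) := by
  have key : ∀ k : ℕ, ∀ n, ContDiff ℝ k (g n) := by
    intro k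
    induction k with
    | zero => exact fun n => contDiff_zero.2 (continuous_iff_continuousAt.2 fun t =>
        (h n t).continuousAt)
    | succ k ih =>
      intro n
      rw [Nat.cast_succ, contDiff_succ_iff_deriv]
      refine ⟨fun t => (h n t).differentiableAt, by simp, ?_⟩
      rw [show deriv (g n) = g (n + 1) from funext fun t => (h n t).deriv]
      exact ih _
  exact contDiff_infty.2 fun k => key k n

theorem zero_iff {φ : ℂ → ℝ} (hφ : Continuous φ) (hr : ∀ z, φ z = 0 → fderiv ℝ φ z ≠ 0) (z : ℂ) :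
    φ z = 0 ↔ z ∈ frontier {z | φ z < 0} := by
  refine ⟨fun h => ⟨?_, fun hi => ?_⟩, fun h => frontier_lt_subset_eq hφ continuous_const h⟩
  · by_contra hc
    refine hr z h (IsLocalMin.fderiv_eq_zero ?_)
    filter_upwards [isClosed_closure.isOpen_compl.mem_nhds hc] with w hw
    rw [h]
    exact not_lt.1 fun h2 => hw (subset_closure h2)
  · exact absurd (interior_subset hi) (by simp [h])

theorem eq_zero {T : ℂ →L[ℝ] ℝ} {u : ℂ} (hu : u ≠ 0) (h1 : T u = 0) (h2 : T (I * u) = 0) :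
    T = 0 := by
  ext1 w
  have : w = (w / u).re • u + (w / u).im • (I * u) := by
    rw [real_smul, real_smul, ← mul_assoc, ← add_mul, re_add_im, div_mul_cancel₀ _ hu]
  rw [this, map_add, map_smul, map_smul, h1, h2]
  simp

theorem sign {h : ℝ → ℝ} (hc : Continuous h) (h0 : ∀ t, h t ≠ 0) :
    ∃ σ : ℝ, (σ = 1 ∨ σ = -1) ∧ ∀ t, σ * h t < 0 := by
  by_cases e : ∀ t, h t < 0
  · exact ⟨1, Or.inl rfl, fun t => by rw [one_mul]; exact e t⟩
  · obtain ⟨a, ha⟩ := not_forall.1 e
    refine ⟨-1, Or.inr rfl, fun t => ?_⟩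
    by_contra hn
    obtain ⟨x, hx⟩ := intermediate_value_univ₂ (a := t) (b := a) hc continuous_const
      (g := fun _ => 0) (by linarith [not_lt.1 hn]) (not_lt.1 ha)
    exact h0 x hx

end GEO1

open GEO1 in
theorem st_geo1 : St_GEO1 := by
  rintro f ⟨hd, hper, hinj, v, hv, hn⟩ Ω ⟨-, -, hb, φ, hφ, he, hr⟩ hfr
  set g : ℕ → ℝ → ℂ := fun n => UniformFun.toFun (f n) with hg
  change ∀ n t, HasDerivAt (g n) (g (n + 1) t) t at hd
  change Function.Periodic (g 0) _ at hper
  change InjOn (g 0) _ at hinj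
  change ∀ t, ‖g 1 t‖ = v at hn
  change _ = range (g 0) at hfr
  have hz : ∀ z, φ z = 0 ↔ z ∈ range (g 0) := fun z => by
    rw [← hfr, he]
    exact zero_iff hφ.continuous hr z
  have hz0 : ∀ t, φ (g 0 t) = 0 := fun t => (hz _).2 ⟨t, rfl⟩
  have htan : ∀ t, fderiv ℝ φ (g 0 t) (g 1 t) = 0 := fun t => by
    have h1 := (hφ.differentiable (by simp) (g 0 t)).hasFDerivAt.comp_hasDerivAt t (hd 0 t)
    rw [show φ ∘ g 0 = fun _ => 0 from funext hz0] at h1
    exact h1.unique (hasDerivAt_const t 0)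
  obtain ⟨σ, hσ, hs⟩ := sign (h := fun t => fderiv ℝ φ (g 0 t) (I * g 1 t))
    (((hφ.continuous_fderiv (by simp)).comp (smooth hd 0).continuous).clm_apply
      (continuous_const.mul (smooth hd 1).continuous))
    fun t h => hr _ (hz0 t) (eq_zero (fun e => hv.ne' (by rw [← hn t, e, norm_zero])) (htan t) h)
  have σ2 : σ * σ = 1 := by rcases hσ with rfl | rfl <;> norm_num
  have σa : |σ| = 1 := by rcases hσ with rfl | rfl <;> norm_num
  have hl : ∀ s, HasDerivAt (fun s : ℝ => σ * s / v) (σ / v) s := fun s => by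
    simpa using ((hasDerivAt_id s).const_mul σ).div_const v
  have hc : ∀ n s, HasDerivAt (fun s => g n (σ * s / v)) ((σ / v) • g (n + 1) (σ * s / v)) s :=
    fun n s => (hd n _).scomp s (hl s)
  have d1 : deriv (fun s => g 0 (σ * s / v)) = fun s => (σ / v) • g 1 (σ * s / v) :=
    funext fun s => (hc 0 s).deriv
  refine ⟨σ, v, φ, hσ, hv, (hn 0).symm, ⟨fun _ => ⟨⟨?_, fun s => ?_⟩, by positivity, fun s => ?_⟩,
    fun i j _ _ _ => Subsingleton.elim i j, fun _ s t h => ?_, hφ, he, fun z => ?_, fun _ s => ?_,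
    hb⟩, fun s => ?_⟩
  · exact (smooth hd 0).comp ((contDiff_const.mul contDiff_id).div_const v)
  · change ‖deriv (fun s => g 0 (σ * s / v)) s‖ = 1
    rw [d1, norm_smul, hn, Real.norm_eq_abs, abs_div, σa, abs_of_pos hv,
      div_mul_cancel₀ _ hv.ne']
  · change g 0 _ = g 0 _
    rw [show σ * (s + 2 * Real.pi * v) / v = σ * s / v + σ * (2 * Real.pi) by field_simp]
    rcases hσ with rfl | rfl
    · rw [one_mul (2 * Real.pi), hper]
    · rw [neg_one_mul (2 * Real.pi), ← sub_eq_add_neg, hper.sub_eq]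
  · change g 0 _ = g 0 _ at h
    have e : ∀ a, g 0 (toIcoMod Real.two_pi_pos 0 a) = g 0 a := fun a => hper.sub_zsmul_eq _
    have m : ∀ a, toIcoMod Real.two_pi_pos 0 a ∈ Ico 0 (2 * Real.pi) := fun a => by
      simpa using toIcoMod_mem_Ico Real.two_pi_pos 0 a
    obtain ⟨n, hn⟩ := (toIcoMod_eq_toIcoMod Real.two_pi_pos).1
      (hinj (m (σ * s / v)) (m (σ * t / v)) (by rw [e, e, h]))
    rw [zsmul_eq_mul, ← sub_div, div_eq_iff hv.ne'] at hn
    rcases hσ with rfl | rfl
    · exact ⟨n, by linarith⟩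
    · exact ⟨-n, by push_cast; linarith⟩
  · rw [hz]
    refine ⟨fun ⟨t, ht⟩ => ⟨0, σ * t * v, ?_⟩, fun ⟨_, s, h⟩ => ⟨_, h⟩⟩
    change g 0 _ = z
    rw [← mul_assoc, ← mul_assoc, σ2, one_mul, mul_div_cancel_right₀ _ hv.ne', ht]
  · change fderiv ℝ φ (g 0 (σ * s / v)) (I * deriv (fun s => g 0 (σ * s / v)) s) < 0
    rw [d1, mul_smul_comm, map_smul, smul_eq_mul, div_mul_eq_mul_div]
    exact div_neg_of_neg_of_pos (hs _) hv
  · change (deriv (deriv fun s => g 0 (σ * s / v)) s * conj (deriv (fun s => g 0 (σ * s / v)) s)).im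
      = σ * ((g 2 (σ * s / v) * conj (g 1 (σ * s / v))).im / v ^ 2) / v
    rw [d1, ((hc 1 s).fun_const_smul (σ / v)).deriv]
    simp only [real_smul, map_mul, conj_ofReal]
    rw [show ∀ a b c : ℂ, a * (a * b) * (a * c) = a * (a * (a * (b * c))) from fun a b c => by ring,
      im_ofReal_mul, im_ofReal_mul, im_ofReal_mul]
    field_simp
    linear_combination (σ * (g 2 (σ * s / v) * conj (g 1 (σ * s / v))).im) * σ2

end Pool.Agent.Lib.ISO
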