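import Pool.Agent.Lib.ISO.BlueV

/-! The invariants of even weight. -/

open scoped Topology
open Filter

noncomputable section

namespace Pool.Agent.Lib.ISO

open Pool.Agent.Lib.MP_312682_mp

namespace INV

/-- uniqueness of asymptotic coefficients -/
lemma uniq {A : Type} (s : Finset A) (w : A → ℕ) (e : A → ℝ) (N : ℕ) (hw : ∀ a ∈ s, w a < N)
    (C μ0 : ℝ) (h : ∀ μ, μ0 ≤ μ → 1 ≤ μ → |∑ a ∈ s, μ / μ ^ w a * e a| ≤ C * (μ * √μ / μ ^ N))
    (k : ℕ) (hk : k < N) : ∑ a ∈ s with w a = k, e a = 0 := by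
  set P : Polynomial ℝ := ∑ a ∈ s, Polynomial.monomial (N - 1 - w a) (e a) with hP
  have h1 : Tendsto (fun x => P.eval x) atTop (𝓝 0) := by
    have h2 : Tendsto (fun μ : ℝ => C * (√μ)⁻¹) atTop (𝓝 (C * 0)) :=
      (tendsto_inv_atTop_zero.comp Real.tendsto_sqrt_atTop).const_mul C
    rw [mul_zero] at h2
    refine squeeze_zero_norm' ?_ h2
    filter_upwards [eventually_ge_atTop μ0, eventually_ge_atTop 1] with μ a b
    have h0 : 0 < μ := by linarith
    have hs : 0 < √μ := Real.sqrt_pos.2 h0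
    have h3 : P.eval μ = μ ^ N / μ ^ 2 * ∑ a ∈ s, μ / μ ^ w a * e a := by
      rw [hP, Polynomial.eval_finsetSum, Finset.mul_sum]
      refine Finset.sum_congr rfl fun a ha => ?_
      have h4 : μ ^ N = μ ^ (N - 1 - w a) * μ ^ w a * μ := by
        rw [← pow_add, ← pow_succ]
        congr 1
        have := hw a ha
        omega
      rw [Polynomial.eval_monomial, h4]
      field_simp
    rw [Real.norm_eq_abs, h3, abs_mul, abs_of_pos (by positivity)]
    refine (mul_le_mul_of_nonneg_left (h μ a b) (by positivity)).trans (le_of_eq ?_)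
    have h5 : √μ * √μ = μ := Real.mul_self_sqrt h0.le
    field_simp
    rw [sq, h5, mul_comm]
  have h2 : P = 0 := Polynomial.leadingCoeff_eq_zero.1 ((Polynomial.tendsto_nhds_iff P).1 h1).1
  have h3 := congrArg (fun Q : Polynomial ℝ => Q.coeff (N - 1 - k)) h2
  simp only [hP, Polynomial.finsetSum_coeff, Polynomial.coeff_monomial,
    Polynomial.coeff_zero] at h3
  rw [Finset.sum_filter]
  refine (Finset.sum_congr rfl fun a ha => ?_).trans h3
  have := hw a ha
  exact if_congr (by omega) rfl rfl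

lemma sum_zero {α : List ℕ} (h : nd α = 0) : α.sum = 0 := by
  rw [nd, List.countP_eq_zero] at h
  exact List.sum_eq_zero fun x hx => by simpa using h x hx

lemma tame {m : ℕ} (hm : 2 ≤ m) {α : List ℕ} (hw : wt α = 2 * m + 2) (he : Even α.sum)
    (hn : Nrm α) (h2 : α ≠ [m, m]) (h4 : α ≠ [m - 1, m - 1, 0, 0]) : Tame (m - 1) α := by
  have hl : nd α ≤ α.length := List.countP_le_length
  have h0 : α.length = 0 → α.sum = 0 := fun h => by rw [List.length_eq_zero_iff.1 h]; rfl
  obtain ⟨t, ht⟩ := he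
  unfold wt at hw
  unfold Tame
  rcases hn with h | h | ⟨r, p, hr, h⟩
  · have := sum_zero h
    omega
  · omega
  · have e1 : α.length = p + 2 := by rw [h]; simp
    have e2 : α.sum = 2 * r := by rw [h]; simp; omega
    by_cases p0 : p = 0
    · refine (h2 ?_).elim
      have : r = m := by omega
      rw [h, p0, this]; rfl
    by_cases p2 : p = 2
    · refine (h4 ?_).elim
      have : r = m - 1 := by omega
      rw [h, p2, this]; rfl
    omega

end INV

open INV in
theorem st_inv (hEXP : St_EXP) (hCOEF : St_COEF) (hDOM : St_DOM) : St_INV := by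
  intro m hm
  obtain ⟨N', s, c, hE⟩ := hEXP (6 * m + 40) (by omega)
  obtain ⟨h2, h4⟩ := hCOEF m hm N' s c hE
  have m2 : [m, m] ∈ s := by
    by_contra h
    exact h2 (if_neg h)
  rw [if_pos m2] at h2 h4
  have w2 : wt [m, m] = 2 * m + 2 := by simp [wt]; omega
  have w4 : wt [m - 1, m - 1, 0, 0] = 2 * m + 2 := by simp [wt]; omega
  have ne : [m - 1, m - 1, 0, 0] ≠ [m, m] := by simp
  set t := s.filter fun α => wt α = 2 * m + 2 with ht
  have key : ∀ v : List ℕ → ℝ, ∑ α ∈ t, c α * v α = c [m, m] * (v [m, m] +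
      Sc m * v [m - 1, m - 1, 0, 0] +
      ∑ α ∈ (t.erase [m, m]).erase [m - 1, m - 1, 0, 0], c α / c [m, m] * v α) := by
    intro v
    have a1 : ∑ α ∈ (t.erase [m, m]).erase [m - 1, m - 1, 0, 0], c α * v α =
        c [m, m] * ∑ α ∈ (t.erase [m, m]).erase [m - 1, m - 1, 0, 0], c α / c [m, m] * v α := by
      rw [Finset.mul_sum]
      exact Finset.sum_congr rfl fun α _ => by field_simp
    rw [← Finset.add_sum_erase t _ (Finset.mem_filter.2 ⟨m2, w2⟩), mul_add, mul_add, ← a1,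
      ← mul_assoc, ← h4, add_assoc]
    congr 1
    by_cases m4 : [m - 1, m - 1, 0, 0] ∈ s
    · rw [if_pos m4, Finset.add_sum_erase _ (fun α => c α * v α)
        (Finset.mem_erase.2 ⟨ne, Finset.mem_filter.2 ⟨m4, w4⟩⟩)]
    · rw [if_neg m4, zero_mul, zero_add, Finset.erase_eq_of_notMem
        (fun h => m4 (Finset.mem_filter.1 (Finset.mem_of_mem_erase h)).1)]
  refine ⟨(t.erase [m, m]).erase [m - 1, m - 1, 0, 0], fun α => c α / c [m, m], fun α hα => ?_, ?_⟩
  · obtain ⟨a1, hα⟩ := Finset.mem_erase.1 hα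
    obtain ⟨a2, hα⟩ := Finset.mem_erase.1 hα
    obtain ⟨a3, a4⟩ := Finset.mem_filter.1 hα
    exact ⟨a4, tame hm a4 (hE.1 α a3).2.1 (hE.1 α a3).2.2 a2 a1⟩
  intro Ω Ω' γ γ' L L' δ δ' F F' hF
  obtain ⟨K, D⟩ := hDOM N' 1 Ω γ L δ F
  obtain ⟨K', D'⟩ := hDOM N' 1 Ω' γ' L' δ' F'
  obtain ⟨C, μ0, b⟩ := hE.2 K
  obtain ⟨C', μ0', b'⟩ := hE.2 K'
  have u := uniq s wt (fun α => c α * mI α γ L - c α * mI α γ' L') (6 * m + 40)
    (fun α hα => (hE.1 α hα).1) (C + C') (max μ0 μ0') (fun μ a1 a2 => by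
      have b1 := abs_le.1 (b 1 Ω γ L D μ (le_of_max_le_left a1))
      have b2 := abs_le.1 (b' 1 Ω' γ' L' D' μ (le_of_max_le_right a1))
      rw [hF μ a2] at b1
      simp only [mul_sub, Finset.sum_sub_distrib]
      rw [abs_le]
      constructor <;> linarith [b1.1, b1.2, b2.1, b2.2]) (2 * m + 2) (by omega)
  rw [Finset.sum_sub_distrib, sub_eq_zero, ← ht, key, key] at u
  have u' := mul_left_cancel₀ h2 u
  simpa only [mI, Fin.sum_univ_one, Jm] using u'

end Pool.Agent.Lib.ISO
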