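import Pool.Agent.Lib.ISO.BlueK

/-! Block DENSE, tools: derivative chains, rotation of the tangent, the closing condition. -/

open scoped ContDiff ComplexConjugate
open Complex

noncomputable section

namespace Pool.Agent.Lib.ISO

namespace DENSE

section chain

variable {E : Type} [NormedAddCommGroup E] [NormedSpace ℝ E] {F : ℕ → ℝ → E}

theorem chain_it (h : ∀ n t, HasDerivAt (F n) (F (n + 1) t) t) (n m : ℕ) :
    iteratedDeriv n (F m) = F (m + n) := by
  induction n with
  | zero => rw [iteratedDeriv_zero, Nat.add_zero]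
  | succ n ih =>
    rw [iteratedDeriv_succ, ih]
    exact funext fun t => (h (m + n) t).deriv

theorem chain_sm (h : ∀ n t, HasDerivAt (F n) (F (n + 1) t) t) (m : ℕ) : ContDiff ℝ ∞ (F m) :=
  contDiff_of_differentiable_iteratedDeriv fun n _ => by
    rw [chain_it h]
    exact fun t => (h _ t).differentiableAt

theorem chain_per (h : ∀ n t, HasDerivAt (F n) (F (n + 1) t) t) {c : ℝ}
    (hp : Function.Periodic (F 0) c) (n : ℕ) : Function.Periodic (F n) c := by
  induction n with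
  | zero => exact hp
  | succ n ih =>
    intro t
    have h1 := (h n (t + c)).comp_add_const t c
    have h2 : (fun x => F n (x + c)) = F n := funext ih
    rw [h2] at h1
    exact h1.unique (h n t)

theorem chain_bd (h : ∀ n t, HasDerivAt (F n) (F (n + 1) t) t)
    (hp : Function.Periodic (F 0) (2 * Real.pi)) (N : ℕ) :
    ∃ B : ℝ, 1 ≤ B ∧ ∀ n ≤ N, ∀ t, ‖F n t‖ ≤ B := by
  have h1 : ∀ n, ∃ B : ℝ, ∀ t, ‖F n t‖ ≤ B := fun n => by
    obtain ⟨B, hB⟩ := ((chain_per h hp n).isBounded_of_continuous Real.two_pi_pos.ne'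
      (chain_sm h n).continuous).exists_norm_le
    exact ⟨B, fun t => hB _ ⟨t, rfl⟩⟩
  choose B hB using h1
  have h0 : ∀ n, 0 ≤ B n := fun n => (norm_nonneg _).trans (hB n 0)
  refine ⟨1 + ∑ n ∈ Finset.range (N + 1), B n, ?_, fun n hn t => ?_⟩
  · have := Finset.sum_nonneg (s := Finset.range (N + 1)) fun n _ => h0 n
    linarith
  · have := Finset.single_le_sum (s := Finset.range (N + 1)) (fun n _ => h0 n)
      (Finset.mem_range.2 (Nat.lt_succ_of_le hn))
    linarith [hB n t]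

theorem it_chain {T : ℝ → E} (hT : ContDiff ℝ ∞ T) (n : ℕ) (t : ℝ) :
    HasDerivAt (iteratedDeriv n T) (iteratedDeriv (n + 1) T t) t := by
  rw [iteratedDeriv_succ]
  exact (hT.differentiable_iteratedDeriv n (by exact_mod_cast ENat.natCast_lt_top n) t).hasDerivAt

end chain

theorem exp_der (q : ℂ) (s : ℝ) :
    HasDerivAt (fun s : ℝ => exp (q * s)) (exp (q * s) * q) s := by
  have h := (((hasDerivAt_id (s : ℂ)).const_mul q).cexp).comp_ofReal
  simpa using h

/-- derivatives of `exp (i x) - 1` -/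
def ee : ℕ → ℝ → ℂ
  | 0 => fun x => exp (I * x) - 1
  | n + 1 => fun x => exp (I * x) * I ^ (n + 1)

theorem ee_der : ∀ n t, HasDerivAt (ee n) (ee (n + 1) t) t
  | 0, t => by
    have h := (exp_der I t).sub_const 1
    simpa [ee] using h
  | n + 1, t => by
    have h := (exp_der I t).mul_const (I ^ (n + 1))
    refine h.congr_deriv ?_
    simp only [ee]
    ring

theorem ee_bd : ∀ n t, ‖ee n t‖ ≤ 2
  | 0, t => by
    have h := norm_sub_le (exp (I * t)) 1
    rw [norm_exp_I_mul_ofReal, norm_one] at h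
    simp only [ee]
    linarith
  | n + 1, t => by
    simp only [ee]
    rw [norm_mul, norm_exp_I_mul_ofReal, norm_pow, norm_I, one_pow]
    norm_num

theorem exp_bd (N : ℕ) {θ : ℝ → ℝ} (hθ : ContDiff ℝ ∞ θ) {D : ℝ} (h0 : 0 ≤ D) (h1 : D ≤ 1)
    (hb : ∀ i ≤ N, ∀ s, |iteratedDeriv i θ s| ≤ D ^ (N + 1)) :
    ∀ n ≤ N, ∀ s, ‖iteratedDeriv n (ee 0 ∘ θ) s‖ ≤ 2 * N.factorial * D := by
  intro n hn s
  have hf : (1 : ℝ) ≤ N.factorial := by exact_mod_cast N.factorial_pos
  rcases Nat.eq_zero_or_pos n with rfl | hpos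
  · have h2 := hb 0 hn s
    rw [iteratedDeriv_zero] at h2 ⊢
    have h3 : ‖exp (I * θ s) - 1‖ ≤ ‖θ s‖ := Real.norm_exp_I_mul_ofReal_sub_one_le
    have h4 : D ^ (N + 1) ≤ D := pow_le_of_le_one h0 h1 (Nat.succ_ne_zero N)
    rw [Real.norm_eq_abs] at h3
    show ‖exp (I * θ s) - 1‖ ≤ _
    nlinarith
  · rw [← norm_iteratedFDeriv_eq_norm_iteratedDeriv]
    have h2 := norm_iteratedFDeriv_comp_le (n := n) (chain_sm ee_der 0) hθ
      (by exact_mod_cast le_top) s (C := 2) (D := D) (fun i _ => by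
        rw [norm_iteratedFDeriv_eq_norm_iteratedDeriv, chain_it ee_der]
        exact ee_bd _ _) (fun i _ hi => by
        rw [norm_iteratedFDeriv_eq_norm_iteratedDeriv, Real.norm_eq_abs]
        exact (hb i (hi.trans hn) s).trans (pow_le_pow_of_le_one h0 h1 (by omega)))
    refine h2.trans ?_
    have h3 : (n.factorial : ℝ) ≤ N.factorial := by exact_mod_cast Nat.factorial_le hn
    have h4 : D ^ n ≤ D := pow_le_of_le_one h0 h1 hpos.ne'
    rw [mul_comm (2 : ℝ)]
    gcongr

theorem mul_bd {u w : ℝ → ℂ} (hu : ContDiff ℝ ∞ u) (hw : ContDiff ℝ ∞ w) {N : ℕ} {B C : ℝ}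
    (h1 : ∀ n ≤ N, ∀ s, ‖iteratedDeriv n u s‖ ≤ B) (h2 : ∀ n ≤ N, ∀ s, ‖iteratedDeriv n w s‖ ≤ C) :
    ∀ n ≤ N, ∀ s, ‖iteratedDeriv n (fun y => u y * w y) s‖ ≤ 2 ^ N * (B * C) := by
  intro n hn s
  have hB : 0 ≤ B := (norm_nonneg _).trans (h1 n hn s)
  have hC : 0 ≤ C := (norm_nonneg _).trans (h2 n hn s)
  rw [← norm_iteratedFDeriv_eq_norm_iteratedDeriv]
  refine (norm_iteratedFDeriv_mul_le hu hw s (by exact_mod_cast le_top)).trans ?_
  have h3 : ∑ i ∈ Finset.range (n + 1), (n.choose i : ℝ) * ‖iteratedFDeriv ℝ i u s‖ *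
      ‖iteratedFDeriv ℝ (n - i) w s‖ ≤ ∑ i ∈ Finset.range (n + 1), (n.choose i : ℝ) * (B * C) := by
    refine Finset.sum_le_sum fun i hi => ?_
    rw [norm_iteratedFDeriv_eq_norm_iteratedDeriv, norm_iteratedFDeriv_eq_norm_iteratedDeriv,
      mul_assoc]
    have h4 := h1 i (by have := Finset.mem_range.1 hi; omega) s
    have h5 := h2 (n - i) (by omega) s
    gcongr
  refine h3.trans ?_
  rw [← Finset.sum_mul, ← Nat.cast_sum, Nat.sum_range_choose]
  push_cast
  gcongr
  norm_num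

/-- real inner product on the plane -/
def ip (c w : ℂ) : ℝ := c.re * w.re + c.im * w.im

theorem ip_le (c w : ℂ) : |ip c w| ≤ ‖c‖ * ‖w‖ := by
  have h : ip c w = (conj c * w).re := by simp [ip]
  rw [h, ← norm_conj c, ← norm_mul]
  exact abs_re_le_norm _

theorem exp_mv {α β r : ℝ} (ha : |α| ≤ r) (hb : |β| ≤ r) :
    ‖exp (I * α) - exp (I * β) - I * ((α - β : ℝ) : ℂ)‖ ≤ r * |α - β| := by
  have h := Convex.norm_image_sub_le_of_norm_hasDerivWithin_le
    (f := fun x : ℝ => exp (I * x) - I * x) (f' := fun x : ℝ => (exp (I * x) - 1) * I)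
    (s := Set.Icc (-r) r) (x := β) (y := α) (C := r) (fun x _ => by
      have h1 : HasDerivAt (fun x : ℝ => I * (x : ℂ)) I x := by
        simpa using ((hasDerivAt_id (x : ℂ)).const_mul I).comp_ofReal
      exact (((exp_der I x).fun_sub h1).congr_deriv (by ring)).hasDerivWithinAt)
    (fun x hx => by
      rw [norm_mul, norm_I, mul_one]
      exact Real.norm_exp_I_mul_ofReal_sub_one_le.trans (abs_le.2 hx))
    (convex_Icc _ _) (abs_le.1 hb) (abs_le.1 ha)
  refine le_trans (le_of_eq ?_) h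
  congr 1
  push_cast
  ring

/-- linearisation of the closing map -/
def LL (u : ℝ → ℂ) : ℂ →L[ℝ] ℂ :=
  reCLM.smulRight (∫ s in (0 : ℝ)..(2 * Real.pi), u s * (I * (u s).re)) +
    imCLM.smulRight (∫ s in (0 : ℝ)..(2 * Real.pi), u s * (I * (u s).im))

theorem LL_apply {u : ℝ → ℂ} (hu : Continuous u) (c : ℂ) :
    LL u c = ∫ s in (0 : ℝ)..(2 * Real.pi), u s * (I * ip c (u s)) := by
  have h1 : Continuous fun s => c.re • (u s * (I * (u s).re)) := by fun_prop
  have h2 : Continuous fun s => c.im • (u s * (I * (u s).im)) := by fun_prop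
  simp only [LL, _root_.add_apply, ContinuousLinearMap.smulRight_apply, reCLM_apply,
    imCLM_apply]
  rw [← intervalIntegral.integral_smul, ← intervalIntegral.integral_smul,
    ← intervalIntegral.integral_add (h1.intervalIntegrable _ _) (h2.intervalIntegrable _ _)]
  refine intervalIntegral.integral_congr fun s _ => ?_
  simp only [ip, real_smul]
  push_cast
  ring

theorem LL_inj {γ u : ℝ → ℂ} (hγ : ∀ t, HasDerivAt γ (u t) t) (hu : Continuous u)
    (hp : γ (2 * Real.pi) = γ 0) (hn : ∀ t, u t ≠ 0) : Function.Injective (LL u) := by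
  rw [injective_iff_map_eq_zero]
  intro c hc
  by_contra h0
  let φ : ℂ →L[ℝ] ℝ := c.re • imCLM - c.im • reCLM
  have hφ : ∀ w, φ w = c.re * w.im - c.im * w.re := fun w => by simp [φ]
  have hc1 : Continuous fun s => ip c (u s) := by unfold ip; fun_prop
  have h1 : Continuous fun s => u s * (I * ip c (u s)) := by fun_prop
  have h2 := φ.intervalIntegral_comp_comm (μ := MeasureTheory.volume)
    (h1.intervalIntegrable 0 (2 * Real.pi))
  rw [← LL_apply hu, hc, map_zero] at h2
  have h3 : ∀ s, φ (u s * (I * ip c (u s))) = ip c (u s) ^ 2 := fun s => by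
    rw [hφ]
    simp only [mul_im, mul_re, I_re, I_im, ofReal_re, ofReal_im]
    unfold ip
    ring
  simp only [h3] at h2
  have h4 : ∀ t, HasDerivAt (fun s => φ (γ s)) (φ (u t)) t := fun t =>
    φ.hasFDerivAt.comp_hasDerivAt t (hγ t)
  obtain ⟨s, hs, h5⟩ := exists_hasDerivAt_eq_zero (f := fun s => φ (γ s)) Real.two_pi_pos
    (fun t _ => (h4 t).continuousAt.continuousWithinAt) (by rw [hp]) fun t _ => h4 t
  have h6 : ip c (u s) ≠ 0 := fun h6 => by
    have h7 : conj c * u s = 0 := by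
      rw [hφ] at h5
      unfold ip at h6
      refine Complex.ext ?_ ?_
      · simp only [mul_re, conj_re, conj_im, zero_re]
        linarith
      · simp only [mul_im, conj_re, conj_im, zero_im]
        linarith
    rcases mul_eq_zero.1 h7 with h8 | h8
    · exact h0 (by simpa using h8)
    · exact hn s h8
  have h7 := intervalIntegral.integral_pos (f := fun s => ip c (u s) ^ 2) Real.two_pi_pos
    (hc1.pow 2).continuousOn (fun x _ => sq_nonneg _)
    ⟨s, Set.Ioo_subset_Icc_self hs, by positivity⟩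
  exact h7.ne' h2

theorem closing {γ u : ℝ → ℂ} {v : ℝ} (hγ : ∀ t, HasDerivAt γ (u t) t) (hu : Continuous u)
    (hp : γ (2 * Real.pi) = γ 0) (hv : 0 < v) (hn : ∀ t, ‖u t‖ = v) {ε : ℝ} (hε : 0 < ε) :
    ∃ δ > 0, ∀ G : ℝ → ℝ, Continuous G → (∀ s, |G s| ≤ δ) → ∃ c : ℂ, ‖c‖ ≤ ε ∧
      ∫ s in (0 : ℝ)..(2 * Real.pi), u s * exp (I * ((G s + ip c (u s) : ℝ) : ℂ)) = 0 := by
  have hinj := LL_inj hγ hu hp fun t h => by
    have := hn t
    rw [h, norm_zero] at this
    exact hv.ne this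
  obtain ⟨R, hR⟩ := (LL u).exists_nonlinearRightInverse_of_surjective
    (LinearMap.range_eq_top.2 (LinearMap.injective_iff_surjective.1 hinj))
  have hκ : 0 < (R.nnnorm : ℝ)⁻¹ := inv_pos.2 hR
  generalize hκe : (R.nnnorm : ℝ)⁻¹ = κ at hκ
  have hpi := Real.two_pi_pos
  obtain ⟨ρ, hρ, hρ1, hρ2⟩ : ∃ ρ : ℝ, 0 < ρ ∧ ρ ≤ ε ∧
      v * (ρ * (1 + v) * v) * (2 * Real.pi) ≤ κ / 2 := by
    refine ⟨min ε (κ / 2 / (v * ((1 + v) * v) * (2 * Real.pi))), by positivity, min_le_left _ _, ?_⟩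
    have h1 := min_le_right ε (κ / 2 / (v * ((1 + v) * v) * (2 * Real.pi)))
    rw [le_div_iff₀ (by positivity)] at h1
    linarith
  obtain ⟨δ, hδ, hδ1, hδ2⟩ : ∃ δ : ℝ, 0 < δ ∧ δ ≤ ρ ∧ v * δ * (2 * Real.pi) ≤ κ / 2 * ρ := by
    refine ⟨min ρ (κ / 2 * ρ / (v * (2 * Real.pi))), by positivity, min_le_left _ _, ?_⟩
    have h1 := min_le_right ρ (κ / 2 * ρ / (v * (2 * Real.pi)))
    rw [le_div_iff₀ (by positivity)] at h1
    linarith
  refine ⟨δ, hδ, fun G hG hb => ?_⟩
  have hc : ∀ c, Continuous fun s => u s * exp (I * ((G s + ip c (u s) : ℝ) : ℂ)) := fun c => by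
    unfold ip
    fun_prop
  have hc' : ∀ c, Continuous fun s => u s * (I * ip c (u s)) := fun c => by
    unfold ip
    fun_prop
  have habs : |2 * Real.pi - 0| = 2 * Real.pi := by rw [sub_zero, abs_of_pos hpi]
  have hA : ApproximatesLinearOn
      (fun c => ∫ s in (0 : ℝ)..(2 * Real.pi), u s * exp (I * ((G s + ip c (u s) : ℝ) : ℂ)))
      (LL u) (Metric.closedBall 0 ρ) ⟨κ / 2, by positivity⟩ := by
    intro x hx y hy
    rw [mem_closedBall_zero_iff] at hx hy
    rw [LL_apply hu, ← intervalIntegral.integral_sub ((hc x).intervalIntegrable _ _)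
      ((hc y).intervalIntegrable _ _), ← intervalIntegral.integral_sub
      (((hc x).fun_sub (hc y)).intervalIntegrable _ _) ((hc' _).intervalIntegrable _ _)]
    have hb2 : ∀ z : ℂ, ‖z‖ ≤ ρ → ∀ s, |G s + ip z (u s)| ≤ ρ * (1 + v) := fun z hz s => by
      have h1 := ip_le z (u s)
      rw [hn] at h1
      have h2 := abs_add_le (G s) (ip z (u s))
      have h3 := mul_le_mul_of_nonneg_right hz hv.le
      linarith [hb s]
    refine (intervalIntegral.norm_integral_le_of_norm_le_const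
      (C := v * (ρ * (1 + v) * (‖x - y‖ * v))) fun s _ => ?_).trans ?_
    · have h1 := exp_mv (hb2 x hx s) (hb2 y hy s)
      have h2 : G s + ip x (u s) - (G s + ip y (u s)) = ip (x - y) (u s) := by
        simp only [ip, sub_re, sub_im]
        ring
      have h3 := ip_le (x - y) (u s)
      rw [h2] at h1
      rw [hn] at h3
      rw [← mul_sub, ← mul_sub, norm_mul, hn]
      refine mul_le_mul_of_nonneg_left (h1.trans ?_) hv.le
      exact mul_le_mul_of_nonneg_left h3 (by positivity)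
    · rw [habs]
      have := mul_le_mul_of_nonneg_right hρ2 (norm_nonneg (x - y))
      show _ ≤ κ / 2 * ‖x - y‖
      linarith
  have hS := hA.surjOn_closedBall_of_nonlinearRightInverse R hρ.le subset_rfl
  have h0 : ∫ s in (0 : ℝ)..(2 * Real.pi), u s = 0 := by
    rw [intervalIntegral.integral_eq_sub_of_hasDerivAt (fun t _ => hγ t)
      (hu.intervalIntegrable _ _), hp, sub_self]
  obtain ⟨c, hc1, hc2⟩ := hS (a := 0) (by
    rw [Metric.mem_closedBall, dist_comm, dist_eq_norm, hκe]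
    nth_rewrite 2 [← h0]
    rw [← intervalIntegral.integral_sub ((hc 0).intervalIntegrable _ _)
      (hu.intervalIntegrable _ _)]
    refine (intervalIntegral.norm_integral_le_of_norm_le_const (C := v * δ) fun s _ => ?_).trans ?_
    · rw [← mul_sub_one, norm_mul, hn]
      refine mul_le_mul_of_nonneg_left (Real.norm_exp_I_mul_ofReal_sub_one_le.trans ?_) hv.le
      simpa [ip] using hb s
    · rw [habs]
      show _ ≤ (κ - κ / 2) * ρ
      linarith)
  exact ⟨c, (mem_closedBall_zero_iff.1 hc1).trans hρ1, hc2⟩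

end DENSE

end Pool.Agent.Lib.ISO
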