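import Pool.Agent.Lib.ISO.BlueE

/-! Part V (second variation at a round annulus): statements of the blocks. -/

open scoped InnerProductSpace ENNReal ContDiff ComplexConjugate Topology
open MeasureTheory Complex Set Filter

noncomputable section

namespace Pool.Agent.Lib.ISO

open Pool.Agent.Lib.MP_312682_mp

/-! ## One-dimensional Dirichlet problems -/

structure GD where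
  G : (ℝ → ℂ) → ℝ → ℂ
  h0 : ℝ → ℝ
  h1 : ℝ → ℝ

/-- `G` inverts `-u'' + q u` on `[0, δ]` with Dirichlet conditions, `h0`, `h1` are the harmonic
functions with unit boundary data -/
structure Gr (q : ℝ → ℝ) (δ : ℝ) (g : GD) : Prop where
  sm : ∀ f, ContDiff ℝ ∞ f → ContDiff ℝ ∞ (g.G f)
  z0 : ∀ f, ContDiff ℝ ∞ f → g.G f 0 = 0
  z1 : ∀ f, ContDiff ℝ ∞ f → g.G f δ = 0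
  eq : ∀ f, ContDiff ℝ ∞ f → ∀ x ∈ Icc 0 δ, deriv (deriv (g.G f)) x = q x * g.G f x - f x
  s0 : ContDiff ℝ ∞ g.h0
  s1 : ContDiff ℝ ∞ g.h1
  v00 : g.h0 0 = 1
  v01 : g.h0 δ = 0
  v10 : g.h1 0 = 0
  v11 : g.h1 δ = 1
  e0 : ∀ x ∈ Icc 0 δ, deriv (deriv g.h0) x = q x * g.h0 x
  e1 : ∀ x ∈ Icc 0 δ, deriv (deriv g.h1) x = q x * g.h1 x

def ipc (δ : ℝ) (f g : ℝ → ℂ) : ℂ := ∫ x in (0 : ℝ)..δ, conj (f x) * g x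
def nn (δ : ℝ) (f : ℝ → ℂ) : ℝ := ∫ x in (0 : ℝ)..δ, ‖f x‖ ^ 2

namespace GD

variable (g : GD) (δ : ℝ)

def N0 : ℝ := -deriv g.h0 0
def N1 : ℝ := deriv g.h1 δ
def Nx : ℝ := deriv g.h0 δ
def M0 : ℝ := ∫ x in (0 : ℝ)..δ, g.h0 x ^ 2
def M1 : ℝ := ∫ x in (0 : ℝ)..δ, g.h1 x ^ 2
def Mx : ℝ := ∫ x in (0 : ℝ)..δ, g.h0 x * g.h1 x
def u0 (x : ℝ) : ℝ := (g.G (fun y => g.h0 y) x).re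
def u1 (x : ℝ) : ℝ := (g.G (fun y => g.h1 y) x).re
def G0 : ℝ := ∫ x in (0 : ℝ)..δ, g.u0 x * g.h0 x
def G1 : ℝ := ∫ x in (0 : ℝ)..δ, g.u1 x * g.h1 x
def Gx : ℝ := ∫ x in (0 : ℝ)..δ, g.u1 x * g.h0 x
def bb : ℝ := ∑' i : ℤ, nn δ (deriv (g.G (ex δ i)))

end GD

def xx (δ : ℝ) (gj gl : GD) : ℝ := 2 * (∫ x in (0 : ℝ)..δ, gj.u0 x * deriv gl.h0 x) -
  2 * ∫ x in (0 : ℝ)..δ, gj.u1 x * deriv gl.h1 x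
def Uo (qj ql : ℝ → ℝ) (u : ℝ → ℂ) (x : ℝ) : ℂ :=
  ((qj x - ql x : ℝ) : ℂ) * deriv u x - (deriv ql x : ℝ) * u x
def So (qj ql : ℝ → ℝ) (gj gl : GD) (φ : ℝ → ℂ) (x : ℝ) : ℂ := -gj.G (Uo qj ql (gl.G φ)) x
def e2 (δ : ℝ) (qj ql : ℝ → ℝ) (gj gl : GD) (φ : ℝ → ℂ) : ℝ :=
  nn δ (So qj ql gj gl φ) - 2 * (ipc δ (Uo qj ql (gl.G (gl.G φ))) (So qj ql gj gl φ)).re
/-- the part of the pair identity that survives the summation -/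
def Es (δ : ℝ) (gj gl : GD) : ℝ := gj.M0 δ * gl.M0 δ + gj.M1 δ * gl.M1 δ - 2 * (gj.Mx δ * gl.Mx δ) -
  2 * (gj.N0 * gl.G0 δ) - 2 * (gj.N1 δ * gl.G1 δ) + 4 * (gj.Nx δ * gl.Gx δ)

def St_ODE : Prop := ∀ (q : ℝ → ℝ) (δ : ℝ), 0 < δ → ContDiff ℝ ∞ q → (∀ x ∈ Icc 0 δ, 0 < q x) →
  ∃ g, Gr q δ g

def St_PAIR : Prop := ∀ (δ : ℝ) (qj ql : ℝ → ℝ) (gj gl : GD), 0 < δ → ContDiff ℝ ∞ qj →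
  ContDiff ℝ ∞ ql → (∀ x ∈ Icc 0 δ, 0 < qj x) → (∀ x ∈ Icc 0 δ, 0 < ql x) → Gr qj δ gj →
  Gr ql δ gl → HasSum (fun i : ℤ => e2 δ qj ql gj gl (ex δ i) -
      2 * (ipc δ (deriv (gl.G (gl.G (ex δ i)))) (Uo qj ql (gl.G (ex δ i)))).re)
    (Es δ gj gl + (gj.bb δ - gl.bb δ) + (xx δ gj gl - xx δ gl gj))

/-- bounds; `a` is the size of `√q` -/
structure Sz (C c δ a : ℝ) (g : GD) : Prop where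
  n0 : |g.N0| ≤ C * a
  n1 : |g.N1 δ| ≤ C * a
  m0 : |g.M0 δ| ≤ C / a
  m1 : |g.M1 δ| ≤ C / a
  g0 : |g.G0 δ| ≤ C / a ^ 3
  g1 : |g.G1 δ| ≤ C / a ^ 3
  gx : |g.Gx δ| ≤ C / a ^ 3
  nx : |g.Nx δ| ≤ C * Real.exp (-(c * a))
  mx : |g.Mx δ| ≤ C * Real.exp (-(c * a))
  b : |g.bb δ| ≤ C / a
  d0 : ∫ x in (0 : ℝ)..δ, deriv g.h0 x ^ 2 ≤ C * a
  d1 : ∫ x in (0 : ℝ)..δ, deriv g.h1 x ^ 2 ≤ C * a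
  w0 : ∫ x in (0 : ℝ)..δ, g.u0 x ^ 2 ≤ C / a ^ 5
  w1 : ∫ x in (0 : ℝ)..δ, g.u1 x ^ 2 ≤ C / a ^ 5

def St_BND : Prop := ∀ δ : ℝ, 0 < δ → ∃ C c, 0 < c ∧ ∀ (q : ℝ → ℝ) (a : ℝ) (g : GD), 1 ≤ a →
  ContDiff ℝ ∞ q → (∀ x ∈ Icc 0 δ, a ^ 2 / 2 ≤ q x ∧ q x ≤ 2 * a ^ 2) → Gr q δ g → Sz C c δ a g

/-! ## Symbols in `τ = t R²` and `s = l²` -/

def sy (a : ℕ) (b : ℤ) (τ s : ℝ) : ℝ := τ ^ a * √(τ + s) ^ b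
def SyL (d : ℤ) : Submodule ℝ (ℝ → ℝ → ℝ) :=
  Submodule.span ℝ {f | ∃ (a : ℕ) (b : ℤ), 2 * a + b ≤ d ∧ f = sy a b}
def InS (d : ℤ) (f : ℝ → ℝ → ℝ) : Prop := ∃ g ∈ SyL d, ∀ τ s, 0 < τ → 0 ≤ s → f τ s = g τ s
def dt (f : ℝ → ℝ → ℝ) (τ s : ℝ) : ℝ := deriv (fun τ => f τ s) τ

def St_SYC : Prop :=
  (∀ d f, InS d f → InS (d - 2) (dt f) ∧
    (∀ τ s, 0 < τ → 0 ≤ s → HasDerivAt (fun τ => f τ s) (dt f τ s) τ) ∧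
    ∃ C, ∀ τ s, 0 < τ → 0 ≤ s → 1 / 4 ≤ τ + s → |f τ s| ≤ C * √(τ + s) ^ d) ∧
  (∀ d d' f g, InS d f → InS d' g → InS (d + d') (f * g)) ∧
  (∀ d f g, InS d f → InS d g → InS d (f + g)) ∧ (∀ d (c : ℝ) f, InS d f → InS d (c • f)) ∧
  (∀ d d' f, d ≤ d' → InS d f → InS d' f) ∧ ∀ (a : ℕ) (b : ℤ), InS (2 * a + b) (sy a b)

/-- the first three terms of the solution of the Riccati equation -/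
def ph3 (σ : ℝ) : ℝ → ℝ → ℝ := sy 0 1 + σ • ((1 / 2 : ℝ) • sy 0 0 - (1 / 2 : ℝ) • sy 1 (-2)) +
  ((1 / 2 : ℝ) • sy 1 (-3) - (5 / 8 : ℝ) • sy 2 (-5))
def res (σ : ℝ) (φ : ℝ → ℝ → ℝ) (τ s : ℝ) : ℝ :=
  φ τ s ^ 2 - (τ + s - 1 / 4 + σ * (φ τ s - 2 * τ * dt φ τ s))

def St_SYM : Prop := ∀ (J : ℕ) (σ : ℝ), (σ = 1 ∨ σ = -1) →
  ∃ ρ, InS (-2) ρ ∧ InS (-J) (res σ (ph3 σ + ρ))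

def St_RIC : Prop := ∀ (J : ℕ) (σ R δ : ℝ) (φ : ℝ → ℝ → ℝ), (σ = 1 ∨ σ = -1) → 3 / 4 ≤ R → R ≤ 1 →
  0 < δ → δ ≤ 1 / 10 → InS 0 (φ - sy 0 1) → InS (-J) (res σ φ) → ∃ C μ0, ∀ (μ s : ℝ) q g, μ0 ≤ μ →
    0 ≤ s → ContDiff ℝ ∞ q → (∀ x ∈ Icc 0 δ, q x = μ ^ 2 + (s - 1 / 4) / (R - σ * x) ^ 2) →
    Gr q δ g → |g.N0 - φ (μ ^ 2 * R ^ 2) s / R| ≤ C / √(μ ^ 2 + s) ^ J ∧
      |g.M0 δ - R * dt φ (μ ^ 2 * R ^ 2) s| ≤ C / √(μ ^ 2 + s) ^ (J + 2) ∧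
      |g.G0 δ + R ^ 3 * dt (dt φ) (μ ^ 2 * R ^ 2) s / 2| ≤ C / √(μ ^ 2 + s) ^ (J + 4)

def St_BUB : Prop := ∀ (a a' : ℕ) (b b' : ℤ), 2 * a + b + (2 * a' + b') ≤ -2 → ∀ k M : ℕ, ∃ C,
  ∀ ν : ℝ, 1 ≤ ν → (Summable fun l : ℤ => sy a b (ν ^ 2) (l ^ 2) * sy a' b' (ν ^ 2) ((l + k) ^ 2)) ∧
    |∑' l : ℤ, sy a b (ν ^ 2) (l ^ 2) * sy a' b' (ν ^ 2) ((l + k) ^ 2) -
      ∑ m ∈ Finset.range M, √Real.pi * beta m (-b / 2) (-b' / 2) * (k : ℝ) ^ (2 * m) *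
        ν ^ (2 * a + b + (2 * a' + b') + 1 - 2 * m : ℤ)| ≤
      C * ν ^ (2 * a + b + (2 * a' + b') + 1 - 2 * M : ℤ)

/-! ## The perturbed annuli -/

def R1 : ℝ := 99 / 100
def r0 : ℝ := 98 / 100
def dl : ℝ := 1 / 100
/-- a smooth function equal to `(R1 - r)⁻²` for `r ≤ 1/4` -/
def wJ (r : ℝ) : ℝ := ((R1 - r * (1 - stp (1 / 4) (1 / 4) r)) ^ 2)⁻¹
def qv (μ : ℝ) (l : ℤ) (r : ℝ) : ℝ := μ ^ 2 + ((l : ℝ) ^ 2 - 1 / 4) * wJ r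
def GrF (μ : ℝ) (g : ℤ → GD) : Prop := ∀ l, Gr (qv μ l) dl (g l)
def Psi (k : ℕ) (g : ℤ → GD) : ℝ := ∑' l : ℤ, (Es dl (g (l + k)) (g l) + Es dl (g l) (g (l + k)))

def St_QV : Prop := ContDiff ℝ ∞ wJ ∧ (∀ r ≤ 1 / 4, wJ r = ((R1 - r) ^ 2)⁻¹) ∧
  ∀ μ l, 1 ≤ μ → ContDiff ℝ ∞ (qv μ l) ∧ ∀ x ∈ Icc 0 dl,
    √(μ ^ 2 + l ^ 2) ^ 2 / 2 ≤ qv μ l x ∧ qv μ l x ≤ 2 * √(μ ^ 2 + l ^ 2) ^ 2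

/-- the bubble sum of a symbol -/
def Bq (k : ℕ) (φ : ℝ → ℝ → ℝ) (ν : ℝ) : ℝ := ∑' l : ℤ,
  (2 * (dt φ (ν ^ 2) (l ^ 2) * dt φ (ν ^ 2) ((l + k) ^ 2)) +
    φ (ν ^ 2) (l ^ 2) * dt (dt φ) (ν ^ 2) ((l + k) ^ 2) +
    dt (dt φ) (ν ^ 2) (l ^ 2) * φ (ν ^ 2) ((l + k) ^ 2))

def St_PS1 : Prop := ∀ (J k : ℕ) (φ φ' : ℝ → ℝ → ℝ), InS 0 (φ - sy 0 1) → InS (-J) (res 1 φ) →
  InS 0 (φ' - sy 0 1) → InS (-J) (res (-1) φ') → ∃ C μ0, ∀ μ g, μ0 ≤ μ → GrF μ g →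
    |Psi k g - (R1 ^ 2 * Bq k φ (μ * R1) + r0 ^ 2 * Bq k φ' (μ * r0))| ≤ C / μ ^ J

def St_PS2 : Prop := ∀ (σ : ℝ) (ρ : ℝ → ℝ → ℝ) (N : ℕ), (σ = 1 ∨ σ = -1) → InS (-2) ρ →
  ∃ ψ : ℕ → ℕ → ℝ, (∀ k : ℕ, ∃ C, ∀ ν : ℝ, 1 ≤ ν →
    |Bq k (ph3 σ + ρ) ν - ∑ n ∈ Finset.range N, ψ n k / ν ^ n| ≤ C / ν ^ N) ∧
  ∀ m, 2 * m + 5 < N → ∃ C, ∀ k : ℕ, 1 ≤ k → |ψ (2 * m + 5) k - √Real.pi *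
    (cA m * (k : ℝ) ^ (2 * m + 4) + cB m * (k : ℝ) ^ (2 * m + 2))| ≤ C * (k : ℝ) ^ (2 * m + 1)

def St_PSI : Prop := ∀ N : ℕ, ∃ ψ : ℕ → ℕ → ℝ,
  (∀ k : ℕ, ∃ C μ0, ∀ μ g, μ0 ≤ μ → GrF μ g →
    |Psi k g - ∑ n ∈ Finset.range N, ψ n k / μ ^ n| ≤ C / μ ^ N) ∧
  ∀ m, 2 * m + 5 < N → ∃ C, ∀ k : ℕ, 1 ≤ k →
    |ψ (2 * m + 5) k - √Real.pi * ((R1 ^ (2 * m + 3))⁻¹ + (r0 ^ (2 * m + 3))⁻¹) *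
      (cA m * (k : ℝ) ^ (2 * m + 4) + cB m * (k : ℝ) ^ (2 * m + 2))| ≤ C * (k : ℝ) ^ (2 * m + 1)

def rh (k : ℕ) (s : ℝ) : ℝ := 2 * Real.cos (k * s)
def Ann (k : ℕ) (ε : ℝ) : Set ℂ :=
  {z | ‖z‖ - ε * (2 * ((z / ‖z‖) ^ k).re) ∈ Ioo r0 R1}
def we (k : ℕ) (ε : ℝ) (z : ℂ) : ℝ := ((R1 - z.im + ε * rh k z.re) ^ 2)⁻¹
/-- the form of the sheared annulus minus the flat form -/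
def Ae (k : ℕ) (ε μ : ℝ) (z : ℂ) : Mat :=
  !![(-we k ε z / (4 * μ ^ 2) : ℝ), 0, 0;
    0, (we k ε z - 1 : ℝ), (ε * deriv (rh k) z.re * we k ε z : ℝ);
    0, (ε * deriv (rh k) z.re * we k ε z : ℝ), ((ε * deriv (rh k) z.re) ^ 2 * we k ε z : ℝ)]
abbrev nuA : Measure ℂ := nu (2 * Real.pi) dl
def PA (μ : ℝ) : L2 nuA →L[ℂ] L2 nuA := PK (2 * Real.pi) dl μ

def St_CHT : Prop := ∀ k : ℕ, 1 ≤ k → ∃ ε0 > 0, ∀ ε μ : ℝ, |ε| ≤ ε0 → 1 ≤ μ →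
  vol.real (Ann k ε) = vol.real (Ann k 0) ∧ ∃ Z : L2 nuA →L[ℂ] L2 nuA, ‖Z‖ ≤ 2 ∧
    (1 + PA μ * mm nuA (Ae k ε μ) * PA μ) * Z = 1 ∧ Z * (1 + PA μ * mm nuA (Ae k ε μ) * PA μ) = 1 ∧
    hsq (GO μ (Ann k ε)) = hsq (p0 nuA * PA μ * Z * PA μ * p0 nuA)

def f2 (k : ℕ) (μ : ℝ) (g : ℤ → GD) (i : ℤ × ℤ) : ℝ :=
  e2 dl (qv μ (i.1 + k)) (qv μ i.1) (g (i.1 + k)) (g i.1) (ex dl i.2) +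
  e2 dl (qv μ (i.1 - k)) (qv μ i.1) (g (i.1 - k)) (g i.1) (ex dl i.2) -
  2 * (ipc dl ((g i.1).G ((g i.1).G (ex dl i.2)))
    fun x => (deriv (deriv (qv μ i.1)) x : ℝ) * (g i.1).G (ex dl i.2) x).re -
  4 * (k : ℝ) ^ 2 * (ipc dl (deriv ((g i.1).G ((g i.1).G (ex dl i.2))))
    fun x => (wJ x : ℝ) * deriv ((g i.1).G (ex dl i.2)) x).re

def St_SEC : Prop := ∀ k : ℕ, 1 ≤ k → ∃ C, ∃ ε0 > 0, ∀ (μ : ℝ) g, 1 ≤ μ → GrF μ g →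
  ∃ F2, HasSum (f2 k μ g) F2 ∧ ∀ ε : ℝ, |ε| ≤ ε0 →
    |Ft (Ann k ε) μ + Ft (Ann k (-ε)) μ - 2 * Ft (Ann k 0) μ - 2 * ε ^ 2 * μ ^ 4 * F2| ≤
      C * |ε| ^ 3 * μ ^ 4

def St_SUM : Prop := ∀ (k k' : ℕ) (μ F F' : ℝ) g, 1 ≤ μ → GrF μ g → HasSum (f2 k μ g) F →
  HasSum (f2 k' μ g) F' → F - F' = Psi k g - Psi k' g

/-! ## Geometry of the perturbed annuli -/

/-- arc length parametrisation -/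
def St_RP : Prop := ∀ z : ℝ → ℂ, ContDiff ℝ ∞ z → Function.Periodic z (2 * Real.pi) →
  (∀ θ, deriv z θ ≠ 0) → ∃ (γ : ℝ → ℂ) (ℓ : ℝ ≃o ℝ), Cv γ (ℓ (2 * Real.pi)) ∧ ℓ 0 = 0 ∧
    (∀ θ, HasDerivAt ℓ ‖deriv z θ‖ θ) ∧ (∀ θ, ℓ (θ + 2 * Real.pi) = ℓ θ + ℓ (2 * Real.pi)) ∧
    (∀ θ, γ (ℓ θ) = z θ) ∧ (∀ θ, deriv γ (ℓ θ) = deriv z θ / ‖deriv z θ‖) ∧
    (∀ θ, kap γ (ℓ θ) = (deriv (deriv z) θ * conj (deriv z θ)).im / ‖deriv z θ‖ ^ 3) ∧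
    (∀ j θ, iteratedDeriv (j + 1) (kap γ) (ℓ θ) =
      deriv (fun θ => iteratedDeriv j (kap γ) (ℓ θ)) θ / ‖deriv z θ‖) ∧
    ∀ F : ℝ → ℝ, Continuous F →
      ∫ s in (0 : ℝ)..ℓ (2 * Real.pi), F s = ∫ θ in (0 : ℝ)..(2 * Real.pi), F (ℓ θ) * ‖deriv z θ‖

/-- collars of explicit width -/
def St_QF : Prop := ∀ K c : ℝ, 0 < c → ∃ δ0 > 0, ∀ (n : ℕ) Ω (γ : Fin n → ℝ → ℂ) (L : Fin n → ℝ),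
  IsOpen Ω → Bornology.IsBounded Ω → (∀ i, Cv (γ i) (L i)) → (∀ i s, |kap (γ i) s| ≤ K) →
  (∀ i s t, ‖γ i s - γ i t‖ < c → ∃ m : ℤ, |t - s - m * L i| ≤ K * ‖γ i s - γ i t‖) →
  (∀ i j s t, i ≠ j → c ≤ ‖γ i s - γ j t‖) → (∀ z ∈ frontier Ω, ∃ i s, γ i s = z) →
  (∀ i s, γ i s ∉ Ω) → (∀ i, ∃ s : ℝ, ∀ᶠ x : ℝ in 𝓝[>] 0,
    Phi (γ i) (s + x * I) ∈ Ω ∧ Phi (γ i) (s - x * I) ∉ Ω) →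
  ∀ δ, 0 < δ → δ ≤ δ0 → Fam Ω γ L δ

def pv (c : ℝ) (k : ℕ) (ε θ : ℝ) : ℝ := √((c + ε * rh k θ) ^ 2 + (ε * deriv (rh k) θ) ^ 2)
/-- derivatives in arc length of the curvature of the polar graph `c + ε ρ` -/
def pj (c : ℝ) (k : ℕ) (ε : ℝ) : ℕ → ℝ → ℝ
  | 0 => fun θ => ((c + ε * rh k θ) ^ 2 + 2 * (ε * deriv (rh k) θ) ^ 2 -
      (c + ε * rh k θ) * (ε * deriv (deriv (rh k)) θ)) / pv c k ε θ ^ 3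
  | j + 1 => fun θ => deriv (pj c k ε j) θ / pv c k ε θ
def pint (α : List ℕ) (c : ℝ) (k : ℕ) (ε : ℝ) : ℝ :=
  ∫ θ in (0 : ℝ)..(2 * Real.pi), (α.map fun j => pj c k ε j θ).prod * pv c k ε θ

theorem pj.rlz : True := by
  have := @pj.eq_def
  trivial

def St_JET : Prop := ∀ c : ℝ, 0 < c →
  (∀ k N : ℕ, ∃ C, ∃ ε0 > 0, ∀ ε, |ε| ≤ ε0 → ∀ j ≤ N, ∀ θ, |pj c k ε j θ| ≤ C) ∧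
  ∀ α, Nrm α → ∃ Q : ℕ → ℝ,
    (∀ k, ∃ C, ∃ ε0 > 0, ∀ ε, |ε| ≤ ε0 →
      |pint α c k ε + pint α c k (-ε) - 2 * pint α c k 0 - ε ^ 2 * Q k| ≤ C * |ε| ^ 3) ∧
    (nd α = 0 → ∃ C, ∀ k : ℕ, 1 ≤ k → |Q k| ≤ C * (k : ℝ) ^ 4) ∧ (3 ≤ nd α → ∀ k, Q k = 0) ∧
    ∀ r p, 1 ≤ r → α = r :: r :: List.replicate p 0 → ∀ k : ℕ, 1 ≤ k →
      Q k = 8 * Real.pi * ((k : ℝ) ^ 2 - 1) ^ 2 * (k : ℝ) ^ (2 * r) / c ^ (wt α + 1)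

def St_GEO : Prop := ∀ k N : ℕ, 1 ≤ k → ∃ K, ∃ ε0 > 0, ∀ ε, |ε| ≤ ε0 →
  ∃ (γ : Fin 2 → ℝ → ℂ) (L : Fin 2 → ℝ), Dom N K (Ann k ε) γ L ∧
    ∀ α, mI α γ L = pint α R1 k ε + (-1) ^ α.length * pint α r0 k ε

/-- identification of the two leading coefficients -/
def St_COEF : Prop := ∀ m, 2 ≤ m → ∀ N' s c, Expn (6 * m + 40) N' s c →
  let c2 := if [m, m] ∈ s then c [m, m] else 0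
  let c4 := if [m - 1, m - 1, 0, 0] ∈ s then c [m - 1, m - 1, 0, 0] else 0
  c2 ≠ 0 ∧ c4 = c2 * Sc m

end Pool.Agent.Lib.ISO
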