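import Pool.Agent.Lib.ISO.BlueK

/-! Block MAS: the master estimate at the marker frequency. -/

open scoped ComplexConjugate
open Complex

noncomputable section

namespace Pool.Agent.Lib.ISO

namespace MAS

theorem conv {f g : ℤ → ℝ} (hf : Summable f) (hg : Summable g) (f0 : ∀ i, 0 ≤ f i)
    (g0 : ∀ i, 0 ≤ g i) :
    HasSum (fun p : ℤ × ℤ => f p.1 * g (p.2 - p.1)) ((∑' i, f i) * ∑' i, g i) :=
  (Equiv.prodShear (Equiv.refl ℤ) fun i => Equiv.subRight i).hasSum_iff.2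
    (hf.hasSum.mul hg.hasSum (hf.mul_of_nonneg hg f0 g0))

theorem dbl {G u : ℤ → ℝ} (hG : Summable G) (hu : Summable u) (G0 : ∀ i, 0 ≤ G i)
    (u0 : ∀ i, 0 ≤ u i) (hs : ∀ j, u (-j) = u j) :
    HasSum (fun p : ℤ × ℤ => (G p.1 + G p.2) * u (p.2 - p.1))
      (2 * ((∑' i, G i) * ∑' i, u i)) := by
  have h1 := conv hG hu G0 u0
  have h2 : HasSum (fun p : ℤ × ℤ => G p.2 * u (p.1 - p.2)) ((∑' i, G i) * ∑' i, u i) :=
    (Equiv.prodComm ℤ ℤ).hasSum_iff.2 h1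
  have e : (fun p : ℤ × ℤ => (G p.1 + G p.2) * u (p.2 - p.1)) =
      fun p : ℤ × ℤ => G p.1 * u (p.2 - p.1) + G p.2 * u (p.1 - p.2) := funext fun p => by
    rw [add_mul, ← hs (p.1 - p.2), neg_sub]
  rw [e, two_mul]; exact h1.add h2

def aa (z : ℤ → ℂ) (j : ℤ) : ℝ := (1 + |(j : ℝ)|) * ‖z j‖

theorem aa0 (z : ℤ → ℂ) (j : ℤ) : 0 ≤ aa z j := by unfold aa; positivity

theorem le_aa (z : ℤ → ℂ) (j : ℤ) : ‖z j‖ ≤ aa z j :=
  le_mul_of_one_le_left (norm_nonneg _) (by linarith [abs_nonneg (j : ℝ)])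

variable {z : ℤ → ℂ} {B : ℝ}

theorem aa_sum (h : Sq z) : Summable (aa z) :=
  ((h.dec 0).add (h.dec 1)).congr fun j => by simp [aa, add_mul]

theorem B0 (hB : An z ≤ B) : 0 ≤ B := (tsum_nonneg (aa0 z)).trans hB

theorem le_B (h : Sq z) (hB : An z ≤ B) (j : ℤ) : ‖z j‖ ≤ B :=
  (le_aa z j).trans (((aa_sum h).le_tsum j fun i _ => aa0 z i).trans hB)

theorem pw_sum (h : Sq z) (r : ℕ) : Summable fun j : ℤ => (j : ℝ) ^ (2 * r) * ‖z j‖ ^ 2 := by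
  refine ((h.dec (2 * r)).mul_right (An z)).of_nonneg_of_le
    (fun j => by rw [pow_mul]; positivity) fun j => ?_
  rw [pow_mul |(j : ℝ)|, sq_abs, ← pow_mul, sq ‖z j‖, mul_assoc]
  refine mul_le_mul_of_nonneg_left ?_ (by rw [pow_mul]; positivity)
  exact mul_le_mul_of_nonneg_left (le_B h le_rfl j) (norm_nonneg _)

theorem sq_sum (h : Sq z) : Summable fun j : ℤ => ‖z j‖ ^ 2 := by simpa using pw_sum h 0

theorem sq_le (h : Sq z) (hB : An z ≤ B) : ∑' j : ℤ, ‖z j‖ ^ 2 ≤ B ^ 2 := by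
  have h1 : ∑' j : ℤ, ‖z j‖ ^ 2 ≤ ∑' j : ℤ, aa z j * B :=
    (sq_sum h).tsum_le_tsum (fun j => by
      rw [sq]; exact mul_le_mul (le_aa z j) (le_B h hB j) (norm_nonneg _) (aa0 z j))
      ((aa_sum h).mul_right B)
  rw [tsum_mul_right] at h1
  exact h1.trans (by rw [sq]; exact mul_le_mul_of_nonneg_right hB (B0 hB))

theorem cv_neg (h : Sq z) (j : ℤ) : cv z z (-j) = conj (cv z z j) := by
  unfold cv
  rw [conj_tsum, ← (Equiv.neg ℤ).tsum_eq]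
  refine tsum_congr fun i => ?_
  rw [map_mul, ← h.cj, ← h.cj, Equiv.neg_apply]
  congr 2; ring

theorem uw_neg (h : Sq z) (j : ℤ) : aa (cv z z) (-j) = aa (cv z z) j := by
  simp [aa, cv_neg h]

theorem uw_sum (h : Sq z) (hB : An z ≤ B) :
    Summable (aa (cv z z)) ∧ ∑' j, aa (cv z z) j ≤ B ^ 2 := by
  have h1 : HasSum (fun p : ℤ × ℤ => aa z p.2 * aa z (p.1 - p.2)) (An z * An z) :=
    (Equiv.prodComm ℤ ℤ).hasSum_iff.2 (conv (aa_sum h) (aa_sum h) (aa0 z) (aa0 z))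
  have h2 := h1.prod_fiberwise fun j => (h1.summable.prod_factor j).hasSum
  have h3 : ∀ j, aa (cv z z) j ≤ ∑' i, aa z i * aa z (j - i) := fun j => by
    have hj : 0 < 1 + |(j : ℝ)| := by positivity
    rw [aa, ← le_div_iff₀' hj]
    refine tsum_of_norm_bounded ((h1.summable.prod_factor j).hasSum.div_const _) fun i => ?_
    rw [le_div_iff₀' hj, norm_mul]
    have a1 : |(j : ℝ)| ≤ |(i : ℝ)| + |((j - i : ℤ) : ℝ)| := by
      have := abs_add_le (i : ℝ) ((j - i : ℤ) : ℝ)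
      rwa [show (i : ℝ) + ((j - i : ℤ) : ℝ) = j by push_cast; ring] at this
    have a2 : 1 + |(j : ℝ)| ≤ (1 + |(i : ℝ)|) * (1 + |((j - i : ℤ) : ℝ)|) := by
      nlinarith [abs_nonneg (i : ℝ), abs_nonneg ((j - i : ℤ) : ℝ)]
    calc _ ≤ (1 + |(i : ℝ)|) * (1 + |((j - i : ℤ) : ℝ)|) * (‖z i‖ * ‖z (j - i)‖) := by gcongr
      _ = _ := by unfold aa; ring
  have h4 := h2.summable.of_nonneg_of_le (aa0 _) h3
  refine ⟨h4, (hasSum_le h3 h4.hasSum h2).trans ?_⟩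
  have := B0 (le_refl (An z))
  rw [sq]; exact mul_le_mul hB hB this (B0 hB)

/-- terms of `Nr` and `Jk` -/
def nr (W : ℕ) (z : ℤ → ℂ) (ξ : ℤ) : ℝ :=
  if 2 * |(|ξ| - (W : ℤ) ^ 2)| ≤ (W : ℤ) ^ 2 then (1 + (|(ξ : ℝ)| - (W : ℝ) ^ 2) ^ 2) * ‖z ξ‖ ^ 2
  else 0
def jk (m W : ℕ) (z : ℤ → ℂ) (ξ : ℤ) : ℝ :=
  if (W : ℤ) < |ξ| ∧ (W : ℤ) ^ 2 < 2 * |(|ξ| - (W : ℤ) ^ 2)| then
    (yy W ξ ^ m + yy W ξ ^ (m + 4)) * ‖z ξ‖ ^ 2 else 0

theorem yy0 (W : ℕ) (ξ : ℤ) : 0 ≤ yy W ξ := by unfold yy; positivity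

theorem nr0 (W : ℕ) (z : ℤ → ℂ) (ξ : ℤ) : 0 ≤ nr W z ξ := by
  unfold nr; split_ifs <;> positivity

theorem jk0 (m W : ℕ) (z : ℤ → ℂ) (ξ : ℤ) : 0 ≤ jk m W z ξ := by
  have := yy0 W ξ
  unfold jk; split_ifs <;> positivity

theorem yy_pow (W e : ℕ) (ξ : ℤ) : yy W ξ ^ e = (ξ : ℝ) ^ (2 * e) / (W : ℝ) ^ (4 * e) := by
  rw [yy, div_pow, ← pow_mul, ← pow_mul]

theorem yy_sum (h : Sq z) (W e : ℕ) :
    HasSum (fun ξ => yy W ξ ^ e * ‖z ξ‖ ^ 2) (Hs e z / (W : ℝ) ^ (4 * e)) := by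
  have e1 : (fun ξ => yy W ξ ^ e * ‖z ξ‖ ^ 2) =
      fun ξ : ℤ => (ξ : ℝ) ^ (2 * e) * ‖z ξ‖ ^ 2 / (W : ℝ) ^ (4 * e) :=
    funext fun ξ => by rw [yy_pow]; ring
  rw [e1]; exact (pw_sum h e).hasSum.div_const _

theorem nr_sum (h : Sq z) (W : ℕ) : Summable (nr W z) := by
  refine ((sq_sum h).mul_left (1 + ((W : ℝ) ^ 2) ^ 2)).of_nonneg_of_le (nr0 W z) fun ξ => ?_
  unfold nr; split_ifs with h1
  · have h2 : 2 * |(|(ξ : ℝ)| - (W : ℝ) ^ 2)| ≤ (W : ℝ) ^ 2 := by exact_mod_cast h1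
    have h3 : (|(ξ : ℝ)| - (W : ℝ) ^ 2) ^ 2 ≤ ((W : ℝ) ^ 2) ^ 2 := by
      rw [← sq_abs (_ - _)]
      exact pow_le_pow_left₀ (abs_nonneg _) (by linarith [abs_nonneg (|(ξ : ℝ)| - (W : ℝ) ^ 2)]) 2
    gcongr
  · positivity

theorem jk_sum (h : Sq z) (m W : ℕ) : Summable (jk m W z) := by
  refine ((yy_sum h W m).summable.add (yy_sum h W (m + 4)).summable).of_nonneg_of_le
    (jk0 m W z) fun ξ => ?_
  have := yy0 W ξ
  unfold jk; split_ifs with h1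
  · rw [add_mul]
  · positivity

theorem sumb (h : Sq z) (hB : An z ≤ B) (m W : ℕ) {f : ℤ → ℝ} {a b c : ℝ} (hc : 0 ≤ c)
    (f0 : ∀ ξ, 0 ≤ f ξ) (hf : ∀ ξ, f ξ ≤ a * nr W z ξ + b * jk m W z ξ + c * ‖z ξ‖ ^ 2) :
    Summable f ∧ ∑' ξ, f ξ ≤ a * Nr W z + b * Jk m W z + c * B ^ 2 := by
  have h1 := (((nr_sum h W).hasSum.mul_left a).add ((jk_sum h m W).hasSum.mul_left b)).add
    ((sq_sum h).hasSum.mul_left c)
  have h2 := h1.summable.of_nonneg_of_le f0 hf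
  refine ⟨h2, (hasSum_le hf h2.hasSum h1).trans ?_⟩
  exact add_le_add le_rfl (mul_le_mul_of_nonneg_left (sq_le h hB) hc)

theorem Nr0 (W : ℕ) (z : ℤ → ℂ) : 0 ≤ Nr W z := tsum_nonneg (nr0 W z)
theorem Jk0 (m W : ℕ) (z : ℤ → ℂ) : 0 ≤ Jk m W z := tsum_nonneg (jk0 m W z)

theorem low {W : ℕ} (hW : 4 ≤ W) {ξ : ℤ} (h : |ξ| ≤ W) (r : ℕ) :
    yy W ξ ^ r ≤ ((W : ℝ) ^ (2 * r))⁻¹ := by
  have hW0 : (0 : ℝ) < W := by exact_mod_cast (by omega : 0 < W)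
  have h1 : |(ξ : ℝ)| ≤ W := by exact_mod_cast h
  have h2 : yy W ξ ≤ ((W : ℝ) ^ 2)⁻¹ := by
    rw [yy, div_le_iff₀ (by positivity), ← sq_abs]
    calc |(ξ : ℝ)| ^ 2 ≤ (W : ℝ) ^ 2 := by gcongr
      _ = _ := by field_simp
  rw [pow_mul, ← inv_pow]
  exact pow_le_pow_left₀ (yy0 W ξ) h2 r

theorem tri {W : ℕ} (hW : 4 ≤ W) (z : ℤ → ℂ) {m r k : ℕ} (h1 : m ≤ r + k) (h2 : r + k ≤ m + 4)
    (ξ : ℤ) :
    (nr W z ξ = (1 + (|(ξ : ℝ)| - (W : ℝ) ^ 2) ^ 2) * ‖z ξ‖ ^ 2 ∧ yy W ξ ^ r ≤ 3 ^ (m + 4)) ∨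
      yy W ξ ^ r * ‖z ξ‖ ^ 2 ≤
        (W : ℝ) ^ (2 * k) * jk m W z ξ + ((W : ℝ) ^ (2 * r))⁻¹ * ‖z ξ‖ ^ 2 := by
  have hW0 : (0 : ℝ) < W := by exact_mod_cast (by omega : 0 < W)
  have y0 := yy0 W ξ
  by_cases hn : 2 * |(|ξ| - (W : ℤ) ^ 2)| ≤ (W : ℤ) ^ 2
  · refine Or.inl ⟨if_pos hn, ?_⟩
    have h3 : 2 * |(|(ξ : ℝ)| - (W : ℝ) ^ 2)| ≤ (W : ℝ) ^ 2 := by exact_mod_cast hn
    have h4 : |(ξ : ℝ)| ≤ 3 / 2 * (W : ℝ) ^ 2 := by
      linarith [le_abs_self (|(ξ : ℝ)| - (W : ℝ) ^ 2)]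
    have h5 : yy W ξ ≤ 3 := by
      rw [yy, div_le_iff₀ (by positivity), ← sq_abs]
      calc |(ξ : ℝ)| ^ 2 ≤ (3 / 2 * (W : ℝ) ^ 2) ^ 2 := by gcongr
        _ ≤ _ := by nlinarith [pow_pos hW0 4]
    exact (pow_le_pow_left₀ y0 h5 r).trans (pow_le_pow_right₀ (by norm_num) (by omega))
  right
  have j0 := jk0 m W z ξ
  rcases le_or_gt |ξ| W with hl | hl
  · exact le_add_of_nonneg_of_le (by positivity)
      (mul_le_mul_of_nonneg_right (low hW hl r) (by positivity))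
  refine le_add_of_le_of_nonneg ?_ (by positivity)
  rw [jk, if_pos ⟨hl, not_le.1 hn⟩, ← mul_assoc]
  refine mul_le_mul_of_nonneg_right ?_ (by positivity)
  have h3 : (W : ℝ) ≤ |(ξ : ℝ)| := by exact_mod_cast hl.le
  have h4 : 1 ≤ (W : ℝ) ^ 2 * yy W ξ := by
    rw [yy, ← mul_div_assoc, le_div_iff₀ (by positivity), ← sq_abs (ξ : ℝ)]
    calc 1 * (W : ℝ) ^ 4 = W ^ 2 * W ^ 2 := by ring
      _ ≤ _ := by gcongr
  have h5 : yy W ξ ^ (r + k) ≤ yy W ξ ^ m + yy W ξ ^ (m + 4) := by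
    rcases le_total (yy W ξ) 1 with a | a
    · exact le_add_of_le_of_nonneg (pow_le_pow_of_le_one y0 a h1) (by positivity)
    · exact le_add_of_nonneg_of_le (by positivity) (pow_le_pow_right₀ a h2)
  calc yy W ξ ^ r ≤ ((W : ℝ) ^ 2 * yy W ξ) ^ k * yy W ξ ^ r :=
        le_mul_of_one_le_left (by positivity) (one_le_pow₀ h4)
    _ = (W : ℝ) ^ (2 * k) * yy W ξ ^ (r + k) := by ring
    _ ≤ _ := by gcongr

theorem Hs_le (h : Sq z) (hB : An z ≤ B) {W : ℕ} (hW : 4 ≤ W) {m r k : ℕ} (h1 : m ≤ r + k)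
    (h2 : r + k ≤ m + 4) : (Hs r z + Hs 0 z) / (W : ℝ) ^ (4 * r) ≤
      3 ^ (m + 4) * Nr W z + (W : ℝ) ^ (2 * k) * Jk m W z + 2 * ((W : ℝ) ^ (2 * r))⁻¹ * B ^ 2 := by
  have hW1 : (1 : ℝ) ≤ W := by exact_mod_cast (by omega : 1 ≤ W)
  have a1 := (sumb h hB m W (f := fun ξ => yy W ξ ^ r * ‖z ξ‖ ^ 2) (a := 3 ^ (m + 4))
    (b := (W : ℝ) ^ (2 * k)) (c := ((W : ℝ) ^ (2 * r))⁻¹) (by positivity)
    (fun ξ => mul_nonneg (pow_nonneg (yy0 W ξ) r) (by positivity)) fun ξ => by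
      have n0 := nr0 W z ξ
      have j0 := jk0 m W z ξ
      rcases tri hW z h1 h2 ξ with ⟨a, b⟩ | a
      · refine le_add_of_le_of_nonneg (le_add_of_le_of_nonneg ?_ (by positivity)) (by positivity)
        rw [a]
        exact mul_le_mul b (le_mul_of_one_le_left (by positivity) (by
          linarith [sq_nonneg (|(ξ : ℝ)| - (W : ℝ) ^ 2)])) (by positivity) (by positivity)
      · rw [add_assoc]; exact le_add_of_nonneg_of_le (by positivity) a).2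
  rw [(yy_sum h W r).tsum_eq] at a1
  have a2 : Hs 0 z ≤ B ^ 2 := by simpa [Hs] using sq_le h hB
  have a3 : Hs 0 z / (W : ℝ) ^ (4 * r) ≤ ((W : ℝ) ^ (2 * r))⁻¹ * B ^ 2 := by
    rw [div_eq_inv_mul]
    refine mul_le_mul (inv_anti₀ (by positivity) (pow_le_pow_right₀ hW1 (by omega))) a2 ?_
      (by positivity)
    exact tsum_nonneg fun j => by rw [pow_mul]; positivity
  rw [add_div]; linarith

theorem part1 (h : Sq z) (hB : An z ≤ B) {W : ℕ} (hW : 4 ≤ W) (e : ℕ) :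
    |Hs e z / (W : ℝ) ^ (4 * e) - Hi e W z| ≤ ((W : ℝ) ^ (2 * e))⁻¹ * B ^ 2 := by
  have h1 := yy_sum h W e
  have y0 : ∀ ξ, 0 ≤ yy W ξ ^ e * ‖z ξ‖ ^ 2 := fun ξ =>
    mul_nonneg (pow_nonneg (yy0 W ξ) e) (by positivity)
  have h2 : Summable fun ξ : ℤ => if (W : ℤ) < |ξ| then yy W ξ ^ e * ‖z ξ‖ ^ 2 else 0 :=
    h1.summable.of_nonneg_of_le (fun ξ => by split_ifs; exacts [y0 ξ, le_rfl])
      fun ξ => by split_ifs; exacts [le_rfl, y0 ξ]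
  rw [← h1.tsum_eq, Hi, ← h1.summable.tsum_sub h2, ← Real.norm_eq_abs]
  refine (tsum_of_norm_bounded ((sq_sum h).hasSum.mul_left ((W : ℝ) ^ (2 * e))⁻¹)
    fun ξ => ?_).trans (mul_le_mul_of_nonneg_left (sq_le h hB) (by positivity))
  split_ifs with a
  · rw [sub_self, norm_zero]; positivity
  · rw [sub_zero, Real.norm_eq_abs, abs_of_nonneg (y0 ξ)]
    exact mul_le_mul_of_nonneg_right (low hW (not_lt.1 a) e) (by positivity)

theorem part3 (h : Sq z) (hB : An z ≤ B) {W : ℕ} (hW : 4 ≤ W) {m s : ℕ} (h1 : m ≤ s + 2)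
    (h2 : s + 2 ≤ m + 4) :
    Tm (s + 1) z / (W : ℝ) ^ (4 * (s + 2)) ≤ (3 ^ (m + 4) + 2 * B ^ 2) * er m W z := by
  have hW1 : (1 : ℝ) ≤ W := by exact_mod_cast (by omega : 1 ≤ W)
  have n0 := Nr0 W z
  have j0 := Jk0 m W z
  have a1 := Hs_le h hB hW (m := m) (r := s + 1) (k := 1) (by omega) (by omega)
  have a2 := Hs_le h hB hW (m := m) (r := s) (k := 2) (by omega) (by omega)
  set X : ℝ := 3 ^ (m + 4) * Nr W z + (W : ℝ) ^ (2 * 1) * Jk m W z +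
    2 * ((W : ℝ) ^ (2 * (s + 1)))⁻¹ * B ^ 2 with hX
  have X0 : 0 ≤ X := by positivity
  have a3 : (Hs s z + Hs 0 z) / (W : ℝ) ^ (4 * s) ≤ W ^ 2 * X := by
    refine a2.trans ?_
    have : 3 ^ (m + 4) * Nr W z ≤ (W : ℝ) ^ 2 * (3 ^ (m + 4) * Nr W z) :=
      le_mul_of_one_le_left (by positivity) (one_le_pow₀ hW1)
    have e : (W : ℝ) ^ 2 * X = (W : ℝ) ^ 2 * (3 ^ (m + 4) * Nr W z) +
        (W : ℝ) ^ (2 * 2) * Jk m W z + 2 * ((W : ℝ) ^ (2 * s))⁻¹ * B ^ 2 := by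
      rw [hX]; field_simp; ring
    rw [e]; linarith
  rw [div_le_iff₀ (by positivity)] at a1 a3
  have hs0 : ∀ r, 0 ≤ Hs r z := fun r => tsum_nonneg fun j => by rw [pow_mul]; positivity
  have a4 : Tm (s + 1) z ≤ X * (W : ℝ) ^ (4 * s + 3) := by
    rw [Tm, Nat.add_sub_cancel]
    refine Real.sqrt_le_iff.2 ⟨by positivity, ?_⟩
    calc _ ≤ X * (W : ℝ) ^ (4 * (s + 1)) * (W ^ 2 * X * (W : ℝ) ^ (4 * s)) :=
          mul_le_mul a1 a3 (add_nonneg (hs0 _) (hs0 _)) (by positivity)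
      _ = _ := by ring
  have a5 : Tm (s + 1) z / (W : ℝ) ^ (4 * (s + 2)) ≤ X / (W : ℝ) ^ 5 := by
    rw [div_le_div_iff₀ (by positivity) (by positivity)]
    calc _ ≤ X * (W : ℝ) ^ (4 * s + 3) * W ^ 5 := by gcongr
      _ = _ := by ring
  refine a5.trans ?_
  have t1 : (1 : ℝ) ≤ 3 ^ (m + 4) := one_le_pow₀ (by norm_num)
  have b1 : (W : ℝ) ^ (2 * 1) * Jk m W z / W ^ 5 ≤ 3 ^ (m + 4) * ((W : ℝ)⁻¹ * Jk m W z) := by
    calc _ = ((W : ℝ) ^ 2)⁻¹ * ((W : ℝ)⁻¹ * Jk m W z) := by field_simp; ring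
      _ ≤ _ := mul_le_mul_of_nonneg_right
        ((inv_le_one_of_one_le₀ (one_le_pow₀ hW1)).trans t1) (by positivity)
  have b2 : ((W : ℝ) ^ (2 * (s + 1)))⁻¹ / W ^ 5 ≤ ((W : ℝ) ^ (2 * m))⁻¹ := by
    rw [div_eq_mul_inv, ← mul_inv, ← pow_add]
    exact inv_anti₀ (by positivity) (pow_le_pow_right₀ hW1 (by omega))
  have e : X / (W : ℝ) ^ 5 = 3 ^ (m + 4) * ((W : ℝ)⁻¹ * (Nr W z / W ^ 4)) +
      (W : ℝ) ^ (2 * 1) * Jk m W z / W ^ 5 +
        2 * B ^ 2 * (((W : ℝ) ^ (2 * (s + 1)))⁻¹ / W ^ 5) := by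
    rw [hX]; field_simp
  have b3 := mul_le_mul_of_nonneg_left b2 (by positivity : 0 ≤ 2 * B ^ 2)
  have p1 : 0 ≤ 3 ^ (m + 4) * ((W : ℝ) ^ (2 * m))⁻¹ := by positivity
  have p2 : 0 ≤ 2 * B ^ 2 * ((W : ℝ)⁻¹ * (Nr W z / W ^ 4 + Jk m W z)) := by positivity
  rw [e, er]
  nlinarith

/-- the normalised sequence, the two windows and the modulus on the windows -/
def bb (r W : ℕ) (z : ℤ → ℂ) (p : ℤ) : ℂ := (((p : ℝ) / (W : ℝ) ^ 2) ^ r : ℝ) * z p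
def cp (W : ℕ) (z : ℤ → ℂ) (p : ℤ) : ℂ := if |p - (W : ℤ) ^ 2| ≤ W then z p else 0
def cm (r W : ℕ) (z : ℤ → ℂ) (p : ℤ) : ℂ := (-1) ^ r * conj (cp W z (-p))
def nn (W : ℕ) (z : ℤ → ℂ) (p : ℤ) : ℝ := if |(|p| - (W : ℤ) ^ 2)| ≤ W then ‖z p‖ else 0
def fm (a v : ℤ → ℂ) (p : ℤ × ℤ) : ℂ := a p.1 * conj (a p.2) * v (p.2 - p.1)

theorem nn0 (W : ℕ) (z : ℤ → ℂ) (p : ℤ) : 0 ≤ nn W z p := by
  unfold nn; split_ifs <;> positivity

theorem om4 {W : ℕ} (hW : 4 ≤ W) : 4 * (W : ℤ) ≤ (W : ℤ) ^ 2 := by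
  have : (4 : ℤ) ≤ W := by exact_mod_cast hW
  nlinarith

theorem cp_le {W : ℕ} (hW : 4 ≤ W) (z : ℤ → ℂ) (p : ℤ) : ‖cp W z p‖ ≤ nn W z p := by
  have := om4 hW
  unfold cp; split_ifs with a
  · rw [nn, if_pos]
    rwa [abs_of_nonneg (a := p) (by have := abs_le.1 a; omega)]
  · rw [norm_zero]; exact nn0 W z p

theorem cm_le (h : Sq z) {W : ℕ} (hW : 4 ≤ W) (r : ℕ) (p : ℤ) : ‖cm r W z p‖ ≤ nn W z p := by
  have := cp_le hW z (-p)
  rw [nn, abs_neg, h.cj, norm_conj] at this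
  rw [cm, norm_mul, norm_pow, norm_neg, norm_one, one_pow, one_mul, norm_conj]
  exact this

theorem fm_sum (h : Sq z) {a : ℤ → ℂ} (ha : Summable fun p => ‖a p‖ ^ 2) :
    Summable (fm a (cv z z)) := by
  refine (dbl ha (uw_sum h le_rfl).1 (fun _ => by positivity) (aa0 _)
    (uw_neg h)).summable.of_norm_bounded fun p => ?_
  rw [fm, norm_mul, norm_mul, norm_conj]
  refine mul_le_mul ?_ (le_aa _ _) (norm_nonneg _) (by positivity)
  nlinarith [norm_nonneg (a p.1), norm_nonneg (a p.2), sq_nonneg (‖a p.1‖ - ‖a p.2‖)]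

theorem bb_sq (r W : ℕ) (z : ℤ → ℂ) (p : ℤ) : ‖bb r W z p‖ ^ 2 = yy W p ^ r * ‖z p‖ ^ 2 := by
  rw [bb, norm_mul, norm_real, Real.norm_eq_abs, mul_pow, sq_abs, yy, ← pow_mul, mul_comm r 2,
    pow_mul, div_pow, ← pow_mul]

theorem nn_sum (h : Sq z) (W : ℕ) : Summable fun p => nn W z p ^ 2 :=
  (sq_sum h).of_nonneg_of_le (fun _ => by positivity) fun p => by
    unfold nn; split_ifs
    · exact le_rfl
    · rw [zero_pow two_ne_zero]; positivity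

theorem cp_form (z v : ℤ → ℂ) (W : ℕ) :
    (∑' p, fm (cp W z) v p).re = qf v (sh z W 1) W := by
  rw [← (Equiv.addLeft (((W : ℤ) ^ 2, (W : ℤ) ^ 2) : ℤ × ℤ)).tsum_eq,
    tsum_eq_sum (s := win W ×ˢ win W), Finset.sum_product, qf]
  · congr 1
    refine Finset.sum_congr rfl fun t ht => Finset.sum_congr rfl fun t' ht' => ?_
    have a := abs_le.2 (Finset.mem_Icc.1 ht)
    have b := abs_le.2 (Finset.mem_Icc.1 ht')
    simp [fm, cp, sh, a, b]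
  · rintro ⟨t, t'⟩ hp
    rw [Finset.mem_product, not_and_or] at hp
    rcases hp with a | a
    · have b : ¬ |t| ≤ W := fun c => a (Finset.mem_Icc.2 (abs_le.1 c))
      simp [fm, cp, b]
    · have b : ¬ |t'| ≤ W := fun c => a (Finset.mem_Icc.2 (abs_le.1 c))
      simp [fm, cp, b]

theorem cm_form (h : Sq z) (r W : ℕ) :
    ∑' p, fm (cm r W z) (cv z z) p = conj (∑' p, fm (cp W z) (cv z z) p) := by
  rw [conj_tsum, ← (Equiv.neg (ℤ × ℤ)).tsum_eq]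
  refine tsum_congr fun p => ?_
  have e : (-p.2 - -p.1 : ℤ) = -(p.2 - p.1) := by ring
  have e2 : ((-1 : ℂ) ^ r) * (-1) ^ r = 1 := by rw [← mul_pow]; simp
  simp only [fm, cm, Equiv.neg_apply, Prod.fst_neg, Prod.snd_neg, neg_neg, e, cv_neg h, map_mul,
    map_pow, map_neg, map_one, conj_conj]
  linear_combination (conj (cp W z p.1) * cp W z p.2 * conj (cv z z (p.2 - p.1))) * e2

theorem Qs_form (z : ℤ → ℂ) {W : ℕ} (hW : 4 ≤ W) (r : ℕ) :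
    Qs r z / (W : ℝ) ^ (4 * r) = (∑' p, fm (bb r W z) (cv z z) p).re := by
  have hW0 : (W : ℂ) ≠ 0 := by exact_mod_cast (by omega : W ≠ 0)
  rw [Qs, ← div_ofReal_re, ← tsum_div_const]
  congr 1
  refine tsum_congr fun p => ?_
  simp only [fm, bb, map_mul, conj_ofReal, map_pow, map_intCast]
  push_cast
  rw [div_pow, div_pow]
  field_simp
  ring

theorem cross {W : ℕ} (hW : 4 ≤ W) (h : Sq z) (r : ℕ) (v : ℤ → ℂ) (p q j : ℤ)
    (hj : |j| = |q - p|) :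
    ‖cp W z p‖ * ‖cm r W z q‖ * ‖v j‖ ≤ nn W z p * nn W z q * (aa v j / W) := by
  have hW0 : (0 : ℝ) < W := by exact_mod_cast (by omega : 0 < W)
  have a0 := aa0 v j
  have n1 := nn0 W z p
  have n2 := nn0 W z q
  by_cases a : |p - (W : ℤ) ^ 2| ≤ W
  · by_cases b : |-q - (W : ℤ) ^ 2| ≤ W
    · refine mul_le_mul (mul_le_mul (cp_le hW z p) (cm_le h hW r q) (norm_nonneg _) n1) ?_
        (norm_nonneg _) (by positivity)
      have c : (W : ℤ) ≤ |j| := by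
        have := om4 hW
        have := abs_le.1 a
        have := abs_le.1 b
        rw [hj, le_abs]; omega
      have d : (W : ℝ) ≤ |(j : ℝ)| := by exact_mod_cast c
      rw [le_div_iff₀ hW0, aa, mul_comm]
      exact mul_le_mul_of_nonneg_right (by linarith) (norm_nonneg _)
    · rw [cm, cp, cp, if_neg b, map_zero, mul_zero, norm_zero, mul_zero, zero_mul]; positivity
  · rw [cp, if_neg a, norm_zero, zero_mul, zero_mul]; positivity

/-- the error sequence and the weight -/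
def ee (r W : ℕ) (z : ℤ → ℂ) (p : ℤ) : ℂ := bb r W z p - cp W z p - cm r W z p
def GG (r W : ℕ) (z : ℤ → ℂ) (p : ℤ) : ℝ := W * ‖ee r W z p‖ ^ 2 + 5 * nn W z p ^ 2 / W

theorem point {W : ℕ} (hW : 4 ≤ W) (h : Sq z) (r : ℕ) (v : ℤ → ℂ) (p : ℤ × ℤ) :
    ‖fm (bb r W z) v p - fm (cp W z) v p - fm (cm r W z) v p‖ ≤
      (GG r W z p.1 + GG r W z p.2) * aa v (p.2 - p.1) := by
  have hW1 : (1 : ℝ) ≤ W := by exact_mod_cast (by omega : 1 ≤ W)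
  have c1 := cross hW h r v p.1 p.2 (p.2 - p.1) rfl
  have c2 := cross hW h r v p.2 p.1 (p.2 - p.1) (abs_sub_comm _ _)
  have d : ∀ x, ‖cp W z x + cm r W z x‖ ≤ 2 * nn W z x := fun x =>
    (norm_add_le _ _).trans (by linarith [cp_le hW z x, cm_le h hW r x])
  have e : fm (bb r W z) v p - fm (cp W z) v p - fm (cm r W z) v p =
      (ee r W z p.1 * conj (ee r W z p.2) + ee r W z p.1 * conj (cp W z p.2 + cm r W z p.2) +
        (cp W z p.1 + cm r W z p.1) * conj (ee r W z p.2)) * v (p.2 - p.1) +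
      cp W z p.1 * conj (cm r W z p.2) * v (p.2 - p.1) +
      cm r W z p.1 * conj (cp W z p.2) * v (p.2 - p.1) := by
    simp only [fm, ee, map_sub, map_add]; ring
  have n1 := nn0 W z p.1
  have n2 := nn0 W z p.2
  have a0 := aa0 v (p.2 - p.1)
  set E1 := ‖ee r W z p.1‖ with hE1
  set E2 := ‖ee r W z p.2‖ with hE2
  have f1 : ‖ee r W z p.1 * conj (ee r W z p.2) +
      ee r W z p.1 * conj (cp W z p.2 + cm r W z p.2) +
        (cp W z p.1 + cm r W z p.1) * conj (ee r W z p.2)‖ ≤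
      E1 * E2 + E1 * (2 * nn W z p.2) + 2 * nn W z p.1 * E2 := by
    refine norm_add₃_le.trans ?_
    simp only [norm_mul, norm_conj]
    gcongr
    exacts [d _, d _]
  have am : ∀ E n : ℝ, E * (2 * n) ≤ W / 2 * E ^ 2 + 2 * n ^ 2 / W := fun E n => by
    have : W / 2 * E ^ 2 + 2 * n ^ 2 / W - E * (2 * n) = (W * E - 2 * n) ^ 2 / (2 * W) := by
      field_simp; ring
    have h2 : 0 ≤ (W * E - 2 * n) ^ 2 / (2 * W) := by positivity
    linarith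
  have f2 : E1 * E2 + E1 * (2 * nn W z p.2) + 2 * nn W z p.1 * E2 +
      2 * (nn W z p.1 * nn W z p.2 / W) ≤ GG r W z p.1 + GG r W z p.2 := by
    have g1 := am E1 (nn W z p.2)
    have g2 := am E2 (nn W z p.1)
    have g3 : E1 * E2 ≤ W / 2 * E1 ^ 2 + W / 2 * E2 ^ 2 := by
      nlinarith [sq_nonneg (E1 - E2), sq_nonneg E1, sq_nonneg E2]
    have g4 : 2 * (nn W z p.1 * nn W z p.2 / W) ≤
        3 * nn W z p.1 ^ 2 / W + 3 * nn W z p.2 ^ 2 / W := by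
      rw [← add_div, ← mul_div_assoc]
      gcongr
      nlinarith [sq_nonneg (nn W z p.1 - nn W z p.2), sq_nonneg (nn W z p.1),
        sq_nonneg (nn W z p.2)]
    have g5 : GG r W z p.1 + GG r W z p.2 = W / 2 * E1 ^ 2 + W / 2 * E2 ^ 2 +
        (W / 2 * E1 ^ 2 + 2 * nn W z p.2 ^ 2 / W) + (W / 2 * E2 ^ 2 + 2 * nn W z p.1 ^ 2 / W) +
        (3 * nn W z p.1 ^ 2 / W + 3 * nn W z p.2 ^ 2 / W) := by
      simp only [GG, hE1, hE2]; ring
    rw [g5]; linarith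
  rw [e]
  refine norm_add₃_le.trans (le_trans ?_ (mul_le_mul_of_nonneg_right f2 a0))
  have f3 := mul_le_mul f1 (le_aa v (p.2 - p.1)) (norm_nonneg _) ((norm_nonneg _).trans f1)
  rw [norm_mul, norm_mul, norm_mul, norm_mul, norm_mul, norm_conj, norm_conj,
    mul_comm ‖cm r W z p.1‖]
  have f4 : nn W z p.1 * nn W z p.2 * (aa v (p.2 - p.1) / W) +
      nn W z p.2 * nn W z p.1 * (aa v (p.2 - p.1) / W) =
      2 * (nn W z p.1 * nn W z p.2 / W) * aa v (p.2 - p.1) := by ring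
  linarith

theorem win_err {W : ℕ} (hW : 4 ≤ W) {m r : ℕ} (hr : r ≤ m + 4) {x σ : ℝ} (hσ : |σ| = 1)
    (hx : |x - σ * (W : ℝ) ^ 2| ≤ W) :
    |(x / (W : ℝ) ^ 2) ^ r - σ ^ r| ≤
      (m + 4) * 2 ^ (m + 4) * |x - σ * (W : ℝ) ^ 2| / W := by
  have hW1 : (1 : ℝ) ≤ W := by exact_mod_cast (by omega : 1 ≤ W)
  have e : x / (W : ℝ) ^ 2 - σ = (x - σ * (W : ℝ) ^ 2) / (W : ℝ) ^ 2 := by field_simp
  have a1 : |x / (W : ℝ) ^ 2 - σ| ≤ |x - σ * (W : ℝ) ^ 2| / W := by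
    rw [e, abs_div, abs_of_pos (a := (W : ℝ) ^ 2) (by positivity)]
    gcongr; nlinarith
  have a2 : |x - σ * (W : ℝ) ^ 2| / W ≤ 1 := (div_le_one (by positivity)).2 hx
  have a3 : max |x / (W : ℝ) ^ 2| |σ| ≤ 2 := by
    refine max_le ?_ (by linarith)
    have := abs_add_le (x / (W : ℝ) ^ 2 - σ) σ
    rw [sub_add_cancel] at this; linarith
  have a4 : max |x / (W : ℝ) ^ 2| |σ| ^ (r - 1) ≤ 2 ^ (m + 4) :=
    (pow_le_pow_left₀ (le_max_of_le_left (abs_nonneg _)) a3 _).trans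
      (pow_le_pow_right₀ (by norm_num) (by omega))
  have a5 : (r : ℝ) ≤ m + 4 := by exact_mod_cast hr
  calc _ ≤ _ := abs_pow_sub_pow_le _ _ r
    _ ≤ |x - σ * (W : ℝ) ^ 2| / W * (m + 4) * 2 ^ (m + 4) := by gcongr
    _ = _ := by ring

theorem GG_le {W : ℕ} (hW : 4 ≤ W) (h : Sq z) {m r : ℕ} (h1 : m ≤ r + 1) (h2 : r + 1 ≤ m + 4)
    (p : ℤ) : GG r W z p ≤ (((m + 4) * 2 ^ (m + 4)) ^ 2 + 5 + 3 ^ (m + 4)) / W * nr W z p +
      (W : ℝ) ^ 3 * jk m W z p + W * ((W : ℝ) ^ (2 * r))⁻¹ * ‖z p‖ ^ 2 := by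
  have hW1 : (1 : ℝ) ≤ W := by exact_mod_cast (by omega : 1 ≤ W)
  have n0 := nr0 W z p
  have j0 := jk0 m W z p
  have o4 := om4 hW
  set K : ℝ := (m + 4) * 2 ^ (m + 4) with hK
  set t : ℝ := |(p : ℝ)| - (W : ℝ) ^ 2 with ht
  by_cases a : |(|p| - (W : ℤ) ^ 2)| ≤ W
  · have a' : |t| ≤ W := by rw [ht]; exact_mod_cast a
    have b1 : nr W z p = (1 + t ^ 2) * ‖z p‖ ^ 2 := if_pos (by omega)
    have b2 : ‖ee r W z p‖ ≤ K * |t| / W * ‖z p‖ := by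
      rcases le_total 0 p with c | c
      · have c' : |(p : ℝ)| = p := abs_of_nonneg (by exact_mod_cast c)
        rw [abs_of_nonneg c] at a
        have d : ¬ |-p - (W : ℤ) ^ 2| ≤ W := fun d => by have := abs_le.1 d; omega
        have e : ee r W z p = (((p : ℝ) / (W : ℝ) ^ 2) ^ r - 1 ^ r : ℝ) * z p := by
          rw [ee, cm, cp, cp, if_pos a, if_neg d, bb]; push_cast; simp [sub_mul]
        have f := win_err hW (m := m) (r := r) (x := p) (σ := 1) (by omega) abs_one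
          (by rw [one_mul, ← c']; exact a')
        rw [one_mul, ← c', ← ht, c'] at f
        rw [e, norm_mul, norm_real, Real.norm_eq_abs]; gcongr
      · have c' : |(p : ℝ)| = -p := abs_of_nonpos (by exact_mod_cast c)
        rw [abs_of_nonpos c] at a
        have d : ¬ |p - (W : ℤ) ^ 2| ≤ W := fun d => by have := abs_le.1 d; omega
        have e : ee r W z p = (((p : ℝ) / (W : ℝ) ^ 2) ^ r - (-1) ^ r : ℝ) * z p := by
          rw [ee, cm, cp, cp, if_pos a, if_neg d, bb, h.cj, conj_conj]; push_cast; simp [sub_mul]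
        have g : |(p : ℝ) - -1 * (W : ℝ) ^ 2| = |t| := by
          rw [ht, c', ← abs_neg]; congr 1; ring
        have f := win_err hW (m := m) (r := r) (x := p) (σ := -1) (by omega) (by simp)
          (by rw [g]; exact a')
        rw [g] at f
        rw [e, norm_mul, norm_real, Real.norm_eq_abs]; gcongr
    refine le_add_of_le_of_nonneg (le_add_of_le_of_nonneg ?_ (by positivity)) (by positivity)
    have b3 : W * ‖ee r W z p‖ ^ 2 ≤ K ^ 2 / W * (t ^ 2 * ‖z p‖ ^ 2) :=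
      calc _ ≤ W * (K * |t| / W * ‖z p‖) ^ 2 := by gcongr
        _ = _ := by rw [← sq_abs t]; field_simp
    rw [GG, nn, if_pos a, b1]
    have b4 : (K ^ 2 + 5 + 3 ^ (m + 4)) / W * ((1 + t ^ 2) * ‖z p‖ ^ 2) =
        K ^ 2 / W * (t ^ 2 * ‖z p‖ ^ 2) + 5 * ‖z p‖ ^ 2 / W +
        ((K ^ 2 + 5 * t ^ 2 + 3 ^ (m + 4) * (1 + t ^ 2)) / W * ‖z p‖ ^ 2) := by ring
    rw [b4]
    exact le_add_of_le_of_nonneg (add_le_add b3 le_rfl) (by positivity)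
  · have d1 : ¬ |p - (W : ℤ) ^ 2| ≤ W := fun d => a (by
      rwa [abs_of_nonneg (a := p) (by have := abs_le.1 d; omega)])
    have d2 : ¬ |-p - (W : ℤ) ^ 2| ≤ W := fun d => a (by
      rwa [abs_of_nonpos (a := p) (by have := abs_le.1 d; omega)])
    have e : GG r W z p = W * (yy W p ^ r * ‖z p‖ ^ 2) := by
      rw [GG, nn, if_neg a, ee, cm, cp, cp, if_neg d1, if_neg d2, ← bb_sq]; simp
    rw [e]
    rcases tri hW z (k := 1) h1 h2 p with ⟨b, c⟩ | b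
    · refine le_add_of_le_of_nonneg (le_add_of_le_of_nonneg ?_ (by positivity)) (by positivity)
      have a' : (W : ℝ) ≤ |t| := by rw [ht]; exact_mod_cast (not_le.1 a).le
      have b2 : (W : ℝ) ^ 2 ≤ 1 + t ^ 2 := by
        rw [← sq_abs t]; nlinarith
      rw [b]
      calc W * (yy W p ^ r * ‖z p‖ ^ 2) ≤ W * (3 ^ (m + 4) * ‖z p‖ ^ 2) := by gcongr
        _ = 3 ^ (m + 4) / W * ((W : ℝ) ^ 2 * ‖z p‖ ^ 2) := by field_simp
        _ ≤ _ := by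
          gcongr
          exact le_add_of_nonneg_left (by positivity)
    · rw [add_assoc]
      refine le_add_of_nonneg_of_le (by positivity)
        ((mul_le_mul_of_nonneg_left b (by positivity)).trans_eq ?_)
      ring

theorem part2 (h : Sq z) (hB : An z ≤ B) {W : ℕ} (hW : 4 ≤ W) {m r : ℕ} (h1 : m ≤ r + 1)
    (h2 : r + 1 ≤ m + 4) :
    |Qs r z / (W : ℝ) ^ (4 * (r + 1)) - 2 * qf (cv z z) (sh z W 1) W / (W : ℝ) ^ 4| ≤
      2 * B ^ 2 * (((m + 4) * 2 ^ (m + 4)) ^ 2 + 5 + 3 ^ (m + 4) + B ^ 2) * er m W z := by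
  have hW1 : (1 : ℝ) ≤ W := by exact_mod_cast (by omega : 1 ≤ W)
  have G0 : ∀ p, 0 ≤ GG r W z p := fun p => by unfold GG; positivity
  obtain ⟨g1, g2⟩ := sumb h hB m W (by positivity) G0 (GG_le hW h h1 h2)
  obtain ⟨u1, u2⟩ := uw_sum h hB
  have s1 := fm_sum h (a := bb r W z) (by simpa only [bb_sq] using (yy_sum h W r).summable)
  have s2 := fm_sum h (a := cp W z) ((nn_sum h W).of_nonneg_of_le (fun _ => by positivity)
    fun p => pow_le_pow_left₀ (norm_nonneg _) (cp_le hW z p) 2)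
  have s3 := fm_sum h (a := cm r W z) ((nn_sum h W).of_nonneg_of_le (fun _ => by positivity)
    fun p => pow_le_pow_left₀ (norm_nonneg _) (cm_le h hW r p) 2)
  have k1 := tsum_of_norm_bounded (dbl g1 u1 G0 (aa0 _) (uw_neg h)) (point hW h r (cv z z))
  rw [(s1.sub s2).tsum_sub s3, s1.tsum_sub s2] at k1
  have k2 := (abs_re_le_norm _).trans k1
  rw [sub_re, sub_re, cm_form h, conj_re, cp_form, ← Qs_form z hW] at k2
  have e : Qs r z / (W : ℝ) ^ (4 * (r + 1)) - 2 * qf (cv z z) (sh z W 1) W / (W : ℝ) ^ 4 =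
      (Qs r z / (W : ℝ) ^ (4 * r) - qf (cv z z) (sh z W 1) W - qf (cv z z) (sh z W 1) W) /
        (W : ℝ) ^ 4 := by field_simp; ring
  rw [e, abs_div, abs_of_pos (a := (W : ℝ) ^ 4) (by positivity), div_le_iff₀ (by positivity)]
  refine k2.trans ?_
  set K : ℝ := ((m + 4) * 2 ^ (m + 4)) ^ 2 + 5 + 3 ^ (m + 4) with hK
  have K1 : 1 ≤ K := by
    have : 0 ≤ (((m : ℝ) + 4) * 2 ^ (m + 4)) ^ 2 + 3 ^ (m + 4) := by positivity
    rw [hK]; linarith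
  have n0 := Nr0 W z
  have j0 := Jk0 m W z
  have b1 : W * ((W : ℝ) ^ (2 * r))⁻¹ ≤ ((W : ℝ) ^ (2 * m))⁻¹ * W ^ 4 := by
    rw [← div_eq_mul_inv, ← div_eq_inv_mul, div_le_div_iff₀ (by positivity) (by positivity),
      ← pow_succ', ← pow_add]
    exact pow_le_pow_right₀ hW1 (by omega)
  have b2 : ∑' p, GG r W z p ≤ (K + B ^ 2) * er m W z * W ^ 4 := by
    refine g2.trans ?_
    have e2 : (K + B ^ 2) * er m W z * W ^ 4 = K / W * Nr W z + K * (W ^ 3 * Jk m W z) +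
        ((W : ℝ) ^ (2 * m))⁻¹ * W ^ 4 * B ^ 2 + (B ^ 2 * (Nr W z / W + W ^ 3 * Jk m W z) +
          K * ((W : ℝ) ^ (2 * m))⁻¹ * W ^ 4) := by
      rw [er]; field_simp; ring
    rw [e2]
    refine le_add_of_le_of_nonneg (add_le_add (add_le_add le_rfl ?_) ?_) (by positivity)
    · exact le_mul_of_one_le_left (by positivity) K1
    · gcongr
  have t0 : 0 ≤ ∑' p, GG r W z p := tsum_nonneg G0
  calc _ ≤ 2 * ((K + B ^ 2) * er m W z * W ^ 4 * B ^ 2) := by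
        gcongr
        · exact tsum_nonneg (aa0 _)
        · exact t0.trans b2
    _ = _ := by ring

end MAS

theorem st_mas : St_MAS := by
  intro m B hm
  set C2 : ℝ := 2 * B ^ 2 * (((m + 4) * 2 ^ (m + 4)) ^ 2 + 5 + 3 ^ (m + 4) + B ^ 2) with hC2
  refine ⟨C2 + (3 ^ (m + 4) + 2 * B ^ 2), fun W z hW h hB i hi => ?_⟩
  have hW1 : (1 : ℝ) ≤ W := by exact_mod_cast (by omega : 1 ≤ W)
  have n0 := MAS.Nr0 W z
  have j0 := MAS.Jk0 m W z
  have e0 : 0 ≤ er m W z := by unfold er; positivity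
  have c0 : 0 ≤ C2 := by positivity
  obtain ⟨s, hs⟩ : ∃ s, m + i = s + 2 := ⟨m + i - 2, by omega⟩
  rw [hs, show s + 2 - 1 = s + 1 from rfl]
  refine ⟨(MAS.part1 h hB hW _).trans ?_, (MAS.part2 h hB hW (m := m) (r := s + 1) (by omega)
    (by omega)).trans ?_, (MAS.part3 h hB hW (m := m) (by omega) (by omega)).trans ?_⟩
  · have a1 : ((W : ℝ) ^ (2 * (s + 2)))⁻¹ ≤ er m W z :=
      le_add_of_nonneg_of_le (by positivity)
        (inv_anti₀ (by positivity) (pow_le_pow_right₀ hW1 (by omega)))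
    rw [mul_comm]
    refine mul_le_mul ?_ a1 (by positivity) (by positivity)
    have : (0 : ℝ) ≤ 3 ^ (m + 4) := by positivity
    nlinarith [sq_nonneg B]
  · exact mul_le_mul_of_nonneg_right (le_add_of_nonneg_right (by positivity)) e0
  · exact mul_le_mul_of_nonneg_right (le_add_of_nonneg_left c0) e0

end Pool.Agent.Lib.ISO
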