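import Pool.Agent.Lib.ISO.BlueV

/-! Block RP: arc length parametrisation. -/

open scoped ContDiff ComplexConjugate Topology
open MeasureTheory Complex Set Filter

noncomputable section

namespace Pool.Agent.Lib.ISO

open Pool.Agent.Lib.MP_312682_mp

namespace RP

theorem exists_len {v : ℝ → ℝ} (hv : Continuous v) {T : ℝ} (hT : 0 < T)
    (hp : Function.Periodic v T) (h0 : ∀ x, 0 < v x) :
    ∃ ℓ : ℝ ≃o ℝ, ℓ 0 = 0 ∧ (∀ θ, HasDerivAt ℓ (v θ) θ) ∧ ∀ θ, ℓ (θ + T) = ℓ θ + ℓ T := by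
  have hd : ∀ θ, HasDerivAt (fun t => ∫ x in (0 : ℝ)..t, v x) (v θ) θ := fun θ =>
    (hv.integral_hasStrictDerivAt 0 θ).hasDerivAt
  have hm : StrictMono fun t => ∫ x in (0 : ℝ)..t, v x :=
    strictMono_of_deriv_pos fun θ => by rw [(hd θ).deriv]; exact h0 θ
  have hs : Function.Surjective fun t => ∫ x in (0 : ℝ)..t, v x :=
    (continuous_iff_continuousAt.2 fun θ => (hd θ).continuousAt).surjective
      (hp.tendsto_atTop_intervalIntegral_of_pos' (hv.intervalIntegrable _ _) h0 hT)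
      (hp.tendsto_atBot_intervalIntegral_of_pos' (hv.intervalIntegrable _ _) h0 hT)
  refine ⟨hm.orderIsoOfSurjective _ hs, ?_, hd, fun θ => ?_⟩
  · exact intervalIntegral.integral_same
  · have := hp.intervalIntegral_add_eq_add 0 θ fun a b => hv.intervalIntegrable a b
    rw [zero_add] at this
    exact this

end RP

open RP in
theorem st_rp : St_RP := by
  intro z hz hp hne
  have hz1 : ContDiff ℝ ∞ (deriv z) := (contDiff_infty_iff_deriv.1 hz).2
  have hv : ContDiff ℝ ∞ fun θ => ‖deriv z θ‖ := hz1.norm ℝ hne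
  have h0 : ∀ θ, 0 < ‖deriv z θ‖ := fun θ => norm_pos_iff.2 (hne θ)
  have hp1 : Function.Periodic (fun θ => ‖deriv z θ‖) (2 * Real.pi) := fun θ => by
    beta_reduce
    rw [← deriv_comp_add_const, funext hp]
  obtain ⟨ℓ, hl0, hld, hlp⟩ := exists_len hv.continuous Real.two_pi_pos hp1 h0
  have hls : ContDiff ℝ ∞ ℓ := by
    rw [contDiff_infty_iff_deriv, funext fun θ => (hld θ).deriv]
    exact ⟨fun θ => (hld θ).differentiableAt, hv⟩
  have hli : ContDiff ℝ ∞ ℓ.symm :=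
    Homeomorph.contDiff_symm_deriv ℓ.toHomeomorph (fun θ => (h0 θ).ne') hld hls
  have hγ : ContDiff ℝ ∞ (z ∘ ℓ.symm) := hz.comp hli
  have hγl : ∀ θ, (z ∘ ℓ.symm) (ℓ θ) = z θ := fun θ => by simp
  have hγp : ∀ s, (z ∘ ℓ.symm) (s + ℓ (2 * Real.pi)) = (z ∘ ℓ.symm) s := fun s => by
    obtain ⟨θ, rfl⟩ := ℓ.surjective s
    rw [← hlp, hγl, hγl, hp]
  generalize z ∘ ℓ.symm = γ at hγ hγl hγp
  have hγ1 : ContDiff ℝ ∞ (deriv γ) := (contDiff_infty_iff_deriv.1 hγ).2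
  have hc : ∀ θ, (‖deriv z θ‖ : ℂ) ≠ 0 := fun θ => ofReal_ne_zero.2 (h0 θ).ne'
  have h1 : ∀ θ, deriv z θ = ‖deriv z θ‖ * deriv γ (ℓ θ) := fun θ => by
    have h2 := ((hγ.differentiable (by simp) (ℓ θ)).hasDerivAt.scomp θ (hld θ)).deriv
    rw [show γ ∘ ℓ = z from funext hγl, real_smul] at h2
    exact h2
  have h3 : ∀ θ, deriv γ (ℓ θ) = deriv z θ / ‖deriv z θ‖ := fun θ => by
    rw [eq_div_iff (hc θ), mul_comm]
    exact (h1 θ).symm
  have hcv : Cv0 γ := ⟨hγ, fun s => by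
    obtain ⟨θ, rfl⟩ := ℓ.surjective s
    rw [h3, norm_div, norm_real, norm_norm, div_self (h0 θ).ne']⟩
  refine ⟨γ, ℓ, ⟨hcv, ?_, hγp⟩, hl0, hld, hlp, hγl, h3, fun θ => ?_, fun j θ => ?_,
    fun F hF => ?_⟩
  · rw [← hl0]
    exact ℓ.strictMono Real.two_pi_pos
  · have h4 := (((hv.differentiable (by simp) θ).hasDerivAt.ofReal_comp).mul
      ((hγ1.differentiable (by simp) (ℓ θ)).hasDerivAt.scomp θ (hld θ))).deriv
    have h5 : ((fun y : ℝ => (‖deriv z y‖ : ℂ)) * deriv γ ∘ ℓ) = deriv z :=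
      funext fun y => (h1 y).symm
    rw [h5] at h4
    have h6 := hcv.mul_conj (ℓ θ)
    have h7 := h1 θ
    rw [eq_div_iff (pow_ne_zero 3 (h0 θ).ne'), h4, kap]
    generalize deriv (fun θ => ‖deriv z θ‖) θ = w
    generalize ‖deriv z θ‖ = v at h7 ⊢
    have h8 : ((w : ℂ) * (deriv γ ∘ ℓ) θ + v * v • deriv (deriv γ) (ℓ θ)) * conj (deriv z θ) =
        (w * v : ℝ) + (v ^ 3 : ℝ) * (deriv (deriv γ) (ℓ θ) * conj (deriv γ (ℓ θ))) := by
      rw [h7, map_mul, conj_ofReal, real_smul, Function.comp_apply]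
      push_cast
      linear_combination (w * v : ℂ) * h6
    rw [h8, add_im, ofReal_im, im_ofReal_mul, zero_add, mul_comm]
  · have h4 : Differentiable ℝ (iteratedDeriv j (kap γ)) :=
      hcv.s_kap.differentiable_iteratedDeriv j (by exact_mod_cast ENat.coe_lt_top j)
    have h5 := ((h4 (ℓ θ)).hasDerivAt.comp θ (hld θ)).deriv
    rw [iteratedDeriv_succ, eq_div_iff (h0 θ).ne']
    exact h5.symm
  · have := intervalIntegral.integral_comp_mul_deriv (a := 0) (b := 2 * Real.pi)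
      (fun θ _ => hld θ) hv.continuous.continuousOn hF
    rw [hl0] at this
    exact this.symm

end Pool.Agent.Lib.ISO
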