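import Pool.Agent.Lib.ISO.B_K41

/-! Block K4, part 2: the inequalities between the normalised sums. -/

noncomputable section

namespace Pool.Agent.Lib.ISO.K4

/-- normalised sums -/
structure Q where
  e : ℕ → ℝ
  m : ℕ → ℝ
  n : ℝ
  j : ℝ

structure Ineq (γ Λ μ v : ℝ) (x : Q) : Prop where
  m0 : 0 ≤ x.m 0
  m2 : 0 ≤ x.m 2
  j0 : 0 ≤ x.j
  o0 : 2 * x.m 0 + 2 * x.m 2 ≤ x.n
  L1 : γ * (x.n * v ^ 4 + x.j + 2 * x.m 0) ≤ x.e 0 + x.e 4
  L2 : γ * (x.n * v ^ 4 + x.j) ≤ x.e 2 + x.e 4 + 2 * γ * (v ^ 4 * x.m 0)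
  U1 : x.e 0 + x.e 4 ≤ Λ * (x.n + x.j)
  U2 : x.e 2 + x.e 4 ≤ Λ * (x.n * v ^ 4 + x.j)
  A : |x.e 0 - 2 * x.m 0| ≤ Λ * (v * x.n + x.j)
  B : |x.e 1 - 4 * (v ^ 2 * x.m 1)| ≤ Λ * (v ^ 3 * x.n + x.j)
  lo : ∀ ν, 0 ≤ ν → ν ≤ μ →
    8 * (v ^ 4 * x.m 2) ≤ x.e 2 - 2 * ν * x.e 3 + ν ^ 2 * x.e 4 + Λ * (v ^ 5 * x.n)
  up : ∀ ν, 0 ≤ ν → ν ≤ μ → x.e 2 - 2 * ν * x.e 3 + ν ^ 2 * x.e 4 ≤ 8 * (v ^ 4 * x.m 2) +
    Λ * (v ^ 5 * x.n + v ^ 4 * (x.n - 2 * x.m 0 - 2 * x.m 2) + x.j)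

def qq (m W : ℕ) (A : ℝ) (z : ℤ → ℂ) : Q where
  e k := fd (fun i => Hi (m + i) W z) k / A ^ 2
  m e := mom e (sh z W A) W
  n := Nr W z / A ^ 2
  j := Jk m W z / A ^ 2

lemma mom_sh (e W : ℕ) (A : ℝ) (z : ℤ → ℂ) : mom e (sh z W A) W = mom e (sh z W 1) W / A ^ 2 := by
  rw [mom, mom, Finset.sum_div]
  refine Finset.sum_congr rfl fun t _ => ?_
  simp only [sh, norm_div, Complex.norm_real, Real.norm_eq_abs, div_pow, sq_abs, one_pow, div_one]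
  ring

lemma x_facts {s : ℝ} (hs : |s| ≤ 1 / 2) : s ^ 2 ≤ (2 * s + s ^ 2) ^ 2 ∧
    (2 * s + s ^ 2) ^ 2 ≤ 7 * s ^ 2 ∧ (2 * s + s ^ 2) ^ 4 ≤ 3 ∧ (2 * s + s ^ 2) ^ 4 ≤ 10 * s ^ 2 ∧
    s ^ 2 ≤ 1 / 4 ∧ |2 * s + s ^ 2| ≤ 3 * |s| := by
  obtain ⟨h1, h2⟩ := abs_le.1 hs
  have e : (2 * s + s ^ 2) ^ 2 = s ^ 2 * (2 + s) ^ 2 := by ring
  have h3 : 1 ≤ (2 + s) ^ 2 := by nlinarith
  have h4 : (2 + s) ^ 2 ≤ 25 / 4 := by nlinarith
  have h5 : s ^ 2 ≤ 1 / 4 := by nlinarith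
  have h6 := sq_nonneg s
  have h7 : (2 * s + s ^ 2) ^ 2 ≤ 25 / 4 * s ^ 2 := by rw [e]; nlinarith
  have h8 := sq_nonneg (2 * s + s ^ 2)
  have h9 : (2 * s + s ^ 2) ^ 4 = (2 * s + s ^ 2) ^ 2 * (2 * s + s ^ 2) ^ 2 := by ring
  have h10 : (2 * s + s ^ 2) ^ 2 ≤ 25 / 16 := by linarith
  refine ⟨by rw [e]; nlinarith, by linarith, by rw [h9]; nlinarith, by rw [h9]; nlinarith, h5, ?_⟩
  rw [show 2 * s + s ^ 2 = (2 + s) * s by ring, abs_mul]
  exact mul_le_mul_of_nonneg_right (abs_le.2 ⟨by linarith, by linarith⟩) (abs_nonneg s)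

lemma a_facts {s ν μ : ℝ} (hs : |s| ≤ 1 / 2) (h0 : 0 ≤ ν) (h1 : ν ≤ μ) :
    |((2 + s) * (1 - ν * (2 * s + s ^ 2))) ^ 2 - 4| ≤ 5 * (1 + 8 * μ) ^ 2 * |s| ∧
      ((2 + s) * (1 - ν * (2 * s + s ^ 2))) ^ 2 ≤ 9 * (1 + 8 * μ) ^ 2 := by
  obtain ⟨h2, h3⟩ := abs_le.1 hs
  have h4 := (x_facts hs).2.2.2.2.2
  have h5 := abs_nonneg s
  set a := (2 + s) * (1 - ν * (2 * s + s ^ 2)) with ha
  have h6 : |a - 2| ≤ (1 + 8 * μ) * |s| := by
    rw [show a - 2 = s - (2 + s) * ν * (2 * s + s ^ 2) by rw [ha]; ring]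
    refine (abs_sub _ _).trans ?_
    rw [abs_mul, abs_mul, abs_of_nonneg h0, abs_of_nonneg (show 0 ≤ 2 + s by linarith)]
    have : (2 + s) * ν * |2 * s + s ^ 2| ≤ 5 / 2 * μ * (3 * |s|) := by
      gcongr
      · linarith
      · linarith
    nlinarith
  have h7 : (1 + 8 * μ) * |s| ≤ (1 + 8 * μ) * (1 / 2) :=
    mul_le_mul_of_nonneg_left hs (by linarith)
  obtain ⟨h8, h9⟩ := abs_le.1 h6
  constructor
  · rw [show a ^ 2 - 4 = (a + 2) * (a - 2) by ring, abs_mul]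
    have h10 : |a + 2| ≤ 5 * (1 + 8 * μ) := abs_le.2 ⟨by linarith, by linarith⟩
    calc |a + 2| * |a - 2| ≤ 5 * (1 + 8 * μ) * ((1 + 8 * μ) * |s|) := by
          gcongr
          linarith
      _ = _ := by ring
  · have h10 : |a| ≤ 3 * (1 + 8 * μ) := abs_le.2 ⟨by linarith, by linarith⟩
    have h11 := pow_le_pow_left₀ (abs_nonneg a) h10 2
    rw [sq_abs] at h11
    linarith

lemma far_abs {x F : ℝ} (h1 : 1 ≤ F) (h2 : x ^ 4 ≤ F) : |x| ≤ F ∧ x ^ 2 ≤ F := by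
  have h3 : x ^ 2 ≤ F := by nlinarith [sq_nonneg (x ^ 2 - 1)]
  refine ⟨?_, h3⟩
  rw [← sq_abs] at h3
  nlinarith [sq_nonneg (|x| - 1)]

lemma ineq (m : ℕ) : ∃ γ Λ, 0 < γ ∧ ∀ (W : ℕ) (A : ℝ) z, 4 ≤ W → Sq z → 0 < A →
    Ineq γ Λ m (W : ℝ)⁻¹ (qq m W A z) := by
  obtain ⟨g, hg⟩ : ∃ g : ℝ, (1 / 4 : ℝ) ^ m = g := ⟨_, rfl⟩
  obtain ⟨G, hG⟩ : ∃ G : ℝ, (3 : ℝ) ^ m = G := ⟨_, rfl⟩
  obtain ⟨κ, hκ⟩ : ∃ κ : ℝ, 3 * m * G = κ := ⟨_, rfl⟩
  obtain ⟨ρ, hρ⟩ : ∃ ρ : ℝ, (1 + 8 * (m : ℝ)) ^ 2 = ρ := ⟨_, rfl⟩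
  have g0 : 0 < g := by rw [← hg]; positivity
  have g1 : g ≤ 1 := by rw [← hg]; exact pow_le_one₀ (by norm_num) (by norm_num)
  have G1 : 1 ≤ G := by rw [← hG]; exact one_le_pow₀ (by norm_num)
  have m0 : (0 : ℝ) ≤ m := Nat.cast_nonneg m
  have κ0 : 0 ≤ κ := by rw [← hκ]; positivity
  have ρ1 : 1 + (m : ℝ) ^ 2 ≤ ρ := by rw [← hρ]; nlinarith
  have ρ2 : 1 ≤ ρ := by nlinarith
  have Gρ : G ≤ G * ρ := le_mul_of_one_le_right (by linarith) ρ2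
  have Gρ' : ρ ≤ G * ρ := le_mul_of_one_le_left (by linarith) G1
  obtain ⟨Λ, hΛ⟩ : ∃ Λ : ℝ, 20 * (G * ρ) + 4 * κ = Λ := ⟨_, rfl⟩
  have Λ1 : 1 ≤ Λ := by linarith
  refine ⟨g / 18, Λ, by positivity, fun W A z hW hz hA => ?_⟩
  have P := pos hz hW m
  rw [hg, hG, hκ] at P
  have hw4 : (4 : ℝ) ≤ W := by exact_mod_cast hW
  obtain ⟨v, hv⟩ : ∃ v : ℝ, (W : ℝ)⁻¹ = v := ⟨_, rfl⟩
  have v0 : 0 < v := by rw [← hv]; positivity
  have v1 : v ≤ 1 := by rw [← hv]; exact inv_le_one_of_one_le₀ (by linarith)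
  have e2 : ∀ s : ℝ, v ^ 2 * (W ^ 2 * s) = s := fun s => by rw [← hv]; field_simp
  have e4 : ∀ s : ℝ, v ^ 4 * (W ^ 2 * s) ^ 2 = s ^ 2 := fun s => by rw [← hv]; field_simp
  have v4 : v ^ 4 ≤ v ^ 2 := pow_le_pow_of_le_one v0.le v1 (by norm_num)
  have v2 : v ^ 2 ≤ 1 := pow_le_one₀ v0.le v1
  have v40 : 0 < v ^ 4 := by positivity
  have hA2 : 0 ≤ A ^ 2 := by positivity
  rw [hv] at P ⊢
  have sq : ∀ s : ℝ, v ≤ |s| → v ^ 2 ≤ s ^ 2 := fun s h => by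
    rw [← sq_abs s]; exact pow_le_pow_left₀ v0.le h 2
  have hA' : ∀ ε : ℝ, (∀ u, ε * u ≤ |u|) → ε * ((qq m W A z).e 0 - 2 * (qq m W A z).m 0) ≤
      Λ * (v * (qq m W A z).n + (qq m W A z).j) := fun ε hε => by
    have := div_nonneg (P (-ε) 0 0 0 0 (ε + Λ * v) 0 (Λ * v) (Λ * v) Λ (fun s Y h1 h2 h3 h4 h5 => by
      have h6 := (hε (Y - 1)).trans (h5.trans (mul_le_mul_of_nonneg_left h1 κ0))
      have h7 : 0 ≤ Λ * v * (W ^ 2 * s) ^ 2 := by positivity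
      have h8 : κ * v ≤ Λ * v := mul_le_mul_of_nonneg_right (by linarith) v0.le
      simp only [pl]
      linarith) (fun s Y h1 h2 h3 h4 => by
      have h6 := (hε Y).trans (abs_le.2 ⟨by linarith, h4⟩)
      have h7 : 1 ≤ v * (W ^ 2 * s) ^ 2 := by
        have h8 := sq s h1
        rw [← e4 s] at h8
        have h9 : 1 ≤ v ^ 2 * (W ^ 2 * s) ^ 2 :=
          le_of_mul_le_mul_left (a := v ^ 2) (by linarith) (by positivity)
        have h10 : 0 ≤ v * (W ^ 2 * s) ^ 2 := by positivity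
        nlinarith
      have h8 : Λ * 1 ≤ Λ * (v * (W ^ 2 * s) ^ 2) := mul_le_mul_of_nonneg_left h7 (by linarith)
      have h9 : 0 ≤ Λ * v := by positivity
      simp only [pl]
      linarith) (fun x F h1 h2 h3 h4 => by
      have h6 := hε 1
      have h7 : 1 * 1 ≤ Λ * F := mul_le_mul Λ1 h2 zero_le_one (by linarith)
      rw [abs_one] at h6
      simp only [pl]
      linarith)) hA2
    simp only [qq, mom_sh _ W A]
    exact sub_nonneg.1 (le_of_le_of_eq this (by ring))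
  have hB' : ∀ ε : ℝ, (∀ u, ε * u ≤ |u|) → ε * ((qq m W A z).e 1 - 4 * (v ^ 2 * (qq m W A z).m 1)) ≤
      Λ * (v ^ 3 * (qq m W A z).n + (qq m W A z).j) := fun ε hε => by
    have := div_nonneg (P 0 (-ε) 0 0 0 (Λ * v ^ 3) (2 * ε * v ^ 2) (Λ * v ^ 3) (Λ * v ^ 3) Λ
      (fun s Y h1 h2 h3 h4 h5 => by
      have h6 := hε (2 * (s * (Y - 1)) + Y * s ^ 2)
      have h7 : |2 * (s * (Y - 1)) + Y * s ^ 2| ≤ (2 * κ + G) * s ^ 2 := by
        refine (abs_add_le _ _).trans ?_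
        rw [abs_mul, abs_mul, abs_mul, abs_two, abs_of_nonneg (sq_nonneg s),
          abs_of_nonneg (show 0 ≤ Y by linarith)]
        have h8 := mul_le_mul_of_nonneg_left h5 (abs_nonneg s)
        have h9 := mul_le_mul_of_nonneg_right h4 (sq_nonneg s)
        have h10 := sq_abs s
        nlinarith
      have h8 : s ^ 2 ≤ v ^ 3 * (W ^ 2 * s) ^ 2 := by
        have h9 := mul_le_mul_of_nonneg_right (pow_le_pow_of_le_one v0.le v1 (show 3 ≤ 4 by norm_num))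
          (sq_nonneg ((W : ℝ) ^ 2 * s))
        rwa [e4] at h9
      have h9 : (2 * κ + G) * s ^ 2 ≤ Λ * (v ^ 3 * (W ^ 2 * s) ^ 2) :=
        mul_le_mul (by linarith) h8 (sq_nonneg s) (by linarith)
      have h10 : 0 ≤ Λ * v ^ 3 := by positivity
      have h11 := congrArg (fun u => 2 * ε * u) (e2 s)
      simp only [pl] at h11 ⊢
      linarith) (fun s Y h1 h2 h3 h4 => by
      have h6 := hε (Y * (2 * s + s ^ 2))
      rw [abs_mul, abs_of_nonneg (show 0 ≤ Y by linarith)] at h6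
      have h7 : Y * |2 * s + s ^ 2| ≤ G * (3 * |s|) :=
        mul_le_mul h4 (x_facts h2).2.2.2.2.2 (abs_nonneg _) (by linarith)
      have h8 : |s| ≤ v ^ 3 * (W ^ 2 * s) ^ 2 := by
        refine le_of_mul_le_mul_left (a := v) ?_ v0
        have h9 := mul_le_mul_of_nonneg_right h1 (abs_nonneg s)
        have h10 := sq_abs s
        have h11 := e4 s
        nlinarith
      have h9 : 3 * G * |s| ≤ Λ * (v ^ 3 * (W ^ 2 * s) ^ 2) :=
        mul_le_mul (by linarith) h8 (abs_nonneg s) (by linarith)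
      have h10 : 0 ≤ Λ * v ^ 3 := by positivity
      simp only [pl]
      linarith) (fun x F h1 h2 h3 h4 => by
      have h6 := (hε x).trans (far_abs h2 h3).1
      have h7 : 1 * F ≤ Λ * F := mul_le_mul_of_nonneg_right Λ1 (by linarith)
      simp only [pl]
      linarith)) hA2
    simp only [qq, mom_sh _ W A]
    exact sub_nonneg.1 (le_of_le_of_eq this (by ring))
  have p1 : ∀ u : ℝ, 1 * u ≤ |u| := fun u => by rw [one_mul]; exact le_abs_self u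
  have p2 : ∀ u : ℝ, -1 * u ≤ |u| := fun u => by rw [neg_one_mul]; exact neg_le_abs u
  refine ⟨by simp only [qq, mom]; exact Finset.sum_nonneg fun t _ => by positivity,
    by simp only [qq, mom]; exact Finset.sum_nonneg fun t _ => by positivity,
    ?_, ?_, ?_, ?_, ?_, ?_, abs_le.2 ⟨by linarith [hA' _ p2], by linarith [hA' _ p1]⟩,
    abs_le.2 ⟨by linarith [hB' _ p2], by linarith [hB' _ p1]⟩, fun ν n0 n1 => ?_, fun ν n0 n1 => ?_⟩
  · have := div_nonneg (P 0 0 0 0 0 0 0 0 0 1 (fun s Y _ _ _ _ _ => by simp [pl])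
      (fun s Y _ _ _ _ => by simp [pl]) (fun x F _ h2 _ _ => by simp only [pl]; linarith)) hA2
    simp only [qq]
    exact le_of_le_of_eq this (by ring)
  · have := div_nonneg (P 0 0 0 0 0 0 0 0 1 0 (fun s Y _ _ _ _ _ => by simp [pl])
      (fun s Y _ _ _ _ => by simp only [pl]; nlinarith [sq_nonneg ((W : ℝ) ^ 2 * s)])
      (fun x F _ h2 _ _ => by simp [pl])) hA2
    simp only [qq, mom_sh _ W A]
    exact sub_nonneg.1 (le_of_le_of_eq this (by ring))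
  · have := div_nonneg (P 1 0 0 0 1 (-(g / 18) * v ^ 4 - g / 18) 0 (-(g / 18) * v ^ 4)
      (-(g / 18) * v ^ 4) (-(g / 18)) (fun s Y h1 h2 h3 h4 h5 => by
      have h6 := (x_facts h2).2.2.2.2.1
      have h7 : 0 ≤ Y * (2 * s + s ^ 2) ^ 4 := mul_nonneg (by linarith) (by positivity)
      have h8 := congrArg (fun u => g * u) (e4 s)
      have h9 := mul_le_mul_of_nonneg_left h6 g0.le
      have h10 := mul_le_mul_of_nonneg_left (v4.trans v2) g0.le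
      simp only [pl] at h8 ⊢
      linarith) (fun s Y h1 h2 h3 h4 => by
      have h6 := (x_facts h2).2.2.2.2.1
      have h7 : 0 ≤ Y * (2 * s + s ^ 2) ^ 4 := mul_nonneg (by linarith) (by positivity)
      have h8 := congrArg (fun u => g * u) (e4 s)
      have h9 := mul_le_mul_of_nonneg_left h6 g0.le
      have h10 := mul_le_mul_of_nonneg_left (v4.trans v2) g0.le
      simp only [pl] at h8 ⊢
      linarith) (fun x F h1 h2 h3 h4 => by
      have h6 := mul_le_mul_of_nonneg_right g1 (show 0 ≤ F by linarith)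
      simp only [pl]
      linarith)) hA2
    simp only [qq, mom_sh _ W A]
    exact sub_nonneg.1 (le_of_le_of_eq this (by ring))
  · have := div_nonneg (P 0 0 1 0 1 0 0 (-(g / 18) * v ^ 4) (-(g / 18) * v ^ 4) (-(g / 18))
      (fun s Y h1 h2 h3 h4 h5 => by
      have h6 := mul_le_mul h3 (x_facts h2).1 (sq_nonneg s) (by linarith)
      have h7 : 0 ≤ Y * (2 * s + s ^ 2) ^ 4 := mul_nonneg (by linarith) (by positivity)
      have h8 := congrArg (fun u => g * u) (e4 s)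
      have h9 : 0 ≤ g * s ^ 2 := by positivity
      simp only [pl] at h8 ⊢
      linarith) (fun s Y h1 h2 h3 h4 => by
      have h6 := mul_le_mul h3 (x_facts h2).1 (sq_nonneg s) (by linarith)
      have h7 : 0 ≤ Y * (2 * s + s ^ 2) ^ 4 := mul_nonneg (by linarith) (by positivity)
      have h8 := congrArg (fun u => g * u) (e4 s)
      have h9 : 0 ≤ g * s ^ 2 := by positivity
      have h10 := mul_le_mul_of_nonneg_left (v4.trans (sq s h1)) g0.le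
      simp only [pl] at h8 ⊢
      linarith) (fun x F h1 h2 h3 h4 => by
      have h6 := mul_le_mul_of_nonneg_right g1 (show 0 ≤ F by linarith)
      have h7 : 0 ≤ x ^ 4 := by positivity
      simp only [pl]
      linarith)) hA2
    simp only [qq, mom_sh _ W A]
    exact sub_nonneg.1 (le_of_le_of_eq this (by ring))
  · have k : ∀ s Y : ℝ, |s| ≤ 1 / 2 → g ≤ Y → Y ≤ G →
        0 ≤ Y * pl (-1) 0 0 0 (-1) (2 * s + s ^ 2) + Λ * (1 + (W ^ 2 * s) ^ 2) := fun s Y h2 h3 h4 => by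
      have h6 := mul_le_mul h4 (x_facts h2).2.2.1 (by positivity) (by linarith)
      have h7 : 0 ≤ Λ * (W ^ 2 * s) ^ 2 := by positivity
      simp only [pl]
      linarith
    have := div_nonneg (P (-1) 0 0 0 (-1) Λ 0 Λ Λ Λ
      (fun s Y h1 h2 h3 h4 h5 => by linarith [k s Y h2 h3 h4])
      (fun s Y h1 h2 h3 h4 => k s Y h2 h3 h4) (fun x F h1 h2 h3 h4 => by
      have h7 : 2 * F ≤ Λ * F := mul_le_mul_of_nonneg_right (by linarith) (by linarith)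
      simp only [pl]
      linarith)) hA2
    simp only [qq, mom_sh _ W A]
    exact sub_nonneg.1 (le_of_le_of_eq this (by ring))
  · have k : ∀ s Y : ℝ, |s| ≤ 1 / 2 → g ≤ Y → Y ≤ G → 0 ≤ Y * pl 0 0 (-1) 0 (-1) (2 * s + s ^ 2) +
        Λ * v ^ 4 * (1 + (W ^ 2 * s) ^ 2) := fun s Y h2 h3 h4 => by
      have h5 := mul_le_mul h4 (x_facts h2).2.1 (by positivity) (by linarith)
      have h6 := mul_le_mul h4 (x_facts h2).2.2.2.1 (by positivity) (by linarith)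
      have h7 : 0 ≤ Λ * v ^ 4 := by positivity
      have h8 := congrArg (fun u => Λ * u) (e4 s)
      have h9 : 17 * G * s ^ 2 ≤ Λ * s ^ 2 := mul_le_mul_of_nonneg_right (by linarith) (sq_nonneg s)
      simp only [pl] at h8 ⊢
      linarith
    have := div_nonneg (P 0 0 (-1) 0 (-1) (Λ * v ^ 4) 0 (Λ * v ^ 4) (Λ * v ^ 4) Λ
      (fun s Y h1 h2 h3 h4 h5 => by linarith [k s Y h2 h3 h4])
      (fun s Y h1 h2 h3 h4 => k s Y h2 h3 h4) (fun x F h1 h2 h3 h4 => by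
      have h6 := (far_abs h2 h3).2
      have h7 : 2 * F ≤ Λ * F := mul_le_mul_of_nonneg_right (by linarith) (by linarith)
      simp only [pl]
      linarith)) hA2
    simp only [qq, mom_sh _ W A]
    exact sub_nonneg.1 (le_of_le_of_eq this (by ring))
  all_goals
    have pe : ∀ s : ℝ, pl 0 0 1 (-2 * ν) (ν ^ 2) (2 * s + s ^ 2) =
        s ^ 2 * ((2 + s) * (1 - ν * (2 * s + s ^ 2))) ^ 2 := fun s => by simp only [pl]; ring
    have pe' : ∀ x : ℝ, pl 0 0 (-1) (2 * ν) (-ν ^ 2) x = -pl 0 0 1 (-2 * ν) (ν ^ 2) x := fun x => by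
      simp only [pl]; ring
    have k : ∀ s Y : ℝ, |s| ≤ v → |s| ≤ 1 / 2 → g ≤ Y → Y ≤ G → |Y - 1| ≤ κ * |s| →
        |Y * pl 0 0 1 (-2 * ν) (ν ^ 2) (2 * s + s ^ 2) - 4 * s ^ 2| ≤ Λ * v * s ^ 2 := by
      intro s Y h1 h2 h3 h4 h5
      have h6 := (a_facts h2 n0 n1).1
      rw [hρ] at h6
      rw [pe]
      set a := ((2 + s) * (1 - ν * (2 * s + s ^ 2))) ^ 2
      rw [show Y * (s ^ 2 * a) - 4 * s ^ 2 = (Y * (a - 4) + 4 * (Y - 1)) * s ^ 2 by ring, abs_mul,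
        abs_of_nonneg (sq_nonneg s)]
      refine mul_le_mul_of_nonneg_right ((abs_add_le _ _).trans ?_) (sq_nonneg s)
      rw [abs_mul, abs_mul, abs_of_nonneg (show 0 ≤ Y by linarith),
        abs_of_nonneg (show (0 : ℝ) ≤ 4 by norm_num)]
      have h7 := mul_le_mul h4 h6 (abs_nonneg _) (by linarith)
      have h8 : (5 * (G * ρ) + 4 * κ) * |s| ≤ Λ * v :=
        mul_le_mul (by linarith) h1 (abs_nonneg s) (by linarith)
      linarith
  · have := div_nonneg (P 0 0 1 (-2 * ν) (ν ^ 2) (Λ * v ^ 5) 0 (Λ * v ^ 5 - 4 * v ^ 4) (Λ * v ^ 5) 0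
      (fun s Y h1 h2 h3 h4 h5 => by
      have h6 := (abs_le.1 (k s Y h1 h2 h3 h4 h5)).1
      have h7 : 0 ≤ Λ * v ^ 5 := by positivity
      have h8 := congrArg (fun u => Λ * v * u) (e4 s)
      have h9 := e4 s
      linarith) (fun s Y h1 h2 h3 h4 => by
      rw [pe]
      have : 0 ≤ Y := by linarith
      positivity) (fun x F h1 h2 h3 h4 => by
      simp only [pl]
      nlinarith [sq_nonneg (x * (1 - ν * x))])) hA2
    simp only [qq, mom_sh _ W A]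
    exact sub_nonneg.1 (le_of_le_of_eq this (by ring))
  · have := div_nonneg (P 0 0 (-1) (2 * ν) (-ν ^ 2) (Λ * v ^ 5) 0 (Λ * v ^ 5 + 4 * v ^ 4)
      (Λ * v ^ 5 + Λ * v ^ 4) Λ (fun s Y h1 h2 h3 h4 h5 => by
      have h6 := (abs_le.1 (k s Y h1 h2 h3 h4 h5)).2
      have h7 : 0 ≤ Λ * v ^ 5 := by positivity
      have h8 := congrArg (fun u => Λ * v * u) (e4 s)
      have h9 := e4 s
      rw [pe']
      linarith) (fun s Y h1 h2 h3 h4 => by
      have h6 := (a_facts h2 n0 n1).2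
      rw [hρ] at h6
      rw [pe', pe]
      have h7 := mul_le_mul_of_nonneg_left (mul_le_mul h4 h6 (sq_nonneg _) (by linarith)) (sq_nonneg s)
      have h8 := congrArg (fun u => Λ * u) (e4 s)
      have h9 : 9 * (G * ρ) * s ^ 2 ≤ Λ * s ^ 2 :=
        mul_le_mul_of_nonneg_right (by linarith) (sq_nonneg s)
      have h10 : 0 ≤ Λ * v ^ 5 * (1 + (W ^ 2 * s) ^ 2) := by positivity
      have h11 : 0 ≤ Λ * v ^ 4 := by positivity
      linarith) (fun x F h1 h2 h3 h4 => by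
      have h6 := (far_abs h2 h3).2
      have h7 : ν ^ 2 * x ^ 4 ≤ (m : ℝ) ^ 2 * F :=
        mul_le_mul (pow_le_pow_left₀ n0 n1 2) h3 (by positivity) (by positivity)
      have h8 : 2 * (1 + (m : ℝ) ^ 2) * F ≤ Λ * F :=
        mul_le_mul_of_nonneg_right (by linarith) (by linarith)
      simp only [pl]
      nlinarith [sq_nonneg (x * (1 + ν * x))])) hA2
    simp only [qq, mom_sh _ W A]
    exact sub_nonneg.1 (le_of_le_of_eq this (by ring))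

end Pool.Agent.Lib.ISO.K4
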