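import Pool.Agent.Lib.ISO.BlueE

/-! Assembly of the collar expansions and the interior term. -/

open scoped InnerProductSpace ENNReal ContDiff ComplexConjugate Topology
open MeasureTheory Complex Set Filter

noncomputable section

namespace Pool.Agent.Lib.ISO

open Pool.Agent.Lib.MP_312682_mp

namespace ASM

lemma chi_scale {δ : ℝ} (hδ : 0 < δ) (x : ℝ) : chi δ (δ * x) = chi 1 x := by
  simp only [chi, stp]
  congr 2
  field_simp

lemma mo_scale {δ : ℝ} (hδ : 0 < δ) (j : ℕ) :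
    mo δ (fun x => chi δ x ^ 2) j = δ ^ (j + 1) * mo 1 (fun x => chi 1 x ^ 2) j := by
  have h := intervalIntegral.smul_integral_comp_mul_left (a := 0) (b := 1)
    (fun x => chi δ x ^ 2 * x ^ j) δ
  simp only [mul_zero, mul_one, smul_eq_mul, chi_scale hδ] at h
  rw [mo, mo, ← h, pow_succ', mul_assoc]
  congr 1
  rw [← intervalIntegral.integral_const_mul]
  congr 1
  ext x
  ring

/-- the two correction constants -/
def m0 : ℝ := mo 1 (fun x => chi 1 x ^ 2) 0 / (4 * Real.pi)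
def m1 : ℝ := mo 1 (fun x => chi 1 x ^ 2) 1 / (4 * Real.pi)

/-- corrected coefficients -/
def Gm (s : Finset (List ℕ)) (Γ : List ℕ → ℝ → ℝ) (α : List ℕ) (D : ℝ) : ℝ :=
  (if α ∈ s then Γ α D else 0) + ((if α = [] then -(D * m0) else 0) +
    if α = [0] then D ^ 2 * m1 else 0)

lemma Gm_bd {s : Finset (List ℕ)} {Γ : List ℕ → ℝ → ℝ} {q : ℕ} {C : ℝ}
    (h : ∀ α D, 1 ≤ D → |Γ α D| ≤ C * D ^ q) (α : List ℕ) (D : ℝ) (hD : 1 ≤ D) :
    |Gm s Γ α D| ≤ (|C| + |m0| + |m1|) * D ^ (q + 2) := by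
  have d1 : D ^ q ≤ D ^ (q + 2) := pow_le_pow_right₀ hD (by omega)
  have d2 : D ≤ D ^ (q + 2) := le_self_pow₀ hD (by omega)
  have d3 : D ^ 2 ≤ D ^ (q + 2) := pow_le_pow_right₀ hD (by omega)
  have d0 : 0 ≤ D := by linarith
  have a1 : |if α ∈ s then Γ α D else 0| ≤ |C| * D ^ (q + 2) := by
    split_ifs
    · exact (h α D hD).trans (mul_le_mul (le_abs_self C) d1 (by positivity) (abs_nonneg C))
    · rw [abs_zero]; positivity
  have a2 : |if α = [] then -(D * m0) else 0| ≤ |m0| * D ^ (q + 2) := by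
    split_ifs
    · rw [abs_neg, abs_mul, abs_of_nonneg d0, mul_comm]; gcongr
    · rw [abs_zero]; positivity
  have a3 : |if α = [0] then D ^ 2 * m1 else 0| ≤ |m1| * D ^ (q + 2) := by
    split_ifs
    · rw [abs_mul, abs_of_nonneg (by positivity : 0 ≤ D ^ 2), mul_comm]; gcongr
    · rw [abs_zero]; positivity
  refine (abs_add_le _ _).trans ((add_le_add a1 ((abs_add_le _ _).trans (add_le_add a2 a3))).trans
    (le_of_eq ?_))
  ring

lemma sum_Gm (s : Finset (List ℕ)) (Γ : List ℕ → ℝ → ℝ) (D : ℝ) (u v : List ℕ → ℝ) :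
    ∑ α ∈ insert [] (insert [0] s), u α * (Gm s Γ α D * v α) =
      ∑ α ∈ s, u α * (Γ α D * v α) - u [] * (D * m0 * v []) + u [0] * (D ^ 2 * m1 * v [0]) := by
  have e : ∀ α, u α * (Gm s Γ α D * v α) = (if α ∈ s then u α * (Γ α D * v α) else 0) +
      ((if α = [] then -(u α * (D * m0 * v α)) else 0) +
        if α = [0] then u α * (D ^ 2 * m1 * v α) else 0) := fun α => by
    simp only [Gm]
    split_ifs <;> ring
  simp only [e, Finset.sum_add_distrib, Finset.sum_ite_eq', Finset.sum_ite_mem]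
  rw [Finset.inter_eq_right.2 ((Finset.subset_insert _ _).trans (Finset.subset_insert _ _)),
    if_pos (by simp), if_pos (by simp)]
  ring

lemma mint_nil (L : ℝ) (κ : ℝ → ℝ) : mint L [] κ = L := by simp [mint, mono]

lemma mint_zero (L : ℝ) (κ : ℝ → ℝ) : mint L [0] κ = ∫ s in (0 : ℝ)..L, κ s := by
  simp [mint, mono]

lemma loc_bd {c μ x y : ℝ} (hx : 0 ≤ y) (hxy : y ≤ x) :
    2 * ((3 + 8 * 1) * Real.exp (-x) * (c * μ ^ 2)) *
      (2 * (c * μ ^ 2) + (3 + 8 * 1) * Real.exp (-x) * (c * μ ^ 2)) ≤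
      286 * c ^ 2 * (μ ^ 4 * Real.exp (-y)) := by
  have h2 : Real.exp (-x) ≤ 1 := Real.exp_le_one_iff.2 (by linarith)
  have h3 : Real.exp (-x) ≤ Real.exp (-y) := Real.exp_le_exp.2 (by linarith)
  calc _ = 22 * c ^ 2 * μ ^ 4 * (Real.exp (-x) * (2 + 11 * Real.exp (-x))) := by ring
    _ ≤ 22 * c ^ 2 * μ ^ 4 * (Real.exp (-y) * (2 + 11 * 1)) := by gcongr
    _ = _ := by ring

lemma fin_bd {a b c E F K n : ℝ} (ha : 0 ≤ a) (hb : 0 ≤ b) (hc : 0 ≤ c) (hE : 0 ≤ E) (hF : 0 ≤ F)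
    (hK : 1 ≤ K) (hn : n ≤ K) :
    a * E + b * F + n * (a * E + c * F) ≤ (100 * K ^ 3 + (K + 1) * (a + b + c)) * (F + E) := by
  have K0 : 0 ≤ K := by linarith
  calc _ ≤ a * E + b * F + K * (a * E + c * F) := by gcongr
    _ ≤ a * E + b * F + K * (a * E + c * F) + (100 * K ^ 3 * (F + E) + a * F + b * E + c * (F + E) +
        K * (a * F + c * E + b * (F + E))) := le_add_of_nonneg_right (by positivity)
    _ = _ := by ring

end ASM

open ASM in
theorem st_asm (hCOL : St_COL) (hFLAT : St_FLAT) : St_ASM := by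
  intro N hN
  obtain ⟨s, Γ, N', q, hs, ⟨CΓ, hΓ⟩, hC⟩ := hCOL N
  refine ⟨insert [] (insert [0] s), Gm s Γ, N', q + 2, fun α hα => ?_, ⟨_, Gm_bd hΓ⟩, fun K => ?_⟩
  · simp only [Finset.mem_insert] at hα
    rcases hα with rfl | rfl | hα
    · simp [wt]; omega
    · simp [wt]; omega
    · exact hs α hα
  by_cases hK : 1 ≤ K
  swap
  · exact ⟨0, 0, 1, one_pos, fun n Ω γ L h => (hK h.one_le).elim⟩
  obtain ⟨C2, h2⟩ := hC K
  obtain ⟨C3, h3⟩ := hFLAT N K hK
  obtain ⟨c1, hc1, h1⟩ := flat_main hK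
  have k1 := one_le_KT
  set c := c1 + |C2| with hc
  have c0 : 0 ≤ c := by positivity
  set B := 286 * c ^ 2 + |C3| + |C2| with hB
  have B0 : 0 ≤ B := by positivity
  have K0 : 0 < K := by linarith
  refine ⟨100 * K ^ 3 + (K + 1) * B, 32 * KT * (K + 1), (128 * KT * (K + 1))⁻¹, by positivity, ?_⟩
  intro n Ω γ L h μ D hD0 hD hμD hμ
  obtain ⟨a, hb⟩ := h.box
  have hf := h.fam
  have μ0 : 0 < μ := by linarith
  have D0 : 0 < D := by linarith
  have n0 : (0 : ℝ) ≤ n := Nat.cast_nonneg _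
  have hn := h.card
  obtain ⟨δ, hδe⟩ : ∃ δ, δ = D / μ := ⟨_, rfl⟩
  have hδ : 0 < δ := by rw [hδe]; positivity
  have eD : μ * δ = D := by rw [hδe]; field_simp
  have hsm : 100 * K ^ 3 * δ ≤ 1 := by
    rw [hδe, ← mul_div_assoc, div_le_one μ0]
    have : 0 ≤ (K + 1) * B * D := by positivity
    nlinarith
  have hδ0 : δ < K⁻¹ := by
    rw [← one_div, lt_div_iff₀ K0]
    have : K ≤ K ^ 3 := le_self_pow₀ hK (by norm_num)
    have : 0 < K ^ 3 * δ := by positivity
    nlinarith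
  have cc : c1 * μ ^ 2 ≤ c * μ ^ 2 := by
    gcongr; exact le_add_of_nonneg_right (abs_nonneg _)
  have cc2 : C2 * μ ^ 2 ≤ c * μ ^ 2 := by
    gcongr; exact (le_abs_self _).trans (le_add_of_nonneg_left hc1)
  have hP : HL (p0 _ * PK K K μ * p0 _) (c * μ ^ 2) :=
    (h1 μ 0 hμ aestronglyMeasurable_const (by simp) (by simp)).1.mono cc
  have hG : HL (GO μ Ω) (c * μ ^ 2) :=
    HL_transfer (ch_flat K a) hb.sub (fun u hu => hb.pull_mem μ hu) hP
  have a4 := h3 μ (fun z => chiI Ω γ K⁻¹ δ (z - a)) hμ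
    ((hf.meas_chiI hδ hδ0).comp (by fun_prop)).aestronglyMeasurable (fun z => Fam.abs_chiI _ _)
    fun z hz => by simpa using (hb.2 _ (Fam.chiI_mem hz)).2
  have a5 := hf.loc hb hδ hδ0 (by
    rw [eD, Fintype.card_fin]; exact le_trans (by gcongr) hD0) hG hP
  have a2 := fun i => h2 (L i) δ μ (kap (γ i)) ⟨h.bnd i, hδ, eD ▸ hD, hsm⟩
  have a6 := fun i => (hf.col i).loc (h.bnd i).kap hsm hδ hδ0 (by rw [eD]; nlinarith) hG
    ((a2 i).1.mono cc2)
  rw [eD] at a5 a6 a2
  rw [Fintype.card_fin] at a5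
  rw [hf.int_chiI hb hδ hδ0] at a4
  set E := μ ^ 4 * Real.exp (-((128 * KT * (K + 1))⁻¹ * D)) with hE
  set F := D ^ (q + 2) * (μ / μ ^ N) with hF
  have E0 : 0 ≤ E := by positivity
  have F0 : 0 ≤ F := by positivity
  have e1 := loc_bd (c := c) (μ := μ) (x := D / (128 * KT)) (y := (128 * KT * (K + 1))⁻¹ * D)
    (by positivity) (by
      rw [← div_eq_inv_mul]
      exact div_le_div_of_nonneg_left D0.le (by positivity)
        (le_mul_of_one_le_right (by positivity) (by linarith)))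
  have e2 := loc_bd (c := c) (μ := μ) (x := D / (128 * KT * (n + 1)))
    (y := (128 * KT * (K + 1))⁻¹ * D) (by positivity) (by rw [← div_eq_inv_mul]; gcongr)
  have e3 : C3 * (μ ^ N)⁻¹ ≤ |C3| * F := by
    refine mul_le_mul (le_abs_self _) ?_ (by positivity) (abs_nonneg _)
    rw [hF, ← one_div]
    exact le_trans (div_le_div_of_nonneg_right hμ (by positivity))
      (le_mul_of_one_le_left (by positivity) (one_le_pow₀ hD))
  have e4 : C2 * D ^ q * (μ / μ ^ N) ≤ |C2| * F := by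
    rw [mul_assoc]
    refine mul_le_mul (le_abs_self _) ?_ (by positivity) (abs_nonneg _)
    rw [hF]
    gcongr
    omega
  rw [Ft, sum_Gm s Γ D (fun α => μ / μ ^ wt α) (fun α => mI α γ L),
    GO_split hf.opn.measurableSet (ι := Option (Fin n)) (χ := fun o => o.elim (chiI Ω γ K⁻¹ δ)
    fun i => push (γ i) K⁻¹ fun z => chi δ z.im) ?_ ?_ ?_ hG, Fintype.sum_option]
  · simp only [Option.elim]
    have b1 := (abs_sub_le _ _ _).trans (add_le_add (a5.trans e2) (a4.trans e3))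
    have b2 := fun i => (abs_sub_le _ _ _).trans (add_le_add ((a6 i).trans e1) ((a2 i).2.trans e4))
    have b3 := (Finset.abs_sum_le_sum_abs _ _).trans (Finset.sum_le_sum fun i (_ : i ∈ Finset.univ)
      => b2 i)
    refine le_trans (le_of_eq ?_) ((abs_add_le _ _).trans ((add_le_add b1 b3).trans ?_))
    · congr 1
      have w0 : wt [] = 0 := rfl
      have w1 : wt [0] = 1 := rfl
      simp only [mI, mint_nil, mint_zero, w0, w1, mo_scale hδ, m0, m1, Finset.sum_sub_distrib,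
        ← Finset.mul_sum, ← Finset.sum_mul, Finset.sum_comm (s := Finset.univ (α := Fin n))]
      rw [← eD]
      field_simp
      ring
    · rw [Finset.sum_const, Finset.card_univ, Fintype.card_fin, nsmul_eq_mul, ← hE]
      exact fin_bd (by positivity) (abs_nonneg _) (abs_nonneg _) E0 F0 hK hn
  · rintro (_ | i)
    exacts [hf.meas_chiI hδ hδ0, hf.meas_chi hδ hδ0 i]
  · rintro (_ | i) z
    · exact Fam.abs_chiI _ _
    · have := ((hf.col i).mo_chi hδ hδ0).choose_spec.bd z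
      exact (abs_of_nonneg this.1).trans_le this.2
  · intro z hz
    rw [Fintype.sum_option]
    simp only [Option.elim]
    rw [hf.chiI_sq, indicator_of_mem hz]; ring

end Pool.Agent.Lib.ISO
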