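import Pool.Agent.Lib.ISO.BlueV

/-! Size bounds for the one-dimensional Dirichlet problems. -/

open scoped ContDiff Topology
open MeasureTheory Set Filter

noncomputable section

namespace Pool.Agent.Lib.ISO.BND

open Pool.Agent.Lib.MP_312682_mp

variable {δ a : ℝ} {q u f h φ : ℝ → ℝ}

lemma sm_d {E : Type} [NormedAddCommGroup E] [NormedSpace ℝ E] {u : ℝ → E}
    (hu : ContDiff ℝ ∞ u) : ContDiff ℝ ∞ (deriv u) := (contDiff_infty_iff_deriv.1 hu).2

lemma hd {E : Type} [NormedAddCommGroup E] [NormedSpace ℝ E] {u : ℝ → E}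
    (hu : ContDiff ℝ ∞ u) (x : ℝ) : HasDerivAt u (deriv u x) x :=
  ((contDiff_infty_iff_deriv.1 hu).1 x).hasDerivAt

lemma ftc (hδ : 0 < δ) {F G : ℝ → ℝ} (hG : Continuous G)
    (h : ∀ x ∈ Icc 0 δ, HasDerivAt F (G x) x) : ∫ x in (0 : ℝ)..δ, G x = F δ - F 0 :=
  intervalIntegral.integral_eq_sub_of_hasDerivAt
    (fun x hx => h x (by rwa [uIcc_of_le hδ.le] at hx)) (hG.intervalIntegrable _ _)

lemma mono (hδ : 0 < δ) {F G : ℝ → ℝ} (hF : Continuous F) (hG : Continuous G)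
    (h : ∀ x ∈ Icc 0 δ, F x ≤ G x) : ∫ x in (0 : ℝ)..δ, F x ≤ ∫ x in (0 : ℝ)..δ, G x :=
  intervalIntegral.integral_mono_on hδ.le (hF.intervalIntegrable _ _) (hG.intervalIntegrable _ _) h

lemma lin {F G : ℝ → ℝ} (hF : Continuous F) (hG : Continuous G) (s t : ℝ) :
    ∫ x in (0 : ℝ)..δ, (s * F x + t * G x) =
      s * (∫ x in (0 : ℝ)..δ, F x) + t * ∫ x in (0 : ℝ)..δ, G x := by
  rw [intervalIntegral.integral_add (Continuous.intervalIntegrable (by fun_prop) _ _)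
    (Continuous.intervalIntegrable (by fun_prop) _ _), intervalIntegral.integral_const_mul,
    intervalIntegral.integral_const_mul]

lemma absle (hδ : 0 < δ) {F G : ℝ → ℝ} (hF : Continuous F) (hG : Continuous G)
    (h : ∀ x ∈ Icc 0 δ, |F x| ≤ G x) : |∫ x in (0 : ℝ)..δ, F x| ≤ ∫ x in (0 : ℝ)..δ, G x :=
  (intervalIntegral.abs_integral_le_integral_abs hδ.le).trans (mono hδ hF.abs hG h)

/-- maximum principle -/
lemma mp {w : ℝ → ℝ} (hw : ContDiff ℝ ∞ w) (hq : ∀ x ∈ Icc 0 δ, 0 < q x)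
    (h : ∀ x ∈ Icc 0 δ, deriv (deriv w) x ≤ q x * w x) (h0 : 0 ≤ w 0) (h1 : 0 ≤ w δ) :
    ∀ x ∈ Icc 0 δ, 0 ≤ w x := by
  intro x hx
  obtain ⟨y, hy, hmin⟩ := isCompact_Icc.exists_isMinOn ⟨x, hx⟩ hw.continuous.continuousOn
  refine le_trans ?_ (hmin hx)
  by_contra hn
  have hn : w y < 0 := not_le.1 hn
  have y0 : 0 < y := lt_of_le_of_ne hy.1 fun e => by rw [← e] at hn; linarith
  have y1 : y < δ := lt_of_le_of_ne hy.2 fun e => by rw [e] at hn; linarith
  have lm : IsLocalMin w y := hmin.isLocalMin (Icc_mem_nhds y0 y1)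
  have neg : deriv (deriv w) y < 0 := (h y hy).trans_lt (mul_neg_of_pos_of_neg (hq y hy) hn)
  have lM : IsLocalMax w y :=
    isLocalMax_of_deriv_deriv_neg neg lm.deriv_eq_zero hw.continuous.continuousAt
  have e : w =ᶠ[𝓝 y] fun _ => w y := by
    filter_upwards [lm, lM] with z h1 h2 using le_antisymm h2 h1
  rw [e.deriv.deriv_eq] at neg
  simp at neg

lemma green (hδ : 0 < δ) (hq : Continuous q) (hf : Continuous f) (hu : ContDiff ℝ ∞ u)
    (hφ : ContDiff ℝ ∞ φ) (he : ∀ x ∈ Icc 0 δ, deriv (deriv u) x = q x * u x - f x) :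
    ∫ x in (0 : ℝ)..δ, (deriv u x * deriv φ x + (q x * u x - f x) * φ x) =
      deriv u δ * φ δ - deriv u 0 * φ 0 := by
  have c1 := hu.continuous
  have c2 := hφ.continuous
  have c3 := (sm_d hu).continuous
  have c4 := (sm_d hφ).continuous
  refine ftc (F := fun x => deriv u x * φ x) hδ (by fun_prop) fun x hx => ?_
  refine ((hd (sm_d hu) x).mul (hd hφ x)).congr_deriv ?_
  rw [he x hx]; ring

lemma hd_exp (s t x : ℝ) : HasDerivAt (fun x => Real.exp (s * x + t)) (s * Real.exp (s * x + t)) x :=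
  (((hasDerivAt_id x).const_mul s).add_const t).exp.congr_deriv (by simp [mul_comm])

lemma d_exp (s t : ℝ) : deriv (fun x => Real.exp (s * x + t)) = fun x => s * Real.exp (s * x + t) :=
  funext fun x => (hd_exp s t x).deriv

/-- comparison with an exponential -/
lemma cmp (ha : 1 ≤ a) (hq : ∀ x ∈ Icc 0 δ, a ^ 2 / 2 ≤ q x ∧ q x ≤ 2 * a ^ 2)
    (hs : ContDiff ℝ ∞ h) (he : ∀ x ∈ Icc 0 δ, deriv (deriv h) x = q x * h x) (s t : ℝ)
    (hst : s ^ 2 = a ^ 2 / 4) (a0 : 0 ≤ h 0) (a1 : 0 ≤ h δ) (b0 : h 0 ≤ Real.exp (s * 0 + t))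
    (b1 : h δ ≤ Real.exp (s * δ + t)) :
    ∀ x ∈ Icc 0 δ, 0 ≤ h x ∧ h x ≤ Real.exp (s * x + t) := by
  have qp : ∀ x ∈ Icc 0 δ, 0 < q x := fun x hx => lt_of_lt_of_le (by positivity) (hq x hx).1
  intro x hx
  refine ⟨mp hs qp (fun y hy => (he y hy).le) a0 a1 x hx, ?_⟩
  have sm : ContDiff ℝ ∞ fun x => Real.exp (s * x + t) := by fun_prop
  have := mp (w := fun x => Real.exp (s * x + t) - h x) (sm.sub hs) qp (fun y hy => ?_)
    (by simpa using b0) (by simpa using b1) x hx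
  · linarith
  have e1 : deriv (fun x => Real.exp (s * x + t) - h x) =
      fun x => s * Real.exp (s * x + t) - deriv h x :=
    funext fun x => ((hd_exp s t x).sub (hd hs x)).deriv
  rw [e1, (((hd_exp s t y).const_mul s).fun_sub (hd (sm_d hs) y)).deriv, he y hy]
  have := Real.exp_pos (s * y + t)
  have := (hq y hy).1
  nlinarith [sq_nonneg a]

lemma int_exp (hδ : 0 < δ) (s t : ℝ) : s * ∫ x in (0 : ℝ)..δ, Real.exp (s * x + t) =
    Real.exp (s * δ + t) - Real.exp (s * 0 + t) := by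
  rw [← intervalIntegral.integral_const_mul]
  exact ftc (F := fun x => Real.exp (s * x + t)) hδ (by fun_prop) fun x _ => hd_exp s t x

/-- bounds for a harmonic function with unit boundary data -/
lemma harm (hδ : 0 < δ) (ha : 1 ≤ a) (hc : Continuous q)
    (hq : ∀ x ∈ Icc 0 δ, a ^ 2 / 2 ≤ q x ∧ q x ≤ 2 * a ^ 2) (hs : ContDiff ℝ ∞ h)
    (he : ∀ x ∈ Icc 0 δ, deriv (deriv h) x = q x * h x) (hb : ∀ x ∈ Icc 0 δ, 0 ≤ h x ∧ h x ≤ 1)
    (hi : ∫ x in (0 : ℝ)..δ, h x ≤ 2 / a) (hv : (h δ - h 0) ^ 2 = 1) :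
    (∫ x in (0 : ℝ)..δ, deriv h x ^ 2) ≤ deriv h δ * h δ - deriv h 0 * h 0 ∧
      deriv h δ * h δ - deriv h 0 * h 0 ≤ (1 / δ + 4) * a ∧ ∫ x in (0 : ℝ)..δ, h x ^ 2 ≤ 2 / a := by
  have c1 := hs.continuous
  have c3 := (sm_d hs).continuous
  have he' : ∀ x ∈ Icc 0 δ, deriv (deriv h) x = q x * h x - (fun _ => (0 : ℝ)) x :=
    fun x hx => by simpa using he x hx
  refine ⟨?_, ?_, le_trans (mono hδ (by fun_prop) c1 fun x hx => ?_) hi⟩
  · rw [← green hδ hc continuous_const hs hs he']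
    refine mono hδ (by fun_prop) (by fun_prop) fun x hx => ?_
    have := (hq x hx).1
    have : 0 ≤ q x * (h x * h x) := mul_nonneg (by nlinarith [sq_nonneg a]) (mul_self_nonneg _)
    nlinarith
  · have dφ : ∀ x, HasDerivAt (fun x => h 0 + (h δ - h 0) / δ * x) ((h δ - h 0) / δ) x := fun x =>
      (((hasDerivAt_id x).const_mul _).const_add _).congr_deriv (by simp)
    have g := green (φ := fun x => h 0 + (h δ - h 0) / δ * x) hδ hc continuous_const hs
      (by fun_prop) he'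
    have e : h 0 + (h δ - h 0) / δ * δ = h δ := by field_simp; ring
    simp only [(dφ _).deriv, e, mul_zero, add_zero, sub_zero] at g
    rw [← g]
    have m := mono (F := fun x => deriv h x * ((h δ - h 0) / δ) +
      q x * h x * (h 0 + (h δ - h 0) / δ * x))
      (G := fun x => (h δ - h 0) / δ * deriv h x + 2 * a ^ 2 * h x) hδ (by fun_prop) (by fun_prop)
      fun x hx => ?_
    · rw [lin c3 c1, ftc hδ c3 fun x _ => hd hs x] at m
      refine m.trans ?_
      have e2 : (h δ - h 0) / δ * (h δ - h 0) = 1 / δ := by rw [← hv]; ring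
      have : 2 * a ^ 2 * (∫ x in (0 : ℝ)..δ, h x) ≤ 2 * a ^ 2 * (2 / a) := by gcongr
      have e3 : 2 * a ^ 2 * (2 / a) = 4 * a := by field_simp; ring
      have : 1 / δ * 1 ≤ 1 / δ * a := by gcongr
      linarith
    have t0 : 0 ≤ x / δ := div_nonneg hx.1 hδ.le
    have t1 : x / δ ≤ 1 := (div_le_one hδ).2 hx.2
    have u0 := hb 0 ⟨le_rfl, hδ.le⟩
    have u1 := hb δ ⟨hδ.le, le_rfl⟩
    have e4 : h 0 + (h δ - h 0) / δ * x = (1 - x / δ) * h 0 + x / δ * h δ := by ring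
    have p1 : h 0 + (h δ - h 0) / δ * x ≤ 1 := by rw [e4]; nlinarith
    have qx := hq x hx
    have hx0 := (hb x hx).1
    have q0 : 0 ≤ q x * h x := mul_nonneg (by nlinarith [sq_nonneg a]) hx0
    have := mul_le_mul_of_nonneg_left p1 q0
    have := mul_le_mul_of_nonneg_right qx.2 hx0
    linarith
  · have := hb x hx
    nlinarith

/-- bounds for a real solution of the Dirichlet problem -/
lemma diri (hδ : 0 < δ) (ha : 1 ≤ a) (hc : Continuous q)
    (hq : ∀ x ∈ Icc 0 δ, a ^ 2 / 2 ≤ q x ∧ q x ≤ 2 * a ^ 2) (hf : Continuous f)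
    (hu : ContDiff ℝ ∞ u) (he : ∀ x ∈ Icc 0 δ, deriv (deriv u) x = q x * u x - f x)
    (z0 : u 0 = 0) (z1 : u δ = 0) :
    a ^ 4 * (∫ x in (0 : ℝ)..δ, u x ^ 2) ≤ 4 * (∫ x in (0 : ℝ)..δ, f x ^ 2) ∧
      a ^ 2 * (∫ x in (0 : ℝ)..δ, deriv u x ^ 2) ≤ (∫ x in (0 : ℝ)..δ, f x ^ 2) ∧
      ∀ (F : ℝ → ℝ) (w : ℝ), Continuous F → (∀ x, HasDerivAt F (w * f x) x) →
        w ^ 2 * (∫ x in (0 : ℝ)..δ, deriv u x ^ 2) ≤ ∫ x in (0 : ℝ)..δ, F x ^ 2 := by
  have c1 := hu.continuous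
  have c3 := (sm_d hu).continuous
  have g := green hδ hc hf hu hu he
  rw [z0, z1, mul_zero, mul_zero, sub_zero] at g
  have a2 : 0 < a ^ 2 := by positivity
  set G : ℝ → ℝ := fun x => deriv u x * deriv u x + (q x * u x - f x) * u x with hG
  have cG : Continuous G := by rw [hG]; fun_prop
  have qq : ∀ x ∈ Icc 0 δ, a ^ 2 / 2 * u x ^ 2 ≤ q x * u x ^ 2 := fun x hx =>
    mul_le_mul_of_nonneg_right (hq x hx).1 (sq_nonneg _)
  refine ⟨?_, ?_, fun F w cF hF => ?_⟩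
  · have m := mono (F := fun x => a ^ 4 * u x ^ 2 + (-4) * f x ^ 2)
      (G := fun x => (4 * a ^ 2) * G x + 0 * G x) hδ (by fun_prop) (by fun_prop) fun x hx => ?_
    · rw [lin (by fun_prop) (by fun_prop), lin cG cG, g] at m
      linarith
    have := mul_le_mul_of_nonneg_left (qq x hx) a2.le
    have := mul_nonneg a2.le (mul_self_nonneg (deriv u x))
    simp only [hG]
    nlinarith [sq_nonneg (a ^ 2 * u x - 2 * f x)]
  · have m := mono (F := fun x => a ^ 2 * deriv u x ^ 2 + (-1) * f x ^ 2)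
      (G := fun x => a ^ 2 * G x + 0 * G x) hδ (by fun_prop) (by fun_prop) fun x hx => ?_
    · rw [lin (by fun_prop) (by fun_prop), lin cG cG, g] at m
      linarith
    have := mul_le_mul_of_nonneg_left (qq x hx) a2.le
    simp only [hG]
    nlinarith [sq_nonneg (a ^ 2 * u x - f x), sq_nonneg (f x)]
  · have g2 := ftc (F := fun x => F x * u x) (G := fun x => w * f x * u x + F x * deriv u x) hδ
      (by fun_prop) fun x _ => (hF x).mul (hd hu x)
    simp only [z0, z1, mul_zero, sub_zero] at g2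
    have m := mono (F := fun x => w ^ 2 * deriv u x ^ 2 + (-1) * F x ^ 2)
      (G := fun x => (2 * w ^ 2) * G x + (2 * w) * (w * f x * u x + F x * deriv u x)) hδ
      (by fun_prop) (by fun_prop) fun x hx => ?_
    · rw [lin (by fun_prop) (by fun_prop), lin cG (by fun_prop), g, g2] at m
      linarith
    have : 0 ≤ w ^ 2 * (q x * u x ^ 2) :=
      mul_nonneg (sq_nonneg _) (le_trans (by positivity) (qq x hx))
    simp only [hG]
    nlinarith [sq_nonneg (w * deriv u x + F x)]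

lemma d_comp (L : ℂ →L[ℝ] ℝ) {U : ℝ → ℂ} (hU : ContDiff ℝ ∞ U) :
    deriv (fun x => L (U x)) = fun x => L (deriv U x) :=
  funext fun x => (L.hasFDerivAt.comp_hasDerivAt x (hd hU x)).deriv

lemma eq_comp (L : ℂ →L[ℝ] ℝ) {U f : ℝ → ℂ} (hU : ContDiff ℝ ∞ U)
    (he : ∀ x ∈ Icc 0 δ, deriv (deriv U) x = q x * U x - f x) :
    ∀ x ∈ Icc 0 δ, deriv (deriv fun x => L (U x)) x = q x * L (U x) - L (f x) := fun x hx => by
  rw [d_comp L hU, d_comp L (sm_d hU)]
  simp only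
  rw [he x hx, map_sub, ← Complex.real_smul, map_smul, smul_eq_mul]

lemma split {U : ℝ → ℂ} (hU : Continuous U) : nn δ U =
    (∫ x in (0 : ℝ)..δ, Complex.reCLM (U x) ^ 2) + ∫ x in (0 : ℝ)..δ, Complex.imCLM (U x) ^ 2 := by
  rw [← intervalIntegral.integral_add (Continuous.intervalIntegrable (by fun_prop) _ _)
    (Continuous.intervalIntegrable (by fun_prop) _ _)]
  refine intervalIntegral.integral_congr fun x _ => ?_
  simp only [Complex.sq_norm, Complex.normSq_apply, Complex.reCLM_apply, Complex.imCLM_apply]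
  ring

lemma nn_ex (hδ : 0 < δ) (i : ℤ) (c : ℂ) (hc : ‖c‖ = 1) : nn δ (fun x => c * ex δ i x) = 1 := by
  simp only [nn, norm_mul, hc, one_mul, norm_ex_sq hδ]
  simp [hδ.ne']

lemma mode (hδ : 0 < δ) (ha : 1 ≤ a) (hc : Continuous q)
    (hq : ∀ x ∈ Icc 0 δ, a ^ 2 / 2 ≤ q x ∧ q x ≤ 2 * a ^ 2) {g : GD} (hg : Gr q δ g) (i : ℤ) :
    0 ≤ nn δ (deriv (g.G (ex δ i))) ∧
      (a ^ 2 + (2 * Real.pi / δ * i) ^ 2) * nn δ (deriv (g.G (ex δ i))) ≤ 2 := by
  have se := contDiff_ex δ i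
  have ce := se.continuous
  have sU := hg.sm _ se
  have key : ∀ L : ℂ →L[ℝ] ℝ, (a ^ 2 + (2 * Real.pi / δ * i) ^ 2) *
      (∫ x in (0 : ℝ)..δ, L (deriv (g.G (ex δ i)) x) ^ 2) ≤
      (∫ x in (0 : ℝ)..δ, L (1 * ex δ i x) ^ 2) +
        ∫ x in (0 : ℝ)..δ, L (Complex.I * ex δ i x) ^ 2 := fun L => by
    obtain ⟨-, h1, h2⟩ := diri (u := fun x => L (g.G (ex δ i) x)) (f := fun x => L (ex δ i x))
      hδ ha hc hq (by fun_prop) (L.contDiff.comp sU) (eq_comp L sU (hg.eq _ se))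
      (by simp [hg.z0 _ se]) (by simp [hg.z1 _ se])
    have h3 := h2 (fun x => L (Complex.I * ex δ i x)) (-(2 * Real.pi / δ * i)) (by fun_prop)
      fun x => (L.hasFDerivAt.comp_hasDerivAt x ((hd_ex δ i x).const_mul Complex.I)).congr_deriv
        (by
          rw [← smul_eq_mul (-(2 * Real.pi / δ * i)), ← map_smul, Complex.real_smul, ← mul_assoc,
            ← mul_assoc, Complex.I_mul_I]
          simp)
    rw [d_comp L sU] at h1 h3
    simp only [one_mul, neg_sq] at h1 h3 ⊢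
    linarith
  refine ⟨intervalIntegral.integral_nonneg hδ.le fun x _ => by positivity, ?_⟩
  have e1 := nn_ex hδ i 1 (by simp)
  have e2 := nn_ex hδ i Complex.I (by simp)
  rw [split (by fun_prop)] at e1 e2
  rw [split (sm_d sU).continuous, mul_add]
  linarith [key Complex.reCLM, key Complex.imCLM]

lemma tele {κ : ℝ} (hκ : 0 < κ) (ha : 1 ≤ a) {t : ℕ → ℝ} (h0 : ∀ n, 0 ≤ t n)
    (h : ∀ n : ℕ, (a ^ 2 + (κ * (n + 1)) ^ 2) * t n ≤ 2) : Summable t ∧ ∑' n, t n ≤ 4 / κ / a := by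
  have b : ∀ N : ℕ, ∑ n ∈ Finset.range N, t n ≤ 4 / κ / a - 4 / κ / (a + κ * N) := fun N => by
    induction N with
    | zero => simp
    | succ N ih =>
      rw [Finset.sum_range_succ]
      have p0 : 0 < a + κ * N := by positivity
      have p1 : 0 < a + κ * (N + 1) := by positivity
      have : t N ≤ 4 / κ / (a + κ * N) - 4 / κ / (a + κ * (N + 1)) := by
        have e : 4 / κ / (a + κ * N) - 4 / κ / (a + κ * (N + 1)) =
            4 / ((a + κ * N) * (a + κ * (N + 1))) := by field_simp; ring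
        rw [e, le_div_iff₀ (by positivity)]
        have h1 : (a + κ * N) * (a + κ * (N + 1)) ≤ 2 * (a ^ 2 + (κ * (N + 1)) ^ 2) := by
          nlinarith [sq_nonneg (a - κ * (N + 1))]
        nlinarith [mul_le_mul_of_nonneg_left h1 (h0 N), h N]
      push_cast
      linarith
  have b' : ∀ N : ℕ, ∑ n ∈ Finset.range N, t n ≤ 4 / κ / a := fun N =>
    (b N).trans (sub_le_self _ (by positivity))
  exact ⟨summable_of_sum_range_le h0 b', Real.tsum_le_of_sum_range_le h0 b'⟩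

lemma bb_le (hδ : 0 < δ) (ha : 1 ≤ a) (hc : Continuous q)
    (hq : ∀ x ∈ Icc 0 δ, a ^ 2 / 2 ≤ q x ∧ q x ≤ 2 * a ^ 2) {g : GD} (hg : Gr q δ g) :
    |g.bb δ| ≤ (2 + 8 / (2 * Real.pi / δ)) / a := by
  have m := mode hδ ha hc hq hg
  have hκ : 0 < 2 * Real.pi / δ := by have := Real.pi_pos; positivity
  obtain ⟨s1, t1⟩ := tele (t := fun n => nn δ (deriv (g.G (ex δ ((n : ℤ) + 1))))) hκ ha
    (fun n => (m _).1) fun n => by simpa using (m ((n : ℤ) + 1)).2
  obtain ⟨s2, t2⟩ := tele (t := fun n => nn δ (deriv (g.G (ex δ (-((n : ℤ) + 1)))))) hκ ha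
    (fun n => (m _).1) fun n => by
      have := (m (-((n : ℤ) + 1))).2
      rw [Int.cast_neg, mul_neg, neg_sq] at this
      simpa using this
  have hs := HasSum.of_add_one_of_neg_add_one
    (f := fun i : ℤ => nn δ (deriv (g.G (ex δ i)))) s1.hasSum s2.hasSum
  have z : nn δ (deriv (g.G (ex δ 0))) ≤ 2 / a := by
    have h1 := (m 0).2
    have h2 := (m 0).1
    rw [le_div_iff₀ (by positivity)]
    simp only [Int.cast_zero, mul_zero] at h1
    nlinarith [mul_nonneg (mul_nonneg (sub_nonneg.2 ha) (le_trans zero_le_one ha)) h2]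
  rw [GD.bb, abs_of_nonneg (tsum_nonneg fun i => (m i).1), hs.tsum_eq]
  have e : (2 + 8 / (2 * Real.pi / δ)) / a =
      4 / (2 * Real.pi / δ) / a + 2 / a + 4 / (2 * Real.pi / δ) / a := by ring
  rw [e]
  linarith

/-- exponentially small flux at the far end -/
lemma far (hδ : 0 < δ) (ha : 1 ≤ a) (hc : Continuous q)
    (hq : ∀ x ∈ Icc 0 δ, a ^ 2 / 2 ≤ q x ∧ q x ≤ 2 * a ^ 2) (hs : ContDiff ℝ ∞ h)
    (he : ∀ x ∈ Icc 0 δ, deriv (deriv h) x = q x * h x)
    (hb : ∀ x ∈ Icc 0 δ, 0 ≤ h x ∧ h x ≤ Real.exp (-(a / 2) * x + 0)) (v0 : h 0 = 1)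
    (v1 : h δ = 0) :
    |deriv h δ| ≤ (1 / δ + 2 * δ + 1) * (32 / δ ^ 2) * Real.exp (-(δ / 4 * a)) := by
  have c1 := hs.continuous
  have g := ftc (F := fun x => deriv h x * (x * Real.exp (a / 2 * x + 0)) -
      h x * (Real.exp (a / 2 * x + 0) + x * (a / 2 * Real.exp (a / 2 * x + 0))))
    (G := fun x => h x * Real.exp (a / 2 * x + 0) * ((q x - a ^ 2 / 4) * x - a)) hδ (by fun_prop)
    fun x hx => (((hd (sm_d hs) x).mul ((hasDerivAt_id' x).mul (hd_exp _ _ x))).sub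
      ((hd hs x).mul ((hd_exp _ _ x).add ((hasDerivAt_id' x).mul
        ((hd_exp _ _ x).const_mul _))))).congr_deriv
      (by simp only [he x hx, Pi.mul_apply, Pi.add_apply]; ring)
  have m := absle (F := fun x => h x * Real.exp (a / 2 * x + 0) * ((q x - a ^ 2 / 4) * x - a))
    (G := fun _ => (2 * δ + 1) * a ^ 2) hδ (by fun_prop) continuous_const fun x hx => ?_
  · rw [g] at m
    simp only [v0, v1, mul_zero, zero_mul, add_zero, sub_zero, Real.exp_zero, one_mul,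
      intervalIntegral.integral_const, smul_eq_mul, zero_sub, sub_neg_eq_add] at m
    have E := Real.exp_pos (a / 2 * δ)
    have a2 : 1 ≤ a ^ 2 := by nlinarith
    have m2 : |deriv h δ| * (δ * Real.exp (a / 2 * δ)) ≤ (1 + δ * (2 * δ + 1)) * a ^ 2 := by
      have := abs_sub (deriv h δ * (δ * Real.exp (a / 2 * δ)) + 1) 1
      rw [add_sub_cancel_right, abs_mul, abs_of_pos (by positivity : 0 < δ * Real.exp (a / 2 * δ)),
        abs_one] at this
      nlinarith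
    have e1 : Real.exp (a / 2 * δ) = Real.exp (δ / 4 * a) * Real.exp (δ / 4 * a) := by
      rw [← Real.exp_add]; ring_nf
    have e2 : (δ / 4 * a) ^ 2 / 2 ≤ Real.exp (δ / 4 * a) := by
      simpa using Real.pow_div_factorial_le_exp (δ / 4 * a) (by positivity) 2
    have E' := Real.exp_pos (δ / 4 * a)
    have e3 : a ^ 2 ≤ 32 / δ ^ 2 * Real.exp (δ / 4 * a) := by
      rw [div_mul_eq_mul_div, le_div_iff₀ (by positivity)]
      nlinarith
    have m3 : |deriv h δ| * (δ * Real.exp (δ / 4 * a)) ≤ (1 + δ * (2 * δ + 1)) * (32 / δ ^ 2) := by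
      refine le_of_mul_le_mul_right ?_ E'
      have := mul_le_mul_of_nonneg_left e3 (by positivity : 0 ≤ 1 + δ * (2 * δ + 1))
      rw [e1] at m2
      linarith
    rw [Real.exp_neg, ← div_eq_mul_inv, le_div_iff₀ E']
    refine le_of_mul_le_mul_right ?_ hδ
    have e4 : (1 / δ + 2 * δ + 1) * (32 / δ ^ 2) * δ = (1 + δ * (2 * δ + 1)) * (32 / δ ^ 2) := by
      field_simp; ring
    linarith
  have E := Real.exp_pos (a / 2 * x + 0)
  have b := hb x hx
  have p : h x * Real.exp (a / 2 * x + 0) ≤ 1 := by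
    refine (mul_le_mul_of_nonneg_right b.2 E.le).trans (le_of_eq ?_)
    rw [← Real.exp_add]; simp
  have qx := hq x hx
  have r : |(q x - a ^ 2 / 4) * x - a| ≤ (2 * δ + 1) * a ^ 2 := by
    have r1 : 0 ≤ (q x - a ^ 2 / 4) * x := mul_nonneg (by nlinarith [sq_nonneg a]) hx.1
    have r2 : (q x - a ^ 2 / 4) * x ≤ 2 * a ^ 2 * δ :=
      mul_le_mul (by nlinarith [sq_nonneg a]) hx.2 hx.1 (by positivity)
    have r3 : 0 ≤ 2 * a ^ 2 * δ := by positivity
    rw [abs_le]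
    constructor <;> nlinarith
  rw [abs_mul, abs_of_nonneg (mul_nonneg b.1 E.le)]
  exact (mul_le_mul_of_nonneg_right p (abs_nonneg _)).trans (by rwa [one_mul])

lemma pair (hδ : 0 < δ) (ha : 1 ≤ a) (hu : Continuous u) (hh : Continuous h)
    (h1 : ∫ x in (0 : ℝ)..δ, u x ^ 2 ≤ 8 / a ^ 5) (h2 : ∫ x in (0 : ℝ)..δ, h x ^ 2 ≤ 2 / a) :
    |∫ x in (0 : ℝ)..δ, u x * h x| ≤ 5 / a ^ 3 := by
  have a2 : 0 < a ^ 2 := by positivity
  have m := absle (F := fun x => u x * h x)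
    (G := fun x => a ^ 2 / 2 * u x ^ 2 + 1 / (2 * a ^ 2) * h x ^ 2) hδ (by fun_prop) (by fun_prop)
    fun x _ => ?_
  · rw [lin (by fun_prop) (by fun_prop)] at m
    refine m.trans (le_trans (b := a ^ 2 / 2 * (8 / a ^ 5) + 1 / (2 * a ^ 2) * (2 / a))
      (by gcongr) (le_of_eq ?_))
    field_simp; ring
  refine le_of_mul_le_mul_left ?_ a2
  have e : a ^ 2 * (a ^ 2 / 2 * u x ^ 2 + 1 / (2 * a ^ 2) * h x ^ 2) =
      ((a ^ 2 * |u x|) ^ 2 + |h x| ^ 2) / 2 := by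
    rw [mul_pow, sq_abs, sq_abs]; field_simp
  rw [e, abs_mul]
  nlinarith [sq_nonneg (a ^ 2 * |u x| - |h x|)]

lemma uw (hδ : 0 < δ) (ha : 1 ≤ a) (hc : Continuous q)
    (hq : ∀ x ∈ Icc 0 δ, a ^ 2 / 2 ≤ q x ∧ q x ≤ 2 * a ^ 2) {g : GD} (hg : Gr q δ g)
    (hs : ContDiff ℝ ∞ h) (h2 : ∫ x in (0 : ℝ)..δ, h x ^ 2 ≤ 2 / a) :
    Continuous (fun x => (g.G (fun y => h y) x).re) ∧
      ∫ x in (0 : ℝ)..δ, (g.G (fun y => h y) x).re ^ 2 ≤ 8 / a ^ 5 := by
  have se : ContDiff ℝ ∞ fun y => (h y : ℂ) := Complex.ofRealCLM.contDiff.comp hs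
  have sU := hg.sm _ se
  refine ⟨Complex.continuous_re.comp sU.continuous, ?_⟩
  obtain ⟨h1, -⟩ := diri (u := fun x => Complex.reCLM (g.G (fun y => h y) x)) (f := h)
    hδ ha hc hq hs.continuous (Complex.reCLM.contDiff.comp sU)
    (eq_comp Complex.reCLM sU (hg.eq _ se)) (by simp [hg.z0 _ se]) (by simp [hg.z1 _ se])
  rw [le_div_iff₀ (by positivity)]
  rw [le_div_iff₀ (by positivity)] at h2
  have := mul_le_mul_of_nonneg_right h1 (le_trans zero_le_one ha)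
  simp only [Complex.reCLM_apply] at this
  nlinarith

end Pool.Agent.Lib.ISO.BND

namespace Pool.Agent.Lib.ISO

open BND

theorem st_bnd : St_BND := by
  intro δ hδ
  have hπ := Real.pi_pos
  obtain ⟨A, hA⟩ : ∃ A, A = (1 / δ + 2 * δ + 1) * (32 / δ ^ 2) := ⟨_, rfl⟩
  obtain ⟨B, hB⟩ : ∃ B, B = 8 / (2 * Real.pi / δ) := ⟨_, rfl⟩
  have A0 : 0 ≤ A := by rw [hA]; positivity
  have B0 : 0 ≤ B := by rw [hB]; positivity
  have D0 : 0 ≤ 1 / δ := by positivity
  refine ⟨1 / δ + 8 + δ + A + B, δ / 4, by positivity, fun q a g ha sq hq hg => ?_⟩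
  have hc := sq.continuous
  have a0 : 0 < a := by positivity
  have b0 := cmp ha hq hg.s0 hg.e0 (-(a / 2)) 0 (by ring) (by simp [hg.v00]) (by simp [hg.v01])
    (by simp [hg.v00]) (by rw [hg.v01]; positivity)
  have b1 := cmp ha hq hg.s1 hg.e1 (a / 2) (-(a / 2 * δ)) (by ring) (by simp [hg.v10])
    (by simp [hg.v11]) (by rw [hg.v10]; positivity) (by simp [hg.v11])
  have c0 := hg.s0.continuous
  have c1 := hg.s1.continuous
  obtain ⟨p1, p2, p3⟩ := harm hδ ha hc hq hg.s0 hg.e0 (fun x hx => ⟨(b0 x hx).1, (b0 x hx).2.trans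
      (Real.exp_le_one_iff.2 (by nlinarith [hx.1]))⟩)
    ((BND.mono hδ c0 (by fun_prop) fun x hx => (b0 x hx).2).trans (by
      have := int_exp hδ (-(a / 2)) 0
      have := Real.exp_pos (-(a / 2) * δ + 0)
      rw [le_div_iff₀ a0]
      simp only [mul_zero, add_zero, Real.exp_zero] at *
      linarith)) (by simp [hg.v00, hg.v01])
  obtain ⟨r1, r2, r3⟩ := harm hδ ha hc hq hg.s1 hg.e1 (fun x hx => ⟨(b1 x hx).1, (b1 x hx).2.trans
      (Real.exp_le_one_iff.2 (by nlinarith [hx.2]))⟩)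
    ((BND.mono hδ c1 (by fun_prop) fun x hx => (b1 x hx).2).trans (by
      have := int_exp hδ (a / 2) (-(a / 2 * δ))
      have := Real.exp_pos (a / 2 * 0 + -(a / 2 * δ))
      rw [le_div_iff₀ a0]
      simp only [add_neg_cancel, Real.exp_zero] at *
      linarith)) (by simp [hg.v10, hg.v11])
  rw [hg.v00, hg.v01] at p1 p2
  rw [hg.v10, hg.v11] at r1 r2
  obtain ⟨u0, w0⟩ := uw hδ ha hc hq hg hg.s0 p3
  obtain ⟨u1, w1⟩ := uw hδ ha hc hq hg hg.s1 r3
  have nn0 : ∀ F : ℝ → ℝ, 0 ≤ ∫ x in (0 : ℝ)..δ, F x ^ 2 := fun F =>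
    intervalIntegral.integral_nonneg hδ.le fun x _ => sq_nonneg _
  have k1 : (1 / δ + 4) * a ≤ (1 / δ + 8 + δ + A + B) * a :=
    mul_le_mul_of_nonneg_right (by linarith) a0.le
  have k2 : ∀ s t : ℝ, s ≤ 8 + B → 0 < t → s / t ≤ (1 / δ + 8 + δ + A + B) / t :=
    fun s t hs ht => by gcongr; linarith
  have E := Real.exp_pos (-(δ / 4 * a))
  refine ⟨?_, ?_, ?_, ?_, (pair hδ ha u0 c0 w0 p3).trans (k2 _ _ (by linarith) (by positivity)),
    (pair hδ ha u1 c1 w1 r3).trans (k2 _ _ (by linarith) (by positivity)),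
    (pair hδ ha u1 c0 w1 p3).trans (k2 _ _ (by linarith) (by positivity)), ?_, ?_,
    (bb_le hδ ha hc hq hg).trans (k2 _ _ (by linarith) a0), by linarith, by linarith,
    w0.trans (k2 _ _ (by linarith) (by positivity)),
    w1.trans (k2 _ _ (by linarith) (by positivity))⟩
  · have := nn0 (deriv g.h0)
    rw [GD.N0, abs_of_nonneg (by linarith)]
    linarith
  · have := nn0 (deriv g.h1)
    rw [GD.N1, abs_of_nonneg (by linarith)]
    linarith
  · rw [GD.M0, abs_of_nonneg (nn0 _)]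
    exact p3.trans (k2 _ _ (by linarith) a0)
  · rw [GD.M1, abs_of_nonneg (nn0 _)]
    exact r3.trans (k2 _ _ (by linarith) a0)
  · refine (far hδ ha hc hq hg.s0 hg.e0 b0 hg.v00 hg.v01).trans ?_
    rw [← hA]
    gcongr
    linarith
  · have m := absle (F := fun x => g.h0 x * g.h1 x) (G := fun _ => Real.exp (-(δ / 4 * a))) hδ
      (by fun_prop) continuous_const fun x hx => ?_
    · refine m.trans ?_
      rw [intervalIntegral.integral_const, smul_eq_mul]
      gcongr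
      linarith
    rw [abs_of_nonneg (mul_nonneg (b0 x hx).1 (b1 x hx).1)]
    refine (mul_le_mul (b0 x hx).2 (b1 x hx).2 (b1 x hx).1 (Real.exp_pos _).le).trans ?_
    rw [← Real.exp_add, Real.exp_le_exp]
    nlinarith [mul_pos hδ a0]

end Pool.Agent.Lib.ISO
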