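import Pool.Agent.Lib.ISO.BlueV
import Pool.Agent.Lib.MP_312682_mp.Lat

/-! The bubble sums: Riemann sums of products of two shifted symbols. -/

open MeasureTheory Set Filter Finset

noncomputable section

namespace Pool.Agent.Lib.ISO

namespace BUB

/-- the derivatives of `(1 + x²) ^ (-β)` -/
def D : ℕ → ℝ → ℝ → ℝ
  | 0, β, x => (1 + x ^ 2) ^ (-β)
  | 1, β, x => -2 * β * x * (1 + x ^ 2) ^ (-(β + 1))
  | j + 2, β, x => 2 * β * (2 * β + 1) * D j (β + 1) x - 4 * β * (β + 1) * D j (β + 2) x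

lemma pos1 (x : ℝ) : 0 < 1 + x ^ 2 := by positivity

lemma D0_pos (β x : ℝ) : 0 < D 0 β x := Real.rpow_pos_of_pos (pos1 x) _

lemma D0_succ (β x : ℝ) : D 0 (β + 1) x = D 0 β x / (1 + x ^ 2) := by
  simp only [D]
  rw [neg_add, Real.rpow_add (pos1 x), Real.rpow_neg_one, div_eq_mul_inv]

lemma D0_add (α β x : ℝ) : D 0 α x * D 0 β x = D 0 (α + β) x := by
  simp only [D]
  rw [neg_add, Real.rpow_add (pos1 x)]

lemma D0_anti {α β : ℝ} (h : α ≤ β) (x : ℝ) : D 0 β x ≤ D 0 α x :=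
  Real.rpow_le_rpow_of_exponent_le (by nlinarith [sq_nonneg x]) (neg_le_neg h)

lemma D0_le {s : ℝ} (h : 1 ≤ s) (x : ℝ) : D 0 s x ≤ 1 / (1 + x ^ 2) := by
  refine (D0_anti h x).trans (le_of_eq ?_)
  simp only [D]
  rw [Real.rpow_neg_one, one_div]

lemma D0_deriv (β x : ℝ) : HasDerivAt (D 0 β) (D 1 β x) x := by
  have h1 : HasDerivAt (fun x : ℝ => 1 + x ^ 2) (2 * x) x := by
    simpa using (hasDerivAt_pow 2 x).const_add 1
  have h2 := h1.rpow_const (p := -β) (Or.inl (pos1 x).ne')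
  refine h2.congr_deriv ?_
  simp only [D]
  rw [show -β - 1 = -(β + 1) by ring]
  ring

lemma D_deriv : ∀ (j : ℕ) (β x : ℝ), HasDerivAt (D j β) (D (j + 1) β x) x
  | 0, β, x => D0_deriv β x
  | 1, β, x => by
    have h1 := ((hasDerivAt_id x).const_mul (-2 * β)).mul (D0_deriv (β + 1) x)
    refine h1.congr_deriv ?_
    have e1 : D 1 (β + 1) x = -2 * (β + 1) * x * D 0 (β + 1 + 1) x := rfl
    have e2 : D (1 + 1) β x = 2 * β * (2 * β + 1) * D 0 (β + 1) x - 4 * β * (β + 1) * D 0 (β + 2) x := rfl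
    have e3 : D 0 (β + 2) x = D 0 (β + 1 + 1) x := by congr 1; ring
    rw [e1, e2, e3, D0_succ (β + 1)]
    have := (pos1 x).ne'
    simp only [id]
    field_simp
    ring
  | j + 2, β, x => ((D_deriv j (β + 1) x).const_mul _).sub ((D_deriv j (β + 2) x).const_mul _)

lemma D_cont (j : ℕ) (β : ℝ) : Continuous (D j β) :=
  continuous_iff_continuousAt.2 fun x => (D_deriv j β x).continuousAt

lemma D_bd : ∀ (j : ℕ) (β : ℝ), ∃ C, 0 ≤ C ∧ ∀ x, |D j β x| ≤ C * D 0 β x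
  | 0, β => ⟨1, zero_le_one, fun x => by rw [abs_of_pos (D0_pos β x), one_mul]⟩
  | 1, β => ⟨2 * |β|, by positivity, fun x => by
    have e1 : D 1 β x = -2 * β * (x * D 0 (β + 1) x) := by simp only [D]; ring
    have h1 : |x| / (1 + x ^ 2) ≤ 1 := by
      rw [div_le_one (pos1 x), ← sq_abs]
      nlinarith [sq_nonneg (|x| - 1), abs_nonneg x]
    have h2 := D0_pos β x
    rw [e1, D0_succ, abs_mul, abs_mul, abs_mul, abs_div, abs_of_pos h2, abs_of_pos (pos1 x), abs_neg, abs_two]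
    refine mul_le_mul_of_nonneg_left ?_ (by positivity)
    calc |x| * (D 0 β x / (1 + x ^ 2)) = |x| / (1 + x ^ 2) * D 0 β x := by ring
      _ ≤ 1 * D 0 β x := mul_le_mul_of_nonneg_right h1 h2.le
      _ = _ := one_mul _⟩
  | j + 2, β => by
    obtain ⟨C1, h1, k1⟩ := D_bd j (β + 1)
    obtain ⟨C2, h2, k2⟩ := D_bd j (β + 2)
    refine ⟨|2 * β * (2 * β + 1)| * C1 + |4 * β * (β + 1)| * C2, by positivity, fun x => ?_⟩
    have a1 := (k1 x).trans (mul_le_mul_of_nonneg_left (D0_anti (by linarith : β ≤ β + 1) x) h1)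
    have a2 := (k2 x).trans (mul_le_mul_of_nonneg_left (D0_anti (by linarith : β ≤ β + 2) x) h2)
    refine (abs_sub _ _).trans ?_
    rw [abs_mul (2 * β * (2 * β + 1)), abs_mul (4 * β * (β + 1)), add_mul, mul_assoc _ C1, mul_assoc _ C2]
    exact add_le_add (mul_le_mul_of_nonneg_left a1 (abs_nonneg _)) (mul_le_mul_of_nonneg_left a2 (abs_nonneg _))

lemma D_bdN (N : ℕ) (β : ℝ) : ∃ C, 0 ≤ C ∧ ∀ j ≤ N, ∀ x, |D j β x| ≤ C * D 0 β x := by
  choose C h0 hC using fun j => D_bd j β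
  refine ⟨∑ j ∈ range (N + 1), C j, sum_nonneg fun j _ => h0 j, fun j hj x => (hC j x).trans ?_⟩
  exact mul_le_mul_of_nonneg_right (single_le_sum (fun j _ => h0 j) (mem_range.2 (by omega))) (D0_pos β x).le

lemma peetre (β k : ℝ) : ∃ C, 0 ≤ C ∧ ∀ x t, |t| ≤ k → D 0 β (x + t) ≤ C * D 0 β x := by
  have hc : (0 : ℝ) < 2 * (1 + k ^ 2) := by positivity
  refine ⟨(2 * (1 + k ^ 2)) ^ |β|, by positivity, fun x t ht => ?_⟩
  have h0 : t ^ 2 ≤ k ^ 2 := by rw [← sq_abs]; exact pow_le_pow_left₀ (abs_nonneg t) ht 2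
  have key : ∀ y s : ℝ, s ^ 2 ≤ k ^ 2 → 1 + (y + s) ^ 2 ≤ 2 * (1 + k ^ 2) * (1 + y ^ 2) := fun y s hs => by
    nlinarith [sq_nonneg (y - s), sq_nonneg (k * y), sq_nonneg y, sq_nonneg k]
  simp only [D]
  rcases le_total 0 β with h | h
  · have h1 := key (x + t) (-t) (by rwa [neg_sq])
    rw [add_neg_cancel_right] at h1
    have h2 := Real.rpow_le_rpow (pos1 x).le h1 h
    rw [Real.mul_rpow hc.le (pos1 _).le] at h2
    rw [abs_of_nonneg h, Real.rpow_neg (pos1 _).le, Real.rpow_neg (pos1 _).le, ← div_eq_mul_inv,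
      inv_eq_one_div, div_le_div_iff₀ (Real.rpow_pos_of_pos (pos1 _) _) (Real.rpow_pos_of_pos (pos1 _) _), one_mul]
    exact h2
  · have h2 := Real.rpow_le_rpow (pos1 _).le (key x t h0) (neg_nonneg.2 h)
    rw [Real.mul_rpow hc.le (pos1 _).le] at h2
    rwa [abs_of_nonpos h]

/-- the derivatives of a product -/
def W : ℕ → (ℕ → ℝ → ℝ) → (ℕ → ℝ → ℝ) → ℝ → ℝ
  | 0, u, v, x => u 0 x * v 0 x
  | j + 1, u, v, x => W j (fun i => u (i + 1)) v x + W j u (fun i => v (i + 1)) x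

lemma W_deriv (j : ℕ) : ∀ (u v : ℕ → ℝ → ℝ), (∀ i x, HasDerivAt (u i) (u (i + 1) x) x) →
    (∀ i x, HasDerivAt (v i) (v (i + 1) x) x) → ∀ x, HasDerivAt (W j u v) (W (j + 1) u v x) x := by
  induction j with
  | zero => exact fun u v hu hv x => (hu 0 x).mul (hv 0 x)
  | succ j ih =>
    exact fun u v hu hv x => (ih _ v (fun i => hu (i + 1)) hv x).add (ih u _ hu (fun i => hv (i + 1)) x)

lemma W_bd (j : ℕ) : ∀ (u v : ℕ → ℝ → ℝ) (x A B : ℝ), (∀ i ≤ j, |u i x| ≤ A) → (∀ i ≤ j, |v i x| ≤ B) →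
    |W j u v x| ≤ 2 ^ j * (A * B) := by
  induction j with
  | zero =>
    intro u v x A B hu hv
    rw [pow_zero, one_mul]
    exact (abs_mul _ _).le.trans (mul_le_mul (hu 0 le_rfl) (hv 0 le_rfl) (abs_nonneg _)
      ((abs_nonneg _).trans (hu 0 le_rfl)))
  | succ j ih =>
    intro u v x A B hu hv
    have h1 := ih (fun i => u (i + 1)) v x A B (fun i hi => hu _ (by omega)) fun i hi => hv _ (by omega)
    have h2 := ih u (fun i => v (i + 1)) x A B (fun i hi => hu _ (by omega)) fun i hi => hv _ (by omega)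
    refine (abs_add_le _ _).trans ?_
    rw [pow_succ]
    linarith

lemma taylor (n : ℕ) : ∀ (u : ℕ → ℝ → ℝ) (B κ : ℝ), (∀ i x, HasDerivAt (u i) (u (i + 1) x) x) → 0 ≤ κ →
    (∀ t ∈ Set.Icc 0 κ, |u n t| ≤ B) →
    |u 0 κ - ∑ j ∈ range n, κ ^ j / j.factorial * u j 0| ≤ B * κ ^ n := by
  induction n with
  | zero => intro u B κ _ hκ hB; simpa using hB κ ⟨hκ, le_rfl⟩
  | succ n ih =>
    intro u B κ hu hκ hB
    have hB0 : 0 ≤ B := (abs_nonneg _).trans (hB κ ⟨hκ, le_rfl⟩)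
    have hd : ∀ t, HasDerivAt (fun t => u 0 t - ∑ j ∈ range (n + 1), t ^ j / j.factorial * u j 0)
        (u 1 t - ∑ j ∈ range n, t ^ j / j.factorial * u (j + 1) 0) t := fun t => by
      refine (hu 0 t).sub ?_
      simp only [sum_range_succ']
      refine HasDerivAt.add (f := fun t => ∑ j ∈ range n, t ^ (j + 1) / (j + 1).factorial * u (j + 1) 0)
        (g := fun t => t ^ 0 / (0 : ℕ).factorial * u 0 0) (HasDerivAt.fun_sum fun j _ => ?_)
        (by simpa using hasDerivAt_const t (u 0 0)) |>.congr_deriv (add_zero _)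
      refine (((hasDerivAt_pow (j + 1) t).div_const _).mul_const _).congr_deriv ?_
      have : (j.factorial : ℝ) ≠ 0 := by positivity
      rw [Nat.factorial_succ, Nat.add_sub_cancel]
      push_cast
      field_simp
    have h1 := norm_image_sub_le_of_norm_deriv_le_segment' (a := 0) (b := κ) (C := B * κ ^ n)
      (fun t _ => (hd t).hasDerivWithinAt) (fun t ht => by
        refine (ih (fun i => u (i + 1)) B t (fun i => hu (i + 1)) ht.1
          fun s hs => hB s ⟨hs.1, hs.2.trans ht.2.le⟩).trans ?_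
        exact mul_le_mul_of_nonneg_left (pow_le_pow_left₀ ht.1 ht.2.le n) hB0) κ ⟨hκ, le_rfl⟩
    have e : u 0 0 - ∑ j ∈ range (n + 1), (0 : ℝ) ^ j / j.factorial * u j 0 = 0 := by
      simp [sum_range_succ']
    rw [e, sub_zero, sub_zero, Real.norm_eq_abs, mul_assoc, ← pow_succ] at h1
    exact h1

lemma integrable_of_le {f : ℝ → ℝ} (hf : Continuous f) (C : ℝ) (h : ∀ x, |f x| ≤ C / (1 + x ^ 2)) :
    Integrable f :=
  (integrable_inv_one_add_sq.const_mul C).mono' hf.aestronglyMeasurable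
    (Eventually.of_forall fun x => by rw [← div_eq_mul_inv]; exact h x)

/-- the real form of the Riemann sum estimate -/
lemma poi (hP : St_POI) (N : ℕ) : ∃ c, ∀ (g : ℕ → ℝ → ℝ) (C h : ℝ),
    (∀ j x, HasDerivAt (g j) (g (j + 1) x) x) → (∀ j ≤ N + 2, ∀ x, |g j x| ≤ C / (1 + x ^ 2)) →
    0 < h → h ≤ 1 → (Summable fun n : ℤ => g 0 (h * n)) ∧
      |h * ∑' n : ℤ, g 0 (h * n) - ∫ x, g 0 x| ≤ c * C * h ^ N := by
  obtain ⟨c, hc⟩ := hP N
  refine ⟨c, fun g C h hd hb h0 h1 => ?_⟩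
  obtain ⟨k1, k2⟩ := hc (fun j x => (g j x : ℂ)) C h (fun j x => (hd j x).ofReal_comp)
    (fun j hj x => by rw [Complex.norm_real]; exact hb j hj x) h0 h1
  refine ⟨Complex.summable_ofReal.1 k1, ?_⟩
  rwa [← Complex.ofReal_tsum, integral_complex_ofReal, ← Complex.ofReal_mul, ← Complex.ofReal_sub,
    Complex.norm_real] at k2

lemma int_D0 (hP : St_POI) {s : ℝ} (hs : 1 ≤ s) :
    ∫ x, D 0 s x = √Real.pi * Real.Gamma (s - 1 / 2) / Real.Gamma s := by
  obtain ⟨c, hc⟩ := poi hP 1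
  obtain ⟨C, h0, hC⟩ := D_bdN 3 s
  obtain ⟨C', hC'⟩ := MP_312682_mp.lat_est (a := s) (by linarith)
  have key : ∀ h : ℝ, 0 < h → h ≤ 1 →
      |(∫ x, D 0 s x) - √Real.pi * Real.Gamma (s - 1 / 2) / Real.Gamma s| ≤ (|c * C| + |C'|) * h := by
    intro h k0 k1
    have a1 := (hc (fun j => D j s) C h (fun j => D_deriv j s) (fun j hj x => (hC j hj x).trans (by
      rw [div_eq_mul_one_div]; exact mul_le_mul_of_nonneg_left (D0_le hs x) h0)) k0 k1).2
    have a2 := hC' h 1 k0 one_pos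
    have e : ∀ n : ℤ, (1 / ((h * n) ^ 2 + 1 ^ 2)) ^ s = D 0 s (h * n) := fun n => by
      simp only [D]
      rw [one_pow, add_comm, one_div, Real.inv_rpow (pos1 _).le, Real.rpow_neg (pos1 _).le]
    simp only [e] at a2
    simp only [one_pow, div_one, Real.one_rpow, mul_one] at a2
    have a3 : c * C * h ^ 1 ≤ |c * C| * h := by
      rw [pow_one]; exact mul_le_mul_of_nonneg_right (le_abs_self _) k0.le
    have a4 : C' * h ^ 4 ≤ |C'| * h :=
      mul_le_mul (le_abs_self _) (pow_le_of_le_one k0.le k1 (by norm_num)) (by positivity) (abs_nonneg _)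
    rw [abs_sub_comm] at a1
    have := abs_sub_le (∫ x, D 0 s x) (h * ∑' n : ℤ, D 0 s (h * n))
      (√Real.pi * Real.Gamma (s - 1 / 2) / Real.Gamma s)
    linarith
  refine sub_eq_zero.1 (abs_nonpos_iff.1 (le_of_forall_pos_le_add fun ε hε => ?_))
  have hK : 0 ≤ |c * C| + |C'| := by positivity
  have h1 := key (min 1 (ε / (|c * C| + |C'| + 1))) (lt_min one_pos (by positivity)) (min_le_left _ _)
  refine h1.trans ((mul_le_mul_of_nonneg_left (min_le_right _ _) hK).trans ?_)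
  rw [zero_add, ← mul_div_assoc, div_le_iff₀ (by positivity)]
  nlinarith

lemma int_mul (j : ℕ) {α β : ℝ} (h : 1 ≤ α + β) : Integrable fun x => D 0 α x * D j β x := by
  obtain ⟨C, h0, hC⟩ := D_bd j β
  refine integrable_of_le ((D_cont 0 α).mul (D_cont j β)) C fun x => ?_
  rw [abs_mul, abs_of_pos (D0_pos α x), div_eq_mul_one_div]
  refine (mul_le_mul_of_nonneg_left (hC x) (D0_pos α x).le).trans ?_
  rw [mul_left_comm, D0_add]
  exact mul_le_mul_of_nonneg_left (D0_le h x) h0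

lemma int_rec (j : ℕ) {α β : ℝ} (h : 1 ≤ α + β) : ∫ x, D 0 α x * D (j + 2) β x =
    2 * β * (2 * β + 1) * (∫ x, D 0 α x * D j (β + 1) x) -
      4 * β * (β + 1) * ∫ x, D 0 α x * D j (β + 2) x := by
  rw [← integral_const_mul, ← integral_const_mul, ← integral_sub
    ((int_mul j (by linarith)).const_mul _) ((int_mul j (by linarith)).const_mul _)]
  refine integral_congr_ae (Eventually.of_forall fun x => ?_)
  simp only [D]
  ring

lemma int_odd (m : ℕ) (α : ℝ) : ∀ β : ℝ, 1 ≤ α + β → ∫ x, D 0 α x * D (2 * m + 1) β x = 0 := by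
  induction m with
  | zero =>
    intro β _
    have h1 := integral_neg_eq_self (fun x => D 0 α x * D 1 β x) volume
    have h2 : ∀ x, D 0 α (-x) * D 1 β (-x) = -(D 0 α x * D 1 β x) := fun x => by
      simp only [D, neg_sq]; ring
    simp only [h2, integral_neg] at h1
    have : ∫ x, D 0 α x * D 1 β x = 0 := by linarith
    exact this
  | succ m ih =>
    intro β h
    rw [show 2 * (m + 1) + 1 = 2 * m + 1 + 2 by ring, int_rec _ h, ih _ (by linarith), ih _ (by linarith)]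
    ring

lemma beta_rec (m : ℕ) {a b : ℝ} (h : 1 ≤ a + b) : ((2 * (m + 1)).factorial : ℝ) * beta (m + 1) a b =
    (2 * m).factorial * (2 * b * (2 * b + 1) * beta m a (b + 1) - 4 * b * (b + 1) * beta m a (b + 2)) := by
  have hm : (0 : ℝ) ≤ m := Nat.cast_nonneg m
  have p1 : b * ∏ i ∈ range m, (b + 1 + i) = ∏ i ∈ range (m + 1), (b + (i : ℕ)) := by
    rw [prod_range_succ', mul_comm]
    congr 1
    · exact prod_congr rfl fun i _ => by push_cast; ring
    · simp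
  have p2 : b * (b + 1) * ∏ i ∈ range m, (b + 2 + i) = (∏ i ∈ range (m + 1), (b + (i : ℕ))) * (b + m + 1) := by
    have := prod_range_succ (fun i : ℕ => b + (i : ℝ)) (m + 1)
    rw [prod_range_succ', prod_range_succ'] at this
    push_cast at this
    have e : ∏ i ∈ range m, (b + ((i : ℝ) + 1 + 1)) = ∏ i ∈ range m, (b + 2 + i) :=
      prod_congr rfl fun i _ => by ring
    rw [add_assoc b m 1, ← this, e]
    ring
  have g1 : Real.Gamma (a + (b + 2) + m - 1 / 2) = (a + b + m + 1 / 2) * Real.Gamma (a + b + m + 1 / 2) := by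
    rw [← Real.Gamma_add_one (by positivity : (0 : ℝ) < _).ne']
    · congr 1; ring
  have g2 : Real.Gamma (a + (b + 2) + 2 * m) = (a + b + 2 * m + 1) * Real.Gamma (a + b + 2 * m + 1) := by
    rw [← Real.Gamma_add_one (by linarith)]
    congr 1; ring
  have g3 : Real.Gamma (a + b + 2 * m + 1) ≠ 0 := (Real.Gamma_pos_of_pos (by linarith)).ne'
  have g4 : a + b + 2 * m + 1 ≠ 0 := by linarith
  have f1 : (m.factorial : ℝ) ≠ 0 := by positivity
  have f2 : (m : ℝ) + 1 ≠ 0 := by positivity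
  unfold beta
  rw [g1, g2, show a + (b + 1) + m - 1 / 2 = a + b + m + 1 / 2 by ring,
    show a + (b + 1) + 2 * m = a + b + 2 * m + 1 by ring,
    show a + b + ((m + 1 : ℕ) : ℝ) - 1 / 2 = a + b + m + 1 / 2 by push_cast; ring,
    show a + b + 2 * ((m + 1 : ℕ) : ℝ) = a + (b + 2) + 2 * m by push_cast; ring, g2,
    show 2 * (m + 1) = 2 * m + 1 + 1 by ring, Nat.factorial_succ, Nat.factorial_succ (2 * m),
    Nat.factorial_succ m, prod_range_succ (fun i : ℕ => a + (i : ℝ)) m]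
  generalize ∏ i ∈ range (m + 1), (b + (i : ℕ)) = P at p1 p2
  generalize ∏ i ∈ range m, (b + 1 + (i : ℝ)) = P1 at p1
  generalize ∏ i ∈ range m, (b + 2 + (i : ℝ)) = P2 at p2
  generalize ∏ i ∈ range m, (a + (i : ℝ)) = Q
  push_cast
  field_simp
  linear_combination (-(Q * (m + 1) * (-1) ^ m) * 4 * (a + b + 2 * m + 1) * (2 * b + 1)) * p1 +
    (Q * (m + 1) * (-1) ^ m * 4 * (2 * (a + b + m) + 1)) * p2

lemma int_even (hP : St_POI) (m : ℕ) (α : ℝ) : ∀ β : ℝ, 1 ≤ α + β →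
    ∫ x, D 0 α x * D (2 * m) β x = √Real.pi * ((2 * m).factorial * beta m α β) := by
  induction m with
  | zero =>
    intro β h
    simp only [mul_zero, D0_add, int_D0 hP h, beta]
    simp [mul_div_assoc]
  | succ m ih =>
    intro β h
    rw [beta_rec m h, show 2 * (m + 1) = 2 * m + 2 by ring, int_rec _ h, ih _ (by linarith), ih _ (by linarith)]
    ring

lemma sum_even (hP : St_POI) (M : ℕ) {α β : ℝ} (h : 1 ≤ α + β) (κ : ℝ) :
    ∑ j ∈ range (2 * M), κ ^ j / j.factorial * ∫ x, D 0 α x * D j β x =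
      ∑ m ∈ range M, √Real.pi * beta m α β * κ ^ (2 * m) := by
  induction M with
  | zero => simp
  | succ M ih =>
    have : ((2 * M).factorial : ℝ) ≠ 0 := by positivity
    rw [show 2 * (M + 1) = 2 * M + 1 + 1 by ring, sum_range_succ, sum_range_succ, ih, sum_range_succ,
      int_odd M α β h, int_even hP M α β h]
    field_simp
    ring

/-- the normalised estimate -/
lemma core (hP : St_POI) (M : ℕ) {α β : ℝ} (hab : 1 ≤ α + β) (k : ℝ) (hk : 0 ≤ k) : ∃ C, ∀ h : ℝ, 0 < h →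
    h ≤ 1 → (Summable fun n : ℤ => D 0 α (h * n) * D 0 β (h * n + k * h)) ∧
      |h * ∑' n : ℤ, D 0 α (h * n) * D 0 β (h * n + k * h) -
        ∑ m ∈ range M, √Real.pi * beta m α β * (k * h) ^ (2 * m)| ≤ C * h ^ (2 * M) := by
  obtain ⟨c, hc⟩ := poi hP (2 * M)
  obtain ⟨A, hA0, hA⟩ := D_bdN (2 * M + 2) α
  obtain ⟨B, hB0, hB⟩ := D_bdN (2 * M + 2) β
  obtain ⟨E, hE0, hE⟩ := peetre β k
  refine ⟨c * (2 ^ (2 * M + 2) * (A * (B * E))) + B * E * k ^ (2 * M) * Real.pi, fun h h0 h1 => ?_⟩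
  have hκ0 : 0 ≤ k * h := by positivity
  have hκ : k * h ≤ k := mul_le_of_le_one_right hk h1
  have hv : ∀ j ≤ 2 * M + 2, ∀ x t, 0 ≤ t → t ≤ k * h → |D j β (x + t)| ≤ B * E * D 0 β x :=
    fun j hj x t t0 t1 => (hB j hj _).trans (by
      rw [mul_assoc]
      exact mul_le_mul_of_nonneg_left (hE x t (by rw [abs_of_nonneg t0]; exact t1.trans hκ)) hB0)
  have hW : ∀ j ≤ 2 * M + 2, ∀ x, |W j (fun i => D i α) (fun i x => D i β (x + k * h)) x| ≤
      2 ^ (2 * M + 2) * (A * (B * E)) / (1 + x ^ 2) := fun j hj x => by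
    refine (W_bd j _ _ x _ _ (fun i hi => hA i (hi.trans hj) x)
      fun i hi => hv i (hi.trans hj) x _ hκ0 le_rfl).trans ?_
    have e : A * D 0 α x * (B * E * D 0 β x) = A * (B * E) * D 0 (α + β) x := by rw [← D0_add]; ring
    have := D0_pos (α + β) x
    rw [e, div_eq_mul_one_div, mul_assoc (2 ^ (2 * M + 2) : ℝ)]
    exact mul_le_mul (pow_le_pow_right₀ one_le_two hj)
      (mul_le_mul_of_nonneg_left (D0_le hab x) (by positivity)) (by positivity) (by positivity)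
  have hdv : ∀ i x, HasDerivAt (fun x => D i β (x + k * h)) (D (i + 1) β (x + k * h)) x := fun i x =>
    (D_deriv i β (x + k * h)).comp_add_const x (k * h)
  have hdW := fun j => W_deriv j (fun i => D i α) (fun i x => D i β (x + k * h)) (fun i => D_deriv i α) hdv
  obtain ⟨k1, k2⟩ := hc (fun j => W j (fun i => D i α) fun i x => D i β (x + k * h)) _ h hdW hW h0 h1
  refine ⟨k1, ?_⟩
  have i0 : Integrable fun x => D 0 α x * D 0 β (x + k * h) :=
    integrable_of_le (continuous_iff_continuousAt.2 fun x => (hdW 0 x).continuousAt) _ (hW 0 (by omega))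
  have i1 : ∀ j ∈ range (2 * M), Integrable fun x => (k * h) ^ j / j.factorial * (D 0 α x * D j β x) :=
    fun j _ => (int_mul j hab).const_mul _
  have k3 : |(∫ x, D 0 α x * D 0 β (x + k * h)) -
      ∑ m ∈ range M, √Real.pi * beta m α β * (k * h) ^ (2 * m)| ≤ B * E * (k * h) ^ (2 * M) * Real.pi := by
    rw [← sum_even hP M hab]
    simp only [← integral_const_mul]
    rw [← integral_finsetSum _ i1, ← integral_sub i0 (integrable_finsetSum _ i1),
      ← integral_univ_inv_one_add_sq, ← integral_const_mul, ← Real.norm_eq_abs]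
    refine norm_integral_le_of_norm_le (integrable_inv_one_add_sq.const_mul _) (Eventually.of_forall fun x => ?_)
    have t := taylor (2 * M) (fun i t => D i β (x + t)) (B * E * D 0 β x) (k * h)
      (fun i t => (D_deriv i β (x + t)).comp_const_add x t) hκ0 fun t ht => hv _ (by omega) x t ht.1 ht.2
    simp only [add_zero] at t
    have e : D 0 α x * D 0 β (x + k * h) - ∑ j ∈ range (2 * M), (k * h) ^ j / j.factorial * (D 0 α x * D j β x) =
        D 0 α x * (D 0 β (x + k * h) - ∑ j ∈ range (2 * M), (k * h) ^ j / j.factorial * D j β x) := by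
      rw [mul_sub, mul_sum]
      congr 1
      exact sum_congr rfl fun j _ => by ring
    rw [e, Real.norm_eq_abs, abs_mul, abs_of_pos (D0_pos α x)]
    refine (mul_le_mul_of_nonneg_left t (D0_pos α x).le).trans ?_
    have e2 : D 0 α x * (B * E * D 0 β x * (k * h) ^ (2 * M)) = B * E * (k * h) ^ (2 * M) * D 0 (α + β) x := by
      rw [← D0_add]; ring
    rw [e2, ← one_div]
    exact mul_le_mul_of_nonneg_left (D0_le hab x) (by positivity)
  have := abs_sub_le (h * ∑' n : ℤ, D 0 α (h * n) * D 0 β (h * n + k * h))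
    (∫ x, D 0 α x * D 0 β (x + k * h)) (∑ m ∈ range M, √Real.pi * beta m α β * (k * h) ^ (2 * m))
  refine this.trans ((add_le_add k2 k3).trans (le_of_eq ?_))
  rw [mul_pow]
  ring

lemma sy_eq (a : ℕ) (b : ℤ) {ν : ℝ} (hν : 0 < ν) (y : ℝ) :
    sy a b (ν ^ 2) (y ^ 2) = ν ^ (2 * a + b : ℤ) * D 0 (-b / 2) (ν⁻¹ * y) := by
  have e : ν ^ 2 + y ^ 2 = ν ^ 2 * (1 + (ν⁻¹ * y) ^ 2) := by field_simp
  simp only [sy, D]
  rw [e, Real.sqrt_mul (sq_nonneg ν), Real.sqrt_sq hν.le, mul_zpow, zpow_add₀ hν.ne', Real.sqrt_eq_rpow,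
    ← Real.rpow_intCast _ b, ← Real.rpow_intCast (_ ^ _) b, ← Real.rpow_mul (pos1 _).le, ← pow_mul,
    show (2 * a : ℤ) = ((2 * a : ℕ) : ℤ) by push_cast; ring, zpow_natCast,
    show (1 / 2 : ℝ) * b = -(-b / 2) by ring, mul_assoc]

end BUB

theorem st_bub (hPOI : St_POI) : St_BUB := by
  intro a a' b b' hd k M
  have hab : (1 : ℝ) ≤ -b / 2 + -b' / 2 := by
    have h1 : b + b' ≤ -2 := by omega
    have h2 : ((b + b' : ℤ) : ℝ) ≤ ((-2 : ℤ) : ℝ) := by exact_mod_cast h1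
    push_cast at h2
    linarith
  obtain ⟨C, hC⟩ := BUB.core hPOI M hab k (Nat.cast_nonneg k)
  refine ⟨C, fun ν hν => ?_⟩
  have h0 : 0 < ν := by linarith
  obtain ⟨k1, k2⟩ := hC ν⁻¹ (inv_pos.2 h0) (inv_le_one_of_one_le₀ hν)
  set d : ℤ := 2 * a + b + (2 * a' + b') with hdd
  have e : ∀ l : ℤ, sy a b (ν ^ 2) (l ^ 2) * sy a' b' (ν ^ 2) ((l + k) ^ 2) =
      ν ^ d * (BUB.D 0 (-b / 2) (ν⁻¹ * l) * BUB.D 0 (-b' / 2) (ν⁻¹ * l + k * ν⁻¹)) := fun l => by
    rw [BUB.sy_eq a b h0, BUB.sy_eq a' b' h0, hdd, zpow_add₀ h0.ne' (2 * a + b),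
      show ν⁻¹ * (l + k) = ν⁻¹ * l + k * ν⁻¹ by ring]
    ring
  have e2 : ∀ m : ℕ, ν ^ (d + 1 - 2 * m : ℤ) = ν ^ d * ν * ν⁻¹ ^ (2 * m) := fun m => by
    rw [zpow_sub₀ h0.ne', zpow_add_one₀ h0.ne', show (2 * m : ℤ) = ((2 * m : ℕ) : ℤ) by push_cast; ring,
      zpow_natCast, inv_pow, div_eq_mul_inv]
  simp only [e, e2]
  refine ⟨k1.mul_left _, ?_⟩
  have hp : 0 < ν ^ d * ν := mul_pos (zpow_pos h0 d) h0
  have k3 := mul_le_mul_of_nonneg_left k2 hp.le
  rw [← abs_of_pos hp, ← abs_mul, abs_of_pos hp, mul_sub, mul_sum] at k3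
  rw [tsum_mul_left]
  refine le_trans (le_of_eq ?_) (k3.trans (le_of_eq (by ring)))
  congr 2
  · field_simp
  · exact sum_congr rfl fun m _ => by rw [mul_pow]; ring

end Pool.Agent.Lib.ISO
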