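import Pool.Agent.Lib.ISO.BlueV

/-! The sheared polar chart of a perturbed annulus. -/

open scoped InnerProductSpace ENNReal ContDiff ComplexConjugate Topology
open MeasureTheory Complex Set Filter ContinuousLinearMap

noncomputable section

namespace Pool.Agent.Lib.ISO

open Pool.Agent.Lib.MP_312682_mp

namespace CHT

lemma abs_tr {X Y : Type*} [NormedAddCommGroup X] [InnerProductSpace ℂ X] [CompleteSpace X]
    [NormedAddCommGroup Y] [InnerProductSpace ℂ Y] [CompleteSpace Y] {p P : X →L[ℂ] X}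
    {q Q : Y →L[ℂ] Y} {Θ : X →L[ℂ] Y} (hp : Proj p) (hP : Proj P) (hq : Proj q) (hQ : Proj Q)
    (nΘ : ‖Θ‖ ≤ 1) (e8 : Θ ∘L adjoint Θ = 1) (e6 : q ∘L Θ = Θ ∘L p)
    (e1 : Q ∘L Θ ∘L P = Θ ∘L P) (e3 : adjoint Θ ∘L Θ ∘L P = P)
    (e7 : P ∘L adjoint Θ ∘L Q = adjoint Θ ∘L Q) : hsq (p * P * p) = hsq (q * Q * q) := by
  have nadj : ‖adjoint Θ‖ ≤ 1 := by simpa using nΘ
  have e2 : P ∘L adjoint Θ ∘L Q = P ∘L adjoint Θ := by
    have := congrArg adjoint e1
    rwa [adjoint_comp, adjoint_comp, ← star_eq_adjoint Q, ← star_eq_adjoint P, hP.sa,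
      hQ.sa, comp_assoc] at this
  have e4 : P ∘L adjoint Θ ∘L Θ = P := by
    have := congrArg adjoint e3
    rwa [adjoint_comp, adjoint_comp, adjoint_adjoint, ← star_eq_adjoint P, hP.sa,
      comp_assoc] at this
  have e5 : p ∘L adjoint Θ = adjoint Θ ∘L q := by
    have := congrArg adjoint e6
    rw [adjoint_comp, adjoint_comp, ← star_eq_adjoint p, ← star_eq_adjoint q, hp.sa,
      hq.sa] at this
    exact this.symm
  have k2 := fun z => congrArg (fun Z => Z z) e2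
  have k3 := fun z => congrArg (fun Z => Z z) e3
  have k4 := fun z => congrArg (fun Z => Z z) e4
  have k5 := fun z => congrArg (fun Z => Z z) e5
  have k6 := fun z => congrArg (fun Z => Z z) e6
  have k7 := fun z => congrArg (fun Z => Z z) e7
  have k8 := fun z => congrArg (fun Z => Z z) e8
  simp only [comp_apply, one_apply_eq_self] at k2 k3 k4 k5 k6 k7 k8
  have k9 : ∀ y, Q y = Θ (P (adjoint Θ y)) := fun y => by rw [← k2, k7, k8]
  have a : q * Q * q = (Θ ∘L (p * P * p)) ∘L adjoint Θ := by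
    ext1 w
    simp only [mul_apply_eq_comp, comp_apply]
    rw [k9, k6, k5]
  have b : p * P * p = (adjoint Θ ∘L (q * Q * q)) ∘L Θ := by
    ext1 w
    simp only [mul_apply_eq_comp, comp_apply]
    rw [k9, k6 w, k4, ← k5, k3]
  refine hsq_eq_of ?_ ?_
  · conv_lhs => rw [b]
    refine (hs2_comp_right _ _ nΘ).trans ?_
    gcongr
    simpa using hs2_comp_left _ _ nadj
  · conv_lhs => rw [a]
    refine (hs2_comp_right _ _ nadj).trans ?_
    gcongr
    simpa using hs2_comp_left _ _ nΘ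

/-- exact transplantation of the resolvent -/
lemma exact_transfer {L δ μ : ℝ} {Φ : ℂ → ℂ} {J : ℂ → ℝ} {O : ℂ → Mat} {Ω : Set ℂ}
    (h : Ch L δ Φ J O) (hs : Ω ⊆ Φ '' rect L δ) {t : Set (L2 (nu L δ))}
    (ha : ∀ u ∈ testC Ω, h.Θ (DL vol μ u) ∈ cl t)
    (hb : ∀ y ∈ t, ∃ g ∈ testC Ω, h.Θ (DL vol μ g) = y) :
    hsq (GO μ Ω) = hsq (p0 _ * PC t * p0 _) := by
  have e3 : adjoint h.Θ ∘L h.Θ ∘L PO μ Ω = PO μ Ω := by
    rw [← comp_assoc, h.adj_Θ]; exact ind_PO h.mC hs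
  refine abs_tr proj_p0 (proj_PC _) proj_p0 (proj_PC t) h.norm_Θ h.Θ_adj h.Θ_p0
    (PC_pres _ ?_) e3 (PC_pres _ fun y hy => ?_)
  · rintro _ ⟨u, hu, rfl⟩
    exact ha u hu
  · obtain ⟨g, hg, rfl⟩ := hb y hy
    have m : DL vol μ g ∈ cl (DL vol μ '' testC Ω) := mem_cl (mem_image_of_mem _ hg)
    have := DFunLike.congr_fun e3 (DL vol μ g)
    rw [comp_apply, comp_apply, PO, PC_self m] at this
    rwa [this]

lemma ae_strip : ∀ᵐ z ∂nuA, z ∈ strip dl := by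
  have : ∀ᵐ z : ℂ, z.im ≠ dl := volume_preserving_equiv_real_prod.quasiMeasurePreserving.ae
    (Measure.quasiMeasurePreserving_snd.ae (Measure.ae_ne volume dl))
  filter_upwards [ae_rect (2 * Real.pi) dl, ae_restrict_of_ae this] with z a b
  exact ⟨a.2.1, lt_of_le_of_ne a.2.2 b⟩

def JJ (p : ℝ → ℝ) (z : ℂ) : ℝ := R1 - z.im + p z.re
def Ph (p : ℝ → ℝ) (z : ℂ) : ℂ := JJ p z * exp (z.re * I)
def OO (z : ℂ) : Mat := !![1, 0, 0; 0, (-Real.sin z.re : ℝ), (Real.cos z.re : ℝ);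
  0, (-Real.cos z.re : ℝ), (-Real.sin z.re : ℝ)]
def NN (p : ℝ → ℝ) (μ : ℝ) (z : ℂ) : Mat :=
  !![1, 0, 0; 0, ((JJ p z)⁻¹ : ℝ), (deriv p z.re / JJ p z : ℝ); ((2 * JJ p z * μ)⁻¹ : ℝ), 0, 1]
def NI (p : ℝ → ℝ) (μ : ℝ) (z : ℂ) : Mat :=
  !![1, 0, 0; (deriv p z.re / (2 * JJ p z * μ) : ℝ), (JJ p z : ℝ), (-deriv p z.re : ℝ);
    (-(2 * JJ p z * μ)⁻¹ : ℝ), 0, 1]
def AA (p : ℝ → ℝ) (μ : ℝ) (z : ℂ) : Mat :=
  !![(-(JJ p z ^ 2)⁻¹ / (4 * μ ^ 2) : ℝ), 0, 0;
    0, ((JJ p z ^ 2)⁻¹ - 1 : ℝ), (deriv p z.re * (JJ p z ^ 2)⁻¹ : ℝ);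
    0, (deriv p z.re * (JJ p z ^ 2)⁻¹ : ℝ), (deriv p z.re ^ 2 * (JJ p z ^ 2)⁻¹ : ℝ)]

structure Sh (p : ℝ → ℝ) (Ω : Set ℂ) : Prop where
  sm : ContDiff ℝ ∞ p
  per : ∀ s, p (s + 2 * Real.pi) = p s
  b0 : ∀ s, |p s| ≤ 1 / 100
  b1 : ∀ s, |deriv p s| ≤ 1 / 100
  opn : IsOpen Ω
  nz : 0 ∉ Ω
  mem : ∀ r s : ℝ, 0 < r → ((r : ℂ) * exp (s * I) ∈ Ω ↔ r - p s ∈ Ioo r0 R1)

namespace Sh

variable {p : ℝ → ℝ} {Ω : Set ℂ} (h : Sh p Ω)
include h

lemma s1 : ContDiff ℝ ∞ (deriv p) := (contDiff_infty_iff_deriv.1 h.sm).2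
lemma hd (s : ℝ) : HasDerivAt p (deriv p s) s := (h.sm.differentiable (by simp) s).hasDerivAt

lemma sJ : ContDiff ℝ ∞ (JJ p) :=
  (contDiff_const.sub contDiff_im').add (h.sm.comp contDiff_re')

lemma bJ {z : ℂ} (hz : z.im ∈ Icc 0 dl) : 97 / 100 ≤ JJ p z ∧ JJ p z ≤ 1 := by
  have := abs_le.1 (h.b0 z.re)
  have a := hz.1
  have b := hz.2
  unfold JJ R1
  unfold dl at b
  constructor <;> linarith [this.1, this.2]

lemma Jpos {z : ℂ} (hz : z.im ∈ Icc 0 dl) : 0 < JJ p z := by linarith [(h.bJ hz).1]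

lemma J_per (z : ℂ) : JJ p (z + (2 * Real.pi : ℝ)) = JJ p z := by
  simp only [JJ, add_re, add_im, ofReal_re, ofReal_im, add_zero, h.per]

lemma Ph_per (z : ℂ) : Ph p (z + (2 * Real.pi : ℝ)) = Ph p z := by
  rw [Ph, Ph, h.J_per, add_re, ofReal_re]
  push_cast
  rw [add_mul, exp_add, exp_two_pi_mul_I, mul_one]

lemma sPh : ContDiff ℝ ∞ (Ph p) :=
  (s_ofReal.comp h.sJ).mul ((s_ofReal.comp contDiff_re').mul contDiff_const).cexp

lemma dPh (z : ℂ) : DifferentiableAt ℝ (Ph p) z := h.sPh.differentiable (by simp) z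

lemma d1Ph (z : ℂ) : d1 (Ph p) z = (deriv p z.re + JJ p z * I) * exp (z.re * I) := by
  refine d1_eq (h.dPh z) ?_
  have := (((h.hd z.re).const_add (R1 - z.im)).ofReal_comp).mul
    (((hasDerivAt_id z.re).ofReal_comp.mul_const I).cexp)
  refine (this.congr_deriv ?_).congr_of_eventuallyEq
    (Eventually.of_forall fun s => by simp [Ph, JJ])
  simp only [JJ, id]; push_cast; ring

lemma d2Ph (z : ℂ) : d2 (Ph p) z = -exp (z.re * I) := by
  refine d2_eq (h.dPh z) ?_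
  have := ((((hasDerivAt_id z.im).const_sub R1).add_const (p z.re)).ofReal_comp).mul_const
    (exp (z.re * I))
  refine (this.congr_deriv (by simp)).congr_of_eventuallyEq
    (Eventually.of_forall fun s => by simp [Ph, JJ])

lemma det (z : ℂ) : (fderiv ℝ (Ph p) z).det = JJ p z := by
  rw [det_eq_d, ← d1, ← d2, h.d1Ph, h.d2Ph]
  simp [exp_ofReal_mul_I_re, exp_ofReal_mul_I_im]
  linear_combination JJ p z * Real.sin_sq_add_cos_sq z.re

lemma chain {u : ℂ → ℂ} {z : ℂ} (hu : DifferentiableAt ℝ u (Ph p z)) :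
    d1 (fun z => u (Ph p z)) z =
      (deriv p z.re * Real.cos z.re - JJ p z * Real.sin z.re : ℝ) * d1 u (Ph p z) +
      (deriv p z.re * Real.sin z.re + JJ p z * Real.cos z.re : ℝ) * d2 u (Ph p z) ∧
    d2 (fun z => u (Ph p z)) z = (-Real.cos z.re : ℝ) * d1 u (Ph p z) +
      (-Real.sin z.re : ℝ) * d2 u (Ph p z) := by
  have := fderiv_comp z hu (h.dPh z)
  constructor
  · rw [d1]; erw [this]
    rw [comp_apply, ← d1, h.d1Ph, fderiv_eq_d]
    congr 3 <;> simp [exp_ofReal_mul_I_re, exp_ofReal_mul_I_im]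
  · rw [d2]; erw [this]
    rw [comp_apply, ← d2, h.d2Ph, fderiv_eq_d]
    congr 3 <;> simp [exp_ofReal_mul_I_re, exp_ofReal_mul_I_im]

lemma ssq {z : ℂ} (hJ : 0 < JJ p z) : ContDiffAt ℝ ∞ (fun z => (√(JJ p z) : ℂ)) z :=
  s_ofReal.contDiffAt.comp z (h.sJ.contDiffAt.sqrt hJ.ne')

lemma d_sq {z : ℂ} (hJ : 0 < JJ p z) :
    d1 (fun z => (√(JJ p z) : ℂ)) z = (deriv p z.re / (2 * JJ p z) * √(JJ p z) : ℝ) ∧
    d2 (fun z => (√(JJ p z) : ℂ)) z = (-1 / (2 * JJ p z) * √(JJ p z) : ℝ) := by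
  have hs := Real.sqrt_pos.2 hJ
  constructor
  · refine d1_eq ((h.ssq hJ).differentiableAt (by simp)) (HasDerivAt.ofReal_comp ?_)
    refine ((((h.hd z.re).const_add (R1 - z.im)).sqrt hJ.ne').congr_deriv ?_).congr_of_eventuallyEq
      (Eventually.of_forall fun s => by simp [JJ])
    rw [show R1 - z.im + p z.re = JJ p z from rfl]
    field_simp
    rw [Real.sq_sqrt hJ.le]
  · refine d2_eq ((h.ssq hJ).differentiableAt (by simp)) (HasDerivAt.ofReal_comp ?_)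
    refine (((((hasDerivAt_id' z.im).const_sub R1).add_const (p z.re)).sqrt
      hJ.ne').congr_deriv ?_).congr_of_eventuallyEq (Eventually.of_forall fun s => by simp [JJ])
    rw [show R1 - z.im + p z.re = JJ p z from rfl]
    field_simp
    rw [Real.sq_sqrt hJ.le]

lemma pull {μ : ℝ} (hμ : 0 < μ) {u v : ℂ → ℂ} {z : ℂ} (hJ : 0 < JJ p z)
    (hu : DifferentiableAt ℝ u (Ph p z))
    (hv : v =ᶠ[𝓝 z] fun z => (√(JJ p z) : ℂ) * u (Ph p z)) :
    (√(JJ p z) : ℂ) • act (OO z) (Dv μ u (Ph p z)) = act (NN p μ z) (Dv μ v z) := by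
  have a1 := (h.ssq hJ).differentiableAt (by simp)
  have a2 : DifferentiableAt ℝ (fun z => u (Ph p z)) z := hu.comp z (h.dPh z)
  have hμ' : (μ : ℂ) ≠ 0 := by exact_mod_cast hμ.ne'
  have hJ' : (JJ p z : ℂ) ≠ 0 := by exact_mod_cast hJ.ne'
  rw [Dv_congr hv]
  refine E3_ext ?_ ?_ ?_
  · simp [act_apply, OO, NN]; ring
  · simp only [PiLp.smul_apply, act_apply, Dv_0, Dv_1, Dv_2, d1_mul a1 a2, d2_mul a1 a2,
      h.chain hu, h.d_sq hJ]
    simp [OO, NN]; field_simp; ring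
  · simp only [PiLp.smul_apply, act_apply, Dv_0, Dv_1, Dv_2, d1_mul a1 a2, d2_mul a1 a2,
      h.chain hu, h.d_sq hJ]
    simp [OO, NN]; field_simp; ring

lemma local_inv {q : ℂ} (hJ : JJ p q ≠ 0) : ∃ g : ℂ → ℂ, ContDiffAt ℝ ∞ g (Ph p q) ∧
    g (Ph p q) = q ∧ ∀ᶠ y in 𝓝 (Ph p q), Ph p (g y) = y := by
  have h1 : HasFDerivAt (Ph p) (((fderiv ℝ (Ph p) q).toContinuousLinearEquivOfDetNeZero
      (by rwa [h.det]) : ℂ ≃L[ℝ] ℂ) : ℂ →L[ℝ] ℂ) q := by
    rw [coe_toContinuousLinearEquivOfDetNeZero]; exact (h.dPh q).hasFDerivAt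
  have h2 : ContDiffAt ℝ ∞ (Ph p) q := h.sPh.contDiffAt
  exact ⟨_, h2.to_localInverse h1 (by simp), h2.localInverse_apply_image h1 (by simp),
    (h2.hasStrictFDerivAt' h1 (by simp)).eventually_right_inverse⟩

lemma mem_iff {z : ℂ} (hJ : 0 < JJ p z) : Ph p z ∈ Ω ↔ z ∈ strip dl := by
  rw [Ph, h.mem _ _ hJ, JJ, strip, mem_ofPred_eq, mem_Ioo, mem_Ioo]
  unfold r0 R1 dl
  constructor <;> rintro ⟨a, b⟩ <;> constructor <;> linarith

lemma inj {q q' : ℂ} (hq : q.im ∈ Icc 0 dl) (hq' : q'.im ∈ Icc 0 dl) (e : Ph p q = Ph p q') :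
    ∃ n : ℤ, q' = q + n * (2 * Real.pi : ℝ) := by
  have a := h.Jpos hq
  have b := h.Jpos hq'
  have e1 : JJ p q = JJ p q' := by
    have := congrArg norm e
    simpa [Ph, norm_exp_ofReal_mul_I, abs_of_pos a, abs_of_pos b] using this
  rw [Ph, Ph, e1, mul_right_inj' (by exact_mod_cast b.ne'), eq_comm,
    exp_eq_exp_iff_exists_int] at e
  obtain ⟨n, hn⟩ := e
  have e2 : q'.re = q.re + n * (2 * Real.pi) := by simpa using congrArg im hn
  have e3 : p q'.re = p q.re := by rw [e2]; exact (Function.Periodic.int_mul h.per n) _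
  refine ⟨n, Complex.ext (by simpa using e2) ?_⟩
  unfold JJ at e1
  simp only [add_im, mul_im, intCast_re, intCast_im, ofReal_re, ofReal_im, mul_zero, zero_mul,
    add_zero]
  linarith

lemma surj {w : ℂ} (hw : w ∈ Ω) : ∃ q : ℂ, q.re ∈ Ioc 0 (2 * Real.pi) ∧ q ∈ strip dl ∧
    Ph p q = w := by
  have h0 : 0 < ‖w‖ := norm_pos_iff.2 fun e => h.nz (e ▸ hw)
  set θ := toIocMod Real.two_pi_pos 0 (arg w) with hθ
  have e1 : JJ p ⟨θ, R1 - ‖w‖ + p θ⟩ = ‖w‖ := by simp only [JJ]; ring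
  have e2 : Ph p ⟨θ, R1 - ‖w‖ + p θ⟩ = w := by
    rw [Ph, e1]
    nth_rw 3 [← norm_mul_exp_arg_mul_I w]
    congr 1
    rw [exp_eq_exp_iff_exists_int]
    refine ⟨-toIocDiv Real.two_pi_pos 0 (arg w), ?_⟩
    simp only [hθ, toIocMod, zsmul_eq_mul]
    push_cast
    ring
  refine ⟨_, ?_, (h.mem_iff (by rwa [e1])).1 (by rwa [e2]), e2⟩
  simpa using toIocMod_mem_Ioc Real.two_pi_pos 0 (arg w)

lemma sub : Ω ⊆ Ph p '' rect (2 * Real.pi) dl := fun _ hw => by
  obtain ⟨q, a, b, c⟩ := h.surj hw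
  exact ⟨q, ⟨a, Ioo_subset_Ioc_self b⟩, c⟩

lemma ch : Ch (2 * Real.pi) dl (Ph p) (JJ p) OO where
  dΦ := h.dPh
  inj := fun q hp q' hq e => by
    obtain ⟨n, hn⟩ := h.inj (Ioc_subset_Icc_self hp.2) (Ioc_subset_Icc_self hq.2) e
    have h1 : q'.re = q.re + n * (2 * Real.pi) := by rw [hn]; simp
    have hL := Real.two_pi_pos
    have : n = 0 := by
      have a : (n : ℝ) < 1 := by nlinarith [hp.1.1, hp.1.2, hq.1.1, hq.1.2]
      have b : (-1 : ℝ) < n := by nlinarith [hp.1.1, hp.1.2, hq.1.1, hq.1.2]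
      have a' : n < 1 := by exact_mod_cast a
      have b' : -1 < n := by exact_mod_cast b
      omega
    rw [hn, this]; simp
  det := fun z _ => h.det z
  cJ := h.sJ.continuous
  bJ := fun z hz => by
    have := h.bJ (Ioc_subset_Icc_self hz.2)
    constructor <;> linarith [this.1, this.2]
  cO := continuous_iff_continuousAt.2 fun z => by
    refine continuousAt_mat ?_ ?_ ?_ ?_ ?_ ?_ ?_ ?_ ?_ <;> fun_prop
  uO := fun z => by
    have : (Real.sin z.re : ℂ) ^ 2 + (Real.cos z.re : ℂ) ^ 2 = 1 := by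
      exact_mod_cast Real.sin_sq_add_cos_sq z.re
    ext i j
    fin_cases i <;> fin_cases j <;>
      simp [OO, Matrix.mul_apply, Fin.sum_univ_three, Matrix.star_apply, -ofReal_sin,
        -ofReal_cos] <;>
      first | linear_combination this | ring
  eO := fun z => by
    ext i j
    fin_cases i <;> fin_cases j <;> simp [OO, e00, Matrix.mul_apply, Fin.sum_univ_three]

variable {μ : ℝ} (hμ : 0 < μ)
include hμ

lemma bdN : Bd nuA (NN p μ) := Bd_rect fun z hz => by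
  have hJ := (h.Jpos hz).ne'
  have := h.s1.continuous
  have := h.sJ.continuous
  have := hμ.ne'
  refine continuousAt_mat ?_ ?_ ?_ ?_ ?_ ?_ ?_ ?_ ?_ <;> fun_prop (disch := simp [*])

lemma bdI : Bd nuA (NI p μ) := Bd_rect fun z hz => by
  have hJ := (h.Jpos hz).ne'
  have := h.s1.continuous
  have := h.sJ.continuous
  have := hμ.ne'
  refine continuousAt_mat ?_ ?_ ?_ ?_ ?_ ?_ ?_ ?_ ?_ <;> fun_prop (disch := simp [*])

lemma bdA : Bd nuA (AA p μ) := Bd_rect fun z hz => by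
  have hJ := (h.Jpos hz).ne'
  have := h.s1.continuous
  have := h.sJ.continuous
  have := hμ.ne'
  refine continuousAt_mat ?_ ?_ ?_ ?_ ?_ ?_ ?_ ?_ ?_ <;> fun_prop (disch := simp [*])

lemma NNI : mm nuA (NN p μ) * mm nuA (NI p μ) = 1 ∧ mm nuA (NI p μ) * mm nuA (NN p μ) = 1 := by
  rw [mm_mul (h.bdN hμ) (h.bdI hμ), mm_mul (h.bdI hμ) (h.bdN hμ), ← mm_one]
  have hμ' : (μ : ℂ) ≠ 0 := by exact_mod_cast hμ.ne'
  constructor <;> refine mm_congr ?_ <;> filter_upwards [ae_rect (2 * Real.pi) dl] with z hz <;>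
    have hJ : (JJ p z : ℂ) ≠ 0 := by exact_mod_cast (h.Jpos (Ioc_subset_Icc_self hz.2)).ne'
  all_goals
    ext a b
    fin_cases a <;> fin_cases b <;> simp [NN, NI, Matrix.mul_apply, Fin.sum_univ_three] <;>
      field_simp <;> ring

lemma pN : p0 nuA * mm nuA (NN p μ) = p0 nuA := by
  rw [p0, mm_mul (Bd.const _) (h.bdN hμ)]
  refine mm_eq_of fun z => ?_
  ext a b
  fin_cases a <;> fin_cases b <;> simp [NN, e00, Matrix.mul_apply, Fin.sum_univ_three]

lemma form : PA μ * (star (mm nuA (NN p μ)) * mm nuA (NN p μ)) * PA μ =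
    PA μ * (1 + mm nuA (AA p μ)) * PA μ := by
  refine PC_form ?_
  rintro _ ⟨u, ⟨u1, -, ε, hε, u3⟩, rfl⟩ _ ⟨v, ⟨v1, -⟩, rfl⟩
  have sc := contDiff_conj' u1
  have suv := sc.mul v1
  have hμ' : (μ : ℂ) ≠ 0 := by exact_mod_cast hμ.ne'
  have sb : ∀ z : ℂ, z.im ∈ Icc 0 dl →
      ContDiffAt ℝ ∞ (fun z => (((2 * JJ p z)⁻¹ : ℝ) : ℂ)) z := fun z hz =>
    ofRealCLM.contDiff.contDiffAt.comp z ((contDiff_const.mul h.sJ).contDiffAt.inv
      (by simpa using (h.Jpos hz).ne'))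
  have db : ∀ z : ℂ, z.im ∈ Icc 0 dl →
      d2 (fun z => (((2 * JJ p z)⁻¹ : ℝ) : ℂ)) z = ((2 * JJ p z ^ 2)⁻¹ : ℝ) := fun z hz => by
    have hJ := (h.Jpos hz).ne'
    refine d2_eq ((sb z hz).differentiableAt (by simp)) (HasDerivAt.ofReal_comp ?_)
    have := ((((hasDerivAt_id' z.im).const_sub R1).add_const (p z.re)).const_mul 2).inv
      (mul_ne_zero two_ne_zero hJ)
    refine (this.congr_deriv ?_).congr_of_eventuallyEq (Eventually.of_forall fun s => ?_)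
    · rw [show R1 - z.im + p z.re = JJ p z from rfl]
      field_simp
    · simp [JJ]
  have F2 : ∀ z : ℂ, z.im ∈ Icc 0 dl → ContDiffAt ℝ 1
      (fun z => (((2 * JJ p z)⁻¹ : ℝ) : ℂ) * (conj (u z) * v z)) z := fun z hz =>
    ((sb z hz).mul suv.contDiffAt).of_le (by simp)
  have i2 := ibp2 Real.two_pi_pos.le (by norm_num [dl]) F2 (fun z hz => by
    rw [u3 z (by rcases hz with hz | hz; exacts [Or.inl (by linarith), Or.inr (by linarith)])]
    simp)
  rw [← sub_eq_zero, mul_apply_eq_comp, ContinuousLinearMap.star_eq_adjoint,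
    ContinuousLinearMap.adjoint_inner_right, L2.inner_def, L2.inner_def,
    ← integral_sub (L2.integrable_inner _ _) (L2.integrable_inner _ _), ← i2]
  refine integral_congr_ae ?_
  filter_upwards [tl_coe (memLp_Dv_rect (L := 2 * Real.pi) (δ := dl) μ u1),
    tl_coe (memLp_Dv_rect (L := 2 * Real.pi) (δ := dl) μ v1), mm_coe (h.bdN hμ) (DL nuA μ u),
    mm_coe (h.bdN hμ) (DL nuA μ v), mm_coe (h.bdA hμ) (DL nuA μ v),
    Lp.coeFn_add (DL nuA μ v) (mm nuA (AA p μ) (DL nuA μ v)), ae_rect (2 * Real.pi) dl]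
    with z e1 e2 e3 e4 e5 e6 hz
  have hz' := Ioc_subset_Icc_self hz.2
  have hJ' : (JJ p z : ℂ) ≠ 0 := by exact_mod_cast (h.Jpos hz').ne'
  rw [e3, e4, add_apply, one_apply_eq_self, e6, Pi.add_apply,
    e5, DL, DL, e1, e2, inner_E3, inner_E3,
    d2_mul ((sb z hz').differentiableAt (by simp)) (suv.differentiable (by simp) z),
    d2_mul (sc.differentiable (by simp) z) (v1.differentiable (by simp) z),
    (d_conj (u1.differentiable (by simp) z)).2, db z hz']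
  simp only [PiLp.add_apply, act_apply, NN, AA, Dv_0, Dv_1, Dv_2, Matrix.of_apply,
    Matrix.cons_val', Matrix.cons_val_zero, Matrix.cons_val_one, Matrix.cons_val,
    Matrix.cons_val_fin_one, map_add, map_mul, conj_ofReal, map_one, map_zero]
  push_cast
  field_simp
  ring

lemma pull_mem {k : ℂ → ℂ} (hk : k ∈ testC Ω) : h.ch.Θ (DL vol μ k) ∈
    cl (mm nuA (NN p μ) '' (DL nuA μ '' cylFns (2 * Real.pi) dl)) := by
  obtain ⟨ε, hε, h1⟩ := hk.2.1.isCompact.exists_thickening_subset_open h.opn hk.2.2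
  have h2 : ∀ q ∈ strip dl, q.im < ε ∨ dl - ε < q.im → k (Ph p q) = 0 := by
    intro q hq h3
    by_contra h4
    have key : ∀ x ∈ Icc 0 dl, |q.im - x| < ε → x ∈ Ioo 0 dl := fun x hx h5 => by
      refine (h.mem_iff (z := ⟨q.re, x⟩) (h.Jpos hx)).1
        (h1 (Metric.mem_thickening_iff.2 ⟨_, subset_tsupport _ h4, ?_⟩))
      rw [dist_eq_norm, Ph, Ph, ← sub_mul, norm_mul, norm_exp_ofReal_mul_I, mul_one, ← ofReal_sub,
        norm_real, Real.norm_eq_abs]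
      simp only [JJ]
      rwa [show R1 - x + p q.re - (R1 - q.im + p q.re) = q.im - x by ring]
    have d0 : (0 : ℝ) ≤ dl := by norm_num [dl]
    rcases h3 with h3 | h3
    · exact lt_irrefl _ (key 0 ⟨le_rfl, d0⟩ (by rwa [sub_zero, abs_of_pos hq.1])).1
    · exact lt_irrefl _ (key dl ⟨d0, le_rfl⟩ (by
        rw [abs_of_neg (sub_neg.2 hq.2)]; linarith)).2
  set v : ℂ → ℂ := (strip dl).indicator fun z => (√(JJ p z) : ℂ) * k (Ph p z) with hv
  have ev : ∀ q ∈ strip dl, v =ᶠ[𝓝 q] fun z => (√(JJ p z) : ℂ) * k (Ph p z) := by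
    intro q hq
    filter_upwards [(isOpen_strip dl).mem_nhds hq] with q hq
    exact indicator_of_mem hq _
  have v0 : ∀ q : ℂ, q.im < ε ∨ dl - ε < q.im → v q = 0 := by
    intro q hq
    by_cases h3 : q ∈ strip dl
    · rw [hv, indicator_of_mem h3, h2 q h3 hq, mul_zero]
    · exact indicator_of_notMem h3 _
  have sv : ContDiff ℝ ∞ v := contDiff_iff_contDiffAt.2 fun q => by
    by_cases h3 : q ∈ strip dl
    · exact ((h.ssq (h.Jpos (Ioo_subset_Icc_self h3))).mul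
        (hk.1.comp h.sPh).contDiffAt).congr_of_eventuallyEq (ev q h3)
    · refine (contDiffAt_const (c := (0 : ℂ))).congr_of_eventuallyEq ?_
      have : IsOpen {q : ℂ | q.im < ε ∨ dl - ε < q.im} :=
        (isOpen_lt continuous_im continuous_const).union (isOpen_lt continuous_const continuous_im)
      filter_upwards [this.mem_nhds (show q.im < ε ∨ dl - ε < q.im by
        by_contra h4
        push Not at h4
        exact h3 ⟨by linarith [h4.1], by linarith [h4.2]⟩)] with q hq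
      exact v0 q hq
  have mv : v ∈ cylFns (2 * Real.pi) dl := by
    refine ⟨sv, fun z => ?_, ε / 2, by positivity, fun z hz => v0 z ?_⟩
    · have e : z + (2 * Real.pi : ℝ) ∈ strip dl ↔ z ∈ strip dl := by simp [strip]
      by_cases h3 : z ∈ strip dl
      · rw [hv, indicator_of_mem h3, indicator_of_mem (e.2 h3), h.J_per, h.Ph_per]
      · rw [hv, indicator_of_notMem h3, indicator_of_notMem (mt e.1 h3)]
    · rcases hz with hz | hz
      · left; linarith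
      · right; linarith
  refine mem_cl ⟨_, ⟨v, mv, rfl⟩, ?_⟩
  ext1
  filter_upwards [h.ch.Θ_tl ((core_test Ω).mem μ k hk), mm_coe (h.bdN hμ) (DL _ μ v),
    tl_coe (memLp_Dv_rect (L := 2 * Real.pi) (δ := dl) μ sv), ae_strip] with z e1 e2 e3 hz
  rw [e2, DL, e3, DL, e1, h.pull hμ (h.Jpos (Ioo_subset_Icc_self hz))
    (hk.1.differentiable (by simp) _) (ev z hz)]

lemma push_mem {v : ℂ → ℂ} (hv : v ∈ cylFns (2 * Real.pi) dl) : ∃ g ∈ testC Ω,
    h.ch.Θ (DL vol μ g) = mm nuA (NN p μ) (DL nuA μ v) := by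
  obtain ⟨sv, pv, ε, hε, v0⟩ := hv
  set w : ℂ → ℂ := fun z => (√(JJ p z) : ℂ)⁻¹ * v z with hw
  have hp : ∀ z, w (z + (2 * Real.pi : ℝ)) = w z := fun z => by simp only [hw, h.J_per, pv]
  have ne : ∀ q ∈ strip dl, (√(JJ p q) : ℂ) ≠ 0 := fun q hq => by
    exact_mod_cast (Real.sqrt_pos.2 (h.Jpos (Ioo_subset_Icc_self hq))).ne'
  set g : ℂ → ℂ := Ω.indicator fun z => w (Function.invFunOn (Ph p) (strip dl) z) with hg
  have gP : ∀ q ∈ strip dl, g (Ph p q) = w q := fun q hq => by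
    rw [hg, indicator_of_mem ((h.mem_iff (h.Jpos (Ioo_subset_Icc_self hq))).2 hq)]
    obtain ⟨n, hn⟩ := h.inj (Ioo_subset_Icc_self hq)
      (Ioo_subset_Icc_self (Function.invFunOn_mem (f := Ph p) ⟨q, hq, rfl⟩))
      (Function.invFunOn_eq ⟨q, hq, rfl⟩).symm
    rw [hn]
    exact (Function.Periodic.int_mul hp n) q
  have cK : IsCompact (Ph p '' (Icc 0 (2 * Real.pi) ×ℂ Icc ε (dl - ε))) :=
    (isCompact_Icc.reProdIm isCompact_Icc).image h.sPh.continuous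
  have sK : Ph p '' (Icc 0 (2 * Real.pi) ×ℂ Icc ε (dl - ε)) ⊆ Ω := by
    rintro _ ⟨q, hq, rfl⟩
    have : q ∈ strip dl := ⟨hε.trans_le hq.2.1, by linarith [hq.2.2]⟩
    exact (h.mem_iff (h.Jpos (Ioo_subset_Icc_self this))).2 this
  have g0 : ∀ z, z ∉ Ph p '' (Icc 0 (2 * Real.pi) ×ℂ Icc ε (dl - ε)) → g z = 0 := fun z hz => by
    by_cases h1 : z ∈ Ω
    · obtain ⟨q, a, b, rfl⟩ := h.surj h1
      rw [gP q b, hw]
      simp only
      rw [v0 q, mul_zero]
      by_contra h3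
      push Not at h3
      exact hz ⟨q, ⟨Ioc_subset_Icc_self a, h3.1.le, h3.2.le⟩, rfl⟩
    · exact indicator_of_notMem h1 _
  have tg : g ∈ testC Ω := by
    refine ⟨contDiff_iff_contDiffAt.2 fun z => ?_, HasCompactSupport.intro cK g0, ?_⟩
    · by_cases h1 : z ∈ Ω
      · obtain ⟨q, -, b, rfl⟩ := h.surj h1
        have hJ := h.Jpos (Ioo_subset_Icc_self b)
        obtain ⟨f, g1, g2, g3⟩ := h.local_inv hJ.ne'
        have sw : ContDiffAt ℝ ∞ w q := ((h.ssq hJ).inv (ne q b)).mul sv.contDiffAt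
        refine (ContDiffAt.comp _ (g2.symm ▸ sw) g1).congr_of_eventuallyEq ?_
        filter_upwards [g3, g1.continuousAt.eventually ((isOpen_strip dl).mem_nhds (g2.symm ▸ b))]
          with y e1 e2
        rw [Function.comp, ← gP _ e2, e1]
      · refine (contDiffAt_const (c := (0 : ℂ))).congr_of_eventuallyEq ?_
        filter_upwards [cK.isClosed.isOpen_compl.mem_nhds fun h2 => h1 (sK h2)] with y hy
        exact g0 y hy
    · exact (closure_minimal (s := Function.support g)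
        (fun z hz => by_contra fun h1 => hz (g0 z h1)) cK.isClosed).trans sK
  refine ⟨g, tg, ?_⟩
  ext1
  filter_upwards [h.ch.Θ_tl ((core_test Ω).mem μ _ tg), mm_coe (h.bdN hμ) (DL _ μ v),
    tl_coe (memLp_Dv_rect (L := 2 * Real.pi) (δ := dl) μ sv), ae_strip] with z e1 e2 e3 hz
  rw [e2, DL, e1, DL, e3]
  refine h.pull hμ (h.Jpos (Ioo_subset_Icc_self hz)) (tg.1.differentiable (by simp) _) ?_
  filter_upwards [(isOpen_strip dl).mem_nhds hz] with q hq
  rw [gP q hq, hw, mul_inv_cancel_left₀ (ne q hq)]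

omit hμ in
lemma nA (hμ : 1 ≤ μ) : ‖mm nuA (AA p μ)‖ ≤ 1 / 2 := by
  refine mm_norm_le (by norm_num) ?_
  filter_upwards [ae_rect (2 * Real.pi) dl] with z hz
  obtain ⟨a, b⟩ := h.bJ (Ioc_subset_Icc_self hz.2)
  have c := h.b1 z.re
  have w1 : 1 ≤ (JJ p z ^ 2)⁻¹ := (one_le_inv₀ (by positivity)).2 (by nlinarith)
  have w2 : (JJ p z ^ 2)⁻¹ ≤ 11 / 10 := by
    rw [inv_le_comm₀ (by positivity) (by norm_num)]; nlinarith
  refine (norm_act_le _).trans ?_
  simp only [AA, Fin.sum_univ_three, Matrix.of_apply, Matrix.cons_val', Matrix.cons_val_zero,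
    Matrix.cons_val_one, Matrix.cons_val, Matrix.cons_val_fin_one, norm_zero, norm_real,
    Real.norm_eq_abs, add_zero, zero_add]
  set w := (JJ p z ^ 2)⁻¹
  have c0 := abs_nonneg (deriv p z.re)
  have t1 : |-w / (4 * μ ^ 2)| ≤ w / 4 := by
    rw [abs_div, abs_neg, abs_of_pos (by linarith : 0 < w), abs_of_pos (by positivity)]
    exact div_le_div_of_nonneg_left (by linarith) (by norm_num) (by nlinarith)
  have t2 : |deriv p z.re * w| ≤ 1 / 100 * (11 / 10) := by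
    rw [abs_mul, abs_of_pos (by linarith : 0 < w)]; gcongr
  have t3 : |deriv p z.re ^ 2 * w| ≤ (1 / 100) ^ 2 * (11 / 10) := by
    rw [abs_mul, abs_pow, abs_of_pos (by linarith : 0 < w)]; gcongr
  rw [abs_of_nonneg (sub_nonneg.2 w1)]
  linarith

omit hμ in
lemma area : vol.real Ω = ∫ z, JJ p z ∂nuA := by
  have := h.ch.int_eq (Ω.indicator fun _ => (1 : ℝ))
  rw [setIntegral_indicator h.opn.measurableSet, inter_eq_right.2 h.sub, setIntegral_const,
    smul_eq_mul, mul_one] at this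
  rw [this]
  refine integral_congr_ae ?_
  filter_upwards [ae_strip] with z hz
  rw [indicator_of_mem ((h.mem_iff (h.Jpos (Ioo_subset_Icc_self hz))).2 hz), smul_eq_mul, mul_one]

end Sh

lemma hd_rh (k : ℕ) (s : ℝ) : HasDerivAt (rh k) (2 * (-Real.sin (k * s) * k)) s := by
  have := (((hasDerivAt_id' s).const_mul (k : ℝ)).cos).const_mul 2
  rwa [mul_one] at this

lemma sh_ann {k : ℕ} (hk : 1 ≤ k) {ε : ℝ} (hε : |ε| ≤ 1 / (200 * k)) :
    Sh (fun s => ε * rh k s) (Ann k ε) := by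
  have k1 : (1 : ℝ) ≤ k := by exact_mod_cast hk
  rw [le_div_iff₀ (by positivity)] at hε
  have e0 := abs_nonneg ε
  have nz : 0 ∉ Ann k ε := fun h => by
    have := h.1
    simp only [norm_zero, zero_div, zero_pow (by omega : k ≠ 0), zero_re, mul_zero, sub_zero,
      r0] at this
    linarith
  refine ⟨?_, fun s => ?_, fun s => ?_, fun s => ?_, isOpen_iff_mem_nhds.2 fun z hz => ?_, nz,
    fun r s hr => ?_⟩
  · unfold rh; fun_prop
  · rw [rh, rh, mul_add, Real.cos_add_nat_mul_two_pi]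
  · have := Real.abs_cos_le_one (k * s)
    rw [rh, abs_mul, abs_mul, abs_two]
    nlinarith
  · have := Real.abs_sin_le_one (k * s)
    rw [((hd_rh k s).const_mul ε).deriv, abs_mul, abs_mul, abs_mul, abs_two, abs_neg, Nat.abs_cast]
    nlinarith [mul_nonneg e0 (by linarith : (0 : ℝ) ≤ k)]
  · have h0 : (‖z‖ : ℂ) ≠ 0 := by
      exact_mod_cast norm_ne_zero_iff.2 fun e => nz (e ▸ hz)
    have : ContinuousAt (fun z : ℂ => ‖z‖ - ε * (2 * ((z / ‖z‖) ^ k).re)) z := by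
      fun_prop (disch := exact h0)
    exact this.preimage_mem_nhds (isOpen_Ioo.mem_nhds hz)
  · have h0 : (r : ℂ) ≠ 0 := by exact_mod_cast hr.ne'
    have : ‖(r : ℂ) * exp (s * I)‖ = r := by
      rw [norm_mul, norm_exp_ofReal_mul_I, mul_one, norm_real, Real.norm_of_nonneg hr.le]
    rw [Ann, mem_ofPred_eq, this, mul_div_cancel_left₀ _ h0, ← exp_nat_mul, ← mul_assoc (k : ℂ),
      ← ofReal_natCast, ← ofReal_mul, exp_ofReal_mul_I_re, rh]

lemma int_J {k : ℕ} (hk : 1 ≤ k) (ε : ℝ) :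
    ∫ z, JJ (fun s => ε * rh k s) z ∂nuA = ∫ z, R1 - z.im ∂nuA := by
  have c : Continuous (rh k) := by unfold rh; fun_prop
  have i1 : Integrable (fun z : ℂ => ε * rh k z.re) nuA :=
    integrable_rect fun _ _ => Continuous.continuousAt (by fun_prop)
  have k0 : (k : ℝ) ≠ 0 := by exact_mod_cast (by omega : k ≠ 0)
  unfold JJ
  rw [integral_add (integrable_rect fun _ _ => Continuous.continuousAt (by fun_prop)) i1,
    int_rect' Real.two_pi_pos.le (by norm_num [dl]) i1]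
  have s0 : Real.sin (k * (2 * Real.pi)) = 0 := by
    simpa using Real.sin_add_nat_mul_two_pi 0 k
  simp [rh, intervalIntegral.integral_comp_mul_left (fun x => Real.cos x) k0, s0]

end CHT

open CHT in
theorem st_cht : St_CHT := by
  intro k hk
  have k1 : (1 : ℝ) ≤ k := by exact_mod_cast hk
  refine ⟨1 / (200 * k), by positivity, fun ε μ hε hμ => ?_⟩
  have h := sh_ann hk hε
  have hμ0 : 0 < μ := by linarith
  refine ⟨by rw [h.area, (sh_ann hk (ε := 0) (by rw [abs_zero]; positivity)).area, int_J hk,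
    int_J hk], ?_⟩
  have eA : Ae k ε μ = AA (fun s => ε * rh k s) μ := by
    funext z
    simp only [Ae, AA, we, JJ, deriv_const_mul_field']
  have hP : Proj (PA μ) := proj_PC _
  obtain ⟨Z, hZ, hZ1, hQ⟩ := perturb (P := PA μ)
    (Q := PC (mm nuA (NN (fun s => ε * rh k s) μ) '' (DL nuA μ '' cylFns (2 * Real.pi) dl)))
    proj_p0 hP (proj_PC _) (h.NNI hμ0).1 (h.pN hμ0)
    (PC_pres' _ fun x hx => mem_cl (mem_image_of_mem _ hx))
    (PC_pres' _ (by
      rintro _ ⟨x, hx, rfl⟩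
      rw [← mul_apply_eq_comp, (h.NNI hμ0).2]
      exact mem_cl hx)) (h.form hμ0) (h.nA hμ)
  obtain ⟨Z', -, z2, -⟩ := exists_inv (nmul (nmul hP.norm_le (h.nA hμ)) hP.norm_le) (by norm_num)
  have e : Z' = Z := by rw [← mul_one Z', ← hZ1, ← mul_assoc, z2, one_mul]
  rw [eA]
  refine ⟨Z, hZ, hZ1, e ▸ z2, ?_⟩
  rw [← hQ]
  refine exact_transfer h.ch h.sub (fun u hu => h.pull_mem hμ0 hu) ?_
  rintro _ ⟨_, ⟨v, hv, rfl⟩, rfl⟩
  exact h.push_mem hμ0 hv

end Pool.Agent.Lib.ISO
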