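import Pool.Agent.Lib.ISO.BlueV

/-! Block COEF: the two leading coefficients of the invariant of weight `2m+2`. -/

open scoped Topology
open Set Filter Asymptotics

noncomputable section

namespace Pool.Agent.Lib.ISO

open Pool.Agent.Lib.MP_312682_mp

namespace COEF

theorem cancel {w f h : ℝ → ℝ} (hw : ∀ᶠ μ in atTop, w μ ≠ 0)
    (H : (fun μ => w μ * f μ) =O[atTop] fun μ => w μ * h μ) : f =O[atTop] h := by
  obtain ⟨C, hC⟩ := H.bound
  refine IsBigO.of_bound C ?_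
  filter_upwards [hC, hw] with μ h1 h2
  rw [norm_mul, norm_mul] at h1
  have h3 : 0 < ‖w μ‖ := norm_pos_iff.mpr h2
  refine le_of_mul_le_mul_left ?_ h3
  linarith

/-- uniqueness of the coefficients of an expansion in `μ⁻¹` -/
theorem uniq (M : ℕ) : ∀ P : Polynomial ℝ,
    (fun μ : ℝ => P.eval μ⁻¹) =O[atTop] (fun μ : ℝ => μ⁻¹ ^ M) → ∀ n < M, P.coeff n = 0 := by
  induction M with
  | zero => intro P _ n hn; omega
  | succ M ih =>
    intro P hP n hn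
    have h0 : P.coeff 0 = 0 := by
      have t1 : Tendsto (fun μ : ℝ => P.eval μ⁻¹) atTop (𝓝 (P.eval 0)) :=
        (P.continuous.tendsto 0).comp tendsto_inv_atTop_zero
      have t2 : Tendsto (fun μ : ℝ => μ⁻¹ ^ (M + 1)) atTop (𝓝 0) := by
        have := (tendsto_inv_atTop_zero (𝕜 := ℝ)).pow (M + 1)
        simpa using this
      have t3 := hP.trans_tendsto t2
      rw [Polynomial.coeff_zero_eq_eval_zero]
      exact tendsto_nhds_unique t1 t3
    cases n with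
    | zero => exact h0
    | succ n =>
      rw [← Polynomial.coeff_divX]
      refine ih P.divX ?_ n (by omega)
      have e : ∀ x : ℝ, P.eval x = x * P.divX.eval x := by
        intro x
        conv_lhs => rw [← P.X_mul_divX_add]
        simp [h0]
      refine cancel (w := fun μ => μ⁻¹) ?_ ?_
      · filter_upwards [eventually_gt_atTop 0] with μ hμ
        exact inv_ne_zero hμ.ne'
      · simpa only [e, pow_succ'] using hP

theorem core {ι : Type} (s : Finset ι) (w : ι → ℕ) (c Q : ι → ℝ) (Φ : ℝ → ℝ → ℝ)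
    (p : ι → ℝ → ℝ) (F : ℝ → ℝ) (J N : ℕ) (hJ : 1 ≤ J) (hN : 3 * J ≤ N)
    (hA : ∃ C, ∃ ε0 > 0, ∀ μ, 1 ≤ μ → ∀ ε, |ε| ≤ ε0 →
      |Φ ε μ + Φ (-ε) μ - 2 * Φ 0 μ - 2 * ε ^ 2 * μ ^ 4 * F μ| ≤ C * |ε| ^ 3 * μ ^ 4)
    (hB : ∃ C μ0, ∃ ε0 > 0, ∀ ε, |ε| ≤ ε0 → ∀ μ, μ0 ≤ μ →
      |Φ ε μ - ∑ α ∈ s, μ / μ ^ w α * (c α * p α ε)| ≤ C * (μ * √μ / μ ^ N))
    (hC : ∀ α ∈ s, ∃ C, ∃ ε0 > 0, ∀ ε, |ε| ≤ ε0 →
      |p α ε + p α (-ε) - 2 * p α 0 - ε ^ 2 * Q α| ≤ C * |ε| ^ 3) :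
    (fun μ => 2 * F μ - ∑ α ∈ s, c α * Q α * μ⁻¹ ^ (w α + 3)) =O[atTop] fun μ => μ⁻¹ ^ J := by
  obtain ⟨CA, eA, heA, hA⟩ := hA
  obtain ⟨CB, μ0, eB, heB, hB⟩ := hB
  set e : ℝ → ℝ := fun μ => μ⁻¹ ^ J with he
  have et : Tendsto e atTop (𝓝 0) := by
    have := (tendsto_inv_atTop_zero (𝕜 := ℝ)).pow J
    rwa [zero_pow (by omega)] at this
  have esm : ∀ η > 0, ∀ᶠ μ in atTop, |e μ| ≤ η := by
    intro η hη
    have := (continuous_abs.tendsto 0).comp et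
    rw [abs_zero] at this
    exact this.eventually (ge_mem_nhds hη)
  set h : ℝ → ℝ := fun μ => e μ ^ 3 * μ ^ 4 with hh
  have OA : (fun μ => Φ (e μ) μ + Φ (-e μ) μ - 2 * Φ 0 μ - 2 * e μ ^ 2 * μ ^ 4 * F μ)
      =O[atTop] h := by
    refine IsBigO.of_bound CA ?_
    filter_upwards [esm eA heA, eventually_ge_atTop 1] with μ h1 h2
    have h3 := hA μ h2 _ h1
    have h4 : ‖h μ‖ = |e μ| ^ 3 * μ ^ 4 := by
      simp only [hh, Real.norm_eq_abs, abs_mul, abs_pow, abs_of_nonneg (zero_le_one.trans h2)]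
    rw [h4, Real.norm_eq_abs, ← mul_assoc]
    exact h3
  have OB0 : (fun μ : ℝ => μ * √μ / μ ^ N) =O[atTop] h := by
    refine IsBigO.of_bound 1 ?_
    filter_upwards [eventually_ge_atTop 1] with μ h2
    have h0 : 0 < μ := one_pos.trans_le h2
    have h5 : √μ ≤ μ := by
      rw [Real.sqrt_le_left h0.le]
      nlinarith
    have h6 : h μ = μ ^ 4 / μ ^ (3 * J) := by
      simp only [hh, he]
      rw [← pow_mul, inv_pow, mul_comm J 3]
      field_simp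
    rw [one_mul, Real.norm_eq_abs, Real.norm_eq_abs, abs_of_nonneg (by positivity), h6,
      abs_of_nonneg (by positivity)]
    have h7 : μ * √μ ≤ μ ^ 4 := by
      have : μ ^ 2 ≤ μ ^ 4 := pow_le_pow_right₀ h2 (by norm_num)
      nlinarith
    exact div_le_div₀ (by positivity) h7 (by positivity) (pow_le_pow_right₀ h2 hN)
  have OB : ∀ a : ℝ → ℝ, (∀ μ, |a μ| ≤ |e μ|) →
      (fun μ => Φ (a μ) μ - ∑ α ∈ s, μ / μ ^ w α * (c α * p α (a μ))) =O[atTop] h := by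
    intro a ha
    refine IsBigO.trans (IsBigO.of_bound CB ?_) OB0
    filter_upwards [esm eB heB, eventually_ge_atTop μ0, eventually_ge_atTop 0] with μ h1 h2 h3
    have h4 := hB _ ((ha μ).trans h1) μ h2
    rw [Real.norm_eq_abs, Real.norm_eq_abs, abs_of_nonneg (a := μ * √μ / μ ^ N) (by positivity)]
    exact h4
  have OC : ∀ α ∈ s, (fun μ => μ / μ ^ w α *
      (c α * (p α (e μ) + p α (-e μ) - 2 * p α 0 - e μ ^ 2 * Q α))) =O[atTop] h := by
    intro α hα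
    obtain ⟨C, η, hη, H⟩ := hC α hα
    have o1 : (fun μ => p α (e μ) + p α (-e μ) - 2 * p α 0 - e μ ^ 2 * Q α) =O[atTop]
        fun μ => e μ ^ 3 := by
      refine IsBigO.of_bound C ?_
      filter_upwards [esm η hη] with μ h1
      rw [Real.norm_eq_abs, Real.norm_eq_abs, abs_pow]
      exact H _ h1
    have o2 : (fun μ : ℝ => μ / μ ^ w α) =O[atTop] fun μ => μ ^ 4 := by
      refine IsBigO.of_bound 1 ?_
      filter_upwards [eventually_ge_atTop 1] with μ h2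
      have h0 : 0 < μ := one_pos.trans_le h2
      rw [one_mul, Real.norm_eq_abs, Real.norm_eq_abs, abs_of_nonneg (by positivity),
        abs_of_nonneg (by positivity)]
      have h3 : μ / μ ^ w α ≤ μ := div_le_self h0.le (one_le_pow₀ h2)
      have h4 : μ ^ 1 ≤ μ ^ 4 := pow_le_pow_right₀ h2 (by norm_num)
      rw [pow_one] at h4
      exact h3.trans h4
    have o3 := o2.mul (o1.const_mul_left (c α))
    refine o3.trans (IsBigO.of_bound 1 (Eventually.of_forall fun μ => ?_))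
    rw [one_mul, hh, mul_comm]
  have O1 := OB e fun μ => le_rfl
  have O2 := OB (fun μ => -e μ) fun μ => (abs_neg _).le
  have O3 := OB (fun _ => 0) fun μ => by simp
  have O4 := IsBigO.sum OC
  have O5 := (((O1.add O2).sub (O3.const_mul_left 2)).add O4).sub OA
  refine cancel (w := fun μ => e μ ^ 2 * μ ^ 4) ?_ ?_
  · filter_upwards [eventually_gt_atTop 0] with μ hμ
    simp only [he]
    positivity
  · refine (O5.congr' ?_ (Eventually.of_forall fun μ => ?_))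
    · filter_upwards [eventually_gt_atTop 0] with μ hμ
      have k1 : ∀ α ∈ s, μ / μ ^ w α *
          (c α * (p α (e μ) + p α (-e μ) - 2 * p α 0 - e μ ^ 2 * Q α)) =
          μ / μ ^ w α * (c α * p α (e μ)) + μ / μ ^ w α * (c α * p α (-e μ)) -
            2 * (μ / μ ^ w α * (c α * p α 0)) -
            e μ ^ 2 * μ ^ 4 * (c α * Q α * μ⁻¹ ^ (w α + 3)) := by
        intro α _
        rw [inv_pow]
        field_simp
        ring
      rw [Finset.sum_apply, Finset.sum_congr rfl k1]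
      simp only [Finset.sum_sub_distrib, Finset.sum_add_distrib, ← Finset.mul_sum]
      ring
    · simp only [hh]
      ring

theorem two (A B : ℝ) (n : ℕ)
    (H : (fun k : ℕ => A * (k : ℝ) ^ (n + 3) + B * (k : ℝ) ^ (n + 1)) =O[atTop]
      fun k : ℕ => (k : ℝ) ^ n) : A = 0 ∧ B = 0 := by
  obtain ⟨C, hC⟩ := H.bound
  have h1 : ∀ᶠ k : ℕ in atTop, |A * (k : ℝ) ^ 3 + B * k| ≤ C := by
    filter_upwards [hC, eventually_ge_atTop 1] with k h hk
    have hk0 : (0 : ℝ) < (k : ℝ) ^ n := by positivity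
    have e : A * (k : ℝ) ^ (n + 3) + B * (k : ℝ) ^ (n + 1) =
        (A * (k : ℝ) ^ 3 + B * k) * (k : ℝ) ^ n := by ring
    rw [e, Real.norm_eq_abs, Real.norm_eq_abs, abs_mul, abs_of_pos hk0] at h
    exact le_of_mul_le_mul_right h hk0
  have ti : Tendsto (fun k : ℕ => (k : ℝ)⁻¹) atTop (𝓝 0) := tendsto_inv_atTop_nhds_zero_nat
  have hA : A = 0 := by
    have t1 : Tendsto (fun k : ℕ => |A + B * (k : ℝ)⁻¹ ^ 2|) atTop (𝓝 |A + B * 0 ^ 2|) :=
      (((ti.pow 2).const_mul B).const_add A).abs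
    have t2 : Tendsto (fun k : ℕ => C * (k : ℝ)⁻¹ ^ 3) atTop (𝓝 (C * 0 ^ 3)) :=
      (ti.pow 3).const_mul C
    have := le_of_tendsto_of_tendsto t1 t2 (by
      filter_upwards [h1, eventually_ge_atTop 1] with k h hk
      have hk0 : (0 : ℝ) < k := by exact_mod_cast hk
      have e : A + B * (k : ℝ)⁻¹ ^ 2 = (A * (k : ℝ) ^ 3 + B * k) * (k : ℝ)⁻¹ ^ 3 := by
        field_simp
      rw [e, abs_mul, abs_of_pos (a := (k : ℝ)⁻¹ ^ 3) (by positivity)]
      exact mul_le_mul_of_nonneg_right h (by positivity))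
    simpa using this
  refine ⟨hA, ?_⟩
  have t2 : Tendsto (fun k : ℕ => C * (k : ℝ)⁻¹) atTop (𝓝 (C * 0)) := ti.const_mul C
  have := ge_of_tendsto t2 (b := |B|) (by
    filter_upwards [h1, eventually_ge_atTop 1] with k h hk
    have hk0 : (0 : ℝ) < k := by exact_mod_cast hk
    rw [hA, zero_mul, zero_add, abs_mul, abs_of_pos hk0] at h
    rw [← div_eq_mul_inv, le_div_iff₀ hk0]
    exact h)
  simpa using this

/-- the bounds of `St_JET` on the second variation -/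
def QP (c : ℝ) (α : List ℕ) (Q : ℕ → ℝ) : Prop :=
  (∀ k, ∃ C, ∃ ε0 > 0, ∀ ε, |ε| ≤ ε0 →
      |pint α c k ε + pint α c k (-ε) - 2 * pint α c k 0 - ε ^ 2 * Q k| ≤ C * |ε| ^ 3) ∧
    (nd α = 0 → ∃ C, ∀ k : ℕ, 1 ≤ k → |Q k| ≤ C * (k : ℝ) ^ 4) ∧ (3 ≤ nd α → ∀ k, Q k = 0) ∧
    ∀ r p, 1 ≤ r → α = r :: r :: List.replicate p 0 → ∀ k : ℕ, 1 ≤ k →
      Q k = 8 * Real.pi * ((k : ℝ) ^ 2 - 1) ^ 2 * (k : ℝ) ^ (2 * r) / c ^ (wt α + 1)

theorem exQ (hJET : St_JET) (c : ℝ) (hc : 0 < c) :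
    ∃ Q : List ℕ → ℕ → ℝ, ∀ α, Nrm α → QP c α (Q α) := by
  have h : ∀ α, ∃ Q : ℕ → ℝ, Nrm α → QP c α Q := by
    intro α
    by_cases h : Nrm α
    · obtain ⟨Q, hQ⟩ := (hJET c hc).2 α h
      exact ⟨Q, fun _ => hQ⟩
    · exact ⟨0, fun h' => absurd h' h⟩
  choose Q hQ using h
  exact ⟨Q, hQ⟩

theorem exG (hQV : St_QV) (hODE : St_ODE) : ∃ g : ℝ → ℤ → GD, ∀ μ, 1 ≤ μ → GrF μ (g μ) := by
  have h : ∀ (μ : ℝ) (l : ℤ), ∃ g : GD, 1 ≤ μ → Gr (qv μ l) dl g := by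
    intro μ l
    by_cases hμ : 1 ≤ μ
    · obtain ⟨h1, h2⟩ := hQV.2.2 μ l hμ
      obtain ⟨g, hg⟩ := hODE (qv μ l) dl (by unfold dl; norm_num) h1 (by
        intro x hx
        refine lt_of_lt_of_le ?_ (h2 x hx).1
        have : 0 < μ ^ 2 + (l : ℝ) ^ 2 := by positivity
        positivity)
      exact ⟨g, fun _ => hg⟩
    · exact ⟨⟨fun _ _ => 0, 0, 0⟩, fun h => absurd h hμ⟩
  choose g hg using h
  exact ⟨g, fun μ hμ l => hg μ l hμ⟩

theorem powO (a b : ℕ) (h : a ≤ b) :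
    (fun k : ℕ => (k : ℝ) ^ a) =O[atTop] fun k : ℕ => (k : ℝ) ^ b := by
  refine IsBigO.of_bound 1 ?_
  filter_upwards [eventually_ge_atTop 1] with k hk
  have h1 : (1 : ℝ) ≤ k := by exact_mod_cast hk
  rw [one_mul, Real.norm_eq_abs, Real.norm_eq_abs, abs_of_nonneg (by positivity),
    abs_of_nonneg (by positivity)]
  exact pow_le_pow_right₀ h1 h

theorem bdO {Q : ℕ → ℝ} {a b : ℕ} (h : ∃ C, ∀ k : ℕ, 1 ≤ k → |Q k| ≤ C * (k : ℝ) ^ a)
    (hab : a ≤ b) : Q =O[atTop] fun k : ℕ => (k : ℝ) ^ b := by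
  obtain ⟨C, hC⟩ := h
  refine IsBigO.trans (IsBigO.of_bound C ?_) (powO a b hab)
  filter_upwards [eventually_ge_atTop 1] with k hk
  rw [Real.norm_eq_abs, Real.norm_eq_abs, abs_of_nonneg (a := (k : ℝ) ^ a) (by positivity)]
  exact hC k hk

theorem cstO (x : ℝ) (b : ℕ) : (fun _ : ℕ => x) =O[atTop] fun k : ℕ => (k : ℝ) ^ b :=
  bdO (a := 0) ⟨|x|, fun k _ => by simp⟩ (Nat.zero_le b)

/-- the contribution of one monomial of weight `2m+2`, `m = n+2` -/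
theorem term (n : ℕ) (α : List ℕ) (hα : Nrm α) (Q Q' : ℕ → ℝ) (h : QP R1 α Q) (h' : QP r0 α Q')
    (W : ℝ) (hW : W = 8 * Real.pi * ((R1 ^ (2 * n + 7))⁻¹ + (r0 ^ (2 * n + 7))⁻¹)) :
    (fun k : ℕ => (if wt α + 3 = 2 * n + 9 then
        (Q k + (-1) ^ α.length * Q' k) - (Q 1 + (-1) ^ α.length * Q' 1) else 0) -
      ((if α = [n + 2, n + 2] then W * ((k : ℝ) ^ (2 * n + 8) - 2 * (k : ℝ) ^ (2 * n + 6)) else 0) +
        if α = [n + 1, n + 1, 0, 0] then W * (k : ℝ) ^ (2 * n + 6) else 0)) =O[atTop]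
      fun k : ℕ => (k : ℝ) ^ (2 * n + 5) := by
  have w1 : wt [n + 2, n + 2] + 3 = 2 * n + 9 := by simp [wt]; omega
  have w2 : wt [n + 1, n + 1, 0, 0] + 3 = 2 * n + 9 := by simp [wt]; omega
  have n1 : nd [n + 2, n + 2] = 2 := by simp [nd]
  have n2 : nd [n + 1, n + 1, 0, 0] = 2 := by simp [nd]
  by_cases hw : wt α + 3 = 2 * n + 9
  swap
  · have a1 : α ≠ [n + 2, n + 2] := fun e => hw (e ▸ w1)
    have a2 : α ≠ [n + 1, n + 1, 0, 0] := fun e => hw (e ▸ w2)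
    simp only [if_neg hw, if_neg a1, if_neg a2, add_zero, sub_zero]
    exact cstO 0 _
  simp only [if_pos hw]
  rcases hα with h0 | h3 | ⟨r, p, hr, e⟩
  · have a1 : α ≠ [n + 2, n + 2] := fun e => by rw [e, n1] at h0; omega
    have a2 : α ≠ [n + 1, n + 1, 0, 0] := fun e => by rw [e, n2] at h0; omega
    simp only [if_neg a1, if_neg a2, add_zero, sub_zero]
    exact ((bdO (h.2.1 h0) (by omega)).add
      ((bdO (h'.2.1 h0) (by omega)).const_mul_left _)).sub (cstO _ _)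
  · have a1 : α ≠ [n + 2, n + 2] := fun e => by rw [e, n1] at h3; omega
    have a2 : α ≠ [n + 1, n + 1, 0, 0] := fun e => by rw [e, n2] at h3; omega
    simp only [if_neg a1, if_neg a2, add_zero, sub_zero, h.2.2.1 h3, h'.2.2.1 h3, mul_zero]
    exact cstO 0 _
  · have hwt : wt α = p + 2 + 2 * r := by
      rw [e]
      simp [wt]
      omega
    have hlen : (-1 : ℝ) ^ α.length = 1 := by
      apply Even.neg_one_pow
      rw [e]
      simp only [List.length_cons, List.length_replicate]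
      exact ⟨n + 3 - r, by omega⟩
    have hq : ∀ k : ℕ, 1 ≤ k → Q k + (-1) ^ α.length * Q' k =
        W * (((k : ℝ) ^ 2 - 1) ^ 2 * (k : ℝ) ^ (2 * r)) := by
      intro k hk
      have e7 : wt α + 1 = 2 * n + 7 := by omega
      rw [h.2.2.2 r p hr e k hk, h'.2.2.2 r p hr e k hk, hlen, hW, e7]
      ring
    have hq1 : Q 1 + (-1) ^ α.length * Q' 1 = 0 := by
      rw [hq 1 le_rfl]
      simp
    have hev : ∀ {f : ℕ → ℝ} (t : ℕ → ℝ),
        (∀ k : ℕ, W * (((k : ℝ) ^ 2 - 1) ^ 2 * (k : ℝ) ^ (2 * r)) - t k = f k) →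
        f =O[atTop] (fun k : ℕ => (k : ℝ) ^ (2 * n + 5)) →
        (fun k : ℕ => (Q k + (-1) ^ α.length * Q' k) - (Q 1 + (-1) ^ α.length * Q' 1) - t k)
          =O[atTop] fun k : ℕ => (k : ℝ) ^ (2 * n + 5) := by
      intro f t ht hf
      refine hf.congr' ?_ EventuallyEq.rfl
      filter_upwards [eventually_ge_atTop 1] with k hk
      rw [hq k hk, hq1, sub_zero, ht]
    by_cases r2 : r = n + 2
    · have p0 : p = 0 := by omega
      have a1 : α = [n + 2, n + 2] := by rw [e, r2, p0]; rfl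
      have a2 : α ≠ [n + 1, n + 1, 0, 0] := by rw [a1]; simp
      simp only [if_pos a1, if_neg a2]
      refine hev (f := fun k => W * (k : ℝ) ^ (2 * n + 4)) _ (fun k => ?_)
        ((powO _ _ (by omega)).const_mul_left _)
      rw [r2]
      ring
    have a1 : α ≠ [n + 2, n + 2] := by
      rw [e]
      intro e'
      exact r2 (List.cons.inj e').1
    by_cases r1 : r = n + 1
    · have p2 : p = 2 := by omega
      have a2 : α = [n + 1, n + 1, 0, 0] := by rw [e, r1, p2]; rfl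
      simp only [if_neg a1, if_pos a2]
      refine hev (f := fun k => W * (k : ℝ) ^ (2 * n + 2) - 2 * W * (k : ℝ) ^ (2 * n + 4)) _
        (fun k => ?_) (((powO _ _ (by omega)).const_mul_left _).sub
          ((powO _ _ (by omega)).const_mul_left _))
      rw [r1]
      ring
    have a2 : α ≠ [n + 1, n + 1, 0, 0] := by
      rw [e]
      intro e'
      exact r1 (List.cons.inj e').1
    simp only [if_neg a1, if_neg a2]
    refine hev (f := fun k => W * (k : ℝ) ^ (2 * r + 4) - 2 * W * (k : ℝ) ^ (2 * r + 2) +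
      W * (k : ℝ) ^ (2 * r)) _ (fun k => by ring)
      ((((powO _ _ (by omega)).const_mul_left _).sub
        ((powO _ _ (by omega)).const_mul_left _)).add ((powO _ _ (by omega)).const_mul_left _))

/-- the second variation of the trace, expanded in `μ⁻¹` -/
theorem key (hSEC : St_SEC) (hGEO : St_GEO) {J N N' : ℕ} (hJ : 1 ≤ J) (hN : 3 * J ≤ N)
    {s : Finset (List ℕ)} {c : List ℕ → ℝ} (hE : Expn N N' s c) {Q Q' : List ℕ → ℕ → ℝ}
    (hQ : ∀ α, Nrm α → QP R1 α (Q α)) (hQ' : ∀ α, Nrm α → QP r0 α (Q' α))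
    {g : ℝ → ℤ → GD} (hg : ∀ μ, 1 ≤ μ → GrF μ (g μ)) (k : ℕ) (hk : 1 ≤ k) :
    ∃ F : ℝ → ℝ, (∀ μ, 1 ≤ μ → HasSum (f2 k μ (g μ)) (F μ)) ∧
      (fun μ => 2 * F μ - ∑ α ∈ s, c α * (Q α k + (-1) ^ α.length * Q' α k) * μ⁻¹ ^ (wt α + 3))
        =O[atTop] fun μ => μ⁻¹ ^ J := by
  obtain ⟨C, ε0, hε0, hS⟩ := hSEC k hk
  have h : ∀ μ : ℝ, ∃ F : ℝ, 1 ≤ μ → HasSum (f2 k μ (g μ)) F ∧ ∀ ε : ℝ, |ε| ≤ ε0 →
      |Ft (Ann k ε) μ + Ft (Ann k (-ε)) μ - 2 * Ft (Ann k 0) μ - 2 * ε ^ 2 * μ ^ 4 * F| ≤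
        C * |ε| ^ 3 * μ ^ 4 := by
    intro μ
    by_cases hμ : 1 ≤ μ
    · obtain ⟨F, hF⟩ := hS μ (g μ) hμ (hg μ hμ)
      exact ⟨F, fun _ => hF⟩
    · exact ⟨0, fun h => absurd h hμ⟩
  choose F hF using h
  refine ⟨F, fun μ hμ => (hF μ hμ).1, ?_⟩
  refine core s wt c (fun α => Q α k + (-1) ^ α.length * Q' α k) (fun ε μ => Ft (Ann k ε) μ)
    (fun α ε => pint α R1 k ε + (-1) ^ α.length * pint α r0 k ε) F J N hJ hN
    ⟨C, ε0, hε0, fun μ hμ => (hF μ hμ).2⟩ ?_ ?_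
  · obtain ⟨K, ε1, hε1, hG⟩ := hGEO k N' hk
    obtain ⟨C1, μ0, H⟩ := hE.2 K
    refine ⟨C1, μ0, ε1, hε1, fun ε hε μ hμ => ?_⟩
    obtain ⟨γ, L, hD, hm⟩ := hG ε hε
    have := H 2 _ γ L hD μ hμ
    simpa only [hm] using this
  · intro α hα
    have hn := (hE.1 α hα).2.2
    obtain ⟨C1, e1, he1, H1⟩ := (hQ α hn).1 k
    obtain ⟨C2, e2, he2, H2⟩ := (hQ' α hn).1 k
    refine ⟨C1 + C2, min e1 e2, lt_min he1 he2, fun ε hε => ?_⟩
    have a1 := abs_le.mp (H1 ε (hε.trans (min_le_left _ _)))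
    have a2 := abs_le.mp (H2 ε (hε.trans (min_le_right _ _)))
    rcases neg_one_pow_eq_or ℝ α.length with h1 | h1 <;> simp only [h1] <;> rw [abs_le] <;>
      constructor <;> linarith [a1.1, a1.2, a2.1, a2.2]

end COEF

open COEF in
theorem st_coef (hQV : St_QV) (hODE : St_ODE) (hPSI : St_PSI) (hSEC : St_SEC) (hSUM : St_SUM)
    (hJET : St_JET) (hGEO : St_GEO) (hGAM : St_GAM) : St_COEF := by
  intro m hm N' s c hE
  obtain ⟨n, rfl⟩ : ∃ n, m = n + 2 := ⟨m - 2, by omega⟩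
  obtain ⟨Q, hQ⟩ := exQ hJET R1 (by unfold R1; norm_num)
  obtain ⟨Q', hQ'⟩ := exQ hJET r0 (by unfold r0; norm_num)
  obtain ⟨g, hg⟩ := exG hQV hODE
  obtain ⟨ψ, hψ, hψ'⟩ := hPSI (2 * n + 10)
  have hP : ∀ k : ℕ, (fun μ => Psi k (g μ) -
      ∑ j ∈ Finset.range (2 * n + 10), ψ j k * μ⁻¹ ^ j) =O[atTop] fun μ => μ⁻¹ ^ (2 * n + 10) := by
    intro k
    obtain ⟨C, μ0, H⟩ := hψ k
    refine IsBigO.of_bound C ?_
    filter_upwards [eventually_ge_atTop μ0, eventually_ge_atTop 1] with μ h0 h1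
    have h2 := H μ (g μ) h0 (hg μ h1)
    have h3 : 0 < μ := one_pos.trans_le h1
    rw [Real.norm_eq_abs, Real.norm_eq_abs,
      abs_of_nonneg (a := μ⁻¹ ^ (2 * n + 10)) (by positivity)]
    simpa only [div_eq_mul_inv, inv_pow] using h2
  set T : List ℕ → ℕ → ℝ := fun α k => Q α k + (-1) ^ α.length * Q' α k with hT
  have hc : ∀ k : ℕ, 1 ≤ k → 2 * (ψ (2 * n + 9) k - ψ (2 * n + 9) 1) =
      ∑ α ∈ s, c α * (if wt α + 3 = 2 * n + 9 then T α k - T α 1 else 0) := by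
    intro k hk
    obtain ⟨F, hF, O1⟩ := key hSEC hGEO (J := 2 * n + 10) (by omega) (by omega) hE hQ hQ' hg k hk
    obtain ⟨F', hF', O2⟩ :=
      key hSEC hGEO (J := 2 * n + 10) (by omega) (by omega) hE hQ hQ' hg 1 le_rfl
    have O3 := (O1.sub O2).sub (((hP k).sub (hP 1)).const_mul_left 2)
    have h5 := uniq (2 * n + 10)
      (∑ j ∈ Finset.range (2 * n + 10), Polynomial.monomial j (2 * (ψ j k - ψ j 1)) -
        ∑ α ∈ s, Polynomial.monomial (wt α + 3) (c α * (T α k - T α 1))) (by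
        refine O3.congr' ?_ EventuallyEq.rfl
        filter_upwards [eventually_ge_atTop 1] with μ hμ
        have h6 := hSUM k 1 μ _ _ (g μ) hμ (hg μ hμ) (hF μ hμ) (hF' μ hμ)
        simp only [Polynomial.eval_sub, Polynomial.eval_finsetSum, Polynomial.eval_monomial,
          mul_sub, sub_mul, mul_assoc, Finset.sum_sub_distrib, ← Finset.mul_sum, hT]
        linarith) (2 * n + 9) (by omega)
    simp only [Polynomial.coeff_sub, Polynomial.finsetSum_coeff, Polynomial.coeff_monomial,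
      Finset.sum_ite_eq', Finset.mem_range] at h5
    rw [if_pos (by omega), sub_eq_zero] at h5
    rw [h5]
    refine Finset.sum_congr rfl fun α _ => ?_
    split_ifs <;> simp
  set ρ : ℝ := (R1 ^ (2 * n + 7))⁻¹ + (r0 ^ (2 * n + 7))⁻¹ with hρ
  have ρ0 : 0 < ρ := by
    have h1 : (0 : ℝ) < R1 := by unfold R1; norm_num
    have h2 : (0 : ℝ) < r0 := by unfold r0; norm_num
    positivity
  have O1 := IsBigO.sum (s := s) fun α hα =>
    (term n α (hE.1 α hα).2.2 _ _ (hQ α (hE.1 α hα).2.2) (hQ' α (hE.1 α hα).2.2)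
      (8 * Real.pi * ρ) rfl).const_mul_left (c α)
  have O2 := (bdO (hψ' (n + 2) (by omega)) (b := 2 * n + 5) (by omega)).const_mul_left 2
  have O3 := (O2.sub (cstO (2 * ψ (2 * n + 9) 1) (2 * n + 5))).sub O1
  intro c2 c4
  have O4 : (fun k : ℕ => (8 * Real.pi * ρ * c2 - 2 * √Real.pi * ρ * cA (n + 2)) *
      (k : ℝ) ^ (2 * n + 5 + 3) + (8 * Real.pi * ρ * (c4 - 2 * c2) -
        2 * √Real.pi * ρ * cB (n + 2)) * (k : ℝ) ^ (2 * n + 5 + 1)) =O[atTop]
      fun k : ℕ => (k : ℝ) ^ (2 * n + 5) := by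
    refine O3.congr' ?_ EventuallyEq.rfl
    filter_upwards [eventually_ge_atTop 1] with k hk
    have h1 := hc k hk
    have h2 : ∑ α ∈ s, c α * (if α = [n + 2, n + 2] then 8 * Real.pi * ρ *
        ((k : ℝ) ^ (2 * n + 8) - 2 * (k : ℝ) ^ (2 * n + 6)) else 0) =
        c2 * (8 * Real.pi * ρ * ((k : ℝ) ^ (2 * n + 8) - 2 * (k : ℝ) ^ (2 * n + 6))) := by
      simp only [mul_ite, mul_zero, Finset.sum_ite_eq', c2, ite_mul, zero_mul]
    have h3 : ∑ α ∈ s, c α * (if α = [n + 1, n + 1, 0, 0] then 8 * Real.pi * ρ *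
        (k : ℝ) ^ (2 * n + 6) else 0) = c4 * (8 * Real.pi * ρ * (k : ℝ) ^ (2 * n + 6)) := by
      have e : n + 2 - 1 = n + 1 := rfl
      simp only [mul_ite, mul_zero, Finset.sum_ite_eq', c4, ite_mul, zero_mul, e]
    have e1 : 2 * (n + 2) + 5 = 2 * n + 9 := by ring
    have e2 : 2 * (n + 2) + 3 = 2 * n + 7 := by ring
    have e3 : 2 * (n + 2) + 4 = 2 * n + 8 := by ring
    have e4 : 2 * (n + 2) + 2 = 2 * n + 6 := by ring
    rw [Finset.sum_apply]
    simp only [mul_sub (c _), mul_add (c _), Finset.sum_sub_distrib, Finset.sum_add_distrib, h2, h3,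
      e1, e2, e3, e4, ← hρ]
    simp only [hT] at h1
    rw [← h1]
    ring
  obtain ⟨hA, hB⟩ := two _ _ _ O4
  obtain ⟨g1, g2⟩ := hGAM (n + 2)
  have hπ : 0 < √Real.pi := Real.sqrt_pos.mpr Real.pi_pos
  have hπ' := Real.pi_pos
  constructor
  · intro h0
    rw [h0, mul_zero, zero_sub, neg_eq_zero] at hA
    exact (mul_ne_zero (by positivity) g1) hA
  · rw [g2] at hB
    have h8 : (8 * Real.pi * ρ) ≠ 0 := by positivity
    apply mul_left_cancel₀ h8
    linear_combination hB - (Sc (n + 2) - 2) * hA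

end Pool.Agent.Lib.ISO
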