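import Pool.Agent.Lib.ISO.BlueE

/-! Block COL: the expansion of the collar term to all orders. -/

open scoped InnerProductSpace ENNReal ContDiff ComplexConjugate Topology
open MeasureTheory Complex Set Filter

noncomputable section

namespace Pool.Agent.Lib.ISO

open Pool.Agent.Lib.MP_312682_mp

namespace COL

section abstr

variable {X : Type*} [NormedAddCommGroup X] [InnerProductSpace ℂ X] [CompleteSpace X]

lemma hs2_sum {κ : Type*} (s : Finset κ) (T : κ → X →L[ℂ] X) (hf : ∀ k, hs2 (T k) ≠ ⊤) :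
    hs2 (∑ k ∈ s, T k) ≠ ⊤ := by
  classical
  induction s using Finset.induction_on with
  | empty => simp [hs2, nsq]
  | insert a s ha ih =>
    rw [Finset.sum_insert ha]
    exact ((HL_sqrt (hf a)).add (HL_sqrt ih)).ne_top

lemma summable_inner {ι : Type*} {v : ι → X} {p : X →L[ℂ] X} (hp : Proj p) (h : Pars v p)
    {S T : X →L[ℂ] X} (hS : S * p = S) (hT : T * p = T) (fS : hs2 S ≠ ⊤) (fT : hs2 T ≠ ⊤) :
    Summable fun i => ⟪S (v i), T (v i)⟫_ℂ := by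
  refine Summable.of_norm_bounded
    ((hasSum_frame hp h hS fS).summable.add (hasSum_frame hp h hT fT).summable) fun i => ?_
  refine (norm_inner_le_norm _ _).trans ?_
  nlinarith [sq_nonneg (‖S (v i)‖ - ‖T (v i)‖), norm_nonneg (S (v i)), norm_nonneg (T (v i))]

lemma hsq_sum {ι κ : Type*} [Fintype κ] {v : ι → X} {p : X →L[ℂ] X} (hp : Proj p) (h : Pars v p)
    (T : κ → X →L[ℂ] X) (hT : ∀ k, T k * p = T k) (hf : ∀ k, hs2 (T k) ≠ ⊤) :
    hsq (∑ k, T k) = ∑ k : κ × κ, (∑' i, ⟪T k.1 (v i), T k.2 (v i)⟫_ℂ).re := by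
  have h1 := hasSum_frame hp h (T := ∑ k, T k) (by simp only [Finset.sum_mul, hT]) (hs2_sum _ T hf)
  have h2 := hasSum_sum (s := Finset.univ) fun (k : κ × κ) _ =>
    (summable_inner hp h (hT k.1) (hT k.2) (hf k.1) (hf k.2)).hasSum.mapL reCLM
  refine h1.unique (h2.congr_fun fun i => ?_)
  rw [← map_sum, Fintype.sum_prod_type, ← inner_self_eq_norm_sq (𝕜 := ℂ), _root_.sum_apply, sum_inner]
  simp only [inner_sum]
  rfl

end abstr

lemma pair_err {μ m B C h A : ℝ} (w N : ℕ) {Z Γ : ℂ} (hμ : 1 ≤ μ) (hm : |m| ≤ B) (hΓ : ‖Γ‖ ≤ C)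
    (hZ : ‖Z - Γ‖ ≤ C * h ^ N) (h0 : 0 ≤ h) (h1 : h ≤ 1) (hA : h ≤ A / μ) (hA1 : 1 ≤ A) :
    |μ / μ ^ w * (Z.re / (2 * Real.pi) * m) -
      (if w < N then μ / μ ^ w * (Γ.re / (2 * Real.pi) * m) else 0)| ≤
      2 * C * B * A ^ N * (μ / μ ^ N) := by
  have hC : 0 ≤ C := (norm_nonneg _).trans hΓ
  have hB : 0 ≤ B := (abs_nonneg _).trans hm
  have hπ : ∀ z : ℂ, |z.re / (2 * Real.pi)| ≤ ‖z‖ := fun z => by
    rw [abs_div, abs_of_pos Real.two_pi_pos]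
    exact (div_le_self (abs_nonneg _) (by linarith [Real.pi_gt_three])).trans (abs_re_le_norm z)
  have hAN : 1 ≤ A ^ N := one_le_pow₀ hA1
  split_ifs with hw
  · rw [← mul_sub, ← sub_mul, ← sub_div, ← sub_re, abs_mul, abs_mul, abs_of_nonneg (by positivity)]
    calc _ ≤ μ * (C * (A / μ) ^ N * B) := by
          gcongr
          · exact div_le_self (by linarith) (one_le_pow₀ hμ)
          · exact (hπ _).trans (hZ.trans (by gcongr))
      _ = 1 * C * B * A ^ N * (μ / μ ^ N) := by rw [div_pow]; ring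
      _ ≤ _ := by gcongr; norm_num
  · have h2 : ‖Z‖ ≤ 2 * C := by
      have := norm_le_norm_add_norm_sub' Z Γ
      nlinarith [pow_le_one₀ (n := N) h0 h1]
    rw [sub_zero, abs_mul, abs_mul, abs_of_nonneg (by positivity)]
    calc _ ≤ μ / μ ^ N * (2 * C * B) := by
          gcongr
          · exact not_lt.1 hw
          · exact (hπ _).trans h2
      _ = 2 * C * B * 1 * (μ / μ ^ N) := by ring
      _ ≤ _ := by gcongr

lemma regroup {ι : Type*} [Fintype ι] (α : ι → List ℕ) (G : ι → ℝ → ℝ) (N q : ℕ) (c : ι → ℝ)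
    (hG : ∀ i D, 1 ≤ D → |G i D| ≤ c i * D ^ q) : ∃ (s : Finset (List ℕ)) (Γ : List ℕ → ℝ → ℝ),
      (∀ β ∈ s, wt β < N) ∧ (∃ C, ∀ β D, 1 ≤ D → |Γ β D| ≤ C * D ^ q) ∧
      ∀ (μ D : ℝ) (m : List ℕ → ℝ), ∑ β ∈ s, μ / μ ^ wt β * (Γ β D * m β) =
        ∑ i, if wt (α i) < N then μ / μ ^ wt (α i) * (G i D * m (α i)) else 0 := by
  classical
  refine ⟨(Finset.univ.image α).filter fun β => wt β < N,
    fun β D => ∑ i ∈ Finset.univ.filter fun i => α i = β, G i D,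
    fun β hβ => (Finset.mem_filter.1 hβ).2, ⟨∑ i, c i, fun β D hD => ?_⟩, fun μ D m => ?_⟩
  · refine (Finset.abs_sum_le_sum_abs _ _).trans ((Finset.sum_le_sum_of_subset_of_nonneg
      (Finset.filter_subset _ _) fun _ _ _ => abs_nonneg _).trans ?_)
    rw [Finset.sum_mul]
    exact Finset.sum_le_sum fun i _ => hG i D hD
  · rw [Finset.sum_filter, ← Finset.sum_fiberwise_of_maps_to (t := Finset.univ.image α) (g := α)
      fun i hi => Finset.mem_image_of_mem α hi]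
    refine Finset.sum_congr rfl fun β _ => ?_
    rw [Finset.sum_congr rfl (g := fun i => if wt β < N then μ / μ ^ wt β * (G i D * m β) else 0)
      fun i hi => by rw [(Finset.mem_filter.1 hi).2]]
    split_ifs
    · rw [Finset.sum_mul, Finset.mul_sum]
    · exact Finset.sum_const_zero.symm

lemma c0 (K : ℝ) : ∃ C, 0 ≤ C ∧ ∀ L δ μ : ℝ, 1 ≤ K → K⁻¹ ≤ L → L ≤ K → 0 < δ → 1 ≤ μ →
    HL (p0 (nu L δ) * PK L δ μ * p0 (nu L δ)) (√(C * (μ * δ) ^ 2 * μ)) := by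
  obtain ⟨C, hC0, hC⟩ := lam_est (b := 1) le_rfl
  refine ⟨|K| * (Real.pi + C * (2 * Real.pi * K) ^ 4), by positivity, fun L δ μ hK h1 h2 hδ hμ => ?_⟩
  have hL : 0 < L := lt_of_lt_of_le (by positivity) h1
  have hπ := Real.pi_gt_three
  rw [abs_of_pos (by linarith : 0 < K)]
  refine HL_G0 hL hδ (by linarith) (Real.sqrt_nonneg _) ?_
  rw [Real.sq_sqrt (by positivity)]
  have h3 := (abs_le.1 (hC (2 * Real.pi / L) μ (by positivity) (by linarith))).2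
  rw [Jc_one, pow_one] at h3
  unfold La
  have hS0 : 0 ≤ ∑' n : ℤ, (lam (2 * Real.pi / L) μ n ^ (1 + 1))⁻¹ :=
    tsum_nonneg fun n => inv_nonneg.2 (Even.pow_nonneg (by decide) _)
  set S := ∑' n : ℤ, (lam (2 * Real.pi / L) μ n ^ (1 + 1))⁻¹
  have h4 : C * (2 * Real.pi / L) ^ 4 * (μ ^ (1 + 4))⁻¹ ≤ C * (2 * Real.pi * K) ^ 4 * μ⁻¹ := by
    gcongr
    · rw [div_eq_mul_inv]
      gcongr
      exact inv_le_of_inv_le₀ (by linarith) h1
    · exact le_self_pow₀ hμ (by norm_num)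
  have h5 : 1 ≤ K * (2 * Real.pi / L) := by
    rw [← mul_div_assoc, le_div_iff₀ hL]
    nlinarith
  have h6 : S ≤ K * (Real.pi + C * (2 * Real.pi * K) ^ 4) * μ⁻¹ :=
    calc S ≤ K * (2 * Real.pi / L * S) := by nlinarith
      _ ≤ K * ((Real.pi + C * (2 * Real.pi * K) ^ 4) * μ⁻¹) :=
        mul_le_mul_of_nonneg_left (by linarith) (by linarith)
      _ = _ := by ring
  calc _ ≤ μ ^ 4 * δ ^ 2 / 1 * (K * (Real.pi + C * (2 * Real.pi * K) ^ 4) * μ⁻¹) := by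
        gcongr; norm_num
    _ = _ := by field_simp

lemma mono_append (α β : List ℕ) (κ : ℝ → ℝ) (s : ℝ) : mono (α ++ β) κ s = mono α κ s * mono β κ s := by
  simp [mono]

lemma wt_append (α β : List ℕ) : wt (α ++ β) = wt α + wt β := by
  simp only [wt, List.length_append, List.sum_append]; ring

lemma cont_mono (α : List ℕ) {κ : ℝ → ℝ} (h : ContDiff ℝ ∞ κ) : Continuous (mono α κ) := by
  induction α with
  | nil => exact continuous_const
  | cons a α ih => exact (h.continuous_iteratedDeriv a (by exact_mod_cast le_top)).mul ih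

lemma abs_mono {N : ℕ} {K : ℝ} {κ : ℝ → ℝ} (h : ∀ j ≤ N, ∀ s, |iteratedDeriv j κ s| ≤ K)
    (α : List ℕ) (hα : α.sum ≤ N) (s : ℝ) : |mono α κ s| ≤ K ^ α.length := by
  induction α with
  | nil => simp [mono]
  | cons a α ih =>
    rw [List.sum_cons] at hα
    rw [show mono (a :: α) κ s = iteratedDeriv a κ s * mono α κ s from rfl, abs_mul, List.length_cons,
      pow_succ']
    exact mul_le_mul (h a (by omega) s) (ih (by omega)) (abs_nonneg _)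
      ((abs_nonneg _).trans (h 0 (Nat.zero_le _) s))

lemma abs_mint {N : ℕ} {K L : ℝ} {κ : ℝ → ℝ} (h : Bnd N K L κ) (α : List ℕ) (hα : α.sum ≤ N) :
    |mint L α κ| ≤ K ^ (α.length + 1) := by
  have hK := h.kap.one_le
  have hL : 0 < L := lt_of_lt_of_le (by positivity) h.lo
  refine (intervalIntegral.norm_integral_le_of_norm_le_const (f := mono α κ) (C := K ^ α.length)
    fun s _ => abs_mono h.bd α hα s).trans ?_
  rw [sub_zero, abs_of_pos hL, pow_succ]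
  gcongr
  exact h.hi

/-- the weight and the principal factor of one term -/
def chiO (L δ : ℝ) : L2 (nu L δ) →L[ℂ] L2 (nu L δ) := sm _ fun z => chi δ z.im
def XO (L δ μ : ℝ) (f : Sy) : L2 (nu L δ) →L[ℂ] L2 (nu L δ) :=
  p0 _ * PK L δ μ * opw L δ μ f * PK L δ μ * p0 _
def TT (L δ μ c : ℝ) (a : ℝ → ℝ) (f : Sy) : L2 (nu L δ) →L[ℂ] L2 (nu L δ) :=
  chiO L δ * ((c : ℂ) • (sms L δ a * XO L δ μ f))

lemma norm_chiO (L δ : ℝ) : ‖chiO L δ‖ ≤ 1 :=
  sm_norm_le zero_le_one (ae_of_all _ fun z => by simpa using abs_chi _ _)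

lemma TT_p (L δ μ c : ℝ) (a : ℝ → ℝ) (f : Sy) : TT L δ μ c a f * p0 _ = TT L δ μ c a f := by
  simp only [TT, XO, mul_assoc, smul_mul_assoc, proj_p0.idem]

lemma TT_fin {L δ μ e : ℝ} (h : HL (p0 (nu L δ) * PK L δ μ * p0 (nu L δ)) e) (c : ℝ) (a : ℝ → ℝ)
    (f : Sy) : hs2 (TT L δ μ c a f) ≠ ⊤ := by
  rw [TT, ← smul_mul_assoc]
  exact (((HL.mid proj_p0 (proj_PC _) h le_rfl).mleft le_rfl).mleft le_rfl).ne_top

lemma TT_fr (hTAY : St_TAY) (hOP : St_OP) {L δ μ : ℝ} (hL : 0 < L) (hδ : 0 < δ) (hμ : 0 < μ)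
    (hD : 1 ≤ μ * δ) (c : ℝ) {a : ℝ → ℝ} (ha : Continuous a) {f : Sy} (hf : f ∈ Wa) (n j : ℤ) :
    TT L δ μ c a f (fr L δ (n, j)) = (c : ℂ) • sms L δ a (io L δ n ((chi1 * (p0 nu1 *
      P1 (μ * δ) (xi L n / μ) * f (μ * δ) (xi L n / μ) * P1 (μ * δ) (xi L n / μ) * p0 nu1)) (f1 j))) := by
  obtain ⟨-, o2, o3, o4, -, -, o7⟩ := hOP L δ hL hδ
  obtain ⟨⟨C, q, hC⟩, -⟩ := hTAY f hf
  have cχ : ∀ d, Continuous fun x => (chi d x : ℂ) := fun d =>
    continuous_ofReal.comp (contDiff_chi d).continuous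
  have e1 : ∀ y, p0 _ (io L δ n y) = io L δ n (p0 nu1 y) := fun y =>
    DFunLike.congr_fun (o4 (fun _ => e00) n continuous_const) y
  have e2 : ∀ y, PK L δ μ (io L δ n y) = io L δ n (P1 (μ * δ) (xi L n / μ) y) := fun y =>
    DFunLike.congr_fun (o3 μ n hμ) y
  have e3 : ∀ y, opw L δ μ f (io L δ n y) = io L δ n (f (μ * δ) (xi L n / μ) y) := fun y =>
    DFunLike.congr_fun ((o2 _ _ fun m => hC _ (xi L m / μ) hD).2 n) y
  have e4 : ∀ y, chiO L δ (io L δ n y) = io L δ n (chi1 y) := fun y => by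
    have := DFunLike.congr_fun (o4 (fun r => (chi 1 r : ℂ) • (1 : Mat)) n ((cχ 1).smul continuous_const)) y
    refine Eq.trans (DFunLike.congr_fun (mm_eq_of fun z => ?_) _) this
    have : (z.im - δ / 4) / (δ / 4) = (z.im / δ - 1 / 4) / (1 / 4) := by field_simp
    simp only [chi, stp, this]
  have e5 : chiO L δ * sms L δ a = sms L δ a * chiO L δ :=
    sm_comm (Bs_rect fun _ _ => (continuous_ofReal.comp (ha.comp continuous_re)).continuousAt)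
      (Bs_rect fun _ _ => ((cχ δ).comp continuous_im).continuousAt).bd
  rw [TT, mul_smul_comm, ← mul_assoc, e5, ← o7, XO]
  simp only [smul_apply, mul_apply_eq_comp, e1, e2, e3, e4]

lemma TT_pair (hTAY : St_TAY) (hOP : St_OP) {L δ μ e : ℝ} (hL : 0 < L) (hδ : 0 < δ) (hμ : 0 < μ)
    (hD : 1 ≤ μ * δ) (h : HL (p0 (nu L δ) * PK L δ μ * p0 (nu L δ)) e) (α β : List ℕ) {κ : ℝ → ℝ}
    (hκ : ContDiff ℝ ∞ κ) {f g : Sy} (hf : f ∈ Wa) (hg : g ∈ Wa) :
    (∑' i, ⟪TT L δ μ (μ ^ wt α)⁻¹ (mono α κ) f (fr L δ i),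
      TT L δ μ (μ ^ wt β)⁻¹ (mono β κ) g (fr L δ i)⟫_ℂ).re =
      μ / μ ^ wt (α ++ β) * ((((2 * Real.pi / L / μ : ℝ) : ℂ) *
        ∑' n : ℤ, gip f g (μ * δ) (2 * Real.pi / L / μ * n)).re / (2 * Real.pi) * mint L (α ++ β) κ) := by
  have ha := cont_mono α hκ
  have hb := cont_mono β hκ
  rw [(summable_inner proj_p0 (pars_fr hL hδ) (TT_p ..) (TT_p ..) (TT_fin h _ _ _) (TT_fin h _ _ _)).tsum_prod]
  have e : ∀ n : ℤ, 2 * Real.pi / L / μ * n = xi L n / μ := fun n => by rw [xi]; ring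
  simp only [TT_fr hTAY hOP hL hδ hμ hD _ ha hf, TT_fr hTAY hOP hL hδ hμ hD _ hb hg, inner_smul_left,
    inner_smul_right, (hOP L δ hL hδ).2.2.2.2.2.1 _ _ _ _ _ ha hb, tsum_mul_left, e, gip, conj_ofReal,
    re_ofReal_mul, mint, mono_append, wt_append, pow_add]
  have := Real.pi_pos
  field_simp

end COL

open COL in
theorem st_col (_hFIB : St_FIB) (hTAY : St_TAY) (hTRG : St_TRG) (hOP : St_OP) (hNF : St_NF) :
    St_COL := by
  intro N
  obtain ⟨l, N1, q1, hl, hN⟩ := hNF N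
  have hW : ∀ k : Fin l.length, (l[k.1]).2 ∈ Wa := fun k => hl _ (List.getElem_mem _)
  choose Γ c q hΓ using fun i : Fin l.length × Fin l.length => hTRG _ (hW i.1) _ (hW i.2) N
  let α : Fin l.length × Fin l.length → List ℕ := fun i => (l[i.1.1]).1 ++ (l[i.2.1]).1
  have hc : ∀ i, 0 ≤ c i := fun i => by simpa using (norm_nonneg _).trans (hΓ i 1 le_rfl).1
  obtain ⟨Q, hQ1, hQ⟩ : ∃ Q, 2 * q1 + 2 ≤ Q ∧ ∀ i, q i ≤ Q := ⟨2 * q1 + 2 + Finset.univ.sup q,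
    Nat.le_add_right _ _, fun i => (Finset.le_sup (f := q) (Finset.mem_univ i)).trans (Nat.le_add_left _ _)⟩
  obtain ⟨N', hN1, hN'⟩ : ∃ N', N1 ≤ N' ∧ ∀ i, (α i).sum ≤ N' :=
    ⟨N1 + Finset.univ.sup fun i => (α i).sum, Nat.le_add_right _ _, fun i =>
      (Finset.le_sup (f := fun i => (α i).sum) (Finset.mem_univ i)).trans (Nat.le_add_left _ _)⟩
  have hqQ : ∀ i (D : ℝ), 1 ≤ D → c i * D ^ q i ≤ c i * D ^ Q := fun i D hD =>
    mul_le_mul_of_nonneg_left (pow_le_pow_right₀ hD (hQ i)) (hc i)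
  obtain ⟨s, G, hs, hG, hsum⟩ := regroup α (fun i D => (Γ i D).re / (2 * Real.pi)) N Q c fun i D hD => by
    rw [abs_div, abs_of_pos Real.two_pi_pos]
    exact (div_le_self (abs_nonneg _) (by linarith [Real.pi_gt_three])).trans
      ((abs_re_le_norm _).trans ((hΓ i D hD).1.trans (hqQ i D hD)))
  refine ⟨s, G, N', Q, hs, hG, fun K => ?_⟩
  obtain ⟨C1, hC1⟩ := hN K
  obtain ⟨C0, hC0, hc0⟩ := c0 K
  let C2 : ℝ := ∑ i, 2 * c i * |K| ^ ((α i).length + 1) * (2 * Real.pi * |K|) ^ N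
  have hC2 : 0 ≤ C2 := Finset.sum_nonneg fun i _ => by have := hc i; positivity
  have hC3 : 0 ≤ |C1| * (4 + |C1|) * C0 := by positivity
  refine ⟨2 * √C0 + |C1| * (4 + |C1|) * C0 + C2, fun L δ μ κ h => ?_⟩
  have hK := h.kap.one_le
  have hL : 0 < L := lt_of_lt_of_le (by positivity) h.lo
  have hδ := h.dpos
  have hD := h.big
  have hsm := h.small
  have hμ0 : 0 < μ := by
    by_contra h0
    nlinarith
  have hK3 : K ≤ K ^ 3 := le_self_pow₀ hK (by norm_num)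
  have hδ1 : 100 * K * δ ≤ 1 := by nlinarith
  have hμK : 100 * K ≤ μ := by nlinarith
  have hμ : 1 ≤ μ := by linarith
  have hDμ : μ * δ ≤ μ := by nlinarith
  have hπ := Real.pi_gt_three
  have he := hc0 L δ μ hK h.lo h.hi hδ hμ
  have he2 : √(C0 * (μ * δ) ^ 2 * μ) ^ 2 = C0 * (μ * δ) ^ 2 * μ := Real.sq_sqrt (by positivity)
  have he0 := Real.sqrt_nonneg (C0 * (μ * δ) ^ 2 * μ)
  have heμ : √(C0 * (μ * δ) ^ 2 * μ) ≤ √C0 * μ ^ 2 := by
    rw [Real.sqrt_le_left (by positivity), mul_pow √C0, Real.sq_sqrt hC0]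
    calc _ ≤ C0 * μ ^ 2 * μ ^ 2 := by gcongr; exact le_self_pow₀ hμ two_ne_zero
      _ = _ := by ring
  set e := √(C0 * (μ * δ) ^ 2 * μ)
  have hQK := (curved_expand h.kap hsm hL hδ hD (contDiff_chi δ) (abs_chi δ) he).1
  refine ⟨hQK.mono (by nlinarith [mul_nonneg (add_nonneg hC3 hC2) (sq_nonneg μ)]), ?_⟩
  obtain ⟨R, hR, hE⟩ := hC1 L δ μ κ ⟨⟨h.kap, h.lo, h.hi, fun j hj => h.bd j (hj.trans hN1)⟩, hδ, hD, hsm⟩
  have hR' : ‖R‖ ≤ |C1| * (μ * δ) ^ q1 * (μ ^ N)⁻¹ := hR.trans (by gcongr; exact le_abs_self _)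
  set r := |C1| * (μ * δ) ^ q1 * (μ ^ N)⁻¹ with hr
  have h1 := hsq_add_sub_le (hQK.mleft (norm_chiO L δ))
    ((HL.mid proj_p0 (proj_PC _) he hR').mleft (norm_chiO L δ)).neg
  have h2 : chiO L δ * (p0 _ * QK L δ μ κ * p0 _) + -(chiO L δ * (p0 _ * PK L δ μ * R * PK L δ μ * p0 _)) =
      ∑ k : Fin l.length, TT L δ μ (μ ^ wt (l[k.1]).1)⁻¹ (mono (l[k.1]).1 κ) (l[k.1]).2 := by
    rw [hE, mul_add, add_neg_cancel_right, ← Fin.sum_univ_fun_getElem, Finset.mul_sum]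
    rfl
  have h3 := hsq_sum proj_p0 (pars_fr hL hδ) (fun k : Fin l.length =>
    TT L δ μ (μ ^ wt (l[k.1]).1)⁻¹ (mono (l[k.1]).1 κ) (l[k.1]).2) (fun _ => TT_p ..) fun _ => TT_fin he _ _ _
  have hh0 : 0 < 2 * Real.pi / L / μ := by positivity
  have hhA : 2 * Real.pi / L / μ ≤ 2 * Real.pi * K / μ := by
    rw [div_eq_mul_inv _ L]
    gcongr
    exact inv_le_of_inv_le₀ (by linarith) h.lo
  have hh1 : 2 * Real.pi / L / μ ≤ 1 :=
    hhA.trans ((div_le_one hμ0).2 (by nlinarith [Real.pi_lt_four]))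
  have h4 : |hsq (∑ k : Fin l.length, TT L δ μ (μ ^ wt (l[k.1]).1)⁻¹ (mono (l[k.1]).1 κ) (l[k.1]).2) -
      ∑ β ∈ s, μ / μ ^ wt β * (G β (μ * δ) * mint L β κ)| ≤ C2 * (μ * δ) ^ Q * (μ / μ ^ N) := by
    rw [h3, hsum μ (μ * δ) fun β => mint L β κ, ← Finset.sum_sub_distrib, Finset.sum_mul, Finset.sum_mul]
    refine (Finset.abs_sum_le_sum_abs _ _).trans (Finset.sum_le_sum fun i _ => ?_)
    rw [TT_pair hTAY hOP hL hδ hμ0 hD he _ _ h.kap.smooth (hW i.1) (hW i.2), abs_of_pos (by linarith : 0 < K)]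
    refine (pair_err _ N hμ (abs_mint h.toBnd (α i) (hN' i)) ((hΓ i _ hD).1.trans (hqQ i _ hD))
      (((hΓ i _ hD).2 _ hh0 hh1).trans (mul_le_mul_of_nonneg_right (hqQ i _ hD) (by positivity))) hh0.le hh1 hhA
      (by nlinarith)).trans (le_of_eq (by ring))
  have h5 : 1 * (r * e) * (2 * (1 * (2 * e)) + 1 * (r * e)) ≤
      |C1| * (4 + |C1|) * C0 * (μ * δ) ^ Q * (μ / μ ^ N) := by
    have a1 : 1 ≤ (μ * δ) ^ q1 := one_le_pow₀ hD
    have a2 : (μ ^ N)⁻¹ ≤ 1 := inv_le_one_of_one_le₀ (one_le_pow₀ hμ)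
    have a3 : 4 + r ≤ (4 + |C1|) * (μ * δ) ^ q1 := by
      have : r ≤ |C1| * (μ * δ) ^ q1 * 1 := by rw [hr]; gcongr
      linarith
    calc _ = r * (4 + r) * e ^ 2 := by ring
      _ ≤ r * ((4 + |C1|) * (μ * δ) ^ q1) * e ^ 2 := by gcongr
      _ = |C1| * (4 + |C1|) * C0 * (μ * δ) ^ (2 * q1 + 2) * (μ / μ ^ N) := by rw [he2, hr]; ring
      _ ≤ _ := by gcongr
  have h6 : 0 ≤ 2 * √C0 * (μ * δ) ^ Q * (μ / μ ^ N) := by positivity
  erw [h2] at h1
  rw [abs_sub_comm] at h1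
  refine (abs_sub_le _ _ _).trans ((add_le_add (h1.trans h5) h4).trans ?_)
  linarith

end Pool.Agent.Lib.ISO
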