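import Pool.Agent.Lib.ISO.BlueE

/-! Block COM: commuting a Fourier multiplier with a tangential multiplication operator. -/

open scoped InnerProductSpace ENNReal ContDiff ComplexConjugate Topology
open MeasureTheory Complex Set Filter

noncomputable section

namespace Pool.Agent.Lib.ISO

open Pool.Agent.Lib.MP_312682_mp

namespace COM

theorem per_deriv {L : ℝ} {a : ℝ → ℝ} (h : Per L a) : Per L (deriv a) := by
  refine ⟨(contDiff_infty_iff_deriv.1 h.smooth).2, fun s => ?_⟩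
  rw [← deriv_comp_add_const a L s]
  congr 1
  exact funext h.per

theorem per_iter {L : ℝ} {a : ℝ → ℝ} (h : Per L a) (j : ℕ) : Per L (iteratedDeriv j a) := by
  induction j with
  | zero => simpa using h
  | succ j ih => rw [iteratedDeriv_succ]; exact per_deriv ih

/-- Fourier coefficient -/
def co (L : ℝ) (a : ℝ → ℝ) (k : ℤ) : ℂ :=
  (L : ℂ)⁻¹ * ∫ s in (0 : ℝ)..L, exp (-(I * xi L k * s)) * (a s : ℂ)

theorem exp_xi {L : ℝ} (hL : 0 < L) (k : ℤ) : exp (-(I * xi L k * L)) = 1 := by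
  have hL' : (L : ℂ) ≠ 0 := ofReal_ne_zero.2 hL.ne'
  have : -(I * xi L k * L) = ((-k : ℤ) : ℂ) * (2 * Real.pi * I) := by
    unfold xi; push_cast; field_simp
  rw [this, exp_int_mul_two_pi_mul_I]

theorem co_deriv {L : ℝ} (hL : 0 < L) {a : ℝ → ℝ} (h : Per L a) (k : ℤ) :
    co L (deriv a) k = I * xi L k * co L a k := by
  have hc : Continuous a := h.smooth.continuous
  have hc' : Continuous (deriv a) := (per_deriv h).smooth.continuous
  have hd : ∀ s : ℝ, HasDerivAt (fun s : ℝ => exp (-(I * xi L k * s)) * (a s : ℂ))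
      (exp (-(I * xi L k * s)) * ((deriv a s : ℝ) : ℂ) -
        I * xi L k * (exp (-(I * xi L k * s)) * (a s : ℂ))) s := fun s => by
    have h1 : HasDerivAt (fun s : ℝ => -(I * xi L k * s)) (-(I * xi L k * 1)) s :=
      ((ofRealCLM.hasDerivAt (x := s)).const_mul _).neg
    have h2 : HasDerivAt (fun s : ℝ => (a s : ℂ)) ((deriv a s : ℝ) : ℂ) s :=
      (h.smooth.differentiable (by simp) s).hasDerivAt.ofReal_comp
    exact (h1.cexp.mul h2).congr_deriv (by ring)
  have i1 : IntervalIntegrable (fun s : ℝ => exp (-(I * xi L k * s)) * ((deriv a s : ℝ) : ℂ))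
      volume 0 L := Continuous.intervalIntegrable (by fun_prop) _ _
  have i2 : IntervalIntegrable (fun s : ℝ => I * xi L k * (exp (-(I * xi L k * s)) * (a s : ℂ)))
      volume 0 L := Continuous.intervalIntegrable (by fun_prop) _ _
  have h3 := intervalIntegral.integral_eq_sub_of_hasDerivAt (fun s _ => hd s) (i1.sub i2)
  have h4 : a L = a 0 := by simpa using h.per 0
  rw [intervalIntegral.integral_sub i1 i2, intervalIntegral.integral_const_mul, exp_xi hL, h4] at h3
  simp only [ofReal_zero, mul_zero, neg_zero, exp_zero, sub_self] at h3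
  unfold co
  rw [sub_eq_zero.1 h3]
  ring

theorem co_iter {L : ℝ} (hL : 0 < L) {a : ℝ → ℝ} (h : Per L a) (k : ℤ) (j : ℕ) :
    co L (iteratedDeriv j a) k = (I * xi L k) ^ j * co L a k := by
  induction j with
  | zero => simp
  | succ j ih => rw [iteratedDeriv_succ, co_deriv hL (per_iter h j), ih]; ring

theorem co_norm {L : ℝ} (hL : 0 < L) {a : ℝ → ℝ} {K' : ℝ} (h : ∀ s, |a s| ≤ K') (k : ℤ) :
    ‖co L a k‖ ≤ K' := by
  have h1 : ‖∫ s in (0 : ℝ)..L, exp (-(I * xi L k * s)) * (a s : ℂ)‖ ≤ K' * |L - 0| := by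
    refine intervalIntegral.norm_integral_le_of_norm_le_const fun s _ => ?_
    have : ‖exp (-(I * xi L k * s))‖ = 1 := by
      rw [norm_exp]; simp
    rw [norm_mul, this, one_mul, norm_real]
    exact h s
  rw [sub_zero, abs_of_pos hL] at h1
  unfold co
  rw [norm_mul, norm_inv, norm_real, Real.norm_of_nonneg hL.le, inv_mul_le_iff₀ hL]
  linarith

theorem summ : Summable fun k : ℤ => 1 / (1 + (k : ℝ) ^ 2) := by
  have h1 : Summable fun k : ℤ => 1 / (k : ℝ) ^ 2 := Real.summable_one_div_int_pow.2 one_lt_two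
  have h2 : Summable fun k : ℤ => if k = 0 then (1 : ℝ) else 0 := (hasSum_ite_eq 0 1).summable
  refine (h1.add h2).of_nonneg_of_le (fun k => by positivity) fun k => ?_
  by_cases hk : k = 0
  · simp [hk]
  · rw [if_neg hk, add_zero]
    have : (0 : ℝ) < (k : ℝ) ^ 2 := by positivity
    gcongr
    linarith

theorem co_decay {L K K' : ℝ} (hL : 0 < L) (hK : 1 ≤ K) (hLK : L ≤ K) {a : ℝ → ℝ} (h : Per L a)
    (j : ℕ) (h1 : ∀ s, |iteratedDeriv j a s| ≤ K') (h2 : ∀ s, |iteratedDeriv (j + 2) a s| ≤ K')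
    (k : ℤ) : |xi L k| ^ j * ‖co L a k‖ ≤ 2 * K' * K ^ 2 * (1 / (1 + (k : ℝ) ^ 2)) := by
  have e : ∀ i, ‖co L (iteratedDeriv i a) k‖ = |xi L k| ^ i * ‖co L a k‖ := fun i => by
    rw [co_iter hL h, norm_mul, norm_pow, norm_mul, norm_I, one_mul, norm_real, Real.norm_eq_abs]
  have b1 := co_norm hL h1 k
  have b2 := co_norm hL h2 k
  rw [e] at b1 b2
  rw [pow_add, sq_abs] at b2
  have hX : 0 ≤ |xi L k| ^ j * ‖co L a k‖ := by positivity
  have h3 : (k : ℝ) ^ 2 ≤ K ^ 2 * xi L k ^ 2 := by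
    have h4 : 1 ≤ K * (2 * Real.pi / L) := by
      rw [← mul_div_assoc, le_div_iff₀ hL]
      nlinarith [Real.pi_gt_three]
    have h5 : 1 ≤ (K * (2 * Real.pi / L)) ^ 2 := one_le_pow₀ h4
    calc (k : ℝ) ^ 2 = 1 * (k : ℝ) ^ 2 := (one_mul _).symm
      _ ≤ (K * (2 * Real.pi / L)) ^ 2 * (k : ℝ) ^ 2 := by gcongr
      _ = _ := by unfold xi; ring
  have h6 : 1 ≤ K ^ 2 := one_le_pow₀ hK
  rw [mul_one_div, le_div_iff₀ (by positivity)]
  calc |xi L k| ^ j * ‖co L a k‖ * (1 + (k : ℝ) ^ 2)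
      ≤ |xi L k| ^ j * ‖co L a k‖ * (K ^ 2 + K ^ 2 * xi L k ^ 2) := by gcongr
    _ = K ^ 2 * (|xi L k| ^ j * ‖co L a k‖ + |xi L k| ^ j * xi L k ^ 2 * ‖co L a k‖) := by ring
    _ ≤ K ^ 2 * (K' + K') := by gcongr
    _ = _ := by ring

theorem bs (L δ : ℝ) [Fact (0 < L)] (g : C(AddCircle L, ℂ)) :
    Bs (nu L δ) fun z => g (z.re : AddCircle L) := by
  refine ⟨Continuous.aestronglyMeasurable ?_, ‖g‖, Eventually.of_forall fun z => g.norm_coe_le_norm _⟩
  exact g.continuous.comp ((AddCircle.continuous_mk' L).comp continuous_re)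

/-- multiplication by a continuous function on the circle -/
def Phi (L δ : ℝ) [Fact (0 < L)] : C(AddCircle L, ℂ) →L[ℂ] (L2 (nu L δ) →L[ℂ] L2 (nu L δ)) :=
  LinearMap.mkContinuous
    { toFun := fun g => sm (nu L δ) fun z => g (z.re : AddCircle L)
      map_add' := fun g g' => by
        rw [sm, sm, sm, mm_add (bs L δ g).bd (bs L δ g').bd]
        exact mm_eq_of fun z => by simp [add_smul]
      map_smul' := fun c g => by
        refine ContinuousLinearMap.ext fun w => Lp.ext ?_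
        simp only [RingHom.id_apply, smul_apply]
        filter_upwards [sm_coe (bs L δ (c • g)) w, sm_coe (bs L δ g) w,
          Lp.coeFn_smul c (sm (nu L δ) (fun z => g (z.re : AddCircle L)) w)] with z h1 h2 h3
        rw [h1, h3, Pi.smul_apply, h2, smul_smul]
        simp }
    1 fun g => by
      rw [one_mul]
      exact sm_norm_le (norm_nonneg g) (Eventually.of_forall fun z => g.norm_coe_le_norm _)

/-- multiplication by a character -/
def ek (L δ : ℝ) (k : ℤ) : L2 (nu L δ) →L[ℂ] L2 (nu L δ) :=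
  sm (nu L δ) fun z => exp (I * xi L k * z.re)

theorem ek_norm (L δ : ℝ) (k : ℤ) : ‖ek L δ k‖ ≤ 1 :=
  sm_norm_le zero_le_one (Eventually.of_forall fun z => by rw [norm_exp]; simp)

theorem hasSum_sms {L : ℝ} (hL : 0 < L) (δ : ℝ) {a : ℝ → ℝ} (h : Per L a)
    (hs : Summable (co L a)) : HasSum (fun k => co L a k • ek L δ k) (sms L δ a) := by
  have : Fact (0 < L) := ⟨hL⟩
  have hL' : (L : ℂ) ≠ 0 := ofReal_ne_zero.2 hL.ne'
  have hp : Function.Periodic (fun s => (a s : ℂ)) L := fun s => by simp only [h.per]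
  have hc : Continuous fun s => (a s : ℂ) := continuous_ofReal.comp h.smooth.continuous
  let g : C(AddCircle L, ℂ) := ⟨hp.lift, continuous_coinduced_dom.2 hc⟩
  have hg : ∀ s : ℝ, g (s : AddCircle L) = a s := fun s => rfl
  have h1 : fourierCoeff g = co L a := by
    funext k
    rw [fourierCoeff_eq_intervalIntegral _ k 0, zero_add, co, real_smul]
    congr 1
    · simp
    · refine intervalIntegral.integral_congr fun s _ => ?_
      simp only [fourier_coe_apply, hg, smul_eq_mul]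
      congr 2
      unfold xi; push_cast; field_simp
  have h2 := (Phi L δ).hasSum (hasSum_fourier_series_of_summable (f := g) (h1 ▸ hs))
  have h3 : ∀ k, Phi L δ (fourier k) = ek L δ k := fun k => by
    refine sm_congr (Eventually.of_forall fun z => ?_)
    simp only [fourier_coe_apply]
    congr 1
    unfold xi; push_cast; field_simp
  simp only [map_smul, h1, h3] at h2
  exact h2

end COM

open COM in
theorem st_com (hTAY : St_TAY) (hOP : St_OP) : St_COM := by
  intro f hf N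
  obtain ⟨⟨C0, q0, hf0⟩, -, hT⟩ := hTAY f hf
  obtain ⟨F, hF, hF0, C, q, hC⟩ := hT N
  refine ⟨fun j => (-I) ^ j • F j, fun j => Wa.smul_mem (hF j) _, by simp [hF0], q, fun K => ?_⟩
  refine ⟨|C| * (2 * K ^ 2 * ∑' k : ℤ, 1 / (1 + (k : ℝ) ^ 2)), ?_⟩
  intro L δ μ K' a hK hL1 hL2 hδ hμ hD ha hb
  have hL : 0 < L := lt_of_lt_of_le (by positivity) hL1
  have hμ0 : 0 < μ := by linarith
  have hμ' : (μ : ℂ) ≠ 0 := ofReal_ne_zero.2 hμ0.ne'
  obtain ⟨ext, hOp, -, -, hek, -, -⟩ := hOP L δ hL hδ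
  have hw : ∀ g ∈ Wa, ∀ n, opw L δ μ g ∘L io L δ n = io L δ n ∘L g (μ * δ) (xi L n / μ) := by
    intro g hg
    obtain ⟨⟨c, p, hc⟩, -⟩ := hTAY g hg
    exact (hOp _ _ fun n => hc _ _ hD).2
  have hdec : ∀ j ≤ N, ∀ k, |xi L k| ^ j * ‖co L a k‖ ≤
      2 * K' * K ^ 2 * (1 / (1 + (k : ℝ) ^ 2)) := fun j hj =>
    co_decay hL hK hL2 ha j (hb j (by omega)) (hb (j + 2) (by omega))
  have hsum : ∀ j ≤ N, HasSum (fun k => ((I * xi L k) ^ j * co L a k) • ek L δ k)
      (sms L δ (iteratedDeriv j a)) := fun j hj => by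
    have h1 := hasSum_sms hL δ (per_iter ha j) (by
      refine Summable.of_norm_bounded (summ.mul_left (2 * K' * K ^ 2)) fun k => ?_
      rw [co_iter hL ha, norm_mul, norm_pow, norm_mul, norm_I, one_mul, norm_real, Real.norm_eq_abs]
      exact hdec j hj k)
    simpa only [co_iter hL ha] using h1
  have hs0 : HasSum (fun k => co L a k • ek L δ k) (sms L δ a) := by
    simpa using hsum 0 (Nat.zero_le N)
  have hs1 := (hs0.mul_left (opw L δ μ f)).sub (hasSum_sum (s := Finset.range N) fun j hj =>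
    ((hsum j (Finset.mem_range.1 hj).le).mul_right (opw L δ μ ((-I) ^ j • F j))).const_smul
      (((μ ^ j)⁻¹ : ℝ) : ℂ))
  have hg := summ.hasSum.mul_left (|C| * (μ * δ) ^ q * (μ ^ N)⁻¹ * (2 * K' * K ^ 2))
  refine (hs1.norm_le_of_bounded hg fun k => ?_).trans (le_of_eq (by ring))
  set R : ℤ → Y →L[ℂ] Y := fun n => f (μ * δ) (xi L n / μ + xi L k / μ) -
    ∑ j ∈ Finset.range N, (((xi L k / μ : ℝ) : ℂ) ^ j) • F j (μ * δ) (xi L n / μ) with hR
  have hR1 : ∀ n, ‖R n‖ ≤ |C| * (μ * δ) ^ q * |xi L k / μ| ^ N := fun n =>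
    (hC _ _ _ hD).trans (by gcongr; exact le_abs_self C)
  obtain ⟨hR2, hR3⟩ := hOp R _ hR1
  have hek' : ∀ n y, ek L δ k (io L δ n y) = io L δ (n + k) y := fun n y =>
    DFunLike.congr_fun (hek n k) y
  have key : opw L δ μ f * co L a k • ek L δ k - ∑ j ∈ Finset.range N,
      (((μ ^ j)⁻¹ : ℝ) : ℂ) • ((((I * xi L k) ^ j * co L a k) • ek L δ k) *
        opw L δ μ ((-I) ^ j • F j)) = co L a k • (ek L δ k * Op L δ R) := by
    refine ext _ _ fun n => ContinuousLinearMap.ext fun y => ?_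
    have e1 : opw L δ μ f (io L δ (n + k) y) =
        io L δ (n + k) (f (μ * δ) (xi L n / μ + xi L k / μ) y) := by
      have : xi L (n + k) / μ = xi L n / μ + xi L k / μ := by unfold xi; push_cast; ring
      rw [← this]
      exact DFunLike.congr_fun (hw f hf (n + k)) y
    have e2 : ∀ j, opw L δ μ ((-I) ^ j • F j) (io L δ n y) =
        (-I) ^ j • io L δ n (F j (μ * δ) (xi L n / μ) y) := fun j => by
      rw [← map_smul]
      exact DFunLike.congr_fun (hw _ (Wa.smul_mem (hF j) _) n) y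
    have e3 : Op L δ R (io L δ n y) = io L δ n (R n y) := DFunLike.congr_fun (hR3 n) y
    simp only [ContinuousLinearMap.comp_apply, sub_apply, mul_apply_eq_comp, smul_apply, sum_apply,
      map_smul, hek', e1, e2, e3]
    simp only [hR, sub_apply, smul_apply, sum_apply, map_smul, map_sub, map_sum, smul_sub,
      Finset.smul_sum, smul_smul]
    congr 1
    refine Finset.sum_congr rfl fun j _ => ?_
    congr 1
    have : (I * xi L k) ^ j * (-I) ^ j = (xi L k : ℂ) ^ j := by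
      rw [← mul_pow]; congr 1; linear_combination (-(xi L k : ℂ)) * I_mul_I
    push_cast
    rw [div_pow, ← this]
    field_simp
  rw [key, norm_smul]
  have h5 : ‖ek L δ k * Op L δ R‖ ≤ |C| * (μ * δ) ^ q * |xi L k / μ| ^ N :=
    (norm_mul_le _ _).trans (by
      calc _ ≤ 1 * (|C| * (μ * δ) ^ q * |xi L k / μ| ^ N) := by
            gcongr
            exact ek_norm L δ k
        _ = _ := one_mul _)
  calc _ ≤ ‖co L a k‖ * (|C| * (μ * δ) ^ q * |xi L k / μ| ^ N) := by gcongr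
    _ = |C| * (μ * δ) ^ q * (μ ^ N)⁻¹ * (|xi L k| ^ N * ‖co L a k‖) := by
        rw [abs_div, abs_of_pos hμ0, div_pow]; ring
    _ ≤ |C| * (μ * δ) ^ q * (μ ^ N)⁻¹ * (2 * K' * K ^ 2 * (1 / (1 + (k : ℝ) ^ 2))) := by
        exact mul_le_mul_of_nonneg_left (hdec N le_rfl k) (by positivity)
    _ = _ := by ring

end Pool.Agent.Lib.ISO
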