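import Pool.Agent.Lib.ISO.BlueK

/-! Block DM: the generic property gives one-sided domination. -/

open scoped ComplexConjugate Topology
open Complex Filter

noncomputable section

namespace Pool.Agent.Lib.ISO
namespace DM

lemma mem_win {W : ℕ} {t : ℤ} : t ∈ win W ↔ |t| ≤ W := by
  rw [win, Finset.mem_Icc, abs_le]

lemma sum_win {M : Type*} [AddCommMonoid M] {J j : ℕ} (h : J ≤ j) (f : ℤ → M)
    (hf : ∀ t : ℤ, (J : ℤ) < |t| → f t = 0) : ∑ t ∈ win j, f t = ∑ t ∈ win J, f t :=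
  (Finset.sum_subset (fun _ ht => mem_win.2 ((mem_win.1 ht).trans (Int.ofNat_le.2 h)))
    fun t _ ht => hf t (lt_of_not_ge fun h => ht (mem_win.2 h))).symm

lemma approx (J : ℕ) (a : ℤ → ℂ) (ha : ∀ t : ℤ, (J : ℤ) < |t| → a t = 0) (δ : ℝ) (hδ : 0 < δ) :
    ∃ l : ℤ →₀ ℚ × ℚ, (∀ t : ℤ, (J : ℤ) < |t| → ra l t = 0) ∧ ∀ t, ‖ra l t - a t‖ ≤ δ := by
  choose p hp using fun t => exists_rat_near (a t).re (half_pos hδ)
  choose q hq using fun t => exists_rat_near (a t).im (half_pos hδ)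
  have h0 : ∀ t : ℤ, (if t ∈ win J then (p t, q t) else 0) ≠ 0 → t ∈ win J := fun t ht => by
    by_contra h
    exact ht (if_neg h)
  have h1 : ∀ t : ℤ, (J : ℤ) < |t| → ra (Finsupp.onFinset (win J) _ h0) t = 0 := fun t ht => by
    have h : t ∉ win J := fun h => (mem_win.1 h).not_gt ht
    simp [ra, h]
  refine ⟨_, h1, fun t => ?_⟩
  by_cases h : t ∈ win J
  · refine (norm_le_abs_re_add_abs_im _).trans ?_
    have e1 : (ra (Finsupp.onFinset (win J) _ h0) t - a t).re = p t - (a t).re := by simp [ra, h]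
    have e2 : (ra (Finsupp.onFinset (win J) _ h0) t - a t).im = q t - (a t).im := by simp [ra, h]
    rw [e1, e2, abs_sub_comm, abs_sub_comm (q t : ℝ)]
    linarith [hp t, hq t]
  · have h' : (J : ℤ) < |t| := lt_of_not_ge fun h2 => h (mem_win.2 h2)
    rw [h1 t h', ha t h', sub_zero, norm_zero]
    exact hδ.le

lemma close (v z : ℤ → ℂ) (J : ℕ) (a : ℤ → ℂ) (ha : ∀ t : ℤ, (J : ℤ) < |t| → a t = 0) (ε : ℝ)
    (hε : 0 < ε) : ∃ l : ℤ →₀ ℚ × ℚ, (∀ t : ℤ, (J : ℤ) < |t| → ra l t = 0) ∧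
      (∀ t, ‖ra l t - a t‖ ≤ ε) ∧ (∀ e ∈ Finset.range 3, |mom e (ra l) J - mom e a J| ≤ ε) ∧
      |qf v (ra l) J - qf v a J| ≤ ε ∧
      ∀ i ∈ win J, ‖∑ t ∈ win J, z (i - t) * ra l t - ∑ t ∈ win J, z (i - t) * a t‖ ≤ ε := by
  choose l hl0 hl using fun n : ℕ => approx J a ha (1 / ((n : ℝ) + 1)) Nat.one_div_pos_of_nat
  have ht : Tendsto (fun n => ra (l n)) atTop (𝓝 a) := tendsto_pi_nhds.2 fun t =>
    tendsto_iff_norm_sub_tendsto_zero.2 (squeeze_zero (fun _ => norm_nonneg _) (fun n => hl n t)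
      tendsto_one_div_add_atTop_nhds_zero_nat)
  have key : ∀ {X : Type} [NormedAddCommGroup X] (F : (ℤ → ℂ) → X), Continuous F →
      ∀ᶠ n in atTop, ‖F (ra (l n)) - F a‖ ≤ ε := fun F hF =>
    (tendsto_iff_norm_sub_tendsto_zero.1 ((hF.tendsto a).comp ht)).eventually (ge_mem_nhds hε)
  have h1 : ∀ᶠ n : ℕ in atTop, 1 / ((n : ℝ) + 1) ≤ ε :=
    tendsto_one_div_add_atTop_nhds_zero_nat.eventually (ge_mem_nhds hε)
  have h2 : ∀ᶠ n in atTop, ∀ e ∈ Finset.range 3, |mom e (ra (l n)) J - mom e a J| ≤ ε :=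
    (eventually_all_finset _).2 fun e _ => key (fun b => mom e b J) (by unfold mom; fun_prop)
  have h3 : ∀ᶠ n in atTop, |qf v (ra (l n)) J - qf v a J| ≤ ε :=
    key (fun b => qf v b J) (by unfold qf; fun_prop)
  have h4 : ∀ᶠ n in atTop, ∀ i ∈ win J,
      ‖∑ t ∈ win J, z (i - t) * ra (l n) t - ∑ t ∈ win J, z (i - t) * a t‖ ≤ ε :=
    (eventually_all_finset _).2 fun i _ => key (fun b => ∑ t ∈ win J, z (i - t) * b t) (by fun_prop)
  obtain ⟨n, k1, k2, k3, k4⟩ := (h1.and (h2.and (h3.and h4))).exists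
  exact ⟨l n, hl0 n, fun t => (hl n t).trans k1, k2, k3, k4⟩

lemma mom_two (a : ℤ → ℂ) (W : ℕ) : 0 ≤ mom 2 a W :=
  Finset.sum_nonneg fun _ _ => by positivity

end DM

open DM in
theorem st_dm (hK4 : St_K4) : St_DM := by
  intro C
  choose W0 hW0 using fun j M : ℕ => hK4 C M j j (1 / ((j : ℝ) + 1)) Nat.one_div_pos_of_nat
  refine ⟨W0, fun z z' hz hz' hI hG J a η hη ha => ?_⟩
  obtain ⟨ε, hε, hε1, hεη⟩ : ∃ ε : ℝ, 0 < ε ∧ ε ≤ 1 ∧ 5 * ε ≤ η :=
    ⟨min 1 (η / 5), by positivity, min_le_left _ _, by linarith [min_le_right 1 (η / 5)]⟩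
  obtain ⟨l, hl0, hl1, hl2, hl3, hl4⟩ := close (cv z z) z J a ha.1 ε hε
  have hm := mom_two a J
  obtain ⟨j, hj⟩ := exists_nat_ge ((J : ℝ) + 1 + |An z| + |An z'| + (4 * mom 2 a J + 5) / ε)
  have hq : 0 ≤ (4 * mom 2 a J + 5) / ε := by positivity
  have hJ0 : (0 : ℝ) ≤ J := J.cast_nonneg
  have a1 := abs_nonneg (An z)
  have a2 := abs_nonneg (An z')
  have hJ1 : (J : ℝ) + 1 ≤ j := by linarith
  have hJ : J ≤ j := Nat.cast_le.1 (by linarith : (J : ℝ) ≤ j)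
  have hJz : (J : ℤ) ≤ j := Int.ofNat_le.2 hJ
  have hA : An z ≤ j := by linarith [le_abs_self (An z)]
  have hA' : An z' ≤ j := by linarith [le_abs_self (An z')]
  have hje : 4 * mom 2 a J + 5 ≤ j * ε := (div_le_iff₀ hε).1 (by linarith)
  have hη' : 1 / ((j : ℝ) + 1) ≤ ε := by
    rw [div_le_iff₀ (by linarith)]
    nlinarith
  have hE : Env j (ra l) := ⟨fun t ht => hl0 t (hJz.trans_lt ht), fun t => by
    linarith [norm_le_norm_add_norm_sub' (ra l t) (a t), hl1 t, ha.2 t]⟩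
  obtain ⟨M, W, hM, hW, hk⟩ := hG j l hE
  have ho := hW0 j M W hW z z' _ hz hz' hA hA' hE (hI j (by linarith) hA hA') hk
  have em : ∀ e, mom e (ra l) j = mom e (ra l) J := fun e =>
    sum_win hJ _ fun t ht => by simp [hl0 t ht]
  have eq : qf (cv z z) (ra l) j = qf (cv z z) (ra l) J := by
    unfold qf
    rw [sum_win hJ _ fun t ht => by simp [hl0 t ht]]
    exact congrArg re (Finset.sum_congr rfl fun t _ => sum_win hJ _ fun t' ht => by simp [hl0 t' ht])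
  have es : ∀ i, ∑ t ∈ win j, z (i - t) * ra l t = ∑ t ∈ win J, z (i - t) * ra l t := fun i =>
    sum_win hJ _ fun t ht => by simp [hl0 t ht]
  have hWp : (0 : ℝ) < W := by
    have : (j : ℝ) ≤ W := Nat.cast_le.2 ho.le
    linarith
  have n0 := ho.n0
  have n1 := ho.n1
  have n2 := ho.n2
  rw [em] at n0 n1 n2
  rw [eq] at n2
  have m0 := hl2 0 (by decide)
  have m1 := hl2 1 (by decide)
  have m2 := abs_le.1 (hl2 2 (by decide))
  have hMj : (j : ℝ) ≤ M := Nat.cast_le.2 hM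
  set d := |qf (cv z' z') (sh z' W (amp M W)) W - qf (cv z z) (ra l) J| with hd
  have hd0 : 0 ≤ d := abs_nonneg _
  have hT : 0 ≤ (2 * (M : ℝ) + 4) * d := by positivity
  have hm' := mom_two (sh z' W (amp M W)) W
  have hdε : d ≤ ε := by
    refine le_of_mul_le_mul_left (?_ : (j : ℝ) * d ≤ j * ε) (by linarith)
    nlinarith
  refine ⟨W, amp M W, by unfold amp; positivity, ⟨hJ.trans ho.le, ?_, ?_, ?_, fun i hi => ?_,
    fun i hi => ?_, fun t ht => ?_⟩, ?_⟩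
  · linarith [abs_sub_le (mom 0 (sh z' W (amp M W)) W) (mom 0 (ra l) J) (mom 0 a J)]
  · linarith [abs_sub_le (mom 1 (sh z' W (amp M W)) W) (mom 1 (ra l) J) (mom 1 a J)]
  · rw [zero_mul]
    linarith [m2.2]
  · linarith [ho.rd' i (hi.trans hJz)]
  · have h1 := ho.rd i (hi.trans hJz)
    rw [es] at h1
    linarith [norm_sub_le_norm_sub_add_norm_sub (cv z z ((W : ℤ) ^ 2 + i) / (2 * (amp M W : ℝ)))
      (∑ t ∈ win J, z (i - t) * ra l t) (∑ t ∈ win J, z (i - t) * a t), hl4 i (mem_win.2 hi)]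
  · linarith [norm_sub_le_norm_sub_add_norm_sub (sh z W (amp M W) t) (ra l t) (a t), ho.near t ht, hl1 t]
  · linarith [abs_sub_le (qf (cv z' z') (sh z' W (amp M W)) W) (qf (cv z z) (ra l) J) (qf (cv z z) a J)]

end Pool.Agent.Lib.ISO
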