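import Pool.Agent.Lib.ISO.BlueE

/-! Every collar family is a domain with uniform bounds. -/

open scoped ContDiff Topology
open Set Filter

noncomputable section

namespace Pool.Agent.Lib.ISO

open Pool.Agent.Lib.MP_312682_mp

namespace DOM

lemma strip_mono {a b : ℝ} (h : a ≤ b) : strip a ⊆ strip b := fun _ hz => ⟨hz.1, hz.2.trans_le h⟩

lemma fam_mono {Ω : Set ℂ} {ι : Type} {γ : ι → ℝ → ℂ} {L : ι → ℝ} {a b : ℝ} (h : Fam Ω γ L b)
    (ha : 0 < a) (hab : a ≤ b) : Fam Ω γ L a :=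
  ⟨fun i => ⟨(h.col i).toCv, h.opn, ha,
      fun s => (mul_le_mul_of_nonneg_left hab (abs_nonneg _)).trans ((h.col i).small s),
      fun z hz => (h.col i).inside z (strip_mono hab hz), (h.col i).bdry,
      fun p hp q hq => (h.col i).inj p (strip_mono hab hp) q (strip_mono hab hq)⟩,
    h.opn, ha, h.bdd, fun i j p hp q hq => h.disj i j p (strip_mono hab hp) q (strip_mono hab hq),
    h.cover⟩

lemma per_iter {f : ℝ → ℝ} {L : ℝ} (h : ∀ s, f (s + L) = f s) (j : ℕ) (s : ℝ) :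
    iteratedDeriv j f (s + L) = iteratedDeriv j f s := by
  induction j generalizing s with
  | zero => simpa using h s
  | succ j ih => rw [iteratedDeriv_succ]; exact per_deriv ih s

lemma ev_inv {a : ℝ} (ha : 0 < a) : ∀ᶠ K : ℝ in atTop, K⁻¹ ≤ a :=
  tendsto_inv_atTop_zero.eventually_le_const ha

lemma ev_bnd {γ : ℝ → ℂ} {L : ℝ} (h : Cv γ L) (N : ℕ) : ∀ᶠ K in atTop, Bnd N K L (kap γ) := by
  obtain ⟨K0, h0⟩ := h.exists_kap
  have h1 : ∀ j ∈ Iic N, ∀ᶠ K in atTop, ∀ s, |iteratedDeriv j (kap γ) s| ≤ K := by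
    intro j _
    obtain ⟨C, hC⟩ := per_bdd h.pos (per_iter h.per_kap j)
      (h0.smooth.continuous_iteratedDeriv j (by exact_mod_cast le_top))
    filter_upwards [eventually_ge_atTop C] with K hK s using (hC s).trans hK
  filter_upwards [eventually_ge_atTop K0, ev_inv h.pos, eventually_ge_atTop L,
    (eventually_all_finite (finite_Iic N)).2 h1] with K a b c d
  exact ⟨⟨h0.smooth, h0.per, h0.one_le.trans a, fun s => (h0.b0 s).trans a,
    fun s => (h0.b1 s).trans a, fun s => (h0.b2 s).trans a⟩, b, c, d⟩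

end DOM

theorem st_dom : St_DOM := by
  intro N n Ω γ L δ0 h
  obtain ⟨M, a, hM, ha⟩ := exists_inBox h.bdd
  refine Eventually.exists (f := atTop) ?_
  filter_upwards [eventually_ge_atTop M, DOM.ev_inv h.dpos, eventually_ge_atTop (n : ℝ),
    eventually_all.2 fun i => DOM.ev_bnd (h.col i).toCv N] with K k1 k2 k3 k4
  refine ⟨by linarith, DOM.fam_mono h (inv_pos.2 (by linarith)) k2, ⟨a, hM.trans k1, fun z hz => ?_⟩,
    k3, k4⟩
  obtain ⟨b1, b2⟩ := ha z hz
  exact ⟨⟨b1.1, by linarith [b1.2]⟩, b2.1, by linarith [b2.2]⟩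

end Pool.Agent.Lib.ISO
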