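import Pool.Agent.Lib.ISO.BlueK

/-! Embeddings of the circle are stable in the `C¹` norm. -/

open scoped ComplexConjugate
open Complex

noncomputable section

namespace Pool.Agent.Lib.ISO

namespace EMB

/-- a curve whose derivative stays close to a fixed vector is injective -/
theorem loc {γ γ' : ℝ → ℂ} (hγ : ∀ t, HasDerivAt γ (γ' t) t) {a b : ℝ} (hab : a < b) (w : ℂ)
    (hw : ∀ u ∈ Set.Icc a b, ‖γ' u - w‖ < ‖w‖) : γ a ≠ γ b := by
  intro he
  have hd : ∀ u, HasDerivAt (fun u => (conj w * γ u).re) ((conj w * γ' u).re) u := fun u =>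
    reCLM.hasFDerivAt.comp_hasDerivAt u ((hγ u).const_mul (conj w))
  obtain ⟨c, hc, h0⟩ := exists_hasDerivAt_eq_zero hab
    (f := fun u => (conj w * γ u).re) (f' := fun u => (conj w * γ' u).re)
    (fun u _ => (hd u).continuousAt.continuousWithinAt) (by simp only [he]) (fun u _ => hd u)
  have h1 := hw c ⟨hc.1.le, hc.2.le⟩
  have h2 : conj w * γ' c = conj w * w + conj w * (γ' c - w) := by ring
  have h3 : (conj w * w).re = ‖w‖ ^ 2 := by
    rw [conj_mul', ← ofReal_pow, ofReal_re]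
  have h4 : |(conj w * (γ' c - w)).re| ≤ ‖w‖ * ‖γ' c - w‖ := by
    refine (abs_re_le_norm _).trans ?_
    rw [norm_mul, norm_conj]
  have h5 : 0 < ‖w‖ := lt_of_le_of_lt (norm_nonneg _) h1
  rw [h2, add_re, h3] at h0
  have h6 := neg_abs_le (conj w * (γ' c - w)).re
  nlinarith

theorem far {g : ℝ → ℂ} (hg : Continuous g) (hp : Function.Periodic g (2 * Real.pi))
    (hi : Set.InjOn g (Set.Ico 0 (2 * Real.pi))) {δ : ℝ} (hδ : 0 < δ) :
    ∃ c > 0, ∀ s t : ℝ, 0 ≤ s → t ≤ 2 * Real.pi → δ ≤ t - s → t - s ≤ 2 * Real.pi - δ →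
      c ≤ ‖g s - g t‖ := by
  set K : Set (ℝ × ℝ) := (Set.Icc 0 (2 * Real.pi) ×ˢ Set.Icc 0 (2 * Real.pi)) ∩
    {p | δ ≤ p.2 - p.1 ∧ p.2 - p.1 ≤ 2 * Real.pi - δ} with hK
  have hc : IsCompact K := by
    refine (isCompact_Icc.prod isCompact_Icc).inter_right ?_
    exact (isClosed_le continuous_const (continuous_snd.sub continuous_fst)).inter
      (isClosed_le (continuous_snd.sub continuous_fst) continuous_const)
  have hf : Continuous fun p : ℝ × ℝ => ‖g p.1 - g p.2‖ :=
    ((hg.comp continuous_fst).sub (hg.comp continuous_snd)).norm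
  have hpos : ∀ p ∈ K, 0 < ‖g p.1 - g p.2‖ := by
    rintro ⟨s, t⟩ ⟨⟨⟨h1, h2⟩, h3, h4⟩, h5, h6⟩
    simp only at h1 h2 h3 h4 h5 h6 ⊢
    rw [norm_pos_iff, sub_ne_zero]
    intro he
    rcases h4.lt_or_eq with h7 | h7
    · have := hi ⟨h1, by linarith⟩ ⟨h3, h7⟩ he
      linarith
    · have h8 : g t = g 0 := by rw [h7]; simpa using hp 0
      have := hi ⟨h1, by linarith⟩ ⟨le_rfl, by positivity⟩ (he.trans h8)
      linarith
  obtain ⟨c, hc0, hcle⟩ := hc.exists_forall_le' hf.continuousOn hpos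
  refine ⟨c, hc0, fun s t h1 h2 h3 h4 => hcle (s, t) ⟨⟨⟨h1, ?_⟩, ?_, h2⟩, h3, h4⟩⟩
  · show s ≤ 2 * Real.pi
    linarith
  · show 0 ≤ t
    linarith

end EMB

theorem st_emb : St_EMB := by
  rintro f ⟨hd, hp, hi, v, hv, hn⟩
  set g := UniformFun.toFun (f 0) with hg
  set g' := UniformFun.toFun (f 1) with hg'
  have c0 : Continuous g := continuous_iff_continuousAt.2 fun t => (hd 0 t).continuousAt
  have c1 : Continuous g' := continuous_iff_continuousAt.2 fun t => (hd 1 t).continuousAt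
  have hu := (isCompact_Icc (a := (0 : ℝ)) (b := 4 * Real.pi)).uniformContinuousOn_of_continuous
    c1.continuousOn
  obtain ⟨δ, hδ, hδ'⟩ := Metric.uniformContinuousOn_iff.1 hu (v / 2) (by positivity)
  obtain ⟨c, hc, hc'⟩ := EMB.far c0 hp hi hδ
  refine ⟨min (v / 2) (c / 3), by positivity, fun γ γ' hγ hγp h0 h1 => ?_⟩
  have hloc : ∀ a b : ℝ, 0 ≤ a → a < b → b ≤ 4 * Real.pi → b - a < δ → γ a ≠ γ b := by
    intro a b ha hab hb hl
    refine EMB.loc hγ hab (g' a) fun u hu => ?_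
    have k1 := hδ' u ⟨by linarith [hu.1], by linarith [hu.2]⟩ a ⟨ha, by linarith⟩ (by
      rw [Real.dist_eq, abs_of_nonneg (by linarith [hu.1])]; linarith [hu.2])
    rw [dist_eq_norm] at k1
    have k2 := (h1 u).trans (min_le_left _ _)
    have k3 := norm_add_le (γ' u - g' u) (g' u - g' a)
    rw [sub_add_sub_cancel] at k3
    rw [hn a]
    linarith
  have key : ∀ s t : ℝ, 0 ≤ s → s < t → t < 2 * Real.pi → γ s ≠ γ t := by
    intro s t hs hst ht
    rcases lt_or_ge (t - s) δ with k | k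
    · exact hloc s t hs hst (by linarith [Real.pi_pos]) k
    rcases lt_or_ge (2 * Real.pi - δ) (t - s) with k' | k'
    · have := hloc t (s + 2 * Real.pi) (by linarith) (by linarith) (by linarith) (by linarith)
      rw [hγp s] at this
      exact this.symm
    · intro he
      have k1 := hc' s t hs ht.le k k'
      have k2 := (h0 s).trans (min_le_right _ _)
      have k3 := (h0 t).trans (min_le_right _ _)
      have k4 := norm_sub_le (γ t - g t) (γ s - g s)
      have k5 : γ t - g t - (γ s - g s) = g s - g t := by rw [he]; ring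
      rw [k5] at k4
      linarith
  intro s hs t ht he
  rcases lt_trichotomy s t with h | h | h
  · exact absurd he (key s t hs.1 h ht.2)
  · exact h
  · exact absurd he.symm (key t s ht.1 h hs.2)

end Pool.Agent.Lib.ISO
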