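import Pool.Agent.Lib.ISO.BlueE

/-! Block EXP: the expansion of the trace in normal form. -/

open scoped ContDiff
open Set Filter

noncomputable section

namespace Pool.Agent.Lib.ISO

open Pool.Agent.Lib.MP_312682_mp

namespace EXP

theorem dom_mono {N N' n : ℕ} {K : ℝ} {Ω : Set ℂ} {γ : Fin n → ℝ → ℂ} {L : Fin n → ℝ}
    (h : Dom N K Ω γ L) (hN : N' ≤ N) : Dom N' K Ω γ L :=
  ⟨h.one_le, h.fam, h.box, h.card, fun i => ⟨(h.bnd i).kap, (h.bnd i).lo, (h.bnd i).hi,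
    fun j hj => (h.bnd i).bd j (hj.trans hN)⟩⟩

theorem mono_le {K : ℝ} (hK : 0 ≤ K) {κ : ℝ → ℝ} (s : ℝ) : ∀ α : List ℕ,
    (∀ j ∈ α, |iteratedDeriv j κ s| ≤ K) → |mono α κ s| ≤ K ^ α.length
  | [], _ => by simp [mono]
  | a :: t, h => by
    have ih := mono_le hK s t fun j hj => h j (List.mem_cons_of_mem _ hj)
    simp only [mono, List.map_cons, List.prod_cons, abs_mul, List.length_cons, pow_succ'] at ih ⊢
    exact mul_le_mul (h a List.mem_cons_self) ih (abs_nonneg _) hK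

theorem mI_le {N n : ℕ} {K : ℝ} {Ω : Set ℂ} {γ : Fin n → ℝ → ℂ} {L : Fin n → ℝ}
    (h : Dom N K Ω γ L) {α : List ℕ} (hα : wt α ≤ N) : |mI α γ L| ≤ K * (K ^ N * K) := by
  have h1 := h.one_le
  have h0 : 0 ≤ K := by linarith
  unfold wt at hα
  have key : ∀ i, |mint (L i) α (kap (γ i))| ≤ K ^ N * K := fun i => by
    have hL : 0 ≤ L i := (inv_nonneg.2 h0).trans (h.bnd i).lo
    have := intervalIntegral.norm_integral_le_of_norm_le_const (a := 0) (b := L i)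
      (f := mono α (kap (γ i))) (C := K ^ N) fun s _ =>
      (mono_le h0 s α fun j hj => (h.bnd i).bd j (by
        have := List.single_le_sum (fun _ _ => Nat.zero_le _) j hj
        omega) s).trans (pow_le_pow_right₀ h1 (by omega))
    rw [sub_zero, abs_of_nonneg hL] at this
    exact this.trans (mul_le_mul_of_nonneg_left (h.bnd i).hi (by positivity))
  refine (Finset.abs_sum_le_sum_abs _ _).trans ((Finset.sum_le_sum fun i _ => key i).trans ?_)
  rw [Finset.sum_const, Finset.card_univ, Fintype.card_fin, nsmul_eq_mul]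
  exact mul_le_mul_of_nonneg_right h.card (by positivity)

/-- the data of a domain -/
abbrev Dat : Type := Σ n : ℕ, Set ℂ × (Fin n → ℝ → ℂ) × (Fin n → ℝ)

end EXP

open EXP in
theorem st_exp (hASM : St_ASM) (hLIM : St_LIM) (hMIR : St_MIR) (hIBP : St_IBP) : St_EXP := by
  classical
  intro N hN
  obtain ⟨s, Γ, N', q, hs, ⟨C0, hC0⟩, hA⟩ := hASM N hN
  obtain ⟨c, hc⟩ := hLIM (S := {x : Dat // ∃ K, Dom (max N' N) K x.2.1 x.2.2.1 x.2.2.2}) (A := s)
    (fun a => wt a.1) (fun a x => mI a.1 x.1.2.2.1 x.1.2.2.2) (fun x μ => Ft x.1.2.1 μ)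
    (fun a D => Γ a.1 D) N q (fun K x => Dom (max N' N) K x.1.2.1 x.1.2.2.1 x.1.2.2.2)
    (fun a => hs a.1 a.2) (fun x => x.2) ⟨C0, fun a => hC0 a.1⟩
    (fun K => ⟨_, fun x hx a => mI_le hx ((hs a.1 a.2).le.trans (le_max_right _ _))⟩)
    (fun K => by
      obtain ⟨C, D0, c, hc, h⟩ := hA K
      refine ⟨C, D0, c, hc, fun x hx μ D h1 h2 h3 h4 => ?_⟩
      have := h _ _ _ _ (dom_mono hx (le_max_left _ _)) μ D h1 h2 h3 h4
      rwa [← Finset.sum_coe_sort] at this)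
  choose t d ht hd using hIBP
  let s0 : Finset s := Finset.univ.filter fun a => Even a.1.sum
  refine ⟨max N' N, s0.biUnion fun a => t a.1,
    fun β => ∑ a ∈ s0, if β ∈ t a.1 then c a * d a.1 β else 0, fun β hβ => ?_, fun K => ?_⟩
  · obtain ⟨a, ha, hβ⟩ := Finset.mem_biUnion.1 hβ
    obtain ⟨h1, h2, h3⟩ := ht a.1 β hβ
    refine ⟨?_, h2 ▸ (Finset.mem_filter.1 ha).2, h3⟩
    have := hs a.1 a.2
    unfold wt at this ⊢
    omega
  obtain ⟨C, μ0, h⟩ := hc K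
  refine ⟨C, max μ0 1, fun n Ω γ L hD μ hμ => ?_⟩
  obtain ⟨Ω', γ', hD', hF, hm⟩ := hMIR _ _ _ _ _ _ hD
  have h1 := h ⟨⟨n, Ω, γ, L⟩, K, hD⟩ hD μ ((le_max_left _ _).trans hμ)
  have h2 := h ⟨⟨n, Ω', γ', L⟩, K, hD'⟩ hD' μ ((le_max_left _ _).trans hμ)
  simp only [hF μ ((le_max_right _ _).trans hμ), hm] at h1 h2
  have e1 : ∀ α, mI α γ L = ∑ β ∈ t α, d α β * mI β γ L := fun α => by
    unfold mI
    simp only [Finset.mul_sum]
    rw [Finset.sum_comm]
    exact Finset.sum_congr rfl fun i _ =>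
      hd α _ _ ⟨(hD.bnd i).kap.smooth, (hD.bnd i).kap.per⟩
  have e2 : ∑ β ∈ s0.biUnion fun a => t a.1, μ / μ ^ wt β *
      ((∑ a ∈ s0, if β ∈ t a.1 then c a * d a.1 β else 0) * mI β γ L) =
      ∑ a ∈ s0, μ / μ ^ wt a.1 * (c a * mI a.1 γ L) := by
    simp only [Finset.sum_mul, Finset.mul_sum]
    rw [Finset.sum_comm]
    refine Finset.sum_congr rfl fun a ha => ?_
    rw [e1 a.1, Finset.mul_sum, Finset.mul_sum]
    refine (Finset.sum_subset (Finset.subset_biUnion_of_mem (fun a : s => t a.1) ha)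
      fun β _ hβ => by rw [if_neg hβ, zero_mul, mul_zero]).symm.trans ?_
    refine Finset.sum_congr rfl fun β hβ => ?_
    obtain ⟨h1, h2, -⟩ := ht a.1 β hβ
    rw [if_pos hβ, wt, wt, h1, h2]
    ring
  have e3 : 2 * ∑ a ∈ s0, μ / μ ^ wt a.1 * (c a * mI a.1 γ L) =
      ∑ a : s, μ / μ ^ wt a.1 * (c a * mI a.1 γ L) +
        ∑ a : s, μ / μ ^ wt a.1 * (c a * ((-1) ^ a.1.sum * mI a.1 γ L)) := by
    rw [← Finset.sum_add_distrib, Finset.sum_filter, Finset.mul_sum]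
    refine Finset.sum_congr rfl fun a _ => ?_
    split_ifs with he
    · rw [he.neg_one_pow]; ring
    · rw [(Nat.not_even_iff_odd.1 he).neg_one_pow]; ring
  rw [e2]
  rw [abs_le] at h1 h2 ⊢
  constructor <;> linarith [h1.1, h1.2, h2.1, h2.2]

end Pool.Agent.Lib.ISO
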