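import Pool.Agent.Lib.ISO.BlueE

/-! The fibre projector: explicit formula, derivative, Hilbert-Schmidt bound, density. -/

open scoped InnerProductSpace ENNReal ContDiff ComplexConjugate Topology
open MeasureTheory Complex Set Filter

noncomputable section

namespace Pool.Agent.Lib.ISO.FIB

open Pool.Agent.Lib.MP_312682_mp

lemma memLp1 {E : Type*} [NormedAddCommGroup E] {f : ℝ → E} (hf : Continuous f) (p : ℝ≥0∞) :
    MemLp f p nu1 := by
  obtain ⟨C, hC⟩ := isCompact_Icc.exists_bound_of_continuousOn (s := Icc (0 : ℝ) 1)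
    hf.continuousOn
  refine MemLp.of_bound hf.aestronglyMeasurable C ?_
  filter_upwards [ae_restrict_mem measurableSet_Ioc] with y hy
  exact hC y (Ioc_subset_Icc_self hy)

lemma integrable1 {E : Type*} [NormedAddCommGroup E] {f : ℝ → E} (hf : Continuous f) :
    Integrable f nu1 := memLp_one_iff_integrable.1 (memLp1 hf 1)

lemma t1_coe {a b c : ℝ → ℂ} (ha : Continuous a) (hb : Continuous b) (hc : Continuous c) :
    t1 a b c =ᵐ[nu1] fun r => (!₂[a r, b r, c r] : E3) :=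
  tl_coe (memLp1 (continuous_E3 ha hb hc) 2)

lemma p0_t1 {a b c : ℝ → ℂ} (ha : Continuous a) (hb : Continuous b) (hc : Continuous c) :
    p0 nu1 (t1 a b c) = t1 a 0 0 := by
  ext1
  filter_upwards [p0_coe (t1 a b c), t1_coe ha hb hc,
    t1_coe ha continuous_zero continuous_zero] with r e1 e2 e3
  rw [e1, e2, e3]
  refine E3_ext ?_ ?_ ?_ <;> simp

lemma shift_t1 (η : ℝ) {a b c : ℝ → ℂ} (ha : Continuous a) (hb : Continuous b)
    (hc : Continuous c) :
    (1 - (η : ℂ) • E1) (t1 a b c) = t1 a (fun r => b r - η * (I * a r)) c := by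
  ext1
  filter_upwards [Lp.coeFn_sub (t1 a b c) ((η : ℂ) • E1 (t1 a b c)),
    Lp.coeFn_smul (η : ℂ) (E1 (t1 a b c)), mm_coe (Bd.const (Em I 0)) (t1 a b c),
    t1_coe ha hb hc, t1_coe (b := fun r => b r - η * (I * a r)) ha (by fun_prop) hc]
    with r e1 e2 e3 e4 e5
  rw [sub_apply, smul_apply, one_apply_eq_self, e1, Pi.sub_apply, e2, Pi.smul_apply, E1, e3, e4, e5]
  refine E3_ext ?_ ?_ ?_ <;> simp [act_apply, Em]

lemma pres (D x η : ℝ) :
    P1 D x * (1 - (η : ℂ) • E1) * P1 D (x + η) = (1 - (η : ℂ) • E1) * P1 D (x + η) := by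
  refine PC_pres' _ ?_
  rintro _ ⟨u, hu, h0, h1, rfl⟩
  have c0 := hu.continuous
  have c1 : Continuous (deriv u) := hu.continuous_deriv (by simp)
  rw [shift_t1 η (by fun_prop) (by fun_prop) c1]
  refine mem_cl ⟨u, hu, h0, h1, ?_⟩
  congr 1
  ext r
  push_cast
  ring

lemma p0_E1 : p0 nu1 * E1 = 0 := p0_EM (Bs.const I) (Bs.const 0)

lemma one_step (D x η : ℝ) :
    p0 nu1 * P1 D (x + η) = p0 nu1 * P1 D x * (1 - (η : ℂ) • E1) * P1 D (x + η) := by
  have h := pres D x η
  calc p0 nu1 * P1 D (x + η) = (p0 nu1 * (1 - (η : ℂ) • E1)) * P1 D (x + η) := by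
        rw [mul_sub, mul_smul_comm, p0_E1, smul_zero, sub_zero, mul_one]
    _ = p0 nu1 * (P1 D x * (1 - (η : ℂ) • E1) * P1 D (x + η)) := by rw [h, mul_assoc]
    _ = _ := by simp only [mul_assoc]

lemma proj1 (D x : ℝ) : Proj (P1 D x) := proj_PC _

lemma diff (D x η : ℝ) : P1 D (x + η) - P1 D x = (η : ℂ) •
    (P1 D x * star E1 * (1 - P1 D (x + η)) + (1 - P1 D x) * E1 * P1 D (x + η)) := by
  have h1 := pres D x η
  have h2 := pres D (x + η) (-η)
  rw [add_neg_cancel_right] at h2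
  have h3 := congrArg star h2
  simp only [star_mul, star_sub, star_one, star_smul, (proj1 D x).sa, (proj1 D (x + η)).sa,
    RCLike.star_def, conj_ofReal] at h3
  set P := P1 D x
  set Q := P1 D (x + η)
  set F := star E1
  simp only [mul_sub, sub_mul, mul_one, one_mul, mul_smul_comm, smul_mul_assoc, ofReal_neg,
    neg_smul, sub_neg_eq_add, mul_add, add_mul, mul_assoc, smul_add,
    smul_sub] at h1 h3 ⊢
  have a1 : Q = P * Q - (η : ℂ) • (P * (E1 * Q)) + (η : ℂ) • (E1 * Q) := by rw [h1]; abel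
  have a2 : P * Q = P + (η : ℂ) • (P * F) - (η : ℂ) • (P * (F * Q)) := by rw [← h3]; abel
  conv_lhs => rw [a1, a2]
  abel

lemma norm_diff (D x η : ℝ) : ‖P1 D (x + η) - P1 D x‖ ≤ 2 * ‖E1‖ * |η| := by
  rw [diff, norm_smul, norm_real, Real.norm_eq_abs, mul_comm]
  gcongr
  have := nadd (nmul (nmul (proj1 D x).norm_le (nstar (le_refl ‖E1‖)))
    (proj1 D (x + η)).compl.norm_le)
    (nmul (nmul (proj1 D x).compl.norm_le (le_refl ‖E1‖)) (proj1 D (x + η)).norm_le)
  linarith

lemma deriv1 (D x : ℝ) : HasDerivAt (P1 D)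
    (P1 D x * star E1 * (1 - P1 D x) + (1 - P1 D x) * E1 * P1 D x) x := by
  rw [hasDerivAt_iff_isLittleO_nhds_zero]
  refine Asymptotics.IsBigO.trans_isLittleO (g := fun h : ℝ => h ^ 2) ?_
    (Asymptotics.isLittleO_pow_id one_lt_two)
  refine Asymptotics.IsBigO.of_bound (4 * ‖E1‖ ^ 2) (Eventually.of_forall fun η => ?_)
  have e : P1 D (x + η) - P1 D x -
      η • (P1 D x * star E1 * (1 - P1 D x) + (1 - P1 D x) * E1 * P1 D x) = (η : ℂ) •
      ((1 - P1 D x) * E1 * (P1 D (x + η) - P1 D x) -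
        P1 D x * star E1 * (P1 D (x + η) - P1 D x)) := by
    conv_lhs => rw [diff]
    have hs : ∀ T : Y →L[ℂ] Y, η • T = (η : ℂ) • T := fun T =>
      RCLike.real_smul_eq_coe_smul (K := ℂ) η T
    rw [hs, ← smul_sub]
    congr 1
    noncomm_ring
  have h := norm_diff D x η
  have := nsub (nmul (nmul (proj1 D x).compl.norm_le (le_refl ‖E1‖)) h)
    (nmul (nmul (proj1 D x).norm_le (nstar (le_refl ‖E1‖))) h)
  rw [e, norm_smul, norm_real, Real.norm_eq_abs, Real.norm_eq_abs, abs_pow]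
  calc _ ≤ |η| * (1 * ‖E1‖ * (2 * ‖E1‖ * |η|) + 1 * ‖E1‖ * (2 * ‖E1‖ * |η|)) := by gcongr
    _ = _ := by ring

lemma lam_pos' {D : ℝ} (hD : 0 < D) (x : ℝ) : 0 < D * √(1 + x ^ 2) := by positivity

lemma lam_sq' (D x : ℝ) : (D * √(1 + x ^ 2)) ^ 2 = D ^ 2 * (1 + x ^ 2) := by
  rw [mul_pow, Real.sq_sqrt (by positivity)]

lemma formula {D : ℝ} (x : ℝ) {a b c F : ℝ → ℂ} (hD : 0 < D) (ha : ContDiff ℝ ∞ a)
    (hb : ContDiff ℝ ∞ b) (hc : ContDiff ℝ ∞ c)
    (hF : ∀ r, F r = D * a r - I * (D * x : ℝ) * b r - deriv c r) :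
    P1 D x (t1 a b c) = t1 (fun r => D * Sol (D * √(1 + x ^ 2)) 1 F r)
      (fun r => I * (D * x : ℝ) * Sol (D * √(1 + x ^ 2)) 1 F r) (Sol' (D * √(1 + x ^ 2)) 1 F) := by
  have hΛ := lam_pos' hD x
  have hsq := lam_sq' D x
  set Λ := D * √(1 + x ^ 2)
  have hc' : ContDiff ℝ ∞ (deriv c) := (contDiff_infty_iff_deriv.1 hc).2
  have hfs : ContDiff ℝ ∞ F := by
    rw [show F = _ from funext hF]; fun_prop
  set U := Sol Λ 1 F with hU
  set U' := Sol' Λ 1 F with hU'
  have s1 : ContDiff ℝ ∞ U := contDiff_Sol hfs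
  have d1U : ∀ r, HasDerivAt U (U' r) r := hd_Sol hfs.continuous
  have d2U : ∀ r, HasDerivAt U' (Λ ^ 2 • U r - F r) r := hd_Sol' hΛ one_pos hfs.continuous
  have eU : U' = deriv U := funext fun r => (d1U r).deriv.symm
  have cU := s1.continuous
  have cU' : Continuous U' := continuous_Sol' hΛ one_pos hfs.continuous
  have ca := ha.continuous
  have cb := hb.continuous
  have cc := hc.continuous
  have cc' := hc'.continuous
  have cF := hfs.continuous
  refine PC_eq (mem_cl ⟨U, s1, Sol_zero, Sol_end, by rw [eU]⟩) ?_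
  rintro _ ⟨φ, p1, p2, p3, rfl⟩
  have cφ := p1.continuous
  have cφ' : Continuous (deriv φ) := p1.continuous_deriv (by simp)
  have dφ : ∀ r, HasDerivAt (fun r => conj (φ r)) (conj (deriv φ r)) r := fun r =>
    (p1.differentiable (by simp) r).hasDerivAt.star
  have i1 := intervalIntegral.integral_eq_sub_of_hasDerivAt (a := 0) (b := 1)
    (f := fun r => conj (φ r) * (c r - U' r))
    (f' := fun r => conj (deriv φ r) * (c r - U' r) +
      conj (φ r) * (deriv c r - (Λ ^ 2 • U r - F r)))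
    (fun r _ => (dφ r).mul ((hc.differentiable (by simp) r).hasDerivAt.sub (d2U r)))
    (Continuous.intervalIntegrable (by fun_prop) _ _)
  simp only [p2, p3, map_zero, zero_mul, sub_self] at i1
  rw [intervalIntegral.integral_of_le zero_le_one] at i1
  rw [inner_eq_zero_symm, L2.inner_def, ← i1]
  refine integral_congr_ae ?_
  filter_upwards [t1_coe (a := fun r => D * φ r) (b := fun r => I * (D * x : ℝ) * φ r)
      (by fun_prop) (by fun_prop) cφ',
    Lp.coeFn_sub (t1 a b c) (t1 (fun r => D * U r) (fun r => I * (D * x : ℝ) * U r) U'),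
    t1_coe ca cb cc, t1_coe (a := fun r => D * U r) (b := fun r => I * (D * x : ℝ) * U r)
      (by fun_prop) (by fun_prop) cU'] with r e1 e2 e3 e4
  rw [e1, e2, Pi.sub_apply, e3, e4, inner_E3, hsq, hF]
  simp only [PiLp.sub_apply, Matrix.cons_val_zero, Matrix.cons_val_one,
    Matrix.cons_val, map_mul, conj_ofReal, conj_I, real_smul]
  push_cast
  ring_nf
  simp only [I_sq]
  ring

lemma memLp_comp (y : Y) (i : Fin 3) : MemLp (fun r => y r i) 2 nu1 :=
  (EuclideanSpace.proj (𝕜 := ℂ) i).comp_memLp' (Lp.memLp y)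

lemma inner_t1 {a b c : ℝ → ℂ} (ha : Continuous a) (hb : Continuous b) (hc : Continuous c)
    (y : Y) : ⟪t1 a b c, y⟫_ℂ =
      ∫ r in Ioc (0 : ℝ) 1, (conj (a r) * y r 0 + conj (b r) * y r 1 + conj (c r) * y r 2) := by
  rw [L2.inner_def]
  refine integral_congr_ae ?_
  filter_upwards [t1_coe ha hb hc] with r e
  rw [e, inner_E3]
  simp

lemma pars1 : Pars f1 (p0 nu1) := by
  intro y
  rw [nsq, norm_p0, parseval1' one_pos (memLp_comp y 0)]
  congr 1
  ext j
  rw [f1, inner_t1 (continuous_ex 1 j) continuous_zero continuous_zero]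
  simp

/-- the smooth triples form a subspace -/
def smT : Submodule ℂ Y where
  carrier := {y : Y | ∃ a b c : ℝ → ℂ, ContDiff ℝ ∞ a ∧ ContDiff ℝ ∞ b ∧ ContDiff ℝ ∞ c ∧
    y = t1 a b c}
  add_mem' := by
    rintro _ _ ⟨a, b, c, ha, hb, hc, rfl⟩ ⟨a', b', c', ha', hb', hc', rfl⟩
    refine ⟨_, _, _, ha.add ha', hb.add hb', hc.add hc', ?_⟩
    ext1
    filter_upwards [Lp.coeFn_add (t1 a b c) (t1 a' b' c'),
      t1_coe ha.continuous hb.continuous hc.continuous,
      t1_coe ha'.continuous hb'.continuous hc'.continuous,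
      t1_coe (ha.add ha').continuous (hb.add hb').continuous (hc.add hc').continuous]
      with r e1 e2 e3 e4
    rw [e1, Pi.add_apply, e2, e3, e4]
    refine E3_ext ?_ ?_ ?_ <;> simp
  zero_mem' := by
    refine ⟨0, 0, 0, contDiff_const, contDiff_const, contDiff_const, ?_⟩
    ext1
    filter_upwards [Lp.coeFn_zero E3 2 nu1,
      t1_coe continuous_zero continuous_zero continuous_zero] with r e1 e2
    rw [e1, e2]
    refine E3_ext ?_ ?_ ?_ <;> simp
  smul_mem' := by
    rintro k _ ⟨a, b, c, ha, hb, hc, rfl⟩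
    refine ⟨_, _, _, ha.const_smul k, hb.const_smul k, hc.const_smul k, ?_⟩
    ext1
    filter_upwards [Lp.coeFn_smul k (t1 a b c),
      t1_coe ha.continuous hb.continuous hc.continuous,
      t1_coe (ha.const_smul k).continuous (hb.const_smul k).continuous
        (hc.const_smul k).continuous] with r e1 e2 e3
    rw [e1, Pi.smul_apply, e2, e3]
    refine E3_ext ?_ ?_ ?_ <;> simp

lemma comp_zero {y : Y} {i : Fin 3}
    (h : ∀ j : ℤ, ∫ r in Ioc (0 : ℝ) 1, conj (ex 1 j r) * y r i = 0) :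
    ∫ r in Ioc (0 : ℝ) 1, ‖y r i‖ ^ 2 = 0 := by
  have := parseval1 one_pos (memLp_comp y i)
  simp only [h, norm_zero, ne_eq, OfNat.ofNat_ne_zero, not_false_eq_true, zero_pow] at this
  exact this.unique hasSum_zero

lemma dense1 : Dense (smT : Set Y) := by
  rw [Submodule.dense_iff_topologicalClosure_eq_top, Submodule.topologicalClosure_eq_top_iff,
    eq_bot_iff]
  intro y hy
  rw [Submodule.mem_orthogonal] at hy
  have z : ContDiff ℝ ∞ (0 : ℝ → ℂ) := contDiff_const
  have h0 : ∫ r in Ioc (0 : ℝ) 1, ‖y r 0‖ ^ 2 = 0 := comp_zero fun j => by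
    have := hy _ ⟨_, _, _, contDiff_ex 1 j, z, z, rfl⟩
    rw [inner_t1 (continuous_ex 1 j) continuous_zero continuous_zero] at this
    simpa using this
  have h1 : ∫ r in Ioc (0 : ℝ) 1, ‖y r 1‖ ^ 2 = 0 := comp_zero fun j => by
    have := hy _ ⟨_, _, _, z, contDiff_ex 1 j, z, rfl⟩
    rw [inner_t1 continuous_zero (continuous_ex 1 j) continuous_zero] at this
    simpa using this
  have h2 : ∫ r in Ioc (0 : ℝ) 1, ‖y r 2‖ ^ 2 = 0 := comp_zero fun j => by
    have := hy _ ⟨_, _, _, z, z, contDiff_ex 1 j, rfl⟩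
    rw [inner_t1 continuous_zero continuous_zero (continuous_ex 1 j)] at this
    simpa using this
  have i0 := (memLp_comp y 0).integrable_norm_pow two_ne_zero
  have i1 := (memLp_comp y 1).integrable_norm_pow two_ne_zero
  have i2 := (memLp_comp y 2).integrable_norm_pow two_ne_zero
  have h : ‖y‖ ^ 2 = 0 := by
    rw [norm_sq_L2]
    simp_rw [norm_sq_E3]
    rw [integral_add (f := fun z => ‖y z 0‖ ^ 2 + ‖y z 1‖ ^ 2) (i0.add i1) i2, integral_add i0 i1,
      h0, h1, h2]
    simp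
  rw [Submodule.mem_bot]
  simpa using h

lemma V1 {D : ℝ} (hD : 0 < D) (x : ℝ) (j : ℤ) : (p0 nu1 * P1 D x * p0 nu1) (f1 j) =
    t1 (fun r => D ^ 2 * Sol (D * √(1 + x ^ 2)) 1 (ex 1 j) r) 0 0 := by
  have hΛ := lam_pos' hD x
  have ce := continuous_ex 1 j
  have cF : Continuous fun r => D • ex 1 j r := by fun_prop
  have cS := continuous_Sol (Λ := D * √(1 + x ^ 2)) (δ := 1) cF
  simp only [mul_apply_eq_comp]
  rw [f1, p0_t1 ce continuous_zero continuous_zero,
    formula x (b := 0) (c := 0) (F := fun r => D • ex 1 j r) hD (contDiff_ex 1 j) contDiff_const contDiff_const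
      (fun r => by simp), p0_t1 (by fun_prop) (by fun_prop) (continuous_Sol' hΛ one_pos cF)]
  congr 1
  ext r
  rw [Sol_smul, real_smul]
  ring

lemma hl1 {D : ℝ} (hD : 0 < D) (x : ℝ) : HL (p0 nu1 * P1 D x * p0 nu1) (D / √(1 + x ^ 2)) := by
  have hΛ := lam_pos' hD x
  have hsq := lam_sq' D x
  have hV := V1 hD x
  have hx : 0 < 1 + x ^ 2 := by positivity
  refine ⟨by positivity, ?_⟩
  rw [hs2_frame pars1 _ (by
    rw [show ContinuousLinearMap.adjoint (p0 nu1) = p0 nu1 from proj_p0.sa,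
      ← ContinuousLinearMap.mul_def, mul_assoc, proj_p0.idem]), ENNReal.tsum_eq_iSup_sum,
    div_pow, Real.sq_sqrt hx.le]
  set Λ := D * √(1 + x ^ 2)
  refine iSup_le fun S => ?_
  unfold nsq
  rw [← ENNReal.ofReal_sum_of_nonneg fun _ _ => by positivity]
  apply ENNReal.ofReal_le_ofReal
  have cS : ∀ j, Continuous (Sol Λ 1 (ex 1 j)) := fun j => continuous_Sol (continuous_ex 1 j)
  have e : ∀ j, ‖(p0 nu1 * P1 D x * p0 nu1) (f1 j)‖ ^ 2 =
      ∫ r, D ^ 4 * ‖Sol Λ 1 (ex 1 j) r‖ ^ 2 ∂nu1 := by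
    intro j
    have := cS j
    rw [hV, norm_sq_L2]
    refine integral_congr_ae ?_
    filter_upwards [t1_coe (a := fun r => D ^ 2 * Sol Λ 1 (ex 1 j) r) (by fun_prop)
      continuous_zero continuous_zero] with r e1
    rw [e1, norm_sq_E3]
    simp [mul_pow]
    ring_nf
    simp
  simp_rw [e]
  rw [← integral_finsetSum _ fun j _ => integrable1 (by have := cS j; fun_prop)]
  refine (Real.le_norm_self _).trans ((norm_integral_le_of_norm_le_const
    (C := D ^ 4 * (2 * Λ)⁻¹ ^ 2) ?_).trans ?_)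
  · filter_upwards [ae_restrict_mem measurableSet_Ioc] with r hr
    have hr' := Ioc_subset_Icc_self hr
    rw [Real.norm_of_nonneg (by positivity), ← Finset.mul_sum]
    gcongr
    have hs := pars_kernel one_pos (continuous_Gk Λ 1 r)
    simp_rw [← Sol_eq (continuous_ex 1 _) hr'] at hs
    refine (sum_le_hasSum S (fun _ _ => by positivity) hs).trans ?_
    refine (Real.le_norm_self _).trans ((intervalIntegral.norm_integral_le_of_norm_le_const
      (C := (2 * Λ)⁻¹ ^ 2) fun y hy => ?_).trans (le_of_eq ?_))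
    · rw [uIoc_of_le zero_le_one] at hy
      have hy' := Ioc_subset_Icc_self hy
      rw [Real.norm_of_nonneg (sq_nonneg _)]
      exact pow_le_pow_left₀ (Gk_nonneg hΛ one_pos hr' hy') (Gk_le hΛ one_pos hr' hy') 2
    · simp
  · have : (nu1.real univ) = 1 := by simp [Measure.real]
    rw [this, mul_one, inv_pow, mul_pow, hsq, ← div_eq_mul_inv, div_le_div_iff₀ (by positivity) hx]
    have : 0 ≤ D ^ 4 * (1 + x ^ 2) := by positivity
    nlinarith

end Pool.Agent.Lib.ISO.FIB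

namespace Pool.Agent.Lib.ISO

theorem st_fib : St_FIB :=
  ⟨fun D x η _ => FIB.one_step D x η, fun D x _ => FIB.deriv1 D x, fun _ x hD => FIB.hl1 hD x,
    fun _ x _ _ _ _ hD ha hb hc hF => FIB.formula x hD ha hb hc hF, FIB.dense1, FIB.pars1⟩

end Pool.Agent.Lib.ISO
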