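import Pool.Agent.Lib.ISO.BlueE

/-! Block FLAT: the interior term of the trace, to all orders. -/

open scoped InnerProductSpace ENNReal ContDiff ComplexConjugate Topology

noncomputable section

namespace Pool.Agent.Lib.ISO

open Pool.Agent.Lib.MP_312682_mp

namespace FLAT

section

open MeasureTheory Set Real

lemma theta_tail' (k : ℕ) {y : ℝ} (hy : 0 < y) :
    |∑' m : ℤ, exp (-y * (m : ℝ) ^ 2) - 1| ≤ (k + 2).factorial * zeta4 / y ^ (k + 2) := by
  have h1 : HasSum (fun m : ℤ => 1 / (m : ℝ) ^ 4) zeta4 :=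
    (summable_one_div_int_pow.2 (by norm_num)).hasSum
  have h2 := (hasSum_ite_eq (0 : ℤ) (1 : ℝ)).add (h1.mul_left ((k + 2).factorial / y ^ (k + 2)))
  have h3 : ∀ m : ℤ, exp (-y * (m : ℝ) ^ 2) ≤
      (if m = 0 then 1 else 0) + (k + 2).factorial / y ^ (k + 2) * (1 / (m : ℝ) ^ 4) := by
    intro m
    split_ifs with h
    · simp [h]
    · have hm : (m : ℝ) ≠ 0 := by exact_mod_cast h
      have hm1 : (1 : ℝ) ≤ (m : ℝ) ^ 2 := by
        have : (1 : ℤ) ≤ m ^ 2 := by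
          have := sq_pos_of_ne_zero (a := m) h
          omega
        exact_mod_cast this
      have hx : 0 < y * (m : ℝ) ^ 2 := by positivity
      have := pow_div_factorial_le_exp _ hx.le (k + 2)
      have h4 : ((m : ℝ) ^ 2) ^ 2 ≤ ((m : ℝ) ^ 2) ^ (k + 2) := pow_le_pow_right₀ hm1 (by omega)
      rw [zero_add, neg_mul, exp_neg]
      calc _ ≤ ((y * (m : ℝ) ^ 2) ^ (k + 2) / ((k + 2).factorial))⁻¹ := by gcongr
        _ = (k + 2).factorial / y ^ (k + 2) * (1 / ((m : ℝ) ^ 2) ^ (k + 2)) := by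
          rw [mul_pow]; field_simp
        _ ≤ (k + 2).factorial / y ^ (k + 2) * (1 / ((m : ℝ) ^ 2) ^ 2) := by gcongr
        _ = _ := by rw [← pow_mul]
  have hs : Summable fun m : ℤ => exp (-y * (m : ℝ) ^ 2) :=
    h2.summable.of_nonneg_of_le (fun m => (exp_pos _).le) h3
  have h4 := hasSum_le h3 hs.hasSum h2
  have h5 := hs.le_tsum 0 fun m _ => (exp_pos _).le
  simp only [Int.cast_zero, ne_eq, OfNat.ofNat_ne_zero, not_false_eq_true, zero_pow, mul_zero,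
    exp_zero] at h5
  rw [abs_le]
  have : 0 ≤ (k + 2).factorial * zeta4 / y ^ (k + 2) := by have := zeta4_nonneg; positivity
  constructor
  · linarith
  · have e : (k + 2).factorial / y ^ (k + 2) * zeta4 = (k + 2).factorial * zeta4 / y ^ (k + 2) := by ring
    linarith

lemma theta_est' (k : ℕ) {h t : ℝ} (hh : 0 < h) (ht : 0 < t) :
    |h * ∑' n : ℤ, exp (-(h ^ 2 * t) * (n : ℝ) ^ 2) - √π * t ^ (-(1 / 2) : ℝ)| ≤
      2 * (k + 2).factorial * zeta4 * (h ^ 2) ^ (k + 2) * (t ^ (-(1 / 2) : ℝ) * t ^ (k + 2)) := by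
  have ha : 0 < h ^ 2 * t / π := by positivity
  have h1 := tsum_exp_neg_mul_int_sq ha
  have e1 : -π * (h ^ 2 * t / π) = -(h ^ 2 * t) := by field_simp
  have e2 : -π / (h ^ 2 * t / π) = -(π ^ 2 / (h ^ 2 * t)) := by field_simp
  rw [e1, e2] at h1
  have h2 := theta_tail' k (y := π ^ 2 / (h ^ 2 * t)) (by positivity)
  have e3 : h * (1 / (h ^ 2 * t / π) ^ (1 / 2 : ℝ)) = √π * t ^ (-(1 / 2) : ℝ) := by
    rw [rpow_neg ht.le, ← sqrt_eq_rpow, ← sqrt_eq_rpow, sqrt_div (by positivity),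
      sqrt_mul (by positivity), sqrt_sq hh.le]
    field_simp
  rw [h1, ← mul_assoc, e3, ← mul_sub_one, abs_mul, abs_of_pos (by positivity)]
  have h5 : √π ≤ 2 := by
    rw [sqrt_le_iff]; constructor
    · norm_num
    · linarith [pi_le_four]
  have hz := zeta4_nonneg
  have h6 : (k + 2).factorial * zeta4 / (π ^ 2 / (h ^ 2 * t)) ^ (k + 2) ≤
      (k + 2).factorial * zeta4 * ((h ^ 2) ^ (k + 2) * t ^ (k + 2)) := by
    have : 1 ≤ (π ^ 2) ^ (k + 2) := one_le_pow₀ (one_le_pow₀ (by linarith [pi_gt_three]))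
    have e : (k + 2).factorial * zeta4 / (π ^ 2 / (h ^ 2 * t)) ^ (k + 2) =
        (k + 2).factorial * zeta4 * ((h ^ 2) ^ (k + 2) * t ^ (k + 2)) / (π ^ 2) ^ (k + 2) := by
      rw [div_pow, mul_pow]; field_simp
    rw [e]
    exact div_le_self (by positivity) this
  calc _ ≤ 2 * t ^ (-(1 / 2) : ℝ) * ((k + 2).factorial * zeta4 * ((h ^ 2) ^ (k + 2) * t ^ (k + 2))) := by
        gcongr
        exact h2.trans h6
    _ = _ := by ring

theorem lat_est' (k : ℕ) {a : ℝ} (ha : 1 / 2 < a) : ∃ C, ∀ h μ : ℝ, 0 < h → 0 < μ →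
    |h * ∑' n : ℤ, (1 / ((h * n) ^ 2 + μ ^ 2)) ^ a -
      √π * Gamma (a - 1 / 2) / Gamma a * (1 / μ ^ 2) ^ (a - 1 / 2)| ≤
      C * (h ^ 2) ^ (k + 2) * (1 / μ ^ 2) ^ (a - 1 / 2 + (k + 2 : ℕ)) := by
  refine ⟨2 * (k + 2).factorial * zeta4 * Gamma (a - 1 / 2 + (k + 2 : ℕ)) / Gamma a, fun h μ hh hμ => ?_⟩
  have ha0 : 0 < a := by linarith
  have hk : (0 : ℝ) ≤ (k + 2 : ℕ) := Nat.cast_nonneg _
  have hG := Gamma_pos_of_pos ha0
  have hx : ∀ n : ℤ, 0 < (h * n) ^ 2 + μ ^ 2 := fun n => by positivity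
  let F : ℤ → ℝ → ℝ := fun n t => t ^ (a - 1) * exp (-(((h * n) ^ 2 + μ ^ 2) * t))
  have hF : ∀ n, ∫ t in Ioi 0, F n t = (1 / ((h * n) ^ 2 + μ ^ 2)) ^ a * Gamma a :=
    fun n => integral_rpow_mul_exp_neg_mul_Ioi ha0 (hx n)
  have hFn : ∀ n, ∫ t in Ioi 0, ‖F n t‖ = (1 / ((h * n) ^ 2 + μ ^ 2)) ^ a * Gamma a := by
    intro n
    rw [← hF]
    refine setIntegral_congr_fun measurableSet_Ioi fun t ht => ?_
    have : 0 < t := ht
    exact norm_of_nonneg (by simp only [F]; positivity)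
  have hs := summable_lat (μ := μ) hh ha
  have h1 := hasSum_integral_of_summable_integral_norm (μ := volume.restrict (Ioi 0)) (F := F)
    (fun n => integrableOn_gamma ha0 (hx n)) (by simp_rw [hFn]; exact hs.mul_right _)
  simp_rw [hF] at h1
  have h2 := (hs.hasSum.mul_right (Gamma a)).unique h1
  set S := ∑' n : ℤ, (1 / ((h * n) ^ 2 + μ ^ 2)) ^ a with hS
  have hSpos : 0 < S := hs.tsum_pos (fun n => by positivity) 0 (by positivity)
  have hint : IntegrableOn (fun t => ∑' n, F n t) (Ioi 0) :=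
    Integrable.of_integral_ne_zero (by rw [← h2]; positivity)
  have i1 := integrableOn_gamma (a := a - 1 / 2) (r := μ ^ 2) (by linarith) (by positivity)
  have i2 := integrableOn_gamma (a := a - 1 / 2 + (k + 2 : ℕ)) (r := μ ^ 2) (by linarith) (by positivity)
  have v1 := integral_rpow_mul_exp_neg_mul_Ioi (a := a - 1 / 2) (r := μ ^ 2) (by linarith)
    (by positivity)
  have v2 := integral_rpow_mul_exp_neg_mul_Ioi (a := a - 1 / 2 + (k + 2 : ℕ)) (r := μ ^ 2) (by linarith)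
    (by positivity)
  have h3 : ‖∫ t in Ioi 0, (h * ∑' n, F n t - √π * (t ^ (a - 1 / 2 - 1) * exp (-(μ ^ 2 * t))))‖ ≤
      ∫ t in Ioi 0, 2 * (k + 2).factorial * zeta4 * (h ^ 2) ^ (k + 2) *
        (t ^ (a - 1 / 2 + (k + 2 : ℕ) - 1) * exp (-(μ ^ 2 * t))) := by
    refine norm_integral_le_of_norm_le (i2.const_mul _) ?_
    filter_upwards [ae_restrict_mem measurableSet_Ioi] with t ht
    have ht : 0 < t := ht
    have e1 : ∑' n, F n t = t ^ (a - 1) * exp (-(μ ^ 2 * t)) *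
        ∑' n : ℤ, exp (-(h ^ 2 * t) * (n : ℝ) ^ 2) := by
      rw [← tsum_mul_left]
      congr 1
      ext n
      simp only [F]
      rw [mul_assoc, ← exp_add]
      congr 2
      ring
    have e2 : t ^ (a - 1 / 2 - 1) = t ^ (a - 1) * t ^ (-(1 / 2) : ℝ) := by
      rw [← rpow_add ht]; congr 1; ring
    have e3 : t ^ (a - 1 / 2 + (k + 2 : ℕ) - 1) = t ^ (a - 1) * (t ^ (-(1 / 2) : ℝ) * t ^ (k + 2)) := by
      rw [← rpow_natCast t (k + 2), ← rpow_add ht, ← rpow_add ht]; congr 1; ring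
    have e4 : h * ∑' n, F n t - √π * (t ^ (a - 1 / 2 - 1) * exp (-(μ ^ 2 * t))) =
        t ^ (a - 1) * exp (-(μ ^ 2 * t)) *
          (h * ∑' n : ℤ, exp (-(h ^ 2 * t) * (n : ℝ) ^ 2) - √π * t ^ (-(1 / 2) : ℝ)) := by
      rw [e1, e2]; ring
    rw [e4, e3, norm_mul, norm_of_nonneg (by positivity), norm_eq_abs]
    calc _ ≤ t ^ (a - 1) * exp (-(μ ^ 2 * t)) * (2 * (k + 2).factorial * zeta4 * (h ^ 2) ^ (k + 2) *
            (t ^ (-(1 / 2) : ℝ) * t ^ (k + 2))) := by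
          gcongr
          exact theta_est' k hh ht
      _ = _ := by ring
  rw [integral_sub (hint.const_mul _) (i1.const_mul _), integral_const_mul, integral_const_mul,
    integral_const_mul, ← h2, v1, v2, norm_eq_abs] at h3
  have e5 : h * S - √π * Gamma (a - 1 / 2) / Gamma a * (1 / μ ^ 2) ^ (a - 1 / 2) =
      (h * (S * Gamma a) - √π * ((1 / μ ^ 2) ^ (a - 1 / 2) * Gamma (a - 1 / 2))) / Gamma a := by
    field_simp
  rw [e5, abs_div, abs_of_pos hG, div_le_iff₀ hG]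
  refine h3.trans (le_of_eq ?_)
  field_simp

theorem lam3 (k : ℕ) {h : ℝ} (hh : 0 < h) : ∃ C, 0 ≤ C ∧ ∀ μ : ℝ, 0 < μ →
    |h * ∑' n : ℤ, (lam h μ n ^ 3)⁻¹ - 2 * (μ ^ 2)⁻¹| ≤ C * (μ ^ (2 * k + 6))⁻¹ := by
  obtain ⟨C, hC⟩ := lat_est' k (a := ((2 + 1 : ℕ) : ℝ) / 2) (by norm_num)
  refine ⟨|C| * (h ^ 2) ^ (k + 2), by positivity, fun μ hμ => ?_⟩
  have := hC h μ hh hμ
  have e1 : ((2 + 1 : ℕ) : ℝ) / 2 - 1 / 2 = ((2 : ℕ) : ℝ) / 2 := by push_cast; ring
  have e2 : ((2 : ℕ) : ℝ) / 2 + (k + 2 : ℕ) = ((2 * k + 6 : ℕ) : ℝ) / 2 := by push_cast; ring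
  rw [e1, e2, one_div_sq_rpow hμ, one_div_sq_rpow hμ] at this
  simp_rw [← lam_sq h μ, one_div_sq_rpow (lam_pos h hμ _)] at this
  have hJ : √π * Gamma (((2 : ℕ) : ℝ) / 2) / Gamma (((2 + 1 : ℕ) : ℝ) / 2) = 2 := Jc_two
  rw [hJ] at this
  refine this.trans ?_
  gcongr
  exact le_abs_self C

end

end FLAT

open MeasureTheory Complex Set Filter FLAT

theorem st_flat (_hPOI : St_POI) : St_FLAT := by
  intro N M hM
  have hM0 : 0 < M := by linarith
  obtain ⟨C1, hC1, h1⟩ := xi0_est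
  obtain ⟨C2, hC2, h2⟩ := HL_flat hM0
  obtain ⟨C3, hC3, h3⟩ := poly_exp_le (N + 4) (c := 1 / 2) (by norm_num)
  obtain ⟨C5, hC5, h5⟩ := poly_exp_le (N + 4) (c := 2) (by norm_num)
  have hh : 0 < 2 * Real.pi / M := by positivity
  obtain ⟨C4, hC4, h4⟩ := lam_all hh
  obtain ⟨C6, hC6, h6⟩ := lam3 N hh
  refine ⟨M * (C1 * C3 + C5) * C4 + M ^ 2 * C6, ?_⟩
  intro μ χ hμ mχ hχ sχ
  have hμ0 : 0 < μ := by linarith
  have hc : HL (p0 _ * PK M M μ * p0 _) (C2 * M * μ ^ 2) := (h2 M μ hM0 hμ).mono (by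
    rw [sq]; gcongr
    rw [Real.sqrt_le_left hμ0.le]; nlinarith)
  have bχ : Bs (nu M M) fun z => (χ z : ℂ) :=
    ⟨continuous_ofReal.comp_aestronglyMeasurable mχ, 1, ae_of_all _ fun z => by simpa using hχ z⟩
  have hχ2 : ∀ z, χ z ^ 2 ≤ 1 := fun z => by rw [← sq_abs]; exact pow_le_one₀ (abs_nonneg _) (hχ z)
  have iχ : ∀ {f : ℂ → ℝ}, Integrable f (nu M M) → Integrable (fun z => χ z ^ 2 * f z) (nu M M) :=
    fun hf => hf.bdd_mul (c := 1) (mχ.pow 2) (ae_of_all _ fun z => by simpa using hχ z)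
  have hs := hasSum_frame proj_p0 (pars_fr hM0 hM0)
    (T := sm _ (fun z => χ z) * (p0 _ * PK M M μ * p0 _)) (by
      simp only [mul_assoc, proj_p0.idem])
    (hc.mleft (sm_norm_le zero_le_one (ae_of_all _ fun z => by simpa using hχ z))).ne_top
  have e : ∀ i, ‖(sm (nu M M) (fun z => χ z) * (p0 (nu M M) * PK M M μ * p0 (nu M M)))
      (fr M M i)‖ ^ 2 =
      ∫ z, μ ^ 4 / M * (χ z ^ 2 * ‖u0 M M μ i z.im‖ ^ 2) ∂nu M M := by
    intro i
    have := (s_u0 M M μ i).continuous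
    have h0 : tv M M i.1 (fun x => μ ^ 2 * u0 M M μ i x) 0 0 =ᵐ[nu M M]
        fun z => ex M i.1 z.re • (!₂[μ ^ 2 * u0 M M μ i z.im, 0, 0] : E3) :=
      tv_coe i.1 (by fun_prop) continuous_zero continuous_zero
    rw [mul_apply_eq_comp, V0 hM0 hM0 hμ0]
    exact norm_weight hM0 (μ := μ) (U := fun z => u0 M M μ i z.im) h0 bχ
  simp_rw [e] at hs
  have hΛ : ∀ n, μ ≤ La M μ n := le_lam _ hμ0
  obtain ⟨R, hR, hR'⟩ := sum_compare (fun i => (iχ (integrable_rect fun _ _ =>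
      Continuous.continuousAt (by
        have c0 := (s_u0 M M μ i).continuous
        fun_prop))).const_mul _) (fun _ _ => by positivity) hs
    (X := fun n z => μ ^ 4 / M * (χ z ^ 2 * ∫ y in (0 : ℝ)..M, Gk (La M μ n) M z.im y ^ 2))
    (E := fun n z => μ ^ 4 / M * (χ z ^ 2 * ((La M μ n ^ 3)⁻¹ / 4)))
    (err := fun n => μ ^ 4 / M * ((C1 * C3 + C5) * (μ ^ (N + 4))⁻¹ * (La M μ n ^ 3)⁻¹))
    (fun n => by
      filter_upwards [ae_rect M M] with z hz
      exact ((hasSum_G hM0 hμ0 (Ioc_subset_Icc_self hz.2) n).mul_left _).mul_left _)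
    (fun n => (iχ (integrable_const _)).const_mul _)
    (fun n => ae_of_all _ fun z => by
      have l1 := hΛ n
      have l0 : 0 < La M μ n := by linarith
      rw [← mul_sub, ← mul_sub, abs_mul, abs_of_pos (by positivity), abs_mul,
        abs_of_nonneg (sq_nonneg _)]
      refine mul_le_mul_of_nonneg_left ?_ (by positivity)
      by_cases hz : χ z = 0
      · rw [hz]; simp only [ne_eq, OfNat.ofNat_ne_zero, not_false_eq_true, zero_pow, zero_mul]
        positivity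
      obtain ⟨z1, z2⟩ := sχ z hz
      refine (mul_le_of_le_one_left (abs_nonneg _) (hχ2 _)).trans ?_
      have b1 := h1 (La M μ n) M z.im l0 (by nlinarith) ⟨by linarith, z2⟩
      have b2 := h3 (La M μ n * M) μ hμ (by nlinarith)
      have b3 := h5 (La M μ n * z.im) μ hμ (by nlinarith)
      rw [show 1 / 2 * (La M μ n * M) = La M μ n * M / 2 by ring] at b2
      have b4 : |dn0 (La M μ n * z.im) - 1 / 4| ≤ C5 * (μ ^ (N + 4))⁻¹ := by
        refine le_trans ?_ b3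
        have x0 : 0 ≤ La M μ n * z.im := by positivity
        generalize La M μ n * z.im = X at x0 ⊢
        rw [dn0, add_sub_cancel_left, abs_mul, abs_of_pos (Real.exp_pos _)]
        gcongr
        have : 1 + X ≤ (1 + X) ^ 7 := le_self_pow₀ (by linarith) (by norm_num)
        simp only [ev, w0, List.map_cons, List.map_nil, List.sum_cons, List.sum_nil]
        rw [abs_le]; constructor <;> norm_num <;> linarith
      refine (abs_sub_le _ ((La M μ n ^ 3)⁻¹ * dn0 (La M μ n * z.im)) _).trans ?_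
      rw [div_eq_mul_one_div ((La M μ n ^ 3)⁻¹), ← mul_sub, abs_mul,
        abs_of_pos (by positivity : 0 < (La M μ n ^ 3)⁻¹)]
      calc _ ≤ C1 * (C3 * (μ ^ (N + 4))⁻¹) * (La M μ n ^ 3)⁻¹ +
            (La M μ n ^ 3)⁻¹ * (C5 * (μ ^ (N + 4))⁻¹) := by
            gcongr
            exact b1.trans (by gcongr)
        _ = _ := by ring)
  have s3 : Summable fun n => (La M μ n ^ 3)⁻¹ := summable_lam hh hμ0 (b := 2) (by norm_num)
  have t3 : ∑' n, (La M μ n ^ 3)⁻¹ ≤ C4 * (μ ^ 2)⁻¹ := (h4 μ hμ 2 (by simp)).2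
  have t1 : |2 * Real.pi / M * ∑' n, (La M μ n ^ 3)⁻¹ - 2 * (μ ^ 2)⁻¹| ≤ C6 * (μ ^ (2 * N + 6))⁻¹ :=
    h6 μ hμ0
  set a := ∫ z, χ z ^ 2 ∂nu M M with ha
  have a0 : |a| ≤ M ^ 2 := by
    have := norm_integral_le_of_norm_le_const (μ := nu M M) (f := fun z => χ z ^ 2) (C := 1)
      (ae_of_all _ fun z => by simpa using hχ z)
    rwa [nu_univ hM0.le hM0.le, one_mul, ← sq] at this
  have key := (hR.sub (s3.hasSum.mul_left (μ ^ 4 / M * a / 4))).norm_le_of_bounded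
    (s3.hasSum.mul_left (M * (C1 * C3 + C5) * (μ ^ N)⁻¹)) fun n => by
      have a1 := hR' n
      rw [nu_univ hM0.le hM0.le, integral_const_mul, integral_mul_const] at a1
      rw [Real.norm_eq_abs]
      refine le_trans (le_of_eq ?_) (a1.trans (le_of_eq ?_))
      · congr 1; ring
      · field_simp; ring
  set T := ∑' n, (La M μ n ^ 3)⁻¹
  set H := hsq (sm _ (fun z => χ z) * (p0 _ * PK M M μ * p0 _))
  have e2 : H - μ ^ 2 * a / (4 * Real.pi) = (H - μ ^ 4 / M * a / 4 * T) +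
      μ ^ 4 / (8 * Real.pi) * a * (2 * Real.pi / M * T - 2 * (μ ^ 2)⁻¹) := by
    field_simp; ring
  rw [e2]
  refine (abs_add_le _ _).trans ?_
  rw [abs_mul, abs_mul, abs_of_pos (by positivity : 0 < μ ^ 4 / (8 * Real.pi))]
  have p1 : 1 ≤ 8 * Real.pi := by linarith [Real.pi_gt_three]
  have q1 : (μ ^ 2)⁻¹ ≤ 1 := inv_le_one_of_one_le₀ (one_le_pow₀ hμ)
  have q2 : (μ ^ (2 * N + 6))⁻¹ ≤ (μ ^ (N + 4))⁻¹ :=
    inv_anti₀ (by positivity) (pow_le_pow_right₀ hμ (by omega))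
  calc _ ≤ M * (C1 * C3 + C5) * (μ ^ N)⁻¹ * (C4 * 1) + μ ^ 4 / 1 * M ^ 2 * (C6 * (μ ^ (N + 4))⁻¹) := by
        gcongr
        · exact key.trans (by gcongr; exact t3.trans (by gcongr))
        · exact t1.trans (by gcongr)
    _ = _ := by field_simp; ring

end Pool.Agent.Lib.ISO
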