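import Pool.Agent.Lib.ISO.Base

/-! Block GAM: evaluation of the explicit coefficients. -/

noncomputable section

namespace Pool.Agent.Lib.ISO

namespace GAM

open Real

/-- rising factorial -/
def po (a : ℝ) (n : ℕ) : ℝ := ∏ i ∈ Finset.range n, (a + i)

theorem po_succ (a : ℝ) (n : ℕ) : po a (n + 1) = po a n * (a + n) := Finset.prod_range_succ _ _

theorem po_shift {a b : ℝ} (ha : a ≠ 0) (hb : b = a + 1) (n : ℕ) :
    po b n = po a n * (a + n) / a := by
  have h : po a (n + 1) = po b n * a := by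
    rw [po, Finset.prod_range_succ', po, hb]
    congr 1
    · exact Finset.prod_congr rfl fun i _ => by push_cast; ring
    · simp
  rw [← po_succ, h, mul_div_cancel_right₀ _ ha]

theorem po_one (n : ℕ) : po 1 n = n.factorial := by
  induction n with
  | zero => simp [po]
  | succ n ih => rw [po_succ, ih, Nat.factorial_succ]; push_cast; ring

theorem po_half (n : ℕ) : po (-1 / 2) n ≠ 0 :=
  Finset.prod_ne_zero_iff.2 fun i _ h => by
    have h1 : (2 * i : ℝ) = 1 := by linarith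
    have h2 : 2 * i = 1 := by exact_mod_cast h1
    omega

theorem beta2 (n : ℕ) {a b : ℝ} (h : a + b = 2) : beta n a b =
    (-1) ^ n * Gamma (n + 3 / 2) * po a n * po b n / (n.factorial * Gamma (2 * n + 2)) := by
  rw [beta, h, show (2 + n - 1 / 2 : ℝ) = n + 3 / 2 by ring, add_comm (2 : ℝ) (2 * n)]
  rfl

theorem beta3 (n : ℕ) {a b : ℝ} (h : a + b = 3) : beta n a b =
    (-1) ^ n * ((n + 3 / 2) * Gamma (n + 3 / 2)) * po a n * po b n /
      (n.factorial * ((2 * n + 2) * Gamma (2 * n + 2))) := by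
  rw [beta, h, show (3 + n - 1 / 2 : ℝ) = n + 3 / 2 + 1 by ring,
    show (3 + 2 * n : ℝ) = 2 * n + 2 + 1 by ring, Gamma_add_one (by positivity),
    Gamma_add_one (by positivity)]
  rfl

theorem beta4 (n : ℕ) {a b : ℝ} (h : a + b = 4) : beta n a b =
    (-1) ^ n * ((n + 3 / 2 + 1) * ((n + 3 / 2) * Gamma (n + 3 / 2))) * po a n * po b n /
      (n.factorial * ((2 * n + 2 + 1) * ((2 * n + 2) * Gamma (2 * n + 2)))) := by
  rw [beta, h, show (4 + n - 1 / 2 : ℝ) = n + 3 / 2 + 1 + 1 by ring,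
    show (4 + 2 * n : ℝ) = 2 * n + 2 + 1 + 1 by ring, Gamma_add_one (by positivity),
    Gamma_add_one (by positivity), Gamma_add_one (by positivity), Gamma_add_one (by positivity)]
  rfl

theorem beta1 (n : ℕ) {a b : ℝ} (h : a + b = 1) : beta (n + 1) a b =
    (-1) ^ n * (-1) * Gamma (n + 3 / 2) * (po a n * (a + n)) * (po b n * (b + n)) /
      ((n + 1) * n.factorial * ((2 * n + 2) * Gamma (2 * n + 2))) := by
  rw [beta, h, show (1 + (n + 1 : ℕ) - 1 / 2 : ℝ) = n + 3 / 2 by push_cast; ring,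
    show (1 + 2 * (n + 1 : ℕ) : ℝ) = 2 * n + 2 + 1 by push_cast; ring, Gamma_add_one (by positivity),
    ← po_succ, ← po_succ, pow_succ, Nat.factorial_succ]
  push_cast
  rfl

end GAM

open GAM Real in
theorem st_gam : St_GAM := by
  intro m
  have e1 := po_shift (a := -1 / 2) (b := 1 / 2) (by norm_num) (by norm_num) (m + 1)
  have e3 := po_shift (a := 1 / 2) (b := 3 / 2) (by norm_num) (by norm_num) (m + 1)
  have e5 := po_shift (a := 3 / 2) (b := 5 / 2) (by norm_num) (by norm_num) (m + 1)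
  have e7 := po_shift (a := 5 / 2) (b := 7 / 2) (by norm_num) (by norm_num) (m + 1)
  have e9 := po_shift (a := 7 / 2) (b := 9 / 2) (by norm_num) (by norm_num) (m + 1)
  have f2 := po_shift (a := 1) (b := 2) (by norm_num) (by norm_num) (m + 1)
  have f3 := po_shift (a := 2) (b := 3) (by norm_num) (by norm_num) (m + 1)
  have hu : ∏ i ∈ Finset.range (m + 1 + 1), ((i : ℝ) - 1 / 2) =
      po (-1 / 2) (m + 1) * (-1 / 2 + (m + 1 : ℕ)) := by
    rw [← po_succ]
    exact Finset.prod_congr rfl fun i _ => by ring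
  have hp := po_half (m + 1)
  have hf : (((m + 1).factorial : ℕ) : ℝ) ≠ 0 := by positivity
  have hg : Gamma ((m + 1 : ℕ) + 3 / 2 : ℝ) ≠ 0 := (Gamma_pos_of_pos (by positivity)).ne'
  have hh : Gamma (2 * (m + 1 : ℕ) + 2 : ℝ) ≠ 0 := (Gamma_pos_of_pos (by positivity)).ne'
  have hs : ((-1 : ℝ)) ^ (m + 1) ≠ 0 := pow_ne_zero _ (by norm_num)
  have hA : cA m = (-1) ^ (m + 1) * Gamma ((m + 1 : ℕ) + 3 / 2 : ℝ) * po (-1 / 2) (m + 1) ^ 2 *
      (-4 * ((m : ℝ) + 1 / 2) ^ 2 * (m + 3 / 2)) /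
      (((m + 1).factorial : ℕ) * (2 * (m + 2) * Gamma (2 * (m + 1 : ℕ) + 2 : ℝ))) := by
    rw [cA, beta1 (m + 1) (by norm_num), beta1 (m + 1) (by norm_num), e3, e1]
    generalize Gamma ((m + 1 : ℕ) + 3 / 2 : ℝ) = g at *
    generalize Gamma (2 * (m + 1 : ℕ) + 2 : ℝ) = h at *
    generalize (((m + 1).factorial : ℕ) : ℝ) = f at *
    push_cast
    field_simp
    ring
  refine ⟨by rw [hA]; positivity, ?_⟩
  rw [hA, cB, Sc, uu, hu, beta2 (m + 1) (a := 1) (by norm_num), beta3 (m + 1) (a := 1) (by norm_num),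
    beta4 (m + 1) (a := 2) (by norm_num), beta4 (m + 1) (a := 1) (by norm_num),
    beta2 (m + 1) (a := 1 / 2) (by norm_num), beta3 (m + 1) (a := 1 / 2) (by norm_num),
    beta4 (m + 1) (a := 1 / 2) (by norm_num), beta2 (m + 1) (a := -1 / 2) (by norm_num),
    beta3 (m + 1) (a := -1 / 2) (by norm_num), beta4 (m + 1) (a := -1 / 2) (by norm_num),
    beta3 (m + 1) (a := 3 / 2) (by norm_num), beta4 (m + 1) (a := 3 / 2) (by norm_num),
    e9, e7, e5, e3, e1, f3, f2, po_one]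
  generalize Gamma ((m + 1 : ℕ) + 3 / 2 : ℝ) = g at *
  generalize Gamma (2 * (m + 1 : ℕ) + 2 : ℝ) = h at *
  generalize (((m + 1).factorial : ℕ) : ℝ) = f at *
  generalize po (-1 / 2) (m + 1) = p at *
  generalize ((-1 : ℝ)) ^ (m + 1) = s at *
  have h1 : (-1 / 2 + (m + 1) : ℝ) = m + 1 / 2 := by ring
  push_cast
  rw [h1]
  field_simp
  ring

end Pool.Agent.Lib.ISO
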