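import Pool.Agent.Lib.ISO.BlueV

/-! Block GEO: the perturbed annuli are admissible domains with explicit boundary integrals. -/

open scoped InnerProductSpace ENNReal ContDiff ComplexConjugate Topology
open MeasureTheory Complex Set Filter

noncomputable section

namespace Pool.Agent.Lib.ISO

open Pool.Agent.Lib.MP_312682_mp

namespace GEO

def EE (σ θ : ℝ) : ℂ := exp (((σ * θ : ℝ) : ℂ) * I)
def rr (c : ℝ) (k : ℕ) (ε θ : ℝ) : ℝ := c + ε * rh k θ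
def zz (σ c : ℝ) (k : ℕ) (ε θ : ℝ) : ℂ := (rr c k ε θ : ℝ) * EE σ θ
def FF (k : ℕ) (ε : ℝ) (z : ℂ) : ℝ := ‖z‖ - ε * (2 * ((z / ‖z‖) ^ k).re)

variable {σ c ε : ℝ} {k : ℕ}

lemma s_rh (k : ℕ) : ContDiff ℝ ∞ (rh k) := by
  unfold rh; fun_prop

lemma s_rh1 (k : ℕ) : ContDiff ℝ ∞ (deriv (rh k)) := (contDiff_infty_iff_deriv.1 (s_rh k)).2

lemma hd_rh (k : ℕ) (θ : ℝ) : HasDerivAt (rh k) (deriv (rh k) θ) θ :=
  ((contDiff_infty_iff_deriv.1 (s_rh k)).1 θ).hasDerivAt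

lemma hd_rh1 (k : ℕ) (θ : ℝ) : HasDerivAt (deriv (rh k)) (deriv (deriv (rh k)) θ) θ :=
  ((contDiff_infty_iff_deriv.1 (s_rh1 k)).1 θ).hasDerivAt

lemma d_rh (k : ℕ) (θ : ℝ) : deriv (rh k) θ = 2 * (-Real.sin (k * θ) * k) := by
  have h := (((hasDerivAt_id θ).const_mul (k : ℝ)).cos).const_mul 2
  simp only [id, mul_one] at h
  exact h.deriv

lemma rh_abs (k : ℕ) (θ : ℝ) : |rh k θ| ≤ 2 := by
  rw [rh, abs_mul, abs_two]
  linarith [Real.abs_cos_le_one (k * θ)]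

lemma rh1_abs (k : ℕ) (θ : ℝ) : |deriv (rh k) θ| ≤ 2 * k := by
  rw [d_rh, abs_mul, abs_two, abs_mul, abs_neg, Nat.abs_cast]
  have := mul_le_mul_of_nonneg_right (Real.abs_sin_le_one (k * θ)) (Nat.cast_nonneg (α := ℝ) k)
  linarith

lemma rh_per (k : ℕ) (θ : ℝ) : rh k (θ + 2 * Real.pi) = rh k θ := by
  rw [rh, rh, mul_add, Real.cos_add_nat_mul_two_pi]

lemma n_EE (σ θ : ℝ) : ‖EE σ θ‖ = 1 := norm_exp_ofReal_mul_I _

lemma hd_EE (σ θ : ℝ) : HasDerivAt (EE σ) (EE σ θ * (σ * I)) θ := by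
  have h := ((((hasDerivAt_id θ).const_mul σ).ofReal_comp).mul_const I).cexp
  simp only [id, mul_one] at h
  exact h

lemma EE_per (hσ : σ = 1 ∨ σ = -1) (θ : ℝ) : EE σ (θ + 2 * Real.pi) = EE σ θ := by
  rcases hσ with rfl | rfl
  · rw [EE, EE, ← exp_periodic (((1 * θ : ℝ) : ℂ) * I)]
    push_cast; ring_nf
  · rw [EE, EE, ← exp_periodic (((-1 * (θ + 2 * Real.pi) : ℝ) : ℂ) * I)]
    push_cast; ring_nf

lemma hd_zz (θ : ℝ) : HasDerivAt (zz σ c k ε)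
    ((((ε * deriv (rh k) θ : ℝ) : ℂ) + (σ * rr c k ε θ : ℝ) * I) * EE σ θ) θ := by
  have h1 : HasDerivAt (rr c k ε) (ε * deriv (rh k) θ) θ := ((hd_rh k θ).const_mul ε).const_add c
  refine (h1.ofReal_comp.mul (hd_EE σ θ)).congr_deriv ?_
  push_cast; ring

lemma d_zz : deriv (zz σ c k ε) = fun θ =>
    (((ε * deriv (rh k) θ : ℝ) : ℂ) + (σ * rr c k ε θ : ℝ) * I) * EE σ θ :=
  funext fun θ => (hd_zz θ).deriv

lemma dd_zz (θ : ℝ) : deriv (deriv (zz σ c k ε)) θ =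
    (((ε * deriv (deriv (rh k)) θ - σ ^ 2 * rr c k ε θ : ℝ) : ℂ) +
      (2 * σ * (ε * deriv (rh k) θ) : ℝ) * I) * EE σ θ := by
  have h1 : HasDerivAt (rr c k ε) (ε * deriv (rh k) θ) θ := ((hd_rh k θ).const_mul ε).const_add c
  have h2 := ((((hd_rh1 k θ).const_mul ε).ofReal_comp.add
    ((h1.const_mul σ).ofReal_comp.mul_const I)).mul (hd_EE σ θ)).deriv
  rw [d_zz]
  refine h2.trans ?_
  simp only [Pi.add_apply]
  push_cast
  linear_combination (σ : ℂ) ^ 2 * (rr c k ε θ : ℂ) * EE σ θ * I_mul_I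

lemma n_dzz (hσ : σ = 1 ∨ σ = -1) (θ : ℝ) : ‖deriv (zz σ c k ε) θ‖ = pv c k ε θ := by
  have h : σ ^ 2 = 1 := by rcases hσ with rfl | rfl <;> norm_num
  rw [d_zz]
  simp only
  rw [norm_mul, n_EE, mul_one, Complex.norm_add_mul_I, pv, mul_pow σ, h, one_mul, add_comm, rr]

lemma im_zz (hσ : σ = 1 ∨ σ = -1) (θ : ℝ) :
    (deriv (deriv (zz σ c k ε)) θ * conj (deriv (zz σ c k ε) θ)).im =
      σ * ((c + ε * rh k θ) ^ 2 + 2 * (ε * deriv (rh k) θ) ^ 2 -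
        (c + ε * rh k θ) * (ε * deriv (deriv (rh k)) θ)) := by
  have h : σ ^ 2 = 1 := by rcases hσ with rfl | rfl <;> norm_num
  have hE : EE σ θ * conj (EE σ θ) = 1 := by
    rw [mul_conj, normSq_eq_norm_sq, n_EE]; norm_num
  rw [dd_zz, d_zz]
  simp only
  rw [map_mul, mul_mul_mul_comm, hE, mul_one, h]
  simp only [mul_im, add_re, add_im, ofReal_re, ofReal_im, mul_re, I_re, I_im, conj_re, conj_im, rr]
  ring

lemma s_zz : ContDiff ℝ ∞ (zz σ c k ε) := by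
  have h := s_rh k
  have h1 : ContDiff ℝ ∞ fun θ => ((rr c k ε θ : ℝ) : ℂ) :=
    ofRealCLM.contDiff.comp (contDiff_const.add (contDiff_const.mul h))
  have h2 : ContDiff ℝ ∞ fun θ : ℝ => ((σ * θ : ℝ) : ℂ) :=
    ofRealCLM.contDiff.comp (contDiff_const.mul contDiff_id)
  exact h1.mul ((h2.mul contDiff_const).cexp)

lemma FF_polar (hσ : σ = 1 ∨ σ = -1) {t : ℝ} (ht : 0 < t) (θ : ℝ) :
    FF k ε (t * EE σ θ) = t - ε * rh k θ := by
  have h1 : ‖(t : ℂ) * EE σ θ‖ = t := by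
    rw [norm_mul, n_EE, mul_one, norm_real, Real.norm_of_nonneg ht.le]
  have h2 : (t : ℂ) ≠ 0 := ofReal_ne_zero.2 ht.ne'
  rw [FF, h1, mul_div_cancel_left₀ _ h2, EE, ← exp_nat_mul, rh]
  have h3 : (k : ℂ) * (((σ * θ : ℝ) : ℂ) * I) = ((σ * (k * θ) : ℝ) : ℂ) * I := by push_cast; ring
  rw [h3, exp_ofReal_mul_I_re]
  rcases hσ with rfl | rfl
  · rw [one_mul]
  · rw [neg_one_mul, Real.cos_neg]

lemma dist_polar (hσ : σ = 1 ∨ σ = -1) {a b θ φ : ℝ} (ha : 1 / 2 ≤ a) (hb : 1 / 2 ≤ b)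
    (h : |θ - φ| ≤ Real.pi) : |θ - φ| ≤ 4 * ‖a * EE σ θ - b * EE σ φ‖ := by
  have h1 := Real.cos_le_one_sub_mul_cos_sq h
  have h2 : ‖a * EE σ θ - b * EE σ φ‖ ^ 2 = a ^ 2 + b ^ 2 - 2 * a * b * Real.cos (θ - φ) := by
    have h3 : Real.cos (θ - φ) = Real.cos (σ * θ - σ * φ) := by
      rcases hσ with rfl | rfl
      · rw [one_mul, one_mul]
      · rw [← Real.cos_neg]; ring_nf
    rw [h3, Real.cos_sub, Complex.sq_norm, normSq_apply]
    simp only [EE, sub_re, sub_im, re_ofReal_mul, im_ofReal_mul, exp_ofReal_mul_I_re,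
      exp_ofReal_mul_I_im]
    linear_combination a ^ 2 * Real.sin_sq_add_cos_sq (σ * θ) +
      b ^ 2 * Real.sin_sq_add_cos_sq (σ * φ)
  have h4 : 1 / 4 ≤ a * b := by nlinarith
  have h5 : 1 / 8 ≤ 2 / Real.pi ^ 2 := by
    rw [le_div_iff₀ (by positivity)]
    nlinarith [Real.pi_lt_four, Real.pi_pos]
  have h6 : (θ - φ) ^ 2 / 8 ≤ 1 - Real.cos (θ - φ) := by nlinarith [sq_nonneg (θ - φ)]
  have h7 : (θ - φ) ^ 2 ≤ (4 * ‖a * EE σ θ - b * EE σ φ‖) ^ 2 := by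
    rw [mul_pow, h2]
    nlinarith [sq_nonneg (a - b), sq_nonneg (θ - φ),
      mul_le_mul h4 h6 (by positivity) (by linarith)]
  exact abs_le_of_sq_le_sq' h7 (by positivity) |> abs_le.2

/-- smallness of the perturbation -/
structure Sm (c : ℝ) (k : ℕ) (ε : ℝ) : Prop where
  lo : r0 ≤ c
  hi : c ≤ R1
  e0 : |ε| ≤ 1 / 1000
  e1 : |ε| * k ≤ 1 / 1000

lemma Sm.rr_bd (h : Sm c k ε) (θ : ℝ) :
    c - 1 / 500 ≤ rr c k ε θ ∧ rr c k ε θ ≤ c + 1 / 500 := by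
  have h1 : |ε * rh k θ| ≤ 1 / 500 := by
    rw [abs_mul]
    nlinarith [rh_abs k θ, h.e0, abs_nonneg ε, abs_nonneg (rh k θ)]
  rw [abs_le] at h1
  rw [rr]
  constructor <;> linarith [h1.1, h1.2]

lemma Sm.half (h : Sm c k ε) (θ : ℝ) : 1 / 2 ≤ rr c k ε θ := by
  have := h.lo
  rw [r0] at this
  linarith [(h.rr_bd θ).1]

lemma Sm.pv_bd (h : Sm c k ε) (θ : ℝ) : 1 / 2 ≤ pv c k ε θ ∧ pv c k ε θ ≤ 2 := by
  have h1 : |ε * deriv (rh k) θ| ≤ 1 := by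
    rw [abs_mul]
    nlinarith [mul_le_mul_of_nonneg_left (rh1_abs k θ) (abs_nonneg ε), h.e1]
  have h2 := h.half θ
  have h3 := (h.rr_bd θ).2
  have h4 := h.hi
  rw [R1] at h4
  rw [rr] at h2 h3
  have h5 : (ε * deriv (rh k) θ) ^ 2 ≤ 1 := (sq_le_one_iff_abs_le_one _).2 h1
  constructor
  · exact Real.le_sqrt_of_sq_le (by nlinarith [sq_nonneg (ε * deriv (rh k) θ)])
  · exact Real.sqrt_le_iff.2 ⟨by norm_num, by nlinarith⟩

lemma Sm.n_zz (h : Sm c k ε) (θ : ℝ) : ‖zz σ c k ε θ‖ = rr c k ε θ := by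
  rw [zz, norm_mul, n_EE, mul_one, norm_real, Real.norm_of_nonneg (by linarith [h.half θ])]

lemma prod_sign (σ : ℝ) (α : List ℕ) (f : ℕ → ℝ) :
    (α.map fun j => σ * f j).prod = σ ^ α.length * (α.map f).prod := by
  induction α with
  | nil => simp
  | cons a l ih => simp only [List.map_cons, List.prod_cons, List.length_cons, ih]; ring

/-- everything needed about one boundary curve -/
structure Cu (σ c : ℝ) (k : ℕ) (ε : ℝ) (γ : ℝ → ℂ) (L : ℝ) : Prop where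
  cv : Cv γ L
  lo : 1 ≤ L
  hi : L ≤ 16
  sub : ∀ s, ∃ θ, γ s = zz σ c k ε θ
  sup : ∀ θ, ∃ s, γ s = zz σ c k ε θ
  jet : ∀ j s, ∃ θ, iteratedDeriv j (kap γ) s = σ * pj c k ε j θ
  lip : ∀ s t, ∃ m : ℤ, |t - s - m * L| ≤ 8 * ‖γ s - γ t‖
  v0 : γ 0 = (c + 2 * ε : ℝ)
  v1 : deriv γ 0 = σ * I
  int : ∀ α, mint L α (kap γ) = σ ^ α.length * pint α c k ε

lemma curve (hRP : St_RP) (hσ : σ = 1 ∨ σ = -1) (h : Sm c k ε) : ∃ γ L, Cu σ c k ε γ L := by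
  have hper : Function.Periodic (zz σ c k ε) (2 * Real.pi) := fun θ => by
    rw [zz, zz, EE_per hσ, rr, rr, rh_per]
  have hne : ∀ θ, deriv (zz σ c k ε) θ ≠ 0 := fun θ h0 => by
    have h1 := n_dzz (c := c) (k := k) (ε := ε) hσ θ
    rw [h0, norm_zero] at h1
    linarith [(h.pv_bd θ).1]
  obtain ⟨γ, ℓ, hcv, l0, ld, lp, g0, g1, k0, k1, hint⟩ := hRP (zz σ c k ε) s_zz hper hne
  simp only [n_dzz hσ] at ld g1 k0 k1 hint
  have ldf : Differentiable ℝ ℓ := fun θ => (ld θ).differentiableAt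
  have up : ∀ x y, x ≤ y → ℓ y - ℓ x ≤ 2 * (y - x) := fun x y hxy =>
    image_sub_le_mul_sub_of_deriv_le ldf (fun x => by rw [(ld x).deriv]; exact (h.pv_bd x).2) hxy
  have dn : ∀ x y, x ≤ y → 1 / 2 * (y - x) ≤ ℓ y - ℓ x := fun x y hxy =>
    mul_sub_le_image_sub_of_le_deriv ldf (fun x => by rw [(ld x).deriv]; exact (h.pv_bd x).1) hxy
  have hpi := Real.pi_gt_three
  have hpi' := Real.pi_lt_four
  have hj : ∀ j θ, iteratedDeriv j (kap γ) (ℓ θ) = σ * pj c k ε j θ := by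
    intro j
    induction j with
    | zero =>
      intro θ
      rw [iteratedDeriv_zero, k0, im_zz hσ, pj, mul_div_assoc]
    | succ j ih =>
      intro θ
      rw [k1, funext ih, deriv_const_mul_field', pj, mul_div_assoc]
  have lm : ∀ (m : ℤ) θ, ℓ (θ + m * (2 * Real.pi)) = ℓ θ + m * ℓ (2 * Real.pi) := by
    intro m
    induction m with
    | zero => intro θ; simp
    | succ m ih =>
      intro θ
      have := lp (θ + (m : ℤ) * (2 * Real.pi))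
      rw [ih] at this
      push_cast at this ⊢
      rw [add_mul, one_mul, ← add_assoc, this]; ring
    | pred m ih =>
      intro θ
      have h1 := lp (θ + ((-m - 1 : ℤ) : ℝ) * (2 * Real.pi))
      have h2 := ih θ
      push_cast at h1 h2 ⊢
      have h3 : θ + (-(m : ℝ) - 1) * (2 * Real.pi) + 2 * Real.pi = θ + -(m : ℝ) * (2 * Real.pi) := by
        ring
      rw [h3, h2] at h1
      linarith
  refine ⟨γ, ℓ (2 * Real.pi), hcv, ?_, ?_, fun s => ?_, fun θ => ⟨_, g0 θ⟩, fun j s => ?_,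
    fun s t => ?_, ?_, ?_, fun α => ?_⟩
  · have := dn 0 (2 * Real.pi) (by linarith)
    rw [l0] at this
    linarith
  · have := up 0 (2 * Real.pi) (by linarith)
    rw [l0] at this
    linarith
  · obtain ⟨θ, rfl⟩ := ℓ.surjective s
    exact ⟨θ, g0 θ⟩
  · obtain ⟨θ, rfl⟩ := ℓ.surjective s
    exact ⟨θ, hj j θ⟩
  · obtain ⟨θ, rfl⟩ := ℓ.surjective s
    obtain ⟨φ, rfl⟩ := ℓ.surjective t
    obtain ⟨m, hm, -⟩ := existsUnique_add_zsmul_mem_Ico (a := 2 * Real.pi) (by linarith) φ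
      (θ - Real.pi)
    rw [zsmul_eq_mul] at hm
    refine ⟨-m, ?_⟩
    have h1 : ℓ φ - ℓ θ - ((-m : ℤ) : ℝ) * ℓ (2 * Real.pi) = ℓ (φ + m * (2 * Real.pi)) - ℓ θ := by
      rw [lm]; push_cast; ring
    have h2 : γ (ℓ φ) = zz σ c k ε (φ + m * (2 * Real.pi)) := by
      rw [g0, hper.int_mul m]
    rw [h1, h2, g0]
    generalize φ + m * (2 * Real.pi) = ψ at hm
    have h3 : |θ - ψ| ≤ Real.pi := abs_le.2 ⟨by linarith [hm.2], by linarith [hm.1]⟩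
    have h4 := dist_polar hσ (h.half θ) (h.half ψ) h3
    have h5 : |ℓ ψ - ℓ θ| ≤ 2 * |θ - ψ| := by
      rcases le_total θ ψ with h6 | h6
      · rw [abs_of_nonneg (sub_nonneg.2 (ℓ.monotone h6)), abs_of_nonpos (sub_nonpos.2 h6)]
        linarith [up _ _ h6]
      · rw [abs_of_nonpos (sub_nonpos.2 (ℓ.monotone h6)), abs_of_nonneg (sub_nonneg.2 h6)]
        linarith [up _ _ h6]
    rw [zz, zz]
    linarith
  · have := g0 0
    rw [l0] at this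
    rw [this]
    simp [zz, EE, rr, rh, mul_comm]
  · have h1 := g1 0
    have h2 : deriv (rh k) 0 = 0 := by rw [d_rh]; simp
    have h3 : pv c k ε 0 = rr c k ε 0 := by
      rw [pv, h2, mul_zero, zero_pow two_ne_zero, add_zero]
      exact Real.sqrt_sq (by linarith [h.half 0] : 0 ≤ rr c k ε 0)
    have h4 : ((rr c k ε 0 : ℝ) : ℂ) ≠ 0 := ofReal_ne_zero.2 (by linarith [h.half 0])
    rw [l0, d_zz, h3] at h1
    rw [h1]
    simp only [h2, EE, mul_zero, ofReal_zero, zero_mul, exp_zero, zero_add, mul_one]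
    push_cast
    field_simp
  · have hc : Continuous (mono α (kap γ)) := by
      unfold mono
      exact continuous_list_prod _ fun j _ => hcv.s_kap.continuous_iteratedDeriv j
        (by exact_mod_cast le_top)
    rw [mint, hint _ hc, pint, ← intervalIntegral.integral_const_mul]
    refine intervalIntegral.integral_congr fun θ _ => ?_
    simp only [mono, hj, prod_sign]
    ring

lemma FF_bd (he : |ε| ≤ 1 / 1000) (z : ℂ) : |FF k ε z - ‖z‖| ≤ 1 / 500 := by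
  have h1 : ‖z / ‖z‖‖ ≤ 1 := by
    rw [norm_div, norm_real, norm_norm]
    exact div_self_le_one _
  have h2 : |((z / ‖z‖) ^ k).re| ≤ 1 :=
    (abs_re_le_norm _).trans (by rw [norm_pow]; exact pow_le_one₀ (norm_nonneg _) h1)
  rw [FF, sub_sub_cancel_left, abs_neg, abs_mul, abs_mul, abs_two]
  nlinarith [abs_nonneg ε, abs_nonneg ((z / ‖z‖) ^ k).re]

lemma ann_bd (he : |ε| ≤ 1 / 1000) {z : ℂ} (hz : z ∈ Ann k ε) : 1 / 2 ≤ ‖z‖ ∧ ‖z‖ ≤ 1 := by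
  have h1 := abs_le.1 (FF_bd (k := k) he z)
  have h2 : FF k ε z ∈ Ioo r0 R1 := hz
  rw [r0, R1] at h2
  constructor <;> linarith [h1.1, h1.2, h2.1, h2.2]

lemma FF_cont {z : ℂ} (hz : z ≠ 0) : ContinuousAt (FF k ε) z := by
  have h1 : ContinuousAt (fun z : ℂ => z / (‖z‖ : ℂ)) z :=
    continuousAt_id.div (by fun_prop) (ofReal_ne_zero.2 (norm_ne_zero_iff.2 hz))
  exact continuous_norm.continuousAt.sub (continuousAt_const.mul (continuousAt_const.mul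
    (continuous_re.continuousAt.comp (h1.pow k))))

lemma ann_open (he : |ε| ≤ 1 / 1000) : IsOpen (Ann k ε) := by
  refine isOpen_iff_mem_nhds.2 fun z hz => ?_
  have h0 : z ≠ 0 := norm_pos_iff.1 (by linarith [(ann_bd he hz).1])
  exact (FF_cont h0).preimage_mem_nhds (isOpen_Ioo.mem_nhds hz)

lemma ann_front (he : |ε| ≤ 1 / 1000) {z : ℂ} (hz : z ∈ frontier (Ann k ε)) :
    z ≠ 0 ∧ (FF k ε z = R1 ∨ FF k ε z = r0) := by
  rw [(ann_open he).frontier_eq] at hz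
  have h1 : 1 / 2 ≤ ‖z‖ := closure_minimal (fun w hw => (ann_bd he hw).1)
    (isClosed_le continuous_const continuous_norm) hz.1
  have h0 : z ≠ 0 := norm_pos_iff.1 (by linarith)
  have h2 : FF k ε z ∈ closure (Ioo r0 R1) :=
    closure_mono (image_subset_iff.2 fun w hw => hw)
      ((FF_cont h0).continuousWithinAt.mem_closure_image hz.1)
  rw [closure_Ioo (by rw [r0, R1]; norm_num)] at h2
  have h3 : FF k ε z ∉ Ioo r0 R1 := hz.2
  refine ⟨h0, ?_⟩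
  by_contra h4
  push Not at h4
  exact h3 ⟨lt_of_le_of_ne h2.1 (Ne.symm h4.2), lt_of_le_of_ne h2.2 h4.1⟩

lemma on_curve (hσ : σ = 1 ∨ σ = -1) {z : ℂ} (h0 : z ≠ 0) (hz : FF k ε z = c) :
    ∃ θ, z = zz σ c k ε θ := by
  have h1 : z = (‖z‖ : ℝ) * EE σ (σ * arg z) := by
    have : σ * (σ * arg z) = arg z := by rcases hσ with rfl | rfl <;> ring
    rw [EE, this, norm_mul_exp_arg_mul_I]
  refine ⟨σ * arg z, ?_⟩
  rw [h1, FF_polar hσ (norm_pos_iff.2 h0)] at hz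
  rw [zz, rr, ← hz, sub_add_cancel]
  exact h1

lemma Cu.FF_eq {γ : ℝ → ℂ} {L : ℝ} (hσ : σ = 1 ∨ σ = -1) (h : Sm c k ε) (hc : Cu σ c k ε γ L)
    (s : ℝ) : FF k ε (γ s) = c := by
  obtain ⟨θ, hθ⟩ := hc.sub s
  rw [hθ, zz, FF_polar hσ (by linarith [h.half θ]), rr, add_sub_cancel_right]

lemma Cu.FF_phi {γ : ℝ → ℂ} {L : ℝ} (hσ : σ = 1 ∨ σ = -1) (h : Sm c k ε) (hc : Cu σ c k ε γ L)
    {x : ℝ} (hx : |x| ≤ 1 / 4) : FF k ε (Phi γ ((0 : ℝ) + x * I)) = c - σ * x := by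
  have h1 : Phi γ ((0 : ℝ) + x * I) = (c + 2 * ε - σ * x : ℝ) * EE 1 0 := by
    simp only [Phi, add_re, add_im, ofReal_re, ofReal_im, mul_re, mul_im, I_re, I_im, mul_zero,
      mul_one, sub_self, add_zero, zero_add, hc.v0, hc.v1, EE, ofReal_zero, zero_mul, exp_zero]
    push_cast
    linear_combination (σ : ℂ) * x * I_mul_I
  have h2 := abs_le.1 h.e0
  have h3 := h.lo
  rw [r0] at h3
  have h4 := abs_le.1 hx
  rw [h1, FF_polar (Or.inl rfl) (by rcases hσ with rfl | rfl <;> linarith [h2.1, h4.1, h4.2])]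
  simp only [rh, mul_zero, Real.cos_zero]
  ring

lemma Cu.bnd {γ : ℝ → ℂ} {L C K : ℝ} {N : ℕ} (hσ : σ = 1 ∨ σ = -1) (hc : Cu σ c k ε γ L)
    (hC : ∀ j ≤ N + 2, ∀ θ, |pj c k ε j θ| ≤ C) (hK : C ≤ K) (hK' : 16 ≤ K) :
    Bnd N K L (kap γ) := by
  have h1 : ∀ j ≤ N + 2, ∀ s, |iteratedDeriv j (kap γ) s| ≤ K := fun j hj s => by
    obtain ⟨θ, hθ⟩ := hc.jet j s
    have : |σ| = 1 := by rcases hσ with rfl | rfl <;> simp
    rw [hθ, abs_mul, this, one_mul]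
    exact (hC j hj θ).trans hK
  refine ⟨⟨hc.cv.s_kap, hc.cv.per_kap, by linarith, fun s => ?_, fun s => ?_, fun s => ?_⟩,
    (inv_le_one_of_one_le₀ (by linarith)).trans hc.lo, hc.hi.trans hK',
    fun j hj => h1 j (by omega)⟩
  · simpa using h1 0 (by omega) s
  · simpa using h1 1 (by omega) s
  · have := h1 2 (by omega) s
    rwa [iteratedDeriv_succ, iteratedDeriv_one] at this

end GEO

open GEO in
theorem st_geo (hRP : St_RP) (hQF : St_QF) (hJET : St_JET) : St_GEO := by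
  intro k N hk
  obtain ⟨C1, e1, he1, H1⟩ := (hJET R1 (by rw [R1]; norm_num)).1 k (N + 2)
  obtain ⟨C2, e2, he2, H2⟩ := (hJET r0 (by rw [r0]; norm_num)).1 k (N + 2)
  obtain ⟨δ0, hδ0, HQ⟩ := hQF (max (max C1 C2) 16) (1 / 200) (by norm_num)
  have hk' : (1 : ℝ) ≤ k := by exact_mod_cast hk
  refine ⟨max (max (max C1 C2) 16) δ0⁻¹, min (min e1 e2) (1 / 1000 / k), by positivity,
    fun ε hε => ?_⟩
  set K0 := max (max C1 C2) 16 with hK0
  set K := max K0 δ0⁻¹ with hK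
  have k1 : C1 ≤ K0 := (le_max_left _ _).trans (le_max_left _ _)
  have k2 : C2 ≤ K0 := (le_max_right _ _).trans (le_max_left _ _)
  have k3 : 16 ≤ K0 := le_max_right _ _
  have k4 : K0 ≤ K := le_max_left _ _
  have k5 : K⁻¹ ≤ δ0 := inv_le_of_inv_le₀ hδ0 (le_max_right _ _)
  have b1 := H1 ε (hε.trans ((min_le_left _ _).trans (min_le_left _ _)))
  have b2 := H2 ε (hε.trans ((min_le_left _ _).trans (min_le_right _ _)))
  have b3 : |ε| * k ≤ 1 / 1000 := (le_div_iff₀ (by linarith)).1 (hε.trans (min_le_right _ _))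
  have b4 : |ε| ≤ 1 / 1000 := by nlinarith [abs_nonneg ε]
  have hr : r0 + 1 / 100 = R1 := by rw [r0, R1]; norm_num
  have s1 : Sm R1 k ε := ⟨by linarith, le_rfl, b4, b3⟩
  have s2 : Sm r0 k ε := ⟨le_rfl, by linarith, b4, b3⟩
  have p1 : (1 : ℝ) = 1 ∨ (1 : ℝ) = -1 := Or.inl rfl
  have p2 : (-1 : ℝ) = 1 ∨ (-1 : ℝ) = -1 := Or.inr rfl
  obtain ⟨γ1, L1, c1⟩ := curve hRP p1 s1
  obtain ⟨γ2, L2, c2⟩ := curve hRP p2 s2
  have far : ∀ s t, 1 / 200 ≤ ‖γ1 s - γ2 t‖ := fun s t => by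
    obtain ⟨θ, hθ⟩ := c1.sub s
    obtain ⟨φ, hφ⟩ := c2.sub t
    have h1 := norm_sub_norm_le (γ1 s) (γ2 t)
    have h2 : ‖γ1 s‖ = rr R1 k ε θ := by rw [hθ, s1.n_zz]
    have h3 : ‖γ2 t‖ = rr r0 k ε φ := by rw [hφ, s2.n_zz]
    linarith [(s1.rr_bd θ).1, (s2.rr_bd φ).2]
  have hev : ∀ᶠ x : ℝ in 𝓝[>] 0, x ∈ Ioo (0 : ℝ) (1 / 100) := Ioo_mem_nhdsGT (by norm_num)
  have hneg : ∀ x : ℝ, ((0 : ℝ) : ℂ) - x * I = (0 : ℝ) + (-x : ℝ) * I := fun x => by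
    push_cast; ring
  refine ⟨![γ1, γ2], ![L1, L2], ⟨by linarith, ?_, ⟨3 + 3 * I, by linarith, fun z hz => ?_⟩,
    by push_cast; linarith, ?_⟩, fun α => ?_⟩
  · refine HQ 2 _ _ _ (ann_open b4) ?_ ?_ ?_ ?_ ?_ ?_ ?_ ?_ _ (inv_pos.2 (by linarith)) k5
    · exact (Metric.isBounded_closedBall (x := (0 : ℂ)) (r := 1)).subset fun z hz =>
        mem_closedBall_zero_iff.2 (ann_bd b4 hz).2
    · exact Fin.forall_fin_two.2 ⟨c1.cv, c2.cv⟩
    · exact Fin.forall_fin_two.2 ⟨(c1.bnd p1 b1 k1 k3).kap.b0, (c2.bnd p2 b2 k2 k3).kap.b0⟩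
    · refine Fin.forall_fin_two.2 ⟨fun s t _ => ?_, fun s t _ => ?_⟩
      · obtain ⟨m, hm⟩ := c1.lip s t
        exact ⟨m, hm.trans (mul_le_mul_of_nonneg_right (by linarith) (norm_nonneg _))⟩
      · obtain ⟨m, hm⟩ := c2.lip s t
        exact ⟨m, hm.trans (mul_le_mul_of_nonneg_right (by linarith) (norm_nonneg _))⟩
    · refine Fin.forall_fin_two.2 ⟨Fin.forall_fin_two.2 ⟨fun s t h => absurd rfl h,
        fun s t _ => far s t⟩, Fin.forall_fin_two.2 ⟨fun s t _ => ?_, fun s t h => absurd rfl h⟩⟩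
      exact (far t s).trans_eq (norm_sub_rev _ _)
    · intro z hz
      obtain ⟨h0, h1 | h1⟩ := ann_front b4 hz
      · obtain ⟨θ, hθ⟩ := on_curve p1 h0 h1
        obtain ⟨s, hs⟩ := c1.sup θ
        exact ⟨0, s, hs.trans hθ.symm⟩
      · obtain ⟨θ, hθ⟩ := on_curve p2 h0 h1
        obtain ⟨s, hs⟩ := c2.sup θ
        exact ⟨1, s, hs.trans hθ.symm⟩
    · refine Fin.forall_fin_two.2 ⟨fun s hs => ?_, fun s hs => ?_⟩
      · have h1 : FF k ε (γ1 s) ∈ Ioo r0 R1 := hs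
        rw [c1.FF_eq p1 s1] at h1
        exact lt_irrefl _ h1.2
      · have h1 : FF k ε (γ2 s) ∈ Ioo r0 R1 := hs
        rw [c2.FF_eq p2 s2] at h1
        exact lt_irrefl _ h1.1
    · refine Fin.forall_fin_two.2 ⟨⟨0, hev.mono fun x hx => ⟨?_, fun h => ?_⟩⟩,
        ⟨0, hev.mono fun x hx => ⟨?_, fun h => ?_⟩⟩⟩
      · show FF k ε (Phi γ1 _) ∈ Ioo r0 R1
        rw [c1.FF_phi p1 s1 (abs_le.2 ⟨by linarith [hx.1], by linarith [hx.2]⟩)]
        exact ⟨by linarith [hx.2], by linarith [hx.1]⟩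
      · have h1 : FF k ε (Phi γ1 _) ∈ Ioo r0 R1 := h
        rw [hneg, c1.FF_phi p1 s1 (abs_le.2 ⟨by linarith [hx.2], by linarith [hx.1]⟩)] at h1
        linarith [h1.2, hx.1]
      · show FF k ε (Phi γ2 _) ∈ Ioo r0 R1
        rw [c2.FF_phi p2 s2 (abs_le.2 ⟨by linarith [hx.1], by linarith [hx.2]⟩)]
        exact ⟨by linarith [hx.1], by linarith [hx.2]⟩
      · have h1 : FF k ε (Phi γ2 _) ∈ Ioo r0 R1 := h
        rw [hneg, c2.FF_phi p2 s2 (abs_le.2 ⟨by linarith [hx.2], by linarith [hx.1]⟩)] at h1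
        linarith [h1.1, hx.1]
  · have h1 := (ann_bd b4 hz).2
    have a := abs_le.1 ((abs_re_le_norm z).trans h1)
    have b := abs_le.1 ((abs_im_le_norm z).trans h1)
    simp only [mem_Icc, add_re, add_im, mul_re, mul_im, I_re, I_im, re_ofNat, im_ofNat]
    refine ⟨⟨?_, ?_⟩, ?_, ?_⟩ <;> linarith [a.1, a.2, b.1, b.2]
  · exact Fin.forall_fin_two.2 ⟨c1.bnd p1 b1 (k1.trans k4) (k3.trans k4),
      c2.bnd p2 b2 (k2.trans k4) (k3.trans k4)⟩
  · rw [mI, Fin.sum_univ_two]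
    show mint L1 α (kap γ1) + mint L2 α (kap γ2) = _
    rw [c1.int, c2.int, one_pow, one_mul]

end Pool.Agent.Lib.ISO
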