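import Pool.Agent.Lib.ISO.Base

/-! Block IBP: normal form of the integral of a differential monomial. -/

open scoped ContDiff

noncomputable section

namespace Pool.Agent.Lib.ISO

namespace IBP

open List

/-- periodic data -/
abbrev X : Type := {p : ℝ × (ℝ → ℝ) // Per p.1 p.2}

def m (α : List ℕ) : X → ℝ := fun p => mint p.1.1 α p.1.2

def Sp (n σ : ℕ) : Submodule ℝ (X → ℝ) :=
  Submodule.span ℝ (m '' {β | β.length = n ∧ β.sum = σ ∧ Nrm β})

theorem base {β : List ℕ} {n σ : ℕ} (h1 : β.length = n) (h2 : β.sum = σ) (h3 : Nrm β) :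
    m β ∈ Sp n σ := Submodule.subset_span ⟨β, ⟨h1, h2, h3⟩, rfl⟩

theorem perm {α β : List ℕ} (h : α ~ β) : m α = m β := by
  ext p
  simp only [m, mint, mono, (h.map _).prod_eq]

variable {L : ℝ} {κ : ℝ → ℝ}

theorem sm (h : Per L κ) (j : ℕ) : ContDiff ℝ ∞ (iteratedDeriv j κ) := by
  rw [iteratedDeriv_eq_iterate]
  exact h.smooth.iterate_deriv j

theorem hd (h : Per L κ) (j : ℕ) (s : ℝ) :
    HasDerivAt (iteratedDeriv j κ) (iteratedDeriv (j + 1) κ s) s := by
  rw [iteratedDeriv_succ]
  exact ((sm h j).differentiable (by simp) s).hasDerivAt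

theorem pe (h : Per L κ) (j : ℕ) : iteratedDeriv j κ L = iteratedDeriv j κ 0 := by
  have := congrFun (iteratedDeriv_comp_add_const j κ L) 0
  rw [funext h.per, zero_add] at this
  exact this.symm

theorem ct (h : Per L κ) (α : List ℕ) : Continuous (mono α κ) :=
  continuous_list_prod α fun j _ => (sm h j).continuous

theorem rep (p : ℕ) (s : ℝ) : mono (replicate p 0) κ s = iteratedDeriv 0 κ s ^ p := by
  simp [mono]

theorem cons (a : ℕ) (l : List ℕ) (s : ℝ) :
    mono (a :: l) κ s = iteratedDeriv a κ s * mono l κ s := by simp [mono]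

theorem key1 (a p : ℕ) :
    m ((a + 1) :: replicate p 0) + (p : ℝ) • m (a :: 1 :: replicate (p - 1) 0) = 0 := by
  ext ⟨⟨L, κ⟩, h⟩
  have i := fun α => (ct h α).intervalIntegrable (μ := MeasureTheory.volume) 0 L
  simp only [m, mint, Pi.add_apply, Pi.smul_apply, smul_eq_mul, Pi.zero_apply]
  rw [← intervalIntegral.integral_const_mul, ← intervalIntegral.integral_add (i _) ((i _).const_mul _),
    intervalIntegral.integral_eq_sub_of_hasDerivAt (f := fun s => iteratedDeriv a κ s *
      iteratedDeriv 0 κ s ^ p) (fun s _ => ((hd h a s).mul ((hd h 0 s).pow p)).congr_deriv ?_)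
      ((i _).add ((i _).const_mul _)), pe h, pe h, sub_self]
  simp only [cons, rep, Pi.pow_apply]
  ring

theorem key2 (a b p : ℕ) : m ((a + 1) :: b :: replicate p 0) + m (a :: (b + 1) :: replicate p 0) +
    (p : ℝ) • m (a :: b :: 1 :: replicate (p - 1) 0) = 0 := by
  ext ⟨⟨L, κ⟩, h⟩
  have i := fun α => (ct h α).intervalIntegrable (μ := MeasureTheory.volume) 0 L
  simp only [m, mint, Pi.add_apply, Pi.smul_apply, smul_eq_mul, Pi.zero_apply]
  rw [← intervalIntegral.integral_const_mul, ← intervalIntegral.integral_add (i _) (i _),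
    ← intervalIntegral.integral_add ((i _).add (i _)) ((i _).const_mul _),
    intervalIntegral.integral_eq_sub_of_hasDerivAt (f := fun s => iteratedDeriv a κ s *
      (iteratedDeriv b κ s * iteratedDeriv 0 κ s ^ p))
      (fun s _ => ((hd h a s).mul ((hd h b s).mul ((hd h 0 s).pow p))).congr_deriv ?_)
      (((i _).add (i _)).add ((i _).const_mul _)), pe h, pe h, pe h, sub_self]
  simp only [cons, rep, Pi.pow_apply, Pi.mul_apply]
  ring

theorem three (a b p : ℕ) : (p : ℝ) • m ((a + 1) :: (b + 1) :: 1 :: replicate (p - 1) 0) ∈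
    Sp (p + 2) (a + b + 3) := by
  rcases p with _ | p
  · simp
  · exact Submodule.smul_mem _ _ (base (by simp) (by simp; omega) (Or.inr (Or.inl (by simp [nd]))))

theorem two (p d : ℕ) : ∀ b, m ((b + 1 + d) :: (b + 1) :: replicate p 0) ∈
    Sp (p + 2) (2 * b + 2 + d) := by
  induction d using Nat.twoStepInduction with
  | zero =>
    exact fun b => base (by simp) (by simp; omega) (Or.inr (Or.inr ⟨b + 1, p, by omega, rfl⟩))
  | one =>
    intro b
    have k := key2 (b + 1) (b + 1) p
    rw [perm (Perm.swap (b + 1 + 1) (b + 1) _)] at k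
    have t := Submodule.smul_mem _ (-(1 / 2) : ℝ) (three b b p)
    rw [show 2 * b + 2 + 1 = b + b + 3 by omega, show m ((b + 1 + 1) :: (b + 1) :: replicate p 0) =
      (-(1 / 2) : ℝ) • (p : ℝ) • m ((b + 1) :: (b + 1) :: 1 :: replicate (p - 1) 0) by
        linear_combination (norm := module) (1 / 2 : ℝ) • k]
    exact t
  | more d ih _ =>
    intro b
    have k := key2 (b + d + 1 + 1) (b + 1) p
    have i := ih (b + 1)
    have t := three (b + d + 1) b p
    rw [show b + 1 + 1 + d = b + d + 1 + 1 by omega,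
      show 2 * (b + 1) + 2 + d = b + d + 1 + b + 3 by omega] at i
    rw [show b + 1 + (d + 2) = b + d + 1 + 1 + 1 by omega,
      show 2 * b + 2 + (d + 2) = b + d + 1 + b + 3 by omega,
      eq_neg_of_add_eq_zero_left ((add_assoc _ _ _).symm.trans k)]
    exact neg_mem (add_mem i t)

theorem one (a p : ℕ) : m ((a + 1) :: replicate p 0) ∈ Sp (p + 1) (a + 1) := by
  have k := key1 a p
  rcases p with _ | p
  · simp only [Nat.cast_zero, zero_smul, add_zero] at k
    rw [k]
    exact zero_mem _
  rcases a with _ | a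
  · rw [Nat.add_sub_cancel, perm (Perm.swap 1 0 _), ← replicate_succ, zero_add] at k
    have : ((p + 1 : ℕ) + 1 : ℝ) • m (1 :: replicate (p + 1) 0) = 0 := by
      rw [add_smul, one_smul, add_comm, k]
    rw [zero_add, (smul_eq_zero_iff_right (by positivity)).1 this]
    exact zero_mem _
  · have t := two p a 0
    rw [show 0 + 1 + a = a + 1 by omega, show 2 * 0 + 2 + a = a + 1 + 1 by omega] at t
    rw [eq_neg_of_add_eq_zero_left k]
    exact neg_mem (Submodule.smul_mem _ _ t)

theorem split (α : List ℕ) : ∃ (l : List ℕ) (p : ℕ), α ~ l.map (· + 1) ++ replicate p 0 ∧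
    nd α = l.length := by
  induction α with
  | nil => exact ⟨[], 0, Perm.refl _, rfl⟩
  | cons a α ih =>
    obtain ⟨l, p, h, e⟩ := ih
    rcases a with _ | a
    · exact ⟨l, p + 1, (h.cons 0).trans perm_middle.symm, by simpa [nd] using e⟩
    · exact ⟨a :: l, p, h.cons _, by simpa [nd] using e⟩

theorem all (α : List ℕ) : m α ∈ Sp α.length α.sum := by
  obtain ⟨l, p, h, e⟩ := split α
  match l, h, e with
  | [], _, e => exact base rfl rfl (Or.inl e)
  | [a], h, _ =>
    rw [perm h, h.length_eq, h.sum_eq]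
    simpa using one a p
  | [a, b], h, _ =>
    rw [perm h, h.length_eq, h.sum_eq]
    rcases le_total a b with k | k <;> obtain ⟨d, rfl⟩ := Nat.exists_eq_add_of_le k
    · have t := two p d a
      rw [perm (Perm.swap _ _ _), show a + 1 + d = a + d + 1 by omega,
        show 2 * a + 2 + d = a + 1 + (a + d + 1) by omega] at t
      simpa using t
    · have t := two p d b
      rw [show b + 1 + d = b + d + 1 by omega,
        show 2 * b + 2 + d = b + d + 1 + (b + 1) by omega] at t
      simpa using t
  | _ :: _ :: _ :: _, _, e => exact base rfl rfl (Or.inr (Or.inl (by rw [e]; simp)))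

end IBP

theorem st_ibp : St_IBP := by
  intro α
  obtain ⟨c, hs, hc⟩ := (Finsupp.mem_span_image_iff_linearCombination ℝ).1 (IBP.all α)
  refine ⟨c.support, c, fun β hβ => hs hβ, fun L κ h => ?_⟩
  simpa [IBP.m, Finsupp.linearCombination_apply, Finsupp.sum] using (congrFun hc ⟨(L, κ), h⟩).symm

end Pool.Agent.Lib.ISO
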