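import Pool.Agent.Lib.ISO.BlueV

open Set Filter Topology Real

noncomputable section

namespace Pool.Agent.Lib.ISO

namespace JET

def De (F : ℝ × ℝ → ℝ) (p : ℝ × ℝ) : ℝ := deriv (fun ε => F (ε, p.2)) p.1
def Dt (F : ℝ × ℝ → ℝ) (p : ℝ × ℝ) : ℝ := deriv (fun θ => F (p.1, θ)) p.2

variable {F G : ℝ × ℝ → ℝ} {p : ℝ × ℝ} {c : ℝ}

theorem de_eq (h : AnalyticAt ℝ F p) : De F =ᶠ[𝓝 p] fun q => fderiv ℝ F q (1, 0) :=
  h.eventually_analyticAt.mono fun q hq => (hq.differentiableAt.hasFDerivAt.comp_hasDerivAt q.1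
    ((hasDerivAt_id' q.1).prodMk (hasDerivAt_const q.1 q.2))).deriv

theorem dt_eq (h : AnalyticAt ℝ F p) : Dt F =ᶠ[𝓝 p] fun q => fderiv ℝ F q (0, 1) :=
  h.eventually_analyticAt.mono fun q hq => (hq.differentiableAt.hasFDerivAt.comp_hasDerivAt q.2
    ((hasDerivAt_const q.2 q.1).prodMk (hasDerivAt_id' q.2))).deriv

theorem an_app (h : AnalyticAt ℝ F p) (v : ℝ × ℝ) : AnalyticAt ℝ (fun q => fderiv ℝ F q v) p :=
  ((ContinuousLinearMap.apply ℝ ℝ v).analyticAt _).comp h.fderiv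

theorem an_de (h : AnalyticAt ℝ F p) : AnalyticAt ℝ (De F) p := (an_app h _).congr (de_eq h).symm

theorem an_dt (h : AnalyticAt ℝ F p) : AnalyticAt ℝ (Dt F) p := (an_app h _).congr (dt_eq h).symm

theorem comm (h : AnalyticAt ℝ F p) : De (Dt F) p = Dt (De F) p := by
  rw [(de_eq (an_dt h)).eq_of_nhds, (dt_eq (an_de h)).eq_of_nhds, (dt_eq h).fderiv_eq,
    (de_eq h).fderiv_eq, fderiv_clm_apply h.fderiv.differentiableAt (by fun_prop),
    fderiv_clm_apply h.fderiv.differentiableAt (by fun_prop)]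
  simpa using h.contDiffAt.isSymmSndFDerivAt_of_omega (1, 0) (0, 1)

theorem an_e {ε θ : ℝ} (h : AnalyticAt ℝ F (ε, θ)) : AnalyticAt ℝ (fun ε => F (ε, θ)) ε :=
  AnalyticAt.comp (f := fun ε : ℝ => (ε, θ)) h (analyticAt_id.prod analyticAt_const)

/-- analytic in a strip, periodic in the second variable -/
structure Sm (c : ℝ) (F : ℝ × ℝ → ℝ) : Prop where
  an : ∀ p : ℝ × ℝ, |p.1| ≤ c / 4 → AnalyticAt ℝ F p
  per : ∀ ε θ, F (ε, θ + 2 * π) = F (ε, θ)

theorem Sm.de (h : Sm c F) : Sm c (De F) :=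
  ⟨fun p hp => an_de (h.an p hp), fun ε θ => by simp only [De, h.per]⟩

theorem Sm.dt (h : Sm c F) : Sm c (Dt F) :=
  ⟨fun p hp => an_dt (h.an p hp), fun ε θ => by
    simp only [Dt]
    rw [← deriv_comp_add_const (fun θ => F (ε, θ))]
    simp only [h.per]⟩

theorem Sm.mul (h : Sm c F) (h' : Sm c G) : Sm c fun p => F p * G p :=
  ⟨fun p hp => (h.an p hp).mul (h'.an p hp), fun ε θ => by rw [h.per, h'.per]⟩

theorem Sm.bdd (h : Sm c F) : ∃ C, 0 ≤ C ∧ ∀ ε θ, |ε| ≤ c / 4 → |F (ε, θ)| ≤ C := by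
  obtain ⟨C, hC⟩ := ((isCompact_Icc (a := -(c / 4)) (b := c / 4)).prod
    (isCompact_Icc (a := 0) (b := 2 * π))).exists_bound_of_continuousOn (f := F)
    fun p hp => (h.an p (abs_le.2 hp.1)).continuousAt.continuousWithinAt
  refine ⟨|C|, abs_nonneg _, fun ε θ hε => ?_⟩
  obtain ⟨y, hy, e⟩ := Function.Periodic.exists_mem_Ico₀ (f := fun θ => F (ε, θ)) (h.per ε)
    two_pi_pos θ
  exact e ▸ (hC (ε, y) ⟨abs_le.1 hε, Ico_subset_Icc_self hy⟩).trans (le_abs_self _)

theorem Sm.int (h : Sm c F) {ε : ℝ} (hε : |ε| ≤ c / 4) :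
    IntervalIntegrable (fun θ => F (ε, θ)) MeasureTheory.volume 0 (2 * π) :=
  (continuous_iff_continuousAt.2 fun θ => ContinuousAt.comp (f := fun θ : ℝ => (ε, θ))
    (h.an _ hε).continuousAt (by fun_prop)).intervalIntegrable _ _

theorem step {g g' : ℝ → ℝ} {a K : ℝ} {n : ℕ} (hK : 0 ≤ K)
    (h : ∀ x, |x| ≤ a → HasDerivAt g (g' x) x) (h0 : g 0 = 0)
    (hb : ∀ x, |x| ≤ a → |g' x| ≤ K * |x| ^ n) (x : ℝ) (hx : |x| ≤ a) :
    |g x| ≤ K * |x| ^ (n + 1) := by
  have := (convex_Icc (-|x|) |x|).norm_image_sub_le_of_norm_hasDerivWithin_le (C := K * |x| ^ n)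
    (fun y hy => (h y ((abs_le.2 hy).trans hx)).hasDerivWithinAt)
    (fun y hy => (hb y ((abs_le.2 hy).trans hx)).trans (mul_le_mul_of_nonneg_left
      (pow_le_pow_left₀ (abs_nonneg y) (abs_le.2 hy) n) hK))
    (x := 0) (y := x) (abs_le.1 (by simp)) (abs_le.1 le_rfl)
  simpa [h0, pow_succ, mul_assoc] using this

theorem Sm.taylor (h : Sm c F) : ∃ C, ∀ ε θ, |ε| ≤ c / 4 →
    |F (ε, θ) + F (-ε, θ) - 2 * F (0, θ) - ε ^ 2 * De (De F) (0, θ)| ≤ C * |ε| ^ 3 := by
  obtain ⟨C, h0, hC⟩ := h.de.de.de.bdd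
  refine ⟨2 * C, fun ε θ => ?_⟩
  have d : ∀ {F}, Sm c F → ∀ x, |x| ≤ c / 4 → HasDerivAt (fun ε => F (ε, θ)) (De F (x, θ)) x ∧
      HasDerivAt (fun ε => F (-ε, θ)) (-De F (-x, θ)) x := fun hF x hx =>
    ⟨(an_e (hF.an (x, θ) hx)).differentiableAt.hasDerivAt,
      ((an_e (hF.an (-x, θ) (by rwa [abs_neg]))).differentiableAt.hasDerivAt.comp x
        (hasDerivAt_neg x)).congr_deriv (mul_neg_one _)⟩
  refine step (n := 2)
    (g := fun ε => F (ε, θ) + F (-ε, θ) - 2 * F (0, θ) - ε ^ 2 * De (De F) (0, θ))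
    (g' := fun x => De F (x, θ) - De F (-x, θ) - 2 * x * De (De F) (0, θ))
    (by positivity) (fun x hx => ?_) (by rw [neg_zero]; ring) (step (n := 1)
    (g' := fun x => De (De F) (x, θ) + De (De F) (-x, θ) - 2 * De (De F) (0, θ)) (by positivity)
    (fun x hx => ?_) (by simp) (step (n := 0)
    (g' := fun x => De (De (De F)) (x, θ) - De (De (De F)) (-x, θ)) (by positivity)
    (fun x hx => ?_) (by rw [neg_zero]; ring) fun x hx => ?_)) ε
  · exact ((((d h x hx).1.add (d h x hx).2).sub_const (2 * F (0, θ))).sub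
      ((hasDerivAt_pow 2 x).mul_const (De (De F) (0, θ)))).congr_deriv (by push_cast; ring)
  · exact (((d h.de x hx).1.sub (d h.de x hx).2).sub
      (((hasDerivAt_id' x).const_mul 2).mul_const (De (De F) (0, θ)))).congr_deriv (by ring)
  · simpa [sub_eq_add_neg] using ((d h.de.de x hx).1.add (d h.de.de x hx).2).sub_const
      (2 * De (De F) (0, θ))
  · have := abs_sub (De (De (De F)) (x, θ)) (De (De (De F)) (-x, θ))
    have := hC x θ hx
    have := hC (-x) θ (by rwa [abs_neg])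
    rw [pow_zero]
    linarith

theorem d2_mul {f g : ℝ → ℝ} (hf : AnalyticAt ℝ f 0) (hg : AnalyticAt ℝ g 0) :
    deriv (fun x => f x * g x) 0 = deriv f 0 * g 0 + f 0 * deriv g 0 ∧
    deriv (deriv fun x => f x * g x) 0 =
      deriv (deriv f) 0 * g 0 + 2 * (deriv f 0 * deriv g 0) + f 0 * deriv (deriv g) 0 := by
  have e : (deriv fun x => f x * g x) =ᶠ[𝓝 0] fun x => deriv f x * g x + f x * deriv g x := by
    filter_upwards [hf.eventually_analyticAt, hg.eventually_analyticAt] with x a b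
      using deriv_fun_mul a.differentiableAt b.differentiableAt
  refine ⟨e.eq_of_nhds, ?_⟩
  rw [e.deriv_eq, deriv_fun_add (hf.deriv.fun_mul hg).differentiableAt
    (hf.fun_mul hg.deriv).differentiableAt, deriv_fun_mul hf.deriv.differentiableAt hg.differentiableAt,
    deriv_fun_mul hf.differentiableAt hg.deriv.differentiableAt]
  ring

theorem van {f : ℕ → ℝ → ℝ} {g : ℝ → ℝ} (hf : ∀ j, AnalyticAt ℝ (f j) 0) (hg : AnalyticAt ℝ g 0)
    (h0 : ∀ j, f (j + 1) 0 = 0) (α : List ℕ) :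
    AnalyticAt ℝ (fun x => (α.map fun j => f j x).prod * g x) 0 ∧
    (1 ≤ nd α → (α.map fun j => f j 0).prod * g 0 = 0) ∧
    (2 ≤ nd α → deriv (fun x => (α.map fun j => f j x).prod * g x) 0 = 0) ∧
    (3 ≤ nd α → deriv (deriv fun x => (α.map fun j => f j x).prod * g x) 0 = 0) := by
  induction α with
  | nil => simpa [nd] using hg
  | cons j α ih =>
    obtain ⟨i0, i1, i2, i3⟩ := ih
    obtain ⟨e1, e2⟩ := d2_mul (hf j) i0
    simp only [List.map_cons, List.prod_cons, mul_assoc] at *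
    rw [e1, e2]
    refine ⟨(hf j).mul i0, ?_⟩
    rcases j with _ | j
    · rw [show nd (0 :: α) = nd α by simp [nd]]
      exact ⟨fun h => by rw [i1 h, mul_zero], fun h => by simp [i1 (by omega), i2 h],
        fun h => by simp [i1 (by omega), i2 (by omega), i3 h]⟩
    · rw [show nd ((j + 1) :: α) = nd α + 1 by simp [nd], h0]
      exact ⟨fun _ => zero_mul _, fun h => by simp [i1 (by omega)],
        fun h => by simp [i1 (by omega), i2 (by omega)]⟩

theorem rh1 (k : ℕ) : deriv (rh k) = fun θ => -(2 * k * sin (k * θ)) := funext fun θ => by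
  have := (((hasDerivAt_id' θ).const_mul (k : ℝ)).cos.const_mul 2).deriv
  rw [show rh k = fun θ => 2 * cos (k * θ) from rfl, this]
  ring

theorem rh2 (k : ℕ) : deriv (deriv (rh k)) = fun θ => -(2 * k ^ 2 * cos (k * θ)) :=
  funext fun θ => by
  have := (((hasDerivAt_id' θ).const_mul (k : ℝ)).sin.const_mul (2 * k : ℝ)).fun_neg.deriv
  rw [rh1, this]
  ring

/-- the length element as a function of the 2-jet -/
def V0 (c : ℝ) (v : ℝ × ℝ × ℝ) : ℝ := √((c + v.1) ^ 2 + v.2.1 ^ 2)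
/-- the curvature as a function of the 2-jet -/
def K0 (c : ℝ) (v : ℝ × ℝ × ℝ) : ℝ :=
  ((c + v.1) ^ 2 + 2 * v.2.1 ^ 2 - (c + v.1) * v.2.2) / V0 c v ^ 3
def jt (k : ℕ) (θ : ℝ) : ℝ × ℝ × ℝ := (rh k θ, deriv (rh k) θ, deriv (deriv (rh k)) θ)

theorem jt_eq (k : ℕ) : jt k = fun θ =>
    (2 * cos (k * θ), -(2 * k * sin (k * θ)), -(2 * k ^ 2 * cos (k * θ))) := funext fun θ => by
  rw [jt, rh2, rh1]
  rfl

theorem an0 {v : ℝ × ℝ × ℝ} (h : 0 < c + v.1) :
    0 < V0 c v ∧ AnalyticAt ℝ (V0 c) v ∧ AnalyticAt ℝ (K0 c) v := by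
  have p : 0 < (c + v.1) ^ 2 + v.2.1 ^ 2 := by positivity
  have a : AnalyticAt ℝ (V0 c) v := ContDiffAt.analyticAt (ContDiffAt.sqrt (by fun_prop) p.ne')
  exact ⟨sqrt_pos.2 p, a, AnalyticAt.div (ContDiffAt.analyticAt (by fun_prop)) (a.pow 3)
    (pow_pos (sqrt_pos.2 p) 3).ne'⟩

variable (hc : 0 < c) (k : ℕ)
include hc

theorem base : (∀ p : ℝ × ℝ, |p.1| ≤ c / 4 → 0 < pv c k p.1 p.2) ∧
    Sm c (fun p => pv c k p.1 p.2) ∧ ∀ j, Sm c fun p => pj c k p.1 j p.2 := by
  have pos : ∀ p : ℝ × ℝ, |p.1| ≤ c / 4 → 0 < c + (p.1 • jt k p.2).1 := fun p hp => by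
    have : |p.1 * rh k p.2| ≤ c / 4 * 2 := by
      rw [abs_mul, rh, abs_mul, abs_two]
      exact mul_le_mul hp (by linarith [abs_cos_le_one (k * p.2)]) (by positivity) (by positivity)
    change 0 < c + p.1 * rh k p.2
    linarith [(abs_le.1 this).1]
  have a : ∀ p : ℝ × ℝ, AnalyticAt ℝ (fun p : ℝ × ℝ => p.1 • jt k p.2) p := fun p => by
    rw [jt_eq]
    exact ContDiffAt.analyticAt (by fun_prop)
  have pr : ∀ θ, jt k (θ + 2 * π) = jt k θ := fun θ => by
    simp only [jt_eq, mul_add, cos_add_nat_mul_two_pi, sin_add_nat_mul_two_pi]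
  have v : Sm c fun p => pv c k p.1 p.2 := ⟨fun p hp => AnalyticAt.comp
    (f := fun p : ℝ × ℝ => p.1 • jt k p.2) (an0 (pos p hp)).2.1 (a p),
    fun ε θ => congrArg (fun x => V0 c (ε • x)) (pr θ)⟩
  refine ⟨fun p hp => (an0 (pos p hp)).1, v, fun j => ?_⟩
  induction j with
  | zero => exact ⟨fun p hp => AnalyticAt.comp (f := fun p : ℝ × ℝ => p.1 • jt k p.2)
      (an0 (pos p hp)).2.2 (a p), fun ε θ => congrArg (fun x => K0 c (ε • x)) (pr θ)⟩
  | succ j ih => exact ⟨fun p hp => (ih.dt.an p hp).div (v.an p hp) (an0 (pos p hp)).1.ne',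
      fun ε θ => congrArg₂ (· / ·) (ih.dt.per ε θ) (v.per ε θ)⟩

theorem pv0 (θ : ℝ) : pv c k 0 θ = c := by simp [pv, hc.le]

theorem pj0 : pj c k 0 0 = fun _ => c⁻¹ := funext fun θ => by
  simp only [pj, pv0 hc, zero_mul]
  field_simp
  ring

theorem pjs (j : ℕ) : pj c k 0 (j + 1) = fun _ => 0 := by
  induction j with
  | zero => exact funext fun θ => by simp [pj.eq_2, pj0 hc]
  | succ j ih => exact funext fun θ => by rw [pj.eq_2, ih]; simp

theorem dpj (j : ℕ) (θ : ℝ) : deriv (fun ε => pj c k ε j θ) 0 =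
    ((k : ℝ) ^ 2 - 1) / c ^ (j + 2) * (2 * k ^ j * cos (k * θ + j * (π / 2))) := by
  obtain ⟨-, v, g⟩ := base hc k
  have z : ∀ θ : ℝ, |((0, θ) : ℝ × ℝ).1| ≤ c / 4 := fun _ => by simp; positivity
  induction j generalizing θ with
  | zero =>
    have a := ((hasDerivAt_id' (0 : ℝ)).mul_const (rh k θ)).const_add c
    have b := ((hasDerivAt_id' (0 : ℝ)).mul_const (deriv (rh k) θ)).fun_pow 2
    have d := (((a.fun_pow 2).fun_add (b.const_mul 2)).fun_sub (a.fun_mul
      ((hasDerivAt_id' (0 : ℝ)).mul_const (deriv (deriv (rh k)) θ)))).fun_div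
      ((((a.fun_pow 2).fun_add b).sqrt (by simpa using hc.ne')).fun_pow 3) (by simpa [hc.le] using hc.ne')
    refine d.deriv.trans ?_
    simp only [rh2, rh]
    simp [hc.le]
    field_simp
    ring
  | succ j ih =>
    have e := comm ((g j).an _ (z θ))
    have e0 : Dt (fun p => pj c k p.1 j p.2) (0, θ) = 0 := by
      rcases j with _ | j <;> simp [Dt, pj0 hc, pjs hc]
    have d := deriv_fun_div (an_e ((g j).dt.an _ (z θ))).differentiableAt
      (an_e (v.an _ (z θ))).differentiableAt (by simpa [pv0 hc] using hc.ne')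
    refine d.trans ?_
    rw [e0, show deriv (fun ε => Dt (fun p => pj c k p.1 j p.2) (ε, θ)) 0 = _ from e]
    simp only [Dt, De, ih, pv0 hc]
    rw [((((((hasDerivAt_id' θ).const_mul (k : ℝ)).add_const (j * (π / 2))).cos.const_mul
      (2 * (k : ℝ) ^ j))).const_mul (((k : ℝ) ^ 2 - 1) / c ^ (j + 2))).deriv, Nat.cast_succ, add_mul,
      one_mul, ← add_assoc, cos_add_pi_div_two]
    field_simp
    ring

omit hc in
theorem d2_line {Φ : ℝ × ℝ × ℝ → ℝ} (h : AnalyticAt ℝ Φ 0) (v : ℝ × ℝ × ℝ) :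
    |deriv (deriv fun ε : ℝ => Φ (ε • v)) 0| ≤ ‖fderiv ℝ (fderiv ℝ Φ) 0‖ * ‖v‖ * ‖v‖ := by
  have l : ∀ x : ℝ, HasDerivAt (fun ε : ℝ => ε • v) v x := fun x => by
    simpa using (hasDerivAt_id' x).smul_const v
  have t : Tendsto (fun ε : ℝ => ε • v) (𝓝 0) (𝓝 0) :=
    Continuous.tendsto' (by fun_prop) _ _ (zero_smul _ _)
  have e : (deriv fun ε : ℝ => Φ (ε • v)) =ᶠ[𝓝 0] fun ε => fderiv ℝ Φ (ε • v) v :=
    (t.eventually h.eventually_analyticAt).mono fun x hx =>
      (hx.differentiableAt.hasFDerivAt.comp_hasDerivAt x (l x)).deriv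
  have d := (HasFDerivAt.comp_hasDerivAt_of_eq (0 : ℝ) h.fderiv.differentiableAt.hasFDerivAt (l 0)
    (zero_smul _ _).symm).clm_apply (hasDerivAt_const 0 v)
  rw [e.deriv_eq, show deriv (fun ε : ℝ => fderiv ℝ Φ (ε • v) v) 0 = _ from d.deriv]
  simpa using (fderiv ℝ (fderiv ℝ Φ) 0).le_opNorm₂ v v

end JET

open JET in
theorem st_jet : St_JET := by
  intro c hc
  refine ⟨fun k N => ?_, fun α _ => ?_⟩
  · choose C h0 hC using fun j => ((base hc k).2.2 j).bdd
    exact ⟨∑ j ∈ Finset.range (N + 1), C j, c / 4, by positivity, fun ε hε j hj θ =>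
      (hC j ε θ hε).trans (Finset.single_le_sum (fun j _ => h0 j) (by simpa using hj))⟩
  have sm : ∀ k (α : List ℕ), Sm c fun p =>
      (α.map fun j => pj c k p.1 j p.2).prod * pv c k p.1 p.2 := fun k α => by
    induction α with
    | nil => simpa using (base hc k).2.1
    | cons j α ih => simpa [mul_assoc] using ((base hc k).2.2 j).mul ih
  have z : |(0 : ℝ)| ≤ c / 4 := by simp; positivity
  have vn := fun k θ => van (f := fun j ε => pj c k ε j θ) (g := fun ε => pv c k ε θ)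
    (fun j => an_e (((base hc k).2.2 j).an (0, θ) z)) (an_e ((base hc k).2.1.an (0, θ) z))
    fun j => congrFun (pjs hc k j) θ
  refine ⟨fun k => ∫ θ in (0 : ℝ)..(2 * π), deriv (deriv fun ε =>
    (α.map fun j => pj c k ε j θ).prod * pv c k ε θ) 0, fun k => ?_, fun h => ?_, fun h k => ?_, ?_⟩
  · obtain ⟨C, hC⟩ := (sm k α).taylor
    refine ⟨C * (2 * π), c / 4, by positivity, fun ε hε => ?_⟩
    have i1 := (sm k α).int hε
    have i2 := (sm k α).int (ε := -ε) (by rwa [abs_neg])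
    have i3 := ((sm k α).int z).const_mul 2
    have i4 := ((sm k α).de.de.int z).const_mul (ε ^ 2)
    have := intervalIntegral.norm_integral_le_of_norm_le_const (a := 0) (b := 2 * π)
      fun θ _ => (norm_eq_abs _).trans_le (hC ε θ hε)
    rw [intervalIntegral.integral_sub ((i1.add i2).sub i3) i4,
      intervalIntegral.integral_sub (i1.add i2) i3, intervalIntegral.integral_add i1 i2,
      intervalIntegral.integral_const_mul, intervalIntegral.integral_const_mul, sub_zero,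
      abs_of_pos two_pi_pos, mul_right_comm] at this
    exact this
  · obtain ⟨-, a1, a2⟩ := an0 (c := c) (v := 0) (by simpa using hc)
    have a := (a2.fun_pow α.length).fun_mul a1
    refine ⟨‖fderiv ℝ (fderiv ℝ fun v => K0 c v ^ α.length * V0 c v) 0‖ * 4 * (2 * π),
      fun k hk => ?_⟩
    have hα : α = List.replicate α.length 0 := List.eq_replicate_iff.2 ⟨rfl, fun b hb => by
      simpa using List.countP_eq_zero.1 h b hb⟩
    have k1 : (1 : ℝ) ≤ k := by exact_mod_cast hk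
    refine (norm_eq_abs _).symm.trans_le ((intervalIntegral.norm_integral_le_of_norm_le_const
      (C := ‖fderiv ℝ (fderiv ℝ fun v => K0 c v ^ α.length * V0 c v) 0‖ * 4 * k ^ 4)
      fun θ _ => ?_).trans_eq (by rw [sub_zero, abs_of_pos two_pi_pos]; ring))
    have n : ‖jt k θ‖ ≤ 2 * k ^ 2 := by
      have := abs_cos_le_one (k * θ)
      have := abs_sin_le_one (k * θ)
      have := abs_nonneg (sin (k * θ))
      simp only [jt_eq, norm_prod_le_iff, norm_eq_abs, abs_neg, abs_mul, abs_two,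
        abs_pow, Nat.abs_cast]
      refine ⟨by nlinarith, by nlinarith, by nlinarith⟩
    rw [hα]
    simp only [List.map_replicate, List.prod_replicate, List.length_replicate]
    refine (d2_line a (jt k θ)).trans ?_
    calc _ ≤ ‖fderiv ℝ (fderiv ℝ fun v => K0 c v ^ α.length * V0 c v) 0‖ * (2 * k ^ 2) *
        (2 * k ^ 2) := by gcongr
      _ = _ := by ring
  · simp only [fun θ => (vn k θ α).2.2.2 h, intervalIntegral.integral_zero]
  · rintro r p hr rfl k hk
    obtain ⟨r, rfl⟩ := Nat.exists_eq_add_of_le' hr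
    have k0 : (k : ℝ) ≠ 0 := by positivity
    have e : ∀ θ, deriv (deriv fun ε => (((r + 1) :: (r + 1) :: List.replicate p 0).map
        fun j => pj c k ε j θ).prod * pv c k ε θ) 0 =
        8 * ((k : ℝ) ^ 2 - 1) ^ 2 * k ^ (2 * (r + 1)) / c ^ (2 * r + p + 5) *
          cos (k * θ + (r + 1 : ℕ) * (π / 2)) ^ 2 := fun θ => by
      have a := an_e (((base hc k).2.2 (r + 1)).an (0, θ) z)
      have b := (vn k θ (List.replicate p 0)).1
      simp only [List.map_cons, List.prod_cons, mul_assoc]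
      rw [(d2_mul a (a.fun_mul b)).2, (d2_mul a b).1, dpj hc]
      simp only [pjs hc, pj0 hc, pv0 hc, List.map_replicate, List.prod_replicate, inv_pow]
      field_simp
      ring
    simp only [e]
    rw [intervalIntegral.integral_const_mul,
      intervalIntegral.integral_comp_mul_add (fun x => cos x ^ 2) k0, integral_cos_sq,
      add_comm ((k : ℝ) * (2 * π)),
      cos_add_nat_mul_two_pi, sin_add_nat_mul_two_pi,
      show wt ((r + 1) :: (r + 1) :: List.replicate p 0) + 1 = 2 * r + p + 5 by simp [wt]; ring]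
    simp only [mul_zero, zero_add, smul_eq_mul]
    field_simp
    ring

end Pool.Agent.Lib.ISO
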