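import Pool.Agent.Lib.ISO.BlueK

/-! Two-sided domination determines the moduli of the coefficients of the square. -/

open scoped ComplexConjugate
open Complex Finset Filter Topology

noncomputable section

namespace Pool.Agent.Lib.ISO

namespace K5

def om (y : ℝ) (t : ℤ) : ℝ := (t : ℝ) ^ 2 - y * t

def SS : ℝ := ∑' t : ℤ, 2 * (1 / (t : ℝ) ^ 2)

theorem sumSS : Summable fun t : ℤ => 2 * (1 / (t : ℝ) ^ 2) :=
  (Real.summable_one_div_int_pow.2 one_lt_two).mul_left 2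

theorem SS_nonneg : 0 ≤ SS := tsum_nonneg fun t => by positivity

theorem om_ge {y : ℝ} (h0 : 0 ≤ y) (h1 : y ≤ 1 / 2) (t : ℤ) : (t : ℝ) ^ 2 / 2 ≤ om y t := by
  have h : (t : ℝ) ≤ (t : ℝ) ^ 2 := by exact_mod_cast Int.le_self_sq t
  unfold om
  nlinarith [sq_nonneg (t : ℝ)]

theorem one_le_sq {t : ℤ} (ht : t ≠ 0) : (1 : ℝ) ≤ (t : ℝ) ^ 2 := by
  have : (1 : ℤ) ≤ t ^ 2 := by
    have := sq_pos_of_ne_zero ht
    omega
  exact_mod_cast this

theorem om_pos {y : ℝ} (h0 : 0 ≤ y) (h1 : y ≤ 1 / 2) {t : ℤ} (ht : t ≠ 0) : 0 < om y t := by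
  have := om_ge h0 h1 t
  have := one_le_sq ht
  linarith

theorem om_nonneg {y : ℝ} (h0 : 0 ≤ y) (h1 : y ≤ 1 / 2) (t : ℤ) : 0 ≤ om y t :=
  le_trans (by positivity) (om_ge h0 h1 t)

theorem inv_om {y : ℝ} (h0 : 0 ≤ y) (h1 : y ≤ 1 / 2) (t : ℤ) :
    (om y t)⁻¹ ≤ 2 * (1 / (t : ℝ) ^ 2) := by
  by_cases ht : t = 0
  · subst ht; simp [om]
  · have a := one_le_sq ht
    refine (inv_anti₀ (by positivity) (om_ge h0 h1 t)).trans (le_of_eq ?_)
    field_simp

/-- bounded sequences against the weight -/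
theorem bd {y D : ℝ} (h0 : 0 ≤ y) (h1 : y ≤ 1 / 2) {d : ℤ → ℝ} (hd : ∀ j, |d j| ≤ D) (j : ℤ) :
    ‖d j * (om y j)⁻¹‖ ≤ D * (2 * (1 / (j : ℝ) ^ 2)) := by
  rw [Real.norm_eq_abs, abs_mul, abs_of_nonneg (inv_nonneg.2 (om_nonneg h0 h1 j))]
  exact mul_le_mul (hd j) (inv_om h0 h1 j) (inv_nonneg.2 (om_nonneg h0 h1 j))
    ((abs_nonneg _).trans (hd j))

theorem smb {y D : ℝ} (h0 : 0 ≤ y) (h1 : y ≤ 1 / 2) {d : ℤ → ℝ} (hd : ∀ j, |d j| ≤ D) :
    Summable fun j => d j * (om y j)⁻¹ :=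
  Summable.of_norm_bounded (sumSS.mul_left D) (bd h0 h1 hd)

theorem tsb {y D : ℝ} (h0 : 0 ≤ y) (h1 : y ≤ 1 / 2) {d : ℤ → ℝ} (hd : ∀ j, |d j| ≤ D) :
    |∑' j, d j * (om y j)⁻¹| ≤ D * SS :=
  tsum_of_norm_bounded (sumSS.hasSum.mul_left D) (bd h0 h1 hd)

def sw (W : ℕ) : Finset ℤ := (win W).erase 0

theorem split {M : Type} [AddCommMonoid M] (W : ℕ) (f : ℤ → M) :
    ∑ t ∈ win W, f t = f 0 + ∑ t ∈ sw W, f t :=
  (add_sum_erase _ f (by simp [win])).symm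

def l1 (a : ℤ → ℂ) (W : ℕ) : ℝ := ∑ t ∈ sw W, ‖a t‖
def QQ (y : ℝ) (a : ℤ → ℂ) (W : ℕ) : ℝ := ∑ t ∈ sw W, om y t * ‖a t‖ ^ 2
def cr (v a : ℤ → ℂ) (W : ℕ) : ℝ := (a 0 * ∑ t ∈ sw W, conj (a t) * v t).re
def NN (y : ℝ) (v : ℤ → ℂ) : ℝ := ∑' t, ‖v t‖ ^ 2 * (om y t)⁻¹

theorem mom0 (a : ℤ → ℂ) (W : ℕ) : mom 0 a W = ‖a 0‖ ^ 2 + ∑ t ∈ sw W, ‖a t‖ ^ 2 := by
  unfold mom
  rw [split]
  simp

theorem sq_le (a : ℤ → ℂ) (W : ℕ) : ∑ t ∈ sw W, ‖a t‖ ^ 2 ≤ l1 a W ^ 2 :=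
  sum_sq_le_sq_sum_of_nonneg fun _ _ => norm_nonneg _

theorem QQ_eq (y : ℝ) (a : ℤ → ℂ) (W : ℕ) : QQ y a W = mom 2 a W - y * mom 1 a W := by
  unfold QQ mom
  rw [split, split, mul_add, mul_sum]
  simp only [Int.cast_zero, ne_eq, OfNat.ofNat_ne_zero, not_false_eq_true, zero_pow, zero_mul,
    pow_one, mul_zero, zero_add]
  rw [← sum_sub_distrib]
  refine sum_congr rfl fun t _ => ?_
  unfold om
  ring

theorem cs {y : ℝ} (h0 : 0 ≤ y) (h1 : y ≤ 1 / 2) (a : ℤ → ℂ) (W : ℕ) :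
    l1 a W ^ 2 ≤ QQ y a W * SS := by
  have h := sum_sq_le_sum_mul_sum_of_sq_le_mul (sw W) (r := fun t => ‖a t‖)
    (f := fun t => om y t * ‖a t‖ ^ 2) (g := fun t => (om y t)⁻¹)
    (fun t _ => mul_nonneg (om_nonneg h0 h1 t) (sq_nonneg _))
    (fun t _ => inv_nonneg.2 (om_nonneg h0 h1 t)) fun t ht => by
      have := (om_pos h0 h1 (ne_of_mem_erase ht)).ne'
      exact le_of_eq (by field_simp)
  refine h.trans (mul_le_mul_of_nonneg_left ?_
    (sum_nonneg fun t _ => mul_nonneg (om_nonneg h0 h1 t) (sq_nonneg _)))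
  exact (sum_le_sum fun t _ => inv_om h0 h1 t).trans (sumSS.sum_le_tsum _ fun t _ => by positivity)

theorem dec {v : ℤ → ℂ} {M : ℝ} (hv : ∀ j, v (-j) = conj (v j)) (hM : ∀ j, ‖v j‖ ≤ M)
    (a : ℤ → ℂ) (W : ℕ) :
    |qf v a W - (v 0).re * mom 0 a W - 2 * cr v a W| ≤ 2 * M * l1 a W ^ 2 := by
  have M0 : 0 ≤ M := (norm_nonneg _).trans (hM 0)
  set R : ℂ := ∑ t ∈ sw W, ∑ t' ∈ sw W, a t * conj (a t') * v (t' - t) with hR
  have e1 : ∑ t ∈ win W, ∑ t' ∈ win W, a t * conj (a t') * v (t' - t) =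
      ((‖a 0‖ ^ 2 : ℝ) : ℂ) * v 0 + (a 0 * ∑ t ∈ sw W, conj (a t) * v t) +
        conj (a 0 * ∑ t ∈ sw W, conj (a t) * v t) + R := by
    rw [split, split]
    simp only [split W, sum_add_distrib, sub_zero, zero_sub, hv, map_mul, map_sum, mul_sum,
      conj_conj]
    rw [mul_conj, normSq_eq_norm_sq, hR, add_assoc (_ + _)]
    congr 1
    · congr 1
      exact sum_congr rfl fun t _ => by ring
    · congr 1
      exact sum_congr rfl fun t _ => by ring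
  have e2 : qf v a W = ‖a 0‖ ^ 2 * (v 0).re + 2 * cr v a W + R.re := by
    unfold qf cr
    rw [e1, add_re, add_re, add_re, conj_re, re_ofReal_mul]
    ring
  have b1 : |R.re| ≤ M * l1 a W ^ 2 := by
    refine (abs_re_le_norm R).trans ((norm_sum_le _ _).trans ?_)
    unfold l1
    rw [sq, sum_mul_sum, mul_sum]
    refine sum_le_sum fun t _ => (norm_sum_le _ _).trans ?_
    rw [mul_sum]
    refine sum_le_sum fun t' _ => ?_
    rw [norm_mul, norm_mul, norm_conj, mul_comm M]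
    exact mul_le_mul_of_nonneg_left (hM _) (by positivity)
  have b2 : |(v 0).re * ∑ t ∈ sw W, ‖a t‖ ^ 2| ≤ M * l1 a W ^ 2 := by
    rw [abs_mul, abs_of_nonneg (sum_nonneg fun t _ => sq_nonneg ‖a t‖)]
    exact mul_le_mul ((abs_re_le_norm _).trans (hM 0)) (sq_le a W)
      (sum_nonneg fun t _ => sq_nonneg _) M0
  rw [e2, mom0]
  rw [abs_le] at b1 b2 ⊢
  constructor <;> nlinarith [b1.1, b1.2, b2.1, b2.2]

theorem sqb {v : ℤ → ℂ} {M : ℝ} (hM : ∀ j, ‖v j‖ ≤ M) (j : ℤ) : |‖v j‖ ^ 2| ≤ M ^ 2 := by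
  rw [abs_of_nonneg (sq_nonneg _)]
  exact pow_le_pow_left₀ (norm_nonneg _) (hM j) 2

theorem cr_le {y ε M : ℝ} (h0 : 0 ≤ y) (h1 : y ≤ 1 / 2) (hε : 0 < ε) {v : ℤ → ℂ}
    (hM : ∀ j, ‖v j‖ ≤ M) (a : ℤ → ℂ) (W : ℕ) :
    2 * cr v a W ≤ QQ y a W / ε + ε * mom 0 a W * NN y v := by
  have n0 : ∀ t, 0 ≤ ‖v t‖ ^ 2 * (om y t)⁻¹ := fun t =>
    mul_nonneg (sq_nonneg _) (inv_nonneg.2 (om_nonneg h0 h1 t))
  have a1 : cr v a W ≤ ∑ t ∈ sw W, ‖a 0‖ * (‖a t‖ * ‖v t‖) := by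
    refine (re_le_norm _).trans ?_
    rw [norm_mul, ← mul_sum]
    refine mul_le_mul_of_nonneg_left ((norm_sum_le _ _).trans (le_of_eq ?_)) (norm_nonneg _)
    exact sum_congr rfl fun t _ => by rw [norm_mul, norm_conj]
  have a2 : 2 * ∑ t ∈ sw W, ‖a 0‖ * (‖a t‖ * ‖v t‖) ≤
      QQ y a W / ε + ε * ‖a 0‖ ^ 2 * ∑ t ∈ sw W, ‖v t‖ ^ 2 * (om y t)⁻¹ := by
    unfold QQ
    rw [mul_sum, mul_sum, sum_div, ← sum_add_distrib]
    refine sum_le_sum fun t ht => ?_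
    have ho := om_pos h0 h1 (ne_of_mem_erase ht)
    have : om y t * ‖a t‖ ^ 2 / ε + ε * ‖a 0‖ ^ 2 * (‖v t‖ ^ 2 * (om y t)⁻¹) -
        2 * (‖a 0‖ * (‖a t‖ * ‖v t‖)) = (om y t * ‖a t‖ - ε * ‖a 0‖ * ‖v t‖) ^ 2 / (ε * om y t) := by
      field_simp
      ring
    have h2 : 0 ≤ (om y t * ‖a t‖ - ε * ‖a 0‖ * ‖v t‖) ^ 2 / (ε * om y t) := by positivity
    linarith
  have a3 : ∑ t ∈ sw W, ‖v t‖ ^ 2 * (om y t)⁻¹ ≤ NN y v :=
    (smb h0 h1 (sqb hM)).sum_le_tsum _ fun t _ => n0 t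
  have a4 : ‖a 0‖ ^ 2 ≤ mom 0 a W := by
    rw [mom0]
    exact le_add_of_nonneg_right (sum_nonneg fun t _ => sq_nonneg _)
  have a5 : ε * ‖a 0‖ ^ 2 * ∑ t ∈ sw W, ‖v t‖ ^ 2 * (om y t)⁻¹ ≤ ε * mom 0 a W * NN y v :=
    mul_le_mul (mul_le_mul_of_nonneg_left a4 hε.le) a3 (sum_nonneg fun t _ => n0 t)
      (mul_nonneg hε.le ((sq_nonneg _).trans a4))
  linarith

theorem arith {ε N N' M S c m m' q q' Q' : ℝ} (hε : 0 < ε) (hε1 : ε ≤ 1) (hN : 0 ≤ N)
    (hN' : 0 ≤ N') (hS : 0 ≤ S) (hc : |c| ≤ M)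
    (h1 : c * m + 2 * (ε * N) - 2 * M * (ε ^ 2 * N * S) ≤ q)
    (h2 : q' ≤ c * m' + (Q' / ε + ε * m' * N') + 2 * M * (Q' * S)) (h3 : q ≤ q' + ε ^ 3)
    (h4 : |m' - m| ≤ ε ^ 3) (h5 : Q' ≤ ε ^ 2 * N + ε ^ 3) (h6 : m ≤ 1 + ε ^ 2 * N * S) :
    N ≤ N' + ε * (2 * M * N * S + 2 + M + (N * S + 1) * N' + 2 * M * S * (N + 1)) := by
  have M0 : 0 ≤ M := (abs_nonneg _).trans hc
  have e2 : ε ^ 2 ≤ ε := by nlinarith
  have e3 : ε ^ 3 ≤ ε ^ 2 := by nlinarith
  have a1 : c * (m' - m) ≤ M * ε ^ 2 := by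
    refine (le_abs_self _).trans ?_
    rw [abs_mul]
    exact mul_le_mul hc (h4.trans e3) (abs_nonneg _) M0
  have a2 : Q' / ε ≤ ε * N + ε ^ 2 := by
    rw [div_le_iff₀ hε]; nlinarith
  have a3 : m' ≤ 1 + ε * (N * S + 1) := by
    have := (abs_le.1 h4).2
    have := mul_le_mul_of_nonneg_right e2 (mul_nonneg hN hS)
    nlinarith
  have a4 : ε * m' * N' ≤ ε * (1 + ε * (N * S + 1)) * N' :=
    mul_le_mul_of_nonneg_right (mul_le_mul_of_nonneg_left a3 hε.le) hN'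
  have a5 : 2 * M * (Q' * S) ≤ 2 * M * ((ε ^ 2 * N + ε ^ 2) * S) :=
    mul_le_mul_of_nonneg_left (mul_le_mul_of_nonneg_right (by linarith) hS) (by positivity)
  refine le_of_mul_le_mul_left ?_ hε
  nlinarith

theorem dom {z z' : ℤ → ℂ} {M y : ℝ} (h0 : 0 ≤ y) (h1 : y ≤ 1 / 2)
    (hv : ∀ j, cv z z (-j) = conj (cv z z j)) (hv' : ∀ j, cv z' z' (-j) = conj (cv z' z' j))
    (hM : ∀ j, ‖cv z z j‖ ≤ M) (hM' : ∀ j, ‖cv z' z' j‖ ≤ M) (hD : Dm z z')
    (h00 : cv z z 0 = cv z' z' 0) : NN y (cv z z) ≤ NN y (cv z' z') := by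
  set v := cv z z with hvz
  set v' := cv z' z' with hvz'
  have M0 : 0 ≤ M := (norm_nonneg _).trans (hM 0)
  have n0 : ∀ (w : ℤ → ℂ) t, 0 ≤ ‖w t‖ ^ 2 * (om y t)⁻¹ := fun w t =>
    mul_nonneg (sq_nonneg _) (inv_nonneg.2 (om_nonneg h0 h1 t))
  have N' : 0 ≤ NN y v' := tsum_nonneg (n0 v')
  have key : ∀ J : ℕ, 1 + 2 * M ≤ J → ∑ t ∈ sw J, ‖v t‖ ^ 2 * (om y t)⁻¹ ≤ NN y v' := by
    intro J hJ
    set N := ∑ t ∈ sw J, ‖v t‖ ^ 2 * (om y t)⁻¹ with hN
    have N0 : 0 ≤ N := sum_nonneg fun t _ => n0 v t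
    have main : ∀ ε : ℝ, 0 < ε → ε ≤ 1 → N ≤ NN y v' +
        ε * (2 * M * N * SS + 2 + M + (N * SS + 1) * NN y v' + 2 * M * SS * (N + 1)) := by
      intro ε hε hε1
      set a : ℤ → ℂ := fun t => if t = 0 then 1 else if t ∈ sw J then
        ((ε * (om y t)⁻¹ : ℝ) : ℂ) * v t else 0 with ha
      have a0 : a 0 = 1 := by simp [ha]
      have a1 : ∀ t ∈ sw J, a t = ((ε * (om y t)⁻¹ : ℝ) : ℂ) * v t := fun t ht => by
        simp only [ha]
        rw [if_neg (ne_of_mem_erase ht), if_pos ht]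
      have a2 : ∀ t ∈ sw J, ‖a t‖ = ε * (om y t)⁻¹ * ‖v t‖ := fun t ht => by
        rw [a1 t ht, norm_mul, norm_real,
          Real.norm_of_nonneg (mul_nonneg hε.le (inv_nonneg.2 (om_nonneg h0 h1 t)))]
      have hE : Env J a := by
        constructor
        · intro t ht
          have : t ∉ win J := by
            simp only [win, mem_Icc]
            rw [lt_abs] at ht
            omega
          simp only [ha]
          rw [if_neg, if_neg fun h : t ∈ sw J => this (mem_of_mem_erase h)]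
          rintro rfl
          exact this (by simp [win])
        · intro t
          by_cases ht : t ∈ sw J
          · rw [a2 t ht]
            have b1 := inv_om h0 h1 t
            have b2 : 1 / (t : ℝ) ^ 2 ≤ 1 :=
              div_le_one_of_le₀ (one_le_sq (ne_of_mem_erase ht)) (sq_nonneg _)
            have b3 : ε * (om y t)⁻¹ ≤ 1 * 2 :=
              mul_le_mul hε1 (by linarith) (inv_nonneg.2 (om_nonneg h0 h1 t)) zero_le_one
            have b4 := mul_le_mul b3 (hM t) (norm_nonneg _) (by norm_num)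
            linarith
          · simp only [ha]
            rw [if_neg ht]
            split_ifs
            · rw [norm_one]; linarith
            · rw [norm_zero]; linarith
      obtain ⟨W, A, -, hO, hq⟩ := hD J a (ε ^ 3) (by positivity) hE
      have c1 : cr v a J = ε * N := by
        unfold cr
        rw [a0, one_mul, re_sum, hN, mul_sum]
        refine sum_congr rfl fun t ht => ?_
        rw [a1 t ht, map_mul, conj_ofReal, mul_assoc, re_ofReal_mul, mul_comm (conj (v t)), mul_conj,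
          ofReal_re, normSq_eq_norm_sq]
        ring
      have c2 : QQ y a J = ε ^ 2 * N := by
        unfold QQ
        rw [hN, mul_sum]
        refine sum_congr rfl fun t ht => ?_
        have := (om_pos h0 h1 (ne_of_mem_erase ht)).ne'
        rw [a2 t ht]
        field_simp
      have c3 := cs h0 h1 a J
      rw [c2] at c3
      have c4 := cs h0 h1 (sh z' W A) W
      have d1 := (abs_le.1 (dec hv hM a J)).1
      have d2 := (abs_le.1 (dec hv' hM' (sh z' W A) W)).2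
      have d3 := cr_le h0 h1 hε hM' (sh z' W A) W
      have d4 := mul_le_mul_of_nonneg_left c3 (by positivity : 0 ≤ 2 * M)
      have d5 := mul_le_mul_of_nonneg_left c4 (by positivity : 0 ≤ 2 * M)
      rw [← h00] at d2
      refine arith (c := (v 0).re) (m := mom 0 a J) (m' := mom 0 (sh z' W A) W) (q := qf v a J)
        (q' := qf v' (sh z' W A) W) (Q' := QQ y (sh z' W A) W) hε hε1 N0 N' SS_nonneg
        ((abs_re_le_norm _).trans (hM 0)) (by rw [c1] at d1; linarith) (by linarith)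
        (by linarith [(abs_le.1 hq).1]) hO.n0 ?_ ?_
      · rw [← c2, QQ_eq, QQ_eq]
        have e1 := hO.n2
        have e2 := (abs_le.1 hO.n1).1
        have e3 : 0 < ε ^ 3 := by positivity
        nlinarith
      · rw [mom0, a0, norm_one, one_pow]
        linarith [sq_le a J]
    set K := 2 * M * N * SS + 2 + M + (N * SS + 1) * NN y v' + 2 * M * SS * (N + 1) with hK
    have K0 : 0 < K := by have := SS_nonneg; positivity
    refine le_of_forall_pos_le_add fun δ hδ => ?_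
    refine (main (min 1 (δ / K)) (by positivity) (min_le_left _ _)).trans ?_
    have := (le_div_iff₀ K0).1 (min_le_right 1 (δ / K))
    linarith
  refine (smb h0 h1 (sqb hM)).tsum_le_of_sum_le fun u => ?_
  obtain ⟨J0, hJ0⟩ := exists_nat_ge (1 + 2 * M)
  refine le_trans ?_ (key (max J0 (u.sup Int.natAbs)) (hJ0.trans (by exact_mod_cast le_max_left _ _)))
  rw [← sum_erase (a := 0) u (by simp [om])]
  refine sum_le_sum_of_subset_of_nonneg (erase_subset_erase _ fun t ht => ?_) fun t _ _ => n0 v t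
  have := (le_sup (f := Int.natAbs) ht).trans (le_max_right J0 _)
  simp only [win, mem_Icc]
  omega

theorem moments {d : ℤ → ℝ} {D : ℝ} (hd : ∀ j, |d j| ≤ D)
    (h : ∀ y : ℝ, 0 ≤ y → y ≤ 1 / 2 → ∑' j, d j * (om y j)⁻¹ = 0) (n : ℕ) :
    ∀ y : ℝ, 0 ≤ y → y ≤ 1 / 2 → ∑' j : ℤ, d j * (j : ℝ)⁻¹ ^ n * (om y j)⁻¹ = 0 := by
  have hb : ∀ (n : ℕ) (j : ℤ), |d j * (j : ℝ)⁻¹ ^ n| ≤ D := fun n j => by
    rw [abs_mul, abs_pow]
    refine (mul_le_of_le_one_right (abs_nonneg _) (pow_le_one₀ (abs_nonneg _) ?_)).trans (hd j)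
    rw [abs_inv]
    by_cases hj : j = 0
    · subst hj; simp
    · exact inv_le_one_of_one_le₀ (by exact_mod_cast Int.one_le_abs hj)
  have rc : ∀ (n : ℕ) (y : ℝ), 0 ≤ y → y ≤ 1 / 2 → ∑' j : ℤ, d j * (j : ℝ)⁻¹ ^ n * (om y j)⁻¹ =
      ∑' j : ℤ, d j * (j : ℝ)⁻¹ ^ n * (om 0 j)⁻¹ +
        y * ∑' j : ℤ, d j * (j : ℝ)⁻¹ ^ (n + 1) * (om y j)⁻¹ := fun n y h0 h1 => by
    rw [← tsum_mul_left, ← (smb le_rfl (by norm_num) (hb n)).tsum_add
      ((smb h0 h1 (hb (n + 1))).mul_left y)]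
    refine tsum_congr fun j => ?_
    by_cases hj : j = 0
    · subst hj; simp [om]
    · have a1 := (om_pos h0 h1 hj).ne'
      have a2 : (j : ℝ) ≠ 0 := by exact_mod_cast hj
      have a3 : (om y j)⁻¹ = (om 0 j)⁻¹ + y * (j : ℝ)⁻¹ * (om y j)⁻¹ := by
        have : om 0 j = (j : ℝ) ^ 2 := by simp [om]
        rw [this]
        field_simp
        unfold om
        ring
      rw [pow_succ]
      nth_rewrite 1 [a3]
      ring
  induction n with
  | zero => simpa using h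
  | succ n ih =>
    have pos : ∀ y : ℝ, 0 < y → y ≤ 1 / 2 →
        ∑' j : ℤ, d j * (j : ℝ)⁻¹ ^ (n + 1) * (om y j)⁻¹ = 0 := fun y h0 h1 => by
      have := rc n y h0.le h1
      rw [ih y h0.le h1, ih 0 le_rfl (by norm_num), zero_add] at this
      exact (mul_eq_zero.1 this.symm).resolve_left h0.ne'
    intro y h0 h1
    rcases h0.eq_or_lt with rfl | h0
    · have D0 : 0 ≤ D * SS := mul_nonneg ((abs_nonneg _).trans (hd 0)) SS_nonneg
      refine abs_nonpos_iff.1 (le_of_forall_pos_le_add fun δ hδ => ?_)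
      have p1 : 0 < min (1 / 2) (δ / (D * SS + 1)) := by positivity
      have p2 := (le_div_iff₀ (by positivity)).1 (min_le_right (1 / 2) (δ / (D * SS + 1)))
      have := rc (n + 1) _ p1.le (min_le_left _ _)
      rw [pos _ p1 (min_le_left _ _)] at this
      rw [eq_neg_of_add_eq_zero_left this.symm, abs_neg, abs_mul, abs_of_pos p1, zero_add]
      have p3 := mul_le_mul_of_nonneg_left (tsb p1.le (min_le_left _ _) (hb (n + 1 + 1))) p1.le
      nlinarith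
    · exact pos y h0 h1

theorem vanish {d : ℤ → ℝ} {D : ℝ} (hd : ∀ j, |d j| ≤ D) (he : ∀ j, d (-j) = d j)
    (h : ∀ y : ℝ, 0 ≤ y → y ≤ 1 / 2 → ∑' j, d j * (om y j)⁻¹ = 0) (k : ℕ) (hk : 1 ≤ k) :
    d k = 0 := by
  induction k using Nat.strong_induction_on with
  | _ k ih =>
  have k0 : (0 : ℝ) < k := by exact_mod_cast hk
  have low : ∀ j : ℤ, j ≠ 0 → j.natAbs < k → d j = 0 := fun j hj hjk => by
    have := ih j.natAbs hjk (by omega)
    rcases Int.natAbs_eq j with e | e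
    · rw [e]; exact this
    · rw [e, he]; exact this
  have sqj : ∀ j : ℤ, (j : ℝ) ^ 2 = (j.natAbs : ℝ) ^ 2 := fun j => by
    rw [Nat.cast_natAbs, Int.cast_abs, sq_abs]
  have T := tendsto_tsum_of_dominated_convergence (𝓕 := atTop)
    (f := fun (n : ℕ) (j : ℤ) => d j * ((k : ℝ) ^ 2 / (j : ℝ) ^ 2) ^ n * (om 0 j)⁻¹)
    (g := fun j : ℤ => if j.natAbs = k then d j * (om 0 j)⁻¹ else 0)
    (sumSS.mul_left D) (fun j => by
      split_ifs with hj
      · rw [sqj j, hj, div_self (by positivity)]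
        simp
      · by_cases h0 : j = 0
        · subst h0; simp [om]
        rcases lt_or_gt_of_ne hj with hj | hj
        · simp [low j h0 hj]
        · have : (k : ℝ) < j.natAbs := by exact_mod_cast hj
          have t := tendsto_pow_atTop_nhds_zero_of_lt_one
            (r := (k : ℝ) ^ 2 / (j : ℝ) ^ 2) (by positivity) (by
              rw [sqj j, div_lt_one (by nlinarith)]
              nlinarith)
          simpa using (t.const_mul (d j)).mul_const (om 0 j)⁻¹)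
    (Eventually.of_forall fun n j => by
      refine bd (d := fun j : ℤ => if j = 0 then 0 else d j * ((k : ℝ) ^ 2 / (j : ℝ) ^ 2) ^ n)
        le_rfl (by norm_num) (fun j => ?_) j |>.trans' (le_of_eq ?_)
      · have D0 := (abs_nonneg _).trans (hd 0)
        split_ifs with h0
        · simpa using D0
        rcases lt_or_ge j.natAbs k with hj | hj
        · simpa [low j h0 hj] using D0
        · have : (k : ℝ) ≤ j.natAbs := by exact_mod_cast hj
          rw [abs_mul, abs_pow]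
          refine (mul_le_of_le_one_right (abs_nonneg _) (pow_le_one₀ (abs_nonneg _) ?_)).trans (hd j)
          rw [abs_of_nonneg (by positivity), sqj j]
          exact div_le_one_of_le₀ (by nlinarith) (sq_nonneg _)
      · split_ifs with h0
        · subst h0; simp [om]
        · rfl)
  have Z : ∀ n : ℕ, ∑' j : ℤ, d j * ((k : ℝ) ^ 2 / (j : ℝ) ^ 2) ^ n * (om 0 j)⁻¹ = 0 := fun n => by
    have := congrArg (((k : ℝ) ^ 2) ^ n * ·) (moments hd h (2 * n) 0 le_rfl (by norm_num))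
    simp only [mul_zero] at this
    rw [← tsum_mul_left] at this
    refine Eq.trans (tsum_congr fun j => ?_) this
    rw [div_eq_mul_inv, mul_pow, pow_mul, inv_pow]
    ring
  simp only [Z] at T
  have E := tendsto_nhds_unique T tendsto_const_nhds
  rw [tsum_eq_sum (s := {(k : ℤ), -(k : ℤ)}) fun j hj => if_neg (by
    simp only [mem_insert, mem_singleton] at hj
    omega), sum_pair (by omega), if_pos (by simp), if_pos (by simp), he] at E
  simp only [om, zero_mul, sub_zero, Int.cast_neg, Int.cast_natCast, even_two, Even.neg_pow] at E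
  have : d k * (2 * ((k : ℝ) ^ 2)⁻¹) = 0 := by linarith
  exact (mul_eq_zero.1 this).resolve_right (by positivity)

theorem herm {z : ℤ → ℂ} (hz : Sq z) (j : ℤ) : cv z z (-j) = conj (cv z z j) := by
  unfold cv
  rw [conj_tsum, ← (Equiv.neg ℤ).tsum_eq]
  refine tsum_congr fun i => ?_
  rw [Equiv.neg_apply, map_mul, ← hz.cj, ← hz.cj]
  congr 2
  ring

theorem bdd {z : ℤ → ℂ} (hz : Sq z) (j : ℤ) : ‖cv z z j‖ ≤ (∑' i, ‖z i‖) * ∑' i, ‖z i‖ := by
  have hs : Summable fun i => ‖z i‖ := by simpa using hz.dec 0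
  refine tsum_of_norm_bounded (hs.hasSum.mul_right _) fun i => ?_
  rw [norm_mul]
  exact mul_le_mul_of_nonneg_left (hs.le_tsum _ fun _ _ => norm_nonneg _) (norm_nonneg _)

end K5

open K5 in
theorem st_k5 : St_K5 := by
  intro z z' hz hz' h1 h2 h0 j
  obtain ⟨M, hM, hM'⟩ : ∃ M, (∀ j, ‖cv z z j‖ ≤ M) ∧ ∀ j, ‖cv z' z' j‖ ≤ M :=
    ⟨max _ _, fun j => (bdd hz j).trans (le_max_left _ _),
      fun j => (bdd hz' j).trans (le_max_right _ _)⟩
  have he : ∀ j, ‖cv z z (-j)‖ ^ 2 - ‖cv z' z' (-j)‖ ^ 2 = ‖cv z z j‖ ^ 2 - ‖cv z' z' j‖ ^ 2 :=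
    fun j => by rw [herm hz, herm hz', norm_conj, norm_conj]
  have key := vanish (d := fun j => ‖cv z z j‖ ^ 2 - ‖cv z' z' j‖ ^ 2) (D := M ^ 2 + M ^ 2)
    (fun j => (abs_sub _ _).trans (add_le_add (sqb hM j) (sqb hM' j))) he fun y y0 y1 => by
      simp only [sub_mul]
      rw [(smb y0 y1 (sqb hM)).tsum_sub (smb y0 y1 (sqb hM')), sub_eq_zero]
      exact le_antisymm (dom y0 y1 (herm hz) (herm hz') hM hM' h1 h0)
        (dom y0 y1 (herm hz') (herm hz) hM' hM h2 h0.symm)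
  by_cases hj : j = 0
  · rw [hj, h0]
  · have k := key j.natAbs (by omega)
    rw [← sq_eq_sq₀ (norm_nonneg _) (norm_nonneg _), ← sub_eq_zero]
    rcases Int.natAbs_eq j with e | e
    · rw [e]; exact k
    · rw [e, he]; exact k

end Pool.Agent.Lib.ISO
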