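import Pool.Agent.Lib.ISO.BlueK

open scoped ComplexConjugate
open Complex Filter Topology

namespace Pool.Agent.Lib.ISO

namespace K6

variable {z z' a : ℤ → ℂ} {η A : ℝ} {J W : ℕ}

theorem mem_win {t : ℤ} : t ∈ win W ↔ |t| ≤ W := by rw [win, Finset.mem_Icc, abs_le]

theorem key (hz : Sq z') (hv : ∀ j, ‖cv z z j‖ = ‖cv z' z' j‖) (O : Out η 0 J W A a z z') {i : ℤ}
    (hi : |i| ≤ J) {s : Finset ℤ} (hs : s ⊆ win W) {ε : ℝ} (h0 : 0 ≤ ε)
    (hε : ∀ t ∈ win W, t ∉ s → ‖sh z' W A t‖ ≤ ε) :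
    |‖∑ t ∈ win J, z (i - t) * a t‖ - ‖∑ t ∈ s, z' (i - t) * sh z' W A t‖| ≤
      2 * η + (∑' j, ‖z' j‖) * ε := by
  have h1 := (abs_norm_sub_norm_le _ _).trans (O.rd i hi)
  have h2 := (abs_norm_sub_norm_le _ _).trans (O.rd' i hi)
  rw [norm_div, hv, ← norm_div] at h1
  have sm : Summable fun j => ‖z' j‖ := by simpa using hz.dec 0
  have h3 : ‖∑ t ∈ win W \ s, z' (i - t) * sh z' W A t‖ ≤ (∑' j, ‖z' j‖) * ε := by
    refine (norm_sum_le_of_le _ (n := fun t => ‖z' (i - t)‖ * ε) fun t ht => ?_).trans ?_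
    · rw [norm_mul]
      exact mul_le_mul_of_nonneg_left (hε t (Finset.mem_sdiff.1 ht).1 (Finset.mem_sdiff.1 ht).2)
        (norm_nonneg _)
    · rw [← Finset.sum_mul, ← (Equiv.subLeft i).tsum_eq]
      exact mul_le_mul_of_nonneg_right (((Equiv.subLeft i).summable_iff.2 sm).sum_le_tsum _
        fun _ _ => norm_nonneg _) h0
  have h4 := abs_norm_sub_norm_le (∑ t ∈ win W, z' (i - t) * sh z' W A t)
    (∑ t ∈ s, z' (i - t) * sh z' W A t)
  rw [← Finset.sum_sdiff_eq_sub hs] at h4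
  rw [abs_le] at h1 h2 h4 ⊢
  constructor <;> linarith [h1.1, h1.2, h2.1, h2.2, h4.1, h4.2]

theorem zero_of {x C : ℝ} (h : ∀ ε, 0 < ε → ε ≤ 1 → |x| ≤ C * ε) : x = 0 := by
  have t : Tendsto (fun ε : ℝ => C * ε) (𝓝[>] 0) (𝓝 0) :=
    (Continuous.tendsto' (by fun_prop) _ _ (mul_zero C)).mono_left nhdsWithin_le_nhds
  exact abs_nonpos_iff.1 (ge_of_tendsto t
    (mem_of_superset (Ioc_mem_nhdsGT one_pos) fun ε hε => h ε hε.1 hε.2))

theorem part1 (hz : Sq z') (hD : Dm z z') (hv : ∀ j, ‖cv z z j‖ = ‖cv z' z' j‖) (i : ℤ) :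
    ‖z i‖ = ‖z' i‖ := by
  refine sub_eq_zero.1 (zero_of (C := 2 + ∑' j, ‖z' j‖ + 2 * ‖z' i‖) fun ε h0 h1 => ?_)
  obtain ⟨W, A, -, O, -⟩ := hD (i.natAbs + 1) (fun t => if t = 0 then 1 else 0) (ε ^ 2)
    (by positivity) ⟨fun t ht => if_neg (by rintro rfl; rw [abs_zero] at ht; omega), fun t => by
      dsimp only
      split_ifs <;> simp <;> positivity⟩
  have m0 : ∀ n, (0 : ℤ) ∈ win n := fun n => mem_win.2 (by simp)
  have n2 := O.n2
  have n0 := O.n0
  rw [show mom 2 (fun t => if t = 0 then 1 else 0) (i.natAbs + 1) = 0 from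
    Finset.sum_eq_zero fun t _ => by by_cases h : t = 0 <;> simp [h]] at n2
  rw [show mom 0 (fun t => if t = 0 then 1 else 0) (i.natAbs + 1) = 1 by
    rw [mom, Finset.sum_eq_single_of_mem 0 (m0 _) fun t _ h => by simp [h]]; simp, mom,
    ← Finset.add_sum_erase _ _ (m0 W)] at n0
  have b : ∑ t ∈ (win W).erase 0, (t : ℝ) ^ 0 * ‖sh z' W A t‖ ^ 2 ≤ mom 2 (sh z' W A) W :=
    (Finset.sum_le_sum fun t ht => mul_le_mul_of_nonneg_right (by
      have : (1 : ℤ) ≤ t ^ 2 := (one_le_sq_iff_one_le_abs t).2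
        (Int.one_le_abs (Finset.ne_of_mem_erase ht))
      rw [pow_zero]
      exact_mod_cast this) (by positivity)).trans
      (Finset.sum_le_sum_of_subset_of_nonneg (Finset.erase_subset _ _) fun _ _ _ => by positivity)
  have b0 : 0 ≤ ∑ t ∈ (win W).erase 0, (t : ℝ) ^ 0 * ‖sh z' W A t‖ ^ 2 :=
    Finset.sum_nonneg fun _ _ => by positivity
  have k := key hz hv O (i := i) (by rw [Int.abs_eq_natAbs]; omega) (s := {0}) (by simpa using m0 W) h0.le fun t h1 h2 => by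
    have := Finset.single_le_sum (f := fun t : ℤ => (t : ℝ) ^ 0 * ‖sh z' W A t‖ ^ 2)
      (fun _ _ => by positivity) (Finset.mem_erase.2 ⟨by simpa using h2, h1⟩)
    rw [pow_zero, one_mul] at this
    exact (abs_le_of_sq_le_sq' (by linarith) h0.le).2
  rw [Finset.sum_eq_single_of_mem 0 (m0 _) fun t _ h => by simp [h], Finset.sum_singleton,
    if_pos rfl, sub_zero, mul_one, norm_mul] at k
  rw [pow_zero, one_mul] at n0
  have e : ε ^ 2 ≤ ε := by nlinarith
  have p := norm_nonneg (sh z' W A 0)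
  have q := norm_nonneg (z' i)
  rw [abs_le] at k n0 ⊢
  have c1 : ‖sh z' W A 0‖ ≤ 1 + 2 * ε := by nlinarith
  have c2 : 1 - 2 * ε ≤ ‖sh z' W A 0‖ := by nlinarith
  constructor <;> nlinarith [mul_le_mul_of_nonneg_left c1 q, mul_le_mul_of_nonneg_left c2 q]

theorem approx (hz : Sq z') (hD : Dm z z') (hv : ∀ j, ‖cv z z j‖ = ‖cv z' z' j‖) {d : ℕ}
    (hd : 1 ≤ d) (y : ℂ) (n : ℕ) : ∃ p : ℂ × ℂ, |‖p.1‖ - 1| ≤ 1 / ((n : ℝ) + 1) ∧
      |‖p.2‖ - ‖y‖| ≤ 1 / ((n : ℝ) + 1) ∧ ∀ i : ℤ, |i| ≤ n →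
        |‖z i + z (i - d) * y‖ - ‖z' i * p.1 + z' (i - d) * p.2‖| ≤
          (2 + ∑' j, ‖z' j‖) * (1 / ((n : ℝ) + 1)) := by
  have hy := Nat.le_ceil ‖y‖
  have d0 : (d : ℤ) ≠ 0 := by omega
  obtain ⟨W, A, -, O, -⟩ := hD (n + d + ⌈‖y‖⌉₊) (fun t => if t = 0 then 1 else if t = d then y else 0)
    (1 / ((n : ℝ) + 1)) (by positivity) ⟨fun t ht => by
      dsimp only
      rw [if_neg (by rintro rfl; rw [abs_zero] at ht; omega),
        if_neg (by rintro rfl; rw [Nat.abs_cast] at ht; omega)],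
      fun t => by
        dsimp only
        have : (1 : ℝ) ≤ d := by exact_mod_cast hd
        have : (0 : ℝ) ≤ n := by positivity
        split_ifs <;> simp <;> linarith [norm_nonneg y]⟩
  have le := O.le
  have nr : ∀ t ∈ win W, |‖sh z' W A t‖ - ‖if t = 0 then 1 else if t = d then y else 0‖| ≤
      1 / ((n : ℝ) + 1) := fun t ht => by
    rw [show ‖sh z' W A t‖ = ‖sh z W A t‖ by simp only [sh, norm_div, part1 hz hD hv]]
    exact (abs_norm_sub_norm_le _ _).trans (O.near t ht)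
  have sb : ∀ m : ℕ, d ≤ m → ({0, (d : ℤ)} : Finset ℤ) ⊆ win m := fun m hm t ht => by
    rw [mem_win]
    rcases Finset.mem_insert.1 ht with rfl | ht
    · simp
    · rw [Finset.mem_singleton.1 ht]
      simpa using hm
  refine ⟨(sh z' W A 0, sh z' W A d), by simpa using nr 0 (sb W (by omega) (by simp)),
    by simpa [show d ≠ 0 by omega] using nr d (sb W (by omega) (by simp)), fun i hi => ?_⟩
  have k := key hz hv O (i := i) (by push_cast; omega) (sb W (by omega))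
    (ε := 1 / ((n : ℝ) + 1)) (by positivity) fun t h1 h2 => by
      have := nr t h1
      rw [Finset.mem_insert, Finset.mem_singleton, not_or] at h2
      rw [if_neg h2.1, if_neg h2.2, norm_zero, sub_zero] at this
      exact (le_abs_self _).trans this
  rw [← Finset.sum_subset (sb (n + d + ⌈‖y‖⌉₊) (by omega)) fun t _ h => by
    rw [Finset.mem_insert, Finset.mem_singleton, not_or] at h
    rw [if_neg h.1, if_neg h.2, mul_zero], Finset.sum_pair d0.symm, Finset.sum_pair d0.symm,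
    if_pos rfl, if_neg d0, if_pos rfl, sub_zero, mul_one] at k
  rwa [add_mul]

end K6

open K6 in
theorem st_k6 : St_K6 := by
  intro z z' _ hz hD hv
  refine ⟨part1 hz hD hv, fun d y hd => ?_⟩
  by_cases hy : y = 0
  · exact ⟨1, norm_one, fun i => by simp [hy]⟩
  choose p p1 p2 p3 using approx hz hD hv hd y
  have l1 : ∀ n : ℕ, 1 / ((n : ℝ) + 1) ≤ 1 := fun n =>
    (div_le_one (by positivity)).2 (by linarith [n.cast_nonneg (α := ℝ)])
  obtain ⟨q, -, φ, hφ, hq⟩ := (isCompact_closedBall (0 : ℂ × ℂ) (‖y‖ + 2)).tendsto_subseq (x := p)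
    fun n => mem_closedBall_zero_iff.2 (norm_prod_le_iff.2 ⟨by
      linarith [(abs_le.1 (p1 n)).2, l1 n, norm_nonneg y], by linarith [(abs_le.1 (p2 n)).2, l1 n]⟩)
  have lim : ∀ (f : ℂ × ℂ → ℝ) (C : ℝ), Continuous f →
      (∀ᶠ n : ℕ in atTop, |f (p n)| ≤ C * (1 / ((n : ℝ) + 1))) → f q = 0 := fun f C hf h => by
    have t := (tendsto_one_div_add_atTop_nhds_zero_nat (𝕜 := ℝ)).const_mul C
    rw [mul_zero] at t
    exact abs_nonpos_iff.1 (le_of_tendsto_of_tendsto (((hf.tendsto q).comp hq).abs)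
      (t.comp hφ.tendsto_atTop) (hφ.tendsto_atTop.eventually h))
  have q1 := sub_eq_zero.1 (lim (fun p => ‖p.1‖ - 1) 1 (by fun_prop)
    (.of_forall fun n => by simpa using p1 n))
  have q2 := sub_eq_zero.1 (lim (fun p => ‖p.2‖ - ‖y‖) 1 (by fun_prop)
    (.of_forall fun n => by simpa using p2 n))
  refine ⟨conj q.1 * q.2 / y, by simp [q1, q2, hy], fun i => ?_⟩
  have q3 := sub_eq_zero.1 (lim (fun p => ‖z i + z (i - d) * y‖ - ‖z' i * p.1 + z' (i - d) * p.2‖) _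
    (by fun_prop) ((eventually_ge_atTop i.natAbs).mono fun n hn => p3 n i
      (by rw [Int.abs_eq_natAbs]; omega)))
  have q4 := congrArg (· ^ 2) q3
  simp only [Complex.sq_norm, normSq_add] at q4
  simp only [normSq_eq_norm_sq, norm_mul, q1, q2, part1 hz hD hv, mul_one] at q4
  rw [mul_div_cancel₀ _ hy, show z' i * conj (z' (i - d)) * conj (conj q.1 * q.2) =
    z' i * q.1 * conj (z' (i - d) * q.2) by simp only [map_mul, conj_conj]; ring,
    show z i * conj (z (i - d)) * conj y = z i * conj (z (i - d) * y) by rw [map_mul, mul_assoc]]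
  linarith

end Pool.Agent.Lib.ISO
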