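import Pool.Agent.Lib.ISO.Base

/-! Block K8: second and higher differences of the sequence `Sc`. -/

namespace Pool.Agent.Lib.ISO.K8

open Finset

theorem prod_ne (n : ℕ) : (∏ i ∈ range n, ((i : ℝ) - 1 / 2)) ≠ 0 := by
  refine prod_ne_zero_iff.2 fun i _ h => ?_
  have h2 : ((2 * i : ℕ) : ℝ) = ((1 : ℕ) : ℝ) := by push_cast; linarith
  have h3 : 2 * i = 1 := Nat.cast_injective h2
  omega

theorem uu_nonneg (m : ℕ) : 0 ≤ uu (m + 1) := by
  unfold uu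
  have hm : (0 : ℝ) ≤ m := Nat.cast_nonneg m
  have h1 : (0 : ℝ) ≤ ((m + 1 : ℕ) : ℝ) - 1 / 2 := by push_cast; linarith
  have h2 : (0 : ℝ) ≤ ((m + 1 : ℕ) : ℝ) + 1 := by positivity
  exact mul_nonneg (mul_nonneg h1 h2) (sq_nonneg _)

theorem uu_succ (m : ℕ) :
    uu (m + 2) = uu (m + 1) * (((m : ℝ) + 2) * (m + 3) / ((m + 1 / 2) * (m + 3 / 2))) := by
  unfold uu
  have hm : (0 : ℝ) ≤ m := Nat.cast_nonneg m
  have hp := prod_ne (m + 1 + 1)
  rw [show m + 2 + 1 = (m + 1 + 1) + 1 from rfl, prod_range_succ _ (m + 1 + 1),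
    show (m + 2).factorial = (m + 2) * (m + 1).factorial from Nat.factorial_succ (m + 1)]
  generalize (∏ i ∈ range (m + 1 + 1), ((i : ℝ) - 1 / 2)) = P at hp ⊢
  have h1 : (m : ℝ) + 1 / 2 ≠ 0 := by positivity
  have h2 : (m : ℝ) + 3 / 2 ≠ 0 := by positivity
  have e1 : ((m + 1 + 1 : ℕ) : ℝ) - 1 / 2 = (m : ℝ) + 3 / 2 := by push_cast; ring
  have e2 : ((m + 2 : ℕ) : ℝ) - 1 / 2 = (m : ℝ) + 3 / 2 := by push_cast; ring
  have e3 : ((m + 1 : ℕ) : ℝ) - 1 / 2 = (m : ℝ) + 1 / 2 := by push_cast; ring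
  rw [e3, e2]
  push_cast
  generalize (((m + 1).factorial : ℕ) : ℝ) = F
  have k1 : (F / P) ^ 2 = F ^ 2 / P ^ 2 := div_pow _ _ _
  have k2 : (((m : ℝ) + 2) * F / (P * (m + 3 / 2))) ^ 2 =
      (F ^ 2 / P ^ 2) * ((m + 2) ^ 2 / (m + 3 / 2) ^ 2) := by
    rw [div_pow, mul_pow, mul_pow, div_mul_div_comm, mul_comm (F ^ 2)]
  rw [k1, k2]
  generalize F ^ 2 / P ^ 2 = Q
  generalize ha : (m : ℝ) + 1 / 2 = a at h1 ⊢
  generalize hb : (m : ℝ) + 3 / 2 = b at h2 ⊢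
  field_simp
  ring

theorem d2 (t u : ℝ) (ht : 0 ≤ t) (hu : 0 ≤ u) :
    0 ≤ u * ((t + 5) * (t + 6) / ((t + 7 / 2) * (t + 9 / 2))) *
          ((t + 6) * (t + 7) / ((t + 9 / 2) * (t + 11 / 2))) -
        2 * (u * ((t + 5) * (t + 6) / ((t + 7 / 2) * (t + 9 / 2)))) + u := by
  have h1 : t + 7 / 2 ≠ 0 := by positivity
  have h2 : t + 9 / 2 ≠ 0 := by positivity
  have h3 : t + 11 / 2 ≠ 0 := by positivity
  have key : u * ((t + 5) * (t + 6) / ((t + 7 / 2) * (t + 9 / 2))) *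
          ((t + 6) * (t + 7) / ((t + 9 / 2) * (t + 11 / 2))) -
        2 * (u * ((t + 5) * (t + 6) / ((t + 7 / 2) * (t + 9 / 2)))) + u =
      u * ((6 * (t + 3) ^ 2 + 27 * (t + 3) + 477 / 16) /
        ((t + 7 / 2) * (t + 9 / 2) * ((t + 9 / 2) * (t + 11 / 2)))) := by
    have hN : 6 * (t + 3) ^ 2 + 27 * (t + 3) + 477 / 16 =
        (t + 5) * (t + 6) * ((t + 6) * (t + 7)) -
          2 * ((t + 5) * (t + 6)) * ((t + 9 / 2) * (t + 11 / 2)) +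
          (t + 7 / 2) * (t + 9 / 2) * ((t + 9 / 2) * (t + 11 / 2)) := by ring
    rw [hN]
    generalize t + 7 / 2 = a at h1 ⊢
    generalize t + 9 / 2 = b at h2 ⊢
    generalize t + 11 / 2 = c at h3 ⊢
    field_simp
  rw [key]
  positivity

theorem d4 (t u r0 r1 r2 r3 : ℝ) (ht : 0 ≤ t) (hu : 0 ≤ u)
    (h0 : r0 = (t + 5) * (t + 6) / ((t + 7 / 2) * (t + 9 / 2)))
    (h1 : r1 = (t + 6) * (t + 7) / ((t + 9 / 2) * (t + 11 / 2)))
    (h2 : r2 = (t + 7) * (t + 8) / ((t + 11 / 2) * (t + 13 / 2)))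
    (h3 : r3 = (t + 8) * (t + 9) / ((t + 13 / 2) * (t + 15 / 2))) :
    (u * r0 * r1 - 2 * (u * r0) + u) -
        2 * (t + 3) * (u * r0 * r1 * r2 - 3 * (u * r0 * r1) + 3 * (u * r0) - u) +
        (t + 3) ^ 2 * (u * r0 * r1 * r2 * r3 - 4 * (u * r0 * r1 * r2) + 6 * (u * r0 * r1) -
          4 * (u * r0) + u) ≤ 0 := by
  have ha : 0 < (t + 7 / 2) * (t + 9 / 2) := by positivity
  have hb : 0 < (t + 9 / 2) * (t + 11 / 2) := by positivity
  have hc : 0 < (t + 11 / 2) * (t + 13 / 2) := by positivity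
  have hd : 0 < (t + 13 / 2) * (t + 15 / 2) := by positivity
  have hN : ∀ a b c d A B C D : ℝ, a = (t + 7 / 2) * (t + 9 / 2) → b = (t + 9 / 2) * (t + 11 / 2) →
      c = (t + 11 / 2) * (t + 13 / 2) → d = (t + 13 / 2) * (t + 15 / 2) →
      A = (t + 5) * (t + 6) → B = (t + 6) * (t + 7) → C = (t + 7) * (t + 8) →
      D = (t + 8) * (t + 9) →
      (A * B * c * d - 2 * (A * b * c * d) + a * b * c * d) -
        2 * (t + 3) * (A * B * C * d - 3 * (A * B * c * d) + 3 * (A * b * c * d) - a * b * c * d) +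
        (t + 3) ^ 2 * (A * B * C * D - 4 * (A * B * C * d) + 6 * (A * B * c * d) -
          4 * (A * b * c * d) + a * b * c * d) =
      -(656775 / 16 + 2820681 / 32 * t + 14185359 / 256 * t ^ 2 + 518565 / 32 * t ^ 3 +
        39585 / 16 * t ^ 4 + 192 * t ^ 5 + 6 * t ^ 6) := by
    intro a b c d A B C D e1 e2 e3 e4 e5 e6 e7 e8
    subst e1 e2 e3 e4 e5 e6 e7 e8
    ring
  have hN' := hN _ _ _ _ _ _ _ _ rfl rfl rfl rfl rfl rfl rfl rfl
  have hpos : 0 ≤ 656775 / 16 + 2820681 / 32 * t + 14185359 / 256 * t ^ 2 + 518565 / 32 * t ^ 3 +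
        39585 / 16 * t ^ 4 + 192 * t ^ 5 + 6 * t ^ 6 := by positivity
  generalize 656775 / 16 + 2820681 / 32 * t + 14185359 / 256 * t ^ 2 + 518565 / 32 * t ^ 3 +
        39585 / 16 * t ^ 4 + 192 * t ^ 5 + 6 * t ^ 6 = N at hN' hpos
  generalize (t + 7 / 2) * (t + 9 / 2) = a at *
  generalize (t + 9 / 2) * (t + 11 / 2) = b at *
  generalize (t + 11 / 2) * (t + 13 / 2) = c at *
  generalize (t + 13 / 2) * (t + 15 / 2) = d at *
  generalize (t + 5) * (t + 6) = A at *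
  generalize (t + 6) * (t + 7) = B at *
  generalize (t + 7) * (t + 8) = C at *
  generalize (t + 8) * (t + 9) = D at *
  generalize t + 3 = s at *
  subst h0 h1 h2 h3
  have key : (u * (A / a) * (B / b) - 2 * (u * (A / a)) + u) -
        2 * s * (u * (A / a) * (B / b) * (C / c) - 3 * (u * (A / a) * (B / b)) +
          3 * (u * (A / a)) - u) +
        s ^ 2 * (u * (A / a) * (B / b) * (C / c) * (D / d) - 4 * (u * (A / a) * (B / b) * (C / c)) +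
          6 * (u * (A / a) * (B / b)) - 4 * (u * (A / a)) + u) =
      -(u * N / (a * b * c * d)) := by
    have hN2 : N = -((A * B * c * d - 2 * (A * b * c * d) + a * b * c * d) -
        2 * s * (A * B * C * d - 3 * (A * B * c * d) + 3 * (A * b * c * d) - a * b * c * d) +
        s ^ 2 * (A * B * C * D - 4 * (A * B * C * d) + 6 * (A * B * c * d) -
          4 * (A * b * c * d) + a * b * c * d)) := by linarith
    rw [hN2]
    have ha' := ha.ne'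
    have hb' := hb.ne'
    have hc' := hc.ne'
    have hd' := hd.ne'
    field_simp
  rw [key]
  have : 0 ≤ u * N / (a * b * c * d) := by positivity
  linarith

end Pool.Agent.Lib.ISO.K8

namespace Pool.Agent.Lib.ISO

theorem st_k8 : St_K8 := by
  intro m hm
  obtain ⟨k, rfl⟩ := Nat.exists_eq_add_of_le' hm
  have ht : (0 : ℝ) ≤ k := Nat.cast_nonneg k
  have hu := K8.uu_nonneg (k + 3)
  have e1 := K8.uu_succ (k + 3)
  have e2 := K8.uu_succ (k + 3 + 1)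
  have e3 := K8.uu_succ (k + 3 + 2)
  have e4 := K8.uu_succ (k + 3 + 3)
  have r0 : (((k + 3 : ℕ) : ℝ) + 2) * ((k + 3 : ℕ) + 3) / ((((k + 3 : ℕ) : ℝ) + 1 / 2) *
      ((k + 3 : ℕ) + 3 / 2)) = ((k : ℝ) + 5) * (k + 6) / ((k + 7 / 2) * (k + 9 / 2)) := by
    push_cast; ring_nf
  have r1 : (((k + 3 + 1 : ℕ) : ℝ) + 2) * ((k + 3 + 1 : ℕ) + 3) / ((((k + 3 + 1 : ℕ) : ℝ) + 1 / 2) *
      ((k + 3 + 1 : ℕ) + 3 / 2)) = ((k : ℝ) + 6) * (k + 7) / ((k + 9 / 2) * (k + 11 / 2)) := by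
    push_cast; ring_nf
  have r2 : (((k + 3 + 2 : ℕ) : ℝ) + 2) * ((k + 3 + 2 : ℕ) + 3) / ((((k + 3 + 2 : ℕ) : ℝ) + 1 / 2) *
      ((k + 3 + 2 : ℕ) + 3 / 2)) = ((k : ℝ) + 7) * (k + 8) / ((k + 11 / 2) * (k + 13 / 2)) := by
    push_cast; ring_nf
  have r3 : (((k + 3 + 3 : ℕ) : ℝ) + 2) * ((k + 3 + 3 : ℕ) + 3) / ((((k + 3 + 3 : ℕ) : ℝ) + 1 / 2) *
      ((k + 3 + 3 : ℕ) + 3 / 2)) = ((k : ℝ) + 8) * (k + 9) / ((k + 13 / 2) * (k + 15 / 2)) := by
    push_cast; ring_nf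
  rw [r0] at e1
  rw [r1] at e2
  rw [r2] at e3
  rw [r3] at e4
  have hd2 := K8.d2 k _ ht hu
  have hd4 := K8.d4 k _ _ _ _ _ ht hu rfl rfl rfl rfl
  have f2 : uu (k + 3 + 1 + 1) = uu (k + 3 + 2) := rfl
  have f3 : uu (k + 3 + 2 + 1) = uu (k + 3 + 1 + 2) := rfl
  have f4 : uu (k + 3 + 3 + 1) = uu (k + 3 + 2 + 2) := rfl
  have f5 : uu (k + 3 + 4 + 1) = uu (k + 3 + 3 + 2) := rfl
  rw [f2] at e2
  rw [f3] at e3
  rw [f4] at e4
  rw [← e1, ← e2] at hd2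
  rw [← e1, ← e2, ← e3, ← e4] at hd4
  unfold Sc
  rw [f2, f3, f4, f5]
  generalize uu (k + 3 + 1) = u0 at *
  generalize uu (k + 3 + 2) = u1 at *
  generalize uu (k + 3 + 1 + 2) = u2 at *
  generalize uu (k + 3 + 2 + 2) = u3 at *
  generalize uu (k + 3 + 3 + 2) = u4 at *
  push_cast
  constructor
  · nlinarith
  · nlinarith

end Pool.Agent.Lib.ISO
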