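import Pool.Agent.Lib.ISO.Base

/-! Removal of the auxiliary parameter from an asymptotic expansion. -/

noncomputable section

namespace Pool.Agent.Lib.ISO

open Finset Filter Topology

namespace LIM

theorem pow_exp (k : ℕ) {c : ℝ} (hc : 0 < c) :
    ∃ C : ℝ, 0 ≤ C ∧ ∀ t : ℝ, 0 ≤ t → (t + 2) ^ k * Real.exp (-(c * t)) ≤ C := by
  refine ⟨k.factorial / c ^ k * Real.exp (2 * c), by positivity, fun t ht => ?_⟩
  have h := Real.pow_div_factorial_le_exp (c * (t + 2)) (by positivity) k
  rw [div_le_iff₀ (by positivity), mul_pow, show c * (t + 2) = 2 * c + c * t by ring,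
    Real.exp_add] at h
  rw [Real.exp_neg, ← div_eq_mul_inv, div_le_iff₀ (Real.exp_pos _), div_mul_eq_mul_div,
    div_mul_eq_mul_div, le_div_iff₀ (by positivity)]
  nlinarith

theorem fiber {A : Type} [Fintype A] (w : A → ℕ) {N : ℕ} (hw : ∀ a, w a < N) (u : ℕ → ℝ)
    (g : A → ℝ) : ∑ a, u (w a) * g a = ∑ j ∈ range N, u j * ∑ a, if w a = j then g a else 0 := by
  simp only [mul_sum, mul_ite, mul_zero]
  rw [sum_comm]
  refine sum_congr rfl fun a _ => ?_
  rw [sum_ite_eq, if_pos (mem_range.2 (hw a))]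

theorem peel {X : Type} (H : ℕ → X → ℕ → ℝ) (N q n0 : ℕ) {E c Cc : ℝ} (hE : 0 ≤ E) (hc : 0 < c)
    (ha : ∀ j x n, |H j x n| ≤ E * ((n : ℝ) + 2) ^ q)
    (hb : ∀ x n, n0 ≤ n → ∀ μ : ℝ, Cc * (n + 2) ≤ μ → 1 ≤ μ →
      |∑ j ∈ range N, 1 / μ ^ j * H j x n| ≤
        E * (((n : ℝ) + 2) ^ q / μ ^ N + μ ^ 3 * Real.exp (-(c * n)))) :
    ∀ j ≤ N, ∃ C ε : ℝ, 0 ≤ C ∧ 0 < ε ∧ ∀ i < j, ∀ x n, |H i x n| ≤ C * Real.exp (-(ε * n)) := by
  intro j
  induction j with
  | zero => exact fun _ => ⟨0, 1, le_rfl, one_pos, fun i hi => absurd hi (Nat.not_lt_zero i)⟩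
  | succ j ih =>
    intro hj
    obtain ⟨C, ε, hC, hε, ih⟩ := ih (by omega)
    set η := min ε c / (N + 4) with hη
    have hm : 0 < min ε c := lt_min hε hc
    have hη0 : 0 < η := by positivity
    have hη1 : η * (N + 4) = min ε c := by rw [hη]; field_simp
    obtain ⟨C1, hC1, h1⟩ := pow_exp 2 hη0
    obtain ⟨C2, hC2, h2⟩ := pow_exp q (half_pos hη0)
    obtain ⟨n1, hn1⟩ := exists_nat_ge (|Cc| * C1)
    set n2 := max n0 n1 with hn2
    have key : ∀ x n, |H j x n| ≤ (E * Real.exp (η * n2) + (2 * E + N * (C + E))) *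
        (((n : ℝ) + 2) ^ q * Real.exp (-(η * n))) := by
      intro x n
      have hn : (0 : ℝ) ≤ n := n.cast_nonneg
      have hp : (1 : ℝ) ≤ ((n : ℝ) + 2) ^ q := one_le_pow₀ (by linarith)
      set μ := Real.exp (η * n) with hμ
      have hμ1 : 1 ≤ μ := Real.one_le_exp (by positivity)
      have hμ0 : 0 < μ := by linarith
      rw [Real.exp_neg, ← hμ, ← div_eq_mul_inv]
      set Y := ((n : ℝ) + 2) ^ q / μ with hY
      have hY0 : 0 ≤ Y := by positivity
      rcases lt_or_ge n n2 with h | h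
      · have h3 : μ ≤ Real.exp (η * n2) := by
          rw [hμ]; gcongr
        have h4 : E * ((n : ℝ) + 2) ^ q ≤ E * Real.exp (η * n2) * Y := by
          rw [mul_assoc, hY, ← mul_div_assoc]
          gcongr
          rw [le_div_iff₀ hμ0, mul_comm]
          gcongr
        have : 0 ≤ (2 * E + N * (C + E)) * Y := by positivity
        linarith [ha j x n]
      · have h3 : Cc * (n + 2) ≤ μ := by
          have h4 := h1 n hn
          rw [Real.exp_neg, ← hμ, ← div_eq_mul_inv, div_le_iff₀ hμ0] at h4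
          have h5 : (n1 : ℝ) ≤ n := by exact_mod_cast (le_max_right n0 n1).trans h
          have h6 : |Cc| * ((n : ℝ) + 2) * (n + 2) ≤ μ * (n + 2) := by
            nlinarith [mul_le_mul_of_nonneg_left h4 (abs_nonneg Cc),
              mul_le_mul_of_nonneg_right (hn1.trans h5) hμ0.le]
          have h7 := le_of_mul_le_mul_right h6 (by linarith)
          nlinarith [le_abs_self Cc]
        have h4 := hb x n ((le_max_left n0 n1).trans h) μ h3 hμ1
        have hd : ∀ e : ℝ, min ε c ≤ e → μ ^ (N + 3) * Real.exp (-(e * n)) ≤ Y := by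
          intro e he
          have h5 : μ ^ (N + 4) ≤ Real.exp (e * n) := by
            rw [hμ, ← Real.exp_nat_mul]
            push_cast
            exact Real.exp_le_exp.2 (by nlinarith)
          rw [Real.exp_neg, ← div_eq_mul_inv, hY, div_le_div_iff₀ (Real.exp_pos _) hμ0, ← pow_succ]
          nlinarith [Real.exp_pos (e * n)]
        have hj' : j ∈ range N := mem_range.2 (by omega)
        have h5 : ∀ i ∈ (range N).erase j, |μ ^ j * (1 / μ ^ i * H i x n)| ≤ (C + E) * Y := by
          intro i hi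
          rw [abs_mul, abs_mul, abs_of_pos (by positivity), abs_of_pos (by positivity)]
          rcases lt_or_gt_of_ne (mem_erase.1 hi).1 with h6 | h6
          · have h7 : μ ^ j * (1 / μ ^ i * |H i x n|) ≤ μ ^ (N + 3) * (1 * (C * Real.exp (-(ε * n)))) := by
              gcongr
              · omega
              · exact (div_le_one (by positivity)).2 (one_le_pow₀ hμ1)
              · exact ih i h6 x n
            nlinarith [mul_le_mul_of_nonneg_left (hd ε (min_le_left _ _)) hC, mul_nonneg hE hY0]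
          · have h7 : μ ^ j * (1 / μ ^ i) ≤ 1 / μ := by
              rw [mul_one_div, div_le_div_iff₀ (by positivity) hμ0, ← pow_succ, one_mul]
              exact pow_le_pow_right₀ hμ1 h6
            have h8 : μ ^ j * (1 / μ ^ i) * |H i x n| ≤ 1 / μ * (E * ((n : ℝ) + 2) ^ q) := by
              gcongr; exact ha i x n
            have e : 1 / μ * (E * ((n : ℝ) + 2) ^ q) = E * Y := by rw [hY]; ring
            nlinarith [mul_nonneg hC hY0]
        have h6 : |∑ i ∈ (range N).erase j, μ ^ j * (1 / μ ^ i * H i x n)| ≤ N * ((C + E) * Y) := by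
          refine (abs_sum_le_sum_abs _ _).trans ((sum_le_card_nsmul _ _ _ h5).trans ?_)
          rw [nsmul_eq_mul]
          gcongr
          exact card_erase_le.trans (card_range N).le
        have h7 : H j x n = μ ^ j * ∑ i ∈ range N, 1 / μ ^ i * H i x n -
            ∑ i ∈ (range N).erase j, μ ^ j * (1 / μ ^ i * H i x n) := by
          rw [← add_sum_erase _ _ hj', mul_add, mul_sum]
          field_simp
          ring
        have h8 : |μ ^ j * ∑ i ∈ range N, 1 / μ ^ i * H i x n| ≤ 2 * E * Y := by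
          rw [abs_mul, abs_of_pos (by positivity)]
          refine (mul_le_mul_of_nonneg_left h4 (by positivity)).trans ?_
          have h9 : μ ^ j * (((n : ℝ) + 2) ^ q / μ ^ N) ≤ Y := by
            rw [hY, ← mul_div_assoc, div_le_div_iff₀ (by positivity) hμ0, mul_right_comm, ← pow_succ,
              mul_comm]
            gcongr
          have h10 : μ ^ j * (μ ^ 3 * Real.exp (-(c * n))) ≤ Y := by
            refine le_trans ?_ (hd c (min_le_right _ _))
            rw [← mul_assoc, ← pow_add]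
            gcongr
            omega
          nlinarith [mul_le_mul_of_nonneg_left h9 hE, mul_le_mul_of_nonneg_left h10 hE]
        have : 0 ≤ E * Real.exp (η * n2) * Y := by positivity
        rw [h7]
        refine (abs_sub _ _).trans ?_
        nlinarith
    set G := E * Real.exp (η * n2) + (2 * E + N * (C + E)) with hG
    have hG0 : 0 ≤ G := by positivity
    refine ⟨C + G * C2, η / 2, by positivity, half_pos hη0, fun i hi x n => ?_⟩
    have hn : (0 : ℝ) ≤ n := n.cast_nonneg
    have he := Real.exp_pos (-(η / 2 * n))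
    rcases Nat.lt_succ_iff_lt_or_eq.1 hi with h | rfl
    · have h3 : η / 2 ≤ ε := by
        have := min_le_left ε c
        nlinarith [(Nat.cast_nonneg N : (0 : ℝ) ≤ N)]
      have h4 : C * Real.exp (-(ε * n)) ≤ C * Real.exp (-(η / 2 * n)) := by gcongr
      nlinarith [ih i h x n, mul_nonneg (mul_nonneg hG0 hC2) he.le]
    · have h3 : ((n : ℝ) + 2) ^ q * Real.exp (-(η * n)) ≤ C2 * Real.exp (-(η / 2 * n)) := by
        rw [show -(η * n) = -(η / 2 * n) + -(η / 2 * n) by ring, Real.exp_add, ← mul_assoc]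
        exact mul_le_mul_of_nonneg_right (h2 n hn) he.le
      nlinarith [key x n, mul_le_mul_of_nonneg_left h3 hG0, mul_nonneg hC he.le]

end LIM

open LIM in
theorem st_lim : St_LIM := by
  intro S A _ w v F Γ N q P hw hP ⟨C0, hΓ⟩ hB hF
  set h : ℕ → S → ℝ → ℝ := fun j x D => ∑ a, if w a = j then Γ a D * v a x else 0 with hh
  have step : ∀ K, ∃ C r : ℝ, 0 ≤ C ∧ 0 < r ∧ ∀ j < N, ∀ x, P K x → ∀ n : ℕ,
      dist (h j x (n + 1)) (h j x ((n + 1 : ℕ) + 1)) ≤ C * Real.exp (-r) ^ n := by
    intro K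
    obtain ⟨B, hB⟩ := hB K
    obtain ⟨C, D0, c, hc, hF⟩ := hF K
    obtain ⟨n0, hn0⟩ := exists_nat_ge D0
    have hb : ∀ j x, P K x → ∀ n : ℕ, ∀ D : ℝ, 1 ≤ D → D ≤ n + 2 →
        |h j x D| ≤ Fintype.card A * (|C0| * |B|) * ((n : ℝ) + 2) ^ q := by
      intro j x hx n D h1 h2
      refine (abs_sum_le_sum_abs _ _).trans ((sum_le_card_nsmul _ _ (|C0| * |B| * ((n : ℝ) + 2) ^ q)
        fun a _ => ?_).trans (by rw [nsmul_eq_mul, card_univ, ← mul_assoc]))
      split_ifs
      · rw [abs_mul, mul_right_comm]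
        exact mul_le_mul ((hΓ a D h1).trans (by gcongr; exact le_abs_self _))
          ((hB x hx a).trans (le_abs_self _)) (abs_nonneg _) (by positivity)
      · rw [abs_zero]; positivity
    obtain ⟨C', ε, hC', hε, hs⟩ := peel (X := {x // P K x})
      (fun j x n => h j x (n + 1) - h j x (n + 2)) N q n0
      (E := 2 * (Fintype.card A * (|C0| * |B|)) + 2 * |C|) (Cc := |C|) (by positivity) hc
      (fun j x n => by
        have hn : (0 : ℝ) ≤ n := n.cast_nonneg
        have h1 := hb j x x.2 n (n + 1) (by linarith) (by linarith)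
        have h2 := hb j x x.2 n (n + 2) (by linarith) (by linarith)
        have : 0 ≤ 2 * |C| * ((n : ℝ) + 2) ^ q := by positivity
        refine (abs_sub _ _).trans ?_
        linarith)
      (fun x n hn μ h1 h2 => by
        have hn' : (0 : ℝ) ≤ n := n.cast_nonneg
        have hn1 : (n0 : ℝ) ≤ n := by exact_mod_cast hn
        have hμ : 0 < μ := by linarith
        set Z := ((n : ℝ) + 2) ^ q / μ ^ N + μ ^ 3 * Real.exp (-(c * n)) with hZ
        have hZ0 : 0 ≤ Z := by positivity
        have k1 : ∀ D : ℝ, n + 1 ≤ D → D ≤ n + 2 →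
            |F x μ - μ * ∑ j ∈ range N, 1 / μ ^ j * h j x D| ≤ μ * (|C| * Z) := by
          intro D d1 d2
          have h3 := hF x x.2 μ D (by linarith) (by linarith)
            (by nlinarith [le_abs_self C, abs_nonneg C]) h2
          rw [fiber w hw (fun j => μ / μ ^ j)] at h3
          simp only [mul_sum (range N), ← mul_assoc, mul_one_div]
          refine h3.trans ((mul_le_mul_of_nonneg_right (le_abs_self C) (by
            have : 0 ≤ D := by linarith
            positivity)).trans ?_)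
          have e : μ * |C| * Z = |C| * (((n : ℝ) + 2) ^ q * (μ / μ ^ N) +
              μ ^ 4 * Real.exp (-(c * n))) := by rw [hZ]; ring
          rw [e]
          gcongr <;> linarith
        have k2 := k1 (n + 1) le_rfl (by linarith)
        have k3 := k1 (n + 2) (by linarith) le_rfl
        have k4 : μ * |∑ j ∈ range N, 1 / μ ^ j * (h j x (n + 1) - h j x (n + 2))| ≤
            μ * (2 * |C| * Z) := by
          rw [← abs_of_pos hμ, ← abs_mul, abs_of_pos hμ]
          simp only [mul_sub, sum_sub_distrib]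
          rw [abs_le] at k2 k3 ⊢
          constructor <;> linarith [k2.1, k2.2, k3.1, k3.2]
        have k5 := le_of_mul_le_mul_left k4 hμ
        have : 0 ≤ 2 * (Fintype.card A * (|C0| * |B|)) * Z := by positivity
        linarith) N le_rfl
    refine ⟨C', ε, hC', hε, fun j hj x hx n => ?_⟩
    rw [Real.dist_eq, ← Real.exp_nat_mul, Nat.cast_succ, add_assoc, one_add_one_eq_two,
      show (n : ℝ) * -ε = -(ε * n) by ring]
    exact hs j hj ⟨x, hx⟩ n
  have hlim : ∀ j, ∃ c : A → ℝ, j < N → ∀ x, Tendsto (fun n : ℕ => h j x (n + 1)) atTop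
      (𝓝 (∑ a, if w a = j then c a * v a x else 0)) := by
    intro j
    by_cases hj : j < N
    swap
    · exact ⟨0, fun h => absurd h hj⟩
    have h1 : ∀ x, ∃ l, Tendsto (fun n : ℕ => h j x (n + 1)) atTop (𝓝 l) := fun x => by
      obtain ⟨K, hx⟩ := hP x
      obtain ⟨C, r, -, hr, hs⟩ := step K
      exact cauchySeq_tendsto_of_complete (cauchySeq_of_le_geometric _ C
        (Real.exp_lt_one_iff.2 (by linarith)) (hs j hj x hx))
    choose l hl using h1
    set V := Submodule.span ℝ (Set.range fun a => if w a = j then v a else 0) with hV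
    have : FiniteDimensional ℝ V := FiniteDimensional.span_of_finite ℝ (Set.finite_range _)
    have h2 : l ∈ V := V.closed_of_finiteDimensional.mem_of_tendsto (tendsto_pi_nhds.2 hl)
      (Eventually.of_forall fun n => (Submodule.mem_span_range_iff_exists_fun ℝ).2
        ⟨fun a => Γ a (n + 1), by
          funext x
          rw [Finset.sum_apply]
          exact sum_congr rfl fun a _ => by split_ifs <;> simp⟩)
    obtain ⟨c, hc⟩ := (Submodule.mem_span_range_iff_exists_fun ℝ).1 h2
    refine ⟨c, fun _ x => ?_⟩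
    have e : l x = ∑ a, if w a = j then c a * v a x else 0 := by
      rw [← hc, Finset.sum_apply]
      exact sum_congr rfl fun a _ => by split_ifs <;> simp
    exact e ▸ hl x
  choose c hc using hlim
  refine ⟨fun a => c (w a) a, fun K => ?_⟩
  obtain ⟨C1, r, hC1, hr, hs⟩ := step K
  obtain ⟨C, D0, e, he, hF⟩ := hF K
  have hr1 : Real.exp (-r) < 1 := Real.exp_lt_one_iff.2 (by linarith)
  obtain ⟨E1, hE1, p1⟩ := pow_exp ((2 * q + 2) * (N + 4)) he
  obtain ⟨E2, hE2, p2⟩ := pow_exp ((2 * q + 2) * N) hr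
  set G := C1 / (1 - Real.exp (-r)) with hG
  have hG0 : 0 ≤ G := div_nonneg hC1 (by linarith)
  refine ⟨|C| * (1 + E1) + N * (G * E2), (|D0| + |C| + 2) ^ (2 * q + 2), fun x hx μ hμ => ?_⟩
  have hT : (1 : ℝ) ≤ |D0| + |C| + 2 := by linarith [abs_nonneg D0, abs_nonneg C]
  have hμ1 : 1 ≤ μ := (one_le_pow₀ hT).trans hμ
  have hμ0 : 0 < μ := by linarith
  obtain ⟨n, n1, n2, n3⟩ : ∃ n : ℕ, ((n : ℝ) + 1) ^ (2 * q + 2) ≤ μ ∧ μ ≤ ((n : ℝ) + 2) ^ (2 * q + 2) ∧
      |D0| + |C| ≤ n := by
    set t := μ ^ (((2 * q + 2 : ℕ) : ℝ)⁻¹) with ht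
    have t0 : 0 ≤ t := by positivity
    have t1 : t ^ (2 * q + 2) = μ := Real.rpow_inv_natCast_pow hμ0.le (by omega)
    have t2 : |D0| + |C| + 2 ≤ t := le_of_pow_le_pow_left₀ (n := 2 * q + 2) (by omega) t0 (by rwa [t1])
    have t3 := Nat.floor_le (show 0 ≤ t - 1 by linarith)
    have t4 := Nat.lt_floor_add_one (t - 1)
    refine ⟨⌊t - 1⌋₊, ?_, ?_, by linarith⟩
    · rw [← t1]; gcongr; linarith
    · rw [← t1]; gcongr; linarith
  have hn : (0 : ℝ) ≤ n := n.cast_nonneg
  have hsq : ((n : ℝ) + 1) ^ q ≤ √μ := Real.le_sqrt_of_sq_le (by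
    rw [← pow_mul]
    exact (pow_le_pow_right₀ (by linarith) (by omega)).trans n1)
  have hs1 : 1 ≤ √μ := Real.one_le_sqrt.2 hμ1
  have k1 := hF x hx μ (n + 1) (by linarith [le_abs_self D0, abs_nonneg C]) (by linarith) (by
    refine le_trans ?_ ((pow_le_pow_right₀ (by linarith) (by omega : 2 ≤ 2 * q + 2)).trans n1)
    nlinarith [le_abs_self C, abs_nonneg D0]) hμ1
  set Y := μ * √μ / μ ^ N with hY
  have hY1 : 1 / μ ^ N ≤ Y := by
    rw [hY]; gcongr; nlinarith
  have hd : ∀ (k : ℕ) (a b : ℝ), ((n : ℝ) + 2) ^ ((2 * q + 2) * (N + k)) * a ≤ b → 0 ≤ a →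
      μ ^ k * a ≤ b * (1 / μ ^ N) := by
    intro k a b h1 h2
    rw [mul_one_div, le_div_iff₀ (by positivity), mul_right_comm, ← pow_add, add_comm k]
    refine le_trans ?_ h1
    rw [pow_mul]
    gcongr
  have k2 : ((n : ℝ) + 1) ^ q * (μ / μ ^ N) + μ ^ 4 * Real.exp (-(e * (n + 1))) ≤ (1 + E1) * Y := by
    have h1 : ((n : ℝ) + 1) ^ q * (μ / μ ^ N) ≤ Y := by
      rw [hY, mul_comm μ, mul_div_assoc]; gcongr
    have h2 : μ ^ 4 * Real.exp (-(e * (n + 1))) ≤ μ ^ 4 * Real.exp (-(e * n)) := by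
      gcongr; linarith
    have h3 := hd 4 _ _ (p1 n hn) (Real.exp_pos _).le
    nlinarith [mul_le_mul_of_nonneg_left hY1 hE1]
  have k3 : ∀ j ∈ range N, |μ / μ ^ j * (h j x (n + 1) -
      ∑ a, if w a = j then c j a * v a x else 0)| ≤ G * E2 * Y := by
    intro j hj
    have h1 := dist_le_of_le_geometric_of_tendsto _ C1 hr1 (hs j (mem_range.1 hj) x hx)
      (hc j (mem_range.1 hj) x) n
    rw [Real.dist_eq, mul_div_right_comm, ← hG, ← Real.exp_nat_mul,
      show (n : ℝ) * -r = -(r * n) by ring] at h1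
    have h2 := hd 0 _ _ (p2 n hn) (Real.exp_pos _).le
    rw [pow_zero, one_mul] at h2
    have h3 : μ / μ ^ j ≤ μ := div_le_self hμ0.le (one_le_pow₀ hμ1)
    have h4 : μ * (1 / μ ^ N) ≤ Y := by
      rw [hY, mul_one_div]; gcongr; nlinarith
    rw [abs_mul, abs_of_pos (by positivity)]
    calc _ ≤ μ * (G * (E2 * (1 / μ ^ N))) :=
          mul_le_mul h3 (h1.trans (mul_le_mul_of_nonneg_left h2 hG0)) (abs_nonneg _) hμ0.le
      _ = G * E2 * (μ * (1 / μ ^ N)) := by ring
      _ ≤ _ := by gcongr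
  have k4 := (abs_sum_le_sum_abs _ _).trans (sum_le_card_nsmul _ _ _ k3)
  rw [card_range, nsmul_eq_mul] at k4
  have e1 : ∀ j, (∑ a, if w a = j then c (w a) a * v a x else 0) =
      ∑ a, if w a = j then c j a * v a x else 0 := fun j =>
    sum_congr rfl fun a _ => by split_ifs with h1 <;> simp [h1]
  rw [fiber w hw (fun j => μ / μ ^ j)] at k1 ⊢
  simp only [e1]
  simp only [mul_sub, sum_sub_distrib] at k4
  have k5 := k1.trans ((mul_le_mul_of_nonneg_right (le_abs_self C) (by positivity)).trans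
    (mul_le_mul_of_nonneg_left k2 (abs_nonneg C)))
  rw [abs_le] at k4 k5 ⊢
  constructor <;> linarith [k4.1, k4.2, k5.1, k5.2]

end Pool.Agent.Lib.ISO
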