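import Pool.Agent.Lib.ISO.B_NF2

/-! The normal form of the resolvent on the curved cylinder. -/

open scoped InnerProductSpace ENNReal ContDiff ComplexConjugate Topology
open MeasureTheory Complex Set Filter

set_option linter.unusedSectionVars false

noncomputable section

namespace Pool.Agent.Lib.ISO

open Pool.Agent.Lib.MP_312682_mp

namespace NF

def AF : Fm := fun x => mm (nu x.L x.δ) (Am x.κ x.μ)
def rF : Par → ℂ → ℂ := fun x z => (x.μ * z.im : ℝ)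
def jF : Par → ℂ → ℂ := fun x z => ((Jf x.κ z)⁻¹ : ℝ)

lemma ct_r : Ct rF := fun _ _ _ => Continuous.continuousAt (by unfold rF; fun_prop)

lemma ct_j : Ct jF := fun x z hz => by
  have h1 := x.Jpos hz
  have h2 := x.ok.choose_spec.kap.sJ.continuous
  exact continuous_ofReal.continuousAt.comp (h2.continuousAt.inv₀ (by linarith))

lemma Ct.mul {g h : Par → ℂ → ℂ} (hg : Ct g) (hh : Ct h) : Ct fun x z => g x z * h x z :=
  fun x z hz => (hg x z hz).mul (hh x z hz)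

lemma Ct.add {g h : Par → ℂ → ℂ} (hg : Ct g) (hh : Ct h) : Ct fun x z => g x z + h x z :=
  fun x z hz => (hg x z hz).add (hh x z hz)

lemma Ct.smul {g : Par → ℂ → ℂ} (hg : Ct g) (c : ℂ) : Ct fun x z => c * g x z :=
  fun x z hz => continuousAt_const.mul (hg x z hz)

lemma exists_Z (x : Par) : ∃ Z : L2 (nu x.L x.δ) →L[ℂ] L2 (nu x.L x.δ), ‖Z‖ ≤ 2 ∧
    (1 + PF x * AF x * PF x) * Z = 1 ∧
    p0 _ * QK x.L x.δ x.μ x.κ * p0 _ = p0 _ * PF x * Z * PF x * p0 _ := by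
  obtain ⟨K, hx⟩ := x.ok
  have h := hx.kap
  have hK := hx.small
  have hδ := x.hδ
  have hμ0 := x.μ0
  have h1 := h.one_le
  have hK3 : K ≤ K ^ 3 := le_self_pow₀ h1 (by norm_num)
  have hδ1 : x.δ ≤ 1 / 100 := by nlinarith
  have nκ : ‖sm (nu x.L x.δ) (fun z => (x.κ z.re : ℂ))‖ ≤ K :=
    sm_norm_le (by positivity) (ae_of_all _ fun z => by simpa using h.b0 _)
  have n1 := nA1 (L := x.L) hδ
  have n2 := nA2 (L := x.L) hδ x.hD
  have n3 := h.nA3 hK hδ x.hD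
  have nA : ‖mm (nu x.L x.δ) (Am x.κ x.μ)‖ ≤ 1 / 2 := by
    rw [h.decomp hK hμ0]
    refine (nadd (nadd (nmul nκ n1) (nmul (nmul nκ nκ) n2)) n3).trans ?_
    have a : K * x.δ ≤ 1 / 100 := by nlinarith
    have b : 0 ≤ K * x.δ := by positivity
    have : (K * x.δ) ^ 2 ≤ (1 / 100) ^ 2 := by gcongr
    have : (K * x.δ) ^ 3 ≤ (1 / 100) ^ 3 := by gcongr
    nlinarith
  exact perturb (P := PK x.L x.δ x.μ) (Q := QK x.L x.δ x.μ x.κ) proj_p0 (proj_PC _)
    (proj_PC _) (h.NN' hK hμ0).1 (h.pN hK hμ0)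
    (PC_pres' _ fun x hx => mem_cl (mem_image_of_mem _ hx))
    (PC_pres' _ (by
      rintro _ ⟨y, hy, rfl⟩
      rw [← mul_apply_eq_comp, (h.NN' hK hμ0).2]
      exact mem_cl hy)) (h.form hK x.hL hδ hμ0) nA

lemma PP : PF * PF = PF := funext fun _ => (proj_PC _).idem

/-- the Leibniz correction -/
def EF (α : List ℕ) : Fm := fun x => (((x.μ ^ wt α)⁻¹ : ℝ) : ℂ) •
  EL (nu x.L x.δ) x.μ fun z => (mono α x.κ z.re : ℝ)

lemma leib (α : List ℕ) : ms α * pF * PF = pF * PF * (ms α + EF α) * PF := by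
  funext x
  have sκ : ContDiff ℝ ∞ fun z : ℂ => (mono α x.κ z.re : ℂ) :=
    s_ofReal.comp ((s_mono x.sκ α).comp contDiff_re')
  have mκ := mult_rect (L := x.L) (δ := x.δ) sκ
  have h1 := leibniz_pres x.μ0 (core_cyl x.L x.δ) mκ fun u hu =>
    mul_mem_cyl sκ (by simp [per_mono x.per]) hu
  have h2 := p0_EM (mκ.c1 x.μ) (mκ.c2 x.μ)
  have h3 := p0_sm mκ.b0
  simp only [Pi.mul_apply, Pi.add_apply, ms_apply, EF, pF, PF, PK, sms, ← smul_add, smul_mul_assoc,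
    mul_smul_comm]
  congr 1
  rw [mul_assoc (p0 _), mul_assoc (p0 _), h1, ← mul_assoc, mul_add, h3, EL, h2, add_zero]

lemma EF_eq (α : List ℕ) : EF α = (-I) • (sf (fun x z => ((x.μ ^ (wt α + 1))⁻¹ : ℝ) *
    (iteratedDeriv 1 (mono α x.κ) z.re : ℝ)) * cm (Em I 0)) := by
  funext x
  have sκ : ContDiff ℝ ∞ fun z : ℂ => (mono α x.κ z.re : ℂ) :=
    s_ofReal.comp ((s_mono x.sκ α).comp contDiff_re')
  have mκ := mult_rect (L := x.L) (δ := x.δ) sκ
  have b := ((ct_re fun x => (s_iter (s_mono x.sκ α) 1).continuous).bs x)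
  have b' := (Bs.const (((x.μ ^ (wt α + 1))⁻¹ : ℝ) : ℂ)).mul b
  simp only [Pi.smul_apply, Pi.mul_apply, EF, sf, cm, EL, EM]
  rw [smul_mm (Bd_Em (mκ.c1 x.μ) (mκ.c2 x.μ)), ← smul_mul_assoc, smul_sm b',
    sm_mul_mm ((Bs.const _).mul b') (Bd.const _)]
  refine mm_eq_of fun z => ?_
  have := d_ten (a := fun s => (mono α x.κ s : ℂ)) (b := fun _ => 1) (z := z)
    (((s_mono x.sκ α).differentiable (by simp) z.re).hasDerivAt.ofReal_comp) (hasDerivAt_const _ _)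
  simp only [mul_one, mul_zero] at this
  rw [this.1, this.2, iteratedDeriv_one]
  ext a b
  fin_cases a <;> fin_cases b <;> simp [Em]
  rw [pow_succ]
  linear_combination ((x.μ : ℂ)⁻¹ * ((x.μ : ℂ) ^ wt α)⁻¹ * (deriv (mono α x.κ) z.re : ℝ)) * I_sq

def Gd (N : ℕ) (g : Par → ℂ → ℂ) : Prop := Ct g ∧ sf g ∈ Ex N 1

lemma bd_smul {ν : Measure ℂ} {f : ℂ → ℂ} (h : Bs ν f) (M : Mat) : Bd ν fun z => f z • M :=
  (h.bd.mul (Bd.const M)).congr (ae_of_all _ fun z => by simp)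

/-- normal forms -/
def NFm (N : ℕ) : Submodule ℂ Fm :=
  Submodule.span ℂ ({T | ∃ α, ∃ f ∈ Wa, T = ms α * (pF * PF * op f * PF * pF)} ∪
    {T | ∃ R ∈ Sm N, T = pF * PF * R * PF * pF})

variable (hT : St_TAY) (hO : St_OP) (hC : St_COM)
include hT hO hC

lemma Ex_P {N : ℕ} : PF ∈ Ex N 0 := by rw [← op_P hT hO]; exact Ex_op hT hO P1_mem

lemma Ex_cm {N : ℕ} (M : Mat) : cm M ∈ Ex N 0 := by
  rw [← op_cm hT hO]; exact Ex_op hT hO (csy_mem _)

lemma Ex_r {N : ℕ} : sf rF ∈ Ex N 0 := by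
  have := Ex_op (N := N) hT hO (mul_mem Dsy_mem (csy_mem (sm nu1 fun r => (r : ℂ))))
  rwa [op_r hT hO] at this

lemma Ex_j {N : ℕ} : sf jF ∈ Ex N 0 := by
  refine Ex_inv hT hO hC (B := ms [0] * sf rF)
    (Ex_mul0' hT hO hC (Ex_ms hT hO [0]) (Ex_r hT hO hC)) (Sm_of_le (c := 2) fun x => ?_) ?_
  · refine sm_norm_le zero_le_two ?_
    filter_upwards [ae_rect x.L x.δ] with z hz
    have := x.Jpos (Ioc_subset_Icc_self hz.2)
    rw [jF, norm_real, Real.norm_of_nonneg (by positivity), inv_le_comm₀ (by positivity) two_pos]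
    linarith
  · rw [sub_mul, one_mul, ms, sf_mul (ct_mg _) ct_r, sf_mul ((ct_mg _).mul ct_r) ct_j,
      sub_eq_iff_eq_add, ← sf_one, sf_add (fun _ _ _ => continuousAt_const)
        (((ct_mg _).mul ct_r).mul ct_j)]
    refine sf_congr fun x z hz => ?_
    have h1 : Jf x.κ z ≠ 0 := by have := x.Jpos hz; positivity
    have h2 := x.μ0.ne'
    simp only [jF, mg, rF, ← ofReal_mul, ← ofReal_one, ← ofReal_add, ofReal_inj]
    simp only [mono, wt, List.map_cons, List.map_nil, List.prod_cons, List.prod_nil,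
      iteratedDeriv_zero, mul_one, List.length_singleton, List.sum_cons, List.sum_nil, add_zero,
      pow_one]
    field_simp
    simp [Jf]

omit hT hO hC in
lemma Gd.add {N : ℕ} {g h : Par → ℂ → ℂ} (hg : Gd N g) (hh : Gd N h) :
    Gd N fun x z => g x z + h x z :=
  ⟨hg.1.add hh.1, by rw [← sf_add hg.1 hh.1]; exact add_mem hg.2 hh.2⟩

omit hT hO hC in
lemma Gd.smul {N : ℕ} {g : Par → ℂ → ℂ} (hg : Gd N g) (c : ℂ) : Gd N fun x z => c * g x z :=
  ⟨hg.1.smul c, by rw [← sf_smul hg.1]; exact Submodule.smul_mem _ _ hg.2⟩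

lemma Gd.r {N : ℕ} {g : Par → ℂ → ℂ} (hg : Gd N g) : Gd N fun x z => g x z * rF x z :=
  ⟨hg.1.mul ct_r, by rw [← sf_mul hg.1 ct_r]; exact Ex_mul0' hT hO hC hg.2 (Ex_r hT hO hC)⟩

lemma Gd.j {N : ℕ} {g : Par → ℂ → ℂ} (hg : Gd N g) : Gd N fun x z => g x z * jF x z :=
  ⟨hg.1.mul ct_j, by rw [← sf_mul hg.1 ct_j]; exact Ex_mul0' hT hO hC hg.2 (Ex_j hT hO hC)⟩

lemma Ex_A {N : ℕ} : AF ∈ Ex N 1 := by
  have r := @Gd.r hT hO hC N
  have j := @Gd.j hT hO hC N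
  have m : ∀ α, 1 ≤ wt α → Gd N (mg α) := fun α h => ⟨ct_mg α, Ex_mono h (Ex_ms hT hO α)⟩
  have c5 := (((j (j (m [0, 0] (by simp [wt])))).smul (-1 / 4)).add
    ((j (j (j (r (m [2] (by simp [wt])))))).smul (-1 / 2))).add
    ((j (j (j (j (r (r (m [1, 1] (by simp [wt])))))))).smul (-5 / 4))
  have c4 := j (r (m [0] (by simp [wt])))
  have c6 := (j c4).add c4
  have h := add_mem (Ex_mul0' hT hO hC c5.2 (Ex_cm hT hO hC (dg3 1 0 0)))
    (Ex_mul0' hT hO hC c6.2 (Ex_cm hT hO hC (dg3 0 1 0)))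
  refine (congrArg (· ∈ Ex N 1) ?_).mp h
  funext x
  simp only [Pi.add_apply, Pi.mul_apply, sf, cm, AF]
  rw [sm_mul_mm (c5.1.bs x) (Bd.const _), sm_mul_mm (c6.1.bs x) (Bd.const _),
    mm_add (bd_smul (c5.1.bs x) _) (bd_smul (c6.1.bs x) _)]
  refine mm_congr ?_
  filter_upwards [ae_rect x.L x.δ] with z hz
  have h1 : (Jf x.κ z : ℂ) ≠ 0 := by
    have := x.Jpos (Ioc_subset_Icc_self hz.2)
    exact ofReal_ne_zero.2 (by positivity)
  have h2 : (x.μ : ℂ) ≠ 0 := ofReal_ne_zero.2 x.μ0.ne'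
  have h3 : (x.κ z.re : ℂ) * z.im = 1 - Jf x.κ z := by simp [Jf]
  ext a b
  fin_cases a <;> fin_cases b <;>
    simp [Am, dg3, Vf, jF, mg, rF, mono, wt, iteratedDeriv_succ]
  · field_simp; ring
  · field_simp
    linear_combination (1 + (Jf x.κ z : ℂ)) * h3

lemma Ex_E {N : ℕ} (α : List ℕ) : EF α ∈ Ex N (wt α + 1) := by
  rw [EF_eq, ← op_cm hT hO]
  exact Submodule.smul_mem _ _ (Ex_iter α 1 (csy_mem _))

lemma normal {N : ℕ} (d : ℕ) : ∀ w, N ≤ w + d → ∀ T ∈ Ex N w, pF * PF * T * (PF * pF) ∈ NFm N := by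
  have b : ∀ R ∈ Sm N, pF * PF * R * (PF * pF) ∈ NFm N := fun R hR =>
    Submodule.subset_span (Or.inr ⟨R, hR, (mul_assoc _ _ _).symm⟩)
  induction d with
  | zero => exact fun w hw T h => b T (Ex_Sm hT hO le_rfl hw h)
  | succ d ih =>
    intro w hw T h
    refine Ex_ind _ _ (fun α f hf hα => ?_) b h
    have e : pF * PF * (ms α * op f) * (PF * pF) = ms α * (pF * PF * op f * PF * pF) +
        pF * PF * ((PF * ms α - ms α * PF) * ((1 - PF) * op f) - EF α * (PF * op f)) *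
          (PF * pF) := by
      have e1 : ms α * (pF * PF * op f * PF * pF) = ms α * pF * PF * op f * (PF * pF) := by
        simp only [mul_assoc]
      have e2 : pF * PF * ((PF * ms α - ms α * PF) * ((1 - PF) * op f)) =
          pF * (PF * PF) * ms α * ((1 - PF) * op f) - pF * PF * ms α * ((PF - PF * PF) * op f) := by
        noncomm_ring
      rw [e1, leib, mul_sub (pF * PF), e2, PP]
      noncomm_ring
    rw [e]
    refine add_mem (Submodule.subset_span (Or.inl ⟨α, f, hf, rfl⟩)) (ih (w + 1) (by omega) _ ?_)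
    have p := Ex_P (N := N) hT hO hC
    have c := Ex_comm (N := N) hT hO hC P1_mem α
    rw [op_P hT hO] at c
    exact Ex_mono (by omega : w + 1 ≤ wt α + 1) (sub_mem
      (Ex_mul0' hT hO hC c (Ex_mul0 hT hO hC (sub_mem (Ex_one hT hO hC) p) (Ex_op hT hO hf)))
      (Ex_mul0' hT hO hC (Ex_E hT hO hC α) (Ex_mul0 hT hO hC p (Ex_op hT hO hf))))

lemma extract {N : ℕ} {T : Fm} (h : T ∈ NFm N) : ∃ l : List (List ℕ × Sy), (∀ p ∈ l, p.2 ∈ Wa) ∧
    ∃ R ∈ Sm N, T = (l.map fun p => ms p.1 * (pF * PF * op p.2 * PF * pF)).sum +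
      pF * PF * R * PF * pF := by
  induction h using Submodule.span_induction with
  | mem T h =>
    rcases h with ⟨α, f, hf, rfl⟩ | ⟨R, hR, rfl⟩
    · exact ⟨[(α, f)], by simpa using hf, 0, zero_mem _, by simp⟩
    · exact ⟨[], by simp, R, hR, by simp⟩
  | zero => exact ⟨[], by simp, 0, zero_mem _, by simp⟩
  | add S T _ _ hS hT' =>
    obtain ⟨l, h1, R, h2, rfl⟩ := hS
    obtain ⟨l', h3, R', h4, rfl⟩ := hT'
    refine ⟨l ++ l', fun p hp => (List.mem_append.1 hp).elim (h1 p) (h3 p), R + R',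
      add_mem h2 h4, ?_⟩
    rw [List.map_append, List.sum_append, mul_add, add_mul, add_mul]
    abel
  | smul c T _ hT' =>
    obtain ⟨l, h1, R, h2, rfl⟩ := hT'
    refine ⟨l.map fun p => (p.1, c • p.2), fun p hp => ?_, c • R, Submodule.smul_mem _ _ h2, ?_⟩
    · obtain ⟨q, hq, rfl⟩ := List.mem_map.1 hp
      exact Wa.smul_mem (h1 q hq) c
    · rw [smul_add, List.smul_sum, List.map_map, List.map_map]
      refine congrArg₂ _ (congrArg _ (List.map_congr_left fun p hp => ?_)) ?_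
      · simp only [Function.comp_apply, op_smul hT hO (h1 p hp), mul_smul_comm, smul_mul_assoc]
      · simp only [mul_smul_comm, smul_mul_assoc]

end NF

open NF in
theorem st_nf (_hFIB : St_FIB) (hTAY : St_TAY) (hOP : St_OP) (hCOM : St_COM) : St_NF := by
  intro N
  choose Z h1 h2 h3 using exists_Z
  have p := Ex_P (N := N) hTAY hOP hCOM
  have hZ : Z ∈ Ex N 0 := Ex_inv hTAY hOP hCOM (B := -(PF * AF * PF))
    (neg_mem (Ex_mul0' hTAY hOP hCOM (Ex_mul0 hTAY hOP hCOM p (Ex_A hTAY hOP hCOM)) p))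
    (Sm_of_le h1) (by rw [sub_neg_eq_add]; exact funext h2)
  obtain ⟨l, hl, R, ⟨N', q, hR⟩, e⟩ :=
    extract hTAY hOP hCOM (normal hTAY hOP hCOM N 0 (by omega) Z hZ)
  refine ⟨l, N', q, hl, fun K => ?_⟩
  obtain ⟨C, hR⟩ := hR K
  refine ⟨C, fun L δ μ κ h => ?_⟩
  let x : Par := ⟨L, δ, μ, κ, K, Adk_mono h (Nat.zero_le _)⟩
  refine ⟨R x, hR x h, (h3 x).trans ?_⟩
  have := congrFun e x
  rw [← mul_assoc] at this
  refine this.trans ?_
  rw [Pi.add_apply, ← Pi.evalRingHom_apply _ x (List.sum _), map_list_sum, List.map_map]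
  refine congrArg₂ _ (congrArg _ (List.map_congr_left fun p _ => ?_)) rfl
  simp only [Function.comp_apply, Pi.evalRingHom_apply, Pi.mul_apply, ms_apply, smul_mul_assoc]
  rfl

end Pool.Agent.Lib.ISO
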