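import Pool.Agent.Lib.ISO.BlueV

/-! Existence of the Green operator and of the harmonic functions of `-u'' + q u`. -/

open scoped ContDiff Topology NNReal
open MeasureTheory Set Filter Metric

noncomputable section

namespace Pool.Agent.Lib.ISO

namespace OdeB

/-- the equation of the Pruefer angle -/
def vf (q : ℝ → ℝ) (t θ : ℝ) : ℝ := Real.cos θ ^ 2 - q t * Real.sin θ ^ 2

theorem vf_lip {q : ℝ → ℝ} {t : ℝ} {M : ℝ≥0} (h : |q t| ≤ M) :
    LipschitzWith (2 * (1 + M)) (vf q t) := by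
  have hd : ∀ θ, HasDerivAt (vf q t)
      (-(2 * (1 + q t) * (Real.sin θ * Real.cos θ))) θ := fun θ => by
    refine (((Real.hasDerivAt_cos θ).pow 2).sub
      (((Real.hasDerivAt_sin θ).pow 2).const_mul (q t))).congr_deriv ?_
    simp only [Nat.cast_ofNat, Nat.add_one_sub_one, pow_one]
    ring
  refine lipschitzWith_of_nnnorm_deriv_le (fun θ => (hd θ).differentiableAt) fun θ => ?_
  rw [(hd θ).deriv, ← NNReal.coe_le_coe, coe_nnnorm, norm_neg, Real.norm_eq_abs, abs_mul, abs_mul,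
    abs_mul]
  push_cast
  have h1 := Real.abs_sin_le_one θ
  have h2 := Real.abs_cos_le_one θ
  have h3 : |1 + q t| ≤ 1 + M := (abs_add_le _ _).trans (by rw [abs_one]; linarith)
  have h4 : |Real.sin θ| * |Real.cos θ| ≤ 1 := mul_le_one₀ h1 (abs_nonneg _) h2
  rw [abs_two]
  calc 2 * |1 + q t| * (|Real.sin θ| * |Real.cos θ|) ≤ 2 * (1 + M) * 1 := by gcongr
    _ = _ := mul_one _

theorem vf_le {q : ℝ → ℝ} {t : ℝ} {M : ℝ≥0} (h : |q t| ≤ M) (θ : ℝ) : ‖vf q t θ‖ ≤ 1 + M := by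
  rw [Real.norm_eq_abs, vf]
  refine (abs_sub _ _).trans (add_le_add ?_ ?_)
  · rw [abs_of_nonneg (sq_nonneg _)]; exact Real.cos_sq_le_one θ
  · rw [abs_mul, abs_of_nonneg (sq_nonneg (Real.sin θ))]
    calc |q t| * Real.sin θ ^ 2 ≤ M * 1 := by
          gcongr
          exact Real.sin_sq_le_one θ
      _ = _ := mul_one _

theorem angle {q : ℝ → ℝ} (hq : Continuous q) (z : ℝ) :
    ∃ θ : ℝ → ℝ, θ 0 = z ∧ ∀ t, HasDerivAt θ (vf q t (θ t)) t := by
  have bd : ∀ n : ℕ, ∃ M : ℝ≥0, ∀ t ∈ Icc (-(n + 1 : ℝ)) (n + 1), |q t| ≤ M := by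
    intro n
    obtain ⟨C, hC⟩ := (isCompact_Icc (a := -(n + 1 : ℝ)) (b := n + 1)).exists_bound_of_continuousOn
      hq.continuousOn
    exact ⟨⟨|C|, abs_nonneg C⟩, fun t ht => (hC t ht).trans (le_abs_self C)⟩
  choose M hM using bd
  have loc : ∀ n : ℕ, ∃ α : ℝ → ℝ, α 0 = z ∧
      ∀ t ∈ Ioo (-(n + 1 : ℝ)) (n + 1), HasDerivAt α (vf q t (α t)) t := by
    intro n
    have h0 : (0 : ℝ) ∈ Icc (-(n + 1 : ℝ)) (n + 1) := ⟨neg_nonpos.2 (by positivity), by positivity⟩
    have hp : IsPicardLindelof (vf q) (⟨0, h0⟩ : Icc (-(n + 1 : ℝ)) (n + 1)) z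
        ((1 + M n) * (n + 1)) 0 (1 + M n) (2 * (1 + M n)) := by
      refine ⟨fun t ht => (vf_lip (hM n t ht)).lipschitzOnWith, fun x _ => ?_,
        fun t ht x _ => by exact_mod_cast vf_le (hM n t ht) x, by simp⟩
      exact (continuous_const.sub (hq.mul continuous_const)).continuousOn
    obtain ⟨α, a1, a2⟩ := hp.exists_eq_forall_mem_Icc_hasDerivWithinAt₀
    exact ⟨α, a1, fun t ht => (a2 t (Ioo_subset_Icc_self ht)).hasDerivAt (Icc_mem_nhds ht.1 ht.2)⟩
  choose α a1 a2 using loc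
  have agree : ∀ n m : ℕ, n ≤ m → EqOn (α n) (α m) (Ioo (-(n + 1 : ℝ)) (n + 1)) := by
    intro n m hnm
    have : (n : ℝ) ≤ m := by exact_mod_cast hnm
    exact ODE_solution_unique_of_mem_Ioo (v := vf q) (s := fun _ => univ) (t₀ := 0)
      (fun t ht => (vf_lip (hM n t (Ioo_subset_Icc_self ht))).lipschitzOnWith)
      ⟨neg_lt_zero.2 (by positivity), by positivity⟩
      (fun t ht => ⟨a2 n t ht, trivial⟩)
      (fun t ht => ⟨a2 m t ⟨by linarith [ht.1], by linarith [ht.2]⟩, trivial⟩) (by rw [a1, a1])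
  have mem : ∀ t : ℝ, t ∈ Ioo (-(⌈|t|⌉₊ + 1 : ℝ)) (⌈|t|⌉₊ + 1) := fun t => by
    have := abs_le.1 (Nat.le_ceil |t|)
    constructor <;> linarith [this.1, this.2]
  refine ⟨fun t => α ⌈|t|⌉₊ t, a1 _, fun t => ?_⟩
  have ev : (fun t => α ⌈|t|⌉₊ t) =ᶠ[𝓝 t] α (⌈|t|⌉₊ + 1) := by
    filter_upwards [ball_mem_nhds t one_pos] with s hs
    refine agree _ _ (Nat.ceil_le.2 ?_) (mem s)
    have := Nat.le_ceil |t|
    have := abs_sub_abs_le_abs_sub s t
    rw [mem_ball, Real.dist_eq] at hs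
    push_cast; linarith
  have := mem t
  refine HasDerivAt.congr_of_eventuallyEq ?_ ev
  simp only [show α ⌈|t|⌉₊ t = _ from ev.eq_of_nhds]
  exact a2 _ t ⟨by push_cast; linarith [this.1], by push_cast; linarith [this.2]⟩

/-- global solution of the linear system -/
structure Sl (q y z : ℝ → ℝ) : Prop where
  dy : ∀ t, HasDerivAt y (z t) t
  dz : ∀ t, HasDerivAt z (q t * y t) t

theorem exists_sl {q : ℝ → ℝ} (hq : Continuous q) (a : ℝ) :
    ∃ y z, Sl q y z ∧ y 0 = Real.sin a ∧ z 0 = Real.cos a := by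
  obtain ⟨θ, h0, hθ⟩ := angle hq a
  have cθ : Continuous θ := continuous_iff_continuousAt.2 fun t => (hθ t).continuousAt
  have cw : Continuous fun t => (1 + q t) * (Real.sin (θ t) * Real.cos (θ t)) := by fun_prop
  have hρ : ∀ t, HasDerivAt (fun x => ∫ s in (0 : ℝ)..x,
      (1 + q s) * (Real.sin (θ s) * Real.cos (θ s)))
      ((1 + q t) * (Real.sin (θ t) * Real.cos (θ t))) t := fun t =>
    (cw.integral_hasStrictDerivAt 0 t).hasDerivAt
  refine ⟨fun x => Real.exp (∫ s in (0 : ℝ)..x, (1 + q s) * (Real.sin (θ s) * Real.cos (θ s))) *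
    Real.sin (θ x), fun x => Real.exp (∫ s in (0 : ℝ)..x,
      (1 + q s) * (Real.sin (θ s) * Real.cos (θ s))) * Real.cos (θ x), ⟨fun t => ?_, fun t => ?_⟩,
    by simp [h0], by simp [h0]⟩
  · refine ((hρ t).exp.mul (hθ t).sin).congr_deriv ?_
    simp only [vf]
    linear_combination (Real.exp (∫ s in (0 : ℝ)..t,
      (1 + q s) * (Real.sin (θ s) * Real.cos (θ s))) * Real.cos (θ t)) *
        Real.sin_sq_add_cos_sq (θ t)
  · refine ((hρ t).exp.mul (hθ t).cos).congr_deriv ?_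
    simp only [vf]
    linear_combination (Real.exp (∫ s in (0 : ℝ)..t,
      (1 + q s) * (Real.sin (θ s) * Real.cos (θ s))) * (q t * Real.sin (θ t))) *
        Real.sin_sq_add_cos_sq (θ t)

theorem Sl.smooth {q y z : ℝ → ℝ} (h : Sl q y z) (hq : ContDiff ℝ ∞ q) : ContDiff ℝ ∞ y := by
  have e1 : deriv y = z := funext fun t => (h.dy t).deriv
  have e2 : deriv z = fun t => q t * y t := funext fun t => (h.dz t).deriv
  have key : ∀ n : ℕ, ContDiff ℝ n y ∧ ContDiff ℝ n z := by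
    intro n
    induction n with
    | zero =>
      exact ⟨contDiff_zero.2 (continuous_iff_continuousAt.2 fun t => (h.dy t).continuousAt),
        contDiff_zero.2 (continuous_iff_continuousAt.2 fun t => (h.dz t).continuousAt)⟩
    | succ n ih =>
      push_cast
      refine ⟨contDiff_succ_iff_deriv.2 ⟨fun t => (h.dy t).differentiableAt, by simp, ?_⟩,
        contDiff_succ_iff_deriv.2 ⟨fun t => (h.dz t).differentiableAt, by simp, ?_⟩⟩
      · rw [e1]; exact ih.2
      · rw [e2]; exact (contDiff_infty.1 hq n).mul ih.1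
  exact contDiff_infty.2 fun n => (key n).1

theorem dd {F : Type} [NormedAddCommGroup F] [NormedSpace ℝ F] {u u1 : ℝ → F} {w : F} {x : ℝ}
    (h1 : ∀ t, HasDerivAt u (u1 t) t) (h2 : HasDerivAt u1 w x) : deriv (deriv u) x = w := by
  rw [show deriv u = u1 from funext fun t => (h1 t).deriv, h2.deriv]

theorem prim_smooth {f : ℝ → ℂ} (hf : ContDiff ℝ ∞ f) :
    ContDiff ℝ ∞ fun x => ∫ s in (0 : ℝ)..x, f s := by
  have hd : ∀ t, HasDerivAt (fun x => ∫ s in (0 : ℝ)..x, f s) (f t) t := fun t =>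
    (hf.continuous.integral_hasStrictDerivAt 0 t).hasDerivAt
  refine contDiff_infty_iff_deriv.2 ⟨fun t => (hd t).differentiableAt, ?_⟩
  rw [show deriv (fun x => ∫ s in (0 : ℝ)..x, f s) = f from funext fun t => (hd t).deriv]
  exact hf

/-- variation of constants -/
def pp (s c : ℝ → ℝ) (f : ℝ → ℂ) (x : ℝ) : ℂ :=
  (c x : ℂ) * (∫ t in (0 : ℝ)..x, (s t : ℂ) * f t) - (s x : ℂ) * ∫ t in (0 : ℝ)..x, (c t : ℂ) * f t

end OdeB

open OdeB in
theorem st_ode : St_ODE := by
  intro q δ hδ hq hpos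
  obtain ⟨s, s', hs, s0, s0'⟩ := exists_sl hq.continuous 0
  obtain ⟨c, c', hc, c0, c0'⟩ := exists_sl hq.continuous (Real.pi / 2)
  rw [Real.sin_zero] at s0
  rw [Real.cos_zero] at s0'
  rw [Real.sin_pi_div_two] at c0
  rw [Real.cos_pi_div_two] at c0'
  have hW : ∀ t, c t * s' t - c' t * s t = 1 := by
    have hd : ∀ t, HasDerivAt (fun t => c t * s' t - c' t * s t) 0 t := fun t =>
      (((hc.dy t).mul (hs.dz t)).sub ((hc.dz t).mul (hs.dy t))).congr_deriv (by ring)
    intro t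
    rw [is_const_of_deriv_eq_zero (fun t => (hd t).differentiableAt) (fun t => (hd t).deriv) t 0,
      s0, s0', c0, c0']
    norm_num
  have hne : s δ ≠ 0 := by
    intro h
    have hd : ∀ t, HasDerivAt (fun t => s t * s' t) (s' t ^ 2 + q t * s t ^ 2) t := fun t =>
      ((hs.dy t).mul (hs.dz t)).congr_deriv (by ring)
    obtain ⟨x, hx, h0⟩ := exists_hasDerivAt_eq_zero hδ (f := fun t => s t * s' t)
      (fun t _ => (hd t).continuousAt.continuousWithinAt) (by simp only [s0, h, zero_mul])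
      (fun t _ => hd t)
    have h1 := hpos x ⟨hx.1.le, hx.2.le⟩
    have h2 : 0 ≤ q x * s x ^ 2 := mul_nonneg h1.le (sq_nonneg _)
    have h3 : s' x = 0 := pow_eq_zero_iff (n := 2) (by norm_num) |>.1 (by nlinarith [sq_nonneg (s' x)])
    have h4 : s x = 0 := by
      rw [h3] at h0
      have : q x * s x ^ 2 = 0 := by linarith
      exact pow_eq_zero_iff (n := 2) (by norm_num) |>.1 ((mul_eq_zero.1 this).resolve_left h1.ne')
    have := hW x
    rw [h3, h4] at this
    norm_num at this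
  have ss := hs.smooth hq
  have sc := hc.smooth hq
  have ssC : ContDiff ℝ ∞ fun x => (s x : ℂ) := Complex.ofRealCLM.contDiff.comp ss
  have scC : ContDiff ℝ ∞ fun x => (c x : ℂ) := Complex.ofRealCLM.contDiff.comp sc
  have hneC : (s δ : ℂ) ≠ 0 := Complex.ofReal_ne_zero.2 hne
  refine ⟨⟨fun f x => pp s c f x - pp s c f δ / s δ * s x, fun x => c x - c δ / s δ * s x,
    fun x => (s δ)⁻¹ * s x⟩, ?_, ?_, ?_, ?_, ?_, ?_, ?_, ?_, ?_, ?_, ?_, ?_⟩
  · intro f hf
    exact ((scC.mul (prim_smooth (ssC.mul hf))).sub (ssC.mul (prim_smooth (scC.mul hf)))).sub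
      (contDiff_const.mul ssC)
  · intro f _
    simp [pp, s0]
  · intro f _
    show pp s c f δ - pp s c f δ / s δ * s δ = 0
    field_simp
    ring
  · intro f hf x _
    have i1 : ∀ t, HasDerivAt (fun x => ∫ t in (0 : ℝ)..x, (s t : ℂ) * f t) (s t * f t) t :=
      fun t => ((ssC.mul hf).continuous.integral_hasStrictDerivAt 0 t).hasDerivAt
    have i2 : ∀ t, HasDerivAt (fun x => ∫ t in (0 : ℝ)..x, (c t : ℂ) * f t) (c t * f t) t :=
      fun t => ((scC.mul hf).continuous.integral_hasStrictDerivAt 0 t).hasDerivAt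
    refine dd (u1 := fun x => (c' x : ℂ) * (∫ t in (0 : ℝ)..x, (s t : ℂ) * f t) -
      (s' x : ℂ) * (∫ t in (0 : ℝ)..x, (c t : ℂ) * f t) - pp s c f δ / s δ * s' x)
      (fun t => ?_) ?_
    · refine ((((hc.dy t).ofReal_comp.mul (i1 t)).sub ((hs.dy t).ofReal_comp.mul (i2 t))).sub
        ((hs.dy t).ofReal_comp.const_mul _)).congr_deriv ?_
      ring
    · refine ((((hc.dz x).ofReal_comp.mul (i1 x)).sub ((hs.dz x).ofReal_comp.mul (i2 x))).sub
        ((hs.dz x).ofReal_comp.const_mul _)).congr_deriv ?_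
      have hw : (c x : ℂ) * s' x - c' x * s x = 1 := by exact_mod_cast hW x
      simp only [pp]
      push_cast
      linear_combination (-f x) * hw
  · exact sc.sub (contDiff_const.mul ss)
  · exact contDiff_const.mul ss
  · simp [s0, c0]
  · show c δ - c δ / s δ * s δ = 0
    field_simp
    ring
  · simp [s0]
  · exact inv_mul_cancel₀ hne
  · intro x _
    refine dd (u1 := fun x => c' x - c δ / s δ * s' x)
      (fun t => (hc.dy t).sub ((hs.dy t).const_mul _)) ?_
    exact ((hc.dz x).sub ((hs.dz x).const_mul _)).congr_deriv (by ring)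
  · intro x _
    refine dd (u1 := fun x => (s δ)⁻¹ * s' x) (fun t => (hs.dy t).const_mul _) ?_
    exact ((hs.dz x).const_mul _).congr_deriv (by ring)

end Pool.Agent.Lib.ISO
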