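import Pool.Agent.Lib.ISO.B_OP1

open scoped InnerProductSpace ENNReal ContDiff ComplexConjugate Topology
open MeasureTheory Complex Set Filter

noncomputable section

namespace Pool.Agent.Lib.ISO

open Pool.Agent.Lib.MP_312682_mp

namespace OP

variable {L δ μ : ℝ}

lemma comp_zero (hL : 0 < L) (hδ : 0 < δ) {w : L2 (nu L δ)}
    (h : ∀ n y, ⟪io L δ n y, w⟫_ℂ = 0) (M : Mat) : p0 (nu L δ) (mm (nu L δ) (fun _ => M) w) = 0 := by
  refine nsq_eq_zero ?_
  rw [pars_fr hL hδ]
  have key : ∀ i : ℤ × ℤ, ⟪fr L δ i, mm (nu L δ) (fun _ => M) w⟫_ℂ = 0 := fun i => by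
    have h1 := DFunLike.congr_fun (mm_io hL hδ (M := fun _ => star M) i.1 continuous_const) (f1 i.2)
    rw [ContinuousLinearMap.comp_apply, ContinuousLinearMap.comp_apply, io_f1 hL hδ] at h1
    rw [← ContinuousLinearMap.adjoint_inner_left, ← ContinuousLinearMap.star_eq_adjoint,
      mm_star (Bd.const M), h1, h]
  simp only [key, nsq_zero, tsum_zero]

lemma total (hL : 0 < L) (hδ : 0 < δ) {w : L2 (nu L δ)}
    (h : ∀ n y, ⟪io L δ n y, w⟫_ℂ = 0) : w = 0 := by
  have k : ∀ M : Mat, ∀ᵐ z ∂nu L δ, act M (w z) 0 = 0 := fun M => by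
    have h1 := p0_coe (mm (nu L δ) (fun _ => M) w)
    rw [comp_zero hL hδ h M] at h1
    filter_upwards [h1, mm_coe (Bd.const M) w, Lp.coeFn_zero E3 2 (nu L δ)] with z h2 h3 h4
    rw [h4, h3] at h2
    have := congrArg (fun v : E3 => v 0) h2
    simpa using this.symm
  refine Lp.ext ?_
  filter_upwards [k !![1, 0, 0; 0, 0, 0; 0, 0, 0], k !![0, 1, 0; 0, 0, 0; 0, 0, 0],
    k !![0, 0, 1; 0, 0, 0; 0, 0, 0], Lp.coeFn_zero E3 2 (nu L δ)] with z h0 h1 h2 h3
  rw [act_apply] at h0 h1 h2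
  rw [h3]
  refine E3_ext ?_ ?_ ?_
  · simpa using h0
  · simpa using h1
  · simpa using h2

lemma uniq (hL : 0 < L) (hδ : 0 < δ) (T T' : L2 (nu L δ) →L[ℂ] L2 (nu L δ))
    (h : ∀ n, T ∘L io L δ n = T' ∘L io L δ n) : T = T' := by
  have h1 : ContinuousLinearMap.adjoint (T - T') = 0 := by
    refine ContinuousLinearMap.ext fun v => total hL hδ fun n y => ?_
    have h2 := DFunLike.congr_fun (h n) y
    rw [ContinuousLinearMap.comp_apply, ContinuousLinearMap.comp_apply] at h2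
    rw [ContinuousLinearMap.adjoint_inner_right, sub_apply, h2, sub_self,
      inner_zero_left]
  rw [← sub_eq_zero, ← ContinuousLinearMap.adjoint_adjoint (T - T'), h1, map_zero]

lemma op_spec (hL : 0 < L) (hδ : 0 < δ) (f : ℤ → Y →L[ℂ] Y) (c : ℝ) (hf : ∀ n, ‖f n‖ ≤ c) :
    ‖Op L δ f‖ ≤ c ∧ ∀ n, Op L δ f ∘L io L δ n = io L δ n ∘L f n := by
  have hc : 0 ≤ c := (norm_nonneg _).trans (hf 0)
  let V : ℤ → Y →ₗᵢ[ℂ] L2 (nu L δ) := fun n =>
    LinearMap.isometryOfInner (io L δ n : Y →ₗ[ℂ] L2 (nu L δ)) (inner_io hL hδ n)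
  have hV : IsHilbertSum ℂ (fun _ : ℤ => Y) V := by
    refine IsHilbertSum.mk (fun n m h y y' => inner_io0 hL hδ h y y') (Eq.ge ?_)
    rw [Submodule.topologicalClosure_eq_top_iff, Submodule.eq_bot_iff]
    intro w hw
    exact total hL hδ fun n y => Submodule.inner_right_of_mem_orthogonal
      (Submodule.mem_iSup_of_mem n (LinearMap.mem_range_self (V n).toLinearMap y)) hw
  let e := hV.linearIsometryEquiv
  let A := lp.mapCLM (E := fun _ : ℤ => Y) (F := fun _ : ℤ => Y) 2 f hc hf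
  let T : L2 (nu L δ) →L[ℂ] L2 (nu L δ) :=
    e.symm.toLinearIsometry.toContinuousLinearMap ∘L A ∘L e.toLinearIsometry.toContinuousLinearMap
  have hT : ∀ n, T ∘L io L δ n = io L δ n ∘L f n := fun n => by
    refine ContinuousLinearMap.ext fun y => ?_
    have h1 : e (io L δ n y) = lp.single 2 n y := by
      rw [← LinearIsometryEquiv.eq_symm_apply]
      exact (hV.linearIsometryEquiv_symm_apply_single y).symm
    have h2 : A (lp.single 2 n y) = lp.single 2 n (f n y) := by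
      refine lp.ext (funext fun m => ?_)
      change f m ((lp.single (E := fun _ : ℤ => Y) 2 n y) m) = _
      by_cases hm : m = n
      · subst hm
        rw [lp.single_apply_self, lp.single_apply_self]
      · rw [lp.single_apply_ne _ _ _ hm, lp.single_apply_ne _ _ _ hm, map_zero]
    change e.symm (A (e (io L δ n y))) = io L δ n (f n y)
    rw [h1, h2]
    exact hV.linearIsometryEquiv_symm_apply_single (f n y)
  have hex : ∃ T : L2 (nu L δ) →L[ℂ] L2 (nu L δ), ∀ n, T ∘L io L δ n = io L δ n ∘L f n := ⟨T, hT⟩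
  have hO : ∀ n, Op L δ f ∘L io L δ n = io L δ n ∘L f n := by
    rw [Op, dif_pos hex]
    exact hex.choose_spec
  refine ⟨?_, hO⟩
  rw [uniq hL hδ _ T fun n => (hO n).trans (hT n).symm]
  refine ContinuousLinearMap.opNorm_le_bound _ hc fun w => ?_
  change ‖e.symm (A (e w))‖ ≤ _
  rw [LinearIsometryEquiv.norm_map, ← e.norm_map w]
  exact A.le_of_opNorm_le (lp.norm_mapCLM_le 2 f hc hf) _

lemma PK_tv3 (hL : 0 < L) (hδ : 0 < δ) (n : ℤ) {a b c c' U U' : ℝ → ℂ} (ha : ContDiff ℝ ∞ a)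
    (hb : ContDiff ℝ ∞ b) (hc : ContDiff ℝ ∞ c) (s1 : ContDiff ℝ ∞ U)
    (dc : ∀ x, HasDerivAt c (c' x) x) (d1U : ∀ x, HasDerivAt U (U' x) x)
    (d2U : ∀ x, HasDerivAt U' ((xi L n ^ 2 + μ ^ 2) * U x - (μ * a x - I * xi L n * b x - c' x)) x)
    (h0 : U 0 = 0) (h1 : U δ = 0) :
    PK L δ μ (tv L δ n a b c) =
      tv L δ n (fun x => μ * U x) (fun x => I * xi L n * U x) U' := by
  have s2 : ContDiff ℝ ∞ U' := by
    have : U' = deriv U := funext fun x => (d1U x).deriv.symm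
    rw [this]; exact (contDiff_infty_iff_deriv.1 s1).2
  have se : ContDiff ℝ ∞ fun z : ℂ => ex L n z.re := (contDiff_ex L n).comp contDiff_re'
  have su : ContDiff ℝ ∞ fun z : ℂ => ex L n z.re * U z.im := se.mul (s1.comp contDiff_im')
  have c0 := s1.continuous
  have hw : tv L δ n (fun x => μ * U x) (fun x => I * xi L n * U x) U' =
      DL (nu L δ) μ fun z => ex L n z.re * U z.im := by
    rw [tv, DL]
    congr 1
    ext1 z
    have := d_ten (hd_ex L n z.re) (d1U z.im)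
    refine E3_ext ?_ ?_ ?_
    · simp; ring
    · simp [this.1, xi]; ring
    · simp [this.2]
  refine PC_eq ?_ ?_
  · rw [hw]
    refine mem_cyl_cl hδ μ su (fun z => by simp [ex_periodic hL]) fun z hz => ?_
    rcases hz with hz | hz <;> simp [hz, h0, h1]
  · rintro _ ⟨φ, hφ, rfl⟩
    obtain ⟨p1, p2, ε, hε, p3⟩ := hφ
    rw [inner_eq_zero_symm, L2.inner_def]
    have sc := contDiff_conj' p1
    have sb : ContDiff ℝ ∞ fun x => b x - I * xi L n * U x := by fun_prop
    have sd : ContDiff ℝ ∞ fun x => U' x - c x := s2.sub hc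
    have sG1 : ContDiff ℝ ∞ fun z : ℂ => ex L n z.re * (b z.im - I * xi L n * U z.im) :=
      se.mul (sb.comp contDiff_im')
    have sG2 : ContDiff ℝ ∞ fun z : ℂ => ex L n z.re * (U' z.im - c z.im) :=
      se.mul (sd.comp contDiff_im')
    have sF1 := sc.mul sG1
    have sF2 := sc.mul sG2
    have i1 := ibp1 hL.le hδ.le (fun z _ => (sF1.of_le (by simp)).contDiffAt)
      (fun z => by simp [p2, ex_periodic hL])
    have i2 := ibp2 hL.le hδ.le (fun z _ => (sF2.of_le (by simp)).contDiffAt)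
      (fun z hz => by
        rw [p3 z (by rcases hz with hz | hz; exacts [Or.inl (by linarith), Or.inr (by linarith)])]
        simp)
    rw [← sub_zero (0 : ℂ)]
    nth_rw 1 [← i1]
    rw [← i2, ← integral_sub (integrable_rect fun _ _ => (continuous_d1 sF1).continuousAt)
      (integrable_rect fun _ _ => (continuous_d2 sF2).continuousAt)]
    refine integral_congr_ae ?_
    filter_upwards [tl_coe (memLp_Dv_rect (L := L) (δ := δ) μ p1), Lp.coeFn_sub (tv L δ n a b c)
      (tv L δ n (fun x => μ * U x) (fun x => I * xi L n * U x) U'),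
      tv_coe (L := L) (δ := δ) n ha.continuous hb.continuous hc.continuous,
      tv_coe (L := L) (δ := δ) n (a := fun x => μ * U x) (b := fun x => I * xi L n * U x)
        (by fun_prop) (by fun_prop) s2.continuous] with z e1 e2 e3 e4
    rw [DL, e1, e2, Pi.sub_apply, e3, e4, inner_E3,
      d1_mul (sc.differentiable (by simp) z) (sG1.differentiable (by simp) z),
      d2_mul (sc.differentiable (by simp) z) (sG2.differentiable (by simp) z),
      (d_conj (p1.differentiable (by simp) z)).1, (d_conj (p1.differentiable (by simp) z)).2,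
      (d_ten (hd_ex L n z.re) (sb.differentiable (by simp) z.im).hasDerivAt).1,
      (d_ten (b := fun x => U' x - c x) (hd_ex L n z.re) ((d2U z.im).sub (dc z.im))).2]
    simp only [Dv_0, Dv_1, Dv_2, PiLp.sub_apply, PiLp.smul_apply,
      Matrix.cons_val_zero, Matrix.cons_val_one, Matrix.cons_val, smul_eq_mul, map_mul,
      conj_ofReal, xi]
    push_cast
    ring_nf
    simp only [I_sq]
    ring

lemma hd_sc (k : ℂ) {g : ℝ → ℂ} {g' : ℂ} {x : ℝ} (h : HasDerivAt g g' (x / δ)) :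
    HasDerivAt (fun x => k * g (x / δ)) (k * ((δ : ℂ)⁻¹ * g')) x := by
  have h1 := (h.scomp x ((hasDerivAt_id x).div_const δ)).const_mul k
  have e : (1 / δ) • g' = (δ : ℂ)⁻¹ * g' := by
    rw [real_smul]
    push_cast
    rw [one_div]
  rw [e] at h1
  exact h1

lemma PK_io (hF : St_FIB) (hL : 0 < L) (hδ : 0 < δ) (hμ : 0 < μ) (n : ℤ) :
    PK L δ μ ∘L io L δ n = io L δ n ∘L P1 (μ * δ) (xi L n / μ) := by
  refine DFunLike.coe_injective (Continuous.ext_on hF.2.2.2.2.1 (ContinuousLinearMap.continuous _)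
    (ContinuousLinearMap.continuous _) ?_)
  rintro _ ⟨a, b, c, ha, hb, hc, rfl⟩
  have hD : 0 < μ * δ := mul_pos hμ hδ
  have hδ' : (δ : ℂ) ≠ 0 := ofReal_ne_zero.2 hδ.ne'
  have hμ' : (μ : ℂ) ≠ 0 := ofReal_ne_zero.2 hμ.ne'
  have hc1 : ContDiff ℝ ∞ (deriv c) := (contDiff_infty_iff_deriv.1 hc).2
  set F : ℝ → ℂ := fun r => (μ * δ : ℝ) * a r - I * (μ * δ * (xi L n / μ) : ℝ) * b r - deriv c r
    with hFd
  have sF : ContDiff ℝ ∞ F := by fun_prop
  set Λ : ℝ := μ * δ * √(1 + (xi L n / μ) ^ 2) with hΛ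
  have hΛ0 : 0 < Λ := by positivity
  have hΛ2 : Λ ^ 2 = δ ^ 2 * (xi L n ^ 2 + μ ^ 2) := by
    rw [hΛ, mul_pow, Real.sq_sqrt (by positivity)]
    field_simp
    ring
  have s1 : ContDiff ℝ ∞ (Sol Λ 1 F) := contDiff_Sol sF
  have c1 := s1.continuous
  have sd : ContDiff ℝ ∞ fun x : ℝ => x / δ := contDiff_id.div_const δ
  set k : ℂ := ((√δ : ℝ) : ℂ)⁻¹ with hk
  have h1 := PK_tv3 (μ := μ) hL hδ n (a := fun x => k * a (x / δ)) (b := fun x => k * b (x / δ))
    (c := fun x => k * c (x / δ)) (c' := fun x => k * ((δ : ℂ)⁻¹ * deriv c (x / δ)))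
    (U := fun x => (k * δ) * Sol Λ 1 F (x / δ)) (U' := fun x => k * Sol' Λ 1 F (x / δ))
    (contDiff_const.mul (ha.comp sd)) (contDiff_const.mul (hb.comp sd))
    (contDiff_const.mul (hc.comp sd)) (contDiff_const.mul (s1.comp sd))
    (fun x => hd_sc k (hc.differentiable (by simp) _).hasDerivAt)
    (fun x => (hd_sc (k * δ) (hd_Sol sF.continuous _)).congr_deriv (by field_simp))
    (fun x => (hd_sc k (hd_Sol' hΛ0 one_pos sF.continuous _)).congr_deriv (by
      rw [hΛ2, real_smul, hFd]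
      push_cast
      field_simp))
    (by simp [Sol_zero]) (by simp [div_self hδ.ne', Sol_end])
  change PK L δ μ (io L δ n (t1 a b c)) = io L δ n (P1 (μ * δ) (xi L n / μ) (t1 a b c))
  rw [hF.2.2.2.1 _ _ a b c F hD ha hb hc fun _ => rfl,
    io_t1 hL hδ n ha.continuous hb.continuous hc.continuous (fun _ => rfl) (fun _ => rfl)
      fun _ => rfl, h1]
  refine (io_t1 hL hδ n (by fun_prop) (by fun_prop) (continuous_Sol' hΛ0 one_pos sF.continuous)
    (fun x => ?_) (fun x => ?_) fun _ => rfl).symm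
  · push_cast
    ring
  · have e : μ * δ * (xi L n / μ) = δ * xi L n := by field_simp
    rw [e]
    push_cast
    ring

end OP

open OP in
theorem st_op (hFIB : St_FIB) : St_OP := fun _ _ hL hδ =>
  ⟨uniq hL hδ, op_spec hL hδ, fun _ n hμ => PK_io hFIB hL hδ hμ n, fun _ n hM => mm_io hL hδ n hM,
    sm_io hL hδ, fun _ _ n y y' ha ha' => inner_sms hL hδ n y y' ha ha', io_f1 hL hδ⟩

end Pool.Agent.Lib.ISO
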