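import Pool.Agent.Lib.ISO.BlueK

/-! Block OPEN: the curvature of a smooth Jordan curve is smooth and periodic, and the marker
condition is open. -/

open scoped ContDiff ComplexConjugate
open Complex Filter Topology

noncomputable section

namespace Pool.Agent.Lib.ISO

namespace OPEN

section chain

variable {E : Type} [NormedAddCommGroup E] [NormedSpace ℝ E] {F : ℕ → ℝ → E}

theorem chain_it (h : ∀ n t, HasDerivAt (F n) (F (n + 1) t) t) (n m : ℕ) :
    iteratedDeriv n (F m) = F (m + n) := by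
  induction n with
  | zero => rw [iteratedDeriv_zero, Nat.add_zero]
  | succ n ih =>
    rw [iteratedDeriv_succ, ih]
    exact funext fun t => (h (m + n) t).deriv

theorem chain_sm (h : ∀ n t, HasDerivAt (F n) (F (n + 1) t) t) (m : ℕ) : ContDiff ℝ ∞ (F m) :=
  contDiff_of_differentiable_iteratedDeriv fun n _ => by
    rw [chain_it h]
    exact fun t => (h _ t).differentiableAt

theorem chain_per (h : ∀ n t, HasDerivAt (F n) (F (n + 1) t) t) {c : ℝ}
    (hp : Function.Periodic (F 0) c) (n : ℕ) : Function.Periodic (F n) c := by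
  induction n with
  | zero => exact hp
  | succ n ih =>
    intro t
    have h1 := (h n (t + c)).comp_add_const t c
    have h2 : (fun x => F n (x + c)) = F n := funext ih
    rw [h2] at h1
    exact h1.unique (h n t)

end chain

/-- the derivatives of the imaginary part of `g a * conj (g b)` -/
def TT (g : ℕ → ℝ → ℂ) : ℕ → ℕ → ℕ → ℝ → ℝ
  | 0, a, b, s => (g a s * conj (g b s)).im
  | r + 1, a, b, s => TT g r (a + 1) b s + TT g r a (b + 1) s

theorem TT_der {g : ℕ → ℝ → ℂ} (h : ∀ n t, HasDerivAt (g n) (g (n + 1) t) t) :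
    ∀ r a b s, HasDerivAt (TT g r a b) (TT g (r + 1) a b s) s
  | 0, a, b, s => by
    have h1 : HasDerivAt (fun s => conj (g b s)) (conj (g (b + 1) s)) s :=
      (conjCLE.toContinuousLinearMap.hasFDerivAt.comp_hasDerivAt s (h b s))
    have h2 := imCLM.hasFDerivAt.comp_hasDerivAt s ((h a s).mul h1)
    refine h2.congr_deriv ?_
    simp only [TT, imCLM_apply, add_im]
  | r + 1, a, b, s => (TT_der h r (a + 1) b s).add (TT_der h r a (b + 1) s)

/-- the derivatives of the curvature -/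
def KK (f : ℕ → UniformFun ℝ ℂ) (r : ℕ) (s : ℝ) : ℝ :=
  TT (fun n => UniformFun.toFun (f n)) r 2 1 s / ‖UniformFun.toFun (f 1) 0‖ ^ 2

theorem KK_zero (f : ℕ → UniformFun ℝ ℂ) : KK f 0 = kf f := rfl

theorem KK_der {f : ℕ → UniformFun ℝ ℂ} (hf : f ∈ Jordan) (r : ℕ) (s : ℝ) :
    HasDerivAt (KK f r) (KK f (r + 1) s) s :=
  (TT_der (g := fun n => UniformFun.toFun (f n)) hf.1 r 2 1 s).div_const _

theorem it_kf {f : ℕ → UniformFun ℝ ℂ} (hf : f ∈ Jordan) (r : ℕ) :
    iteratedDeriv r (kf f) = KK f r := by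
  rw [← KK_zero, chain_it (KK_der hf), Nat.zero_add]

theorem per_kf {f : ℕ → UniformFun ℝ ℂ} (hf : f ∈ Jordan) : Per (2 * Real.pi) (kf f) := by
  refine ⟨KK_zero f ▸ chain_sm (KK_der hf) 0, fun s => ?_⟩
  have h := chain_per (F := fun n => UniformFun.toFun (f n)) hf.1 hf.2.1
  have h2 := h 2 s
  have h1 := h 1 s
  simp only [kf, h1, h2]

theorem cont_ev (n : ℕ) :
    Continuous fun p : Jordan × ℝ => UniformFun.toFun (p.1.1 n) p.2 := by
  rw [continuous_iff_continuousAt]
  rintro ⟨f, s⟩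
  have h1 : Continuous fun p : Jordan × ℝ => p.1.1 n :=
    (continuous_apply n).comp (continuous_subtype_val.comp continuous_fst)
  have h2 : TendstoUniformly (fun p : Jordan × ℝ => UniformFun.toFun (p.1.1 n))
      (UniformFun.toFun (f.1 n)) (𝓝 (f, s)) :=
    UniformFun.tendsto_iff_tendstoUniformly.1 (h1.tendsto (f, s))
  exact h2.tendsto_comp (f.2.1 n s).continuousAt (continuous_snd.tendsto (f, s))

theorem cont_TT : ∀ r a b, Continuous fun p : Jordan × ℝ =>
    TT (fun n => UniformFun.toFun (p.1.1 n)) r a b p.2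
  | 0, a, b => continuous_im.comp ((cont_ev a).mul (continuous_conj.comp (cont_ev b)))
  | r + 1, a, b => (cont_TT r (a + 1) b).add (cont_TT r a (b + 1))

theorem cont_KK (r : ℕ) : Continuous fun p : Jordan × ℝ => KK p.1.1 r p.2 := by
  refine (cont_TT r 2 1).div ?_ fun p => ?_
  · exact (((cont_ev 1).comp (continuous_fst.prodMk continuous_const)).norm).pow 2
  · obtain ⟨v, hv, h⟩ := p.1.2.2.2.2
    rw [h]
    positivity

theorem cont_fc (j : ℤ) : Continuous fun f : Jordan => fc (kf f.1) j := by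
  unfold fc
  refine continuous_const.mul ?_
  refine intervalIntegral.continuous_parametric_intervalIntegral_of_continuous'
    (f := fun (f : Jordan) (s : ℝ) => (kf f.1 s : ℂ) * exp (-(I * j * s))) ?_ _ _
  refine (continuous_ofReal.comp (cont_KK 0)).mul ?_
  exact continuous_exp.comp (continuous_const.mul (continuous_ofReal.comp continuous_snd)).neg

theorem cont_Hs (hFOU : St_FOU) (r : ℕ) : Continuous fun f : Jordan => Hs r (fc (kf f.1)) := by
  have h1 : ∀ f : Jordan, Hs r (fc (kf f.1)) =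
      (∫ s in (0 : ℝ)..(2 * Real.pi), KK f.1 r s * KK f.1 r s) / (2 * Real.pi) := by
    intro f
    have h := (hFOU _ (per_kf f.2)).2.1 r
    have h2 : mint (2 * Real.pi) [r, r] (kf f.1) =
        ∫ s in (0 : ℝ)..(2 * Real.pi), KK f.1 r s * KK f.1 r s := by
      simp [mint, mono, it_kf f.2]
    rw [← h2, h, mul_div_cancel_left₀ _ Real.two_pi_pos.ne']
  simp only [h1]
  refine Continuous.div_const ?_ _
  exact intervalIntegral.continuous_parametric_intervalIntegral_of_continuous'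
    (f := fun (f : Jordan) (s : ℝ) => KK f.1 r s * KK f.1 r s) ((cont_KK r).mul (cont_KK r)) _ _

theorem summ {z : ℤ → ℂ} (hz : Sq z) (r : ℕ) :
    Summable fun j : ℤ => (j : ℝ) ^ (2 * r) * ‖z j‖ ^ 2 := by
  have h := hz.dec r
  have h0 : ∀ j : ℤ, 0 ≤ |(j : ℝ)| ^ r * ‖z j‖ := fun j => by positivity
  have he : ∀ j : ℤ, (j : ℝ) ^ (2 * r) * ‖z j‖ ^ 2 =
      (|(j : ℝ)| ^ r * ‖z j‖) * (|(j : ℝ)| ^ r * ‖z j‖) := fun j => by
    rw [pow_mul, ← sq_abs, ← pow_mul, mul_comm 2 r, pow_mul]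
    ring
  refine Summable.of_nonneg_of_le (fun j => ?_) (fun j => ?_)
    (h.mul_right (∑' j : ℤ, |(j : ℝ)| ^ r * ‖z j‖))
  · rw [he]
    exact mul_nonneg (h0 j) (h0 j)
  · rw [he]
    exact mul_le_mul_of_nonneg_left (h.le_tsum j fun i _ => h0 i) (h0 j)

theorem tail {z a : ℤ → ℂ} (hz : Sq z) {J : ℕ} (ha : Env J a) (r W : ℕ) (A : ℂ) :
    (∑' ξ : ℤ, if (W : ℤ) < |ξ| then (ξ : ℝ) ^ (2 * r) * ‖z ξ - A * gm a W ξ‖ ^ 2 else 0) =
      Hs r z + ∑ ξ ∈ win (W ^ 2 + J + W),
        ((if (W : ℤ) < |ξ| then (ξ : ℝ) ^ (2 * r) * ‖z ξ - A * gm a W ξ‖ ^ 2 else 0) -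
          (ξ : ℝ) ^ (2 * r) * ‖z ξ‖ ^ 2) := by
  have h1 := (summ hz r).hasSum
  have h2 := hasSum_sum_of_ne_finset_zero (s := win (W ^ 2 + J + W)) (L := .unconditional ℤ)
    (f := fun ξ : ℤ =>
      (if (W : ℤ) < |ξ| then (ξ : ℝ) ^ (2 * r) * ‖z ξ - A * gm a W ξ‖ ^ 2 else 0) -
          (ξ : ℝ) ^ (2 * r) * ‖z ξ‖ ^ 2) (fun ξ hξ => by
      have hW : (0 : ℤ) ≤ (W : ℤ) ^ 2 := by positivity
      have h3 : (W : ℤ) ^ 2 + J + W < ξ ∨ ξ < -((W : ℤ) ^ 2 + J + W) := by
        rw [win, Finset.mem_Icc, not_and_or, not_le, not_le] at hξ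
        push_cast at hξ
        exact hξ.symm
      have h4 : (W : ℤ) < |ξ| := by
        rw [lt_abs]
        omega
      have h5 : a (ξ - (W : ℤ) ^ 2) = 0 := ha.1 _ (by
        rw [lt_abs]
        omega)
      have h6 : a (-ξ - (W : ℤ) ^ 2) = 0 := ha.1 _ (by
        rw [lt_abs]
        omega)
      rw [if_pos h4, gm, h5, h6]
      simp)
  have h3 := h1.add h2
  simp only [add_sub_cancel] at h3
  exact h3.tsum_eq

end OPEN

theorem st_open (hFOU : St_FOU) : St_OPEN := by
  refine ⟨fun f hf => OPEN.per_kf hf, fun M W J a ha => ?_⟩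
  have h1 : ∀ f : Jordan, _ := fun f =>
    OPEN.tail (hFOU _ (OPEN.per_kf f.2)).1 ha (2 * M + 8) W (amp M W)
  simp only [Mk, h1]
  refine isOpen_lt ?_ continuous_const
  refine (OPEN.cont_Hs hFOU _).add (continuous_finsetSum _ fun ξ _ => ?_)
  refine Continuous.sub ?_ (continuous_const.mul ((OPEN.cont_fc ξ).norm.pow 2))
  split_ifs
  · exact continuous_const.mul (((OPEN.cont_fc ξ).sub continuous_const).norm.pow 2)
  · exact continuous_const

end Pool.Agent.Lib.ISO
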