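import Pool.Agent.Lib.ISO.BlueV

/-! Block PAIR: the pair identity for two Dirichlet problems. -/

open scoped ContDiff ComplexConjugate
open MeasureTheory Complex Set Filter

noncomputable section

namespace Pool.Agent.Lib.ISO

open Pool.Agent.Lib.MP_312682_mp

namespace PAIR

variable {δ : ℝ} {q qj ql r s : ℝ → ℝ} {a b f f' φ : ℝ → ℂ} {g gj gl : GD}

theorem hd {E : Type} [NormedAddCommGroup E] [NormedSpace ℝ E] {a : ℝ → E} (h : ContDiff ℝ ∞ a)
    (x : ℝ) : HasDerivAt a (deriv a x) x := (h.differentiable (by simp) x).hasDerivAt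

theorem sd {E : Type} [NormedAddCommGroup E] [NormedSpace ℝ E] {a : ℝ → E} (h : ContDiff ℝ ∞ a) :
    ContDiff ℝ ∞ (deriv a) := (contDiff_infty_iff_deriv.1 h).2

theorem sR (h : ContDiff ℝ ∞ r) : ContDiff ℝ ∞ fun x => (r x : ℂ) := ofRealCLM.contDiff.comp h

theorem dR (h : ContDiff ℝ ∞ r) : deriv (fun x => (r x : ℂ)) = fun x => ((deriv r x : ℝ) : ℂ) :=
  funext fun x => (hd h x).ofReal_comp.deriv

theorem dre (h : ContDiff ℝ ∞ a) : deriv (fun x => (a x).re) = fun x => (deriv a x).re :=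
  funext fun x => (reCLM.hasFDerivAt.comp_hasDerivAt x (hd h x)).deriv

theorem dcong (hδ : 0 < δ) (ha : ContDiff ℝ ∞ a) (hb : ContDiff ℝ ∞ b)
    (h : ∀ x ∈ Icc 0 δ, a x = b x) : ∀ x ∈ Icc 0 δ, deriv a x = deriv b x := fun x hx =>
  (uniqueDiffOn_Icc hδ x hx).eq_deriv _ (hd ha x).hasDerivWithinAt
    ((hd hb x).hasDerivWithinAt.congr h (h x hx))

theorem ii (ha : Continuous a) (hb : Continuous b) :
    IntervalIntegrable (fun x => conj (a x) * b x) volume 0 δ :=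
  ((continuous_conj.comp ha).mul hb).intervalIntegrable _ _

theorem ip_conj (a b : ℝ → ℂ) : conj (ipc δ a b) = ipc δ b a := by
  simp only [ipc, intervalIntegral, map_sub, ← integral_conj, map_mul, conj_conj, mul_comm]

theorem ip_add (ha : Continuous a) (hb : Continuous b) (hf : Continuous f) :
    ipc δ (fun x => a x + b x) f = ipc δ a f + ipc δ b f := by
  simp only [ipc, map_add, add_mul, intervalIntegral.integral_add (ii ha hf) (ii hb hf)]

theorem ip_mul (c : ℂ) (a f : ℝ → ℂ) : ipc δ (fun x => c * a x) f = conj c * ipc δ a f := by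
  simp only [ipc, map_mul, mul_assoc, intervalIntegral.integral_const_mul]

theorem ip_mul' (c : ℂ) (a f : ℝ → ℂ) : ipc δ a (fun x => c * f x) = c * ipc δ a f := by
  simp only [ipc, mul_left_comm _ c, intervalIntegral.integral_const_mul]

theorem ip_zero (f : ℝ → ℂ) : ipc δ (fun _ => 0) f = 0 := by simp [ipc]

theorem ipR (r s : ℝ → ℝ) :
    ipc δ (fun x => r x) (fun x => s x) = (∫ x in (0 : ℝ)..δ, r x * s x : ℝ) := by
  simp only [ipc, conj_ofReal, ← ofReal_mul, intervalIntegral.integral_ofReal]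

theorem ip_self (a : ℝ → ℂ) : ipc δ a a = nn δ a := by
  simp only [ipc, nn, conj_mul', ← intervalIntegral.integral_ofReal, ofReal_pow]

theorem nn_add (ha : Continuous a) (hb : Continuous b) :
    nn δ (fun x => a x + b x) = nn δ a + 2 * (ipc δ a b).re + nn δ b := by
  have h := ip_self (δ := δ) fun x => a x + b x
  rw [ip_add ha hb (ha.fun_add hb), ← ip_conj _ a, ← ip_conj _ b, ip_add ha hb ha, ip_add ha hb hb,
    ip_self, ip_self, ← ip_conj a b] at h
  have := congrArg re h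
  simp only [add_re, map_add, conj_re, ofReal_re] at this
  linarith

theorem nn_mul (c : ℂ) (r : ℝ → ℝ) :
    nn δ (fun x => c * r x) = (conj c * c).re * ∫ x in (0 : ℝ)..δ, r x ^ 2 := by
  simp only [nn, norm_mul, mul_pow, intervalIntegral.integral_const_mul, conj_mul', norm_real,
    Real.norm_eq_abs, sq_abs, ← ofReal_pow, ofReal_re]

theorem ibp (ha : ContDiff ℝ ∞ a) (hb : ContDiff ℝ ∞ b) :
    ipc δ a (deriv b) + ipc δ (deriv a) b = conj (a δ) * b δ - conj (a 0) * b 0 := by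
  have i1 := ii (δ := δ) ha.continuous (sd hb).continuous
  have i2 := ii (δ := δ) (sd ha).continuous hb.continuous
  rw [ipc, ipc, ← intervalIntegral.integral_add i1 i2]
  exact intervalIntegral.integral_eq_sub_of_hasDerivAt (f := fun x => conj (a x) * b x)
    (fun x _ => ((hd ha x).star.mul (hd hb x)).congr_deriv (add_comm _ _)) (i1.add i2)

/-- `-a'' + q a = f` on the interval -/
structure Sol (q : ℝ → ℝ) (δ : ℝ) (a f : ℝ → ℂ) : Prop where
  sm : ContDiff ℝ ∞ a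
  sf : ContDiff ℝ ∞ f
  eq : ∀ x ∈ Icc 0 δ, deriv (deriv a) x = q x * a x - f x

theorem green (hδ : 0 < δ) (ha : Sol q δ a f) (hb : Sol q δ b f') :
    ipc δ a f' - ipc δ f b = (conj (deriv a δ) * b δ - conj (a δ) * deriv b δ) -
      (conj (deriv a 0) * b 0 - conj (a 0) * deriv b 0) := by
  have i1 := ii (δ := δ) ha.sm.continuous hb.sf.continuous
  have i2 := ii (δ := δ) ha.sf.continuous hb.sm.continuous
  rw [ipc, ipc, ← intervalIntegral.integral_sub i1 i2]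
  refine intervalIntegral.integral_eq_sub_of_hasDerivAt
    (f := fun x => conj (deriv a x) * b x - conj (a x) * deriv b x)
    (fun x hx => (((hd (sd ha.sm) x).star.mul (hd hb.sm x)).sub
      ((hd ha.sm x).star.mul (hd (sd hb.sm) x))).congr_deriv ?_) (i1.sub i2)
  rw [uIcc_of_le hδ.le] at hx
  simp only [ha.eq x hx, hb.eq x hx, star_def, map_sub, map_mul, conj_ofReal]
  ring

theorem solG (h : Gr q δ g) (hf : ContDiff ℝ ∞ f) : Sol q δ (g.G f) f := ⟨h.sm f hf, hf, h.eq f hf⟩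

theorem solH (hr : ContDiff ℝ ∞ r) (h : ∀ x ∈ Icc 0 δ, deriv (deriv r) x = q x * r x) :
    Sol q δ (fun x => r x) fun _ => 0 :=
  ⟨sR hr, contDiff_const, fun x hx => by simp [dR hr, dR (sd hr), h x hx]⟩

theorem sre (h : ContDiff ℝ ∞ a) : ContDiff ℝ ∞ fun x => (a x).re := reCLM.contDiff.comp h

theorem solU (h : Sol q δ a fun x => r x) : Sol q δ (fun x => (a x).re) fun x => r x :=
  ⟨sR (sre h.sm), h.sf, fun x hx => by
    simp [dR (sre h.sm), dre h.sm, dR (sre (sd h.sm)), dre (sd h.sm), h.eq x hx]⟩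

theorem sU (hj : ContDiff ℝ ∞ qj) (hl : ContDiff ℝ ∞ ql) (ha : ContDiff ℝ ∞ a) :
    ContDiff ℝ ∞ (Uo qj ql a) := ((sR (hj.sub hl)).mul (sd ha)).sub ((sR (sd hl)).mul ha)

theorem solD (hδ : 0 < δ) (hj : ContDiff ℝ ∞ qj) (hl : ContDiff ℝ ∞ ql) (h : Sol ql δ a f) :
    Sol qj δ (deriv a) fun x => Uo qj ql a x + deriv f x :=
  ⟨sd h.sm, (sU hj hl h.sm).add (sd h.sf), fun x hx => by
    rw [dcong hδ (sd (sd h.sm)) (((sR hl).mul h.sm).sub h.sf) h.eq x hx,
      (((hd hl x).ofReal_comp.fun_mul (hd h.sm x)).fun_sub (hd h.sf x)).deriv, Uo]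
    push_cast
    ring⟩

theorem Sol.add (h : Sol q δ a f) (h' : Sol q δ b f') :
    Sol q δ (fun x => a x + b x) fun x => f x + f' x :=
  ⟨h.sm.add h'.sm, h.sf.add h'.sf, fun x hx => by
    rw [funext fun x => ((hd h.sm x).fun_add (hd h'.sm x)).deriv,
      ((hd (sd h.sm) x).fun_add (hd (sd h'.sm) x)).deriv, h.eq x hx, h'.eq x hx]
    ring⟩

theorem Sol.mul (h : Sol q δ a f) (c : ℂ) : Sol q δ (fun x => c * a x) fun x => c * f x :=
  ⟨contDiff_const.mul h.sm, contDiff_const.mul h.sf, fun x hx => by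
    rw [deriv_const_mul_field', deriv_const_mul_field, h.eq x hx]
    ring⟩

theorem uniq (hδ : 0 < δ) (hg : Gr q δ g) (h : Sol q δ a f) (hf : ∀ x, f x = 0) (h0 : a 0 = 0)
    (h1 : a δ = 0) : ∀ x ∈ Icc 0 δ, a x = 0 := by
  have := green hδ h (solG hg h.sm)
  rw [funext hf, ip_zero, ip_self, h0, h1, hg.z0 _ h.sm, hg.z1 _ h.sm] at this
  simp only [sub_zero, mul_zero, map_zero, zero_mul, ofReal_eq_zero] at this
  intro x hx
  by_contra hx0
  exact (intervalIntegral.integral_pos hδ (h.sm.continuous.norm.pow 2).continuousOn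
    (fun _ _ => sq_nonneg _) ⟨x, hx, pow_pos (norm_pos_iff.2 hx0) 2⟩).ne' this

theorem d0 (hδ : 0 < δ) (hg : Gr q δ g) (h : Sol q δ a f) : ipc δ (fun x => g.h0 x) f =
    g.N0 * a 0 + g.Nx δ * a δ + deriv a 0 := by
  have := green hδ (solH hg.s0 hg.e0) h
  simp only [ip_zero, dR hg.s0, hg.v00, hg.v01, conj_ofReal] at this
  simp only [GD.N0, GD.Nx]
  push_cast at this ⊢
  linear_combination this

theorem wr (hδ : 0 < δ) (hg : Gr q δ g) : deriv g.h1 0 = -g.Nx δ := by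
  have := d0 hδ hg (solH hg.s1 hg.e1)
  rw [← ip_conj, ip_zero, dR hg.s1, hg.v10, hg.v11] at this
  have := congrArg re this
  simp at this
  linarith

theorem d1 (hδ : 0 < δ) (hg : Gr q δ g) (h : Sol q δ a f) : ipc δ (fun x => g.h1 x) f =
    g.N1 δ * a δ + g.Nx δ * a 0 - deriv a δ := by
  have := green hδ (solH hg.s1 hg.e1) h
  simp only [ip_zero, dR hg.s1, hg.v10, hg.v11, conj_ofReal, wr hδ hg] at this
  simp only [GD.N1]
  push_cast at this ⊢
  linear_combination this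

theorem sol0 (hg : Gr q δ g) : Sol q δ (fun x => g.u0 x) fun x => g.h0 x := solU (solG hg (sR hg.s0))
theorem sol1 (hg : Gr q δ g) : Sol q δ (fun x => g.u1 x) fun x => g.h1 x := solU (solG hg (sR hg.s1))
theorem su0 (hg : Gr q δ g) : ContDiff ℝ ∞ g.u0 := sre (hg.sm _ (sR hg.s0))
theorem su1 (hg : Gr q δ g) : ContDiff ℝ ∞ g.u1 := sre (hg.sm _ (sR hg.s1))
theorem u00 (hg : Gr q δ g) : g.u0 0 = 0 := by rw [GD.u0, hg.z0 _ (sR hg.s0), zero_re]
theorem u01 (hg : Gr q δ g) : g.u0 δ = 0 := by rw [GD.u0, hg.z1 _ (sR hg.s0), zero_re]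
theorem u10 (hg : Gr q δ g) : g.u1 0 = 0 := by rw [GD.u1, hg.z0 _ (sR hg.s1), zero_re]
theorem u11 (hg : Gr q δ g) : g.u1 δ = 0 := by rw [GD.u1, hg.z1 _ (sR hg.s1), zero_re]

theorem sym (hδ : 0 < δ) (hg : Gr q δ g) (h : Sol q δ a f) (h0 : a 0 = 0) (h1 : a δ = 0)
    (hf : ContDiff ℝ ∞ f') : ipc δ f (g.G f') = ipc δ a f' := by
  have := green hδ h (solG hg hf)
  rw [h0, h1, hg.z0 _ hf, hg.z1 _ hf] at this
  simp only [map_zero, mul_zero, zero_mul, sub_zero] at this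
  exact (sub_eq_zero.1 this).symm

theorem ibp0 (ha : ContDiff ℝ ∞ a) (hb : ContDiff ℝ ∞ b) (h0 : a 0 = 0) (h1 : a δ = 0) :
    ipc δ a (deriv b) = -ipc δ (deriv a) b := by
  have := ibp (δ := δ) ha hb
  rw [h0, h1] at this
  simp only [map_zero, zero_mul, sub_zero] at this
  exact eq_neg_of_add_eq_zero_left this

/-- real part of a product of two coefficients -/
def R (δ : ℝ) (r s : ℝ → ℝ) (φ : ℝ → ℂ) : ℝ :=
  (conj (ipc δ (fun x => r x) φ) * ipc δ (fun x => s x) φ).re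

theorem P1 (hδ : 0 < δ) (ha : Continuous a) :
    HasSum (fun i : ℤ => ‖ipc δ a (ex δ i)‖ ^ 2) (nn δ a) := by
  obtain ⟨C, hC⟩ := (isCompact_Icc (a := 0) (b := δ)).exists_bound_of_continuousOn ha.continuousOn
  have := parseval1 hδ (MemLp.of_bound ha.aestronglyMeasurable C
    ((ae_restrict_mem measurableSet_Ioc).mono fun y hy => hC y (Ioc_subset_Icc_self hy)))
  simp only [← intervalIntegral.integral_of_le hδ.le] at this
  simp only [← ip_conj (ex δ _) a, norm_conj]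
  exact this

theorem P2 (hδ : 0 < δ) (hr : Continuous r) (hs : Continuous s) :
    HasSum (fun i : ℤ => R δ r s (ex δ i)) (∫ x in (0 : ℝ)..δ, r x * s x) := by
  have cr : Continuous fun x => (r x : ℂ) := continuous_ofReal.comp hr
  have cs : Continuous fun x => (s x : ℂ) := continuous_ofReal.comp hs
  have := (((P1 hδ (cr.fun_add cs)).sub (P1 hδ cr)).sub (P1 hδ cs)).div_const 2
  rw [nn_add cr cs, ipR, ofReal_re] at this
  rw [show ∀ x y z : ℝ, (x + 2 * y + z - x - z) / 2 = y from fun _ _ _ => by ring] at this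
  refine this.congr_fun fun i => ?_
  rw [ip_add cr cs (continuous_ex δ i), R, ← normSq_eq_norm_sq, ← normSq_eq_norm_sq,
    ← normSq_eq_norm_sq, normSq_add]
  simp only [mul_re, conj_re, conj_im]
  ring

theorem main (hδ : 0 < δ) (hj : ContDiff ℝ ∞ qj) (hl : ContDiff ℝ ∞ ql) (Gj : Gr qj δ gj)
    (Gl : Gr ql δ gl) (hφ : ContDiff ℝ ∞ φ) :
    e2 δ qj ql gj gl φ - 2 * (ipc δ (deriv (gl.G (gl.G φ))) (Uo qj ql (gl.G φ))).re =
      nn δ (gj.G (deriv φ)) - nn δ (deriv (gl.G φ)) +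
      (gj.M0 δ * R δ gl.h0 gl.h0 φ + gj.M1 δ * R δ gl.h1 gl.h1 φ -
        2 * gj.Mx δ * R δ gl.h0 gl.h1 φ) +
      2 * (R δ gl.h1 (deriv gj.u1) φ - R δ gl.h0 (deriv gj.u0) φ) +
      2 * (R δ gl.u1 (deriv gj.h1) φ - R δ gl.u0 (deriv gj.h0) φ) +
      2 * (gj.Nx δ * (R δ gl.u1 gl.h0 φ + R δ gl.u0 gl.h1 φ) - gj.N1 δ * R δ gl.u1 gl.h1 φ -
        gj.N0 * R δ gl.u0 gl.h0 φ) := by
  have su := solG Gl hφ
  have sw := solG Gl su.sm
  have sv := solG Gj (sd hφ)
  have du := solD hδ hj hl su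
  have dw := solD hδ hj hl sw
  have U := sU hj hl su.sm
  have sS : Sol qj δ (So qj ql gj gl φ) fun x => -1 * Uo qj ql (gl.G φ) x := by
    rw [show So qj ql gj gl φ = fun x => -1 * gj.G (Uo qj ql (gl.G φ)) x from
      funext fun x => by rw [So, neg_one_mul]]
    exact (solG Gj U).mul (-1)
  have S0 : So qj ql gj gl φ 0 = 0 := by rw [So, Gj.z0 _ U, neg_zero]
  have S1 : So qj ql gj gl φ δ = 0 := by rw [So, Gj.z1 _ U, neg_zero]
  have H0 := solH Gj.s0 Gj.e0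
  have H1 := solH Gj.s1 Gj.e1
  have a0 := d0 hδ Gl su
  have a1 := d1 hδ Gl su
  have b0 := d0 hδ Gl sw
  have b1 := d1 hδ Gl sw
  rw [sym hδ Gl (sol0 Gl) (by simp [u00 Gl]) (by simp [u01 Gl]) hφ] at b0
  rw [sym hδ Gl (sol1 Gl) (by simp [u10 Gl]) (by simp [u11 Gl]) hφ] at b1
  have c0 := sym hδ Gj (sol0 Gj) (by simp [u00 Gj]) (by simp [u01 Gj]) (sd hφ)
  have c1 := sym hδ Gj (sol1 Gj) (by simp [u10 Gj]) (by simp [u11 Gj]) (sd hφ)
  rw [ibp0 (sol0 Gj).sm hφ (by simp [u00 Gj]) (by simp [u01 Gj]), dR (su0 Gj)] at c0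
  rw [ibp0 (sol1 Gj).sm hφ (by simp [u10 Gj]) (by simp [u11 Gj]), dR (su1 Gj)] at c1
  have e0 := d0 hδ Gj sS
  have e1 := d1 hδ Gj sS
  have f0 := d0 hδ Gj du
  have f1 := d1 hδ Gj du
  have i0 := ibp (δ := δ) H0.sm hφ
  have i1 := ibp (δ := δ) H1.sm hφ
  have gr := green hδ dw sS
  have l0 : (0 : ℝ) ∈ Icc 0 δ := left_mem_Icc.2 hδ.le
  have l1 : δ ∈ Icc 0 δ := right_mem_Icc.2 hδ.le
  rw [← ip_conj, ip_add U.continuous (sd hφ).continuous H0.sm.continuous, map_add, ip_conj, ip_conj,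
    su.eq 0 l0] at f0
  rw [← ip_conj, ip_add U.continuous (sd hφ).continuous H1.sm.continuous, map_add, ip_conj, ip_conj,
    su.eq δ l1] at f1
  rw [ip_add (sU hj hl sw.sm).continuous du.sm.continuous sS.sm.continuous] at gr
  simp only [ip_mul', S0, S1, Gl.z0 _ hφ, Gl.z1 _ hφ, Gl.z0 _ su.sm, Gl.z1 _ su.sm, dR Gj.s0,
    dR Gj.s1, Gj.v00, Gj.v01, Gj.v10, Gj.v11, ofReal_zero, ofReal_one, map_zero, map_one, mul_zero,
    zero_mul, one_mul, zero_add, add_zero, zero_sub] at a0 a1 b0 b1 e0 e1 f0 f1 i0 i1 gr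
  obtain ⟨α, hα⟩ : ∃ α, α = ipc δ (fun x => gl.h0 x) φ := ⟨_, rfl⟩
  obtain ⟨β, hβ⟩ : ∃ β, β = ipc δ (fun x => gl.h1 x) φ := ⟨_, rfl⟩
  have cP : Continuous fun x => α * gj.h0 x + -β * gj.h1 x :=
    ((H0.mul α).add (H1.mul (-β))).sm.continuous
  have z := uniq hδ Gj ((sS.add du).add ((((H0.mul α).add (H1.mul (-β))).add sv).mul (-1)))
    (fun x => by ring) (by simp [S0, Gj.v00, Gj.v10, Gj.z0 _ (sd hφ), hα, a0])
    (by simp [S1, Gj.v01, Gj.v11, Gj.z1 _ (sd hφ), hβ, a1])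
  have n1 : nn δ (fun x => deriv (gl.G φ) x + So qj ql gj gl φ x) =
      nn δ fun x => (α * gj.h0 x + -β * gj.h1 x) + gj.G (deriv φ) x :=
    intervalIntegral.integral_congr fun x hx => by
      have := z x (by rwa [uIcc_of_le hδ.le] at hx)
      dsimp only
      congr 2
      linear_combination this
  rw [nn_add du.sm.continuous sS.sm.continuous, nn_add cP sv.sm.continuous,
    nn_add (H0.mul α).sm.continuous (H1.mul (-β)).sm.continuous,
    ip_add (H0.mul α).sm.continuous (H1.mul (-β)).sm.continuous sv.sm.continuous, ip_mul, ip_mul,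
    ip_mul, ip_mul', ipR, nn_mul, nn_mul, c0, c1] at n1
  have k0 : deriv (So qj ql gj gl φ) 0 =
      -ipc δ (fun x => (deriv gj.h0 x : ℝ)) φ - gj.N0 * α + gj.Nx δ * β := by
    rw [hα, hβ, a0, a1]
    linear_combination -e0 - f0 + i0
  have k1 : deriv (So qj ql gj gl φ) δ =
      ipc δ (fun x => (deriv gj.h1 x : ℝ)) φ - gj.N1 δ * β + gj.Nx δ * α := by
    rw [hα, hβ, a0, a1]
    linear_combination e1 + f1 - i1
  rw [k0, k1, ← b0, ← neg_eq_iff_eq_neg.2 b1] at gr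
  have gr' := congrArg re gr
  simp only [e2, R, ← hα, ← hβ, GD.M0, GD.M1, GD.Mx]
  simp only [add_re, sub_re, neg_re, mul_re, conj_re, conj_im, neg_im, add_im, sub_im, mul_im,
    ofReal_re, ofReal_im, map_neg, one_re, one_im] at n1 gr' ⊢
  linear_combination n1 + 2 * gr'

theorem nn_nonneg (hδ : 0 < δ) (a : ℝ → ℂ) : 0 ≤ nn δ a :=
  intervalIntegral.integral_nonneg hδ.le fun _ _ => sq_nonneg _

theorem energy (hδ : 0 < δ) (hq : ContDiff ℝ ∞ q) (q0 : ∀ x ∈ Icc 0 δ, 0 < q x) (h : Sol q δ a f)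
    (h0 : a 0 = 0) (h1 : a δ = 0) : nn δ (deriv a) ≤ ‖ipc δ a f‖ := by
  have i := ibp0 h.sm (sd h.sm) h0 h1
  have c := h.sm.continuous
  have e : ipc δ a (deriv (deriv a)) =
      (∫ x in (0 : ℝ)..δ, q x * ‖a x‖ ^ 2 : ℝ) - ipc δ a f := by
    rw [ipc, ipc, ← intervalIntegral.integral_ofReal, ← intervalIntegral.integral_sub
      (Continuous.intervalIntegrable (by have := hq.continuous; fun_prop) _ _)
      (ii c h.sf.continuous)]
    refine intervalIntegral.integral_congr fun x hx => ?_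
    rw [h.eq x (by rwa [uIcc_of_le hδ.le] at hx), mul_sub, mul_left_comm, conj_mul']
    simp
  have p : 0 ≤ ∫ x in (0 : ℝ)..δ, q x * ‖a x‖ ^ 2 :=
    intervalIntegral.integral_nonneg hδ.le fun x hx => mul_nonneg (q0 x hx).le (sq_nonneg _)
  rw [e, ip_self] at i
  have := congrArg re i
  simp only [sub_re, ofReal_re, neg_re] at this
  linarith [re_le_norm (ipc δ a f)]

theorem sumb (hδ : 0 < δ) (hq : ContDiff ℝ ∞ q) (q0 : ∀ x ∈ Icc 0 δ, 0 < q x) (hg : Gr q δ g) :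
    Summable fun i : ℤ => nn δ (deriv (g.G (ex δ i))) := by
  refine Summable.of_norm_bounded_eventually
    ((Real.summable_one_div_int_pow.2 one_lt_two).mul_left ((δ / (2 * Real.pi)) ^ 2)) ?_
  filter_upwards [eventually_cofinite_ne 0] with i hi
  have he := contDiff_ex δ i
  have su := solG hg he
  have en := energy hδ hq q0 su (hg.z0 _ he) (hg.z1 _ he)
  have ib := ibp0 su.sm he (hg.z0 _ he) (hg.z1 _ he)
  have pa := le_hasSum (P1 hδ (sd su.sm).continuous) i fun _ _ => sq_nonneg _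
  have n0 := nn_nonneg hδ (deriv (g.G (ex δ i)))
  rw [funext fun x => (hd_ex δ i x).deriv, ip_mul'] at ib
  rw [← norm_neg, ← ib, norm_mul, norm_mul, norm_I, one_mul, norm_real, Real.norm_eq_abs, mul_pow,
    sq_abs] at pa
  have i0 : (i : ℝ) ≠ 0 := Int.cast_ne_zero.2 hi
  have w : 0 < (2 * Real.pi / δ * i) ^ 2 := by positivity
  rw [Real.norm_of_nonneg n0, show (δ / (2 * Real.pi)) ^ 2 * (1 / (i : ℝ) ^ 2) =
    1 / (2 * Real.pi / δ * i) ^ 2 by field_simp, le_div_iff₀ w]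
  rcases n0.eq_or_lt with n | n
  · rw [← n, zero_mul]
    exact zero_le_one
  · refine le_of_mul_le_mul_left ?_ n
    nlinarith [mul_le_mul_of_nonneg_left (pow_le_pow_left₀ n0 en 2) w.le]

theorem adj (hδ : 0 < δ) (hq : ContDiff ℝ ∞ q) (q0 : ∀ x ∈ Icc 0 δ, 0 < q x) (hg : Gr q δ g) :
    HasSum (fun i : ℤ => nn δ (g.G (deriv (ex δ i)))) (g.bb δ) := by
  have row := fun k : ℤ => P1 hδ (sd (hg.sm _ (contDiff_ex δ k))).continuous
  have hs : Summable fun p : ℤ × ℤ => ‖ipc δ (deriv (g.G (ex δ p.1))) (ex δ p.2)‖ ^ 2 :=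
    (summable_prod_of_nonneg fun _ => sq_nonneg _).2 ⟨fun k => (row k).summable,
      (sumb hδ hq q0 hg).congr fun k => (row k).tsum_eq.symm⟩
  rw [GD.bb, (hs.hasSum.prod_fiberwise row).tsum_eq]
  refine ((Equiv.prodComm ℤ ℤ).hasSum_iff.2 hs.hasSum).prod_fiberwise fun i => ?_
  refine (P1 hδ (hg.sm _ (sd (contDiff_ex δ i))).continuous).congr_fun fun k => ?_
  have he := contDiff_ex δ k
  rw [← ip_conj (ex δ k), norm_conj,
    sym hδ hg (solG hg he) (hg.z0 _ he) (hg.z1 _ he) (sd (contDiff_ex δ i)),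
    ibp0 (hg.sm _ he) (contDiff_ex δ i) (hg.z0 _ he) (hg.z1 _ he), norm_neg]
  rfl

theorem ibpR (hr : ContDiff ℝ ∞ r) (hs : ContDiff ℝ ∞ s) (h0 : r 0 = 0) (h1 : r δ = 0) :
    ∫ x in (0 : ℝ)..δ, s x * deriv r x = -∫ x in (0 : ℝ)..δ, r x * deriv s x := by
  have := ibp0 (δ := δ) (sR hr) (sR hs) (by simp [h0]) (by simp [h1])
  rw [dR hr, dR hs, ipR, ipR] at this
  simp only [mul_comm (s _)]
  exact neg_eq_iff_eq_neg.1 (by exact_mod_cast this.symm)

theorem symR (hδ : 0 < δ) (hg : Gr q δ g) : ∫ x in (0 : ℝ)..δ, g.u0 x * g.h1 x = g.Gx δ := by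
  have := green hδ (sol0 hg) (sol1 hg)
  rw [ipR, ipR, u00 hg, u01 hg, u10 hg, u11 hg] at this
  simp only [ofReal_zero, map_zero, mul_zero, zero_mul, sub_zero, sub_eq_zero, ofReal_inj] at this
  simp only [this, GD.Gx, mul_comm]

end PAIR

open PAIR in
theorem st_pair : St_PAIR := by
  intro δ qj ql gj gl hδ hj hl pj pl Gj Gl
  have h0 := Gl.s0.continuous
  have h1 := Gl.s1.continuous
  have u0 := (su0 Gl).continuous
  have u1 := (su1 Gl).continuous
  have := ((((((adj hδ hj pj Gj).sub (sumb hδ hl pl Gl).hasSum).add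
    ((((P2 hδ h0 h0).mul_left (gj.M0 δ)).add ((P2 hδ h1 h1).mul_left (gj.M1 δ))).sub
      ((P2 hδ h0 h1).mul_left (2 * gj.Mx δ)))).add
    (((P2 hδ h1 (sd (su1 Gj)).continuous).sub (P2 hδ h0 (sd (su0 Gj)).continuous)).mul_left 2)).add
    (((P2 hδ u1 (sd Gj.s1).continuous).sub (P2 hδ u0 (sd Gj.s0).continuous)).mul_left 2)).add
    ((((((P2 hδ u1 h0).add (P2 hδ u0 h1)).mul_left (gj.Nx δ)).sub
      ((P2 hδ u1 h1).mul_left (gj.N1 δ))).sub ((P2 hδ u0 h0).mul_left gj.N0)).mul_left 2))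
  rw [symR hδ Gl, ibpR (su0 Gj) Gl.s0 (u00 Gj) (u01 Gj), ibpR (su1 Gj) Gl.s1 (u10 Gj) (u11 Gj)]
    at this
  simp only [main hδ hj hl Gj Gl (contDiff_ex δ _)]
  refine (congrArg (HasSum _) ?_).mp this
  simp only [Es, xx, GD.bb, GD.M0, GD.M1, GD.Mx, GD.G0, GD.G1, GD.Gx, sq]
  ring

end Pool.Agent.Lib.ISO
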