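import Pool.Agent.Lib.ISO.Base

/-! Block POI: Riemann sums of symbols, by Poisson summation. -/

open MeasureTheory Filter Asymptotics
open scoped FourierTransform Real

noncomputable section

namespace Pool.Agent.Lib.ISO

namespace POI

lemma integrable_of_bd {f : ℝ → ℂ} {C : ℝ} (hc : Continuous f) (h : ∀ x, ‖f x‖ ≤ C / (1 + x ^ 2)) :
    Integrable f :=
  (integrable_inv_one_add_sq.const_mul C).mono' hc.aestronglyMeasurable
    (Eventually.of_forall fun x => by simpa [div_eq_mul_inv] using h x)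

lemma norm_fourier_le {f : ℝ → ℂ} {C : ℝ} (h : ∀ x, ‖f x‖ ≤ C / (1 + x ^ 2)) (ξ : ℝ) :
    ‖𝓕 f ξ‖ ≤ C * π := by
  rw [Real.fourier_real_eq, ← integral_univ_inv_one_add_sq, ← integral_const_mul]
  refine norm_integral_le_of_norm_le (integrable_inv_one_add_sq.const_mul C)
    (Eventually.of_forall fun x => ?_)
  rw [Circle.norm_smul]
  simpa [div_eq_mul_inv] using h x

lemma fourier_iter {g : ℕ → ℝ → ℂ} {C : ℝ} {M : ℕ} (hd : ∀ j x, HasDerivAt (g j) (g (j + 1) x) x)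
    (hb : ∀ j ≤ M, ∀ x, ‖g j x‖ ≤ C / (1 + x ^ 2)) (ξ : ℝ) :
    ∀ j ≤ M, 𝓕 (g j) ξ = (2 * π * Complex.I * ξ) ^ j * 𝓕 (g 0) ξ := by
  have hc : ∀ j, Continuous (g j) := fun j =>
    continuous_iff_continuousAt.2 fun x => (hd j x).continuousAt
  intro j
  induction j with
  | zero => simp
  | succ j ih =>
    intro hj
    have e : deriv (g j) = g (j + 1) := funext fun x => (hd j x).deriv
    have h1 := Real.fourier_deriv (integrable_of_bd (hc j) (hb j (by omega)))
      (fun x => (hd j x).differentiableAt)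
      (by rw [e]; exact integrable_of_bd (hc _) (hb _ hj))
    rw [e] at h1
    rw [h1]
    simp only [smul_eq_mul]
    rw [ih (by omega)]
    ring

lemma fourier_scale (f : ℝ → ℂ) {h : ℝ} (hh : 0 < h) (ξ : ℝ) :
    (h : ℂ) * 𝓕 (fun x => f (h * x)) ξ = 𝓕 f (ξ / h) := by
  rw [Real.fourier_real_eq_integral_exp_smul, Real.fourier_real_eq_integral_exp_smul]
  have h1 := Measure.integral_comp_mul_left
    (fun v : ℝ => Complex.exp (↑(-2 * π * v * (ξ / h)) * Complex.I) • f v) h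
  have h2 : ∀ v : ℝ, -2 * π * (h * v) * (ξ / h) = -2 * π * v * ξ := fun v => by field_simp
  simp only [h2] at h1
  rw [h1, abs_of_pos (inv_pos.2 hh), Complex.real_smul, ← mul_assoc, ← Complex.ofReal_mul,
    mul_inv_cancel₀ hh.ne', Complex.ofReal_one, one_mul]

lemma decay {f : ℝ → ℂ} {C h : ℝ} (hh : 0 < h) (hb : ∀ x, ‖f x‖ ≤ C / (1 + x ^ 2)) :
    (fun x => f (h * x)) =O[cocompact ℝ] fun x : ℝ => |x| ^ (-(2 : ℝ)) := by
  have hC : 0 ≤ C := by simpa using (norm_nonneg _).trans (hb 0)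
  refine IsBigO.of_bound (C / h ^ 2) ?_
  filter_upwards [isCompact_singleton.compl_mem_cocompact (s := {(0 : ℝ)})] with x hx
  have hx0 : x ≠ 0 := hx
  rw [Real.norm_of_nonneg (by positivity), Real.rpow_neg (abs_nonneg _), Real.rpow_two, sq_abs]
  refine (hb _).trans ?_
  rw [← div_eq_mul_inv, div_div, ← mul_pow]
  gcongr
  linarith

lemma coef_le {g : ℕ → ℝ → ℂ} {C h : ℝ} {N : ℕ} (hd : ∀ j x, HasDerivAt (g j) (g (j + 1) x) x)
    (hb : ∀ j ≤ N + 2, ∀ x, ‖g j x‖ ≤ C / (1 + x ^ 2)) (hh : 0 < h) (hh1 : h ≤ 1) {n : ℤ}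
    (hn : n ≠ 0) : ‖𝓕 (g 0) (n / h)‖ ≤ C * π * h ^ N * (1 / (n : ℝ) ^ 2) := by
  have hC : 0 ≤ C := by simpa using (norm_nonneg _).trans (hb 0 (by omega) 0)
  have h1 := norm_fourier_le (hb (N + 2) le_rfl) (n / h)
  rw [fourier_iter hd hb _ _ le_rfl, norm_mul, norm_pow] at h1
  have hn1 : (1 : ℝ) ≤ |(n : ℝ)| := by exact_mod_cast Int.one_le_abs hn
  have e1 : ‖(2 * π * Complex.I * ((n / h : ℝ) : ℂ))‖ = 2 * π * (|(n : ℝ)| / h) := by
    rw [norm_mul, norm_mul, norm_mul, Complex.norm_I, Complex.norm_real, Complex.norm_real,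
      Real.norm_eq_abs, Real.norm_eq_abs, abs_div, abs_of_pos hh, abs_of_pos Real.pi_pos]
    simp
  rw [e1] at h1
  have h2 : |(n : ℝ)| / h ≤ 2 * π * (|(n : ℝ)| / h) :=
    le_mul_of_one_le_left (by positivity) (by linarith [Real.pi_gt_three])
  have h3 : (n : ℝ) ^ 2 / h ^ N ≤ (2 * π * (|(n : ℝ)| / h)) ^ (N + 2) := by
    refine le_trans ?_ (pow_le_pow_left₀ (by positivity) h2 _)
    rw [div_pow, pow_add, pow_add, sq_abs]
    have h4 : 1 ≤ |(n : ℝ)| ^ N := one_le_pow₀ hn1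
    have h5 : h ^ 2 ≤ 1 := pow_le_one₀ hh.le hh1
    rw [div_le_div_iff₀ (by positivity) (by positivity)]
    have h6 : 0 ≤ (n : ℝ) ^ 2 * h ^ N := by positivity
    nlinarith
  have hn0 : (n : ℝ) ≠ 0 := by exact_mod_cast hn
  have h4 := (mul_le_mul_of_nonneg_right h3 (norm_nonneg _)).trans h1
  rw [div_mul_eq_mul_div, div_le_iff₀ (by positivity)] at h4
  rw [mul_one_div, le_div_iff₀ (by positivity)]
  linarith

end POI

theorem st_poi : St_POI := by
  intro N
  refine ⟨π * ∑' n : ℤ, 1 / (n : ℝ) ^ 2, fun g C h hd hb hh hh1 => ?_⟩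
  have hC : 0 ≤ C := by simpa using (norm_nonneg _).trans (hb 0 (by omega) 0)
  have hc : Continuous (g 0) := continuous_iff_continuousAt.2 fun x => (hd 0 x).continuousAt
  have hdec := POI.decay hh (hb 0 (by omega))
  have hz : Summable fun n : ℤ => 1 / (n : ℝ) ^ 2 := Real.summable_one_div_int_pow.2 one_lt_two
  have hbd : ∀ n : ℤ, ‖if n = 0 then 0 else 𝓕 (g 0) (n / h)‖ ≤
      C * π * h ^ N * (1 / (n : ℝ) ^ 2) := by
    intro n
    split_ifs with hn
    · rw [norm_zero]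
      positivity
    · exact POI.coef_le hd hb hh hh1 hn
  have hs : Summable fun n : ℤ => 𝓕 (g 0) (n / h) := by
    refine Summable.of_norm_bounded_eventually (hz.mul_left (C * π * h ^ N)) ?_
    filter_upwards [eventually_cofinite_ne 0] with n hn using POI.coef_le hd hb hh hh1 hn
  have hh0 : (h : ℂ) ≠ 0 := by exact_mod_cast hh.ne'
  have hs' : Summable fun n : ℤ => 𝓕 (fun x => g 0 (h * x)) n := by
    refine (hs.mul_left (h : ℂ)⁻¹).congr fun n => ?_
    rw [← POI.fourier_scale _ hh, ← mul_assoc, inv_mul_cancel₀ hh0, one_mul]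
  have hP := Real.tsum_eq_tsum_fourier_of_rpow_decay_of_summable
    (hc.comp (continuous_const.mul continuous_id)) one_lt_two hdec hs' 0
  refine ⟨summable_of_isBigO (Real.summable_abs_int_rpow one_lt_two)
    (hdec.comp_tendsto Int.tendsto_coe_cofinite), ?_⟩
  have hP' : (h : ℂ) * ∑' n : ℤ, g 0 (h * n) = ∑' n : ℤ, 𝓕 (g 0) (n / h) := by
    simp only [Function.comp_def, zero_add, AddCircle.coe_zero, fourier_eval_zero, mul_one,
      Pi.mul_apply, id] at hP
    rw [hP, ← tsum_mul_left]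
    exact tsum_congr fun n => POI.fourier_scale _ hh n
  have h0 : 𝓕 (g 0) (((0 : ℤ) : ℝ) / h) = ∫ x, g 0 x := by
    simp [Real.fourier_real_eq]
  rw [hP', hs.tsum_eq_add_tsum_ite 0, h0, add_sub_cancel_left]
  refine (tsum_of_norm_bounded (hz.hasSum.mul_left (C * π * h ^ N)) hbd).trans (le_of_eq ?_)
  ring

end Pool.Agent.Lib.ISO
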