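import Pool.Agent.Lib.ISO.BlueV

/-! The pair sum is given by the two bubble sums. -/

open scoped ContDiff
open Set

noncomputable section

namespace Pool.Agent.Lib.ISO

namespace PS1

structure Raw (J : ℕ) (C b N M G n m g : ℝ) : Prop where
  n0 : |N| ≤ C * b
  m0 : |M| ≤ C / b
  g0 : |G| ≤ C / b ^ 3
  n1 : |N - n| ≤ C / b ^ J
  m1 : |M - m| ≤ C / b ^ (J + 2)
  g1 : |G - g| ≤ C / b ^ (J + 4)

structure Tri (S ε a N M G n m g : ℝ) : Prop where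
  n0 : |N| ≤ S * a
  m0 : |M| ≤ S * a⁻¹
  g0 : |G| ≤ S * (a ^ 3)⁻¹
  n1 : |N - n| ≤ S * ε * a
  m1 : |M - m| ≤ S * ε * a⁻¹
  g1 : |G - g| ≤ S * ε * (a ^ 3)⁻¹

def cb (N M G N' M' G' : ℝ) : ℝ := 2 * (M * M') - 2 * (N * G') - 2 * (G * N')

lemma tri {J : ℕ} {C K μ a b N M G n m g : ℝ} (hC : 0 ≤ C) (hK : 1 ≤ K) (hμ : 1 ≤ μ)
    (ha : μ ≤ a) (hb : μ ≤ b) (h1 : a ≤ K * b) (h2 : b ≤ K * a) (h : Raw J C b N M G n m g) :
    Tri (C * K ^ 3) (μ ^ J)⁻¹ a N M G n m g := by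
  have a1 : 1 ≤ a := hμ.trans ha
  have b1 : 1 ≤ b := hμ.trans hb
  have a0 : 0 < a := by linarith
  have b0 : 0 < b := by linarith
  have K3 : K ≤ K ^ 3 := le_self_pow₀ hK (by norm_num)
  have e1 : b ≤ K ^ 3 * a := h2.trans (by gcongr)
  have e2 : b⁻¹ ≤ K ^ 3 * a⁻¹ := by
    rw [← div_eq_mul_inv, le_div_iff₀ a0, inv_mul_le_iff₀ b0]
    nlinarith
  have e3 : (b ^ 3)⁻¹ ≤ K ^ 3 * (a ^ 3)⁻¹ := by
    rw [← div_eq_mul_inv, le_div_iff₀ (by positivity), inv_mul_le_iff₀ (by positivity),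
      ← mul_pow, mul_comm b]
    gcongr
  have e4 : (b ^ J)⁻¹ ≤ (μ ^ J)⁻¹ := by gcongr
  have e5 : (b ^ 2)⁻¹ ≤ b⁻¹ := inv_anti₀ b0 (le_self_pow₀ b1 (by norm_num))
  have e6 : (b ^ 4)⁻¹ ≤ (b ^ 3)⁻¹ := inv_anti₀ (by positivity) (pow_le_pow_right₀ b1 (by norm_num))
  have e7 : 1 ≤ K ^ 3 * a := b1.trans e1
  have p0 : 0 ≤ (μ ^ J)⁻¹ := by positivity
  refine ⟨h.n0.trans ?_, h.m0.trans ?_, h.g0.trans ?_, h.n1.trans ?_, h.m1.trans ?_,
    h.g1.trans ?_⟩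
  · rw [mul_assoc]; gcongr
  · rw [mul_assoc, div_eq_mul_inv]; gcongr
  · rw [mul_assoc, div_eq_mul_inv]; gcongr
  · calc C / b ^ J = C * ((b ^ J)⁻¹ * 1) := by rw [mul_one, div_eq_mul_inv]
      _ ≤ C * ((μ ^ J)⁻¹ * (K ^ 3 * a)) := by gcongr
      _ = _ := by ring
  · calc C / b ^ (J + 2) = C * ((b ^ J)⁻¹ * (b ^ 2)⁻¹) := by rw [pow_add, div_eq_mul_inv, mul_inv]
      _ ≤ C * ((μ ^ J)⁻¹ * (K ^ 3 * a⁻¹)) := by gcongr; exact e5.trans e2
      _ = _ := by ring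
  · calc C / b ^ (J + 4) = C * ((b ^ J)⁻¹ * (b ^ 4)⁻¹) := by rw [pow_add, div_eq_mul_inv, mul_inv]
      _ ≤ C * ((μ ^ J)⁻¹ * (K ^ 3 * (a ^ 3)⁻¹)) := by gcongr; exact e6.trans e3
      _ = _ := by ring

lemma prod {S ε p q x y x' y' : ℝ} (h1 : ε ≤ 1) (hx : |x| ≤ S * p) (hy : |y| ≤ S * q)
    (hx' : |x - x'| ≤ S * ε * p) (hy' : |y - y'| ≤ S * ε * q) :
    |x * y| ≤ S ^ 2 * (p * q) ∧ |x * y - x' * y'| ≤ 3 * S ^ 2 * ε * (p * q) := by
  have a0 : 0 ≤ S * p := (abs_nonneg _).trans hx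
  have a1 : 0 ≤ S * ε * p := (abs_nonneg _).trans hx'
  have a2 : |x'| ≤ 2 * (S * p) := by
    have : |x'| ≤ |x| + |x - x'| := by
      have := abs_sub x (x - x')
      rwa [sub_sub_cancel] at this
    nlinarith
  constructor
  · rw [abs_mul]
    exact (mul_le_mul hx hy (abs_nonneg _) a0).trans (le_of_eq (by ring))
  · have e : x * y - x' * y' = (x - x') * y + x' * (y - y') := by ring
    rw [e]
    refine (abs_add_le _ _).trans ?_
    rw [abs_mul, abs_mul]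
    have b1 := mul_le_mul hx' hy (abs_nonneg _) a1
    have b2 := mul_le_mul a2 hy' (abs_nonneg _) (by linarith)
    nlinarith

lemma abs3 {x y z c : ℝ} (hx : |x| ≤ c) (hy : |y| ≤ c) (hz : |z| ≤ c) :
    |2 * x - 2 * y - 2 * z| ≤ 6 * c := by
  rw [abs_le] at *
  constructor <;> linarith [hx.1, hx.2, hy.1, hy.2, hz.1, hz.2]

lemma comb {S ε a N M G n m g N' M' G' n' m' g' : ℝ} (h1 : ε ≤ 1) (ha : 0 < a)
    (h : Tri S ε a N M G n m g) (h' : Tri S ε a N' M' G' n' m' g') :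
    |cb N M G N' M' G'| ≤ 6 * S ^ 2 * (a ^ 2)⁻¹ ∧
      |cb N M G N' M' G' - cb n m g n' m' g'| ≤ 18 * S ^ 2 * ε * (a ^ 2)⁻¹ := by
  have p1 := prod h1 h.m0 h'.m0 h.m1 h'.m1
  have p2 := prod h1 h.n0 h'.g0 h.n1 h'.g1
  have p3 := prod h1 h.g0 h'.n0 h.g1 h'.n1
  have e1 : a⁻¹ * a⁻¹ = (a ^ 2)⁻¹ := by field_simp
  have e2 : a * (a ^ 3)⁻¹ = (a ^ 2)⁻¹ := by field_simp
  have e3 : (a ^ 3)⁻¹ * a = (a ^ 2)⁻¹ := by field_simp
  rw [e1] at p1
  rw [e2] at p2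
  rw [e3] at p3
  constructor
  · exact (abs3 p1.1 p2.1 p3.1).trans (le_of_eq (by ring))
  · have e : cb N M G N' M' G' - cb n m g n' m' g' =
        2 * (M * M' - m * m') - 2 * (N * G' - n * g') - 2 * (G * N' - g * n') := by
      unfold cb; ring
    rw [e]
    exact (abs3 p1.2 p2.2 p3.2).trans (le_of_eq (by ring))

lemma summ_w : Summable fun l : ℤ => (1 + (l : ℝ) ^ 2)⁻¹ := by
  have hs : Summable fun j : ℤ => 1 / (j : ℝ) ^ 2 :=
    Real.summable_one_div_int_pow.2 (by norm_num)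
  refine Summable.of_norm_bounded_eventually hs ?_
  filter_upwards [Filter.eventually_cofinite_ne (0 : ℤ)] with j hj
  have h2 : (0 : ℝ) < (j : ℝ) ^ 2 := by
    have : (j : ℝ) ≠ 0 := by exact_mod_cast hj
    positivity
  rw [Real.norm_of_nonneg (by positivity), one_div]
  exact inv_anti₀ h2 (by linarith)

lemma le_lam {μ : ℝ} (_hμ : 1 ≤ μ) (x : ℝ) : μ ≤ √(μ ^ 2 + x ^ 2) :=
  Real.le_sqrt_of_sq_le (by nlinarith [sq_nonneg x])

lemma lam_le {μ : ℝ} (hμ : 1 ≤ μ) {x y k : ℝ} (hk : 0 ≤ k) (h : |y - x| ≤ k) :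
    √(μ ^ 2 + y ^ 2) ≤ (1 + k) * √(μ ^ 2 + x ^ 2) := by
  have h1 := hμ.trans (le_lam hμ x)
  have h2 : √(μ ^ 2 + x ^ 2) ^ 2 = μ ^ 2 + x ^ 2 := Real.sq_sqrt (by positivity)
  have h3 : |x| ≤ √(μ ^ 2 + x ^ 2) := Real.abs_le_sqrt (by nlinarith)
  have h4 : |y| ≤ |x| + k := by
    have := abs_add_le x (y - x)
    rw [add_sub_cancel] at this
    linarith
  have h5 : y ^ 2 ≤ (|x| + k) ^ 2 := by
    rw [← sq_abs y]; gcongr
  refine Real.sqrt_le_iff.2 ⟨by positivity, ?_⟩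
  have h6 := sq_abs x
  have h7 := abs_nonneg x
  generalize √(μ ^ 2 + x ^ 2) = L at *
  have h8 : k * |x| ≤ k * L ^ 2 := by
    have : L ≤ L ^ 2 := by nlinarith
    exact mul_le_mul_of_nonneg_left (h3.trans this) hk
  have h9 : k ^ 2 * 1 ≤ k ^ 2 * L ^ 2 := by
    have : 1 ≤ L ^ 2 := by nlinarith
    exact mul_le_mul_of_nonneg_left this (sq_nonneg k)
  nlinarith

lemma seq (J k : ℕ) {C : ℝ} (hC : 0 ≤ C) : ∃ A, ∀ (μ : ℝ) (N M G n m g : ℤ → ℝ), 1 ≤ μ →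
    (∀ l : ℤ, Raw J C √(μ ^ 2 + (l : ℝ) ^ 2) (N l) (M l) (G l) (n l) (m l) (g l)) →
    (Summable fun l : ℤ => cb (N l) (M l) (G l) (N (l + k)) (M (l + k)) (G (l + k))) ∧
    |∑' l : ℤ, cb (N l) (M l) (G l) (N (l + k)) (M (l + k)) (G (l + k)) -
      ∑' l : ℤ, cb (n l) (m l) (g l) (n (l + k)) (m (l + k)) (g (l + k))| ≤ A / μ ^ J := by
  refine ⟨18 * (C * (1 + k) ^ 3) ^ 2 * ∑' l : ℤ, (1 + (l : ℝ) ^ 2)⁻¹, ?_⟩
  intro μ N M G n m g hμ h
  have hk : (0 : ℝ) ≤ k := by positivity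
  have hε : (μ ^ J)⁻¹ ≤ 1 := inv_le_one_of_one_le₀ (one_le_pow₀ hμ)
  have key : ∀ l : ℤ, |cb (N l) (M l) (G l) (N (l + k)) (M (l + k)) (G (l + k))| ≤
      6 * (C * (1 + k) ^ 3) ^ 2 * (1 + (l : ℝ) ^ 2)⁻¹ ∧
      |cb (N l) (M l) (G l) (N (l + k)) (M (l + k)) (G (l + k)) -
        cb (n l) (m l) (g l) (n (l + k)) (m (l + k)) (g (l + k))| ≤
      18 * (C * (1 + k) ^ 3) ^ 2 * (μ ^ J)⁻¹ * (1 + (l : ℝ) ^ 2)⁻¹ := by
    intro l
    have a1 := le_lam hμ l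
    have a2 := le_lam hμ ((l + k : ℤ) : ℝ)
    have a3 := lam_le hμ (x := l) (y := l) hk (by simp)
    have a4 := lam_le hμ (x := l) (y := ((l + k : ℤ) : ℝ)) hk (by simp)
    have a5 := lam_le hμ (y := l) (x := ((l + k : ℤ) : ℝ)) hk (by simp)
    have t1 := tri hC (by linarith) hμ a1 a1 a3 a3 (h l)
    have t2 := tri hC (by linarith) hμ a1 a2 a5 a4 (h (l + k))
    have c := comb hε (by linarith) t1 t2
    have e : (√(μ ^ 2 + (l : ℝ) ^ 2) ^ 2)⁻¹ ≤ (1 + (l : ℝ) ^ 2)⁻¹ := by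
      rw [Real.sq_sqrt (by positivity)]
      exact inv_anti₀ (by positivity) (by nlinarith)
    exact ⟨c.1.trans (by gcongr), c.2.trans (by gcongr)⟩
  have s1 : Summable fun l : ℤ => cb (N l) (M l) (G l) (N (l + k)) (M (l + k)) (G (l + k)) :=
    Summable.of_norm_bounded (summ_w.mul_left _) fun l => (key l).1
  have s2 : Summable fun l : ℤ => cb (N l) (M l) (G l) (N (l + k)) (M (l + k)) (G (l + k)) -
      cb (n l) (m l) (g l) (n (l + k)) (m (l + k)) (g (l + k)) :=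
    Summable.of_norm_bounded (summ_w.mul_left _) fun l => (key l).2
  have s3 : Summable fun l : ℤ => cb (n l) (m l) (g l) (n (l + k)) (m (l + k)) (g (l + k)) := by
    simpa using s1.sub s2
  refine ⟨s1, ?_⟩
  rw [← s1.tsum_sub s3]
  have := tsum_of_norm_bounded (f := fun l : ℤ =>
    cb (N l) (M l) (G l) (N (l + k)) (M (l + k)) (G (l + k)) -
      cb (n l) (m l) (g l) (n (l + k)) (m (l + k)) (g (l + k))) ((summ_w.mul_left
    (18 * (C * (1 + k) ^ 3) ^ 2 * (μ ^ J)⁻¹)).hasSum) fun l => (key l).2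
  rw [tsum_mul_left] at this
  exact this.trans (le_of_eq (by ring))

/-- reflected data -/
def rf (δ : ℝ) (g : GD) : GD :=
  ⟨fun f x => g.G (fun y => f (δ - y)) (δ - x), fun x => g.h1 (δ - x), fun x => g.h0 (δ - x)⟩

lemma dd {E : Type} [NormedAddCommGroup E] [NormedSpace ℝ E] (δ : ℝ) (u : ℝ → E) (x : ℝ) :
    deriv (deriv fun x => u (δ - x)) x = deriv (deriv u) (δ - x) := by
  have : (deriv fun x => u (δ - x)) = fun x => -deriv u (δ - x) :=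
    funext fun x => deriv_comp_const_sub _ _ _
  rw [this, deriv.fun_neg, deriv_comp_const_sub, neg_neg]

lemma gr_rf {q : ℝ → ℝ} {δ : ℝ} {g : GD} (h : Gr q δ g) : Gr (fun x => q (δ - x)) δ (rf δ g) := by
  have hs : ContDiff ℝ ∞ fun x : ℝ => δ - x := contDiff_const.sub contDiff_id
  have hm : ∀ x ∈ Icc 0 δ, δ - x ∈ Icc 0 δ := fun x hx => ⟨by linarith [hx.2], by linarith [hx.1]⟩
  refine ⟨fun f hf => (h.sm _ (hf.comp hs)).comp hs, fun f hf => ?_, fun f hf => ?_,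
    fun f hf x hx => ?_, h.s1.comp hs, h.s0.comp hs, ?_, ?_, ?_, ?_, fun x hx => ?_,
    fun x hx => ?_⟩
  · simpa [rf] using h.z1 (fun y => f (δ - y)) (hf.comp hs)
  · simpa [rf] using h.z0 (fun y => f (δ - y)) (hf.comp hs)
  · have := h.eq (fun y => f (δ - y)) (hf.comp hs) _ (hm x hx)
    simp only [sub_sub_cancel] at this
    exact (dd δ (g.G fun y => f (δ - y)) x).trans this
  · simpa [rf] using h.v11
  · simpa [rf] using h.v10
  · simpa [rf] using h.v01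
  · simpa [rf] using h.v00
  · exact (dd δ g.h1 x).trans (h.e1 _ (hm x hx))
  · exact (dd δ g.h0 x).trans (h.e0 _ (hm x hx))

lemma rf_N (δ : ℝ) (g : GD) : (rf δ g).N0 = g.N1 δ := by
  have : deriv (fun x => g.h1 (δ - x)) 0 = -deriv g.h1 (δ - 0) := deriv_comp_const_sub _ _ _
  simp only [GD.N0, GD.N1, rf, this, neg_neg, sub_zero]

lemma rf_M (δ : ℝ) (g : GD) : (rf δ g).M0 δ = g.M1 δ := by
  have := intervalIntegral.integral_comp_sub_left (a := 0) (b := δ) (fun x => g.h1 x ^ 2) δ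
  simpa only [GD.M0, GD.M1, rf, sub_self, sub_zero] using this

lemma rf_G (δ : ℝ) (g : GD) : (rf δ g).G0 δ = g.G1 δ := by
  have := intervalIntegral.integral_comp_sub_left (a := 0) (b := δ)
    (fun x => g.u1 x * g.h1 x) δ
  simpa only [GD.G0, GD.G1, GD.u0, GD.u1, rf, sub_self, sub_zero, sub_sub_cancel] using this

lemma exp_le (n : ℕ) {c : ℝ} (hc : 0 < c) : ∃ E, 0 ≤ E ∧ ∀ a : ℝ, 0 < a →
    Real.exp (-(c * a)) ≤ E / a ^ n := by
  refine ⟨n.factorial / c ^ n, by positivity, fun a ha => ?_⟩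
  have h := Real.pow_div_factorial_le_exp (c * a) (by positivity) n
  rw [Real.exp_neg, div_div, ← mul_pow, ← inv_div]
  exact inv_anti₀ (by positivity) h

lemma cb_eq {R : ℝ} (hR : R ≠ 0) (k : ℕ) (φ : ℝ → ℝ → ℝ) (μ : ℝ) :
    ∑' l : ℤ, cb (φ (μ ^ 2 * R ^ 2) ((l : ℝ) ^ 2) / R) (R * dt φ (μ ^ 2 * R ^ 2) ((l : ℝ) ^ 2))
      (-(R ^ 3 * dt (dt φ) (μ ^ 2 * R ^ 2) ((l : ℝ) ^ 2) / 2))
      (φ (μ ^ 2 * R ^ 2) (((l + k : ℤ) : ℝ) ^ 2) / R)
      (R * dt φ (μ ^ 2 * R ^ 2) (((l + k : ℤ) : ℝ) ^ 2))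
      (-(R ^ 3 * dt (dt φ) (μ ^ 2 * R ^ 2) (((l + k : ℤ) : ℝ) ^ 2) / 2)) =
    R ^ 2 * Bq k φ (μ * R) := by
  rw [Bq, ← tsum_mul_left, mul_pow]
  refine tsum_congr fun l => ?_
  unfold cb
  push_cast
  field_simp
  ring

end PS1

open PS1 in
theorem st_ps1 (hQV : St_QV) (hBND : St_BND) (_hSYC : St_SYC) (hRIC : St_RIC) : St_PS1 := by
  intro J k φ φ' h1 h2 h3 h4
  have hdl : 0 < dl := by norm_num [dl]
  obtain ⟨C0, c, hc, hB⟩ := hBND dl hdl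
  obtain ⟨C1, μ1, hR1⟩ := hRIC J 1 R1 dl φ (Or.inl rfl) (by norm_num [R1]) (by norm_num [R1]) hdl
    (by norm_num [dl]) h1 h2
  obtain ⟨C2, μ2, hR2⟩ := hRIC J (-1) r0 dl φ' (Or.inr rfl) (by norm_num [r0]) (by norm_num [r0])
    hdl (by norm_num [dl]) h3 h4
  obtain ⟨E, hE0, hE⟩ := exp_le (J + 2) hc
  obtain ⟨C, hCd⟩ : ∃ C, C = |C0| + |C1| + |C2| + |C0| * E := ⟨_, rfl⟩
  have q0 := abs_nonneg C0
  have q1 := abs_nonneg C1
  have q2 := abs_nonneg C2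
  have q3 : 0 ≤ |C0| * E := by positivity
  have hC : 0 ≤ C := by linarith
  have r0' : C0 ≤ C := by linarith [le_abs_self C0]
  have r1' : C1 ≤ C := by linarith [le_abs_self C1]
  have r2' : C2 ≤ C := by linarith [le_abs_self C2]
  obtain ⟨A, hA⟩ := seq J k hC
  refine ⟨4 * A, max 1 (max μ1 μ2), fun μ g hμ hg => ?_⟩
  have m0 : 1 ≤ μ := (le_max_left _ _).trans hμ
  have m1 : μ1 ≤ μ := ((le_max_left _ _).trans (le_max_right _ _)).trans hμ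
  have m2 : μ2 ≤ μ := ((le_max_right _ _).trans (le_max_right _ _)).trans hμ
  have hl : ∀ l : ℤ, 1 ≤ √(μ ^ 2 + (l : ℝ) ^ 2) := fun l => m0.trans (le_lam m0 l)
  have hS : ∀ l : ℤ, Sz C0 c dl √(μ ^ 2 + (l : ℝ) ^ 2) (g l) := fun l =>
    hB _ _ _ (hl l) (hQV.2.2 μ l m0).1 (hQV.2.2 μ l m0).2 (hg l)
  have up : ∀ {x D b : ℝ}, D ≤ C → 0 ≤ b → x ≤ D / b → x ≤ C / b := fun h hb hx =>
    hx.trans (div_le_div_of_nonneg_right h hb)
  have up' : ∀ {x b : ℝ}, 0 ≤ b → x ≤ C0 * b → x ≤ C * b := fun hb hx =>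
    hx.trans (mul_le_mul_of_nonneg_right r0' hb)
  have o1 := hA μ (fun l => (g l).N0) (fun l => (g l).M0 dl) (fun l => (g l).G0 dl)
    (fun l => φ (μ ^ 2 * R1 ^ 2) ((l : ℝ) ^ 2) / R1)
    (fun l => R1 * dt φ (μ ^ 2 * R1 ^ 2) ((l : ℝ) ^ 2))
    (fun l => -(R1 ^ 3 * dt (dt φ) (μ ^ 2 * R1 ^ 2) ((l : ℝ) ^ 2) / 2)) m0 fun l => by
      have a := hR1 μ ((l : ℝ) ^ 2) (qv μ l) (g l) m1 (sq_nonneg _) (hQV.2.2 μ l m0).1
        (fun x hx => by
          rw [qv, hQV.2.1 x (hx.2.trans (by norm_num [dl])), one_mul, ← div_eq_mul_inv]) (hg l)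
      exact ⟨up' (by positivity) (hS l).n0, up r0' (by positivity) (hS l).m0,
        up r0' (by positivity) (hS l).g0, up r1' (by positivity) a.1,
        up r1' (by positivity) a.2.1, up r1' (by positivity) (by rw [sub_neg_eq_add]; exact a.2.2)⟩
  have o2 := hA μ (fun l => (g l).N1 dl) (fun l => (g l).M1 dl) (fun l => (g l).G1 dl)
    (fun l => φ' (μ ^ 2 * r0 ^ 2) ((l : ℝ) ^ 2) / r0)
    (fun l => r0 * dt φ' (μ ^ 2 * r0 ^ 2) ((l : ℝ) ^ 2))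
    (fun l => -(r0 ^ 3 * dt (dt φ') (μ ^ 2 * r0 ^ 2) ((l : ℝ) ^ 2) / 2)) m0 fun l => by
      have a := hR2 μ ((l : ℝ) ^ 2) (fun x => qv μ l (dl - x)) (rf dl (g l)) m2 (sq_nonneg _)
        ((hQV.2.2 μ l m0).1.comp (contDiff_const.sub contDiff_id))
        (fun x hx => by
          have e : R1 - (dl - x) = r0 - -1 * x := by
            simp only [R1, dl, r0]; ring
          have := hx.1
          rw [qv, hQV.2.1 (dl - x) (by simp only [dl]; linarith), e, ← div_eq_mul_inv])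
        (gr_rf (hg l))
      rw [rf_N, rf_M, rf_G] at a
      exact ⟨up' (by positivity) (hS l).n1, up r0' (by positivity) (hS l).m1,
        up r0' (by positivity) (hS l).g1, up r2' (by positivity) a.1,
        up r2' (by positivity) a.2.1, up r2' (by positivity) (by rw [sub_neg_eq_add]; exact a.2.2)⟩
  have o3 := hA μ (fun l => (g l).Nx dl) (fun l => (g l).Mx dl) (fun l => (g l).Gx dl)
    (fun _ => 0) (fun _ => 0) (fun l => (g l).Gx dl) m0 fun l => by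
      have a := hl l
      have s := hS l
      generalize √(μ ^ 2 + (l : ℝ) ^ 2) = b at a s
      have e : ∀ i ≤ J + 2, C0 * Real.exp (-(c * b)) ≤ C / b ^ i := by
        intro i hi
        calc C0 * Real.exp (-(c * b)) ≤ |C0| * (E / b ^ (J + 2)) :=
              mul_le_mul (le_abs_self _) (hE b (by linarith)) (by positivity) q0
          _ = |C0| * E / b ^ (J + 2) := by ring
          _ ≤ C / b ^ i := by
              gcongr
              linarith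
      refine ⟨s.nx.trans ((e 0 (by omega)).trans ?_), s.mx.trans (by simpa using e 1 (by omega)),
        up r0' (by positivity) s.gx, ?_, ?_, ?_⟩
      · rw [pow_zero, div_one]; exact le_mul_of_one_le_right hC a
      · rw [sub_zero]; exact s.nx.trans (e J (by omega))
      · rw [sub_zero]; exact s.mx.trans (e _ le_rfl)
      · rw [sub_self, abs_zero]; positivity
  rw [cb_eq (by norm_num [R1])] at o1
  rw [cb_eq (by norm_num [r0])] at o2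
  have z : ∑' l : ℤ, cb 0 0 ((g l).Gx dl) 0 0 ((g (l + k)).Gx dl) = 0 := by simp [cb]
  rw [z, sub_zero] at o3
  have hP := ((o1.1.hasSum.add o2.1.hasSum).sub (o3.1.hasSum.mul_left 2)).tsum_eq
  have hP' : Psi k g = _ := Eq.trans (tsum_congr fun l => by unfold Es cb; ring) hP
  rw [hP', mul_div_assoc]
  have b1 := abs_le.1 o1.2
  have b2 := abs_le.1 o2.2
  have b3 := abs_le.1 o3.2
  rw [abs_le]
  constructor <;> linarith [b1.1, b1.2, b2.1, b2.2, b3.1, b3.2]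

end Pool.Agent.Lib.ISO
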