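import Pool.Agent.Lib.ISO.BlueV

/-! Block PS2: expansion of the bubble sum of the three-term symbol. -/

open scoped ContDiff Topology
open Set Filter

noncomputable section

namespace Pool.Agent.Lib.ISO

namespace PS2

/-- expansion of `∑' l, T k ν l` in `1/ν` whose coefficient at `2m+5` has principal part `c m` -/
def QQ (N : ℕ) (T : ℕ → ℝ → ℤ → ℝ) (c : ℕ → ℕ → ℝ) : Prop :=
  ∃ ψ : ℕ → ℕ → ℝ, (∀ k : ℕ, ∃ C, ∀ ν : ℝ, 1 ≤ ν → Summable (T k ν) ∧
    |∑' l, T k ν l - ∑ n ∈ Finset.range N, ψ n k / ν ^ n| ≤ C / ν ^ N) ∧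
  ∀ m, 2 * m + 5 < N → ∃ C, ∀ k : ℕ, 1 ≤ k → |ψ (2 * m + 5) k - c m k| ≤ C * (k : ℝ) ^ (2 * m + 1)

def pr (f g : ℝ → ℝ → ℝ) (k : ℕ) (ν : ℝ) (l : ℤ) : ℝ :=
  f (ν ^ 2) (l ^ 2) * g (ν ^ 2) ((l + k) ^ 2)

theorem QQ.congr {N T T' c c'} (h : QQ N T c) (hT : ∀ k ν l, 1 ≤ ν → T' k ν l = T k ν l)
    (hc : ∀ m k, c' m k = c m k) : QQ N T' c' := by
  obtain ⟨ψ, h1, h2⟩ := h
  refine ⟨ψ, fun k => ?_, fun m hm => ?_⟩
  · obtain ⟨C, hC⟩ := h1 k
    refine ⟨C, fun ν hν => ?_⟩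
    have e : T' k ν = T k ν := funext fun l => hT k ν l hν
    rw [e]
    exact hC ν hν
  · obtain ⟨C, hC⟩ := h2 m hm
    exact ⟨C, fun k hk => by rw [hc]; exact hC k hk⟩

theorem QQ.zero (N : ℕ) : QQ N (fun _ _ _ => 0) (fun _ _ => 0) := by
  refine ⟨fun _ _ => 0, fun k => ⟨0, fun ν hν => ⟨summable_zero, by simp⟩⟩,
    fun m _ => ⟨0, fun k _ => by simp⟩⟩

theorem QQ.add {N T T' c c'} (h : QQ N T c) (h' : QQ N T' c') :
    QQ N (fun k ν l => T k ν l + T' k ν l) (fun m k => c m k + c' m k) := by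
  obtain ⟨ψ, h1, h2⟩ := h
  obtain ⟨ψ', h1', h2'⟩ := h'
  refine ⟨fun n k => ψ n k + ψ' n k, fun k => ?_, fun m hm => ?_⟩
  · obtain ⟨C, hC⟩ := h1 k
    obtain ⟨C', hC'⟩ := h1' k
    refine ⟨C + C', fun ν hν => ?_⟩
    obtain ⟨s1, b1⟩ := hC ν hν
    obtain ⟨s2, b2⟩ := hC' ν hν
    refine ⟨s1.add s2, ?_⟩
    rw [s1.tsum_add s2]
    simp only [add_div, Finset.sum_add_distrib]
    have := abs_add_le (∑' l, T k ν l - ∑ n ∈ Finset.range N, ψ n k / ν ^ n)
      (∑' l, T' k ν l - ∑ n ∈ Finset.range N, ψ' n k / ν ^ n)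
    refine le_trans (le_of_eq ?_) (this.trans (add_le_add b1 b2))
    congr 1
    ring
  · obtain ⟨C, hC⟩ := h2 m hm
    obtain ⟨C', hC'⟩ := h2' m hm
    refine ⟨C + C', fun k hk => ?_⟩
    have := abs_add_le (ψ (2 * m + 5) k - c m k) (ψ' (2 * m + 5) k - c' m k)
    rw [add_mul]
    refine le_trans (le_of_eq ?_) (this.trans (add_le_add (hC k hk) (hC' k hk)))
    congr 1
    ring

theorem QQ.smul {N T c} (r : ℝ) (h : QQ N T c) :
    QQ N (fun k ν l => r * T k ν l) (fun m k => r * c m k) := by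
  obtain ⟨ψ, h1, h2⟩ := h
  refine ⟨fun n k => r * ψ n k, fun k => ?_, fun m hm => ?_⟩
  · obtain ⟨C, hC⟩ := h1 k
    refine ⟨|r| * C, fun ν hν => ?_⟩
    obtain ⟨s1, b1⟩ := hC ν hν
    refine ⟨s1.mul_left r, ?_⟩
    rw [tsum_mul_left]
    simp only [mul_div_assoc, ← Finset.mul_sum]
    rw [← mul_sub, abs_mul]
    exact mul_le_mul_of_nonneg_left b1 (abs_nonneg r)
  · obtain ⟨C, hC⟩ := h2 m hm
    refine ⟨|r| * C, fun k hk => ?_⟩
    rw [← mul_sub, abs_mul, mul_assoc]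
    exact mul_le_mul_of_nonneg_left (hC k hk) (abs_nonneg r)

/-- principal part of a pair of monomials of total degree `d` -/
def pp (d : ℤ) (x y : ℝ) (m k : ℕ) : ℝ :=
  if d = -2 then √Real.pi * beta (m + 2) x y * (k : ℝ) ^ (2 * m + 4)
  else if d = -4 then √Real.pi * beta (m + 1) x y * (k : ℝ) ^ (2 * m + 2) else 0

theorem base (hBUB : St_BUB) (N a a' : ℕ) (b b' : ℤ) (hd : 2 * a + b + (2 * a' + b') ≤ -2) :
    QQ N (pr (sy a b) (sy a' b')) (pp (2 * a + b + (2 * a' + b')) (-b / 2) (-b' / 2)) := by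
  have H := hBUB a a' b b' hd
  generalize (2 * a + b + (2 * a' + b') : ℤ) = d at H hd ⊢
  generalize (-(b : ℝ) / 2) = x at H ⊢
  generalize (-(b' : ℝ) / 2) = y at H ⊢
  refine ⟨fun n k => ∑ j ∈ Finset.range N, if (n : ℤ) = 2 * j - d - 1 then
    √Real.pi * beta j x y * (k : ℝ) ^ (2 * j) else 0, fun k => ?_, fun m hm => ?_⟩
  · obtain ⟨C, hC⟩ := H k N
    refine ⟨|C| + ∑ j ∈ Finset.range N, |√Real.pi * beta j x y * (k : ℝ) ^ (2 * j)|,
      fun ν hν => ?_⟩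
    obtain ⟨s1, b1⟩ := hC ν hν
    refine ⟨s1, ?_⟩
    have hν0 : 0 < ν := by linarith
    have hz : ∀ e : ℤ, e ≤ -N → ν ^ e ≤ 1 / ν ^ N := by
      intro e he
      have := zpow_le_zpow_right₀ hν he
      rwa [zpow_neg, zpow_natCast, ← one_div] at this
    have key : ∀ j ∈ Finset.range N,
        |√Real.pi * beta j x y * (k : ℝ) ^ (2 * j) * ν ^ (d + 1 - 2 * j : ℤ) -
          ∑ n ∈ Finset.range N, (if (n : ℤ) = 2 * j - d - 1 then
            √Real.pi * beta j x y * (k : ℝ) ^ (2 * j) else 0) / ν ^ n| ≤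
          |√Real.pi * beta j x y * (k : ℝ) ^ (2 * j)| / ν ^ N := by
      intro j _
      generalize √Real.pi * beta j x y * (k : ℝ) ^ (2 * j) = u
      obtain ⟨n0, hn0⟩ := Int.eq_ofNat_of_zero_le (show (0 : ℤ) ≤ 2 * j - d - 1 by omega)
      by_cases hlt : n0 < N
      · rw [Finset.sum_eq_single n0]
        · rw [if_pos hn0.symm, show (d + 1 - 2 * j : ℤ) = -(n0 : ℤ) by omega, zpow_neg,
            zpow_natCast, div_eq_mul_inv, sub_self, abs_zero]
          positivity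
        · intro n _ hn
          rw [if_neg (by omega), zero_div]
        · intro h
          exact absurd (Finset.mem_range.2 hlt) h
      · rw [Finset.sum_eq_zero, sub_zero, abs_mul, abs_of_pos (zpow_pos hν0 _), div_eq_mul_one_div]
        · exact mul_le_mul_of_nonneg_left (hz _ (by omega)) (abs_nonneg _)
        · intro n hn
          have := Finset.mem_range.1 hn
          rw [if_neg (by omega), zero_div]
    have e1 : ∑ n ∈ Finset.range N, (∑ j ∈ Finset.range N, if (n : ℤ) = 2 * j - d - 1 then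
        √Real.pi * beta j x y * (k : ℝ) ^ (2 * j) else 0) / ν ^ n =
        ∑ j ∈ Finset.range N, ∑ n ∈ Finset.range N, (if (n : ℤ) = 2 * j - d - 1 then
          √Real.pi * beta j x y * (k : ℝ) ^ (2 * j) else 0) / ν ^ n := by
      simp only [Finset.sum_div]
      exact Finset.sum_comm
    rw [e1]
    have b2 := (Finset.abs_sum_le_sum_abs _ _).trans (Finset.sum_le_sum key)
    rw [Finset.sum_sub_distrib, ← Finset.sum_div] at b2
    have b3 : C * ν ^ (d + 1 - 2 * N : ℤ) ≤ |C| / ν ^ N := by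
      rw [div_eq_mul_one_div]
      exact (mul_le_mul_of_nonneg_right (le_abs_self C) (zpow_pos hν0 _).le).trans
        (mul_le_mul_of_nonneg_left (hz _ (by omega)) (abs_nonneg _))
    rw [add_div]
    exact (abs_sub_le _ _ _).trans (add_le_add (b1.trans b3) b2)
  · by_cases h2 : d = -2
    · refine ⟨0, fun k _ => ?_⟩
      beta_reduce
      rw [Finset.sum_eq_single (m + 2)]
      · rw [if_pos (by push_cast; omega), pp, if_pos h2, show 2 * (m + 2) = 2 * m + 4 by ring]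
        simp
      · intro j _ hj
        rw [if_neg (by push_cast; omega)]
      · intro h
        exact absurd (Finset.mem_range.2 (by omega)) h
    by_cases h4 : d = -4
    · refine ⟨0, fun k _ => ?_⟩
      beta_reduce
      rw [Finset.sum_eq_single (m + 1)]
      · rw [if_pos (by push_cast; omega), pp, if_neg h2, if_pos h4,
          show 2 * (m + 1) = 2 * m + 2 by ring]
        simp
      · intro j _ hj
        rw [if_neg (by push_cast; omega)]
      · intro h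
        exact absurd (Finset.mem_range.2 (by omega)) h
    refine ⟨∑ j ∈ Finset.range N, |√Real.pi * beta j x y|, fun k hk => ?_⟩
    beta_reduce
    rw [pp, if_neg h2, if_neg h4, sub_zero, Finset.sum_mul]
    refine (Finset.abs_sum_le_sum_abs _ _).trans (Finset.sum_le_sum fun j _ => ?_)
    have hk1 : (1 : ℝ) ≤ k := by exact_mod_cast hk
    split_ifs with hj
    · rw [abs_mul _ ((k : ℝ) ^ (2 * j)), abs_of_nonneg (a := (k : ℝ) ^ (2 * j)) (by positivity)]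
      refine mul_le_mul_of_nonneg_left (pow_le_pow_right₀ hk1 ?_) (abs_nonneg _)
      push_cast at hj
      omega
    · rw [abs_zero]
      positivity

theorem small_span (hBUB : St_BUB) (N : ℕ) (d d' : ℤ) (hd : d + d' ≤ -5) (f g : ℝ → ℝ → ℝ)
    (hf : f ∈ SyL d) (hg : g ∈ SyL d') : QQ N (pr f g) (fun _ _ => 0) := by
  induction hf using Submodule.span_induction with
  | mem f hf =>
    obtain ⟨a, b, hab, rfl⟩ := hf
    induction hg using Submodule.span_induction with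
    | mem g hg =>
      obtain ⟨a', b', hab', rfl⟩ := hg
      refine (base hBUB N a a' b b' (by omega)).congr (fun _ _ _ _ => rfl) (fun m k => ?_)
      rw [pp, if_neg (by omega), if_neg (by omega)]
    | zero => exact (QQ.zero N).congr (fun k ν l _ => by simp [pr]) (fun _ _ => rfl)
    | add g g' _ _ h h' =>
      exact (h.add h').congr (fun k ν l _ => by simp [pr, mul_add]) (fun _ _ => by simp)
    | smul r g _ h =>
      exact (h.smul r).congr (fun k ν l _ => by simp [pr]; ring) (fun _ _ => by simp)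
  | zero => exact (QQ.zero N).congr (fun k ν l _ => by simp [pr]) (fun _ _ => rfl)
  | add f f' _ _ h h' =>
    exact (h.add h').congr (fun k ν l _ => by simp [pr, add_mul]) (fun _ _ => by simp)
  | smul r f _ h =>
    exact (h.smul r).congr (fun k ν l _ => by simp [pr]; ring) (fun _ _ => by simp)

theorem small (hBUB : St_BUB) (N : ℕ) (d d' : ℤ) (hd : d + d' ≤ -5) (f g : ℝ → ℝ → ℝ)
    (hf : InS d f) (hg : InS d' g) : QQ N (pr f g) (fun _ _ => 0) := by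
  obtain ⟨f', hf', ef⟩ := hf
  obtain ⟨g', hg', eg⟩ := hg
  refine (small_span hBUB N d d' hd f' g' hf' hg').congr (fun k ν l hν => ?_) (fun _ _ => rfl)
  have : 0 < ν ^ 2 := by positivity
  rw [pr, pr, ef _ _ this (by positivity), eg _ _ this (by positivity)]

/-- value of a list of monomials -/
def ev (L : List (ℝ × ℕ × ℤ)) (τ s : ℝ) : ℝ := (L.map fun p => p.1 * sy p.2.1 p.2.2 τ s).sum

def cf (L L' : List (ℝ × ℕ × ℤ)) (m k : ℕ) : ℝ :=
  (L.map fun p => p.1 * (L'.map fun q => q.1 *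
    pp (2 * p.2.1 + p.2.2 + (2 * q.2.1 + q.2.2)) (-p.2.2 / 2) (-q.2.2 / 2) m k).sum).sum

theorem row (hBUB : St_BUB) (N a : ℕ) (b : ℤ) (L' : List (ℝ × ℕ × ℤ))
    (h : ∀ q ∈ L', 2 * a + b + (2 * q.2.1 + q.2.2) ≤ -2) :
    QQ N (pr (sy a b) (ev L')) (fun m k => (L'.map fun q => q.1 *
      pp (2 * a + b + (2 * q.2.1 + q.2.2)) (-b / 2) (-q.2.2 / 2) m k).sum) := by
  induction L' with
  | nil => exact (QQ.zero N).congr (fun k ν l _ => by simp [pr, ev]) (fun _ _ => by simp)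
  | cons q L ih =>
    have h1 := (base hBUB N a q.2.1 b q.2.2 (h q (by simp))).smul q.1
    have h2 := ih fun q' hq' => h q' (by simp [hq'])
    refine (h1.add h2).congr (fun k ν l _ => ?_) (fun _ _ => by simp)
    simp only [pr, ev, List.map_cons, List.sum_cons]
    ring

theorem lists (hBUB : St_BUB) (N : ℕ) (L L' : List (ℝ × ℕ × ℤ))
    (h : ∀ p ∈ L, ∀ q ∈ L', 2 * p.2.1 + p.2.2 + (2 * q.2.1 + q.2.2) ≤ -2) :
    QQ N (pr (ev L) (ev L')) (cf L L') := by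
  induction L with
  | nil => exact (QQ.zero N).congr (fun k ν l _ => by simp [pr, ev]) (fun _ _ => by simp [cf])
  | cons p L ih =>
    have h1 := (row hBUB N p.2.1 p.2.2 L' (h p (by simp))).smul p.1
    have h2 := ih fun p' hp' => h p' (by simp [hp'])
    refine (h1.add h2).congr (fun k ν l _ => ?_) (fun _ _ => by simp [cf])
    simp only [pr, ev, List.map_cons, List.sum_cons]
    ring

theorem sy_deriv (a : ℕ) (b : ℤ) (τ s : ℝ) (hτ : 0 < τ) (hs : 0 ≤ s) :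
    HasDerivAt (fun τ => sy a b τ s) (a * sy (a - 1) b τ s + b / 2 * sy a (b - 2) τ s) τ := by
  have hp : 0 < τ + s := by linarith
  have hq : 0 < √(τ + s) := Real.sqrt_pos.2 hp
  have h1 : HasDerivAt (fun τ : ℝ => √(τ + s)) (1 / (2 * √(τ + s))) τ :=
    ((hasDerivAt_id τ).add_const s).sqrt hp.ne'
  have h2 := (hasDerivAt_zpow b (√(τ + s)) (Or.inl hq.ne')).comp τ h1
  have h3 := (hasDerivAt_pow a τ).mul h2
  refine HasDerivAt.congr_deriv h3 ?_
  simp only [sy, Function.comp]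
  have e : √(τ + s) ^ (b - 1) = √(τ + s) ^ (b - 2) * √(τ + s) := by
    rw [← zpow_add_one₀ hq.ne']
    congr 1
    ring
  rw [e]
  field_simp

def dL (L : List (ℝ × ℕ × ℤ)) (τ s : ℝ) : ℝ :=
  (L.map fun p => p.1 * (p.2.1 * sy (p.2.1 - 1) p.2.2 τ s +
    p.2.2 / 2 * sy p.2.1 (p.2.2 - 2) τ s)).sum

theorem ev_deriv (L : List (ℝ × ℕ × ℤ)) (τ s : ℝ) (hτ : 0 < τ) (hs : 0 ≤ s) :
    HasDerivAt (fun τ => ev L τ s) (dL L τ s) τ := by
  induction L with
  | nil => simpa [ev, dL] using hasDerivAt_const τ (0 : ℝ)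
  | cons p L ih =>
    simp only [ev, dL, List.map_cons, List.sum_cons] at ih ⊢
    exact ((sy_deriv p.2.1 p.2.2 τ s hτ hs).const_mul p.1).add ih

theorem ev_ins (hSYC : St_SYC) (d : ℤ) (L : List (ℝ × ℕ × ℤ))
    (h : ∀ p ∈ L, 2 * p.2.1 + p.2.2 ≤ d) : InS d (ev L) := by
  induction L with
  | nil => exact ⟨0, Submodule.zero_mem _, fun τ s _ _ => by simp [ev]⟩
  | cons p L ih =>
    obtain ⟨-, -, h3, h4, h5, h6⟩ := hSYC
    have h1 := h4 d p.1 _ (h5 _ d _ (h p (by simp)) (h6 p.2.1 p.2.2))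
    have h2 := h3 d _ _ h1 (ih fun p' hp' => h p' (by simp [hp']))
    have e : ev (p :: L) = p.1 • sy p.2.1 p.2.2 + ev L := by
      funext τ s
      simp [ev]
    rw [e]
    exact h2

def L0 (σ : ℝ) : List (ℝ × ℕ × ℤ) :=
  [(1, 0, 1), (σ / 2, 0, 0), (-σ / 2, 1, -2), (1 / 2, 1, -3), (-5 / 8, 2, -5)]
def L1 (σ : ℝ) : List (ℝ × ℕ × ℤ) :=
  [(1 / 2, 0, -1), (-σ / 2, 0, -2), (σ / 2, 1, -4), (1 / 2, 0, -3), (-2, 1, -5), (25 / 16, 2, -7)]
def L2 (σ : ℝ) : List (ℝ × ℕ × ℤ) :=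
  [(-1 / 4, 0, -3), (σ, 0, -4), (-σ, 1, -6), (-11 / 4, 0, -5), (65 / 8, 1, -7), (-175 / 32, 2, -9)]

theorem ph3_eq (σ τ s : ℝ) : ph3 σ τ s = ev (L0 σ) τ s := by
  simp only [ph3, ev, L0, List.map_cons, List.sum_cons, List.map_nil, List.sum_nil, Pi.add_apply,
    Pi.smul_apply, Pi.sub_apply, smul_eq_mul]
  ring

theorem dL0 (σ τ s : ℝ) : dL (L0 σ) τ s = ev (L1 σ) τ s := by
  simp only [dL, ev, L0, L1, List.map_cons, List.sum_cons, List.map_nil, List.sum_nil]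
  norm_num
  ring

theorem dL1 (σ τ s : ℝ) : dL (L1 σ) τ s = ev (L2 σ) τ s := by
  simp only [dL, ev, L1, L2, List.map_cons, List.sum_cons, List.map_nil, List.sum_nil]
  norm_num
  ring

theorem beta_comm (m : ℕ) (x y : ℝ) : beta m x y = beta m y x := by
  simp only [beta, add_comm x y]
  ring

theorem beta_zero (m : ℕ) (y : ℝ) : beta (m + 1) 0 y = 0 := by
  simp [beta, Finset.prod_range_succ']

theorem coef (σ : ℝ) (hσ : σ = 1 ∨ σ = -1) (m k : ℕ) :
    √Real.pi * (cA m * (k : ℝ) ^ (2 * m + 4) + cB m * (k : ℝ) ^ (2 * m + 2)) =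
      2 * cf (L1 σ) (L1 σ) m k + cf (L0 σ) (L2 σ) m k + cf (L2 σ) (L0 σ) m k := by
  have z := beta_zero m
  have c := fun x y => beta_comm (m + 1) x y
  have c2 := beta_comm (m + 2) (-(1 / 2)) (3 / 2)
  have e1 := c 2 1
  have e2 := c 3 1
  have e3 := c (3 / 2) (1 / 2)
  have e4 := c (5 / 2) (1 / 2)
  have e5 := c (7 / 2) (1 / 2)
  have e6 := c (5 / 2) (-(1 / 2))
  have e7 := c (7 / 2) (-(1 / 2))
  have e8 := c (9 / 2) (-(1 / 2))
  have e9 := c (5 / 2) (3 / 2)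
  have z2 := z 2
  have z3 := z 3
  have z4 := (c 2 0).trans z2
  have z5 := (c 3 0).trans z3
  simp only [cf, L0, L1, L2, List.map_cons, List.sum_cons, List.map_nil, List.sum_nil, pp, cA, cB]
  norm_num
  rw [c2, e1, e2, e3, e4, e5, e6, e7, e8, e9, z2, z3, z4, z5]
  rcases hσ with rfl | rfl <;> ring

end PS2

open PS2 in
theorem st_ps2 (hSYC : St_SYC) (hBUB : St_BUB) : St_PS2 := by
  intro σ ρ N hσ hρ
  have hS := hSYC
  obtain ⟨h1, -, h3, -, h5, -⟩ := hS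
  have r1 : InS (-4) (dt ρ) := (h1 _ _ hρ).1
  have r2 : InS (-6) (dt (dt ρ)) := (h1 _ _ r1).1
  have i0 : InS 1 (ev (L0 σ)) := ev_ins hSYC _ _ (by simp [L0])
  have i1 : InS (-1) (ev (L1 σ)) := ev_ins hSYC _ _ (by simp [L1])
  have i2 : InS (-3) (ev (L2 σ)) := ev_ins hSYC _ _ (by simp [L2])
  have j0 : InS 1 (ev (L0 σ) + ρ) := h3 _ _ _ i0 (h5 _ _ _ (by norm_num) hρ)
  have j1 : InS (-1) (ev (L1 σ) + dt ρ) := h3 _ _ _ i1 (h5 _ _ _ (by norm_num) r1)
  have j2 : InS (-3) (ev (L2 σ) + dt (dt ρ)) := h3 _ _ _ i2 (h5 _ _ _ (by norm_num) r2)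
  have f0 : ∀ τ s, (ph3 σ + ρ) τ s = ev (L0 σ) τ s + ρ τ s := fun τ s => by
    rw [← ph3_eq]
    rfl
  have f1 : ∀ τ s, 0 < τ → 0 ≤ s → dt (ph3 σ + ρ) τ s = ev (L1 σ) τ s + dt ρ τ s := by
    intro τ s hτ hs
    have := (ev_deriv (L0 σ) τ s hτ hs).add ((h1 _ _ hρ).2.1 τ s hτ hs)
    rw [dL0] at this
    rw [dt, funext fun τ => f0 τ s]
    exact this.deriv
  have f2 : ∀ τ s, 0 < τ → 0 ≤ s →
      dt (dt (ph3 σ + ρ)) τ s = ev (L2 σ) τ s + dt (dt ρ) τ s := by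
    intro τ s hτ hs
    have := (ev_deriv (L1 σ) τ s hτ hs).add ((h1 _ _ r1).2.1 τ s hτ hs)
    rw [dL1] at this
    refine (this.congr_of_eventuallyEq ?_).deriv
    filter_upwards [Ioi_mem_nhds hτ] with t ht
    exact f1 t s ht hs
  have m1 := (lists hBUB N (L1 σ) (L1 σ) (by simp [L1])).smul 2
  have m2 := lists hBUB N (L0 σ) (L2 σ) (by simp [L0, L2])
  have m3 := lists hBUB N (L2 σ) (L0 σ) (by simp [L0, L2])
  have s1 := (small hBUB N _ _ (by norm_num) _ _ j1 r1).smul 2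
  have s2 := (small hBUB N _ _ (by norm_num) _ _ r1 i1).smul 2
  have s3 := small hBUB N _ _ (by norm_num) _ _ j0 r2
  have s4 := small hBUB N _ _ (by norm_num) _ _ hρ i2
  have s5 := small hBUB N _ _ (by norm_num) _ _ j2 hρ
  have s6 := small hBUB N _ _ (by norm_num) _ _ r2 i0
  have tot := (((m1.add m2).add m3).add (((((s1.add s2).add s3).add s4).add s5).add s6)).congr
    (T' := fun k ν l => 2 * (dt (ph3 σ + ρ) (ν ^ 2) (l ^ 2) * dt (ph3 σ + ρ) (ν ^ 2) ((l + k) ^ 2)) +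
      (ph3 σ + ρ) (ν ^ 2) (l ^ 2) * dt (dt (ph3 σ + ρ)) (ν ^ 2) ((l + k) ^ 2) +
      dt (dt (ph3 σ + ρ)) (ν ^ 2) (l ^ 2) * (ph3 σ + ρ) (ν ^ 2) ((l + k) ^ 2))
    (c' := fun m k => √Real.pi * (cA m * (k : ℝ) ^ (2 * m + 4) + cB m * (k : ℝ) ^ (2 * m + 2)))
    (fun k ν l hν => by
      have hp : 0 < ν ^ 2 := by positivity
      rw [f1 _ _ hp (sq_nonneg _), f1 _ _ hp (sq_nonneg _), f2 _ _ hp (sq_nonneg _),
        f2 _ _ hp (sq_nonneg _), f0, f0]
      simp only [pr, Pi.add_apply]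
      ring)
    (fun m k => by rw [coef σ hσ]; ring)
  obtain ⟨ψ, t1, t2⟩ := tot
  refine ⟨ψ, fun k => ?_, t2⟩
  obtain ⟨C, hC⟩ := t1 k
  exact ⟨C, fun ν hν => (hC ν hν).2⟩

end Pool.Agent.Lib.ISO
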