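import Pool.Agent.Lib.ISO.BlueV

/-! Collars of explicit width. -/

open scoped InnerProductSpace ENNReal ContDiff ComplexConjugate Topology
open MeasureTheory Complex Set Filter

noncomputable section

namespace Pool.Agent.Lib.ISO

open Pool.Agent.Lib.MP_312682_mp

namespace QF

variable {γ : ℝ → ℂ} {L K : ℝ}

lemma dist_le {γ' : ℝ → ℂ} (h : Cv0 γ) (h' : Cv0 γ') {p q : ℂ} (e : Phi γ p = Phi γ' q) :
    ‖γ p.re - γ' q.re‖ ≤ |p.im| + |q.im| := by
  have e1 : γ p.re - γ' q.re = q.im * (I * deriv γ' q.re) - p.im * (I * deriv γ p.re) := by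
    unfold Phi at e; linear_combination e
  rw [e1, add_comm]
  refine (norm_sub_le _ _).trans (le_of_eq ?_)
  simp [h.unit, h'.unit]

lemma lip (h : Cv0 γ) (hK : ∀ s, |kap γ s| ≤ K) (s u : ℝ) :
    ‖deriv γ u - deriv γ s‖ ≤ K * |u - s| :=
  convex_univ.norm_image_sub_le_of_norm_hasDerivWithin_le
    (fun x _ => (h.hd1' x).hasDerivWithinAt) (fun x _ => by simpa [h.unit] using hK x)
    (mem_univ s) (mem_univ u)

lemma loc_inj (h : Cv0 γ) (hK : ∀ s, |kap γ s| ≤ K) {p q : ℂ} (h1 : K * |q.re - p.re| < 1)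
    (h2 : K * |q.im| < 1) (e : Phi γ p = Phi γ q) : q = p := by
  have hK0 : 0 ≤ K := (abs_nonneg _).trans (hK 0)
  set g : ℝ → ℝ := fun u => (conj (deriv γ p.re) * (γ u + q.im * (I * deriv γ u))).re with hg
  have hd : ∀ u, HasDerivAt g ((1 - kap γ u * q.im) * (conj (deriv γ p.re) * deriv γ u).re) u := by
    intro u
    have := (((h.hd0 u).add (((h.hd1' u).const_mul I).const_mul (q.im : ℂ))).const_mul
      (conj (deriv γ p.re)))
    refine (reCLM.hasFDerivAt.comp_hasDerivAt u this).congr_deriv ?_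
    simp
    ring
  have hm : StrictMonoOn g (uIcc p.re q.re) := by
    refine strictMonoOn_of_deriv_pos (convex_uIcc _ _)
      (fun u _ => (hd u).continuousAt.continuousWithinAt) fun u hu => ?_
    rw [(hd u).deriv]
    refine mul_pos ?_ ?_
    · have : |kap γ u * q.im| < 1 := by
        rw [abs_mul]; exact (mul_le_mul_of_nonneg_right (hK u) (abs_nonneg _)).trans_lt h2
      linarith [le_abs_self (kap γ u * q.im)]
    · have h3 : ‖deriv γ u - deriv γ p.re‖ < 1 := (lip h hK _ _).trans_lt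
        ((mul_le_mul_of_nonneg_left (abs_sub_left_of_mem_uIcc (interior_subset hu)) hK0).trans_lt h1)
      have h4 : conj (deriv γ p.re) * deriv γ u =
          1 + conj (deriv γ p.re) * (deriv γ u - deriv γ p.re) := by
        linear_combination h.mul_conj p.re
      have h5 := abs_re_le_norm (conj (deriv γ p.re) * (deriv γ u - deriv γ p.re))
      rw [norm_mul, RCLike.norm_conj, h.unit, one_mul] at h5
      rw [h4, add_re, one_re]
      linarith [neg_abs_le (conj (deriv γ p.re) * (deriv γ u - deriv γ p.re)).re]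
  have k : ∀ x : ℝ, conj (deriv γ p.re) * (γ p.re + x * (I * deriv γ p.re)) =
      conj (deriv γ p.re) * γ p.re + x * I := fun x => by
    linear_combination x * I * h.mul_conj p.re
  have e1 : g q.re = g p.re := by
    show (conj (deriv γ p.re) * Phi γ q).re = (conj (deriv γ p.re) * _).re
    rw [← e, Phi, k, k]; simp
  have e2 : q.re = p.re := hm.injOn right_mem_uIcc left_mem_uIcc e1
  refine Complex.ext e2 ?_
  have e3 := congrArg (fun z => (conj (deriv γ p.re) * z).im) e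
  simp only [Phi, e2, k] at e3
  simpa using e3.symm

lemma inj (h : Cv γ L) {c d : ℝ} (hK : ∀ s, |kap γ s| ≤ K)
    (hc : ∀ s t, ‖γ s - γ t‖ < c → ∃ m : ℤ, |t - s - m * L| ≤ K * ‖γ s - γ t‖)
    (h1 : 2 * d < c) (h2 : K * d < 1) (h3 : K * (K * (2 * d)) < 1) {p q : ℂ} (hp : |p.im| ≤ d)
    (hq : |q.im| ≤ d) (e : Phi γ p = Phi γ q) : ∃ n : ℤ, q = p + n * L := by
  have hK0 : 0 ≤ K := (abs_nonneg _).trans (hK 0)
  have h4 := dist_le h.toCv0 h.toCv0 e
  obtain ⟨m, hm⟩ := hc p.re q.re (by linarith)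
  have h5 := loc_inj h.toCv0 hK (p := p + m * L) (q := q) (by
    refine lt_of_le_of_lt ?_ h3
    have e1 : q.re - (p + m * L).re = q.re - p.re - m * L := by simp; ring
    rw [e1]
    exact mul_le_mul_of_nonneg_left (hm.trans (mul_le_mul_of_nonneg_left (by linarith) hK0)) hK0)
    ((mul_le_mul_of_nonneg_left hq hK0).trans_lt h2) (by rw [h.Phi_per', e])
  exact ⟨m, h5⟩

lemma foot (h : Cv γ L) (z : ℂ) (s : ℝ) : ∃ p : ℂ, Phi γ p = z ∧ |p.im| ≤ ‖z - γ s‖ := by
  have hc := h.smooth.continuous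
  obtain ⟨_, ⟨t, rfl⟩, ht⟩ := (Function.Periodic.compact_of_continuous h.per h.pos.ne' hc).exists_isMinOn
    (range_nonempty γ) (f := fun w => ‖z - w‖) (by fun_prop)
  have h1 : ∀ u, ‖z - γ t‖ ≤ ‖z - γ u‖ := fun u => ht (mem_range_self u)
  have hd := ((h.hd0 t).const_sub z).norm_sq
  have h2 := IsLocalMin.hasDerivAt_eq_zero (Eventually.of_forall fun u =>
    pow_le_pow_left₀ (norm_nonneg _) (h1 u) 2) hd
  have h3 : ((z - γ t) * conj (deriv γ t)).re = 0 := by
    simp [Complex.inner] at h2 ⊢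
    linarith
  set x := ((z - γ t) * conj (deriv γ t)).im with hx
  have h4 : (z - γ t) * conj (deriv γ t) = x * I := Complex.ext (by simpa using h3) (by simp [hx])
  refine ⟨t + x * I, ?_, le_trans ?_ (h1 s)⟩
  · simp only [Phi, add_re, ofReal_re, mul_re, I_re, mul_zero, ofReal_im, I_im, mul_one, sub_self,
      add_zero, add_im, mul_im, zero_add]
    linear_combination (z - γ t) * h.mul_conj t - deriv γ t * h4
  · have := congrArg norm h4
    simpa [h.unit] using this.ge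

end QF

open QF in
theorem st_qf : St_QF := by
  intro K c hc
  set M := |K| + 1 with hM
  have hM1 : 1 ≤ M := by linarith [abs_nonneg K]
  have hKM : K ≤ M := by linarith [le_abs_self K]
  set d := min (c / 4) (1 / (4 * M ^ 2)) with hd
  have d0 : 0 < d := lt_min (by positivity) (by positivity)
  have d1 : 2 * d < c := by linarith [min_le_left (c / 4) (1 / (4 * M ^ 2))]
  have d2 : d * (4 * M ^ 2) ≤ 1 := (le_div_iff₀ (by positivity)).1 (min_le_right _ _)
  have d3 : M * d ≤ 1 / 2 := by nlinarith [mul_pos d0 (by linarith : 0 < M)]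
  refine ⟨d, d0, fun n Ω γ L hΩ hb hγ hk hs hsep hfr hout hside δ hδ hδd => ?_⟩
  have hk' : ∀ i s, |kap (γ i) s| ≤ M := fun i s => (hk i s).trans hKM
  have hinj : ∀ i {p q : ℂ}, |p.im| ≤ d → |q.im| ≤ d → Phi (γ i) p = Phi (γ i) q →
      ∃ n : ℤ, q = p + n * L i := fun i p q hp hq e =>
    inj (hγ i) (hk' i) (fun s t h => (hs i s t h).imp fun m hm =>
      hm.trans (mul_le_mul_of_nonneg_right hKM (norm_nonneg _))) d1 (by linarith) (by nlinarith)
      hp hq e
  have hdis : ∀ i j {p q : ℂ}, |p.im| ≤ d → |q.im| ≤ d → Phi (γ i) p = Phi (γ j) q → i = j := by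
    intro i j p q hp hq e
    by_contra hij
    linarith [hsep i j p.re q.re hij, dist_le (hγ i).toCv0 (hγ j).toCv0 e]
  have hcon : ∀ i (a b : ℝ), -d ≤ a → b ≤ d → (0 : ℝ) ∉ Ioo a b → ∀ p q : ℂ, p.im ∈ Ioo a b →
      q.im ∈ Ioo a b → Phi (γ i) p ∈ Ω → Phi (γ i) q ∈ Ω := by
    intro i a b ha hb' h0 p q hp hq hin
    have h1 : IsPreconnected (Phi (γ i) '' {z : ℂ | z.im ∈ Ioo a b}) :=
      ((convex_Ioo a b).is_linear_preimage imLm.isLinear).isPreconnected.image _
        (hγ i).sPhi.continuous.continuousOn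
    refine h1.subset_of_closure_inter_subset hΩ ⟨_, ⟨p, hp, rfl⟩, hin⟩ ?_ ⟨q, hq, rfl⟩
    rintro _ ⟨hz, w, hw, rfl⟩
    by_contra hn
    obtain ⟨j, s, e⟩ := hfr _ (by rw [hΩ.frontier_eq]; exact ⟨hz, hn⟩)
    have hw' : |w.im| ≤ d := abs_le.2 ⟨by linarith [hw.1], by linarith [hw.2]⟩
    have hs' : |(s : ℂ).im| ≤ d := by simpa using d0.le
    rw [← Phi_real (γ j) s] at e
    obtain rfl := hdis j i hs' hw' e
    obtain ⟨m, hm⟩ := hinj j hs' hw' e
    have : w.im = 0 := by rw [hm]; simp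
    exact h0 (this ▸ hw)
  have hsd : ∀ i, ∃ (s x : ℝ), 0 < x ∧ x < d ∧ Phi (γ i) (s + x * I) ∈ Ω ∧
      Phi (γ i) (s - x * I) ∉ Ω := fun i => by
    obtain ⟨s, h⟩ := hside i
    obtain ⟨x, h1, h2⟩ := (h.and (Ioo_mem_nhdsGT d0)).exists
    exact ⟨s, x, h2.1, h2.2, h1⟩
  have habs : ∀ {p : ℂ}, p ∈ strip δ → |p.im| ≤ d := fun hp => by
    rw [abs_of_pos hp.1]; exact hp.2.le.trans hδd
  refine ⟨fun i => ⟨hγ i, hΩ, hδ, fun s => ?_, fun z hz => ?_, hout i, fun p hp q hq =>
    hinj i (habs hp) (habs hq)⟩, hΩ, hδ, hb, fun i j p hp q hq => hdis i j (habs hp) (habs hq),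
    fun ε hε => ?_⟩
  · exact (mul_le_mul (hk' i s) hδd hδ.le (by linarith)).trans d3
  · obtain ⟨s, x, h1, h2, h3, -⟩ := hsd i
    exact hcon i 0 d (by linarith) le_rfl (by simp) _ z (by simpa using ⟨h1, h2⟩)
      ⟨hz.1, hz.2.trans_le hδd⟩ h3
  · have e0 : 0 < min ε d := lt_min hε d0
    refine ⟨closure Ω ∩ ⋂ i, ⋂ s, {z | min ε d ≤ ‖z - γ i s‖},
      hb.isCompact_closure.inter_right (isClosed_iInter fun i => isClosed_iInter fun s =>
        isClosed_le continuous_const (by fun_prop)), fun z hz => ?_, fun z hz hn => ?_⟩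
    · by_contra hn
      obtain ⟨j, s, e⟩ := hfr z (by rw [hΩ.frontier_eq]; exact ⟨hz.1, hn⟩)
      have h1 : min ε d ≤ ‖z - γ j s‖ := mem_iInter.1 (mem_iInter.1 hz.2 j) s
      rw [e, sub_self, norm_zero] at h1
      linarith
    · obtain ⟨i, s, h1⟩ : ∃ i s, ‖z - γ i s‖ < min ε d := by
        by_contra h
        push Not at h
        exact hn ⟨subset_closure hz, mem_iInter.2 fun i => mem_iInter.2 fun s => h i s⟩
      obtain ⟨p, rfl, h2⟩ := foot (hγ i) z s
      have h3 := abs_lt.1 (h2.trans_lt h1)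
      refine ⟨i, p, ⟨?_, h3.2.trans_le (min_le_left _ _)⟩, rfl⟩
      by_contra h4
      rcases (not_lt.1 h4).eq_or_lt with h5 | h5
      · exact hout i p.re (by simpa [Phi, h5] using hz)
      · obtain ⟨t, x, h6, h7, -, h8⟩ := hsd i
        exact h8 (hcon i (-d) 0 le_rfl d0.le (by simp) p _
          ⟨by linarith [h3.1, min_le_right ε d], h5⟩ (by simpa using ⟨h7, h6⟩) hz)

end Pool.Agent.Lib.ISO
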