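import Pool.Agent.Lib.ISO.BlueV

/-! Block QV: the radial potentials. -/

open scoped ContDiff
open Set

noncomputable section

namespace Pool.Agent.Lib.ISO

open Pool.Agent.Lib.MP_312682_mp

namespace QVB

lemma base_pos (r : ℝ) : 0 < R1 - r * (1 - stp (1 / 4) (1 / 4) r) := by
  have h0 := stp_nonneg (1 / 4) (1 / 4) r
  have h1 := stp_le_one (1 / 4) (1 / 4) r
  unfold R1
  by_cases h : 1 / 4 + 1 / 4 ≤ r
  · rw [stp_one (by norm_num) h]; norm_num
  · by_cases h' : 0 ≤ r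
    · nlinarith [mul_nonneg h' h0]
    · nlinarith [mul_nonneg (neg_nonneg.2 (le_of_lt (not_le.1 h'))) (sub_nonneg.2 h1)]

lemma cd_wJ : ContDiff ℝ ∞ wJ := by
  unfold wJ
  refine ContDiff.inv (ContDiff.pow ?_ 2) fun r => pow_ne_zero 2 (base_pos r).ne'
  exact contDiff_const.sub (contDiff_id.mul (contDiff_const.sub (contDiff_stp _ _)))

lemma wJ_eq (r : ℝ) (h : r ≤ 1 / 4) : wJ r = ((R1 - r) ^ 2)⁻¹ := by
  unfold wJ
  rw [stp_zero (by norm_num) h, sub_zero, mul_one]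

lemma wJ_bd (x : ℝ) (hx : x ∈ Icc 0 dl) : 1 ≤ wJ x ∧ wJ x ≤ 2 := by
  obtain ⟨h0, h1⟩ := hx
  unfold dl at h1
  rw [wJ_eq x (by linarith)]
  unfold R1
  have hp : 0 < (99 / 100 - x) ^ 2 := by nlinarith
  constructor
  · rw [one_le_inv₀ hp]; nlinarith
  · rw [inv_le_comm₀ hp (by norm_num)]; nlinarith

end QVB

open QVB in
theorem st_qv : St_QV := by
  refine ⟨cd_wJ, wJ_eq, fun μ l hμ => ⟨?_, fun x hx => ?_⟩⟩
  · unfold qv
    exact contDiff_const.add (contDiff_const.mul cd_wJ)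
  · obtain ⟨h1, h2⟩ := wJ_bd x hx
    have hl : (0 : ℝ) ≤ (l : ℝ) ^ 2 := sq_nonneg _
    have hm : 1 ≤ μ ^ 2 := by nlinarith
    rw [Real.sq_sqrt (by linarith)]
    unfold qv
    constructor
    · nlinarith [mul_nonneg hl (sub_nonneg.2 h1)]
    · nlinarith [mul_nonneg hl (sub_nonneg.2 h2)]

end Pool.Agent.Lib.ISO
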