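import Pool.Agent.Lib.ISO.BlueK

/-! Reading the Fourier coefficients of the square near the marker frequency. -/

noncomputable section

namespace Pool.Agent.Lib.ISO

namespace RD

lemma an_sum {z : ℤ → ℂ} (hz : Sq z) : Summable fun j : ℤ => (1 + |(j : ℝ)|) * ‖z j‖ := by
  refine ((hz.dec 0).add (hz.dec 1)).congr fun j => ?_
  ring

lemma le_an {z : ℤ → ℂ} (hz : Sq z) (j : ℤ) : ‖z j‖ ≤ An z := by
  refine le_trans ?_ ((an_sum hz).le_tsum j fun i _ => by positivity)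
  exact le_mul_of_one_le_left (norm_nonneg _) (le_add_of_nonneg_right (abs_nonneg _))

lemma yy_sum {z : ℤ → ℂ} (hz : Sq z) (e W : ℕ) :
    Summable fun ξ : ℤ => yy W ξ ^ e * ‖z ξ‖ ^ 2 := by
  refine Summable.of_nonneg_of_le (fun ξ => by unfold yy; positivity) (fun ξ => ?_)
    ((hz.dec (2 * e)).mul_left (An z / ((W : ℝ) ^ 4) ^ e))
  have h1 : yy W ξ ^ e * ‖z ξ‖ ^ 2 =
      ‖z ξ‖ / ((W : ℝ) ^ 4) ^ e * (|(ξ : ℝ)| ^ (2 * e) * ‖z ξ‖) := by
    unfold yy
    rw [div_pow, pow_mul, sq_abs]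
    ring
  rw [h1]
  exact mul_le_mul_of_nonneg_right (div_le_div_of_nonneg_right (le_an hz ξ) (by positivity))
    (by positivity)

lemma nr_nonneg (W : ℕ) (z : ℤ → ℂ) : 0 ≤ Nr W z :=
  tsum_nonneg fun ξ => by split_ifs <;> positivity

lemma jk_nonneg (m W : ℕ) (z : ℤ → ℂ) : 0 ≤ Jk m W z :=
  tsum_nonneg fun ξ => by unfold yy; split_ifs <;> positivity

/-- a coefficient at a large frequency is controlled -/
lemma big {z : ℤ → ℂ} (hz : Sq z) (m W : ℕ) (hW : 4 ≤ W) (ξ : ℤ) (h : (W : ℤ) ^ 2 ≤ 3 * ξ) :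
    ‖z ξ‖ ≤ 3 ^ m * √(Nr W z + Jk m W z) := by
  have hW' : (4 : ℤ) ≤ W := by exact_mod_cast hW
  have n0 := nr_nonneg W z
  have j0 := jk_nonneg m W z
  have k1 : (1 : ℝ) ≤ 9 ^ m := one_le_pow₀ (by norm_num)
  have key : ‖z ξ‖ ^ 2 ≤ 9 ^ m * (Nr W z + Jk m W z) := by
    by_cases hc : 2 * |(|ξ| - (W : ℤ) ^ 2)| ≤ (W : ℤ) ^ 2
    · have s : Summable fun ξ : ℤ => if 2 * |(|ξ| - (W : ℤ) ^ 2)| ≤ (W : ℤ) ^ 2 then
          (1 + (|(ξ : ℝ)| - (W : ℝ) ^ 2) ^ 2) * ‖z ξ‖ ^ 2 else 0 := by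
        refine summable_of_ne_finset_zero (s := Finset.Icc (-(2 * (W : ℤ) ^ 2)) (2 * (W : ℤ) ^ 2))
          fun b hb => if_neg fun h2 => hb ?_
        have h3 := le_abs_self (|b| - (W : ℤ) ^ 2)
        rw [Finset.mem_Icc, ← abs_le]
        nlinarith [sq_nonneg (W : ℤ)]
      have h1 := s.le_tsum ξ fun i _ => by split_ifs <;> positivity
      rw [if_pos hc] at h1
      have h2 : ‖z ξ‖ ^ 2 ≤ Nr W z :=
        (le_mul_of_one_le_left (sq_nonneg _) (le_add_of_nonneg_right (sq_nonneg _))).trans h1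
      nlinarith
    · have s : Summable fun ξ : ℤ => if (W : ℤ) < |ξ| ∧ (W : ℤ) ^ 2 < 2 * |(|ξ| - (W : ℤ) ^ 2)| then
          (yy W ξ ^ m + yy W ξ ^ (m + 4)) * ‖z ξ‖ ^ 2 else 0 := by
        refine Summable.of_nonneg_of_le (fun ξ => by unfold yy; split_ifs <;> positivity)
          (fun ξ => ?_) ((yy_sum hz m W).add (yy_sum hz (m + 4) W))
        split_ifs
        · exact le_of_eq (by ring)
        · unfold yy; positivity
      have h1 := s.le_tsum ξ fun i _ => by unfold yy; split_ifs <;> positivity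
      have h0 : (W : ℤ) < |ξ| := lt_of_lt_of_le (by nlinarith) (le_abs_self ξ)
      rw [if_pos ⟨h0, not_le.1 hc⟩] at h1
      have hR : (W : ℝ) ^ 2 ≤ 3 * ξ := by exact_mod_cast h
      have hp : (0 : ℝ) < W := by exact_mod_cast (by omega : 0 < W)
      have h2 : 1 ≤ 9 * yy W ξ := by
        unfold yy
        rw [← mul_div_assoc, le_div_iff₀ (by positivity)]
        nlinarith [pow_le_pow_left₀ (by positivity) hR 2]
      have h3 : (1 : ℝ) ≤ 9 ^ m * yy W ξ ^ m := by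
        rw [← mul_pow]; exact one_le_pow₀ h2
      have h4 : yy W ξ ^ m * ‖z ξ‖ ^ 2 ≤ Jk m W z := by
        refine le_trans (mul_le_mul_of_nonneg_right (le_add_of_nonneg_right ?_) (sq_nonneg _)) h1
        unfold yy; positivity
      calc ‖z ξ‖ ^ 2 ≤ 9 ^ m * yy W ξ ^ m * ‖z ξ‖ ^ 2 := le_mul_of_one_le_left (sq_nonneg _) h3
        _ ≤ 9 ^ m * (Nr W z + Jk m W z) := by
          rw [mul_assoc]
          exact mul_le_mul_of_nonneg_left (by linarith) (by positivity)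
  refine abs_le_of_sq_le_sq' ?_ (by positivity) |>.2
  rw [mul_pow, Real.sq_sqrt (by linarith), ← pow_mul, mul_comm m 2, pow_mul]
  norm_num
  exact key

lemma far (z : ℤ → ℂ) {W : ℕ} (hW : 4 ≤ W) (ξ : ℤ) (h : (W : ℤ) ≤ 2 * |ξ|) :
    ‖z ξ‖ ≤ 2 * (W : ℝ)⁻¹ * ((1 + |(ξ : ℝ)|) * ‖z ξ‖) := by
  have hp : (0 : ℝ) < W := by exact_mod_cast (by omega : 0 < W)
  have hR : (W : ℝ) ≤ 2 * |(ξ : ℝ)| := by exact_mod_cast h
  rw [← mul_assoc]
  refine le_mul_of_one_le_left (norm_nonneg _) ?_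
  rw [mul_right_comm, ← div_eq_mul_inv, le_div_iff₀ hp]
  linarith

end RD

open RD in
theorem st_rd : St_RD := by
  intro m B
  refine ⟨3 ^ m * (4 * B), fun W z hW hz hB i hi => ?_⟩
  have hW' : (4 : ℤ) ≤ W := by exact_mod_cast hW
  set ω : ℤ := (W : ℤ) ^ 2 with hω
  have hω4 : 4 * (W : ℤ) ≤ ω := by nlinarith
  set S : ℝ := 3 ^ m * √(Nr W z + Jk m W z) with hS
  have S0 : 0 ≤ S := by positivity
  set s : ℂ := ∑ t ∈ win W, z (i - t) * sh z W 1 t with hs
  have hF : HasSum (fun ξ => z ξ * z (ω + i - ξ)) (cv z z (ω + i)) := by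
    refine Summable.hasSum (Summable.of_norm_bounded ((hz.dec 0).mul_left (An z)) fun ξ => ?_)
    rw [norm_mul, pow_zero, one_mul, mul_comm]
    exact mul_le_mul_of_nonneg_right (le_an hz _) (norm_nonneg _)
  have h1 : HasSum (fun ξ => if |ξ - ω| ≤ W then z ξ * z (ω + i - ξ) else 0) s := by
    rw [← (Equiv.addLeft ω).hasSum_iff]
    have : s = ∑ t ∈ win W, ((fun ξ => if |ξ - ω| ≤ W then z ξ * z (ω + i - ξ) else 0) ∘
        Equiv.addLeft ω) t := by
      refine Finset.sum_congr rfl fun t ht => ?_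
      have h2 : |ω + t - ω| ≤ W := by
        rw [add_sub_cancel_left, abs_le]; exact Finset.mem_Icc.1 ht
      simp only [Function.comp, Equiv.coe_addLeft, if_pos h2, sh, Complex.ofReal_one, div_one]
      rw [mul_comm, add_sub_add_left_eq_sub]
    rw [this]
    refine hasSum_sum_of_ne_finset_zero fun t ht => if_neg fun h2 => ht ?_
    rw [Equiv.coe_addLeft, add_sub_cancel_left, abs_le] at h2
    exact Finset.mem_Icc.2 h2
  have h2 : HasSum (fun ξ => if |i - ξ| ≤ W then z ξ * z (ω + i - ξ) else 0) s := by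
    rw [← (Equiv.subLeft (ω + i)).hasSum_iff] at h1
    have e : (fun ξ => if |i - ξ| ≤ W then z ξ * z (ω + i - ξ) else 0) =
        (fun ξ => if |ξ - ω| ≤ W then z ξ * z (ω + i - ξ) else 0) ∘ Equiv.subLeft (ω + i) := by
      funext ξ
      simp only [Function.comp, Equiv.subLeft_apply, sub_sub_cancel]
      rw [show ω + i - ξ - ω = i - ξ by ring, mul_comm]
    rwa [e]
  have hg : HasSum (fun ξ : ℤ => (1 + |(ξ : ℝ)|) * ‖z ξ‖) (An z) := (an_sum hz).hasSum
  have hg' : HasSum (fun ξ : ℤ => (1 + |((ω + i - ξ : ℤ) : ℝ)|) * ‖z (ω + i - ξ)‖) (An z) :=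
    (Equiv.subLeft (ω + i)).hasSum_iff.2 hg
  have h3 := ((hF.sub h1).sub h2).norm_le_of_bounded ((hg.add hg').mul_left (S * (2 * (W : ℝ)⁻¹)))
    fun ξ => ?_
  · rw [two_mul, ← sub_sub]
    refine h3.trans ?_
    calc S * (2 * (W : ℝ)⁻¹) * (An z + An z) ≤ S * (2 * (W : ℝ)⁻¹) * (B + B) :=
          mul_le_mul_of_nonneg_left (by linarith) (by positivity)
      _ = _ := by rw [hS]; ring
  · have a1 := le_abs_self i
    have a2 := neg_abs_le i
    by_cases c1 : |ξ - ω| ≤ W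
    · have c2 : ¬ |i - ξ| ≤ W := fun c2 => by
        rw [abs_le] at c1 c2
        omega
      rw [if_pos c1, if_neg c2, sub_self, sub_zero, norm_zero]
      positivity
    by_cases c2 : |i - ξ| ≤ W
    · rw [if_neg c1, if_pos c2, sub_zero, sub_self, norm_zero]
      positivity
    rw [if_neg c1, if_neg c2, sub_zero, sub_zero, norm_mul, mul_add]
    rw [not_le, lt_abs] at c1 c2
    have b1 := far z hW ξ (by
      have := le_abs_self ξ
      have := neg_abs_le ξ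
      omega)
    have b2 := far z hW (ω + i - ξ) (by
      have := le_abs_self (ω + i - ξ)
      have := neg_abs_le (ω + i - ξ)
      omega)
    rcases le_total ξ (ω + i - ξ) with c | c
    · have b3 := big hz m W hW (ω + i - ξ) (by omega)
      refine le_add_of_le_of_nonneg ?_ (by positivity)
      rw [mul_comm, mul_assoc]
      exact mul_le_mul b3 b1 (norm_nonneg _) S0
    · have b3 := big hz m W hW ξ (by omega)
      refine le_add_of_nonneg_of_le (by positivity) ?_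
      rw [mul_assoc]
      exact mul_le_mul b3 b2 (norm_nonneg _) S0

end Pool.Agent.Lib.ISO
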