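import Mathlib

/-! Elementary facts on Riccati type equations. -/

open Set MeasureTheory Filter
open scoped Topology

namespace Pool.Agent.Lib.ISO.RIC

theorem mv {f f' : ℝ → ℝ} {a b C : ℝ} (hab : a ≤ b) (hf : ∀ x ∈ Icc a b, HasDerivAt f (f' x) x)
    (hC : ∀ x ∈ Icc a b, f' x ≤ C) : f b - f a ≤ C * (b - a) :=
  (convex_Icc a b).image_sub_le_mul_sub_of_deriv_le
    (fun x hx => (hf x hx).continuousAt.continuousWithinAt)
    (fun x hx => (hf x (interior_subset hx)).differentiableAt.differentiableWithinAt)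
    (fun x hx => by rw [(hf x (interior_subset hx)).deriv]; exact hC x (interior_subset hx))
    a (left_mem_Icc.2 hab) b (right_mem_Icc.2 hab) hab

theorem mv0 {f f' : ℝ → ℝ} {a b : ℝ} (hab : a ≤ b) (hf : ∀ x ∈ Icc a b, HasDerivAt f (f' x) x)
    (hC : ∀ x ∈ Icc a b, 0 ≤ f' x) : f a ≤ f b := by
  have := mv (C := 0) hab (fun x hx => (hf x hx).fun_neg) fun x hx => neg_nonpos.2 (hC x hx)
  linarith

theorem gron1 {e A ρ : ℝ → ℝ} {x0 x1 c P : ℝ} (h01 : x0 ≤ x1) (hc : 0 < c) (hP : 0 ≤ P)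
    (he : ∀ x ∈ Icc x0 x1, HasDerivAt e (A x * e x + ρ x) x) (hA : ∀ x ∈ Icc x0 x1, c ≤ A x)
    (hρ : ∀ x ∈ Icc x0 x1, -P ≤ ρ x) :
    e x0 ≤ Real.exp (-(c * (x1 - x0))) * |e x1| + P / c := by
  refine le_of_forall_pos_le_add fun ε hε => ?_
  have hE := Real.exp_pos (-(c * (x1 - x0)))
  have h0 := mul_nonneg hE.le (abs_nonneg (e x1))
  by_cases hy : e x0 ≤ P / c + ε
  · linarith
  have hy0 : 0 < e x0 - (P / c + ε) := by linarith
  have hPc : 0 ≤ P / c := div_nonneg hP hc.le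
  have key := image_le_of_deriv_right_lt_deriv_boundary (f := fun x => -e x)
    (f' := fun x => -(A x * e x + ρ x)) (a := x0) (b := x1)
    (fun x hx => (he x hx).fun_neg.continuousAt.continuousWithinAt)
    (fun x hx => (he x (Ico_subset_Icc_self hx)).fun_neg.hasDerivWithinAt)
    (B := fun x => -(P / c + ε + (e x0 - (P / c + ε)) * Real.exp (c * (x - x0))))
    (B' := fun x => -((e x0 - (P / c + ε)) * (Real.exp (c * (x - x0)) * c)))
    (by simp) (fun x => by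
      have h1 : HasDerivAt (fun x => c * (x - x0)) c x := by
        simpa using ((hasDerivAt_id x).sub_const x0).const_mul c
      exact ((h1.exp.const_mul _).const_add _).fun_neg)
    (fun x hx h => by
      have h1 := hA x (Ico_subset_Icc_self hx)
      have h2 := hρ x (Ico_subset_Icc_self hx)
      have h3 := mul_pos hy0 (Real.exp_pos (c * (x - x0)))
      have h4 : e x = P / c + ε + (e x0 - (P / c + ε)) * Real.exp (c * (x - x0)) :=
        neg_injective h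
      have h5 : c * e x ≤ A x * e x := mul_le_mul_of_nonneg_right h1 (by linarith)
      have h6 : c * e x = P + c * ε + (e x0 - (P / c + ε)) * (Real.exp (c * (x - x0)) * c) := by
        conv_lhs => rw [h4]
        field_simp
      have h7 := mul_pos hc hε
      linarith) (right_mem_Icc.2 h01)
  have h1 : (e x0 - (P / c + ε)) * Real.exp (c * (x1 - x0)) ≤ |e x1| := by
    have := le_abs_self (e x1)
    linarith
  have h2 := mul_le_mul_of_nonneg_left h1 hE.le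
  rw [mul_left_comm, ← Real.exp_add, neg_add_cancel, Real.exp_zero, mul_one] at h2
  linarith

theorem gron {e A ρ : ℝ → ℝ} {x0 x1 c P : ℝ} (h01 : x0 ≤ x1) (hc : 0 < c)
    (he : ∀ x ∈ Icc x0 x1, HasDerivAt e (A x * e x + ρ x) x) (hA : ∀ x ∈ Icc x0 x1, c ≤ A x)
    (hρ : ∀ x ∈ Icc x0 x1, |ρ x| ≤ P) :
    |e x0| ≤ Real.exp (-(c * (x1 - x0))) * |e x1| + P / c := by
  have hP : 0 ≤ P := (abs_nonneg _).trans (hρ x0 (left_mem_Icc.2 h01))
  have h1 := gron1 h01 hc hP he hA fun x hx => (abs_le.1 (hρ x hx)).1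
  have h2 := gron1 (e := fun x => -e x) (A := A) (ρ := fun x => -ρ x) h01 hc hP
    (fun x hx => (he x hx).fun_neg.congr_deriv (by ring)) hA
    fun x hx => neg_le_neg (abs_le.1 (hρ x hx)).2
  simp only [abs_neg] at h2
  exact abs_le.2 ⟨by linarith, h1⟩

section ode

variable {δ Q : ℝ} {q h h1 u u1 : ℝ → ℝ}

theorem hh1_nonpos (hq : ∀ x ∈ Icc 0 δ, 0 ≤ q x ∧ q x ≤ Q) (d0 : ∀ x, HasDerivAt h (h1 x) x)
    (d1 : ∀ x ∈ Icc 0 δ, HasDerivAt h1 (q x * h x) x) (hδ : h δ = 0) :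
    ∀ x ∈ Icc 0 δ, h x * h1 x ≤ 0 := fun x hx => by
  have sub : Icc x δ ⊆ Icc 0 δ := Icc_subset_Icc hx.1 le_rfl
  have := mv0 (f := fun y => h y * h1 y) hx.2 (fun y hy => (d0 y).fun_mul (d1 y (sub hy)))
    fun y hy => by
      have := (hq y (sub hy)).1
      nlinarith [mul_nonneg this (sq_nonneg (h y)), sq_nonneg (h1 y)]
  simpa [hδ] using this

theorem sq_anti (hq : ∀ x ∈ Icc 0 δ, 0 ≤ q x ∧ q x ≤ Q) (d0 : ∀ x, HasDerivAt h (h1 x) x)
    (d1 : ∀ x ∈ Icc 0 δ, HasDerivAt h1 (q x * h x) x) (hδ : h δ = 0) {x y : ℝ} (hx : 0 ≤ x)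
    (hxy : x ≤ y) (hy : y ≤ δ) : h y ^ 2 ≤ h x ^ 2 := by
  have := mv (f := fun y => h y * h y) (C := 0) hxy (fun z _ => (d0 z).fun_mul (d0 z))
    fun z hz => by
      have := hh1_nonpos hq d0 d1 hδ z ⟨hx.trans hz.1, hz.2.trans hy⟩
      linarith
  simp only [zero_mul] at this
  nlinarith

theorem h_pos (hq : ∀ x ∈ Icc 0 δ, 0 ≤ q x ∧ q x ≤ Q) (d0 : ∀ x, HasDerivAt h (h1 x) x)
    (d1 : ∀ x ∈ Icc 0 δ, HasDerivAt h1 (q x * h x) x) (h0 : h 0 = 1) (hδ : h δ = 0) :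
    ∀ x ∈ Ico 0 δ, 0 < h x := by
  have ne : ∀ x ∈ Ico 0 δ, h x ≠ 0 := fun x hx hz => by
    have hz' : ∀ y ∈ Ioo x δ, h y = 0 := fun y hy => by
      have := sq_anti hq d0 d1 hδ hx.1 hy.1.le hy.2.le
      rw [hz] at this
      exact pow_eq_zero_iff two_ne_zero |>.1 (le_antisymm (by simpa using this) (sq_nonneg _))
    have hm : (x + δ) / 2 ∈ Ioo x δ := ⟨by linarith [hx.2], by linarith [hx.2]⟩
    have h1z : h1 ((x + δ) / 2) = 0 :=
      (d0 _).unique ((hasDerivAt_const _ (0 : ℝ)).congr_of_eventuallyEq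
        (eventually_of_mem (Ioo_mem_nhds hm.1 hm.2) hz'))
    have sub : Icc 0 ((x + δ) / 2) ⊆ Icc 0 δ := Icc_subset_Icc le_rfl hm.2.le
    have := mv0 (f := fun y => (h y * h y + h1 y * h1 y) * Real.exp ((1 + Q) * y))
      (a := 0) (b := (x + δ) / 2) (hx.1.trans hm.1.le)
      (fun y hy => (((d0 y).fun_mul (d0 y)).fun_add ((d1 y (sub hy)).fun_mul (d1 y (sub hy)))).fun_mul
        ((hasDerivAt_id' y).const_mul (1 + Q)).exp)
      fun y hy => by
        obtain ⟨a1, a2⟩ := hq y (sub hy)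
        have hE := Real.exp_pos ((1 + Q) * y)
        have a3 : 0 ≤ (1 + q y) * (h y + h1 y) ^ 2 + (Q - q y) * (h y ^ 2 + h1 y ^ 2) :=
          add_nonneg (mul_nonneg (by linarith) (sq_nonneg _))
            (mul_nonneg (by linarith) (by positivity))
        nlinarith [mul_nonneg a3 hE.le]
    simp only [hz' _ hm, h1z, h0, mul_zero, Real.exp_zero] at this
    nlinarith [mul_self_nonneg (h1 0)]
  intro x hx
  by_contra hc
  have hcont : ContinuousOn h (Icc 0 x) := fun y _ => (d0 y).continuousAt.continuousWithinAt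
  obtain ⟨y, hy, e⟩ := intermediate_value_Icc' hx.1 hcont (show (0 : ℝ) ∈ Icc (h x) (h 0) from
    ⟨not_lt.1 hc, by rw [h0]; norm_num⟩)
  exact ne y ⟨hy.1, hy.2.trans_lt hx.2⟩ e

theorem ode0 (hδ0 : 0 < δ) (hδ1 : δ ≤ 1) (hq : ∀ x ∈ Icc 0 δ, 0 ≤ q x ∧ q x ≤ Q)
    (d0 : ∀ x, HasDerivAt h (h1 x) x) (d1 : ∀ x ∈ Icc 0 δ, HasDerivAt h1 (q x * h x) x)
    (h0 : h 0 = 1) (hδ : h δ = 0) (e0 : ∀ x, HasDerivAt u (u1 x) x)
    (e1 : ∀ x ∈ Icc 0 δ, HasDerivAt u1 (q x * u x - h x) x) (u0 : u 0 = 0) (uδ : u δ = 0) :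
    ∃ n m γ : ℝ → ℝ, n 0 = -h1 0 ∧ m 0 = ∫ x in (0 : ℝ)..δ, h x ^ 2 ∧
      γ 0 = ∫ x in (0 : ℝ)..δ, u x * h x ∧ ∀ x ∈ Ico 0 δ,
        HasDerivAt n (n x ^ 2 - q x) x ∧ HasDerivAt m (2 * n x * m x - 1) x ∧
        HasDerivAt γ (2 * n x * γ x - m x ^ 2) x ∧ 0 ≤ n x ∧ n x ≤ 1 / (δ - x) + Q ∧
        |m x| ≤ 1 ∧ |γ x| ≤ 1 := by
  have hp := h_pos hq d0 d1 h0 hδ
  have hc : Continuous h := continuous_iff_continuousAt.2 fun x => (d0 x).continuousAt
  have uc : Continuous u := continuous_iff_continuousAt.2 fun x => (e0 x).continuousAt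
  have c2 : Continuous fun x => h x ^ 2 := hc.pow 2
  have c3 : Continuous fun x => u x * h x := uc.mul hc
  have dI : ∀ f : ℝ → ℝ, Continuous f → ∀ x, HasDerivAt (fun y => ∫ t in y..δ, f t) (-f x) x :=
    fun f hf x => by
      have := (hf.integral_hasStrictDerivAt δ x).hasDerivAt.fun_neg
      simpa only [← intervalIntegral.integral_symm] using this
  set H : ℝ → ℝ := fun y => ∫ t in y..δ, h t ^ 2 with hH
  have dH : ∀ x, HasDerivAt H (-h x ^ 2) x := dI _ c2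
  have hW : ∀ x ∈ Icc 0 δ, u1 x * h x - u x * h1 x = H x := by
    have dW : ∀ x ∈ Icc 0 δ, HasDerivAt (fun y => u1 y * h y - u y * h1 y - H y) 0 x :=
      fun x hx => ((((e1 x hx).fun_mul (d0 x)).fun_sub ((e0 x).fun_mul (d1 x hx))).fun_sub
        (dH x)).congr_deriv (by ring)
    have := constant_of_has_deriv_right_zero
      (fun x hx => (dW x hx).continuousAt.continuousWithinAt)
      fun x hx => (dW x (Ico_subset_Icc_self hx)).hasDerivWithinAt
    intro x hx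
    have a1 := this x hx
    have a2 := this δ (right_mem_Icc.2 hδ0.le)
    have a3 : H δ = 0 := by simp [hH]
    rw [hδ, uδ, a3] at a2
    linarith
  have hm : ∀ x ∈ Ico 0 δ, 0 ≤ H x ∧ H x ≤ h x ^ 2 := fun x hx => by
    refine ⟨intervalIntegral.integral_nonneg hx.2.le fun t _ => sq_nonneg _, ?_⟩
    have := intervalIntegral.integral_mono_on hx.2.le (c2.intervalIntegrable (μ := volume) _ _)
      (intervalIntegrable_const (c := h x ^ 2)) fun t ht => sq_anti hq d0 d1 hδ hx.1 ht.1 ht.2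
    rw [intervalIntegral.integral_const, smul_eq_mul] at this
    exact this.trans (mul_le_of_le_one_left (sq_nonneg _) (by linarith [hx.1]))
  have hm1 : ∀ x ∈ Ico 0 δ, |H x / h x ^ 2| ≤ 1 := fun x hx => by
    have := pow_pos (hp x hx) 2
    rw [abs_of_nonneg (div_nonneg (hm x hx).1 this.le), div_le_one this]
    exact (hm x hx).2
  have dv : ∀ x ∈ Ico 0 δ, HasDerivAt (fun y => u y / h y) (H x / h x ^ 2) x := fun x hx => by
    rw [← hW x (Ico_subset_Icc_self hx)]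
    exact (e0 x).fun_div (d0 x) (hp x hx).ne'
  refine ⟨fun x => -h1 x / h x, fun x => H x / h x ^ 2,
    fun x => ((∫ t in x..δ, u t * h t) - u x / h x * H x) / h x ^ 2, by simp [h0],
    by simp [h0, hH], by simp [h0, u0], fun x hx => ?_⟩
  have hx' := Ico_subset_Icc_self hx
  have hpx := hp x hx
  have d2 : HasDerivAt (fun y => h y ^ 2) (2 * h x * h1 x) x :=
    ((d0 x).fun_pow 2).congr_deriv (by simp)
  have hneg : h1 x ≤ 0 := by
    have := hh1_nonpos hq d0 d1 hδ x hx'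
    by_contra hc'
    linarith [mul_pos hpx (not_le.1 hc')]
  refine ⟨((d1 x hx').fun_neg.fun_div (d0 x) hpx.ne').congr_deriv ?_,
    ((dH x).fun_div d2 (by positivity)).congr_deriv ?_,
    (((dI _ c3 x).fun_sub ((dv x hx).fun_mul (dH x))).fun_div d2 (by positivity)).congr_deriv ?_,
    div_nonneg (by linarith) hpx.le, ?_, hm1 x hx, ?_⟩
  · field_simp; ring
  · field_simp; ring
  · field_simp; ring
  · have hl : 0 < δ - x := by linarith [hx.2]
    have hQ : 0 ≤ Q := (hq x hx').1.trans (hq x hx').2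
    have sub : Icc x δ ⊆ Icc 0 δ := Icc_subset_Icc hx.1 le_rfl
    have hle : ∀ y ∈ Icc x δ, h y ≤ h x := fun y hy =>
      (abs_le_of_sq_le_sq' (sq_anti hq d0 d1 hδ hx.1 hy.1 hy.2) hpx.le).2
    have a1 : ∀ y ∈ Icc x δ, h1 y ≤ h1 x + Q * h x := fun y hy => by
      have := mv (C := Q * h x) hy.1
        (fun z hz => d1 z (sub ⟨hz.1, hz.2.trans hy.2⟩)) fun z hz => by
          have hz' : z ∈ Icc x δ := ⟨hz.1, hz.2.trans hy.2⟩
          exact (mul_le_mul_of_nonneg_left (hle z hz') (hq z (sub hz')).1).trans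
            (mul_le_mul_of_nonneg_right (hq z (sub hz')).2 hpx.le)
      have a0 : Q * h x * (y - x) ≤ Q * h x :=
        mul_le_of_le_one_right (mul_nonneg hQ hpx.le) (by linarith [hy.2, hx.1])
      linarith
    have a2 := mv hx.2.le (fun z _ => d0 z) a1
    rw [hδ] at a2
    rw [div_le_iff₀ hpx, add_mul, div_mul_eq_mul_div, ← sub_le_iff_le_add, le_div_iff₀ hl]
    linarith
  · have hb : ∀ t ∈ Icc x δ, |u t * h t - u x / h x * h t ^ 2| ≤ h t ^ 2 := fun t ht => by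
      rcases ht.2.eq_or_lt with rfl | hlt
      · simp [hδ]
      have hpt := hp t ⟨hx.1.trans ht.1, hlt⟩
      have sub : ∀ z ∈ Icc x t, z ∈ Ico 0 δ := fun z hz => ⟨hx.1.trans hz.1, hz.2.trans_lt hlt⟩
      have b1 := mv (C := 1) ht.1 (fun z hz => dv z (sub z hz))
        fun z hz => (abs_le.1 (hm1 z (sub z hz))).2
      have b2 := mv (C := 1) ht.1 (fun z hz => (dv z (sub z hz)).fun_neg)
        fun z hz => by linarith [(abs_le.1 (hm1 z (sub z hz))).1]
      have e : u t * h t - u x / h x * h t ^ 2 = (u t / h t - u x / h x) * h t ^ 2 := by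
        field_simp
      rw [e, abs_mul, abs_of_nonneg (sq_nonneg (h t))]
      exact mul_le_of_le_one_left (sq_nonneg _)
        (abs_le.2 ⟨by linarith [hx.1], by linarith [hx.1]⟩)
    have i2 := c2.intervalIntegrable (μ := volume) x δ
    have i3 := c3.intervalIntegrable (μ := volume) x δ
    have i4 := i3.sub (i2.const_mul (u x / h x))
    have e : (∫ t in x..δ, u t * h t) - u x / h x * H x =
        ∫ t in x..δ, (u t * h t - u x / h x * h t ^ 2) := by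
      rw [intervalIntegral.integral_sub i3 (i2.const_mul _), intervalIntegral.integral_const_mul]
    have b3 := (intervalIntegral.abs_integral_le_integral_abs hx.2.le).trans
      (intervalIntegral.integral_mono_on hx.2.le i4.abs i2 hb)
    beta_reduce
    rw [e, abs_div, abs_of_nonneg (sq_nonneg (h x)), div_le_one (by positivity)]
    exact b3.trans (hm x hx).2

end ode

theorem exp_le {a δ B p t : ℝ} (ha : 0 < a) (hE : Real.exp (-(a / 8 * (δ / 4))) ≤ B * p / a ^ 4)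
    (ht : δ / 4 ≤ t) : Real.exp (-(a / 8 * t)) ≤ B * p / a ^ 4 :=
  (Real.exp_le_exp.2 (neg_le_neg (mul_le_mul_of_nonneg_left ht (by positivity)))).trans hE

theorem three {δ a B p : ℝ} {q n m γ n' m' γ' ρ1 ρ2 ρ3 : ℝ → ℝ} (hδ : 0 < δ) (hB : 1 ≤ B)
    (ha : 144 * B ^ 2 ≤ a) (hp0 : 0 < p) (hp1 : p ≤ 1)
    (hE : Real.exp (-(a / 8 * (δ / 4))) ≤ B * p / a ^ 4)
    (D : ∀ x ∈ Ico 0 δ, HasDerivAt n (n x ^ 2 - q x) x ∧ HasDerivAt m (2 * n x * m x - 1) x ∧
      HasDerivAt γ (2 * n x * γ x - m x ^ 2) x ∧ 0 ≤ n x ∧ |m x| ≤ 1 ∧ |γ x| ≤ 1)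
    (D' : ∀ x ∈ Ico 0 δ, HasDerivAt n' (n' x ^ 2 - q x - ρ1 x) x ∧
      HasDerivAt m' (2 * n' x * m' x - 1 - ρ2 x) x ∧
      HasDerivAt γ' (2 * n' x * γ' x - m' x ^ 2 - ρ3 x) x ∧ a / 8 ≤ n' x ∧ |m' x| ≤ B / a ∧
      |γ' x| ≤ B / a ^ 3 ∧ |ρ1 x| ≤ B * p ∧ |ρ2 x| ≤ B * p / a ^ 2 ∧ |ρ3 x| ≤ B * p / a ^ 4)
    (hend : |n (3 * δ / 4) - n' (3 * δ / 4)| ≤ B * a ^ 2) :
    |n 0 - n' 0| ≤ 9 * B ^ 2 * p ∧ |m 0 - m' 0| ≤ 154 * B ^ 3 * p / a ^ 2 ∧
      |γ 0 - γ' 0| ≤ 200000 * B ^ 6 * p / a ^ 4 := by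
  have hB0 : 0 < B := by linarith
  have hB2 : B ≤ B ^ 2 := by nlinarith
  have ha1 : 1 ≤ a := by linarith
  have ha0 : 0 < a := by linarith
  obtain ⟨w, hw0, hw1, hw⟩ : ∃ w : ℝ, 0 < w ∧ w ≤ 1 ∧ w = a⁻¹ :=
    ⟨a⁻¹, inv_pos.2 ha0, inv_le_one_of_one_le₀ ha1, rfl⟩
  have haw : a * w = 1 := by rw [hw, mul_inv_cancel₀ ha0.ne']
  have hBw : B ^ 2 * w ≤ 1 / 144 := by nlinarith
  have e8 : ∀ P : ℝ, P / (a / 8) = 8 * P * w := fun P => by rw [hw]; field_simp
  have ek : ∀ (P : ℝ) (k : ℕ), P / a ^ k = P * w ^ k := fun P k => by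
    rw [hw, inv_pow, div_eq_mul_inv]
  have e1 : B / a = B * w := by rw [hw, div_eq_mul_inv]
  simp only [ek, e1] at D' ⊢
  have hE' : ∀ t, δ / 4 ≤ t → Real.exp (-(a / 8 * t)) ≤ B * p * w ^ 4 := fun t ht =>
    ek _ _ ▸ exp_le ha0 hE ht
  have S1 : ∀ x ∈ Icc 0 (δ / 2), |n x - n' x| ≤ 9 * B ^ 2 * p * w := fun x hx => by
    have sub : ∀ y ∈ Icc x (3 * δ / 4), y ∈ Ico 0 δ := fun y hy =>
      ⟨hx.1.trans hy.1, by linarith [hy.2]⟩
    have := gron (e := fun y => n y - n' y) (A := fun y => n y + n' y) (ρ := ρ1) (c := a / 8)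
      (P := B * p) (x0 := x) (x1 := 3 * δ / 4) (by linarith [hx.2]) (by positivity)
      (fun y hy => ((D y (sub y hy)).1.fun_sub (D' y (sub y hy)).1).congr_deriv (by ring))
      (fun y hy => by linarith [(D y (sub y hy)).2.2.2.1, (D' y (sub y hy)).2.2.2.1])
      fun y hy => (D' y (sub y hy)).2.2.2.2.2.2.1
    rw [e8] at this
    have t1 := mul_le_mul (hE' (3 * δ / 4 - x) (by linarith [hx.2])) hend (abs_nonneg _)
      (by positivity)
    have t2 : B * p * w ^ 4 * (B * a ^ 2) = B ^ 2 * p * w * w := by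
      calc _ = B ^ 2 * p * w * w * (a * w) ^ 2 := by ring
        _ = _ := by rw [haw]; ring
    have t3 : B ^ 2 * p * w * w ≤ B ^ 2 * p * w := mul_le_of_le_one_right (by positivity) hw1
    have t4 : B * (p * w) ≤ B ^ 2 * (p * w) := mul_le_mul_of_nonneg_right hB2 (by positivity)
    linarith
  have N1 : ∀ x ∈ Icc 0 (δ / 2), a / 8 ≤ 2 * n x := fun x hx => by
    have t1 := (abs_le.1 (S1 x hx)).1
    have t2 := (D' x ⟨hx.1, by linarith [hx.2]⟩).2.2.2.1
    have t3 : 9 * B ^ 2 * (p * w) ≤ 9 * B ^ 2 :=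
      mul_le_of_le_one_right (by positivity) (mul_le_one₀ hp1 hw0.le hw1)
    linarith
  have hBw1 : B * w ≤ 1 := by nlinarith
  have S2 : ∀ x ∈ Icc 0 (δ / 4), |m x - m' x| ≤ 154 * B ^ 3 * p * w ^ 2 := fun x hx => by
    have sub : ∀ y ∈ Icc x (δ / 2), y ∈ Ico 0 δ := fun y hy =>
      ⟨hx.1.trans hy.1, by linarith [hy.2]⟩
    have := gron (e := fun y => m y - m' y) (A := fun y => 2 * n y)
      (ρ := fun y => 2 * (n y - n' y) * m' y + ρ2 y) (c := a / 8)
      (P := 19 * B ^ 3 * p * w ^ 2) (x0 := x) (x1 := δ / 2) (by linarith [hx.2]) (by positivity)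
      (fun y hy => ((D y (sub y hy)).2.1.fun_sub (D' y (sub y hy)).2.1).congr_deriv (by ring))
      (fun y hy => N1 y ⟨hx.1.trans hy.1, hy.2⟩)
      fun y hy => by
        have t1 := mul_le_mul (S1 y ⟨hx.1.trans hy.1, hy.2⟩) (D' y (sub y hy)).2.2.2.2.1
          (abs_nonneg _) (by positivity)
        have t2 := (D' y (sub y hy)).2.2.2.2.2.2.2.1
        have t3 := abs_add_le (2 * (n y - n' y) * m' y) (ρ2 y)
        rw [mul_assoc, abs_mul, abs_mul, abs_two] at t3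
        have t4 : B * (p * w ^ 2) ≤ B ^ 3 * (p * w ^ 2) :=
          mul_le_mul_of_nonneg_right (by nlinarith) (by positivity)
        rw [mul_assoc]
        linarith
    rw [e8] at this
    have hm : δ / 2 ∈ Ico 0 δ := ⟨by linarith, by linarith⟩
    have t0 : |m (δ / 2) - m' (δ / 2)| ≤ 2 :=
      (abs_sub _ _).trans (by linarith [(D _ hm).2.2.2.2.1, (D' _ hm).2.2.2.2.1])
    have t1 := mul_le_mul (hE' (δ / 2 - x) (by linarith [hx.2])) t0 (abs_nonneg _) (by positivity)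
    have t2 : B * (p * w ^ 2) * w ^ 2 ≤ B ^ 3 * (p * w ^ 2) * 1 :=
      mul_le_mul (mul_le_mul_of_nonneg_right (by nlinarith) (by positivity))
        (pow_le_one₀ hw0.le hw1) (by positivity) (by positivity)
    have t3 : B ^ 3 * p * w ^ 2 * w ≤ B ^ 3 * p * w ^ 2 :=
      mul_le_of_le_one_right (by positivity) hw1
    linarith
  have h00 : (0 : ℝ) ≤ δ / 4 := by linarith
  refine ⟨(S1 0 ⟨le_rfl, by linarith⟩).trans (mul_le_of_le_one_right (by positivity) hw1),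
    S2 0 ⟨le_rfl, h00⟩, ?_⟩
  have sub : ∀ y ∈ Icc 0 (δ / 4), y ∈ Ico 0 δ := fun y hy => ⟨hy.1, by linarith [hy.2]⟩
  have b6 : ∀ k : ℕ, k ≤ 6 → B ^ k ≤ B ^ 6 := fun k hk => pow_le_pow_right₀ hB hk
  have := gron (e := fun y => γ y - γ' y) (A := fun y => 2 * n y)
    (ρ := fun y => 2 * (n y - n' y) * γ' y - (m y - m' y) * (2 * m' y + (m y - m' y)) + ρ3 y)
    (c := a / 8) (P := 24043 * B ^ 6 * p * w ^ 3) (x0 := 0) (x1 := δ / 4) h00 (by positivity)
    (fun y hy => ((D y (sub y hy)).2.2.1.fun_sub (D' y (sub y hy)).2.2.1).congr_deriv (by ring))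
    (fun y hy => N1 y ⟨hy.1, by linarith [hy.2]⟩)
    fun y hy => by
      have t1 := mul_le_mul (S1 y ⟨hy.1, by linarith [hy.2]⟩) (D' y (sub y hy)).2.2.2.2.2.1
        (abs_nonneg _) (by positivity)
      have t2 := (D' y (sub y hy)).2.2.2.2.2.2.2.2
      have t3 := S2 y hy
      have t4 : |2 * m' y + (m y - m' y)| ≤ 2 * (B * w) + 154 * B ^ 3 * w := by
        refine (abs_add_le _ _).trans (add_le_add ?_ (t3.trans ?_))
        · rw [abs_mul, abs_two]
          linarith [(D' y (sub y hy)).2.2.2.2.1]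
        · calc 154 * B ^ 3 * p * w ^ 2 = 154 * B ^ 3 * w * (p * w) := by ring
            _ ≤ _ := mul_le_of_le_one_right (by positivity) (mul_le_one₀ hp1 hw0.le hw1)
      have t5 := mul_le_mul t3 t4 (abs_nonneg _) (by positivity)
      have t6 := (abs_add_le _ (ρ3 y)).trans (add_le_add_left
        (abs_sub (2 * (n y - n' y) * γ' y) ((m y - m' y) * (2 * m' y + (m y - m' y)))) _)
      rw [mul_assoc, abs_mul, abs_mul, abs_mul, abs_two] at t6
      have hX : 0 ≤ p * w ^ 3 := by positivity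
      have u1 : B ^ 3 * (p * w ^ 3) * w ≤ B ^ 6 * (p * w ^ 3) * 1 :=
        mul_le_mul (mul_le_mul_of_nonneg_right (b6 3 (by norm_num)) hX) hw1 hw0.le (by positivity)
      have u2 : B ^ 1 * (p * w ^ 3) * w ≤ B ^ 6 * (p * w ^ 3) * 1 :=
        mul_le_mul (mul_le_mul_of_nonneg_right (b6 1 (by norm_num)) hX) hw1 hw0.le (by positivity)
      have u3 : B ^ 4 * (p * w ^ 3) ≤ B ^ 6 * (p * w ^ 3) :=
        mul_le_mul_of_nonneg_right (b6 4 (by norm_num)) hX
      rw [mul_assoc]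
      linarith
  rw [e8] at this
  have hm := sub (δ / 4) ⟨h00, le_rfl⟩
  have t0 : |γ (δ / 4) - γ' (δ / 4)| ≤ 2 := by
    have : B * w ^ 3 ≤ B * w :=
      mul_le_mul_of_nonneg_left (pow_le_of_le_one hw0.le hw1 (by norm_num)) hB0.le
    exact (abs_sub _ _).trans (by linarith [(D _ hm).2.2.2.2.2, (D' _ hm).2.2.2.2.2.1])
  have t1 := mul_le_mul (hE' (δ / 4 - 0) (by linarith)) t0 (abs_nonneg _) (by positivity)
  have u2 : B ^ 1 * (p * w ^ 4) ≤ B ^ 6 * (p * w ^ 4) :=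
    mul_le_mul_of_nonneg_right (b6 1 (by norm_num)) (by positivity)
  have u3 : 0 ≤ B ^ 6 * (p * w ^ 4) := by positivity
  linarith

end Pool.Agent.Lib.ISO.RIC
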