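import Pool.Agent.Lib.ISO.BlueV
import Pool.Agent.Lib.ISO.B_RIC1

open scoped ContDiff Topology
open MeasureTheory Set Filter

noncomputable section

namespace Pool.Agent.Lib.ISO

namespace RIC

theorem lam_bd {μ s r : ℝ} (hs : 0 ≤ s) (h1 : 1 / 2 ≤ r) (h2 : r ≤ 2) :
    √(μ ^ 2 + s) / 2 ≤ √(μ ^ 2 * r ^ 2 + s) ∧ √(μ ^ 2 * r ^ 2 + s) ≤ 2 * √(μ ^ 2 + s) := by
  have e := Real.sq_sqrt (show 0 ≤ μ ^ 2 + s by positivity)
  have a1 : μ ^ 2 * (1 / 4) ≤ μ ^ 2 * r ^ 2 :=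
    mul_le_mul_of_nonneg_left (by nlinarith) (sq_nonneg μ)
  have a2 : μ ^ 2 * r ^ 2 ≤ μ ^ 2 * 4 := mul_le_mul_of_nonneg_left (by nlinarith) (sq_nonneg μ)
  refine ⟨Real.le_sqrt_of_sq_le ?_, Real.sqrt_le_iff.2 ⟨by positivity, ?_⟩⟩
  · rw [div_pow, e]; linarith
  · rw [mul_pow, e]; linarith

theorem bd (hS : St_SYC) {d : ℤ} {f : ℝ → ℝ → ℝ} (hf : InS d f) (k : ℕ) (hd : d = -k) :
    ∃ C, 0 ≤ C ∧ ∀ μ s r : ℝ, 1 ≤ μ → 0 ≤ s → 1 / 2 ≤ r → r ≤ 2 →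
      |f (μ ^ 2 * r ^ 2) s| ≤ C / √(μ ^ 2 + s) ^ k := by
  obtain ⟨C, hC⟩ := (hS.1 d f hf).2.2
  refine ⟨|C| * 2 ^ k, by positivity, fun μ s r hμ hs h1 h2 => ?_⟩
  have hτ : 1 / 4 ≤ μ ^ 2 * r ^ 2 := by
    have : 1 * (1 / 2) ≤ μ * r := mul_le_mul hμ h1 (by norm_num) (by linarith)
    rw [← mul_pow]; nlinarith
  have ha : 0 < √(μ ^ 2 + s) := Real.sqrt_pos.2 (by positivity)
  refine (hC _ s (by linarith) hs (by linarith)).trans ?_
  rw [hd, zpow_neg, zpow_natCast]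
  have h3 : (√(μ ^ 2 * r ^ 2 + s) ^ k)⁻¹ ≤ ((√(μ ^ 2 + s) / 2) ^ k)⁻¹ :=
    inv_anti₀ (by positivity) (pow_le_pow_left₀ (by positivity) (lam_bd hs h1 h2).1 k)
  calc _ ≤ |C| * ((√(μ ^ 2 + s) / 2) ^ k)⁻¹ :=
        mul_le_mul (le_abs_self C) h3 (by positivity) (abs_nonneg C)
    _ = _ := by rw [div_pow]; field_simp

theorem dres (hS : St_SYC) {φ : ℝ → ℝ → ℝ} (hφ : InS 1 φ) (σ : ℝ) {s : ℝ} (hs : 0 ≤ s) :
    (∀ τ, 0 < τ → dt (res σ φ) τ s =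
      2 * φ τ s * dt φ τ s - 1 + σ * (dt φ τ s + 2 * τ * dt (dt φ) τ s)) ∧
    ∀ τ, 0 < τ → dt (dt (res σ φ)) τ s = 2 * dt φ τ s ^ 2 + 2 * φ τ s * dt (dt φ) τ s +
      σ * (3 * dt (dt φ) τ s + 2 * τ * dt (dt (dt φ)) τ s) := by
  obtain ⟨i1, d0, -⟩ := hS.1 _ _ hφ
  obtain ⟨i2, d1, -⟩ := hS.1 _ _ i1
  obtain ⟨-, d2, -⟩ := hS.1 _ _ i2
  have A : ∀ τ, 0 < τ → dt (res σ φ) τ s =
      2 * φ τ s * dt φ τ s - 1 + σ * (dt φ τ s + 2 * τ * dt (dt φ) τ s) := fun τ hτ =>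
    ((((d0 τ s hτ hs).fun_pow 2).fun_sub ((((hasDerivAt_id' τ).add_const s).sub_const
      (1 / 4)).fun_add (((d0 τ s hτ hs).fun_sub (((hasDerivAt_id' τ).const_mul 2).fun_mul
        (d1 τ s hτ hs))).const_mul σ))).congr_deriv (by norm_num; ring)).deriv
  refine ⟨A, fun τ hτ => ?_⟩
  have h := ((((d0 τ s hτ hs).const_mul 2).fun_mul (d1 τ s hτ hs)).sub_const 1).fun_add
    (((d1 τ s hτ hs).fun_add (((hasDerivAt_id' τ).const_mul 2).fun_mul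
      (d2 τ s hτ hs))).const_mul σ)
  exact ((h.congr_of_eventuallyEq ((eventually_gt_nhds hτ).mono A)).congr_deriv (by ring)).deriv

theorem exp_bd {δ : ℝ} (hδ : 0 < δ) (k : ℕ) : ∃ E, 0 ≤ E ∧ ∀ a : ℝ, 0 < a →
    Real.exp (-(a / 8 * (δ / 4))) ≤ E / a ^ k := by
  refine ⟨(k.factorial : ℝ) * (32 / δ) ^ k, by positivity, fun a ha => ?_⟩
  have h := Real.pow_div_factorial_le_exp (a / 8 * (δ / 4)) (by positivity) k
  rw [Real.exp_neg]
  refine (inv_anti₀ (by positivity) h).trans (le_of_eq ?_)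
  rw [show a / 8 * (δ / 4) = a / (32 / δ) by field_simp; norm_num, div_pow]
  field_simp

theorem ode {δ Q : ℝ} {q : ℝ → ℝ} {g : GD} (hδ0 : 0 < δ) (hδ1 : δ ≤ 1)
    (hq : ∀ x ∈ Icc 0 δ, 0 ≤ q x ∧ q x ≤ Q) (hg : Gr q δ g) :
    ∃ n m γ : ℝ → ℝ, n 0 = g.N0 ∧ m 0 = g.M0 δ ∧ γ 0 = g.G0 δ ∧ ∀ x ∈ Ico 0 δ,
        HasDerivAt n (n x ^ 2 - q x) x ∧ HasDerivAt m (2 * n x * m x - 1) x ∧
        HasDerivAt γ (2 * n x * γ x - m x ^ 2) x ∧ 0 ≤ n x ∧ n x ≤ 1 / (δ - x) + Q ∧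
        |m x| ≤ 1 ∧ |γ x| ≤ 1 := by
  have hc : ContDiff ℝ ∞ fun y => (g.h0 y : ℂ) := Complex.ofRealCLM.contDiff.comp hg.s0
  obtain ⟨a1, a2⟩ := contDiff_infty_iff_deriv.1 hg.s0
  obtain ⟨b1, b2⟩ := contDiff_infty_iff_deriv.1 (hg.sm _ hc)
  refine ode0 (h1 := deriv g.h0) (u := g.u0)
    (u1 := fun x => (deriv (g.G fun y => (g.h0 y : ℂ)) x).re) hδ0 hδ1 hq
    (fun x => (a1 x).hasDerivAt)
    (fun x hx => hg.e0 x hx ▸ ((contDiff_infty_iff_deriv.1 a2).1 x).hasDerivAt) hg.v00 hg.v01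
    (fun x => Complex.reCLM.hasFDerivAt.comp_hasDerivAt x (b1 x).hasDerivAt)
    (fun x hx => (Complex.reCLM.hasFDerivAt.comp_hasDerivAt x
      ((contDiff_infty_iff_deriv.1 b2).1 x).hasDerivAt).congr_deriv ?_) ?_ ?_
  · rw [hg.eq _ hc x hx]
    simp [GD.u0]
  · simp [GD.u0, hg.z0 _ hc]
  · simp [GD.u0, hg.z1 _ hc]

theorem div_le {x C c B a : ℝ} {k : ℕ} (ha : 0 < a) (h : x ≤ c * (C / a ^ k)) (hB : c * C ≤ B) :
    x ≤ B / a ^ k := by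
  rw [← mul_div_assoc] at h
  exact h.trans (div_le_div_of_nonneg_right hB (by positivity))

end RIC

open RIC in
theorem st_ric (hS : St_SYC) : St_RIC := by
  intro J σ R δ φ hσ hR1 hR2 hδ0 hδ1 h0 hres
  have hφ : InS 1 φ := by
    have h1 := hS.2.2.2.2.2 0 1
    norm_num at h1
    simpa using hS.2.2.1 1 _ _ (hS.2.2.2.2.1 0 1 _ (by norm_num) h0) h1
  obtain ⟨i1, d0, -⟩ := hS.1 _ _ hφ
  obtain ⟨i2, d1, -⟩ := hS.1 _ _ i1
  obtain ⟨-, d2, -⟩ := hS.1 _ _ i2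
  have j1 := (hS.1 _ _ hres).1
  have j2 := (hS.1 _ _ j1).1
  obtain ⟨C0, c0, H0⟩ := bd hS h0 0 (by norm_num)
  obtain ⟨C1, c1, H1⟩ := bd hS hres J rfl
  obtain ⟨C2, c2, H2⟩ := bd hS j1 (J + 2) (by push_cast; ring)
  obtain ⟨C3, c3, H3⟩ := bd hS j2 (J + 4) (by push_cast; ring)
  obtain ⟨C4, c4, H4⟩ := bd hS i1 1 (by norm_num)
  obtain ⟨C5, c5, H5⟩ := bd hS i2 3 (by norm_num)
  obtain ⟨E, c6, H6⟩ := exp_bd hδ0 (J + 4)
  have c7 : 0 < 4 / δ := by positivity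
  obtain ⟨B, hB⟩ : ∃ B : ℝ,
      B = 1 + C0 + 4 * C1 + C2 + 2 * C3 + 2 * C4 + 4 * C5 + E + (4 / δ + 9) := ⟨_, rfl⟩
  have hB1 : 1 ≤ B := by linarith
  have hB2 : B ≤ B ^ 2 := by nlinarith
  refine ⟨200000 * B ^ 6, 144 * B ^ 2, fun μ s q g hμ hs _ hq hg => ?_⟩
  have hμ1 : 1 ≤ μ := by linarith
  have hsq := Real.sq_sqrt (show 0 ≤ μ ^ 2 + s by positivity)
  have hμa : μ ≤ √(μ ^ 2 + s) := Real.le_sqrt_of_sq_le (by linarith)
  have lam := fun r => lam_bd (μ := μ) (r := r) hs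
  have K0 := fun r => H0 μ s r hμ1 hs
  have K1 := fun r => H1 μ s r hμ1 hs
  have K2 := fun r => H2 μ s r hμ1 hs
  have K3 := fun r => H3 μ s r hμ1 hs
  have K4 := fun r => H4 μ s r hμ1 hs
  have K5 := fun r => H5 μ s r hμ1 hs
  generalize √(μ ^ 2 + s) = a at hsq hμa lam K0 K1 K2 K3 K4 K5 ⊢
  have ha1 : 1 ≤ a := by linarith
  have ha0 : 0 < a := by linarith
  have hr : ∀ x ∈ Icc 0 δ, 1 / 2 ≤ R - σ * x ∧ R - σ * x ≤ 2 := fun x hx => by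
    rcases hσ with rfl | rfl <;> constructor <;> linarith [hx.1, hx.2]
  have hqb : ∀ x ∈ Icc 0 δ, 0 ≤ q x ∧ q x ≤ 4 * a ^ 2 := fun x hx => by
    obtain ⟨r1, r2⟩ := hr x hx
    have r3 : 1 / 4 ≤ (R - σ * x) ^ 2 := by nlinarith
    have t1 : -1 ≤ (s - 1 / 4) / (R - σ * x) ^ 2 := by
      rw [le_div_iff₀ (by linarith)]; linarith
    have t2 : (s - 1 / 4) / (R - σ * x) ^ 2 ≤ 4 * s := by
      rw [div_le_iff₀ (by linarith)]; nlinarith
    rw [hq x hx, hsq]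
    constructor <;> nlinarith
  obtain ⟨n, m, γ, e1, e2, e3, D⟩ := ode hδ0 (by linarith) hqb hg
  have hφb : ∀ r, 1 / 2 ≤ r → r ≤ 2 →
      a / 8 ≤ φ (μ ^ 2 * r ^ 2) s / r ∧ φ (μ ^ 2 * r ^ 2) s / r ≤ 5 * a := fun r r1 r2 => by
    have t := K0 r r1 r2
    simp only [Pi.sub_apply, sy, pow_zero, zpow_one, one_mul, div_one] at t
    obtain ⟨l1, l2⟩ := lam r r1 r2
    obtain ⟨t1, t2⟩ := abs_le.1 t
    rw [le_div_iff₀ (by linarith), div_le_iff₀ (by linarith)]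
    constructor <;> nlinarith
  have ep : ∀ (P : ℝ) (k : ℕ), P * (a ^ J)⁻¹ / a ^ k = P / a ^ (J + k) := fun P k => by
    rw [pow_add]; field_simp
  obtain ⟨A1, A2⟩ := dres hS hφ σ hs
  have key := three (δ := δ) (a := a) (B := B) (p := (a ^ J)⁻¹) (q := q) (n := n) (m := m) (γ := γ)
    (n' := fun x => φ (μ ^ 2 * (R - σ * x) ^ 2) s / (R - σ * x))
    (m' := fun x => (R - σ * x) * dt φ (μ ^ 2 * (R - σ * x) ^ 2) s)
    (γ' := fun x => -((R - σ * x) ^ 3 * dt (dt φ) (μ ^ 2 * (R - σ * x) ^ 2) s / 2))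
    (ρ1 := fun x => res σ φ (μ ^ 2 * (R - σ * x) ^ 2) s / (R - σ * x) ^ 2)
    (ρ2 := fun x => dt (res σ φ) (μ ^ 2 * (R - σ * x) ^ 2) s)
    (ρ3 := fun x => -((R - σ * x) ^ 2 * dt (dt (res σ φ)) (μ ^ 2 * (R - σ * x) ^ 2) s / 2))
    hδ0 hB1 (by linarith) (by positivity) (inv_le_one_of_one_le₀ (one_le_pow₀ ha1))
    (by rw [ep]; exact (H6 a ha0).trans (div_le_div_of_nonneg_right (by linarith) (by positivity)))
    (fun x hx => ⟨(D x hx).1, (D x hx).2.1, (D x hx).2.2.1, (D x hx).2.2.2.1,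
      (D x hx).2.2.2.2.2⟩)
    (fun x hx => by
      have hx' := Ico_subset_Icc_self hx
      obtain ⟨r1, r2⟩ := hr x hx'
      have r0 : 0 < R - σ * x := by linarith
      have hτ : 0 < μ ^ 2 * (R - σ * x) ^ 2 := by positivity
      have dr : HasDerivAt (fun x => R - σ * x) (-σ) x := by
        simpa using ((hasDerivAt_id' x).const_mul σ).const_sub R
      have dτ : HasDerivAt (fun x => μ ^ 2 * (R - σ * x) ^ 2) (μ ^ 2 * (2 * (R - σ * x) * -σ)) x :=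
        ((dr.fun_pow 2).const_mul _).congr_deriv (by norm_num)
      have f0 := (d0 _ s hτ hs).comp x dτ
      have f1 := (d1 _ s hτ hs).comp x dτ
      have f2 := (d2 _ s hτ hs).comp x dτ
      have r4 : (R - σ * x) ^ 2 ≤ 4 := by nlinarith
      have r5 : (R - σ * x) ^ 3 ≤ 8 := by nlinarith
      have r6 : 1 / 4 ≤ (R - σ * x) ^ 2 := by nlinarith
      refine ⟨(f0.fun_div dr r0.ne').congr_deriv ?_, (dr.fun_mul f1).congr_deriv ?_,
        (((dr.fun_pow 3).fun_mul f2).div_const 2).fun_neg.congr_deriv ?_, (hφb _ r1 r2).1,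
        ?_, ?_, ?_, ?_, ?_⟩
      · simp only [hq x hx', res, Function.comp]
        field_simp
        ring
      · simp only [A1 _ hτ, Function.comp]
        field_simp
        ring
      · simp only [A2 _ hτ, Function.comp]
        norm_num
        field_simp
        ring
      · rw [← pow_one a]
        refine div_le (c := 2) (C := C4) ha0 ?_ (by linarith)
        rw [abs_mul, abs_of_pos r0]
        exact mul_le_mul r2 (K4 _ r1 r2) (abs_nonneg _) (by norm_num)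
      · refine div_le (c := 4) (C := C5) ha0 ?_ (by linarith)
        rw [abs_neg, abs_div, abs_mul, abs_of_pos (pow_pos r0 3), abs_two]
        linarith [mul_le_mul r5 (K5 _ r1 r2) (abs_nonneg _) (by norm_num)]
      · rw [← div_eq_mul_inv]
        refine div_le (c := 4) (C := C1) ha0 ?_ (by linarith)
        rw [abs_div, abs_of_pos (pow_pos r0 2), div_le_iff₀ (pow_pos r0 2)]
        have t := K1 _ r1 r2
        nlinarith [mul_le_mul_of_nonneg_left r6 ((abs_nonneg _).trans t)]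
      · rw [ep]
        exact div_le (c := 1) (C := C2) ha0 (by rw [one_mul]; exact K2 _ r1 r2) (by linarith)
      · rw [ep]
        refine div_le (c := 2) (C := C3) ha0 ?_ (by linarith)
        rw [abs_neg, abs_div, abs_mul, abs_of_pos (pow_pos r0 2), abs_two]
        linarith [mul_le_mul r4 (K3 _ r1 r2) (abs_nonneg _) (by norm_num)])
    (by
      have hx : 3 * δ / 4 ∈ Ico 0 δ := ⟨by linarith, by linarith⟩
      obtain ⟨r1, r2⟩ := hr _ (Ico_subset_Icc_self hx)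
      obtain ⟨t1, t2⟩ := hφb _ r1 r2
      obtain ⟨-, -, -, t3, t4, -⟩ := D _ hx
      have e : 1 / (δ - 3 * δ / 4) = 4 / δ := by field_simp; norm_num
      rw [e] at t4
      have t5 : a ≤ a ^ 2 := by nlinarith
      have t6 : 4 / δ ≤ 4 / δ * a ^ 2 := le_mul_of_one_le_right c7.le (by linarith)
      have t7 : (4 / δ + 9) * a ^ 2 ≤ B * a ^ 2 :=
        mul_le_mul_of_nonneg_right (by linarith) (sq_nonneg a)
      exact abs_le.2 ⟨by linarith, by linarith⟩)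
  simp only [mul_zero, sub_zero, e1, e2, e3, sub_neg_eq_add, ← div_eq_mul_inv] at key
  have b6 : ∀ k : ℕ, k ≤ 6 → B ^ k ≤ B ^ 6 := fun k hk => pow_le_pow_right₀ hB1 hk
  have b0 : 0 ≤ B ^ 6 := by positivity
  simp only [div_div, ← pow_add] at key
  exact ⟨key.1.trans (div_le_div_of_nonneg_right (by linarith [b6 2 (by norm_num)]) (by positivity)),
    key.2.1.trans (div_le_div_of_nonneg_right (by linarith [b6 3 (by norm_num)]) (by positivity)),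
    key.2.2⟩

end Pool.Agent.Lib.ISO
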