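import Pool.Agent.Lib.ISO.BlueE

/-! Row SCL: behaviour of the monomial integrals under scaling and reflection. -/

open scoped ContDiff

noncomputable section

namespace Pool.Agent.Lib.ISO

namespace SCL

lemma mono_scale (α : List ℕ) {k : ℝ → ℝ} (hk : ContDiff ℝ ∞ k) (c s : ℝ) :
    mono α (fun s => c * k (c * s)) s = c ^ wt α * mono α k (c * s) := by
  have e : ∀ j : ℕ, iteratedDeriv j (fun s => c * k (c * s)) s =
      c ^ (j + 1) * iteratedDeriv j k (c * s) := fun j => by
    have h1 : ContDiff ℝ j k := hk.of_le (by exact_mod_cast le_top)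
    rw [iteratedDeriv_const_mul_field, iteratedDeriv_comp_const_mul h1 c]
    ring
  unfold mono wt
  simp only [e]
  induction α with
  | nil => simp
  | cons a l ih =>
    simp only [List.map_cons, List.prod_cons, List.length_cons, List.sum_cons, ih]
    ring

lemma mono_per (α : List ℕ) {κ : ℝ → ℝ} {L : ℝ} (h : ∀ s, κ (s + L) = κ s) :
    Function.Periodic (mono α κ) L := by
  intro s
  have e : ∀ j, iteratedDeriv j κ (s + L) = iteratedDeriv j κ s := fun j => by
    have := congrFun (iteratedDeriv_comp_add_const (n := j) (f := κ) (s := L)) s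
    simp only [h] at this
    exact this.symm
  simp only [mono, e]

end SCL

theorem st_scl : St_SCL := by
  intro σ v k α hσ hv hk
  have hσ0 : σ ≠ 0 := by rcases hσ with h | h <;> rw [h] <;> norm_num
  have e : (fun s => σ * k (σ * s / v) / v) = fun s => σ / v * k (σ / v * s) := by
    funext s
    rw [show σ * s / v = σ / v * s by ring]
    ring
  have hc : σ / v ≠ 0 := div_ne_zero hσ0 hv.ne'
  unfold mint
  rw [e]
  simp only [SCL.mono_scale α hk.smooth]
  rw [intervalIntegral.integral_const_mul,
    intervalIntegral.integral_comp_mul_left (fun s => mono α k s) hc, smul_eq_mul, mul_zero,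
    show σ / v * (2 * Real.pi * v) = σ * (2 * Real.pi) by field_simp, div_pow]
  have key : (σ / v)⁻¹ * ∫ s in (0 : ℝ)..σ * (2 * Real.pi), mono α k s =
      v * ∫ s in (0 : ℝ)..2 * Real.pi, mono α k s := by
    rcases hσ with h | h
    · rw [h]; simp
    · have := (SCL.mono_per α hk.per).intervalIntegral_add_eq (-(2 * Real.pi)) 0
      rw [neg_add_cancel, zero_add] at this
      rw [h, neg_one_mul, intervalIntegral.integral_symm, this]
      field_simp
  rw [key]
  ring

end Pool.Agent.Lib.ISO
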