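import Pool.Agent.Lib.ISO.B_SEC2

/-! Row SEC, expansion of the form in the deformation parameter. -/

open scoped InnerProductSpace ENNReal ContDiff ComplexConjugate Topology
open MeasureTheory Complex Set Filter

noncomputable section

namespace Pool.Agent.Lib.ISO

open Pool.Agent.Lib.MP_312682_mp

namespace SEC

lemma w_facts (hQV : St_QV) {x : ℝ} (hx : x ∈ Icc 0 dl) : wJ x = ((R1 - x) ^ 2)⁻¹ ∧
    deriv wJ x = 2 * ((R1 - x) ^ 3)⁻¹ ∧ deriv (deriv wJ) x = 6 * ((R1 - x) ^ 4)⁻¹ := by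
  have hx' : x < 1 / 4 := by have := hx.2; rw [dl] at this; linarith
  have ne : ∀ r : ℝ, r < 1 / 4 → R1 - r ≠ 0 := fun r hr => by rw [R1]; linarith
  have h1 : ∀ r : ℝ, r < 1 / 4 → deriv wJ r = 2 * ((R1 - r) ^ 3)⁻¹ := fun r hr => by
    have a := ((((hasDerivAt_id r).const_sub R1).pow 2).inv (pow_ne_zero _ (ne r hr)))
    have b : wJ =ᶠ[𝓝 r] fun y => ((R1 - y) ^ 2)⁻¹ := by
      filter_upwards [gt_mem_nhds hr] with y hy using hQV.2.1 y hy.le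
    rw [b.deriv_eq]
    refine (HasDerivAt.deriv a).trans ?_
    have := ne r hr
    simp only [id, Pi.pow_apply]
    field_simp
    ring
  refine ⟨hQV.2.1 x hx'.le, h1 x hx', ?_⟩
  have a := ((((hasDerivAt_id x).const_sub R1).pow 3).inv (pow_ne_zero _ (ne x hx'))).const_mul 2
  have b : deriv wJ =ᶠ[𝓝 x] fun y => 2 * ((R1 - y) ^ 3)⁻¹ := by
    filter_upwards [gt_mem_nhds hx'] with y hy using h1 y hy
  rw [b.deriv_eq]
  refine (HasDerivAt.deriv a).trans ?_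
  have := ne x hx'
  simp only [id, Pi.pow_apply]
  field_simp
  ring

lemma taylor {J η : ℝ} (h1 : 98 / 100 ≤ J) (h2 : J ≤ 1) (h3 : |η| ≤ 1 / 5) :
    |((J + η) ^ 2)⁻¹ - (J ^ 2)⁻¹| ≤ 10 * |η| ∧
    |((J + η) ^ 2)⁻¹ - (J ^ 2)⁻¹ + η * (2 * (J ^ 3)⁻¹)| ≤ 10 * |η| ^ 2 ∧
    |((J + η) ^ 2)⁻¹ - (J ^ 2)⁻¹ + η * (2 * (J ^ 3)⁻¹) - η ^ 2 * (6 * (J ^ 4)⁻¹) / 2| ≤
      10 * |η| ^ 3 := by
  obtain ⟨h4, h5⟩ := abs_le.1 h3
  have a0 : 0 < J := by linarith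
  have a1 : 0 < J + η := by linarith
  have a2 : 6 / 10 ≤ (J + η) ^ 2 := by nlinarith
  have a3 : 9 / 10 ≤ J ^ 4 := le_trans (by norm_num) (pow_le_pow_left₀ (by norm_num) h1 4)
  have a4 : J ^ 4 ≤ J ^ 3 := pow_le_pow_of_le_one a0.le h2 (by norm_num)
  have a5 : J ^ 4 ≤ J ^ 2 := pow_le_pow_of_le_one a0.le h2 (by norm_num)
  have key : ∀ (N D : ℝ) (j : ℕ), 9 / 10 ≤ D → |N| ≤ 5 →
      |η ^ j * (N / (D * (J + η) ^ 2))| ≤ 10 * |η| ^ j := fun N D j hD hN => by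
    have : 1 / 2 ≤ D * (J + η) ^ 2 := by nlinarith
    rw [abs_mul, abs_pow, mul_comm, abs_div, abs_of_pos (by linarith : 0 < D * (J + η) ^ 2)]
    refine mul_le_mul_of_nonneg_right ?_ (by positivity)
    rw [div_le_iff₀ (by linarith)]
    linarith
  refine ⟨?_, ?_, ?_⟩
  · have := key (-(2 * J + η)) (J ^ 2) 1 (by linarith) (abs_le.2 ⟨by linarith, by linarith⟩)
    rw [pow_one, pow_one] at this
    refine le_trans (le_of_eq (congrArg _ ?_)) this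
    field_simp
    ring
  · refine le_trans (le_of_eq (congrArg _ ?_))
      (key (3 * J + 2 * η) (J ^ 3) 2 (by linarith) (abs_le.2 ⟨by linarith, by linarith⟩))
    field_simp
    ring
  · refine le_trans (le_of_eq (congrArg _ ?_))
      (key (-(4 * J + 3 * η)) (J ^ 4) 3 a3 (abs_le.2 ⟨by linarith, by linarith⟩))
    field_simp
    ring

lemma J_mem {x : ℝ} (hx : x ∈ Icc 0 dl) : 98 / 100 ≤ R1 - x ∧ R1 - x ≤ 1 := by
  obtain ⟨h1, h2⟩ := hx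
  rw [dl] at h2
  rw [R1]
  constructor <;> linarith

lemma w_bd (hQV : St_QV) {x : ℝ} (hx : x ∈ Icc 0 dl) :
    |wJ x| ≤ 2 ∧ |deriv wJ x| ≤ 4 ∧ |deriv (deriv wJ) x| ≤ 12 := by
  obtain ⟨e0, e1, e2⟩ := w_facts hQV hx
  obtain ⟨h1, h2⟩ := J_mem hx
  have key : ∀ j ≤ 4, |((R1 - x) ^ j)⁻¹| ≤ 2 := fun j hj => by
    have a3 : 9 / 10 ≤ (R1 - x) ^ 4 :=
      le_trans (by norm_num) (pow_le_pow_left₀ (by norm_num) h1 4)
    have a4 : (R1 - x) ^ 4 ≤ (R1 - x) ^ j := pow_le_pow_of_le_one (by linarith) h2 hj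
    rw [abs_inv, abs_of_pos (by linarith), inv_le_comm₀ (by linarith) (by norm_num)]
    linarith
  rw [e2, e1, e0, abs_mul, abs_mul, abs_two, abs_of_pos (by norm_num : (0 : ℝ) < 6)]
  exact ⟨key 2 (by norm_num), by linarith [key 3 (by norm_num)], by linarith [key 4 le_rfl]⟩

def M1 (k : ℕ) (μ : ℝ) (z : ℂ) : Mat :=
  Mt μ (-(rh k z.re * deriv wJ z.im)) (deriv (rh k) z.re * wJ z.im) 0
def M2 (k : ℕ) (μ : ℝ) (z : ℂ) : Mat :=
  Mt μ (rh k z.re ^ 2 * deriv (deriv wJ) z.im / 2)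
    (-(rh k z.re * deriv (rh k) z.re * deriv wJ z.im)) (deriv (rh k) z.re ^ 2 * wJ z.im)

lemma Ae_eq (k : ℕ) (ε μ : ℝ) (z : ℂ) : Ae k ε μ z = Mt μ (we k ε z)
    (ε * deriv (rh k) z.re * we k ε z) ((ε * deriv (rh k) z.re) ^ 2 * we k ε z) - dg3 0 1 0 := by
  ext i j
  fin_cases i <;> fin_cases j <;> simp [Ae, Mt, dg3]

lemma eta_le (k : ℕ) {ε : ℝ} (s : ℝ) : |ε * rh k s| ≤ 2 * |ε| := by
  rw [abs_mul, mul_comm]
  exact mul_le_mul_of_nonneg_right (abs_rh k s) (abs_nonneg _)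

lemma Bd_Ae (k : ℕ) {ε : ℝ} (μ : ℝ) (hε : |ε| ≤ 1 / 10) : Bd nuA (Ae k ε μ) := by
  rw [show Ae k ε μ = _ from funext (Ae_eq k ε μ)]
  have c1 := cont_rh k
  have c2 := cont_drh k
  have hw : ∀ z : ℂ, z.im ∈ Icc 0 dl → ContinuousAt (we k ε) z := fun z hz => by
    refine ContinuousAt.inv₀ (by fun_prop) (pow_ne_zero _ ?_)
    have := (abs_le.1 (eta_le k (ε := ε) z.re)).1
    have := (J_mem hz).1
    linarith
  exact (Bd_Mt hw (fun z hz => ContinuousAt.mul (by fun_prop) (hw z hz))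
    fun z hz => ContinuousAt.mul (by fun_prop) (hw z hz)).sub (Bd.const _)

variable (hQV : St_QV)
include hQV

lemma s0 : ContDiff ℝ ∞ wJ := hQV.1
lemma s1 : ContDiff ℝ ∞ (deriv wJ) := (contDiff_infty_iff_deriv.1 hQV.1).2
lemma s2 : ContDiff ℝ ∞ (deriv (deriv wJ)) := (contDiff_infty_iff_deriv.1 (s1 hQV)).2

lemma Bd_M (k : ℕ) (μ : ℝ) : Bd nuA (M1 k μ) ∧ Bd nuA (M2 k μ) := by
  have c1 := cont_rh k
  have c2 := cont_drh k
  have c3 := (s0 hQV).continuous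
  have c4 := (s1 hQV).continuous
  have c5 := (s2 hQV).continuous
  exact ⟨Bd_Mt (fun _ _ => by fun_prop) (fun _ _ => by fun_prop) fun _ _ => by fun_prop,
    Bd_Mt (fun _ _ => by fun_prop) (fun _ _ => by fun_prop) fun _ _ => by fun_prop⟩

lemma norm_M {k : ℕ} (hk : 1 ≤ k) {μ : ℝ} (hμ : 1 ≤ μ) :
    ‖mm nuA (M1 k μ)‖ ≤ 400 * k ^ 2 ∧ ‖mm nuA (M2 k μ)‖ ≤ 400 * k ^ 2 := by
  have hk' : (1 : ℝ) ≤ k := by exact_mod_cast hk
  have k2 : (k : ℝ) ≤ k ^ 2 := by nlinarith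
  constructor <;> refine mm_norm_le (by positivity) ?_ <;>
    filter_upwards [ae_rect (2 * Real.pi) dl] with z hz <;>
    obtain ⟨b0, b1, b2⟩ := w_bd hQV (Ioc_subset_Icc_self hz.2) <;>
    have a1 := abs_rh k z.re <;> have a2 := abs_drh k z.re <;>
    refine (norm_Mt hμ _ _ _).trans ?_ <;>
    simp only [abs_neg, abs_mul, abs_div, abs_pow, abs_two, abs_zero]
  · have : |rh k z.re| * |deriv wJ z.im| ≤ 2 * 4 := by gcongr
    have : |deriv (rh k) z.re| * |wJ z.im| ≤ 2 * k * 2 := by gcongr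
    linarith
  · have : |rh k z.re| ^ 2 * |deriv (deriv wJ) z.im| ≤ 2 ^ 2 * 12 := by gcongr
    have : |rh k z.re| * |deriv (rh k) z.re| * |deriv wJ z.im| ≤ 2 * (2 * k) * 4 := by gcongr
    have : |deriv (rh k) z.re| ^ 2 * |wJ z.im| ≤ (2 * k) ^ 2 * 2 := by gcongr
    nlinarith

lemma norm_R {k : ℕ} (hk : 1 ≤ k) {μ ε : ℝ} (hμ : 1 ≤ μ) (hε : |ε| ≤ 1 / 10) :
    ‖mm nuA (Ae k ε μ) - mm nuA (Ae k 0 μ) - (ε : ℂ) • mm nuA (M1 k μ) -
      ((ε ^ 2 : ℝ) : ℂ) • mm nuA (M2 k μ)‖ ≤ 400 * k ^ 2 * |ε| ^ 3 := by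
  have hk' : (1 : ℝ) ≤ k := by exact_mod_cast hk
  have k2 : (k : ℝ) ≤ k ^ 2 := by nlinarith
  obtain ⟨b1, b2⟩ := Bd_M hQV k μ
  have b3 := Bd_Ae k μ hε
  have b4 := Bd_Ae k (ε := 0) μ (by norm_num)
  have sc : ∀ {M : ℂ → Mat} (c : ℂ), Bd nuA M → Bd nuA fun z => c • M z := fun c h => by
    simpa using (Bd.const (c • (1 : Mat))).mul h
  rw [mm_smul b1, mm_smul b2, mm_sub b3 b4, mm_sub (b3.sub b4) (sc _ b1),
    mm_sub ((b3.sub b4).sub (sc _ b1)) (sc _ b2)]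
  refine mm_norm_le (by positivity) ?_
  filter_upwards [ae_rect (2 * Real.pi) dl] with z hz
  have hz' := Ioc_subset_Icc_self hz.2
  obtain ⟨e0, e1, e2⟩ := w_facts hQV hz'
  have hη := eta_le k (ε := ε) z.re
  obtain ⟨t1, t2, t3⟩ := taylor (J_mem hz').1 (J_mem hz').2 (η := ε * rh k z.re) (by linarith)
  rw [← e0] at t1
  rw [← e0, ← e1] at t2
  rw [← e0, ← e1, ← e2] at t3
  have e : Ae k ε μ z - Ae k 0 μ z - (ε : ℂ) • M1 k μ z - ((ε ^ 2 : ℝ) : ℂ) • M2 k μ z =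
      Mt μ (we k ε z - wJ z.im + ε * rh k z.re * deriv wJ z.im -
          (ε * rh k z.re) ^ 2 * deriv (deriv wJ) z.im / 2)
        (ε * deriv (rh k) z.re * (we k ε z - wJ z.im + ε * rh k z.re * deriv wJ z.im))
        ((ε * deriv (rh k) z.re) ^ 2 * (we k ε z - wJ z.im)) := by
    have e4 : we k 0 z = wJ z.im := by rw [e0, we, zero_mul, add_zero]
    ext i j
    fin_cases i <;> fin_cases j <;> simp [Ae, Mt, M1, M2, e4] <;> ring
  rw [e]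
  refine (norm_Mt hμ _ _ _).trans ?_
  have a2 := abs_drh k z.re
  have he := abs_nonneg ε
  have u1 : 10 * |ε * rh k z.re| ≤ 10 * (2 * |ε|) := by gcongr
  have u2 : 10 * |ε * rh k z.re| ^ 2 ≤ 10 * (2 * |ε|) ^ 2 := by gcongr
  have u3 : 10 * |ε * rh k z.re| ^ 3 ≤ 10 * (2 * |ε|) ^ 3 := by gcongr
  have v2 : |ε * deriv (rh k) z.re * (we k ε z - wJ z.im + ε * rh k z.re * deriv wJ z.im)| ≤
      |ε| * (2 * k) * (10 * (2 * |ε|) ^ 2) := by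
    rw [abs_mul, abs_mul]
    exact mul_le_mul (by gcongr) (t2.trans u2) (abs_nonneg _) (by positivity)
  have v3 : |(ε * deriv (rh k) z.re) ^ 2 * (we k ε z - wJ z.im)| ≤
      (|ε| * (2 * k)) ^ 2 * (10 * (2 * |ε|)) := by
    rw [abs_mul, abs_pow, abs_mul]
    exact mul_le_mul (by gcongr) (t1.trans u1) (abs_nonneg _) (by positivity)
  have v1 := t3.trans u3
  have x1 : |ε| ^ 3 ≤ k ^ 2 * |ε| ^ 3 := le_mul_of_one_le_left (by positivity) (by linarith)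
  have x2 : k * |ε| ^ 3 ≤ k ^ 2 * |ε| ^ 3 := by gcongr
  unfold we at *
  nlinarith

end SEC

end Pool.Agent.Lib.ISO
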