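import Pool.Agent.Lib.ISO.B_SEC1
import Pool.Agent.Lib.ISO.B_SEC3

/-! Row SEC: the second variation of the trace at a round annulus. -/

open scoped InnerProductSpace ENNReal ContDiff ComplexConjugate Topology
open MeasureTheory Complex Set Filter

noncomputable section

namespace Pool.Agent.Lib.ISO

open Pool.Agent.Lib.MP_312682_mp

namespace SEC

def w0 (x : ℝ) : ℂ := (wJ x : ℝ)
def w1 (x : ℝ) : ℂ := (deriv wJ x : ℝ)
def w2 (x : ℝ) : ℂ := (deriv (deriv wJ) x : ℝ)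
abbrev tA (n : ℤ) (a b c : ℝ → ℂ) : L2 nuA := tv (2 * Real.pi) dl n a b c
abbrev DA (μ : ℝ) (n : ℤ) (u : ℝ → ℂ) : L2 nuA := Dm (2 * Real.pi) dl μ n u
abbrev EA (n : ℤ) (u : ℝ → ℂ) : L2 nuA := Ef (2 * Real.pi) dl n u

lemma dl_pos : 0 < dl := by rw [dl]; norm_num

lemma pE (n : ℤ) {f : ℝ → ℂ} (hf : ContDiff ℝ ∞ f) : p0 nuA (EA n f) = EA n f :=
  p0_Ef n hf.continuous

lemma pD (μ : ℝ) (n : ℤ) {u : ℝ → ℂ} (hu : ContDiff ℝ ∞ u) :
    p0 nuA (DA μ n u) = (μ : ℂ) • EA n u := p0_Dm n hu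

lemma iE (n m : ℤ) {f g : ℝ → ℂ} (hf : ContDiff ℝ ∞ f) (hg : ContDiff ℝ ∞ g) :
    ⟪EA n f, EA m g⟫_ℂ = if n = m then ipc dl f g else 0 :=
  inner_Ef Real.two_pi_pos dl_pos n m hf.continuous hg.continuous

lemma nE (n : ℤ) {f : ℝ → ℂ} (hf : ContDiff ℝ ∞ f) : ‖EA n f‖ ^ 2 = nn dl f :=
  norm_Ef Real.two_pi_pos dl_pos n hf.continuous

variable (hQV : St_QV) {k : ℕ} {μ : ℝ}
include hQV

lemma sw : ContDiff ℝ ∞ w0 ∧ ContDiff ℝ ∞ w1 ∧ ContDiff ℝ ∞ w2 :=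
  ⟨ofRealCLM.contDiff.comp (s0 hQV), ofRealCLM.contDiff.comp (s1 hQV),
    ofRealCLM.contDiff.comp (s2 hQV)⟩

lemma dq (μ : ℝ) (l : ℤ) : deriv (qv μ l) = (fun x => ((l : ℝ) ^ 2 - 1 / 4) * deriv wJ x) ∧
    deriv (deriv (qv μ l)) = fun x => ((l : ℝ) ^ 2 - 1 / 4) * deriv (deriv wJ) x := by
  have h1 : deriv (qv μ l) = fun x => ((l : ℝ) ^ 2 - 1 / 4) * deriv wJ x := funext fun x =>
    ((((s0 hQV).differentiable (by simp) x).hasDerivAt.const_mul _).const_add _).deriv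
  refine ⟨h1, funext fun x => ?_⟩
  rw [h1]
  exact (((s1 hQV).differentiable (by simp) x).hasDerivAt.const_mul _).deriv

section modes

variable (l : ℤ) {a b c : ℝ → ℂ} (ha : Continuous a) (hb : Continuous b) (hc : Continuous c)
include ha hb hc

lemma A0_tv : mm nuA (Ae k 0 μ) (tA l a b c) + tA l a b c =
    tA l (fun x => (1 - w0 x / (4 * μ ^ 2)) * a x) (fun x => w0 x * b x) c := by
  have c0 := (sw hQV).1.continuous
  ext1
  filter_upwards [Lp.coeFn_add (mm nuA (Ae k 0 μ) (tA l a b c)) (tA l a b c),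
    mm_coe (Bd_Ae k (ε := 0) μ (by norm_num)) (tA l a b c), tv_coe l ha hb hc,
    tv_coe l (a := fun x => (1 - w0 x / (4 * μ ^ 2)) * a x) (b := fun x => w0 x * b x)
      (by fun_prop) (by fun_prop) hc, ae_rect (2 * Real.pi) dl] with z e1 e2 e3 e4 hz
  have e5 : we k 0 z = wJ z.im := by
    rw [(w_facts hQV (Ioc_subset_Icc_self hz.2)).1, we, zero_mul, add_zero]
  rw [e1, Pi.add_apply, e2, e3, e4]
  refine E3_ext ?_ ?_ ?_ <;> simp [act_apply, Ae, e5, w0] <;> ring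

lemma A1_tv : mm nuA (M1 k μ) (tA l a b c) =
    tA (l + k) (fun x => w1 x / (4 * μ ^ 2) * a x)
      (fun x => -(w1 x * b x) + I * k * (w0 x * c x)) (fun x => I * k * (w0 x * b x)) +
    tA (l - k) (fun x => w1 x / (4 * μ ^ 2) * a x)
      (fun x => -(w1 x * b x) + -(I * k) * (w0 x * c x)) (fun x => -(I * k) * (w0 x * b x)) := by
  have c0 := (sw hQV).1.continuous
  have c1 := (sw hQV).2.1.continuous
  ext1
  refine Filter.EventuallyEq.trans ?_ (Lp.coeFn_add _ _).symm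
  filter_upwards [mm_coe (Bd_M hQV k μ).1 (tA l a b c), tv_coe l ha hb hc,
    tv_coe (l + k) (a := fun x => w1 x / (4 * μ ^ 2) * a x)
      (b := fun x => -(w1 x * b x) + I * k * (w0 x * c x)) (c := fun x => I * k * (w0 x * b x))
      (by fun_prop) (by fun_prop) (by fun_prop),
    tv_coe (l - k) (a := fun x => w1 x / (4 * μ ^ 2) * a x)
      (b := fun x => -(w1 x * b x) + -(I * k) * (w0 x * c x))
      (c := fun x => -(I * k) * (w0 x * b x))
      (by fun_prop) (by fun_prop) (by fun_prop)] with z e2 e3 e4 e5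
  rw [Pi.add_apply, e2, e3, e4, e5, ex_add, ex_sub]
  refine E3_ext ?_ ?_ ?_ <;> simp [act_apply, M1, Mt, rh_eq, drh_eq, w0, w1] <;> ring

lemma A2_tv : mm nuA (M2 k μ) (tA l a b c) =
    tA l (fun x => -w2 x / (4 * μ ^ 2) * a x) (fun x => w2 x * b x)
      (fun x => 2 * k ^ 2 * (w0 x * c x)) +
    (tA (l + k + k) (fun x => -w2 x / (8 * μ ^ 2) * a x)
      (fun x => w2 x / 2 * b x - I * k * w1 x * c x)
      (fun x => -(I * k * w1 x * b x) - k ^ 2 * w0 x * c x) +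
    tA (l - k - k) (fun x => -w2 x / (8 * μ ^ 2) * a x)
      (fun x => w2 x / 2 * b x + I * k * w1 x * c x)
      (fun x => I * k * w1 x * b x - k ^ 2 * w0 x * c x)) := by
  have c0 := (sw hQV).1.continuous
  have c1 := (sw hQV).2.1.continuous
  have c2 := (sw hQV).2.2.continuous
  ext1
  refine Filter.EventuallyEq.trans ?_ ((Lp.coeFn_add _ _).trans
    ((Filter.EventuallyEq.refl _ _).add (Lp.coeFn_add _ _))).symm
  filter_upwards [mm_coe (Bd_M hQV k μ).2 (tA l a b c), tv_coe l ha hb hc,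
    tv_coe l (a := fun x => -w2 x / (4 * μ ^ 2) * a x) (b := fun x => w2 x * b x)
      (c := fun x => 2 * k ^ 2 * (w0 x * c x)) (by fun_prop) (by fun_prop) (by fun_prop),
    tv_coe (l + k + k) (a := fun x => -w2 x / (8 * μ ^ 2) * a x)
      (b := fun x => w2 x / 2 * b x - I * k * w1 x * c x)
      (c := fun x => -(I * k * w1 x * b x) - k ^ 2 * w0 x * c x)
      (by fun_prop) (by fun_prop) (by fun_prop),
    tv_coe (l - k - k) (a := fun x => -w2 x / (8 * μ ^ 2) * a x)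
      (b := fun x => w2 x / 2 * b x + I * k * w1 x * c x)
      (c := fun x => I * k * w1 x * b x - k ^ 2 * w0 x * c x)
      (by fun_prop) (by fun_prop) (by fun_prop)] with z e2 e3 e4 e5 e6
  have hE := Ek_mul k z.re
  rw [Pi.add_apply, Pi.add_apply, e2, e3, e4, e5, e6, ex_add, ex_add, ex_sub, ex_sub]
  refine E3_ext ?_ ?_ ?_ <;> simp [act_apply, M2, Mt, rh_eq, drh_eq, w0, w1, w2]
  · linear_combination (-((deriv (deriv wJ) z.im : ℝ) * a z.im * ex (2 * Real.pi) l z.re /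
      (4 * μ ^ 2))) * hE
  · linear_combination ((deriv (deriv wJ) z.im : ℝ) * b z.im * ex (2 * Real.pi) l z.re) * hE
  · linear_combination ((wJ z.im : ℂ) * ex (2 * Real.pi) l z.re * c z.im * k ^ 2 *
      (Ek k z.re - Ek' k z.re) ^ 2) * I_sq +
      2 * ((wJ z.im : ℂ) * ex (2 * Real.pi) l z.re * c z.im * k ^ 2) * hE

end modes

lemma s_Uo (j l : ℤ) {u : ℝ → ℂ} (hu : ContDiff ℝ ∞ u) :
    Uo (qv μ j) (qv μ l) u = (fun x => ((j : ℂ) ^ 2 - l ^ 2) * (w0 x * deriv u x) -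
      ((l : ℂ) ^ 2 - 1 / 4) * (w1 x * u x)) ∧ ContDiff ℝ ∞ (Uo (qv μ j) (qv μ l) u) := by
  have e : Uo (qv μ j) (qv μ l) u = fun x => ((j : ℂ) ^ 2 - l ^ 2) * (w0 x * deriv u x) -
      ((l : ℂ) ^ 2 - 1 / 4) * (w1 x * u x) := by
    funext x
    rw [Uo, (dq hQV μ l).1, qv, qv, w0, w1]
    push_cast
    ring
  refine ⟨e, ?_⟩
  obtain ⟨c0, c1, -⟩ := sw hQV
  have := sm_deriv hu
  rw [e]
  fun_prop

variable (hμ : 0 < μ)
include hμ

lemma PA0 (l : ℤ) {u f : ℝ → ℂ} (hu : ContDiff ℝ ∞ u) (hf : ContDiff ℝ ∞ f)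
    (h : ∀ x ∈ Icc 0 dl, deriv (deriv u) x = qv μ l x * u x - f x) :
    PA μ (mm nuA (Ae k 0 μ) (DA μ l u) + DA μ l u) = (μ : ℂ)⁻¹ • PA μ (EA l f) := by
  have hμ' : (μ : ℂ) ≠ 0 := by exact_mod_cast hμ.ne'
  obtain ⟨c0, c1, -⟩ := sw hQV
  have du := sm_deriv hu
  have cu := hu.continuous
  rw [DA, Dm, A0_tv hQV l (by fun_prop) (by fun_prop) du.continuous]
  refine P_red Real.two_pi_pos dl_pos hμ l (by fun_prop) (by fun_prop) du hf fun x hx => ?_
  rw [h x hx, qv, xi_two_pi, w0]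
  push_cast
  field_simp
  linear_combination (4 * (l : ℂ) ^ 2 * wJ x * u x) * I_sq

lemma PA1 (l : ℤ) {u : ℝ → ℂ} (hu : ContDiff ℝ ∞ u) :
    PA μ (mm nuA (M1 k μ) (DA μ l u)) =
      (μ : ℂ)⁻¹ • PA μ (EA (l + k) (Uo (qv μ (l + k)) (qv μ l) u)) +
      (μ : ℂ)⁻¹ • PA μ (EA (l - k) (Uo (qv μ (l - k)) (qv μ l) u)) := by
  have hμ' : (μ : ℂ) ≠ 0 := by exact_mod_cast hμ.ne'
  obtain ⟨c0, c1, -⟩ := sw hQV
  have du := sm_deriv hu
  have cu := hu.continuous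
  have d0 : ∀ x, HasDerivAt w0 (w1 x) x := fun x =>
    ((s0 hQV).differentiable (by simp) x).hasDerivAt.ofReal_comp
  have key : ∀ (j : ℤ) (s : ℂ), s = I * (j - l) → PA μ (tA j (fun x => w1 x / (4 * μ ^ 2) * (μ * u x))
      (fun x => -(w1 x * (I * xi (2 * Real.pi) l * u x)) + s * (w0 x * deriv u x))
      (fun x => s * (w0 x * (I * xi (2 * Real.pi) l * u x)))) =
      (μ : ℂ)⁻¹ • PA μ (EA j (Uo (qv μ j) (qv μ l) u)) := fun j s hs => by
    refine P_red Real.two_pi_pos dl_pos hμ j (by fun_prop) (by fun_prop) (by fun_prop)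
      (s_Uo hQV j l hu).2 fun x _ => ?_
    have := (((d0 x).mul ((hd hu x).const_mul (I * xi (2 * Real.pi) l))).const_mul s).deriv
    rw [(s_Uo hQV j l hu).1]
    refine Eq.trans ?_ (congrArg (_ - ·) this.symm)
    rw [xi_two_pi, xi_two_pi, hs]
    push_cast
    field_simp
    linear_combination (4 * ((j : ℂ) ^ 2 - l ^ 2) * w0 x * deriv u x -
      4 * (l : ℂ) ^ 2 * w1 x * u x) * I_sq
  rw [DA, Dm, A1_tv hQV l (by fun_prop) (by fun_prop) du.continuous, map_add,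
    key _ _ (by push_cast; ring), key _ _ (by push_cast; ring)]

lemma A2_inner (hk : 1 ≤ k) (l : ℤ) {U u : ℝ → ℂ} (hU : ContDiff ℝ ∞ U) (hu : ContDiff ℝ ∞ u) :
    ⟪DA μ l U, mm nuA (M2 k μ) (DA μ l u)⟫_ℂ =
      ipc dl U (fun x => (deriv (deriv (qv μ l)) x : ℝ) * u x) +
      2 * k ^ 2 * ipc dl (deriv U) fun x => (wJ x : ℝ) * deriv u x := by
  have hμ' : (μ : ℂ) ≠ 0 := by exact_mod_cast hμ.ne'
  have c0 := (sw hQV).1.continuous
  have c1 := (sw hQV).2.1.continuous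
  have c2 := (sw hQV).2.2.continuous
  have du := (sm_deriv hu).continuous
  have cu := hu.continuous
  have dU := (sm_deriv hU).continuous
  have cU := hU.continuous
  have e1 : ipc dl U (fun x => (deriv (deriv (qv μ l)) x : ℝ) * u x) =
      ∫ x in (0 : ℝ)..dl, conj (U x) * (((l : ℂ) ^ 2 - 1 / 4) * w2 x * u x) := by
    simp [ipc, (dq hQV μ l).2, w2]
  have e2 : (ipc dl (deriv U) fun x => (wJ x : ℝ) * deriv u x) =
      ∫ x in (0 : ℝ)..dl, conj (deriv U x) * (w0 x * deriv u x) := rfl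
  rw [DA, DA, Dm, Dm, A2_tv hQV l (by fun_prop) (by fun_prop) du, inner_add_right, inner_add_right,
    inner_tv Real.two_pi_pos dl_pos l l (by fun_prop) (by fun_prop) dU (by fun_prop) (by fun_prop)
      (by fun_prop),
    inner_tv Real.two_pi_pos dl_pos l _ (by fun_prop) (by fun_prop) dU (by fun_prop) (by fun_prop)
      (by fun_prop),
    inner_tv Real.two_pi_pos dl_pos l _ (by fun_prop) (by fun_prop) dU (by fun_prop) (by fun_prop)
      (by fun_prop), if_pos rfl, if_neg (by omega), if_neg (by omega), add_zero, add_zero, e1, e2,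
    ← intervalIntegral.integral_const_mul, ← intervalIntegral.integral_add
      (Continuous.intervalIntegrable (by fun_prop) _ _)
      (Continuous.intervalIntegrable (by fun_prop) _ _)]
  refine intervalIntegral.integral_congr fun x _ => ?_
  simp only [xi_two_pi, map_mul, conj_ofReal, conj_I]
  push_cast
  field_simp
  linear_combination (-(4 * (l : ℂ) ^ 2 * conj (U x) * w2 x * u x)) * I_sq

omit hQV hμ in
lemma ED (n m : ℤ) {f v : ℝ → ℂ} (hf : ContDiff ℝ ∞ f) (hv : ContDiff ℝ ∞ v) (h0 : v 0 = 0)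
    (h1 : v dl = 0) : ⟪PA μ (EA n f), DA μ m v⟫_ℂ = μ * if n = m then ipc dl f v else 0 := by
  have hP : Proj (PA μ) := proj_PC _
  rw [← inner_sa hP.sa, show PA μ (DA μ m v) = DA μ m v from P_Dm Real.two_pi_pos dl_pos m hv h0 h1,
    ← pE n hf, ← inner_sa proj_p0.sa, pD μ m hv, inner_smul_right, iE n m hf hv]

lemma term (hk : 1 ≤ k) {g : ℤ → GD} (hg : GrF μ g) {Z0 W : L2 nuA →L[ℂ] L2 nuA}
    (z0 : Z0 * (1 + PA μ * mm nuA (Ae k 0 μ) * PA μ) = 1) (hW : W = PA μ * Z0 * PA μ) (i : ℤ × ℤ) :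
    ‖(p0 nuA * PA μ * (-(W * mm nuA (M1 k μ) * W)) * PA μ * p0 nuA) (fr (2 * Real.pi) dl i)‖ ^ 2 +
      2 * (⟪(p0 nuA * PA μ * W * PA μ * p0 nuA) (fr (2 * Real.pi) dl i),
        (p0 nuA * PA μ * (W * (mm nuA (M1 k μ) * W * mm nuA (M1 k μ) - mm nuA (M2 k μ)) * W) *
          PA μ * p0 nuA) (fr (2 * Real.pi) dl i)⟫_ℂ).re = μ ^ 4 * f2 k μ g i := by
  obtain ⟨l, n⟩ := i
  have hμ' : (μ : ℂ) ≠ 0 := by exact_mod_cast hμ.ne'
  have hP : Proj (PA μ) := proj_PC _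
  have PP : ∀ y, PA μ (PA μ y) = PA μ y := fun y => by
    rw [← mul_apply_eq_comp, hP.idem]
  have PW : ∀ y, PA μ (W y) = W y := fun y => by simp only [hW, mul_apply_eq_comp, PP]
  have WP : ∀ y, W (PA μ y) = W y := fun y => by simp only [hW, mul_apply_eq_comp, PP]
  have sA0 : star (mm nuA (Ae k 0 μ)) = mm nuA (Ae k 0 μ) := by
    rw [mm_star (Bd_Ae k μ (by norm_num))]
    refine mm_eq_of fun z => ?_
    rw [Ae_eq, star_sub, star_Mt]
    refine congrArg _ ?_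
    ext i j
    fin_cases i <;> fin_cases j <;> simp [dg3]
  have sA1 : star (mm nuA (M1 k μ)) = mm nuA (M1 k μ) := by
    rw [mm_star (Bd_M hQV k μ).1]
    exact mm_eq_of fun z => star_Mt _ _ _ _
  have sW : star W = W := by rw [hW]; exact star_W hP sA0 z0
  have PD : ∀ j f, ContDiff ℝ ∞ f → PA μ (DA μ j ((g j).G f)) = DA μ j ((g j).G f) :=
    fun j f hf => P_Dm Real.two_pi_pos dl_pos j ((hg j).sm f hf) ((hg j).z0 f hf) ((hg j).z1 f hf)
  have WE : ∀ j f, ContDiff ℝ ∞ f → W (EA j f) = (μ : ℂ) • DA μ j ((g j).G f) := fun j f hf => by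
    rw [hW]
    refine W_apply z0 (by rw [map_smul, PD j f hf]) ?_
    rw [map_smul, ← smul_add, map_smul, PA0 hQV hμ j ((hg j).sm f hf) hf ((hg j).eq f hf),
      smul_smul, mul_inv_cancel₀ hμ', one_smul]
  have sφ := contDiff_ex dl n
  have su := (hg l).sm _ sφ
  have suu := (hg l).sm _ su
  set u := (g l).G (ex dl n) with hu
  set uu := (g l).G u with huu
  have t1 := (s_Uo hQV (μ := μ) (l + k) l su).2
  have t2 := (s_Uo hQV (μ := μ) (l - k) l su).2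
  have t3 := (s_Uo hQV (μ := μ) (l + k) l suu).2
  have t4 := (s_Uo hQV (μ := μ) (l - k) l suu).2
  have s1 := (hg (l + k)).sm _ t1
  have s2 := (hg (l - k)).sm _ t2
  have WA : W (mm nuA (M1 k μ) (DA μ l u)) =
      DA μ (l + k) ((g (l + k)).G (Uo (qv μ (l + k)) (qv μ l) u)) +
      DA μ (l - k) ((g (l - k)).G (Uo (qv μ (l - k)) (qv μ l) u)) := by
    rw [← WP, PA1 hQV hμ l su, map_add, map_smul, map_smul, WP, WP, WE _ _ t1, WE _ _ t2,
      smul_smul, smul_smul, inv_mul_cancel₀ hμ', one_smul, one_smul]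
  have i1 := ED (μ := μ) (l + k) (l + k) t3 s1 ((hg _).z0 _ t1) ((hg _).z1 _ t1)
  have i2 := ED (μ := μ) (l - k) (l + k) t4 s1 ((hg _).z0 _ t1) ((hg _).z1 _ t1)
  have i3 := ED (μ := μ) (l + k) (l - k) t3 s2 ((hg _).z0 _ t2) ((hg _).z1 _ t2)
  have i4 := ED (μ := μ) (l - k) (l - k) t4 s2 ((hg _).z0 _ t2) ((hg _).z1 _ t2)
  have p1 := PD (l + k) _ t1
  have p2 := PD (l - k) _ t2
  have n1 : ∀ j, nn dl (So (qv μ j) (qv μ l) (g j) (g l) (ex dl n)) =
      nn dl ((g j).G (Uo (qv μ j) (qv μ l) u)) := fun j => by simp only [nn, So, norm_neg, hu]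
  have n2 : ∀ j f, ipc dl f (So (qv μ j) (qv μ l) (g j) (g l) (ex dl n)) =
      -ipc dl f ((g j).G (Uo (qv μ j) (qv μ l) u)) := fun j f => by
    simp only [ipc, So, mul_neg, intervalIntegral.integral_neg, hu]
  simp only [f2, e2, n1, n2, ← hu, ← huu]
  set v1 := (g (l + k)).G (Uo (qv μ (l + k)) (qv μ l) u)
  set v2 := (g (l - k)).G (Uo (qv μ (l - k)) (qv μ l) u)
  rw [if_pos rfl] at i1 i4
  rw [if_neg (by omega)] at i2 i3
  have hv : W (PA μ (p0 nuA (fr (2 * Real.pi) dl (l, n)))) = (μ : ℂ) • DA μ l u := by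
    rw [WP, show fr (2 * Real.pi) dl (l, n) = EA l (ex dl n) from rfl, pE l sφ, WE l _ sφ]
  have a1 : ‖EA (l + k) v1 + EA (l - k) v2‖ ^ 2 = nn dl v1 + nn dl v2 := by
    rw [@norm_add_sq ℂ, iE _ _ s1 s2, if_neg (by omega), nE _ s1, nE _ s2]
    simp
  have a2 : ⟪DA μ l uu, mm nuA (M1 k μ) (DA μ (l + k) v1 + DA μ (l - k) v2)⟫_ℂ =
      ipc dl (Uo (qv μ (l + k)) (qv μ l) uu) v1 + ipc dl (Uo (qv μ (l - k)) (qv μ l) uu) v2 := by
    rw [inner_sa sA1, ← p1, ← p2, ← map_add, inner_sa hP.sa, PA1 hQV hμ l suu]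
    simp only [inner_add_left, inner_add_right, inner_smul_left, i1, i2, i3, i4, map_inv₀,
      conj_ofReal]
    field_simp
    ring
  simp only [mul_apply_eq_comp, neg_apply, sub_apply, hv, map_smul, map_neg, WA, PW]
  rw [inner_smul_left, inner_smul_right, inner_sa proj_p0.sa, inner_sa sW, PD l _ sφ, pD μ l su,
    map_smul, pE l su, map_smul, WE l u su, inner_smul_left, inner_smul_left, inner_sub_right,
    a2, A2_inner hQV hμ hk l suu su, map_add, p1, p2, map_add,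
    pD μ _ s1, pD μ _ s2, ← smul_add, norm_neg, norm_smul, norm_smul, mul_pow, mul_pow, a1]
  have e : ∀ a b c : ℂ, (conj (μ : ℂ) * (μ * (conj (μ : ℂ) * (conj (μ : ℂ) *
      (a - (b + 2 * k ^ 2 * c)))))).re = μ ^ 4 * (a.re - b.re - 2 * k ^ 2 * c.re) := by
    intro a b c
    have : conj (μ : ℂ) * (μ * (conj (μ : ℂ) * (conj (μ : ℂ) * (a - (b + 2 * k ^ 2 * c))))) =
        ((μ ^ 4 : ℝ) : ℂ) * (a - b - ((2 * k ^ 2 : ℝ) : ℂ) * c) := by
      rw [conj_ofReal]; push_cast; ring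
    rw [this, re_ofReal_mul, sub_re, sub_re, re_ofReal_mul]
  rw [e, norm_real, Real.norm_of_nonneg hμ.le, add_re, neg_re, neg_re]
  ring

end SEC

open SEC in
theorem st_sec (hQV : St_QV) (hCHT : St_CHT) : St_SEC := by
  intro k hk
  have hk' : (1 : ℝ) ≤ k := by exact_mod_cast hk
  obtain ⟨ε1, hε1, hC⟩ := hCHT k hk
  obtain ⟨C, hC1, hG⟩ := HL_flat Real.two_pi_pos
  refine ⟨1000000 * (400 * k ^ 2) ^ 6 * C ^ 2, min ε1 (1 / 10), by positivity,
    fun μ g hμ hg => ?_⟩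
  have hμ0 : 0 < μ := by linarith
  obtain ⟨-, Z0, n0, -, z0, e0⟩ := hC 0 μ (by simpa using hε1.le) hμ
  obtain ⟨F, hF, hb⟩ := abs_sec (p := p0 nuA) (P := PA μ) proj_p0
    (pars_fr Real.two_pi_pos dl_pos) (proj_PC _) (hG dl μ dl_pos hμ) (m := 400 * k ^ 2) (by nlinarith)
    (norm_M hQV hk hμ).1 (norm_M hQV hk hμ).2 n0 z0 rfl
  have hF' : HasSum (fun i => μ ^ 4 * f2 k μ g i) F := by
    rw [← funext (term hQV hμ0 hk hg z0 rfl)]
    exact hF
  refine ⟨F / μ ^ 4, ?_, fun ε hε => ?_⟩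
  · refine (hF'.div_const (μ ^ 4)).congr_fun fun i => ?_
    field_simp
  obtain ⟨h1, h2⟩ := le_min_iff.1 hε
  obtain ⟨a1, Z, n1, z1, -, e1⟩ := hC ε μ h1 hμ
  obtain ⟨a2, Z', n2, z2, -, e2⟩ := hC (-ε) μ (by rwa [abs_neg]) hμ
  have := hb ε _ _ Z Z' (by linarith) (norm_R hQV hk hμ h2)
    (norm_R hQV hk hμ (by rwa [abs_neg])) n1 n2 z1 z2
  rw [← e0, ← e1, ← e2] at this
  refine le_trans (le_of_eq (congrArg _ ?_)) (this.trans ?_)
  · rw [Ft, Ft, Ft, a1, a2]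
    field_simp
    ring
  · have b : (C * dl * (μ * √μ)) ^ 2 ≤ C ^ 2 * μ ^ 4 := by
      rw [mul_pow, mul_pow, mul_pow, Real.sq_sqrt hμ0.le, mul_assoc]
      refine mul_le_mul_of_nonneg_left ?_ (by positivity)
      have : μ ^ 2 * μ ≤ μ ^ 4 := by rw [← pow_succ]; exact pow_le_pow_right₀ hμ (by norm_num)
      have : 0 ≤ μ ^ 2 * μ := by positivity
      rw [dl]
      nlinarith
    calc _ ≤ 1000000 * (400 * (k : ℝ) ^ 2) ^ 6 * |ε| ^ 3 * (C ^ 2 * μ ^ 4) := by gcongr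
      _ = _ := by ring

end Pool.Agent.Lib.ISO
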