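import Pool.Agent.Lib.ISO.BlueV

/-! Summation of the pair identity over the angular modes. -/

open scoped ContDiff ComplexConjugate Topology
open MeasureTheory Set Filter

noncomputable section

namespace Pool.Agent.Lib.ISO

open Pool.Agent.Lib.MP_312682_mp

namespace SUM

/-- symmetric sums tend to zero -/
def Tz (f : ℤ → ℝ) : Prop :=
  Tendsto (fun N : ℕ => ∑ n ∈ Finset.range N, (f n + f (-(n + 1)))) atTop (𝓝 0)

lemma Tz.add {f g : ℤ → ℝ} (hf : Tz f) (hg : Tz g) : Tz fun l => f l + g l := by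
  have h := Tendsto.add hf hg
  rw [add_zero] at h
  refine h.congr fun N => ?_
  rw [← Finset.sum_add_distrib]
  exact Finset.sum_congr rfl fun n _ => by ring

lemma Tz.neg {f : ℤ → ℝ} (hf : Tz f) : Tz fun l => -f l := by
  have h := Tendsto.neg hf
  rw [neg_zero] at h
  refine h.congr fun N => ?_
  rw [← Finset.sum_neg_distrib]
  exact Finset.sum_congr rfl fun n _ => by ring

lemma Tz.eq {f : ℤ → ℝ} {s : ℝ} (hf : Tz f) (h : HasSum f s) : s = 0 :=
  tendsto_nhds_unique h.nat_add_neg_add_one.tendsto_sum_nat hf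

lemma tz_one {c : ℤ → ℝ} (hc : Tendsto c cofinite (𝓝 0)) : Tz fun l => c (l + 1) - c l := by
  have h1 : Tendsto (fun N : ℕ => c N) atTop (𝓝 0) := by
    rw [← Nat.cofinite_eq_atTop]
    exact hc.comp (Nat.cast_injective (R := ℤ)).tendsto_cofinite
  have h2 : Tendsto (fun N : ℕ => c (-N)) atTop (𝓝 0) := by
    rw [← Nat.cofinite_eq_atTop]
    exact hc.comp (neg_injective.comp (Nat.cast_injective (R := ℤ))).tendsto_cofinite
  have h3 := h1.sub h2
  rw [sub_zero] at h3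
  refine h3.congr fun N => ?_
  induction N with
  | zero => simp
  | succ N ih =>
    rw [Finset.sum_range_succ, ← ih]
    push_cast
    rw [show -((N : ℤ) + 1) + 1 = -N by ring]
    ring

lemma tz_shift {c : ℤ → ℝ} (hc : Tendsto c cofinite (𝓝 0)) (m : ℤ) : Tz fun l => c (l + m) - c l := by
  have h1 : ∀ m : ℤ, Tz fun l => c (l + 1 + m) - c (l + m) := fun m =>
    tz_one (c := fun l => c (l + m)) (hc.comp (add_left_injective m).tendsto_cofinite)
  induction m using Int.induction_on with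
  | zero => simp [Tz]
  | succ m ih =>
    have h2 := (h1 m).add ih
    have h3 : (fun l : ℤ => c (l + 1 + m) - c (l + m) + (c (l + m) - c l)) =
        fun l => c (l + (m + 1)) - c l := by
      funext l
      rw [show l + 1 + m = l + (m + 1) by ring]
      ring
    rwa [h3] at h2
  | pred m ih =>
    have h2 := (h1 (-m - 1)).neg.add ih
    have h3 : (fun l : ℤ => -(c (l + 1 + (-m - 1)) - c (l + (-m - 1))) + (c (l + -m) - c l)) =
        fun l => c (l + (-m - 1)) - c l := by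
      funext l
      rw [show l + 1 + (-m - 1) = l + -m by ring]
      ring
    rwa [h3] at h2

lemma hs_congr {ι : Type} {f g : ι → ℝ} {s : ℝ} (h : HasSum f s) (e : ∀ x, g x = f x) : HasSum g s :=
  (funext e : g = f) ▸ h

/-- size of the mode -/
def sz (μ : ℝ) (l : ℤ) : ℝ := √(μ ^ 2 + l ^ 2)

variable {μ : ℝ}

lemma sz_sq (μ : ℝ) (l : ℤ) : sz μ l ^ 2 = μ ^ 2 + l ^ 2 := Real.sq_sqrt (by positivity)

lemma one_le_sz (hμ : 1 ≤ μ) (l : ℤ) : 1 ≤ sz μ l := Real.one_le_sqrt.2 (by nlinarith [sq_nonneg (l : ℝ)])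

lemma abs_le_sz (μ : ℝ) (l : ℤ) : |(l : ℝ)| ≤ sz μ l := Real.abs_le_sqrt (by nlinarith [sq_nonneg μ])

lemma sz_le (hμ : 1 ≤ μ) (l m : ℤ) : sz μ (l + m) ≤ (1 + |(m : ℝ)|) * sz μ l := by
  have h1 := one_le_sz hμ l
  have h2 := abs_le_sz μ l
  have h3 := sz_sq μ l
  have h4 := abs_nonneg (m : ℝ)
  refine le_trans (Real.sqrt_le_left (by positivity) |>.2 ?_ : sz μ (l + m) ≤ sz μ l + |(m : ℝ)|) (by nlinarith)
  push_cast
  have h5 : (l : ℝ) * m ≤ sz μ l * |(m : ℝ)| :=
    (le_abs_self _).trans (by rw [abs_mul]; exact mul_le_mul_of_nonneg_right h2 h4)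
  nlinarith [sq_abs (m : ℝ)]

lemma summ (hμ : 1 ≤ μ) (K : ℝ) : Summable fun l : ℤ => K / sz μ l ^ 2 := by
  have h1 : Summable fun l : ℤ => 1 / sz μ l ^ 2 := by
    refine Summable.of_norm_bounded_eventually (Real.summable_one_div_int_pow.2 one_lt_two) ?_
    filter_upwards [(finite_singleton (0 : ℤ)).compl_mem_cofinite] with l hl
    have h2 : (l : ℝ) ≠ 0 := by exact_mod_cast hl
    rw [Real.norm_of_nonneg (by positivity), sz_sq]
    exact one_div_le_one_div_of_le (by positivity) (by nlinarith [sq_nonneg μ])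
  simpa only [mul_one_div] using h1.mul_left K

lemma tends (hμ : 1 ≤ μ) {b : ℤ → ℝ} {C : ℝ} (hb : ∀ l, |b l| ≤ C / sz μ l) : Tendsto b cofinite (𝓝 0) := by
  have h1 := (Real.continuous_sqrt.tendsto 0).comp (summ hμ (C ^ 2)).tendsto_cofinite_zero
  rw [Real.sqrt_zero] at h1
  refine squeeze_zero_norm (fun l => Real.le_sqrt_of_sq_le ?_) h1
  rw [← div_pow]
  exact pow_le_pow_left₀ (norm_nonneg _) (hb l) 2

lemma prod_le {x y C a b p q : ℝ} (hx : |x| ≤ C * p) (hy : |y| ≤ C * q) (hC : 0 ≤ C) (h : p * q ≤ a / b) :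
    |x * y| ≤ C ^ 2 * a / b := by
  rw [abs_mul, mul_div_assoc]
  calc |x| * |y| ≤ C * p * (C * q) := mul_le_mul hx hy (abs_nonneg _) ((abs_nonneg _).trans hx)
    _ = C ^ 2 * (p * q) := by ring
    _ ≤ _ := mul_le_mul_of_nonneg_left h (by positivity)

lemma es_le {C c δ a b κ : ℝ} {g g' : GD} (hc : 0 < c) (ha : 1 ≤ a) (hb : 1 ≤ b) (hκ : 1 ≤ κ) (h1 : a ≤ κ * b)
    (h2 : b ≤ κ * a) (hg : Sz C c δ a g) (hg' : Sz C c δ b g') :
    |Es δ g g'| ≤ 12 * (C ^ 2 * (κ + κ / c ^ 2)) / b ^ 2 := by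
  have ha0 : 0 < a := by linarith
  have hb0 : 0 < b := by linarith
  have hC : 0 ≤ C := by
    by_contra hn
    linarith [(abs_nonneg _).trans hg.n0, mul_neg_of_neg_of_pos (not_le.1 hn) ha0]
  have hk : 0 ≤ κ / c ^ 2 := by positivity
  have he : ∀ x : ℝ, 0 < x → Real.exp (-(c * x)) ≤ (c * x)⁻¹ := fun x hx => by
    rw [Real.exp_neg]
    exact inv_anti₀ (by positivity) (by linarith [Real.add_one_le_exp (c * x)])
  have e1 : a⁻¹ * b⁻¹ ≤ κ / b ^ 2 := by
    rw [← mul_inv, inv_eq_one_div, div_le_div_iff₀ (by positivity) (by positivity)]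
    nlinarith
  have e2 : a * (b ^ 3)⁻¹ ≤ κ / b ^ 2 := by
    rw [← div_eq_mul_inv, div_le_div_iff₀ (by positivity) (by positivity)]
    nlinarith [pow_pos hb0 2]
  have up : ∀ x : ℝ, x ≤ κ / b ^ 2 → x ≤ (κ + κ / c ^ 2) / b ^ 2 := fun x hx =>
    hx.trans (div_le_div_of_nonneg_right (by linarith) (by positivity))
  have e3 : Real.exp (-(c * a)) * Real.exp (-(c * b)) ≤ (κ + κ / c ^ 2) / b ^ 2 := by
    refine (mul_le_mul (he a ha0) (he b hb0) (Real.exp_pos _).le (by positivity)).trans ?_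
    calc (c * a)⁻¹ * (c * b)⁻¹ = (c ^ 2)⁻¹ * (a⁻¹ * b⁻¹) := by field_simp
      _ ≤ (c ^ 2)⁻¹ * (κ / b ^ 2) := by gcongr
      _ = κ / c ^ 2 / b ^ 2 := by field_simp
      _ ≤ _ := div_le_div_of_nonneg_right (by linarith) (by positivity)
  have e4 : Real.exp (-(c * a)) * (b ^ 3)⁻¹ ≤ κ / b ^ 2 := by
    refine le_trans (mul_le_mul_of_nonneg_right ?_ (by positivity)) e2
    exact (Real.exp_le_one_iff.2 (by nlinarith)).trans ha
  have t1 := abs_le.1 (prod_le hg.m0 hg'.m0 hC (up _ e1))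
  have t2 := abs_le.1 (prod_le hg.m1 hg'.m1 hC (up _ e1))
  have t3 := abs_le.1 (prod_le hg.mx hg'.mx hC e3)
  have t4 := abs_le.1 (prod_le hg.n0 hg'.g0 hC (up _ e2))
  have t5 := abs_le.1 (prod_le hg.n1 hg'.g1 hC (up _ e2))
  have t6 := abs_le.1 (prod_le hg.nx hg'.gx hC (up _ e4))
  rw [mul_div_assoc, Es]
  exact abs_le.2 ⟨by linarith [t1.1, t2.1, t3.2, t4.2, t5.2, t6.1], by linarith [t1.2, t2.2, t3.1, t4.1, t5.1, t6.2]⟩

lemma int_le {u v : ℝ → ℝ} {δ C a b κ : ℝ} (hδ : 0 ≤ δ) (hu : Continuous u) (hv : Continuous v) (ha : 0 < a)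
    (hC : 0 ≤ C) (h2 : b ≤ κ * a) (h3 : ∫ x in (0 : ℝ)..δ, u x ^ 2 ≤ C / a ^ 5)
    (h4 : ∫ x in (0 : ℝ)..δ, v x ^ 2 ≤ C * b) : |∫ x in (0 : ℝ)..δ, u x * v x| ≤ C * (1 + κ) / a ^ 2 := by
  have h5 : |∫ x in (0 : ℝ)..δ, u x * v x| ≤ ∫ x in (0 : ℝ)..δ, (a ^ 3 * u x ^ 2 + (a ^ 3)⁻¹ * v x ^ 2) := by
    refine (intervalIntegral.abs_integral_le_integral_abs hδ).trans (intervalIntegral.integral_mono_on hδ
      ((hu.mul hv).abs.intervalIntegrable _ _) (Continuous.intervalIntegrable (by fun_prop) _ _) fun x _ => ?_)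
    have h6 : 0 < a ^ 3 := by positivity
    have h7 : a ^ 3 * u x ^ 2 + (a ^ 3)⁻¹ * v x ^ 2 - 2 * (|u x| * |v x|) =
        (a ^ 3)⁻¹ * (a ^ 3 * |u x| - |v x|) ^ 2 := by
      rw [← sq_abs (u x), ← sq_abs (v x)]
      field_simp
      ring
    have h8 : 0 ≤ (a ^ 3)⁻¹ * (a ^ 3 * |u x| - |v x|) ^ 2 := by positivity
    rw [abs_mul]
    nlinarith [mul_nonneg (abs_nonneg (u x)) (abs_nonneg (v x))]
  rw [intervalIntegral.integral_add (Continuous.intervalIntegrable (by fun_prop) _ _)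
    (Continuous.intervalIntegrable (by fun_prop) _ _), intervalIntegral.integral_const_mul,
    intervalIntegral.integral_const_mul] at h5
  calc _ ≤ a ^ 3 * (C / a ^ 5) + (a ^ 3)⁻¹ * (C * (κ * a)) :=
        h5.trans (add_le_add (by gcongr) (mul_le_mul_of_nonneg_left (h4.trans (by gcongr)) (by positivity)))
    _ = _ := by field_simp

lemma xx_le {C c δ a b κ : ℝ} {q q' : ℝ → ℝ} {g g' : GD} (hδ : 0 ≤ δ) (ha : 1 ≤ a) (h2 : b ≤ κ * a)
    (hq : Gr q δ g) (hq' : Gr q' δ g') (hg : Sz C c δ a g) (hg' : Sz C c δ b g') :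
    |xx δ g g'| ≤ 4 * (C * (1 + κ)) / a ^ 2 := by
  have ha0 : 0 < a := by linarith
  have hC : 0 ≤ C := by
    by_contra hn
    linarith [(abs_nonneg _).trans hg.n0, mul_neg_of_neg_of_pos (not_le.1 hn) ha0]
  have hu : ∀ h : ℝ → ℝ, ContDiff ℝ ∞ h → Continuous fun x => (g.G (fun y => h y) x).re := fun h hh =>
    Complex.continuous_re.comp (hq.sm _ (Complex.ofRealCLM.contDiff.comp hh)).continuous
  have t1 := abs_le.1 (int_le hδ (hu _ hq.s0) (hq'.s0.continuous_deriv (by simp)) ha0 hC h2 hg.w0 hg'.d0)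
  have t2 := abs_le.1 (int_le hδ (hu _ hq.s1) (hq'.s1.continuous_deriv (by simp)) ha0 hC h2 hg.w1 hg'.d1)
  rw [mul_div_assoc, xx]
  simp only [GD.u0, GD.u1]
  exact abs_le.2 ⟨by linarith [t1.1, t2.2], by linarith [t1.2, t2.1]⟩

lemma ex_smooth (L : ℝ) (n : ℤ) : ContDiff ℝ ∞ (ex L n) := by
  unfold ex
  exact contDiff_const.mul (contDiff_const.mul Complex.ofRealCLM.contDiff).cexp

lemma ipc_two {δ c : ℝ} {F A B X Y : ℝ → ℂ} (hF : Continuous F) (hA : Continuous A) (hB : Continuous B)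
    (hX : Continuous X) (hY : Continuous Y) (h : ∀ x, A x + B x = c * X x - 2 * Y x) :
    (ipc δ F A).re + (ipc δ F B).re = c * (ipc δ F X).re - 2 * (ipc δ F Y).re := by
  have hi : ∀ Z : ℝ → ℂ, Continuous Z → IntervalIntegrable (fun x => conj (F x) * Z x) volume 0 δ :=
    fun Z hZ => ((Complex.continuous_conj.comp hF).mul hZ).intervalIntegrable _ _
  have h1 : ipc δ F A + ipc δ F B = c * ipc δ F X - 2 * ipc δ F Y := by
    simp only [ipc]
    rw [← intervalIntegral.integral_add (hi A hA) (hi B hB), ← intervalIntegral.integral_const_mul,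
      ← intervalIntegral.integral_const_mul,
      ← intervalIntegral.integral_sub ((hi X hX).const_mul _) ((hi Y hY).const_mul _)]
    refine intervalIntegral.integral_congr fun x _ => ?_
    show conj (F x) * A x + conj (F x) * B x = c * (conj (F x) * X x) - 2 * (conj (F x) * Y x)
    rw [← mul_add, h x]
    ring
  have h2 := congrArg Complex.re h1
  rw [Complex.add_re, Complex.sub_re, Complex.re_ofReal_mul] at h2
  rw [h2]
  simp

end SUM

open SUM in
theorem st_sum (hQV : St_QV) (hPAIR : St_PAIR) (hBND : St_BND) : St_SUM := by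
  intro k k' μ F F' g hμ hg hF hF'
  have hdl : 0 < dl := by norm_num [dl]
  obtain ⟨C, c, hc, hB⟩ := hBND dl hdl
  have hq : ∀ l, ContDiff ℝ ∞ (qv μ l) := fun l => (hQV.2.2 μ l hμ).1
  have hS : ∀ l, Sz C c dl (sz μ l) (g l) := fun l =>
    hB _ _ _ (one_le_sz hμ l) (hq l) (hQV.2.2 μ l hμ).2 (hg l)
  have hp : ∀ l, ∀ x ∈ Icc 0 dl, 0 < qv μ l x := fun l x hx =>
    lt_of_lt_of_le (by have := one_le_sz hμ l; simp only [sz] at this; positivity) ((hQV.2.2 μ l hμ).2 x hx).1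
  set P : ℤ → ℤ → ℤ → ℝ := fun j l i => e2 dl (qv μ j) (qv μ l) (g j) (g l) (ex dl i) -
    2 * (ipc dl (deriv ((g l).G ((g l).G (ex dl i)))) (Uo (qv μ j) (qv μ l) ((g l).G (ex dl i)))).re with hP
  set T : ℤ → ℤ → ℝ := fun j l => Es dl (g j) (g l) + ((g j).bb dl - (g l).bb dl) +
    (xx dl (g j) (g l) - xx dl (g l) (g j)) with hT
  have hPT : ∀ j l, HasSum (P j l) (T j l) := fun j l =>
    hPAIR dl _ _ _ _ hdl (hq j) (hq l) (hp j) (hp l) (hg j) (hg l)
  obtain ⟨R, hR⟩ : ∃ R : ℤ × ℤ → ℝ, ∀ (m : ℕ) (l i : ℤ),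
      f2 m μ g (l, i) = P (l + m) l i + P (l - m) l i + R (l, i) := by
    refine ⟨fun z => -4 * (ipc dl (deriv ((g z.1).G ((g z.1).G (ex dl z.2))))
      fun x => (deriv (qv μ z.1) x : ℝ) * (g z.1).G (ex dl z.2) x).re - 2 * (ipc dl ((g z.1).G ((g z.1).G (ex dl z.2)))
        fun x => (deriv (deriv (qv μ z.1)) x : ℝ) * (g z.1).G (ex dl z.2) x).re, fun m l i => ?_⟩
    have hu := (hg l).sm _ (ex_smooth dl i)
    have hu' := hu.continuous_deriv (by simp)
    have hc1 : Continuous fun x => ((deriv (qv μ l) x : ℝ) : ℂ) * (g l).G (ex dl i) x :=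
      (Complex.continuous_ofReal.comp ((hq l).continuous_deriv (by simp))).mul hu.continuous
    have hU : ∀ j, Continuous (Uo (qv μ j) (qv μ l) ((g l).G (ex dl i))) := fun j =>
      ((Complex.continuous_ofReal.comp ((hq j).continuous.sub (hq l).continuous)).mul hu').sub hc1
    have h1 := ipc_two (δ := dl) (c := 2 * (m : ℝ) ^ 2) (((hg l).sm _ hu).continuous_deriv (by simp)) (hU (l + m))
      (hU (l - m)) ((Complex.continuous_ofReal.comp hQV.1.continuous).mul hu') hc1 fun x => by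
        simp only [Uo, qv, Pi.mul_apply, Function.comp_apply]
        push_cast
        ring
    have h2 : (Complex.ofReal ∘ wJ) * deriv ((g l).G (ex dl i)) =
        fun x => (wJ x : ℂ) * deriv ((g l).G (ex dl i)) x := rfl
    rw [h2] at h1
    simp only [f2, hP]
    linarith
  have hE : ∀ m : ℤ, Summable (fun l => Es dl (g (l + m)) (g l)) := fun m =>
    Summable.of_norm_bounded (summ hμ _) fun l => es_le hc (one_le_sz hμ _) (one_le_sz hμ _)
      (le_add_of_nonneg_right (abs_nonneg (m : ℝ))) (sz_le hμ l m)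
      (by simpa using sz_le hμ (l + m) (-m)) (hS _) (hS _)
  have hX : ∀ m : ℤ, Summable (fun l => xx dl (g l) (g (l + m))) := fun m =>
    Summable.of_norm_bounded (summ hμ _) fun l =>
      xx_le hdl.le (one_le_sz hμ _) (sz_le hμ l m) (hg _) (hg _) (hS _) (hS _)
  have sh : ∀ (f : ℤ → ℤ → ℝ) (m : ℤ) (s : ℝ), HasSum (fun l => f (l + -m) l) s →
      HasSum (fun l => f l (l + m)) s := fun f m s h => by
    have h1 := (Equiv.addRight m).hasSum_iff.2 h
    have h2 : ((fun l => f (l + -m) l) ∘ Equiv.addRight m) = fun l => f l (l + m) := by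
      funext l
      simp
    rwa [h2] at h1
  have hrow : ∀ m : ℕ, HasSum (fun l => T (l + m) l + T (l - m) l -
      (((g (l + m)).bb dl - (g l).bb dl) + ((g (l + -m)).bb dl - (g l).bb dl))) (Psi m g) := fun m => by
    have a1 := (hE m).hasSum
    have a2 := (hE (-m)).hasSum
    have a3 := sh (fun j l => Es dl (g j) (g l)) m _ a2
    have b1 := (hX m).hasSum
    have b2 := (hX (-m)).hasSum
    have b3 := sh (fun j l => xx dl (g l) (g j)) m _ b2
    have b4 := sh (fun j l => xx dl (g l) (g j)) (-m) _ (by simpa only [neg_neg] using b1)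
    have h1 := ((a1.add a2).add (b3.sub b1)).add (b4.sub b2)
    rw [Psi, (a1.add a3).tsum_eq]
    rw [show ∀ x y z : ℝ, x + (y - z) + (z - y) = x from fun x y z => by ring] at h1
    refine hs_congr h1 ?_
    intro l
    simp only [hT, sub_eq_add_neg]
    ring
  have hall : HasSum (fun l => T (l + k) l + T (l - k) l - (T (l + k') l + T (l - k') l)) (F - F') := by
    refine (hF.sub hF').prod_fiberwise fun l => ?_
    have h1 := ((hPT (l + k) l).add (hPT (l - k) l)).sub ((hPT (l + k') l).add (hPT (l - k') l))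
    refine hs_congr h1 fun i => ?_
    rw [hR, hR]
    ring
  have hb := tends hμ fun l => (hS l).b
  have hz := ((tz_shift hb k).add (tz_shift hb (-k))).add ((tz_shift hb k').add (tz_shift hb (-k'))).neg
  have h3 := hz.eq (hs_congr (hall.sub ((hrow k).sub (hrow k'))) fun l => by ring)
  linarith

end Pool.Agent.Lib.ISO
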