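import Pool.Agent.Lib.ISO.BlueV

/-! Block SYC: the symbol calculus. -/

open scoped Topology
open Set Filter

noncomputable section

namespace Pool.Agent.Lib.ISO

namespace SYC

theorem sy_mem {d : ℤ} {a : ℕ} {b : ℤ} (h : 2 * a + b ≤ d) : sy a b ∈ SyL d :=
  Submodule.subset_span ⟨a, b, h, rfl⟩

theorem of_mem {d : ℤ} {f : ℝ → ℝ → ℝ} (h : f ∈ SyL d) : InS d f := ⟨f, h, fun _ _ _ _ => rfl⟩

theorem add {d : ℤ} {f g : ℝ → ℝ → ℝ} (hf : InS d f) (hg : InS d g) : InS d (f + g) := by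
  obtain ⟨f', hf', e⟩ := hf
  obtain ⟨g', hg', e'⟩ := hg
  exact ⟨f' + g', add_mem hf' hg', fun τ s h1 h2 => by
    simp only [Pi.add_apply, e τ s h1 h2, e' τ s h1 h2]⟩

theorem smul {d : ℤ} (c : ℝ) {f : ℝ → ℝ → ℝ} (hf : InS d f) : InS d (c • f) := by
  obtain ⟨f', hf', e⟩ := hf
  exact ⟨c • f', Submodule.smul_mem _ c hf', fun τ s h1 h2 => by
    simp only [Pi.smul_apply, e τ s h1 h2]⟩

theorem congr {d : ℤ} {f g : ℝ → ℝ → ℝ} (hf : InS d f)
    (h : ∀ τ s, 0 < τ → 0 ≤ s → g τ s = f τ s) : InS d g := by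
  obtain ⟨f', hf', e⟩ := hf
  exact ⟨f', hf', fun τ s h1 h2 => (h τ s h1 h2).trans (e τ s h1 h2)⟩

theorem mono {d d' : ℤ} (h : d ≤ d') {f : ℝ → ℝ → ℝ} (hf : InS d f) : InS d' f := by
  obtain ⟨f', hf', e⟩ := hf
  refine ⟨f', Submodule.span_mono ?_ hf', e⟩
  rintro _ ⟨a, b, hab, rfl⟩
  exact ⟨a, b, hab.trans h, rfl⟩

theorem sy_mul (a a' : ℕ) (b b' : ℤ) {τ s : ℝ} (h1 : 0 < τ) (h2 : 0 ≤ s) :
    sy a b τ s * sy a' b' τ s = sy (a + a') (b + b') τ s := by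
  have hr : √(τ + s) ≠ 0 := (Real.sqrt_pos.2 (by linarith)).ne'
  simp only [sy, pow_add, zpow_add₀ hr]; ring

theorem mul_mem {d d' : ℤ} {f g : ℝ → ℝ → ℝ} (hf : f ∈ SyL d) (hg : g ∈ SyL d') :
    InS (d + d') (f * g) := by
  induction hf using Submodule.span_induction with
  | zero => rw [zero_mul]; exact of_mem (zero_mem _)
  | add x y _ _ hx hy => rw [add_mul]; exact add hx hy
  | smul c x _ hx => rw [smul_mul_assoc]; exact smul c hx
  | mem x hx =>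
    obtain ⟨a, b, hab, rfl⟩ := hx
    induction hg using Submodule.span_induction with
    | zero => rw [mul_zero]; exact of_mem (zero_mem _)
    | add x y _ _ hx hy => rw [mul_add]; exact add hx hy
    | smul c x _ hx => rw [mul_smul_comm]; exact smul c hx
    | mem y hy =>
      obtain ⟨a', b', hab', rfl⟩ := hy
      refine congr (of_mem (sy_mem (a := a + a') (b := b + b') ?_)) fun τ s h1 h2 =>
        sy_mul a a' b b' h1 h2
      push_cast; omega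

theorem mul {d d' : ℤ} {f g : ℝ → ℝ → ℝ} (hf : InS d f) (hg : InS d' g) : InS (d + d') (f * g) := by
  obtain ⟨f', hf', e⟩ := hf
  obtain ⟨g', hg', e'⟩ := hg
  exact congr (mul_mem hf' hg') fun τ s h1 h2 => by
    simp only [Pi.mul_apply, e τ s h1 h2, e' τ s h1 h2]

theorem sy_deriv (a : ℕ) (b : ℤ) {τ s : ℝ} (h1 : 0 < τ) (h2 : 0 ≤ s) :
    HasDerivAt (fun τ => sy a b τ s) ((a : ℝ) * sy (a - 1) b τ s + b / 2 * sy a (b - 2) τ s) τ := by
  have hp : 0 < τ + s := by linarith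
  have hr : √(τ + s) ≠ 0 := (Real.sqrt_pos.2 hp).ne'
  have d1 : HasDerivAt (fun τ : ℝ => √(τ + s)) (1 / (2 * √(τ + s))) τ :=
    ((hasDerivAt_id τ).add_const s).sqrt hp.ne'
  have d2 := (hasDerivAt_zpow b (√(τ + s)) (Or.inl hr)).comp τ d1
  have d3 := (hasDerivAt_pow a τ).mul d2
  refine d3.congr_deriv ?_
  simp only [sy, Function.comp_apply]
  have e : √(τ + s) ^ (b - 2) = √(τ + s) ^ (b - 1) / √(τ + s) := by
    rw [show b - 2 = b - 1 - 1 by ring, zpow_sub_one₀ hr, div_eq_mul_inv]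
  rw [e]
  field_simp

theorem deriv_mem {d : ℤ} {f : ℝ → ℝ → ℝ} (hf : f ∈ SyL d) :
    ∃ g ∈ SyL (d - 2), ∀ τ s, 0 < τ → 0 ≤ s → HasDerivAt (fun τ => f τ s) (g τ s) τ := by
  induction hf using Submodule.span_induction with
  | zero => exact ⟨0, zero_mem _, fun τ s _ _ => hasDerivAt_const τ 0⟩
  | add x y _ _ hx hy =>
    obtain ⟨g, hg, e⟩ := hx
    obtain ⟨g', hg', e'⟩ := hy
    exact ⟨g + g', add_mem hg hg', fun τ s h1 h2 => (e τ s h1 h2).add (e' τ s h1 h2)⟩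
  | smul c x _ hx =>
    obtain ⟨g, hg, e⟩ := hx
    exact ⟨c • g, Submodule.smul_mem _ c hg, fun τ s h1 h2 => (e τ s h1 h2).const_mul c⟩
  | mem x hx =>
    obtain ⟨a, b, hab, rfl⟩ := hx
    refine ⟨(a : ℝ) • sy (a - 1) b + ((b : ℝ) / 2) • sy a (b - 2), add_mem ?_
      (Submodule.smul_mem _ _ (sy_mem (by omega))), fun τ s h1 h2 => sy_deriv a b h1 h2⟩
    rcases a with _ | a
    · rw [Nat.cast_zero, zero_smul]; exact zero_mem _
    · refine Submodule.smul_mem _ _ (sy_mem ?_)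
      rw [Nat.add_sub_cancel]
      push_cast at hab
      omega

theorem bound_mem {d : ℤ} {f : ℝ → ℝ → ℝ} (hf : f ∈ SyL d) :
    ∃ C, ∀ τ s, 0 < τ → 0 ≤ s → 1 / 4 ≤ τ + s → |f τ s| ≤ C * √(τ + s) ^ d := by
  induction hf using Submodule.span_induction with
  | zero => exact ⟨0, fun τ s _ _ _ => by simp⟩
  | add x y _ _ hx hy =>
    obtain ⟨C, e⟩ := hx
    obtain ⟨C', e'⟩ := hy
    refine ⟨C + C', fun τ s h1 h2 h3 => ?_⟩
    have := e τ s h1 h2 h3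
    have := e' τ s h1 h2 h3
    have := abs_add_le (x τ s) (y τ s)
    simp only [Pi.add_apply]
    linarith
  | smul c x _ hx =>
    obtain ⟨C, e⟩ := hx
    refine ⟨|c| * C, fun τ s h1 h2 h3 => ?_⟩
    simp only [Pi.smul_apply, smul_eq_mul, abs_mul, mul_assoc]
    exact mul_le_mul_of_nonneg_left (e τ s h1 h2 h3) (abs_nonneg c)
  | mem x hx =>
    obtain ⟨a, b, hab, rfl⟩ := hx
    obtain ⟨n, rfl⟩ : ∃ n : ℕ, d = 2 * a + b + n := ⟨(d - (2 * a + b)).toNat, by omega⟩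
    refine ⟨2 ^ n, fun τ s h1 h2 h3 => ?_⟩
    have hp : 0 < τ + s := by linarith
    have hr : 0 < √(τ + s) := Real.sqrt_pos.2 hp
    have hr2 : 1 ≤ 2 * √(τ + s) := by
      have : √(1 / 4) ≤ √(τ + s) := Real.sqrt_le_sqrt h3
      rw [show (1 / 4 : ℝ) = (1 / 2) ^ 2 by norm_num, Real.sqrt_sq (by norm_num)] at this
      linarith
    have a1 : τ ^ a ≤ √(τ + s) ^ (2 * a) := by
      rw [pow_mul, Real.sq_sqrt hp.le]
      exact pow_le_pow_left₀ h1.le (by linarith) a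
    have a2 : 1 ≤ 2 ^ n * √(τ + s) ^ n := by
      rw [← mul_pow]; exact one_le_pow₀ hr2
    have a3 : 0 < √(τ + s) ^ b := zpow_pos hr b
    have e : √(τ + s) ^ (2 * (a : ℤ) + b + n) = √(τ + s) ^ (2 * a) * √(τ + s) ^ b * √(τ + s) ^ n := by
      rw [zpow_add₀ hr.ne', zpow_add₀ hr.ne', zpow_natCast, ← zpow_natCast _ (2 * a)]
      push_cast; rfl
    rw [e, sy, abs_of_pos (mul_pos (pow_pos h1 a) a3)]
    calc τ ^ a * √(τ + s) ^ b ≤ √(τ + s) ^ (2 * a) * √(τ + s) ^ b * 1 := by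
          rw [mul_one]; exact mul_le_mul_of_nonneg_right a1 a3.le
      _ ≤ √(τ + s) ^ (2 * a) * √(τ + s) ^ b * (2 ^ n * √(τ + s) ^ n) :=
          mul_le_mul_of_nonneg_left a2 (mul_pos (pow_pos hr _) a3).le
      _ = _ := by ring

end SYC

open SYC in
theorem st_syc : St_SYC := by
  refine ⟨fun d f hf => ?_, fun d d' f g => mul, fun d f g => add, fun d c f => smul c,
    fun d d' f h => SYC.mono h, fun a b => of_mem (sy_mem le_rfl)⟩
  obtain ⟨f', hf', e⟩ := hf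
  obtain ⟨g, hg, hd⟩ := deriv_mem hf'
  obtain ⟨C, hC⟩ := bound_mem hf'
  have key : ∀ τ s, 0 < τ → 0 ≤ s → HasDerivAt (fun τ => f τ s) (g τ s) τ := by
    intro τ s h1 h2
    refine (hd τ s h1 h2).congr_of_eventuallyEq ?_
    filter_upwards [Ioi_mem_nhds h1] with t ht using e t s ht h2
  have k2 : ∀ τ s, 0 < τ → 0 ≤ s → dt f τ s = g τ s := fun τ s h1 h2 => (key τ s h1 h2).deriv
  refine ⟨⟨g, hg, k2⟩, fun τ s h1 h2 => ?_, C, fun τ s h1 h2 h3 => ?_⟩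
  · rw [k2 τ s h1 h2]; exact key τ s h1 h2
  · rw [e τ s h1 h2]; exact hC τ s h1 h2 h3

end Pool.Agent.Lib.ISO
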