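import Pool.Agent.Lib.ISO.BlueV

/-! Block SYM: formal solution of the Riccati equation. -/

noncomputable section

namespace Pool.Agent.Lib.ISO

namespace SymB

theorem InS_congr {d : ℤ} {f g : ℝ → ℝ → ℝ} (h : InS d f) (e : ∀ τ s, 0 < τ → 0 ≤ s → g τ s = f τ s) :
    InS d g := by
  obtain ⟨k, hk, e'⟩ := h
  exact ⟨k, hk, fun τ s a b => (e τ s a b).trans (e' τ s a b)⟩

theorem der_sy (a : ℕ) (b : ℤ) {τ s : ℝ} (h : 0 < τ + s) :
    HasDerivAt (fun τ => sy a b τ s)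
      (a * τ ^ (a - 1) * √(τ + s) ^ b + τ ^ a * (b * √(τ + s) ^ (b - 1) * (1 / (2 * √(τ + s))))) τ := by
  have h1 : HasDerivAt (fun τ => √(τ + s)) (1 / (2 * √(τ + s))) τ :=
    ((hasDerivAt_id τ).add_const s).sqrt h.ne'
  have h2 := (hasDerivAt_zpow b √(τ + s) (Or.inl (Real.sqrt_pos.2 h).ne')).comp τ h1
  exact (hasDerivAt_pow a τ).mul h2

end SymB

open SymB in
theorem st_sym (hSYC : St_SYC) : St_SYM := by
  obtain ⟨hD, hM, hA, hS, hmono, hsy⟩ := hSYC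
  intro J σ hσ
  have hσ2 : σ * σ = 1 := by rcases hσ with rfl | rfl <;> norm_num
  have s (a : ℕ) (b d : ℤ) (h : 2 * a + b ≤ d) : InS d (sy a b) := hmono _ _ _ h (hsy a b)
  set a0 : ℝ → ℝ → ℝ := (1 / 2 : ℝ) • sy 0 0 + (-1 / 2 : ℝ) • sy 1 (-2) with ha0
  set a1 : ℝ → ℝ → ℝ := (1 / 2 : ℝ) • sy 1 (-3) + (-5 / 8 : ℝ) • sy 2 (-5) with ha1
  have i0 : InS 0 a0 := hA _ _ _ (hS _ _ _ (s 0 0 0 (by norm_num))) (hS _ _ _ (s 1 (-2) 0 (by norm_num)))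
  have i1 : InS (-1) a1 :=
    hA _ _ _ (hS _ _ _ (s 1 (-3) _ (by norm_num))) (hS _ _ _ (s 2 (-5) _ (by norm_num)))
  have hph : ph3 σ = sy 0 1 + (σ • a0 + a1) := by
    funext τ t
    simp only [ph3, ha0, ha1, Pi.add_apply, Pi.sub_apply, Pi.smul_apply, smul_eq_mul]
    ring
  have i2 : InS 0 (σ • a0 + a1) := hA _ _ _ (hS _ _ _ i0) (hmono _ _ _ (by norm_num) i1)
  have iτ : InS 2 (sy 1 0) := s 1 0 2 (by norm_num)
  have key : ∀ j : ℕ, ∃ ρ, InS (-2) ρ ∧ InS (-((j : ℤ) + 1)) (res σ (ph3 σ + ρ)) := by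
    intro j
    induction j with
    | zero =>
      refine ⟨0, ⟨0, zero_mem _, fun _ _ _ _ => rfl⟩, ?_⟩
      rw [add_zero, hph]
      have k1 : InS (-1) (a0 * a1) := hmono _ _ _ (by norm_num) (hM _ _ _ _ i0 i1)
      have k2 : InS (-1) (a1 * a1) := hmono _ _ _ (by norm_num) (hM _ _ _ _ i1 i1)
      have k3 : InS (-1) (sy 1 0 * dt a1) := hmono _ _ _ (by norm_num) (hM _ _ _ _ iτ (hD _ _ i1).1)
      refine InS_congr (hA _ _ _ (hA _ _ _ (hS _ (2 * σ) _ k1) k2)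
        (hA _ _ _ (hS _ (-σ) _ i1) (hS _ (2 * σ) _ k3))) fun τ t hτ ht => ?_
      have hp : 0 < τ + t := by linarith
      have d0 := ((der_sy 0 0 hp).const_mul (1 / 2 : ℝ)).add ((der_sy 1 (-2) hp).const_mul (-1 / 2 : ℝ))
      have d1 := ((der_sy 0 1 hp).add ((d0.const_mul σ).add ((hD _ _ i1).2.1 τ t hτ ht))).deriv
      have d2 : dt (sy 0 1 + (σ • a0 + a1)) τ t = _ := d1
      have hL : 0 < √(τ + t) := Real.sqrt_pos.2 hp
      have hL2 : τ + t = √(τ + t) ^ 2 := (Real.sq_sqrt hp.le).symm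
      rw [res, d2]
      simp only [Pi.add_apply, Pi.smul_apply, Pi.mul_apply, smul_eq_mul]
      generalize dt a1 τ t = y
      simp only [ha0, ha1, sy, Pi.add_apply, Pi.smul_apply, smul_eq_mul]
      generalize √(τ + t) = L at hL hL2
      rw [hL2]
      norm_num [zpow_neg, zpow_ofNat]
      rcases hσ with rfl | rfl <;> field_simp <;> ring
    | succ j ih =>
      obtain ⟨ρ, hρ, hr⟩ := ih
      set r := res σ (ph3 σ + ρ) with hrd
      set δ : ℝ → ℝ → ℝ := (-1 / 2 : ℝ) • (r * sy 0 (-1)) with hδ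
      have iδ : InS (-(((j + 1 : ℕ) : ℤ) + 1)) δ :=
        hS _ _ _ (hmono _ _ _ (by push_cast; omega) (hM _ _ _ _ hr (hsy 0 (-1))))
      have iψ : InS 0 (σ • a0 + a1 + ρ) := hA _ _ _ i2 (hmono _ _ _ (by norm_num) hρ)
      have iφ : InS 1 (ph3 σ + ρ) := by
        rw [hph, add_assoc]
        exact hA _ _ _ (s 0 1 1 (by norm_num)) (hmono _ _ _ (by norm_num) iψ)
      refine ⟨ρ + δ, hA _ _ _ hρ (hmono _ _ _ (by push_cast; omega) iδ), ?_⟩
      have k1 : InS (-(((j + 1 : ℕ) : ℤ) + 1)) ((σ • a0 + a1 + ρ) * δ) :=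
        hmono _ _ _ (by omega) (hM _ _ _ _ iψ iδ)
      have k2 : InS (-(((j + 1 : ℕ) : ℤ) + 1)) (δ * δ) := hmono _ _ _ (by omega) (hM _ _ _ _ iδ iδ)
      have k3 : InS (-(((j + 1 : ℕ) : ℤ) + 1)) (sy 1 0 * dt δ) :=
        hmono _ _ _ (by omega) (hM _ _ _ _ iτ (hD _ _ iδ).1)
      refine InS_congr (hA _ _ _ (hA _ _ _ (hS _ 2 _ k1) k2)
        (hA _ _ _ (hS _ (-σ) _ iδ) (hS _ (2 * σ) _ k3))) fun τ t hτ ht => ?_
      have hp : 0 < τ + t := by linarith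
      have hL : 0 < √(τ + t) := Real.sqrt_pos.2 hp
      have d1 := (((hD _ _ iφ).2.1 τ t hτ ht).add ((hD _ _ iδ).2.1 τ t hτ ht)).deriv
      rw [← add_assoc]
      have d2 : dt (ph3 σ + ρ + δ) τ t = _ := d1
      have e1 : r τ t = -2 * √(τ + t) * δ τ t := by
        simp only [hδ, sy, Pi.smul_apply, Pi.mul_apply, smul_eq_mul, zpow_neg, zpow_one, pow_zero]
        field_simp
      have e2 : (ph3 σ + ρ) τ t = √(τ + t) + (σ • a0 + a1 + ρ) τ t := by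
        rw [hph, add_assoc]
        simp [sy]
      have e3 : sy 1 0 τ t = τ := by simp [sy]
      rw [hrd, res, e2] at e1
      rw [res, d2, Pi.add_apply (ph3 σ + ρ), Pi.add_apply ((ph3 σ + ρ) τ), e2]
      generalize σ • a0 + a1 + ρ = ψ at e1 ⊢
      simp only [Pi.add_apply, Pi.smul_apply, Pi.mul_apply, smul_eq_mul, e3]
      linear_combination e1
  obtain ⟨ρ, h1, h2⟩ := key J
  exact ⟨ρ, h1, hmono _ _ _ (by omega) h2⟩

end Pool.Agent.Lib.ISO
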