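import Pool.Agent.Lib.ISO.BlueK

/-! Block TAME: the tame bound for integrals of differential monomials. -/

open scoped ContDiff ComplexConjugate
open Complex

noncomputable section

namespace Pool.Agent.Lib.ISO
namespace TAME

open Finset Filter Topology

variable {ι : Type} [Fintype ι] [DecidableEq ι]

/-- zero-sum tuples with entries in `S` -/
def Z (ι : Type) [Fintype ι] [DecidableEq ι] (S : Finset ℤ) : Finset (ι → ℤ) :=
  (Fintype.piFinset fun _ => S).filter fun ξ => ∑ l, ξ l = 0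

lemma young (S : Finset ℤ) (h : ι → ℤ → ℝ) (h0 : ∀ l n, 0 ≤ h l n) (j : ι) :
    ∑ ξ ∈ Z ι S, ∏ l ∈ univ.erase j, h l (ξ l) ≤ ∏ l ∈ univ.erase j, ∑ n ∈ S, h l n := by
  let h' : ι → ℤ → ℝ := fun l n => if l = j then 1 else h l n
  let T : ι → Finset ℤ := fun l => if l = j then {0} else S
  have h'0 : ∀ l n, 0 ≤ h' l n := by
    intro l n
    by_cases e : l = j
    · simp [h', e]
    · simp [h', e, h0]
  have e1 : ∀ ξ : ι → ℤ, ∏ l ∈ univ.erase j, h l (ξ l) = ∏ l, h' l (Function.update ξ j 0 l) := by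
    intro ξ
    rw [← Finset.mul_prod_erase univ _ (mem_univ j)]
    have : h' j (Function.update ξ j 0 j) = 1 := by simp [h']
    rw [this, one_mul]
    refine Finset.prod_congr rfl fun l hl => ?_
    have e : l ≠ j := Finset.ne_of_mem_erase hl
    simp [h', e]
  have inj : Set.InjOn (fun ξ : ι → ℤ => Function.update ξ j 0) (Z ι S) := by
    intro ξ hξ η hη e
    have a1 : ∑ l, ξ l = 0 := (Finset.mem_filter.1 hξ).2
    have a2 : ∑ l, η l = 0 := (Finset.mem_filter.1 hη).2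
    have e' : ∀ l, l ≠ j → ξ l = η l := by
      intro l hl
      have := congrFun e l
      simpa [Function.update_of_ne hl] using this
    funext l
    by_cases hl : l = j
    · subst hl
      rw [← Finset.add_sum_erase univ _ (mem_univ l)] at a1 a2
      have : ∑ x ∈ univ.erase l, ξ x = ∑ x ∈ univ.erase l, η x :=
        Finset.sum_congr rfl fun x hx => e' x (Finset.ne_of_mem_erase hx)
      linarith
    · exact e' l hl
  calc ∑ ξ ∈ Z ι S, ∏ l ∈ univ.erase j, h l (ξ l)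
      = ∑ ξ ∈ Z ι S, ∏ l, h' l (Function.update ξ j 0 l) := Finset.sum_congr rfl fun ξ _ => e1 ξ
    _ = ∑ η ∈ (Z ι S).image (fun ξ : ι → ℤ => Function.update ξ j 0), ∏ l, h' l (η l) :=
        (Finset.sum_image (f := fun η : ι → ℤ => ∏ l, h' l (η l)) inj).symm
    _ ≤ ∑ η ∈ Fintype.piFinset T, ∏ l, h' l (η l) := by
        refine Finset.sum_le_sum_of_subset_of_nonneg ?_ fun η _ _ =>
          Finset.prod_nonneg fun l _ => h'0 l _
        intro η hη
        obtain ⟨ξ, hξ, rfl⟩ := Finset.mem_image.1 hη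
        have a1 := Fintype.mem_piFinset.1 (Finset.mem_filter.1 hξ).1
        refine Fintype.mem_piFinset.2 fun l => ?_
        by_cases hl : l = j
        · subst hl; simp [T]
        · simp [T, hl, a1 l]
    _ = ∏ l, ∑ n ∈ T l, h' l n := (Finset.prod_univ_sum T h').symm
    _ = ∏ l ∈ univ.erase j, ∑ n ∈ S, h l n := by
        rw [← Finset.mul_prod_erase univ _ (mem_univ j)]
        have : ∑ n ∈ T j, h' j n = 1 := by simp [T, h']
        rw [this, one_mul]
        refine Finset.prod_congr rfl fun l hl => ?_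
        have e : l ≠ j := Finset.ne_of_mem_erase hl
        simp [h', T, e]

lemma young2 (S : Finset ℤ) (U g : ℤ → ℝ) (hU : ∀ n, 0 ≤ U n) (hg : ∀ n, 0 ≤ g n) {i j : ι}
    (hij : i ≠ j) {B : ℝ} (hB : 1 ≤ B) (hgB : ∑ n ∈ S, g n ≤ B) :
    ∑ ξ ∈ Z ι S, U (ξ i) * ∏ l ∈ (univ.erase j).erase i, g (ξ l) ≤
      (∑ n ∈ S, U n) * B ^ Fintype.card ι := by
  let h : ι → ℤ → ℝ := fun l n => if l = i then U n else g n
  have h0 : ∀ l n, 0 ≤ h l n := by
    intro l n
    by_cases e : l = i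
    · simp [h, e, hU]
    · simp [h, e, hg]
  have hi : i ∈ univ.erase j := Finset.mem_erase.2 ⟨hij, mem_univ i⟩
  have y := young S h h0 j
  have e1 : ∀ ξ : ι → ℤ, ∏ l ∈ univ.erase j, h l (ξ l) =
      U (ξ i) * ∏ l ∈ (univ.erase j).erase i, g (ξ l) := by
    intro ξ
    rw [← Finset.mul_prod_erase _ _ hi]
    have : h i (ξ i) = U (ξ i) := by simp [h]
    rw [this]
    refine congrArg _ (Finset.prod_congr rfl fun l hl => ?_)
    have e : l ≠ i := Finset.ne_of_mem_erase hl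
    simp [h, e]
  simp only [e1] at y
  refine y.trans ?_
  rw [← Finset.mul_prod_erase _ _ hi]
  have : ∑ n ∈ S, h i n = ∑ n ∈ S, U n := by simp [h]
  rw [this]
  refine mul_le_mul_of_nonneg_left ?_ (Finset.sum_nonneg fun n _ => hU n)
  calc ∏ l ∈ (univ.erase j).erase i, ∑ n ∈ S, h l n ≤ ∏ _l ∈ (univ.erase j).erase i, B := by
        refine Finset.prod_le_prod (fun l _ => Finset.sum_nonneg fun n _ => h0 l n) fun l hl => ?_
        have e : l ≠ i := Finset.ne_of_mem_erase hl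
        simpa [h, e] using hgB
    _ = B ^ ((univ.erase j).erase i).card := Finset.prod_const B
    _ ≤ B ^ Fintype.card ι := pow_le_pow_right₀ hB (Finset.card_le_univ _)

lemma pair (S : Finset ℤ) (u v g : ℤ → ℝ) (hg : ∀ n, 0 ≤ g n) {i j : ι}
    (hij : i ≠ j) {B : ℝ} (hB : 1 ≤ B) (hgB : ∑ n ∈ S, g n ≤ B) :
    ∑ ξ ∈ Z ι S, u (ξ i) * v (ξ j) * ∏ l ∈ (univ.erase j).erase i, g (ξ l) ≤
      B ^ Fintype.card ι * √((∑ n ∈ S, u n ^ 2) * ∑ n ∈ S, v n ^ 2) := by
  have G0 : ∀ ξ : ι → ℤ, 0 ≤ ∏ l ∈ (univ.erase j).erase i, g (ξ l) := fun ξ =>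
    Finset.prod_nonneg fun l _ => hg _
  have cs := Finset.sum_sq_le_sum_mul_sum_of_sq_le_mul (Z ι S)
    (r := fun ξ => u (ξ i) * v (ξ j) * ∏ l ∈ (univ.erase j).erase i, g (ξ l))
    (f := fun ξ => u (ξ i) ^ 2 * ∏ l ∈ (univ.erase j).erase i, g (ξ l))
    (g := fun ξ => v (ξ j) ^ 2 * ∏ l ∈ (univ.erase j).erase i, g (ξ l))
    (fun ξ _ => mul_nonneg (sq_nonneg _) (G0 ξ)) (fun ξ _ => mul_nonneg (sq_nonneg _) (G0 ξ))
    (fun ξ _ => le_of_eq (by ring))
  have y1 := young2 S (fun n => u n ^ 2) g (fun n => sq_nonneg _) hg hij hB hgB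
  have y2 := young2 S (fun n => v n ^ 2) g (fun n => sq_nonneg _) hg hij.symm hB hgB
  rw [Finset.erase_right_comm] at y2
  have su : 0 ≤ ∑ n ∈ S, u n ^ 2 := Finset.sum_nonneg fun n _ => sq_nonneg _
  have sv : 0 ≤ ∑ n ∈ S, v n ^ 2 := Finset.sum_nonneg fun n _ => sq_nonneg _
  have bp : 0 ≤ B ^ Fintype.card ι := by positivity
  refine le_trans (le_abs_self _) (abs_le_of_sq_le_sq ?_ (by positivity))
  refine cs.trans ?_
  rw [mul_pow, Real.sq_sqrt (mul_nonneg su sv)]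
  calc _ ≤ ((∑ n ∈ S, u n ^ 2) * B ^ Fintype.card ι) * ((∑ n ∈ S, v n ^ 2) * B ^ Fintype.card ι) :=
        mul_le_mul y1 y2 (Finset.sum_nonneg fun ξ _ => mul_nonneg (sq_nonneg _) (G0 ξ))
          (mul_nonneg su bp)
    _ = _ := by ring

/-- the weight -/
def w (n : ℤ) : ℝ := 1 + |(n : ℝ)|

lemma one_le_w (n : ℤ) : 1 ≤ w n := by
  unfold w; linarith [abs_nonneg (n : ℝ)]

lemma w_nonneg (n : ℤ) : 0 ≤ w n := le_trans zero_le_one (one_le_w n)

lemma point (a : ι → ℕ) (r : ℕ) (hr : 1 ≤ r) (h2 : 2 ≤ Fintype.card ι)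
    (ha : ∑ l, a l + 1 ≤ 2 * r ∨ (∑ l, a l = 2 * r ∧ 3 ≤ (univ.filter fun l => a l ≠ 0).card))
    (ξ : ι → ℤ) (h0 : ∑ l, ξ l = 0) : ∃ i j, i ≠ j ∧ ∏ l, w (ξ l) ^ a l ≤
      (Fintype.card ι : ℝ) ^ (2 * r - 1) *
        (w (ξ i) ^ r * w (ξ j) ^ (r - 1) * ∏ l ∈ (univ.erase j).erase i, w (ξ l)) := by
  have ne : (univ : Finset ι).Nonempty := by
    rw [← Finset.card_pos, Finset.card_univ]; omega
  obtain ⟨i, -, hi⟩ := Finset.exists_max_image univ (fun l => w (ξ l)) ne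
  have ne' : (univ.erase i).Nonempty := by
    rw [← Finset.card_pos, Finset.card_erase_of_mem (mem_univ i), Finset.card_univ]; omega
  obtain ⟨j, hj0, hj⟩ := Finset.exists_max_image (univ.erase i) (fun l => w (ξ l)) ne'
  have hji : j ≠ i := Finset.ne_of_mem_erase hj0
  refine ⟨i, j, hji.symm, ?_⟩
  set p : ℝ := (Fintype.card ι : ℝ) with hp
  have p2 : 2 ≤ p := by rw [hp]; exact_mod_cast h2
  have Y1 := one_le_w (ξ j)
  have XY : w (ξ i) ≤ p * w (ξ j) := by
    have e : (ξ i : ℝ) = -∑ l ∈ univ.erase i, (ξ l : ℝ) := by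
      rw [← Finset.add_sum_erase univ _ (mem_univ i)] at h0
      have : ((ξ i + ∑ l ∈ univ.erase i, ξ l : ℤ) : ℝ) = 0 := by rw [h0]; simp
      push_cast at this
      linarith
    have b1 : |(ξ i : ℝ)| ≤ ∑ l ∈ univ.erase i, |(ξ l : ℝ)| := by
      rw [e, abs_neg]; exact Finset.abs_sum_le_sum_abs _ _
    have b2 : ∑ l ∈ univ.erase i, |(ξ l : ℝ)| ≤ ∑ _l ∈ univ.erase i, w (ξ j) := by
      refine Finset.sum_le_sum fun l hl => ?_
      have := hj l hl
      unfold w at this ⊢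
      linarith
    rw [Finset.sum_const, Finset.card_erase_of_mem (mem_univ i), Finset.card_univ,
      nsmul_eq_mul, Nat.cast_sub (by omega), Nat.cast_one, ← hp] at b2
    have : w (ξ i) = 1 + |(ξ i : ℝ)| := rfl
    nlinarith
  have all : ∀ l, w (ξ l) ≤ p * w (ξ j) := fun l => (hi l (mem_univ l)).trans XY
  have pY : 1 ≤ p * w (ξ j) := by nlinarith
  set Q := ∏ l ∈ (univ.erase j).erase i, w (ξ l) with hQ
  have Q1 : 1 ≤ Q := Finset.one_le_prod fun l _ => one_le_w (ξ l)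
  have key : ∏ l, w (ξ l) ^ a l ≤ (p * w (ξ j)) ^ (2 * r - 1) * Q := by
    rcases ha with ha | ⟨ha, hn⟩
    · calc ∏ l, w (ξ l) ^ a l ≤ ∏ l, (p * w (ξ j)) ^ a l :=
            Finset.prod_le_prod (fun l _ => pow_nonneg (w_nonneg _) _) fun l _ =>
              pow_le_pow_left₀ (w_nonneg _) (all l) _
        _ = (p * w (ξ j)) ^ ∑ l, a l := Finset.prod_pow_eq_pow_sum _ _ _
        _ ≤ (p * w (ξ j)) ^ (2 * r - 1) := pow_le_pow_right₀ pY (by omega)
        _ ≤ _ := le_mul_of_one_le_right (by positivity) Q1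
    · obtain ⟨l0, hl0, hl1⟩ : ∃ l0, l0 ∈ (univ.filter fun l => a l ≠ 0) ∧
          l0 ∉ ({i, j} : Finset ι) := by
        refine Finset.exists_mem_notMem_of_card_lt_card ?_
        have : ({i, j} : Finset ι).card ≤ 2 := Finset.card_le_two
        omega
      have a0 : a l0 ≠ 0 := (Finset.mem_filter.1 hl0).2
      have m0 : l0 ∈ (univ.erase j).erase i := by
        simp only [Finset.mem_insert, Finset.mem_singleton, not_or] at hl1
        simp [hl1.1, hl1.2]
      have wQ : w (ξ l0) ≤ Q := by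
        rw [hQ, ← Finset.mul_prod_erase _ _ m0]
        exact le_mul_of_one_le_right (w_nonneg _) (Finset.one_le_prod fun l _ => one_le_w (ξ l))
      have es : a l0 + ∑ l ∈ univ.erase l0, a l = 2 * r := by
        rw [Finset.add_sum_erase univ _ (mem_univ l0)]; exact ha
      obtain ⟨b, hb⟩ : ∃ b, a l0 = b + 1 := ⟨a l0 - 1, by omega⟩
      calc ∏ l, w (ξ l) ^ a l = w (ξ l0) ^ b * w (ξ l0) * ∏ l ∈ univ.erase l0, w (ξ l) ^ a l := by
            rw [← Finset.mul_prod_erase univ _ (mem_univ l0), hb, pow_succ]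
        _ ≤ (p * w (ξ j)) ^ b * Q * ∏ l ∈ univ.erase l0, (p * w (ξ j)) ^ a l := by
            refine mul_le_mul (mul_le_mul (pow_le_pow_left₀ (w_nonneg _) (all _) _) wQ
              (w_nonneg _) (by positivity)) (Finset.prod_le_prod
                (fun l _ => pow_nonneg (w_nonneg _) _) fun l _ =>
                  pow_le_pow_left₀ (w_nonneg _) (all l) _)
              (Finset.prod_nonneg fun l _ => pow_nonneg (w_nonneg _) _) (by positivity)
        _ = (p * w (ξ j)) ^ (2 * r - 1) * Q := by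
            rw [Finset.prod_pow_eq_pow_sum]
            have : 2 * r - 1 = b + ∑ l ∈ univ.erase l0, a l := by omega
            rw [this, pow_add]; ring
  refine key.trans ?_
  have e : (p * w (ξ j)) ^ (2 * r - 1) = p ^ (2 * r - 1) * (w (ξ j) ^ r * w (ξ j) ^ (r - 1)) := by
    have : 2 * r - 1 = r + (r - 1) := by omega
    rw [mul_pow, this, pow_add (w (ξ j))]
  rw [e, mul_assoc]
  refine mul_le_mul_of_nonneg_left (mul_le_mul_of_nonneg_right (mul_le_mul_of_nonneg_right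
    (pow_le_pow_left₀ (w_nonneg _) (hi j (mem_univ j)) _) (pow_nonneg (w_nonneg _) _))
    (by positivity)) (by positivity)

lemma comb (a : ι → ℕ) (r : ℕ) (hr : 1 ≤ r) (h2 : 2 ≤ Fintype.card ι)
    (ha : ∑ l, a l + 1 ≤ 2 * r ∨ (∑ l, a l = 2 * r ∧ 3 ≤ (univ.filter fun l => a l ≠ 0).card))
    (S : Finset ℤ) (x : ℤ → ℝ) (hx : ∀ n, 0 ≤ x n) {B : ℝ} (hB : 1 ≤ B)
    (hgB : ∑ n ∈ S, w n * x n ≤ B) :
    ∑ ξ ∈ Z ι S, ∏ l, w (ξ l) ^ a l * x (ξ l) ≤
      (Fintype.card ι : ℝ) ^ (2 * r - 1) * (Fintype.card ι : ℝ) ^ 2 * (B ^ Fintype.card ι *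
        √((∑ n ∈ S, (w n ^ r * x n) ^ 2) * ∑ n ∈ S, (w n ^ (r - 1) * x n) ^ 2)) := by
  let F : ι × ι → (ι → ℤ) → ℝ := fun q ξ => if q.1 ≠ q.2 then
    (w (ξ q.1) ^ r * x (ξ q.1)) * (w (ξ q.2) ^ (r - 1) * x (ξ q.2)) *
      ∏ l ∈ (univ.erase q.2).erase q.1, w (ξ l) * x (ξ l) else 0
  have F0 : ∀ q ξ, 0 ≤ F q ξ := by
    intro q ξ
    by_cases e : q.1 ≠ q.2
    · simp only [F, if_pos e]
      exact mul_nonneg (mul_nonneg (mul_nonneg (pow_nonneg (w_nonneg _) _) (hx _))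
        (mul_nonneg (pow_nonneg (w_nonneg _) _) (hx _)))
        (Finset.prod_nonneg fun l _ => mul_nonneg (w_nonneg _) (hx _))
    · simp only [F, if_neg e]; exact le_rfl
  set R := B ^ Fintype.card ι *
        √((∑ n ∈ S, (w n ^ r * x n) ^ 2) * ∑ n ∈ S, (w n ^ (r - 1) * x n) ^ 2) with hR
  have R0 : 0 ≤ R := by positivity
  have FR : ∀ q, ∑ ξ ∈ Z ι S, F q ξ ≤ R := by
    intro q
    by_cases e : q.1 ≠ q.2
    · simp only [F, if_pos e]
      exact pair S (fun n => w n ^ r * x n) (fun n => w n ^ (r - 1) * x n) (fun n => w n * x n)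
        (fun n => mul_nonneg (w_nonneg _) (hx _)) e hB hgB
    · simp only [F, if_neg e, Finset.sum_const_zero]; exact R0
  have pt : ∀ ξ ∈ Z ι S, ∏ l, w (ξ l) ^ a l * x (ξ l) ≤
      (Fintype.card ι : ℝ) ^ (2 * r - 1) * ∑ q, F q ξ := by
    intro ξ hξ
    obtain ⟨i, j, hij, h⟩ := point a r hr h2 ha ξ (Finset.mem_filter.1 hξ).2
    have hi : i ∈ univ.erase j := Finset.mem_erase.2 ⟨hij, mem_univ i⟩
    have ex : ∏ l, x (ξ l) = x (ξ j) * (x (ξ i) * ∏ l ∈ (univ.erase j).erase i, x (ξ l)) := by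
      rw [Finset.mul_prod_erase _ (fun l => x (ξ l)) hi,
        Finset.mul_prod_erase _ (fun l => x (ξ l)) (mem_univ j)]
    calc ∏ l, w (ξ l) ^ a l * x (ξ l) = (∏ l, w (ξ l) ^ a l) * ∏ l, x (ξ l) :=
          Finset.prod_mul_distrib
      _ ≤ ((Fintype.card ι : ℝ) ^ (2 * r - 1) *
          (w (ξ i) ^ r * w (ξ j) ^ (r - 1) * ∏ l ∈ (univ.erase j).erase i, w (ξ l))) *
            ∏ l, x (ξ l) := mul_le_mul_of_nonneg_right h (Finset.prod_nonneg fun l _ => hx _)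
      _ = (Fintype.card ι : ℝ) ^ (2 * r - 1) * F (i, j) ξ := by
          simp only [F, if_pos hij]
          rw [ex, Finset.prod_mul_distrib]; ring
      _ ≤ _ := mul_le_mul_of_nonneg_left
          (Finset.single_le_sum (f := fun q => F q ξ) (fun q _ => F0 q ξ) (mem_univ (i, j)))
          (by positivity)
  calc _ ≤ ∑ ξ ∈ Z ι S, (Fintype.card ι : ℝ) ^ (2 * r - 1) * ∑ q, F q ξ := Finset.sum_le_sum pt
    _ = (Fintype.card ι : ℝ) ^ (2 * r - 1) * ∑ q, ∑ ξ ∈ Z ι S, F q ξ := by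
        rw [← Finset.mul_sum, Finset.sum_comm]
    _ ≤ (Fintype.card ι : ℝ) ^ (2 * r - 1) * ∑ _q : ι × ι, R :=
        mul_le_mul_of_nonneg_left (Finset.sum_le_sum fun q _ => FR q) (by positivity)
    _ = _ := by
        rw [Finset.sum_const, Finset.card_univ, Fintype.card_prod, nsmul_eq_mul]
        push_cast; ring

lemma int_exp (m : ℤ) : ∫ s in (0 : ℝ)..(2 * Real.pi), exp (I * m * s) =
    if m = 0 then (2 * Real.pi : ℂ) else 0 := by
  by_cases h : m = 0
  · simp [h]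
  · have hc : I * (m : ℂ) ≠ 0 := mul_ne_zero I_ne_zero (by exact_mod_cast h)
    rw [if_neg h, integral_exp_mul_complex hc]
    have : I * (m : ℂ) * ((2 * Real.pi : ℝ) : ℂ) = m * (2 * Real.pi * I) := by push_cast; ring
    rw [this, exp_int_mul_two_pi_mul_I]
    simp

lemma norm_e (j : ℤ) (s : ℝ) : ‖exp (I * j * s)‖ = 1 := by
  have : I * (j : ℂ) * s = ((j * s : ℝ) : ℂ) * I := by push_cast; ring
  rw [this, norm_exp_ofReal_mul_I]

lemma trunc (c : ι → ℤ → ℂ) (S : Finset ℤ) :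
    ‖∫ s in (0 : ℝ)..(2 * Real.pi), ∏ l, ∑ j ∈ S, c l j * exp (I * j * s)‖ ≤
      2 * Real.pi * ∑ ξ ∈ Z ι S, ∏ l, ‖c l (ξ l)‖ := by
  have e1 : ∀ s : ℝ, ∏ l, ∑ j ∈ S, c l j * exp (I * j * s) =
      ∑ ξ ∈ Fintype.piFinset (fun _ : ι => S),
        (∏ l, c l (ξ l)) * exp (I * ((∑ l, ξ l : ℤ) : ℂ) * s) := by
    intro s
    rw [Finset.prod_univ_sum (fun _ : ι => S) (fun l j => c l j * exp (I * j * s))]
    refine Finset.sum_congr rfl fun ξ _ => ?_
    rw [Finset.prod_mul_distrib, ← Complex.exp_sum]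
    push_cast
    rw [Finset.mul_sum, Finset.sum_mul]
  simp only [e1]
  rw [intervalIntegral.integral_finsetSum fun ξ _ =>
    (Continuous.intervalIntegrable (by fun_prop) _ _)]
  simp only [intervalIntegral.integral_const_mul, int_exp]
  refine (norm_sum_le _ _).trans ?_
  rw [Z, Finset.sum_filter, Finset.mul_sum]
  refine Finset.sum_le_sum fun ξ _ => ?_
  by_cases h : ∑ l, ξ l = 0
  · rw [if_pos h, if_pos h, norm_mul, norm_prod, mul_comm]
    have : ‖(2 * Real.pi : ℂ)‖ = 2 * Real.pi := by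
      rw [norm_mul, Complex.norm_real, Real.norm_of_nonneg Real.pi_pos.le]; simp
    rw [this]
  · rw [if_neg h, if_neg h]; simp

lemma bound (c : ι → ℤ → ℂ) (f : ι → ℝ → ℂ) (hs : ∀ l, Summable fun j => ‖c l j‖)
    (hf : ∀ l (s : ℝ), HasSum (fun j : ℤ => c l j * exp (I * j * s)) (f l s)) (M : ℝ)
    (hM : ∀ S, ∑ ξ ∈ Z ι S, ∏ l, ‖c l (ξ l)‖ ≤ M) :
    ‖∫ s in (0 : ℝ)..(2 * Real.pi), ∏ l, f l s‖ ≤ 2 * Real.pi * M := by
  have t : Tendsto (fun S : Finset ℤ => ∫ s in (0 : ℝ)..(2 * Real.pi),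
      ∏ l, ∑ j ∈ S, c l j * exp (I * j * s)) atTop
      (𝓝 (∫ s in (0 : ℝ)..(2 * Real.pi), ∏ l, f l s)) := by
    refine intervalIntegral.tendsto_integral_filter_of_dominated_convergence
      (fun _ => ∏ l, ∑' j, ‖c l j‖) ?_ ?_ intervalIntegrable_const ?_
    · exact Eventually.of_forall fun S => Continuous.aestronglyMeasurable (by fun_prop)
    · refine Eventually.of_forall fun S => MeasureTheory.ae_of_all _ fun s _ => ?_
      rw [norm_prod]
      refine Finset.prod_le_prod (fun l _ => norm_nonneg _) fun l _ => ?_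
      refine (norm_sum_le _ _).trans ?_
      simp only [norm_mul, norm_e, mul_one]
      exact (hs l).sum_le_tsum S fun j _ => norm_nonneg _
    · refine MeasureTheory.ae_of_all _ fun s _ => ?_
      exact tendsto_finsetProd _ fun l _ => hf l s
  refine le_of_tendsto' t.norm fun S => (trunc c S).trans ?_
  exact mul_le_mul_of_nonneg_left (hM S) (by positivity)

lemma per_deriv {L : ℝ} {k : ℝ → ℝ} (h : Per L k) (n : ℕ) : Per L (iteratedDeriv n k) := by
  refine ⟨?_, fun s => ?_⟩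
  · rw [iteratedDeriv_eq_iterate]
    exact h.smooth.iterate_deriv n
  · have e : (fun x => k (x + L)) = k := funext h.per
    have := congrFun (iteratedDeriv_comp_add_const n k L) s
    rw [e] at this
    exact this.symm

lemma sqsum {z : ℤ → ℂ} (hz : Sq z) (r : ℕ) :
    Summable fun j : ℤ => (j : ℝ) ^ (2 * r) * ‖z j‖ ^ 2 := by
  have s0 : Summable fun j : ℤ => ‖z j‖ := by simpa using hz.dec 0
  refine Summable.of_nonneg_of_le
    (fun j => mul_nonneg ((even_two_mul r).pow_nonneg _) (sq_nonneg _)) (fun j => ?_)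
    ((hz.dec (2 * r)).mul_left (∑' j, ‖z j‖))
  have h1 : ‖z j‖ ≤ ∑' j, ‖z j‖ := s0.le_tsum j fun i _ => norm_nonneg _
  rw [(even_two_mul r).pow_abs]
  have h2 : 0 ≤ (j : ℝ) ^ (2 * r) * ‖z j‖ :=
    mul_nonneg ((even_two_mul r).pow_nonneg _) (norm_nonneg _)
  nlinarith

lemma hsum {z : ℤ → ℂ} (hz : Sq z) (r m : ℕ) (hm : m ≤ r) (S : Finset ℤ) :
    ∑ n ∈ S, (w n ^ m * ‖z n‖) ^ 2 ≤ 2 ^ (2 * r) * (Hs m z + Hs 0 z) := by
  have s1 := sqsum hz m
  have s0 := sqsum hz 0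
  have n1 : ∀ (m : ℕ) (j : ℤ), 0 ≤ (j : ℝ) ^ (2 * m) * ‖z j‖ ^ 2 := fun m j =>
    mul_nonneg ((even_two_mul m).pow_nonneg _) (sq_nonneg _)
  have b1 := s1.sum_le_tsum S fun j _ => n1 m j
  have b0 := s0.sum_le_tsum S fun j _ => n1 0 j
  calc ∑ n ∈ S, (w n ^ m * ‖z n‖) ^ 2
      ≤ ∑ n ∈ S, 2 ^ (2 * r) * ((n : ℝ) ^ (2 * m) * ‖z n‖ ^ 2 + (n : ℝ) ^ (2 * 0) * ‖z n‖ ^ 2) := by
        refine Finset.sum_le_sum fun n _ => ?_
        have a := add_pow_le zero_le_one (abs_nonneg (n : ℝ)) (2 * m)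
        rw [one_pow, (even_two_mul m).pow_abs] at a
        have a2 : (2 : ℝ) ^ (2 * m - 1) ≤ 2 ^ (2 * r) := pow_le_pow_right₀ one_le_two (by omega)
        have a3 : 0 ≤ 1 + (n : ℝ) ^ (2 * m) :=
          add_nonneg zero_le_one ((even_two_mul m).pow_nonneg _)
        have a4 : w n ^ (2 * m) ≤ 2 ^ (2 * r) * (1 + (n : ℝ) ^ (2 * m)) :=
          a.trans (mul_le_mul_of_nonneg_right a2 a3)
        calc (w n ^ m * ‖z n‖) ^ 2 = w n ^ (2 * m) * ‖z n‖ ^ 2 := by ring
          _ ≤ 2 ^ (2 * r) * (1 + (n : ℝ) ^ (2 * m)) * ‖z n‖ ^ 2 :=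
              mul_le_mul_of_nonneg_right a4 (sq_nonneg _)
          _ = _ := by ring
    _ = 2 ^ (2 * r) * (∑ n ∈ S, (n : ℝ) ^ (2 * m) * ‖z n‖ ^ 2 +
          ∑ n ∈ S, (n : ℝ) ^ (2 * 0) * ‖z n‖ ^ 2) := by
        rw [← Finset.mul_sum, Finset.sum_add_distrib]
    _ ≤ _ := mul_le_mul_of_nonneg_left (add_le_add b1 b0) (by positivity)

lemma nd_sum (l : List ℕ) : (l.map fun j => if j ≠ 0 then 1 else 0).sum = nd l := by
  induction l with
  | nil => simp [nd]
  | cons a l ih =>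
    unfold nd at ih ⊢
    rw [List.map_cons, List.sum_cons, ih, List.countP_cons]
    by_cases h : a = 0
    · simp [h]
    · simp [h, add_comm]

end TAME

open TAME Finset in
theorem st_tame (hFOU : St_FOU) : St_TAME := by
  intro r α hr hT
  let a : Fin α.length → ℕ := fun i => α[i.1]
  have h2 : 2 ≤ Fintype.card (Fin α.length) := by rw [Fintype.card_fin]; exact hT.1
  have es : ∑ l, a l = α.sum := Fin.sum_univ_getElem α
  have en : (univ.filter fun l => a l ≠ 0).card = nd α := by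
    rw [Finset.card_filter, ← nd_sum]
    exact Fin.sum_univ_fun_getElem α fun j => if j ≠ 0 then 1 else 0
  have ha : ∑ l, a l + 1 ≤ 2 * r ∨
      (∑ l, a l = 2 * r ∧ 3 ≤ (univ.filter fun l => a l ≠ 0).card) := by
    rw [es, en]; exact hT.2
  refine ⟨2 * Real.pi * ((α.length : ℝ) ^ (2 * r - 1) * (α.length : ℝ) ^ 2 * 2 ^ (2 * r)),
    by positivity, fun k B hk hB hA => ?_⟩
  obtain ⟨hz, -, -, -, -, -, h7⟩ := hFOU k hk
  have nc : ∀ (m : ℕ) (j : ℤ), ‖fc (iteratedDeriv m k) j‖ = |(j : ℝ)| ^ m * ‖fc k j‖ := by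
    intro m j
    rw [h7, norm_mul, norm_pow, norm_mul, norm_I, one_mul, Complex.norm_intCast]
  have sA : Summable fun j : ℤ => (1 + |(j : ℝ)|) * ‖fc k j‖ := by
    have := (hz.dec 0).add (hz.dec 1)
    refine this.congr fun j => ?_
    ring
  have bd := bound (ι := Fin α.length) (fun l => fc (iteratedDeriv (a l) k))
    (fun l s => ((iteratedDeriv (a l) k s : ℝ) : ℂ))
    (fun l => by simp only [nc]; exact hz.dec _)
    (fun l s => (hFOU _ (per_deriv hk _)).2.2.2.2.2.1 s)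
    ((α.length : ℝ) ^ (2 * r - 1) * (α.length : ℝ) ^ 2 * (B ^ α.length *
      (2 ^ (2 * r) * Tm r (fc k)))) ?_
  · have e : (∫ s in (0 : ℝ)..(2 * Real.pi), ∏ l, ((iteratedDeriv (a l) k s : ℝ) : ℂ)) =
        ((mint (2 * Real.pi) α k : ℝ) : ℂ) := by
      unfold mint
      rw [← intervalIntegral.integral_ofReal]
      refine intervalIntegral.integral_congr fun s _ => ?_
      unfold mono
      rw [← Fin.prod_univ_fun_getElem α fun j => iteratedDeriv j k s]
      push_cast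
      rfl
    rw [e, Complex.norm_real, Real.norm_eq_abs] at bd
    refine bd.trans (le_of_eq ?_)
    ring
  · intro S
    have hgB : ∑ n ∈ S, w n * ‖fc k n‖ ≤ B :=
      (sA.sum_le_tsum S fun j _ => by positivity).trans hA
    have cb := comb a r hr h2 ha S (fun n => ‖fc k n‖) (fun n => norm_nonneg _) hB hgB
    rw [Fintype.card_fin] at cb
    calc _ ≤ ∑ ξ ∈ Z (Fin α.length) S, ∏ l, w (ξ l) ^ a l * ‖fc k (ξ l)‖ := by
          refine Finset.sum_le_sum fun ξ _ => Finset.prod_le_prod (fun l _ => norm_nonneg _)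
            fun l _ => ?_
          rw [nc]
          refine mul_le_mul_of_nonneg_right (pow_le_pow_left₀ (abs_nonneg _) ?_ _) (norm_nonneg _)
          unfold w; linarith
      _ ≤ _ := cb
      _ ≤ _ := by
          refine mul_le_mul_of_nonneg_left (mul_le_mul_of_nonneg_left ?_ (by positivity))
            (by positivity)
          have b1 := hsum hz r r le_rfl S
          have b2 := hsum hz r (r - 1) (Nat.sub_le _ _) S
          have n1 : 0 ≤ ∑ n ∈ S, (w n ^ r * ‖fc k n‖) ^ 2 := Finset.sum_nonneg fun _ _ => sq_nonneg _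
          have n2 : 0 ≤ ∑ n ∈ S, (w n ^ (r - 1) * ‖fc k n‖) ^ 2 :=
            Finset.sum_nonneg fun _ _ => sq_nonneg _
          refine (Real.sqrt_le_sqrt (mul_le_mul b1 b2 n2 (n1.trans b1))).trans (le_of_eq ?_)
          unfold Tm
          rw [show (2 : ℝ) ^ (2 * r) * (Hs r (fc k) + Hs 0 (fc k)) *
            (2 ^ (2 * r) * (Hs (r - 1) (fc k) + Hs 0 (fc k))) = (2 ^ (2 * r)) ^ 2 *
              ((Hs r (fc k) + Hs 0 (fc k)) * (Hs (r - 1) (fc k) + Hs 0 (fc k))) by ring,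
            Real.sqrt_mul (sq_nonneg _), Real.sqrt_sq (by positivity)]

end Pool.Agent.Lib.ISO
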