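import Pool.Agent.Lib.ISO.BlueE

/-! Bounds, derivatives and Taylor expansion for the symbols of the algebra `Wa`. -/

open scoped InnerProductSpace ENNReal ContDiff ComplexConjugate Topology
open MeasureTheory Complex Set Filter

noncomputable section

namespace Pool.Agent.Lib.ISO

open Pool.Agent.Lib.MP_312682_mp

namespace TAY

theorem P1_mem : P1 ∈ Wa := Algebra.subset_adjoin (mem_insert _ _)

theorem csy_mem (T : Y →L[ℂ] Y) : csy T ∈ Wa :=
  Algebra.subset_adjoin (mem_insert_of_mem _ (mem_insert_of_mem _ ⟨T, rfl⟩))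

theorem bound {f : Sy} (hf : f ∈ Wa) :
    ∃ C, 0 ≤ C ∧ ∃ q : ℕ, ∀ D x : ℝ, 1 ≤ D → ‖f D x‖ ≤ C * D ^ q := by
  induction hf using Algebra.adjoin_induction with
  | mem g hg =>
    rcases hg with rfl | rfl | ⟨T, rfl⟩
    · refine ⟨1, zero_le_one, 0, fun D x _ => ?_⟩
      rw [pow_zero, mul_one]
      exact Submodule.starProjection_norm_le _
    · refine ⟨‖(1 : Y →L[ℂ] Y)‖, norm_nonneg _, 1, fun D x hD => ?_⟩
      rw [Dsy, norm_smul, Complex.norm_real, Real.norm_of_nonneg (by linarith), pow_one, mul_comm]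
    · exact ⟨‖T‖, norm_nonneg _, 0, fun D x _ => by rw [pow_zero, mul_one]; rfl⟩
  | algebraMap c =>
    exact ⟨‖algebraMap ℂ (Y →L[ℂ] Y) c‖, norm_nonneg _, 0, fun D x _ => by
      rw [pow_zero, mul_one]; rfl⟩
  | add f g _ _ hf hg =>
    obtain ⟨C, hC, q, h⟩ := hf
    obtain ⟨C', hC', q', h'⟩ := hg
    refine ⟨C + C', add_nonneg hC hC', q + q', fun D x hD => ?_⟩
    have h1 : D ^ q ≤ D ^ (q + q') := pow_le_pow_right₀ hD (Nat.le_add_right _ _)
    have h2 : D ^ q' ≤ D ^ (q + q') := pow_le_pow_right₀ hD (Nat.le_add_left _ _)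
    have h3 := mul_le_mul_of_nonneg_left h1 hC
    have h4 := mul_le_mul_of_nonneg_left h2 hC'
    have h5 := norm_add_le (f D x) (g D x)
    have h6 := h D x hD
    have h7 := h' D x hD
    show ‖f D x + g D x‖ ≤ _
    linarith
  | mul f g _ _ hf hg =>
    obtain ⟨C, hC, q, h⟩ := hf
    obtain ⟨C', hC', q', h'⟩ := hg
    refine ⟨C * C', mul_nonneg hC hC', q + q', fun D x hD => ?_⟩
    have h1 : 0 ≤ C * D ^ q := mul_nonneg hC (pow_nonneg (by linarith) _)
    show ‖f D x * g D x‖ ≤ _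
    calc ‖f D x * g D x‖ ≤ ‖f D x‖ * ‖g D x‖ := norm_mul_le _ _
      _ ≤ (C * D ^ q) * (C' * D ^ q') := mul_le_mul (h D x hD) (h' D x hD) (norm_nonneg _) h1
      _ = C * C' * D ^ (q + q') := by ring

theorem der (hFIB : St_FIB) {f : Sy} (hf : f ∈ Wa) :
    ∃ f' ∈ Wa, ∀ D x : ℝ, 0 < D → HasDerivAt (f D) (f' D x) x := by
  induction hf using Algebra.adjoin_induction with
  | mem g hg =>
    rcases hg with rfl | rfl | ⟨T, rfl⟩
    · refine ⟨P1 * csy (star E1) * (1 - P1) + (1 - P1) * csy E1 * P1, ?_,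
        fun D x hD => hFIB.2.1 D x hD⟩
      exact add_mem (mul_mem (mul_mem P1_mem (csy_mem _)) (sub_mem (one_mem _) P1_mem))
        (mul_mem (mul_mem (sub_mem (one_mem _) P1_mem) (csy_mem _)) P1_mem)
    · exact ⟨0, zero_mem _, fun D x _ => hasDerivAt_const x _⟩
    · exact ⟨0, zero_mem _, fun D x _ => hasDerivAt_const x _⟩
  | algebraMap c => exact ⟨0, zero_mem _, fun D x _ => hasDerivAt_const x _⟩
  | add f g _ _ hf hg =>
    obtain ⟨f', hf', h⟩ := hf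
    obtain ⟨g', hg', h'⟩ := hg
    exact ⟨f' + g', add_mem hf' hg', fun D x hD => (h D x hD).add (h' D x hD)⟩
  | mul f g hf0 hg0 hf hg =>
    obtain ⟨f', hf', h⟩ := hf
    obtain ⟨g', hg', h'⟩ := hg
    exact ⟨f' * g + f * g', add_mem (mul_mem hf' hg0) (mul_mem hf0 hg'),
      fun D x hD => (h D x hD).mul (h' D x hD)⟩

theorem mono_der (j : ℕ) (A : Y →L[ℂ] Y) (t : ℝ) :
    HasDerivAt (fun s : ℝ => ((s : ℂ) ^ (j + 1)) • (((j + 1 : ℕ) : ℂ)⁻¹ • A)) (((t : ℂ) ^ j) • A) t := by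
  have h1 : HasDerivAt (fun s : ℝ => (s : ℂ) ^ (j + 1)) (((j + 1 : ℕ) : ℂ) * (t : ℂ) ^ j) t := by
    have := (hasDerivAt_pow (j + 1) (t : ℂ)).comp_ofReal
    simpa using this
  have h2 := h1.smul_const (((j + 1 : ℕ) : ℂ)⁻¹ • A)
  have h3 : ((j + 1 : ℕ) : ℂ) ≠ 0 := Nat.cast_ne_zero.2 (Nat.succ_ne_zero j)
  rwa [smul_smul, mul_right_comm, mul_inv_cancel₀ h3, one_mul] at h2

theorem taylor (hFIB : St_FIB) (N : ℕ) : ∀ f ∈ Wa, ∃ F : ℕ → Sy, (∀ j, F j ∈ Wa) ∧ F 0 = f ∧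
    ∃ C, 0 ≤ C ∧ ∃ q : ℕ, ∀ D x η : ℝ, 1 ≤ D →
      ‖f D (x + η) - ∑ j ∈ Finset.range N, ((η : ℂ) ^ j) • F j D x‖ ≤ C * D ^ q * |η| ^ N := by
  induction N with
  | zero =>
    intro f hf
    obtain ⟨C, hC, q, h⟩ := bound hf
    refine ⟨fun _ => f, fun _ => hf, rfl, C, hC, q, fun D x η hD => ?_⟩
    rw [Finset.sum_range_zero, sub_zero, pow_zero, mul_one]
    exact h D _ hD
  | succ N ih =>
    intro f hf
    obtain ⟨f', hf', hd⟩ := der hFIB hf
    obtain ⟨G, hG, -, C, hC, q, h⟩ := ih f' hf'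
    refine ⟨fun j => Nat.casesOn j f fun i => ((i + 1 : ℕ) : ℂ)⁻¹ • G i, fun j => ?_, rfl,
      C, hC, q, fun D x η hD => ?_⟩
    · cases j with
      | zero => exact hf
      | succ i => exact Subalgebra.smul_mem _ (hG i) _
    have hD0 : 0 < D := by linarith
    have hg : ∀ t : ℝ, HasDerivAt (fun s : ℝ => f D (x + s) -
        ∑ j ∈ Finset.range N, ((s : ℂ) ^ (j + 1)) • (((j + 1 : ℕ) : ℂ)⁻¹ • G j D x))
        (f' D (x + t) - ∑ j ∈ Finset.range N, ((t : ℂ) ^ j) • G j D x) t := fun t =>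
      ((hd D (x + t) hD0).comp_const_add x t).fun_sub
        (HasDerivAt.fun_sum fun j _ => mono_der j (G j D x) t)
    have hm := Convex.norm_image_sub_le_of_norm_hasDerivWithin_le (C := C * D ^ q * |η| ^ N)
      (s := Metric.closedBall (0 : ℝ) |η|) (x := 0) (y := η) (fun t _ => (hg t).hasDerivWithinAt)
      (fun t ht => (h D x t hD).trans (mul_le_mul_of_nonneg_left
        (pow_le_pow_left₀ (abs_nonneg t) (by simpa using ht) N)
        (mul_nonneg hC (pow_nonneg hD0.le q))))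
      (convex_closedBall _ _) (Metric.mem_closedBall_self (abs_nonneg η)) (by simp)
    rw [Finset.sum_range_succ', pow_succ |η|, ← mul_assoc]
    simp only [add_zero, Complex.ofReal_zero, ne_eq, Nat.add_eq_zero_iff, one_ne_zero, and_false,
      not_false_eq_true, zero_pow, zero_smul, Finset.sum_const_zero, sub_zero,
      Real.norm_eq_abs] at hm
    rw [pow_zero, one_smul, ← sub_sub]
    exact hm

end TAY

theorem st_tay (hFIB : St_FIB) : St_TAY := by
  intro f hf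
  obtain ⟨C, -, h⟩ := TAY.bound hf
  refine ⟨⟨C, h⟩, TAY.der hFIB hf, fun N => ?_⟩
  obtain ⟨F, h1, h2, C', -, h3⟩ := TAY.taylor hFIB N f hf
  exact ⟨F, h1, h2, C', h3⟩

end Pool.Agent.Lib.ISO
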