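import Pool.Agent.Lib.ISO.BlueE

/-! Block TRG: Riemann sums of the fibre traces. -/

open scoped InnerProductSpace ENNReal ContDiff ComplexConjugate Topology
open MeasureTheory Complex Set Filter

noncomputable section

namespace Pool.Agent.Lib.ISO

open Pool.Agent.Lib.MP_312682_mp

namespace TRG

lemma cs {ι : Type*} (u v : ι → Y) {a b : ℝ} (ha : 0 ≤ a) (hb : 0 ≤ b)
    (hu : ∀ s : Finset ι, ∑ i ∈ s, ‖u i‖ ^ 2 ≤ a ^ 2)
    (hv : ∀ s : Finset ι, ∑ i ∈ s, ‖v i‖ ^ 2 ≤ b ^ 2) :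
    (Summable fun i => ⟪u i, v i⟫_ℂ) ∧ ‖∑' i, ⟪u i, v i⟫_ℂ‖ ≤ a * b := by
  have h : ∀ s : Finset ι, ∑ i ∈ s, ‖⟪u i, v i⟫_ℂ‖ ≤ a * b := by
    intro s
    have h1 : ∑ i ∈ s, ‖⟪u i, v i⟫_ℂ‖ ≤ ∑ i ∈ s, ‖u i‖ * ‖v i‖ :=
      Finset.sum_le_sum fun i _ => norm_inner_le_norm _ _
    have h2 := Finset.sum_mul_sq_le_sq_mul_sq s (fun i => ‖u i‖) fun i => ‖v i‖
    have h3 : (∑ i ∈ s, ‖u i‖ * ‖v i‖) ^ 2 ≤ (a * b) ^ 2 := by
      rw [mul_pow]
      exact h2.trans (mul_le_mul (hu s) (hv s) (by positivity) (by positivity))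
    exact h1.trans (le_of_sq_le_sq h3 (by positivity))
  have hs : Summable fun i => ‖⟪u i, v i⟫_ℂ‖ := summable_of_sum_le (fun _ => norm_nonneg _) h
  exact ⟨hs.of_norm, (norm_tsum_le_tsum_norm hs).trans (hs.tsum_le_of_sum_le h)⟩

/-- the sandwiched operator -/
def A (D x : ℝ) (S : Y →L[ℂ] Y) : Y →L[ℂ] Y := chi1 * (p0 nu1 * P1 D x * S * P1 D x * p0 nu1)

/-- the pairing -/
def B (D x : ℝ) (q : (Y →L[ℂ] Y) × (Y →L[ℂ] Y)) : ℂ :=
  ∑' j : ℤ, ⟪A D x q.1 (f1 j), A D x q.2 (f1 j)⟫_ℂ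

lemma gip_eq (f f' : Sy) (D x : ℝ) : gip f f' D x = B D x (f D x, f' D x) := rfl

lemma norm_chi1 : ‖chi1‖ ≤ 1 :=
  sm_norm_le zero_le_one (Eventually.of_forall fun r => by
    rw [Complex.norm_real, Real.norm_eq_abs]; exact abs_chi 1 r)

lemma projP (D x : ℝ) : Proj (P1 D x) := proj_PC _

lemma sumA (hFIB : St_FIB) {D : ℝ} (hD : 0 < D) (x : ℝ) (S : Y →L[ℂ] Y) (s : Finset ℤ) :
    ∑ j ∈ s, ‖A D x S (f1 j)‖ ^ 2 ≤ (‖S‖ * (D / √(1 + x ^ 2))) ^ 2 := by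
  have h1 : HL (A D x S) (1 * (‖S‖ * (D / √(1 + x ^ 2)))) :=
    (HL.mid proj_p0 (projP D x) (hFIB.2.2.1 D x hD) le_rfl).mleft norm_chi1
  rw [one_mul] at h1
  have h2 : A D x S * p0 nu1 = A D x S := by
    unfold A
    simp only [mul_assoc, (proj_p0 (ν := nu1)).idem]
  have h3 := hasSum_frame proj_p0 hFIB.2.2.2.2.2 h2 h1.ne_top
  exact (sum_le_hasSum s (fun _ _ => by positivity) h3).trans h1.hsq_le

lemma csB (hFIB : St_FIB) {D : ℝ} (hD : 0 < D) (x : ℝ) (S T : Y →L[ℂ] Y) :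
    (Summable fun j : ℤ => ⟪A D x S (f1 j), A D x T (f1 j)⟫_ℂ) ∧
      ‖B D x (S, T)‖ ≤ D ^ 2 / (1 + x ^ 2) * ‖S‖ * ‖T‖ := by
  obtain ⟨h1, h2⟩ := cs (fun j => A D x S (f1 j)) (fun j => A D x T (f1 j)) (by positivity)
    (by positivity) (sumA hFIB hD x S) (sumA hFIB hD x T)
  refine ⟨h1, h2.trans (le_of_eq ?_)⟩
  have h3 : √(1 + x ^ 2) * √(1 + x ^ 2) = 1 + x ^ 2 := Real.mul_self_sqrt (by positivity)
  have h4 : 0 < √(1 + x ^ 2) := by positivity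
  calc _ = D ^ 2 / (√(1 + x ^ 2) * √(1 + x ^ 2)) * ‖S‖ * ‖T‖ := by field_simp
    _ = _ := by rw [h3]

lemma A_add (D x : ℝ) (S T : Y →L[ℂ] Y) : A D x (S + T) = A D x S + A D x T := by
  unfold A; noncomm_ring

lemma A_smul (D x c : ℝ) (S : Y →L[ℂ] Y) : A D x (c • S) = (c : ℂ) • A D x S := by
  have e : c • S = (c : ℂ) • S := by
    ext1 y
    exact (Complex.coe_smul c (S y)).symm
  unfold A
  rw [e]
  simp only [mul_smul_comm, smul_mul_assoc]

lemma bil (hFIB : St_FIB) {D : ℝ} (hD : 0 < D) (x : ℝ) : IsBoundedBilinearMap ℝ (B D x) where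
  add_left S S' T := by
    unfold B
    rw [← (csB hFIB hD x S T).1.tsum_add (csB hFIB hD x S' T).1]
    simp only [A_add, add_apply, inner_add_left]
  smul_left c S T := by
    unfold B
    simp only [A_smul, smul_apply, inner_smul_left, conj_ofReal, tsum_mul_left,
      Complex.real_smul]
  add_right S T T' := by
    unfold B
    rw [← (csB hFIB hD x S T).1.tsum_add (csB hFIB hD x S T').1]
    simp only [A_add, add_apply, inner_add_right]
  smul_right c S T := by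
    unfold B
    simp only [A_smul, smul_apply, inner_smul_right, tsum_mul_left,
      Complex.real_smul]
  bound := ⟨D ^ 2 / (1 + x ^ 2), by positivity, fun S T => (csB hFIB hD x S T).2⟩

/-- transported operator -/
def tr (x : ℝ) (F : ℝ → Y →L[ℂ] Y) (y : ℝ) : Y →L[ℂ] Y :=
  (1 - ((y - x : ℝ) : ℂ) • E1) * F y * (1 - ((y - x : ℝ) : ℂ) • star E1)

lemma A_shift (hFIB : St_FIB) {D : ℝ} (hD : 0 < D) (x y : ℝ) (f : Sy) :
    A D y (f D y) = A D x (tr x ((P1 * f * P1 : Sy) D) y) := by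
  have h1 := hFIB.1 D x (y - x) hD
  rw [add_sub_cancel] at h1
  have h2 := congrArg star h1
  simp only [star_mul, (projP D y).sa, (projP D x).sa, (proj_p0 (ν := nu1)).sa, star_sub, star_one,
    star_smul, RCLike.star_def, conj_ofReal] at h2
  have e : p0 nu1 * P1 D y * f D y * P1 D y * p0 nu1 =
      p0 nu1 * P1 D x * tr x ((P1 * f * P1 : Sy) D) y * P1 D x * p0 nu1 := by
    calc p0 nu1 * P1 D y * f D y * P1 D y * p0 nu1
        = (p0 nu1 * P1 D y) * f D y * (P1 D y * p0 nu1) := by simp only [mul_assoc]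
      _ = _ := by
        conv_lhs => rw [h1, h2]
        simp only [tr, Pi.mul_apply, mul_assoc]
  rw [A, A, e]

lemma tr_deriv {x : ℝ} {F : ℝ → Y →L[ℂ] Y} {F' : Y →L[ℂ] Y} (h : HasDerivAt F F' x) :
    HasDerivAt (tr x F) (F' - E1 * F x - F x * star E1) x ∧ tr x F x = F x := by
  have h0 : HasDerivAt (fun y : ℝ => ((y - x : ℝ) : ℂ)) 1 x := by
    simpa using ((hasDerivAt_id x).sub_const x).ofReal_comp
  have h1 := (h0.smul_const E1).const_sub 1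
  have h2 := (h0.smul_const (star E1)).const_sub 1
  refine ⟨?_, by simp [tr]⟩
  have h3 := (h1.mul h).mul h2
  refine HasDerivAt.congr_deriv h3 ?_
  simp only [sub_self, ofReal_zero, zero_smul, sub_zero, one_smul, mul_one, one_mul, Pi.mul_apply]
  noncomm_ring

lemma memP : P1 ∈ Wa := Algebra.subset_adjoin (mem_insert _ _)

lemma memc (T : Y →L[ℂ] Y) : csy T ∈ Wa :=
  Algebra.subset_adjoin (mem_insert_of_mem _ (mem_insert_of_mem _ ⟨T, rfl⟩))

lemma gip_deriv (hFIB : St_FIB) (hTAY : St_TAY) {f f' : Sy} (hf : f ∈ Wa) (hf' : f' ∈ Wa) :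
    ∃ a ∈ Wa, ∃ a' ∈ Wa, ∃ b ∈ Wa, ∃ b' ∈ Wa, ∀ D x : ℝ, 0 < D →
      HasDerivAt (gip f f' D) (gip a a' D x + gip b b' D x) x := by
  have m1 : P1 * f * P1 ∈ Wa := mul_mem (mul_mem memP hf) memP
  have m2 : P1 * f' * P1 ∈ Wa := mul_mem (mul_mem memP hf') memP
  obtain ⟨u, hu, du⟩ := (hTAY _ m1).2.1
  obtain ⟨u', hu', du'⟩ := (hTAY _ m2).2.1
  refine ⟨P1 * f * P1, m1, u' - csy E1 * (P1 * f' * P1) - (P1 * f' * P1) * csy (star E1),
    sub_mem (sub_mem hu' (mul_mem (memc _) m2)) (mul_mem m2 (memc _)),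
    u - csy E1 * (P1 * f * P1) - (P1 * f * P1) * csy (star E1),
    sub_mem (sub_mem hu (mul_mem (memc _) m1)) (mul_mem m1 (memc _)), P1 * f' * P1, m2,
    fun D x hD => ?_⟩
  obtain ⟨d1, e1⟩ := tr_deriv (du D x hD)
  obtain ⟨d2, e2⟩ := tr_deriv (du' D x hD)
  have h := ((bil hFIB hD x).hasFDerivAt _).comp_hasDerivAt x (d1.prodMk d2)
  have e : gip f f' D = B D x ∘ fun y =>
      (tr x ((P1 * f * P1 : Sy) D) y, tr x ((P1 * f' * P1 : Sy) D) y) := by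
    ext y
    simp only [gip_eq, B, Function.comp, A_shift hFIB hD x y f, A_shift hFIB hD x y f']
  rw [e]
  refine HasDerivAt.congr_deriv h ?_
  rw [IsBoundedBilinearMap.deriv_apply, e1, e2]
  rfl

/-- finite sums of pairings -/
def G : AddSubmonoid (ℝ → ℝ → ℂ) :=
  AddSubmonoid.closure {g | ∃ f ∈ Wa, ∃ f' ∈ Wa, g = gip f f'}

lemma gip_mem {f f' : Sy} (hf : f ∈ Wa) (hf' : f' ∈ Wa) : gip f f' ∈ G :=
  AddSubmonoid.subset_closure ⟨f, hf, f', hf', rfl⟩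

lemma G_deriv (hFIB : St_FIB) (hTAY : St_TAY) {g : ℝ → ℝ → ℂ} (hg : g ∈ G) :
    ∃ g' ∈ G, ∀ D x : ℝ, 0 < D → HasDerivAt (g D) (g' D x) x := by
  induction hg using AddSubmonoid.closure_induction with
  | mem g hg =>
    obtain ⟨f, hf, f', hf', rfl⟩ := hg
    obtain ⟨a, ha, a', ha', b, hb, b', hb', h⟩ := gip_deriv hFIB hTAY hf hf'
    exact ⟨gip a a' + gip b b', add_mem (gip_mem ha ha') (gip_mem hb hb'), h⟩
  | zero => exact ⟨0, zero_mem _, fun D x _ => hasDerivAt_const x 0⟩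
  | add g k _ _ ih1 ih2 =>
    obtain ⟨g', m1, h1⟩ := ih1
    obtain ⟨k', m2, h2⟩ := ih2
    exact ⟨g' + k', add_mem m1 m2, fun D x hD => (h1 D x hD).add (h2 D x hD)⟩

/-- symbol bound -/
def Sb (g : ℝ → ℝ → ℂ) (C : ℝ) (q : ℕ) : Prop :=
  ∀ D x : ℝ, 1 ≤ D → ‖g D x‖ ≤ C * D ^ q / (1 + x ^ 2)

lemma Sb.mono {g : ℝ → ℝ → ℂ} {C C' : ℝ} {q q' : ℕ} (h : Sb g C q) (h0 : 0 ≤ C) (h1 : C ≤ C')
    (h2 : q ≤ q') : Sb g C' q' := fun D x hD =>
  (h D x hD).trans (by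
    have := pow_le_pow_right₀ hD h2
    have : 0 ≤ C' := h0.trans h1
    gcongr)

lemma G_bd (hFIB : St_FIB) (hTAY : St_TAY) {g : ℝ → ℝ → ℂ} (hg : g ∈ G) :
    ∃ C q, 0 ≤ C ∧ Sb g C q := by
  induction hg using AddSubmonoid.closure_induction with
  | mem g hg =>
    obtain ⟨f, hf, f', hf', rfl⟩ := hg
    obtain ⟨C, q, h⟩ := (hTAY f hf).1
    obtain ⟨C', q', h'⟩ := (hTAY f' hf').1
    have c0 : 0 ≤ C := by simpa using (norm_nonneg _).trans (h 1 0 le_rfl)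
    have c0' : 0 ≤ C' := by simpa using (norm_nonneg _).trans (h' 1 0 le_rfl)
    refine ⟨C * C', q + q' + 2, by positivity, fun D x hD => ?_⟩
    have hD0 : 0 < D := by linarith
    rw [gip_eq]
    refine (csB hFIB hD0 x _ _).2.trans ?_
    calc D ^ 2 / (1 + x ^ 2) * ‖f D x‖ * ‖f' D x‖
        ≤ D ^ 2 / (1 + x ^ 2) * (C * D ^ q) * (C' * D ^ q') := by
          gcongr
          exacts [h D x hD, h' D x hD]
      _ = _ := by ring
  | zero => exact ⟨0, 0, le_rfl, fun D x _ => by simp⟩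
  | add g k _ _ ih1 ih2 =>
    obtain ⟨C, q, c0, h1⟩ := ih1
    obtain ⟨C', q', c0', h2⟩ := ih2
    refine ⟨C + C', q + q', by positivity, fun D x hD => ?_⟩
    have a1 := h1.mono c0 le_rfl (Nat.le_add_right q q') D x hD
    have a2 := h2.mono c0' le_rfl (Nat.le_add_left q' q) D x hD
    refine ((norm_add_le _ _).trans (add_le_add a1 a2)).trans (le_of_eq ?_)
    ring

lemma chain (hFIB : St_FIB) (hTAY : St_TAY) {g : ℝ → ℝ → ℂ} (hg : g ∈ G) :
    ∃ k : ℕ → ℝ → ℝ → ℂ, k 0 = g ∧ (∀ j, k j ∈ G) ∧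
      ∀ j (D x : ℝ), 0 < D → HasDerivAt (k j D) (k (j + 1) D x) x := by
  have h : ∀ a : G, ∃ b : G, ∀ D x : ℝ, 0 < D → HasDerivAt (a.1 D) (b.1 D x) x := fun a => by
    obtain ⟨b, hb, h⟩ := G_deriv hFIB hTAY a.2
    exact ⟨⟨b, hb⟩, h⟩
  choose d hd using h
  refine ⟨fun j => (d^[j] ⟨g, hg⟩).1, rfl, fun j => (d^[j] ⟨g, hg⟩).2, fun j D x hD => ?_⟩
  simp only [Function.iterate_succ_apply']
  exact hd _ D x hD

end TRG

open TRG in
theorem st_trg (hFIB : St_FIB) (hTAY : St_TAY) (hPOI : St_POI) : St_TRG := by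
  intro f hf f' hf' N
  obtain ⟨k, k0, km, kd⟩ := chain hFIB hTAY (gip_mem hf hf')
  choose C q c0 hb using fun j => G_bd hFIB hTAY (km j)
  obtain ⟨c, hc⟩ := hPOI N
  set C1 := ∑ j ∈ Finset.range (N + 3), C j with hC1
  set q1 := ∑ j ∈ Finset.range (N + 3), q j with hq1
  have C0 : 0 ≤ C1 := Finset.sum_nonneg fun j _ => c0 j
  have hb1 : ∀ j ≤ N + 2, Sb (k j) C1 q1 := fun j hj =>
    (hb j).mono (c0 j)
      (Finset.single_le_sum (fun i _ => c0 i) (Finset.mem_range.2 (by omega)))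
      (Finset.single_le_sum (fun i _ => Nat.zero_le (q i)) (Finset.mem_range.2 (by omega)))
  refine ⟨fun D => ∫ x, gip f f' D x, (Real.pi + |c|) * C1, q1, fun D hD => ⟨?_, fun h h0 h1 => ?_⟩⟩
  · have hD0 : 0 < D := by linarith
    have i1 : Integrable fun x : ℝ => C1 * D ^ q1 * (1 + x ^ 2)⁻¹ :=
      integrable_inv_one_add_sq.const_mul _
    have i2 := norm_integral_le_of_norm_le (f := gip f f' D) i1 (Eventually.of_forall fun x => by
      have := hb1 0 (by omega) D x hD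
      rwa [k0, div_eq_mul_inv] at this)
    rw [integral_const_mul, integral_univ_inv_one_add_sq] at i2
    refine i2.trans ?_
    have : 0 ≤ |c| * C1 * D ^ q1 := by positivity
    nlinarith
  · have hD0 : 0 < D := by linarith
    have := (hc (fun j => k j D) (C1 * D ^ q1) h (fun j x => kd j D x hD0)
      (fun j hj x => hb1 j hj D x hD) h0 h1).2
    simp only [k0] at this
    refine this.trans ?_
    have a1 : c ≤ Real.pi + |c| := (le_abs_self c).trans (le_add_of_nonneg_left Real.pi_pos.le)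
    calc c * (C1 * D ^ q1) * h ^ N ≤ (Real.pi + |c|) * (C1 * D ^ q1) * h ^ N := by gcongr
      _ = _ := by ring

end Pool.Agent.Lib.ISO
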