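import Pool.Agent.Lib.ISO.Main
import Pool.Agent.Lib.ISO.B_GAM
import Pool.Agent.Lib.ISO.B_K8
import Pool.Agent.Lib.ISO.B_IBP
import Pool.Agent.Lib.ISO.B_POI
import Pool.Agent.Lib.ISO.B_LIM
import Pool.Agent.Lib.ISO.B_FOU
import Pool.Agent.Lib.ISO.B_TAME
import Pool.Agent.Lib.ISO.B_MAS
import Pool.Agent.Lib.ISO.B_RD
import Pool.Agent.Lib.ISO.B_K4
import Pool.Agent.Lib.ISO.B_DM
import Pool.Agent.Lib.ISO.B_K5
import Pool.Agent.Lib.ISO.B_K6
import Pool.Agent.Lib.ISO.B_K7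
import Pool.Agent.Lib.ISO.B_EMB
import Pool.Agent.Lib.ISO.B_BAIRE
import Pool.Agent.Lib.ISO.B_OPEN
import Pool.Agent.Lib.ISO.B_DENSE
import Pool.Agent.Lib.ISO.B_FIB
import Pool.Agent.Lib.ISO.B_TAY
import Pool.Agent.Lib.ISO.B_TRG
import Pool.Agent.Lib.ISO.B_OP
import Pool.Agent.Lib.ISO.B_COM
import Pool.Agent.Lib.ISO.B_NF
import Pool.Agent.Lib.ISO.B_COL
import Pool.Agent.Lib.ISO.B_FLAT
import Pool.Agent.Lib.ISO.B_DOM
import Pool.Agent.Lib.ISO.B_ASM
import Pool.Agent.Lib.ISO.B_MIR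
import Pool.Agent.Lib.ISO.B_EXP
import Pool.Agent.Lib.ISO.B_GEO1
import Pool.Agent.Lib.ISO.B_SCL
import Pool.Agent.Lib.ISO.B_CONG
import Pool.Agent.Lib.ISO.B_ODE
import Pool.Agent.Lib.ISO.B_PAIR
import Pool.Agent.Lib.ISO.B_BND
import Pool.Agent.Lib.ISO.B_SYC
import Pool.Agent.Lib.ISO.B_SYM
import Pool.Agent.Lib.ISO.B_RIC
import Pool.Agent.Lib.ISO.B_BUB
import Pool.Agent.Lib.ISO.B_QV
import Pool.Agent.Lib.ISO.B_PS1
import Pool.Agent.Lib.ISO.B_PS2
import Pool.Agent.Lib.ISO.B_PSI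
import Pool.Agent.Lib.ISO.B_CHT
import Pool.Agent.Lib.ISO.B_SEC
import Pool.Agent.Lib.ISO.B_SUM
import Pool.Agent.Lib.ISO.B_RP
import Pool.Agent.Lib.ISO.B_QF
import Pool.Agent.Lib.ISO.B_JET
import Pool.Agent.Lib.ISO.B_GEO
import Pool.Agent.Lib.ISO.B_COEF
import Pool.Agent.Lib.ISO.B_INV

/-! All blocks together. -/

namespace Pool.Agent.Lib.ISO.All

theorem a_tame : St_TAME := st_tame st_fou
theorem a_k4 : St_K4 := st_k4 st_mas st_rd st_k8
theorem a_dm : St_DM := st_dm a_k4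
theorem a_baire : St_BAIRE := st_baire st_emb
theorem a_open : St_OPEN := st_open st_fou
theorem a_dense : St_DENSE := st_dense st_emb st_fou a_open
theorem a_tay : St_TAY := st_tay st_fib
theorem a_trg : St_TRG := st_trg st_fib a_tay st_poi
theorem a_op : St_OP := st_op st_fib
theorem a_com : St_COM := st_com a_tay a_op
theorem a_nf : St_NF := st_nf st_fib a_tay a_op a_com
theorem a_col : St_COL := st_col st_fib a_tay a_trg a_op a_nf
theorem a_flat : St_FLAT := st_flat st_poi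
theorem a_asm : St_ASM := st_asm a_col a_flat
theorem a_exp : St_EXP := st_exp a_asm st_lim st_mir st_ibp
theorem a_sym : St_SYM := st_sym st_syc
theorem a_ric : St_RIC := st_ric st_syc
theorem a_bub : St_BUB := st_bub st_poi
theorem a_ps1 : St_PS1 := st_ps1 st_qv st_bnd st_syc a_ric
theorem a_ps2 : St_PS2 := st_ps2 st_syc a_bub
theorem a_psi : St_PSI := st_psi a_sym a_ps1 a_ps2
theorem a_sec : St_SEC := st_sec st_qv st_cht
theorem a_sum : St_SUM := st_sum st_qv st_pair st_bnd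
theorem a_geo : St_GEO := st_geo st_rp st_qf st_jet
theorem a_coef : St_COEF := st_coef st_qv st_ode a_psi a_sec a_sum st_jet a_geo st_gam
theorem a_inv : St_INV := st_inv a_exp a_coef st_dom

theorem generic : St_MAIN :=
  st_main a_inv a_tame st_fou st_scl a_dm st_k5 st_k6 st_k7 a_baire a_open a_dense st_geo1 st_cong

end Pool.Agent.Lib.ISO.All
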