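import Pool.Agent.Lib.ISO.BlueK

/-! Block K4, part 1: weighted sums and pointwise comparison of the weights. -/

open scoped ComplexConjugate

noncomputable section

namespace Pool.Agent.Lib.ISO.K4

/-- rapid decay -/
def Dec (z : ℤ → ℂ) : Prop := ∀ r : ℕ, Summable fun j : ℤ => |(j : ℝ)| ^ r * ‖z j‖

variable {z : ℤ → ℂ} {W : ℕ}

lemma Dec.zero (h : Dec z) : Summable fun j => ‖z j‖ := by simpa using h 0

lemma Dec.sq (h : Dec z) (r : ℕ) : Summable fun j : ℤ => |(j : ℝ)| ^ r * ‖z j‖ ^ 2 := by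
  refine Summable.of_nonneg_of_le (fun j => by positivity) (fun j => ?_)
    ((h r).mul_right (∑' j, ‖z j‖))
  rw [pow_two, ← mul_assoc]
  exact mul_le_mul_of_nonneg_left (h.zero.le_tsum j fun _ _ => norm_nonneg _) (by positivity)

lemma yy_nonneg (W : ℕ) (ξ : ℤ) : 0 ≤ yy W ξ := by unfold yy; positivity

lemma Dec.yy (h : Dec z) (W e : ℕ) : Summable fun j : ℤ => yy W j ^ e * ‖z j‖ ^ 2 := by
  refine ((h.sq (2 * e)).mul_left ((((W : ℝ) ^ 4)⁻¹) ^ e)).congr fun j => ?_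
  rw [ISO.yy, pow_mul, sq_abs, div_eq_mul_inv, mul_pow]
  ring

lemma sum_Hi (h : Dec z) (e W : ℕ) :
    HasSum (fun ξ : ℤ => if (W : ℤ) < |ξ| then yy W ξ ^ e * ‖z ξ‖ ^ 2 else 0) (Hi e W z) := by
  refine (Summable.of_nonneg_of_le (fun j => ?_) (fun j => ?_) (h.yy W e)).hasSum
  all_goals
    have := yy_nonneg W j
    split_ifs
    all_goals first | positivity | exact le_rfl

lemma sum_Jk (h : Dec z) (m W : ℕ) :
    HasSum (fun ξ : ℤ => if (W : ℤ) < |ξ| ∧ (W : ℤ) ^ 2 < 2 * |(|ξ| - (W : ℤ) ^ 2)| then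
      (yy W ξ ^ m + yy W ξ ^ (m + 4)) * ‖z ξ‖ ^ 2 else 0) (Jk m W z) := by
  refine (Summable.of_nonneg_of_le (fun j => ?_) (fun j => ?_)
    ((h.yy W m).add (h.yy W (m + 4)))).hasSum
  all_goals
    have := yy_nonneg W j
    split_ifs
    all_goals first | positivity | exact le_rfl | exact (add_mul _ _ _).le

lemma cast_near {ξ : ℤ} (h : 2 * |(|ξ| - (W : ℤ) ^ 2)| ≤ (W : ℤ) ^ 2) :
    2 * |(|(ξ : ℝ)| - (W : ℝ) ^ 2)| ≤ (W : ℝ) ^ 2 := by exact_mod_cast h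

lemma sum_Nr (h : Dec z) (W : ℕ) :
    HasSum (fun ξ : ℤ => if 2 * |(|ξ| - (W : ℤ) ^ 2)| ≤ (W : ℤ) ^ 2 then
      (1 + (|(ξ : ℝ)| - (W : ℝ) ^ 2) ^ 2) * ‖z ξ‖ ^ 2 else 0) (Nr W z) := by
  refine (Summable.of_nonneg_of_le (fun j => ?_) (fun j => ?_)
    ((h.sq 0).mul_left (1 + ((W : ℝ) ^ 2) ^ 2))).hasSum
  · split_ifs
    · positivity
    · exact le_rfl
  · split_ifs with h1
    · have h2 := cast_near h1
      rw [pow_zero, one_mul]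
      refine mul_le_mul_of_nonneg_right ?_ (by positivity)
      have h3 := abs_nonneg (|(j : ℝ)| - (W : ℝ) ^ 2)
      rw [← sq_abs (|(j : ℝ)| - (W : ℝ) ^ 2)]
      nlinarith
    · positivity

lemma mem_win {t : ℤ} : t ∈ win W ↔ |t| ≤ W := by rw [win, Finset.mem_Icc, abs_le]

lemma sum_win (h : Sq z) (hW : 4 ≤ W) (e : ℕ) :
    HasSum (fun ξ : ℤ => if |(|ξ| - (W : ℤ) ^ 2)| ≤ W then
      (|(ξ : ℝ)| - (W : ℝ) ^ 2) ^ e * ‖z ξ‖ ^ 2 else 0) (2 * mom e (sh z W 1) W) := by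
  let f : ℤ → ℝ := fun ξ => if ξ - (W : ℤ) ^ 2 ∈ win W then
    ((ξ : ℝ) - (W : ℝ) ^ 2) ^ e * ‖z ξ‖ ^ 2 else 0
  have h1 : HasSum f (mom e (sh z W 1) W) := by
    rw [← (Equiv.addLeft ((W : ℤ) ^ 2)).hasSum_iff]
    have h2 := hasSum_sum_of_ne_finset_zero (f := f ∘ Equiv.addLeft ((W : ℤ) ^ 2)) (s := win W)
      (L := SummationFilter.unconditional ℤ) fun t ht => by simp [f, ht]
    have h3 : ∑ t ∈ win W, (f ∘ Equiv.addLeft ((W : ℤ) ^ 2)) t = mom e (sh z W 1) W :=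
      Finset.sum_congr rfl fun t ht => by simp [f, ht, sh]
    rwa [h3] at h2
  have h2 : HasSum (f ∘ Equiv.neg ℤ) (mom e (sh z W 1) W) := (Equiv.neg ℤ).hasSum_iff.2 h1
  rw [two_mul]
  have h3 := h1.add h2
  refine (congrArg (fun g => HasSum g _) (funext fun ξ => ?_)).mp h3
  have hW' : (4 : ℤ) ≤ W := by exact_mod_cast hW
  have h4 : (W : ℤ) < (W : ℤ) ^ 2 := by nlinarith
  simp only [f, Function.comp_apply, Equiv.neg_apply, mem_win, h.cj, Complex.norm_conj]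
  rcases le_total 0 ξ with h5 | h5
  · have h6 : ¬|-ξ - (W : ℤ) ^ 2| ≤ W := by rw [abs_le]; omega
    rw [if_neg h6, add_zero, abs_of_nonneg h5, abs_of_nonneg (show (0 : ℝ) ≤ ξ by exact_mod_cast h5)]
  · have h6 : ¬|ξ - (W : ℤ) ^ 2| ≤ W := by rw [abs_le]; omega
    rw [if_neg h6, zero_add, abs_of_nonpos h5, abs_of_nonpos (show (ξ : ℝ) ≤ 0 by exact_mod_cast h5),
      Int.cast_neg]

/-- finite differences -/
def fd (f : ℕ → ℝ) : ℕ → ℝ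
  | 0 => f 0
  | 1 => f 1 - f 0
  | 2 => f 2 - 2 * f 1 + f 0
  | 3 => f 3 - 3 * f 2 + 3 * f 1 - f 0
  | _ => f 4 - 4 * f 3 + 6 * f 2 - 4 * f 1 + f 0

lemma fd_le {f : ℕ → ℝ} {R : ℝ} (h : ∀ i ≤ 4, |f i| ≤ R) (k : ℕ) : |fd f k| ≤ 16 * R := by
  have h0 := abs_le.1 (h 0 (by norm_num))
  have h1 := abs_le.1 (h 1 (by norm_num))
  have h2 := abs_le.1 (h 2 (by norm_num))
  have h3 := abs_le.1 (h 3 (by norm_num))
  have h4 := abs_le.1 (h 4 (by norm_num))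
  rw [abs_le]
  unfold fd
  split <;> constructor <;> linarith

lemma fd_lin (f g h : ℕ → ℝ) (c : ℝ) (k : ℕ) :
    fd (fun i => f i - g i + c * h i) k = fd f k - fd g k + c * fd h k := by
  unfold fd
  split <;> ring

def pl (c0 c1 c2 c3 c4 x : ℝ) : ℝ := c0 + c1 * x + c2 * x ^ 2 + c3 * x ^ 3 + c4 * x ^ 4

lemma near_facts (m : ℕ) {s : ℝ} (hs : |s| ≤ 1 / 2) : (1 / 4 : ℝ) ^ m ≤ ((1 + s) ^ 2) ^ m ∧
    ((1 + s) ^ 2) ^ m ≤ 3 ^ m ∧ |((1 + s) ^ 2) ^ m - 1| ≤ 3 * m * 3 ^ m * |s| := by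
  obtain ⟨h1, h2⟩ := abs_le.1 hs
  have h3 : (1 + s) ^ 2 ≤ 3 := by nlinarith
  refine ⟨pow_le_pow_left₀ (by norm_num) (by nlinarith) m, pow_le_pow_left₀ (by positivity) h3 m, ?_⟩
  have h4 := abs_pow_sub_pow_le ((1 + s) ^ 2) 1 m
  rw [one_pow] at h4
  refine h4.trans ?_
  have h5 : |(1 + s) ^ 2 - 1| ≤ 3 * |s| := by
    rw [show (1 + s) ^ 2 - 1 = (2 + s) * s by ring, abs_mul]
    exact mul_le_mul_of_nonneg_right (abs_le.2 ⟨by linarith, by linarith⟩) (abs_nonneg s)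
  have h6 : max |(1 + s) ^ 2| |(1 : ℝ)| ^ (m - 1) ≤ 3 ^ m := by
    refine (pow_le_pow_left₀ (by positivity) (max_le ?_ (by norm_num)) _).trans
      (pow_le_pow_right₀ (by norm_num) (Nat.sub_le m 1))
    rwa [abs_of_nonneg (by positivity)]
  calc |(1 + s) ^ 2 - 1| * m * max |(1 + s) ^ 2| |(1 : ℝ)| ^ (m - 1) ≤ 3 * |s| * m * 3 ^ m := by
        gcongr
    _ = 3 * m * 3 ^ m * |s| := by ring

lemma far_facts {y : ℝ} (h0 : 0 ≤ y) (h : y ≤ 1 / 4 ∨ 9 / 4 ≤ y) :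
    1 / 2 ≤ (y - 1) ^ 2 ∧ (y - 1) ^ 4 ≤ 1 + y ^ 4 ∧ 1 + y ^ 4 ≤ 9 * (1 + (y - 1) ^ 4) := by
  refine ⟨by rcases h with h | h <;> nlinarith, ?_, ?_⟩
  · rcases h with h | h
    · have h1 : (y - 1) ^ 2 ≤ 1 := by nlinarith
      have h2 : 0 ≤ y ^ 4 := by positivity
      nlinarith [sq_nonneg (y - 1)]
    · have h1 : (y - 1) ^ 4 ≤ y ^ 4 := pow_le_pow_left₀ (by linarith) (by linarith) 4
      linarith
  · have h1 : y ^ 2 ≤ 2 * (1 + (y - 1) ^ 2) := by nlinarith [sq_nonneg (y - 2)]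
    have h2 : (y ^ 2) ^ 2 ≤ (2 * (1 + (y - 1) ^ 2)) ^ 2 := pow_le_pow_left₀ (by positivity) h1 2
    nlinarith [sq_nonneg ((y - 1) ^ 2 - 1), sq_nonneg ((y - 1) ^ 2)]

lemma pos (h : Sq z) (hW : 4 ≤ W) (m : ℕ) (c0 c1 c2 c3 c4 d0 d1 d2 cO cJ : ℝ)
    (hw : ∀ s Y : ℝ, |s| ≤ (W : ℝ)⁻¹ → |s| ≤ 1 / 2 → (1 / 4 : ℝ) ^ m ≤ Y → Y ≤ 3 ^ m →
      |Y - 1| ≤ 3 * m * 3 ^ m * |s| →
      0 ≤ Y * pl c0 c1 c2 c3 c4 (2 * s + s ^ 2) + (d0 + d1 * (W ^ 2 * s) + d2 * (W ^ 2 * s) ^ 2))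
    (ho : ∀ s Y : ℝ, (W : ℝ)⁻¹ ≤ |s| → |s| ≤ 1 / 2 → (1 / 4 : ℝ) ^ m ≤ Y → Y ≤ 3 ^ m →
      0 ≤ Y * pl c0 c1 c2 c3 c4 (2 * s + s ^ 2) + cO * (1 + (W ^ 2 * s) ^ 2))
    (hf : ∀ x F : ℝ, 1 / 2 ≤ x ^ 2 → 1 ≤ F → x ^ 4 ≤ F → F ≤ 9 * (1 + x ^ 4) →
      0 ≤ pl c0 c1 c2 c3 c4 x + cJ * F) :
    0 ≤ c0 * fd (fun i => Hi (m + i) W z) 0 + c1 * fd (fun i => Hi (m + i) W z) 1 +
      c2 * fd (fun i => Hi (m + i) W z) 2 + c3 * fd (fun i => Hi (m + i) W z) 3 +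
      c4 * fd (fun i => Hi (m + i) W z) 4 + 2 * (d0 * mom 0 (sh z W 1) W + d1 * mom 1 (sh z W 1) W +
      d2 * mom 2 (sh z W 1) W) + cO * (Nr W z - 2 * mom 0 (sh z W 1) W - 2 * mom 2 (sh z W 1) W) +
      cJ * Jk m W z := by
  have H := fun i => sum_Hi h.dec (m + i) W
  have S := (((((((((((H 0).mul_left (c0 - c1 + c2 - c3 + c4)).add
    ((H 1).mul_left (c1 - 2 * c2 + 3 * c3 - 4 * c4))).add
    ((H 2).mul_left (c2 - 3 * c3 + 6 * c4))).add ((H 3).mul_left (c3 - 4 * c4))).add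
    ((H 4).mul_left c4)).add ((sum_win h hW 0).mul_left (d0 - cO))).add
    ((sum_win h hW 1).mul_left d1)).add ((sum_win h hW 2).mul_left (d2 - cO))).add
    ((sum_Nr h.dec W).mul_left cO)).add ((sum_Jk h.dec m W).mul_left cJ))
  refine le_of_le_of_eq (S.nonneg fun ξ => ?_) (by simp only [fd]; ring)
  have hW' : (4 : ℤ) ≤ W := by exact_mod_cast hW
  have hw4 : (4 : ℝ) ≤ W := by exact_mod_cast hW
  have hw0 : (0 : ℝ) < W := by linarith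
  have hq : 4 * (W : ℤ) ≤ (W : ℤ) ^ 2 := by nlinarith
  have ha : 0 ≤ ‖z ξ‖ ^ 2 := by positivity
  obtain ⟨s, hs⟩ : ∃ s : ℝ, |(ξ : ℝ)| - (W : ℝ) ^ 2 = W ^ 2 * s :=
    ⟨(|(ξ : ℝ)| - (W : ℝ) ^ 2) / W ^ 2, by field_simp⟩
  have hy : yy W ξ = (1 + s) ^ 2 := by
    rw [yy, ← sq_abs, show |(ξ : ℝ)| = W ^ 2 * (1 + s) by linarith]
    field_simp
  have hab : |(|(ξ : ℝ)| - (W : ℝ) ^ 2)| = W ^ 2 * |s| := by
    rw [hs, abs_mul, abs_of_nonneg (by positivity)]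
  have hhalf : 2 * |(|ξ| - (W : ℤ) ^ 2)| ≤ (W : ℤ) ^ 2 → |s| ≤ 1 / 2 := fun h1 => by
    have h2 := cast_near h1
    rw [hab] at h2
    refine le_of_mul_le_mul_left (a := (W : ℝ) ^ 2) (by linarith) (by positivity)
  have hinv : (W : ℝ) ^ 2 * (W : ℝ)⁻¹ = W := by field_simp
  by_cases k1 : (W : ℤ) < |ξ|
  swap
  · have k2 : ¬|(|ξ| - (W : ℤ) ^ 2)| ≤ W := by rw [abs_le]; omega
    have k3 : ¬2 * |(|ξ| - (W : ℤ) ^ 2)| ≤ (W : ℤ) ^ 2 := by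
      rw [abs_of_nonpos (by omega)]; omega
    simp only [k1, k2, k3, if_false, false_and, mul_zero, add_zero, le_refl]
  by_cases k3 : 2 * |(|ξ| - (W : ℤ) ^ 2)| ≤ (W : ℤ) ^ 2
  · have k4 := not_lt.2 k3
    obtain ⟨f1, f2, f3⟩ := near_facts m (hhalf k3)
    by_cases k2 : |(|ξ| - (W : ℤ) ^ 2)| ≤ W
    · have k5 : |(|(ξ : ℝ)| - (W : ℝ) ^ 2)| ≤ W := by exact_mod_cast k2
      rw [hab] at k5
      have := hw s _ (le_of_mul_le_mul_left (a := (W : ℝ) ^ 2) (by rwa [hinv]) (by positivity))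
        (hhalf k3) f1 f2 f3
      simp only [k1, k2, k3, k4, if_true, and_false, if_false, hy, hs]
      refine le_of_le_of_eq (mul_nonneg this ha) ?_
      simp only [pl, pow_add]
      ring
    · have k5 : (W : ℝ) ≤ |(|(ξ : ℝ)| - (W : ℝ) ^ 2)| := by exact_mod_cast (not_le.1 k2).le
      rw [hab] at k5
      have := ho s _ (le_of_mul_le_mul_left (a := (W : ℝ) ^ 2) (by rwa [hinv]) (by positivity))
        (hhalf k3) f1 f2
      simp only [k1, k2, k3, k4, if_true, and_false, if_false, hy, hs]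
      refine le_of_le_of_eq (mul_nonneg this ha) ?_
      simp only [pl, pow_add]
      ring
  · have k4 := not_le.1 k3
    have k2 : ¬|(|ξ| - (W : ℤ) ^ 2)| ≤ W := by omega
    have k5 : (W : ℝ) ^ 2 ≤ 2 * |(|(ξ : ℝ)| - (W : ℝ) ^ 2)| := by exact_mod_cast k4.le
    rw [hab] at k5
    have k6 : 1 / 2 ≤ |s| := le_of_mul_le_mul_left (a := (W : ℝ) ^ 2) (by linarith) (by positivity)
    have k7 : 0 ≤ 1 + s := by
      refine le_of_mul_le_mul_left (a := (W : ℝ) ^ 2) ?_ (by positivity)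
      linarith [abs_nonneg (ξ : ℝ)]
    have y0 := yy_nonneg W ξ
    obtain ⟨f1, f2, f3⟩ := far_facts y0 (by
      rw [hy]
      rcases le_abs.1 k6 with k | k
      · right; nlinarith
      · left; nlinarith)
    have := hf _ _ f1 (le_add_of_nonneg_right (by positivity)) f2 f3
    simp only [k1, k2, k3, k4, if_true, and_true, if_false]
    refine le_of_le_of_eq (mul_nonneg (mul_nonneg (pow_nonneg y0 m) this) ha) ?_
    simp only [pl, pow_add]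
    ring

end Pool.Agent.Lib.ISO.K4
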