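import Pool.Agent.Lib.ISO.B_K42

/-! Block K4, part 3: orders of magnitude and the comparison of the normalised sums. -/

open Filter Asymptotics Topology

noncomputable section

namespace Pool.Agent.Lib.ISO.K4

variable {ι : Type} {l : Filter ι} {v f g h : ι → ℝ} {n k : ℕ}

/-- `f` has the order of `v ^ n` -/
def Ov (l : Filter ι) (v : ι → ℝ) (n : ℕ) (f : ι → ℝ) : Prop := IsBigO l f fun i => v i ^ n

lemma Ov.add (h1 : Ov l v n f) (h2 : Ov l v n g) : Ov l v n fun i => f i + g i := IsBigO.add h1 h2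

lemma Ov.sub (h1 : Ov l v n f) (h2 : Ov l v n g) : Ov l v n fun i => f i - g i := IsBigO.sub h1 h2

lemma Ov.cmul (h1 : Ov l v n f) (c : ℝ) : Ov l v n fun i => c * f i := IsBigO.const_mul_left h1 c

lemma Ov.pow (n : ℕ) : Ov l v n fun i => v i ^ n := isBigO_refl _ _

lemma Ov.mul (h1 : Ov l v k f) (h2 : Ov l v n g) : Ov l v (k + n) fun i => f i * g i :=
  (IsBigO.mul h1 h2).congr_right fun _ => (pow_add _ _ _).symm

lemma Ov.vmul (h1 : Ov l v n f) (k : ℕ) : Ov l v (k + n) fun i => v i ^ k * f i := (Ov.pow k).mul h1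

lemma Ov.one : Ov l v 1 v := (Ov.pow 1).congr_left fun _ => pow_one _

lemma Ov.const (c : ℝ) : Ov l v 0 fun _ => c :=
  ((Ov.pow (l := l) (v := v) 0).cmul c).congr_left fun i => by simp

lemma Ov.mono (hv : Tendsto v l (𝓝 0)) (h1 : Ov l v n f) (hk : k ≤ n) : Ov l v k f := by
  refine IsBigO.trans h1 (IsBigO.of_bound 1 ?_)
  filter_upwards [(continuous_abs.tendsto' 0 0 abs_zero).comp hv |>.eventually_le_const one_pos]
    with i hi
  rw [one_mul, norm_pow, norm_pow]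
  exact pow_le_pow_of_le_one (norm_nonneg _) hi hk

lemma Ov.of_le (h1 : Ov l v n g) (h2 : ∀ i, |f i| ≤ g i) : Ov l v n f :=
  IsBigO.trans (isBigO_of_le l fun i => (h2 i).trans (le_abs_self _)) h1

lemma Ov.cancel (v0 : ∀ i, 0 < v i) (h1 : Ov l v (k + n) fun i => v i ^ k * f i) : Ov l v n f := by
  obtain ⟨c, hc⟩ := IsBigO.bound h1
  refine IsBigO.of_bound c (hc.mono fun i hi => ?_)
  rw [pow_add, norm_mul, norm_mul, mul_left_comm] at hi
  exact le_of_mul_le_mul_left hi (norm_pos_iff.2 (pow_pos (v0 i) k).ne')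

lemma Ov.div (v0 : ∀ i, 0 < v i) (h1 : Ov l v (k + n) f) :
    ∃ g, Ov l v n g ∧ ∀ i, v i ^ k * g i = f i := by
  have h2 : ∀ i, v i ^ k * (f i / v i ^ k) = f i := fun i => mul_div_cancel₀ _ (pow_pos (v0 i) k).ne'
  exact ⟨_, Ov.cancel v0 (h1.congr_left fun i => (h2 i).symm), h2⟩

lemma Ov.small (hv : Tendsto v l (𝓝 0)) (h1 : Ov l v 1 f) {η : ℝ} (hη : 0 < η) :
    ∀ᶠ i in l, |f i| ≤ η := by
  have h2 : Tendsto f l (𝓝 0) := IsBigO.trans_tendsto h1 (by simpa using hv)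
  exact ((continuous_abs.tendsto' 0 0 abs_zero).comp h2).eventually_le_const hη

lemma Ov.absorb (hv : Tendsto v l (𝓝 0)) {γ : ℝ} (hγ : 0 < γ) (h1 : Ov l v n g) (h2 : Ov l v 1 h)
    (f0 : ∀ i, 0 ≤ f i) (hle : ∀ i, γ * f i ≤ g i + h i * f i) : Ov l v n f := by
  refine IsBigO.trans (IsBigO.of_bound (2 / γ) ?_) h1
  filter_upwards [h2.small hv (half_pos hγ)] with i hi
  rw [Real.norm_eq_abs, Real.norm_eq_abs, abs_of_nonneg (f0 i), div_mul_eq_mul_div, le_div_iff₀ hγ]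
  have h3 := mul_le_mul_of_nonneg_right (abs_le.1 hi).2 (f0 i)
  linarith [hle i, le_abs_self (g i)]

lemma core {γ Λ μ β K : ℝ} {σ : ℕ → ℝ} {x y : ι → Q} {δ : ι → ℝ} (hγ : 0 < γ) (hμ : 0 ≤ μ)
    (hβ : 0 ≤ β) (hK : 0 ≤ K) (v0 : ∀ i, 0 < v i) (hv : Tendsto v l (𝓝 0))
    (hx : ∀ i, Ineq γ Λ μ (v i) (x i)) (hy : ∀ i, Ineq γ Λ μ (v i) (y i))
    (hn : Ov l v 0 fun i => (x i).n) (hj : Ov l v 8 fun i => (x i).j)
    (ho : Ov l v 1 fun i => (x i).n - 2 * (x i).m 0 - 2 * (x i).m 2)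
    (hδ : ∀ i, |δ i| ≤ β * ((y i).m 0 + (x i).m 0))
    (hD : ∀ i k, |(y i).e k - (x i).e k + 2 * σ k * (v i ^ 4 * δ i)| ≤
      K * (v i * (v i ^ 4 * (x i).n + (x i).j) + v i * (v i ^ 4 * (y i).n + (y i).j) + 2 * v i ^ 8))
    (s2 : σ 2 ≤ -μ) (s3 : μ ≤ σ 2 - 2 * μ * σ 3 + μ ^ 2 * σ 4) :
    Ov l v 0 (fun i => (y i).n) ∧ Ov l v 4 (fun i => (y i).j) ∧
      Ov l v 1 (fun i => (y i).m 0 - (x i).m 0) ∧ Ov l v 1 (fun i => (y i).m 1 - (x i).m 1) ∧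
      ∃ g, Ov l v 1 g ∧ ∀ i, 4 * (y i).m 2 + μ * |δ i| ≤ 4 * (x i).m 2 + g i := by
  have yn : ∀ i, 0 ≤ (y i).n := fun i => by linarith [(hy i).m0, (hy i).m2, (hy i).o0]
  have v4 : ∀ i, 0 < v i ^ 4 := fun i => pow_pos (v0 i) 4
  have Y0 : ∀ i, 0 ≤ v i ^ 4 * (y i).n + (y i).j := fun i =>
    add_nonneg (mul_nonneg (v4 i).le (yn i)) (hy i).j0
  have xm : Ov l v 0 fun i => (x i).m 0 := hn.of_le fun i => by
    rw [abs_of_nonneg (hx i).m0]; linarith [(hx i).m0, (hx i).m2, (hx i).o0]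
  have X4 : Ov l v 4 fun i => v i ^ 4 * (x i).n + (x i).j := (hn.vmul 4).add (hj.mono hv (by norm_num))
  have R5 : Ov l v 5 fun i => v i * (v i ^ 4 * (x i).n + (x i).j) + 2 * v i ^ 8 :=
    (Ov.one.mul X4).add (((Ov.pow 8).mono hv (by norm_num)).cmul 2)
  have S1 : Ov l v 0 fun i => v i ^ 4 * (y i).n + (y i).j + 2 * (y i).m 0 := by
    refine Ov.absorb hv hγ ((((hn.add (hj.mono hv (Nat.zero_le _))).cmul Λ).add
      (((xm.vmul 4).mono hv (Nat.zero_le _)).cmul (2 * |σ 0 + σ 4| * β))).add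
      ((R5.mono hv (Nat.zero_le _)).cmul (2 * K)))
      ((((Ov.pow 4).mono hv (by norm_num)).cmul (|σ 0 + σ 4| * β)).add (Ov.one.cmul (2 * K)))
      (fun i => by linarith [Y0 i, (hy i).m0]) fun i => ?_
    have h0 := (abs_le.1 (hD i 0)).2
    have h4 := (abs_le.1 (hD i 4)).2
    have h1 : -((σ 0 + σ 4) * δ i) ≤ |σ 0 + σ 4| * (β * ((y i).m 0 + (x i).m 0)) :=
      (neg_le_abs _).trans (by rw [abs_mul]; exact mul_le_mul_of_nonneg_left (hδ i) (abs_nonneg _))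
    have h2 := mul_le_mul_of_nonneg_left h1 (v4 i).le
    have h3 := mul_nonneg (mul_nonneg (mul_nonneg (abs_nonneg (σ 0 + σ 4)) hβ) (v4 i).le) (Y0 i)
    have h5 := mul_nonneg (mul_nonneg hK (v0 i).le) (hy i).m0
    linarith [(hy i).L1, (hx i).U1]
  have ym : Ov l v 0 fun i => (y i).m 0 := S1.of_le fun i => by
    rw [abs_of_nonneg (hy i).m0]; linarith [(hy i).m0, Y0 i]
  have d0 : Ov l v 0 δ := ((ym.add xm).cmul β).of_le hδ
  have d4 : Ov l v 4 fun i => v i ^ 4 * δ i := d0.vmul 4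
  have S2 : Ov l v 4 fun i => v i ^ 4 * (y i).n + (y i).j := by
    refine Ov.absorb hv hγ ((((X4.cmul Λ).sub (d4.cmul (2 * (σ 2 + σ 4)))).add
      ((ym.vmul 4).cmul (2 * γ))).add ((R5.mono hv (by norm_num)).cmul (2 * K)))
      (Ov.one.cmul (2 * K)) Y0 fun i => ?_
    have h0 := (abs_le.1 (hD i 2)).2
    have h4 := (abs_le.1 (hD i 4)).2
    linarith [(hy i).L2, (hx i).U2]
  have yn0 : Ov l v 0 fun i => (y i).n := Ov.cancel (k := 4) v0 (S2.of_le fun i => by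
    rw [abs_of_nonneg (mul_nonneg (v4 i).le (yn i))]; linarith [(hy i).j0])
  have yj4 : Ov l v 4 fun i => (y i).j := S2.of_le fun i => by
    rw [abs_of_nonneg (hy i).j0]; linarith [mul_nonneg (v4 i).le (yn i)]
  have D5 : ∀ k, Ov l v 5 fun i => (y i).e k - (x i).e k + 2 * σ k * (v i ^ 4 * δ i) := fun k =>
    ((R5.add (Ov.one.mul S2)).cmul K).of_le fun i => (hD i k).trans_eq (by ring)
  have E4 : ∀ k, Ov l v 4 fun i => (y i).e k - (x i).e k := fun k =>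
    (((D5 k).mono hv (by norm_num)).sub (d4.cmul (2 * σ k))).congr_left fun i => by ring
  have xj4 : Ov l v 4 fun i => (x i).j := hj.mono hv (by norm_num)
  have hA : ∀ u : ι → Q, (∀ i, Ineq γ Λ μ (v i) (u i)) → (Ov l v 0 fun i => (u i).n) →
      (Ov l v 4 fun i => (u i).j) → (Ov l v 1 fun i => (u i).e 0 - 2 * (u i).m 0) ∧
        Ov l v 3 fun i => (u i).e 1 - 4 * (v i ^ 2 * (u i).m 1) := fun u h1 h2 h3 =>
    ⟨(((Ov.one.mul h2).add (h3.mono hv (by norm_num))).cmul Λ).of_le fun i => (h1 i).A,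
      (((h2.vmul 3).add (h3.mono hv (by norm_num))).cmul Λ).of_le fun i => (h1 i).B⟩
  obtain ⟨a1, a2⟩ := hA x hx hn xj4
  obtain ⟨b1, b2⟩ := hA y hy yn0 yj4
  have G5 : ∀ ν : ℝ, 0 ≤ ν → ν ≤ μ → ∃ g, Ov l v 1 g ∧ ∀ i,
      4 * (y i).m 2 + (σ 2 - 2 * ν * σ 3 + ν ^ 2 * σ 4) * δ i ≤ 4 * (x i).m 2 + |g i| := by
    intro ν n0 n1
    obtain ⟨g, h1, h2⟩ := Ov.div (k := 4) (n := 1) v0 ((((((D5 2).sub ((D5 3).cmul (2 * ν))).add
      ((D5 4).cmul (ν ^ 2))).add ((yn0.vmul 5).cmul Λ)).add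
      ((((hn.vmul 5).add (ho.vmul 4)).add (hj.mono hv (by norm_num))).cmul Λ)).cmul (1 / 2))
    refine ⟨g, h1, fun i => le_trans ?_ (add_le_add_right (le_abs_self _) _)⟩
    refine le_of_mul_le_mul_left ?_ (v4 i)
    linarith [(hy i).lo ν n0 n1, (hx i).up ν n0 n1, h2 i]
  obtain ⟨g0, p0, q0⟩ := G5 0 le_rfl hμ
  obtain ⟨g1, p1, q1⟩ := G5 μ hμ le_rfl
  refine ⟨yn0, yj4, (((((E4 0).mono hv (by norm_num)).sub b1).add a1).cmul (1 / 2)).congr_left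
    fun i => by ring, Ov.cancel (k := 2) v0 ((((((E4 1).mono hv (by norm_num)).sub b2).add a2).cmul
      (1 / 4)).congr_left fun i => by ring), _, (IsBigO.abs_left p0).add (IsBigO.abs_left p1),
    fun i => ?_⟩
  have h0 := abs_nonneg (g0 i)
  have h1 := abs_nonneg (g1 i)
  rcases le_total 0 (δ i) with h | h
  · rw [abs_of_nonneg h]
    linarith [q1 i, mul_le_mul_of_nonneg_right s3 h]
  · rw [abs_of_nonpos h]
    linarith [q0 i, mul_le_mul_of_nonpos_right s2 h]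

end Pool.Agent.Lib.ISO.K4
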