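import Pool.Agent.Lib.ISO.BlueK

/-! Block K7: the phases of the coefficients. -/

open scoped ComplexConjugate
open Complex Filter Topology

noncomputable section

namespace Pool.Agent.Lib.ISO

namespace K7

def ww (z : ℤ → ℂ) (d : ℕ) (i : ℤ) : ℂ := z i * conj (z (i - d))

def dt (a b : ℂ) : ℝ := (a * conj b).im

/-- a window without zeros with three independent products -/
def Mr (z : ℤ → ℂ) (d : ℕ) : Prop := ∃ N : ℤ, (∀ r : ℕ, r ≤ 3 * d → z (N + r) ≠ 0) ∧
  dt (ww z d (N + d)) (ww z d (N + 2 * d)) ≠ 0 ∧ dt (ww z d (N + d)) (ww z d (N + 3 * d)) ≠ 0 ∧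
  dt (ww z d (N + 2 * d)) (ww z d (N + 3 * d)) ≠ 0

def FF (p : ℂ × ℂ × ℂ × ℂ) : ℝ :=
  dt (p.2.1 * conj p.1) (p.2.2.1 * conj p.2.1) * dt (p.2.1 * conj p.1) (p.2.2.2 * conj p.2.2.1) *
    dt (p.2.2.1 * conj p.2.1) (p.2.2.2 * conj p.2.2.1)

theorem near : ∃ η : ℝ, 0 < η ∧ η < 1 ∧ ∀ b0 b1 b2 b3 : ℂ, ‖b0 - 1‖ ≤ η → ‖b1 - 1‖ ≤ η →
    ‖b2 - I‖ ≤ η → ‖b3 - I * (1 + I)‖ ≤ η → FF (b0, b1, b2, b3) ≠ 0 := by
  have hc : Continuous FF := by
    unfold FF dt
    fun_prop
  have h0 : FF (1, 1, I, I * (1 + I)) ≠ 0 := by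
    simp [FF, dt]
  obtain ⟨ε, hε, h⟩ := Metric.eventually_nhds_iff.1 (hc.continuousAt.eventually_ne h0)
  refine ⟨min (ε / 2) (1 / 2), by positivity, lt_of_le_of_lt (min_le_right _ _) (by norm_num), ?_⟩
  intro b0 b1 b2 b3 h1 h2 h3 h4
  have hm : min (ε / 2) (1 / 2) < ε := lt_of_le_of_lt (min_le_left _ _) (by linarith)
  apply h
  simp only [Prod.dist_eq, max_lt_iff]
  simp only [dist_eq_norm]
  exact ⟨h1.trans_lt hm, h2.trans_lt hm, h3.trans_lt hm, h4.trans_lt hm⟩

def aa (d : ℕ) (t : ℤ) : ℂ :=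
  if t = 2 * d then I else if t = 3 * d then I * (1 + I) else if 0 ≤ t ∧ t ≤ 3 * d then 1 else 0

theorem norm_c : 1 ≤ ‖I * (1 + I)‖ ∧ ‖I * (1 + I)‖ ≤ 2 := by
  rw [norm_mul, norm_I, one_mul]
  refine ⟨?_, ?_⟩
  · have := Complex.re_le_norm (1 + I)
    simpa using this
  · have := norm_add_le (1 : ℂ) I
    simp only [norm_one, norm_I] at this
    linarith

theorem aa_env (d : ℕ) (hd : 1 ≤ d) : Env (3 * d) (aa d) := by
  refine ⟨fun t ht => ?_, fun t => ?_⟩
  · have h1 : t ≠ 2 * d := by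
      rintro rfl
      rw [abs_of_nonneg (by positivity)] at ht
      push_cast at ht
      omega
    have h2 : t ≠ 3 * d := by
      rintro rfl
      rw [abs_of_nonneg (by positivity)] at ht
      push_cast at ht
      omega
    have h3 : ¬ (0 ≤ t ∧ t ≤ 3 * d) := by
      rintro ⟨h, h'⟩
      rw [abs_of_nonneg h] at ht
      push_cast at ht
      omega
    simp [aa, h1, h2, h3]
  · have hd' : (1 : ℝ) ≤ d := by exact_mod_cast hd
    have hc := norm_c.2
    unfold aa
    push_cast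
    split_ifs
    · rw [norm_I]; linarith
    · linarith
    · rw [norm_one]; linarith
    · rw [norm_zero]; linarith

theorem aa_ge (d r : ℕ) (hr : r ≤ 3 * d) : 1 ≤ ‖aa d r‖ := by
  unfold aa
  split_ifs with h1 h2 h3
  · rw [norm_I]
  · exact norm_c.1
  · rw [norm_one]
  · exact absurd ⟨by positivity, by exact_mod_cast hr⟩ h3

theorem dt_scale (A : ℝ) (a b c e : ℂ) :
    dt (A * a * conj (A * b)) (A * c * conj (A * e)) = A ^ 4 * dt (a * conj b) (c * conj e) := by
  simp only [dt, map_mul, conj_ofReal, conj_conj, mul_im, mul_re, ofReal_re, ofReal_im, conj_re,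
    conj_im]
  ring

theorem marker (z z' : ℤ → ℂ) (h : Dm z z') (d : ℕ) (hd : 1 ≤ d) : Mr z d := by
  obtain ⟨η, h0, h1, hn⟩ := near
  obtain ⟨W, A, hA, ho, -⟩ := h (3 * d) (aa d) η h0 (aa_env d hd)
  have hle : 3 * d ≤ W := ho.le
  have hb : ∀ r : ℕ, r ≤ 3 * d → ‖sh z W A r - aa d r‖ ≤ η := fun r hr => by
    apply ho.near
    simp only [win, Finset.mem_Icc]
    constructor <;> omega
  have hA' : (A : ℂ) ≠ 0 := by exact_mod_cast hA.ne'
  have hz : ∀ t : ℤ, z ((W : ℤ) ^ 2 + t) = A * sh z W A t := fun t => by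
    unfold sh
    field_simp
  have e0 : aa d ((0 : ℕ) : ℤ) = 1 := by
    have h1 : ¬ ((0 : ℤ) = 2 * d) := by omega
    have h2 : ¬ ((0 : ℤ) = 3 * d) := by omega
    simp only [aa, Nat.cast_zero, if_neg h1, if_neg h2]
    rw [if_pos ⟨le_rfl, by positivity⟩]
  have e1 : aa d ((d : ℕ) : ℤ) = 1 := by
    have h1 : ¬ ((d : ℤ) = 2 * d) := by omega
    have h2 : ¬ ((d : ℤ) = 3 * d) := by omega
    simp only [aa, if_neg h1, if_neg h2]
    rw [if_pos ⟨by positivity, by omega⟩]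
  have e2 : aa d ((2 * d : ℕ) : ℤ) = I := by
    simp [aa]
  have e3 : aa d ((3 * d : ℕ) : ℤ) = I * (1 + I) := by
    have h1 : ¬ (((3 * d : ℕ) : ℤ) = 2 * d) := by omega
    unfold aa
    rw [if_neg h1, if_pos (by push_cast; ring)]
  have b0 := hb 0 (by omega)
  have b1 := hb d (by omega)
  have b2 := hb (2 * d) (by omega)
  have b3 := hb (3 * d) le_rfl
  rw [e0] at b0
  rw [e1] at b1
  rw [e2] at b2
  rw [e3] at b3
  have hF := hn _ _ _ _ b0 b1 b2 b3
  push_cast at hF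
  simp only [FF, mul_ne_zero_iff] at hF
  have hA4 : A ^ 4 ≠ 0 := pow_ne_zero _ hA.ne'
  have w1 : ww z d ((W : ℤ) ^ 2 + d) = A * sh z W A d * conj (A * sh z W A 0) := by
    unfold ww
    rw [← hz, ← hz]
    congr 3
    ring
  have w2 : ww z d ((W : ℤ) ^ 2 + 2 * d) = A * sh z W A (2 * d) * conj (A * sh z W A d) := by
    unfold ww
    rw [← hz, ← hz]
    congr 3
    ring
  have w3 : ww z d ((W : ℤ) ^ 2 + 3 * d) =
      A * sh z W A (3 * d) * conj (A * sh z W A (2 * d)) := by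
    unfold ww
    rw [← hz, ← hz]
    congr 3
    ring
  refine ⟨(W : ℤ) ^ 2, fun r hr hz0 => ?_, ?_, ?_, ?_⟩
  · have h2 := hb r hr
    have h3 := aa_ge d r hr
    have h4 : sh z W A r = 0 := by
      unfold sh
      rw [hz0, zero_div]
    rw [h4, zero_sub, norm_neg] at h2
    linarith
  · rw [w1, w2, dt_scale]
    exact mul_ne_zero hA4 hF.1.1
  · rw [w1, w3, dt_scale]
    exact mul_ne_zero hA4 hF.1.2
  · rw [w2, w3, dt_scale]
    exact mul_ne_zero hA4 hF.2

theorem alg (P Q x1 y1 x2 y2 x3 y3 : ℝ) (h1 : P * (x1 ^ 2 - y1 ^ 2) + 2 * Q * x1 * y1 = 0)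
    (h2 : P * (x2 ^ 2 - y2 ^ 2) + 2 * Q * x2 * y2 = 0)
    (h3 : P * (x3 ^ 2 - y3 ^ 2) + 2 * Q * x3 * y3 = 0) (d12 : y1 * x2 - x1 * y2 ≠ 0)
    (d13 : y1 * x3 - x1 * y3 ≠ 0) (d23 : y2 * x3 - x2 * y3 ≠ 0) : P = 0 ∧ Q = 0 := by
  by_contra hc
  have key : ∀ x y : ℝ, P * (x ^ 2 - y ^ 2) + 2 * Q * x * y = 0 → y1 * x - x1 * y ≠ 0 →
      x1 * x + y1 * y = 0 := by
    intro x y h hd
    by_contra hne
    apply hc
    have hm : (y1 * x - x1 * y) * (x1 * x + y1 * y) ≠ 0 := mul_ne_zero hd hne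
    constructor
    · apply mul_right_cancel₀ hm
      linear_combination (x1 * y1) * h - (x * y) * h1
    · apply mul_right_cancel₀ hm
      linear_combination (1 / 2 * (x ^ 2 - y ^ 2)) * h1 - (1 / 2 * (x1 ^ 2 - y1 ^ 2)) * h
  have k2 := key x2 y2 h2 d12
  have k3 := key x3 y3 h3 d13
  have h4 : (y2 * x3 - x2 * y3) * (x1 ^ 2 + y1 ^ 2) = 0 := by
    linear_combination (y1 * x3 - x1 * y3) * k2 - (y1 * x2 - x1 * y2) * k3
  have h5 : x1 ^ 2 + y1 ^ 2 = 0 := (mul_eq_zero.1 h4).resolve_left d23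
  have hx : x1 = 0 := by nlinarith [sq_nonneg x1, sq_nonneg y1]
  have hy : y1 = 0 := by nlinarith [sq_nonneg x1, sq_nonneg y1]
  apply d12
  rw [hx, hy]
  ring

theorem sq_of_norm {a b : ℂ} (h : ‖a‖ = ‖b‖) : a.re ^ 2 + a.im ^ 2 = b.re ^ 2 + b.im ^ 2 := by
  have h1 := Complex.sq_norm a
  have h2 := Complex.sq_norm b
  rw [Complex.normSq_apply] at h1 h2
  rw [h] at h1
  nlinarith

theorem kind (w w' : ℤ → ℂ) (hn : ∀ i, ‖w i‖ = ‖w' i‖) (i1 i2 i3 : ℤ) (d12 : dt (w i1) (w i2) ≠ 0)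
    (d13 : dt (w i1) (w i3) ≠ 0) (d23 : dt (w i2) (w i3) ≠ 0)
    (h : ∀ y : ℂ, ∃ u : ℂ, ‖u‖ = 1 ∧ ∀ i, (w' i * conj (y * u)).re = (w i * conj y).re) :
    ∃ l : ℂ, ‖l‖ = 1 ∧ ((∀ i, w i = l * w' i) ∨ ∀ i, w i = l * conj (w' i)) := by
  obtain ⟨u, hu, h1⟩ := h 1
  obtain ⟨v, hv, h2⟩ := h I
  have hre : ∀ i, (w i).re = (w' i).re * u.re + (w' i).im * u.im := fun i => by
    have := h1 i
    simp at this
    linarith
  have him : ∀ i, (w i).im = (w' i).im * v.re - (w' i).re * v.im := fun i => by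
    have := h2 i
    simp at this
    linarith
  have hu2 : u.re ^ 2 + u.im ^ 2 = 1 := by
    have := sq_of_norm (a := u) (b := 1) (by rw [hu, norm_one])
    simpa using this
  have hv2 : v.re ^ 2 + v.im ^ 2 = 1 := by
    have := sq_of_norm (a := v) (b := 1) (by rw [hv, norm_one])
    simpa using this
  have hq : ∀ i, (u.re ^ 2 - v.re ^ 2) * ((w' i).re ^ 2 - (w' i).im ^ 2) +
      2 * (u.re * u.im - v.re * v.im) * (w' i).re * (w' i).im = 0 := fun i => by
    have := sq_of_norm (hn i)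
    rw [hre, him] at this
    linear_combination this - (w' i).im ^ 2 * hu2 - (w' i).re ^ 2 * hv2
  have hd : ∀ i j, dt (w i) (w j) ≠ 0 → (w' i).im * (w' j).re - (w' i).re * (w' j).im ≠ 0 := by
    intro i j hij h0
    apply hij
    simp only [dt, mul_im, conj_re, conj_im]
    rw [hre, hre, him, him]
    linear_combination (u.re * v.re + u.im * v.im) * h0
  obtain ⟨hP, hQ⟩ := alg _ _ _ _ _ _ _ _ (hq i1) (hq i2) (hq i3) (hd _ _ d12) (hd _ _ d13)
    (hd _ _ d23)
  have hsq : (u - v) * (u + v) = 0 := by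
    apply Complex.ext
    · simp only [mul_re, sub_re, add_re, sub_im, add_im, zero_re]
      linear_combination 2 * hP - hu2 + hv2
    · simp only [mul_im, sub_re, add_re, sub_im, add_im, zero_im]
      linear_combination 2 * hQ
  rcases mul_eq_zero.1 hsq with h3 | h3
  · have : v = u := (sub_eq_zero.1 h3).symm
    subst this
    refine ⟨conj v, by rw [Complex.norm_conj, hv], Or.inl fun i => ?_⟩
    apply Complex.ext
    · simp only [mul_re, conj_re, conj_im]
      rw [hre]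
      ring
    · simp only [mul_im, conj_re, conj_im]
      rw [him]
      ring
  · have : v = -u := by linear_combination h3
    subst this
    refine ⟨u, hu, Or.inr fun i => ?_⟩
    apply Complex.ext
    · simp only [mul_re, conj_re, conj_im]
      rw [hre]
      ring
    · simp only [mul_im, conj_re, conj_im]
      rw [him]
      simp only [neg_re, neg_im]
      ring

theorem mul_conj_of_norm {a b : ℂ} (h : ‖a‖ = ‖b‖) : a * conj a = b * conj b := by
  rw [Complex.mul_conj, Complex.mul_conj, Complex.normSq_eq_norm_sq, Complex.normSq_eq_norm_sq, h]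

/-- ratios along a window without zeros -/
theorem chain (z z' : ℤ → ℂ) (hn : ∀ j, ‖z j‖ = ‖z' j‖) (l : ℂ)
    (h1 : ∀ i, ww z 1 i = l * ww z' 1 i) (n : ℤ) (k : ℕ)
    (hz : ∀ r : ℕ, r ≤ k → z (n + r) ≠ 0) :
    z (n + k) * conj (z n) = l ^ k * (z' (n + k) * conj (z' n)) := by
  induction k with
  | zero => simpa using mul_conj_of_norm (hn n)
  | succ k ih =>
    have ih' := ih fun r hr => hz r (by omega)
    have h2 := h1 (n + (k + 1 : ℕ))
    unfold ww at h2
    have e : n + ((k + 1 : ℕ) : ℤ) - ((1 : ℕ) : ℤ) = n + k := by push_cast; ring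
    rw [e] at h2
    have h3 := mul_conj_of_norm (hn (n + k))
    have h4 : z (n + k) ≠ 0 := hz k (by omega)
    have h5 : z (n + k) * conj (z (n + k)) ≠ 0 := mul_ne_zero h4 (by simpa using h4)
    apply mul_right_cancel₀ h5
    calc z (n + ((k + 1 : ℕ) : ℤ)) * conj (z n) * (z (n + k) * conj (z (n + k)))
        = (z (n + ((k + 1 : ℕ) : ℤ)) * conj (z (n + k))) * (z (n + k) * conj (z n)) := by ring
      _ = l ^ (k + 1) * (z' (n + ((k + 1 : ℕ) : ℤ)) * conj (z' n)) *
          (z' (n + k) * conj (z' (n + k))) := by rw [h2, ih']; ring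
      _ = _ := by rw [← h3]

theorem core (z z' : ℤ → ℂ) (hn : ∀ j, ‖z j‖ = ‖z' j‖) (l : ℂ) (hl : ‖l‖ = 1)
    (h1 : ∀ i, ww z 1 i = l * ww z' 1 i) (d : ℕ) (hM : Mr z d) (m : ℂ)
    (hk : (∀ i, ww z d i = m * ww z' d i) ∨ ∀ i, ww z d i = m * conj (ww z' d i)) (i : ℤ) :
    ww z d i = l ^ d * ww z' d i := by
  obtain ⟨N, hz, d12, -, -⟩ := hM
  have c1 : ww z d (N + d) = l ^ d * ww z' d (N + d) := by
    have := chain z z' hn l h1 N d fun r hr => hz r (by omega)
    unfold ww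
    rw [add_sub_cancel_right]
    exact this
  have c2 : ww z d (N + 2 * d) = l ^ d * ww z' d (N + 2 * d) := by
    have := chain z z' hn l h1 (N + d) d fun r hr => by
      have := hz (d + r) (by omega)
      push_cast at this
      rwa [← add_assoc] at this
    unfold ww
    have e1 : N + 2 * (d : ℤ) - d = N + d := by ring
    have e2 : N + 2 * (d : ℤ) = N + d + d := by ring
    rw [e1, e2]
    exact this
  have hld : l ^ d * conj (l ^ d) = 1 := by
    have := mul_conj_of_norm (a := l ^ d) (b := 1) (by rw [norm_pow, hl, one_pow, norm_one])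
    simpa using this
  have hdt : ∀ (c a b : ℂ), dt (c * a) (c * b) = (c * conj c).re * dt a b := by
    intro c a b
    simp only [dt, map_mul, mul_im, mul_re, conj_re, conj_im]
    ring
  rcases hk with hk | hk
  · have h0 : ww z' d (N + d) ≠ 0 := by
      intro h0
      apply d12
      rw [c1, h0]
      simp [dt]
    have : m = l ^ d := mul_right_cancel₀ h0 ((hk _).symm.trans c1)
    rw [hk, this]
  · exfalso
    have e1 : dt (ww z d (N + d)) (ww z d (N + 2 * d)) =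
        dt (ww z' d (N + d)) (ww z' d (N + 2 * d)) := by
      rw [c1, c2, hdt, hld]
      simp
    have e2 : dt (ww z d (N + d)) (ww z d (N + 2 * d)) =
        -((m * conj m).re * dt (ww z' d (N + d)) (ww z' d (N + 2 * d))) := by
      rw [hk, hk, hdt]
      simp only [dt, mul_im, conj_re, conj_im]
      ring
    have hm : 0 ≤ (m * conj m).re := by
      rw [Complex.mul_conj, ofReal_re]
      exact Complex.normSq_nonneg m
    apply d12
    rw [← e1] at e2
    have e3 : (1 + (m * conj m).re) * dt (ww z d (N + d)) (ww z d (N + 2 * d)) = 0 := by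
      linear_combination e2
    exact (mul_eq_zero.1 e3).resolve_left (by linarith)

theorem fin (z z' : ℤ → ℂ) (hc : ∀ j, z (-j) = conj (z j)) (hc' : ∀ j, z' (-j) = conj (z' j))
    (h0 : z 0 ≠ 0) (hn : ∀ j, ‖z j‖ = ‖z' j‖) (l : ℂ) (hl : ‖l‖ = 1)
    (h : ∀ d : ℕ, 1 ≤ d → ∀ i, ww z d i = l ^ d * ww z' d i) :
    ∃ (e : ℤ) (α : ℝ), (e = 1 ∨ e = -1) ∧ ∀ j, z j = e * exp (I * j * α) * z' j := by
  have r0 : conj (z 0) = z 0 := by rw [← hc, neg_zero]
  have r0' : conj (z' 0) = z' 0 := by rw [← hc', neg_zero]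
  have hsq : (z 0 - z' 0) * (z 0 + z' 0) = 0 := by
    have := mul_conj_of_norm (hn 0)
    rw [r0, r0'] at this
    linear_combination this
  obtain ⟨e, he, hz0⟩ : ∃ e : ℤ, (e = 1 ∨ e = -1) ∧ z' 0 = e * z 0 := by
    rcases mul_eq_zero.1 hsq with h1 | h1
    · exact ⟨1, Or.inl rfl, by push_cast; linear_combination -h1⟩
    · exact ⟨-1, Or.inr rfl, by push_cast; linear_combination h1⟩
  have hee : (e : ℂ) * e = 1 := by
    rcases he with rfl | rfl <;> simp
  have hla : exp (I * (arg l : ℝ)) = l := by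
    have := Complex.norm_mul_exp_arg_mul_I l
    rw [hl] at this
    rw [mul_comm]
    simpa using this
  have hpos : ∀ d : ℕ, z d = e * exp (I * (d : ℤ) * (arg l : ℝ)) * z' d := by
    intro d
    have hx : exp (I * (d : ℤ) * (arg l : ℝ)) = l ^ d := by
      rw [← hla, ← Complex.exp_nat_mul, hla]
      congr 1
      push_cast
      ring
    rw [hx]
    rcases Nat.eq_zero_or_pos d with rfl | hd
    · simp only [Nat.cast_zero, pow_zero]
      rw [hz0]
      linear_combination (-z 0) * hee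
    · have h1 := h d hd d
      unfold ww at h1
      rw [sub_self, r0, r0', hz0] at h1
      apply mul_right_cancel₀ h0
      rw [h1]
      ring
  refine ⟨e, arg l, he, fun j => ?_⟩
  obtain ⟨d, rfl | rfl⟩ := Int.eq_nat_or_neg j
  · exact hpos d
  · rw [hc, hc', hpos d, map_mul, map_mul, ← Complex.exp_conj]
    simp

end K7

open K7 in
theorem st_k7 : St_K7 := by
  intro z z' hz hz' hD h0 hn h
  have hk : ∀ d : ℕ, 1 ≤ d → ∃ l : ℂ, ‖l‖ = 1 ∧
      ((∀ i, ww z d i = l * ww z' d i) ∨ ∀ i, ww z d i = l * conj (ww z' d i)) := by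
    intro d hd
    obtain ⟨N, -, d12, d13, d23⟩ := marker z z' hD d hd
    refine kind (ww z d) (ww z' d) (fun i => ?_) _ _ _ d12 d13 d23 fun y => h d y hd
    unfold ww
    rw [norm_mul, norm_mul, Complex.norm_conj, Complex.norm_conj, hn, hn]
  obtain ⟨l, hl, h1 | h1⟩ := hk 1 le_rfl
  · obtain ⟨e, α, he, hj⟩ := fin z z' hz.cj hz'.cj h0 hn l hl fun d hd i => by
      obtain ⟨m, -, hm⟩ := hk d hd
      exact core z z' hn l hl h1 d (marker z z' hD d hd) m hm i
    exact ⟨e, 1, α, he, Or.inl rfl, fun j => by rw [one_mul]; exact hj j⟩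
  · have hw : ∀ (d : ℕ) (i : ℤ), ww (fun j => conj (z' j)) d i = conj (ww z' d i) := by
      intro d i
      simp [ww]
    have hn' : ∀ j, ‖z j‖ = ‖conj (z' j)‖ := fun j => by rw [Complex.norm_conj, hn]
    obtain ⟨e, α, he, hj⟩ := fin z (fun j => conj (z' j)) hz.cj (fun j => by simp [hz'.cj]) h0 hn'
      l hl fun d hd i => by
      obtain ⟨m, -, hm⟩ := hk d hd
      refine core z _ hn' l hl (fun i => by rw [hw]; exact h1 i) d (marker z z' hD d hd) m ?_ i
      simp only [hw, conj_conj]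
      exact hm.symm
    exact ⟨e, -1, α, he, Or.inr rfl, fun j => by rw [neg_one_mul, hz'.cj]; exact hj j⟩

end Pool.Agent.Lib.ISO
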