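import Pool.Agent.Lib.ISO.BlueE

/-! The mirror image of a domain. -/

open scoped InnerProductSpace ENNReal ContDiff ComplexConjugate Topology
open MeasureTheory Complex Set Filter

noncomputable section

namespace Pool.Agent.Lib.ISO

open Pool.Agent.Lib.MP_312682_mp

namespace MIR

/-- mirror image of a set -/
def ms (Ω : Set ℂ) : Set ℂ := (fun z => conj z) ⁻¹' Ω
/-- mirror image of a curve, with the orientation reversed -/
def mc (γ : ℝ → ℂ) (s : ℝ) : ℂ := conj (γ (-s))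

lemma ms_ms (Ω : Set ℂ) : ms (ms Ω) = Ω := by ext z; simp [ms]

lemma deriv_mc (γ : ℝ → ℂ) : deriv (mc γ) = fun s => -conj (deriv γ (-s)) := by
  ext s
  have h : deriv (fun y => star (γ (-y))) s = star (deriv (fun y => γ (-y)) s) := deriv.star
  rw [deriv_comp_neg, star_neg] at h
  exact h

lemma deriv2_mc (γ : ℝ → ℂ) (s : ℝ) : deriv (deriv (mc γ)) s = conj (deriv (deriv γ) (-s)) := by
  rw [deriv_mc]
  have h : (fun s => -conj (deriv γ (-s))) = fun s => -(mc (deriv γ) s) := rfl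
  rw [h, deriv.fun_neg, deriv_mc]
  simp

lemma kap_mc (γ : ℝ → ℂ) : kap (mc γ) = fun s => kap γ (-s) := by
  ext s
  simp only [kap, deriv2_mc]
  rw [deriv_mc]
  simp only [map_neg, conj_conj, mul_im, conj_re, conj_im, neg_re, neg_im]
  ring

lemma Phi_mc (γ : ℝ → ℂ) (z : ℂ) : Phi (mc γ) z = conj (Phi γ (-conj z)) := by
  simp only [Phi, deriv_mc, mc, neg_re, conj_re, neg_im, conj_im, neg_neg, map_add, map_mul,
    conj_ofReal, conj_I]
  ring

lemma mem_strip {δ : ℝ} {z : ℂ} : -conj z ∈ strip δ ↔ z ∈ strip δ := by simp [strip]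

lemma smooth_mc {γ : ℝ → ℂ} (h : ContDiff ℝ ∞ γ) : ContDiff ℝ ∞ (mc γ) :=
  conjCLE.contDiff.comp (h.comp contDiff_neg)

lemma col_mc {Ω : Set ℂ} {γ : ℝ → ℂ} {L δ : ℝ} (h : Col Ω γ L δ) : Col (ms Ω) (mc γ) L δ where
  smooth := smooth_mc h.smooth
  unit s := by rw [deriv_mc]; simpa using h.unit (-s)
  pos := h.pos
  per s := by
    have := h.per (-(s + L))
    simp only [mc, ← this]
    congr 2; ring
  opn := h.opn.preimage continuous_conj
  dpos := h.dpos
  small s := by rw [kap_mc]; exact h.small (-s)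
  inside z hz := by
    rw [Phi_mc]
    simpa [ms] using h.inside _ (mem_strip.2 hz)
  bdry s := by simpa [ms, mc] using h.bdry (-s)
  inj p hp q hq e := by
    rw [Phi_mc, Phi_mc] at e
    obtain ⟨n, hn⟩ := h.inj _ (mem_strip.2 hp) _ (mem_strip.2 hq) (star_injective e)
    refine ⟨-n, ?_⟩
    have := congrArg (fun z => -conj z) hn
    simp only [map_neg, conj_conj, neg_neg, map_add, map_mul, conj_ofReal, map_intCast] at this
    rw [this]; push_cast; ring

lemma bdd_ms {Ω : Set ℂ} (h : Bornology.IsBounded Ω) : Bornology.IsBounded (ms Ω) := by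
  obtain ⟨R, h1⟩ := h.exists_norm_le
  exact isBounded_iff_forall_norm_le.2 ⟨R, fun z hz => by simpa using h1 _ hz⟩

lemma fam_mc {Ω : Set ℂ} {ι : Type} {γ : ι → ℝ → ℂ} {L : ι → ℝ} {δ : ℝ} (h : Fam Ω γ L δ) :
    Fam (ms Ω) (fun i => mc (γ i)) L δ where
  col i := col_mc (h.col i)
  opn := h.opn.preimage continuous_conj
  dpos := h.dpos
  bdd := bdd_ms h.bdd
  disj i j p hp q hq e := by
    rw [Phi_mc, Phi_mc] at e
    exact h.disj i j _ (mem_strip.2 hp) _ (mem_strip.2 hq) (star_injective e)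
  cover ε hε := by
    obtain ⟨K, h1, h2, h3⟩ := h.cover ε hε
    refine ⟨ms K, conjCLE.toHomeomorph.isCompact_preimage.2 h1, fun z hz => h2 hz, fun z hz hK => ?_⟩
    obtain ⟨i, p, hp, e⟩ := h3 _ hz hK
    refine ⟨i, -conj p, mem_strip.2 hp, ?_⟩
    rw [Phi_mc]
    simp [e]

lemma bnd_neg {N : ℕ} {K L : ℝ} {κ : ℝ → ℝ} (h : Bnd N K L κ) : Bnd N K L fun s => κ (-s) where
  kap :=
    { smooth := h.kap.smooth.comp contDiff_neg
      per := fun s => by
        have := h.kap.per (-(s + L))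
        simp only [← this]
        congr 1; ring
      one_le := h.kap.one_le
      b0 := fun s => h.kap.b0 _
      b1 := fun s => by rw [deriv_comp_neg, abs_neg]; exact h.kap.b1 _
      b2 := fun s => by
        have e : deriv (fun s => κ (-s)) = fun s => -deriv κ (-s) := funext fun s => deriv_comp_neg _ _
        rw [e, deriv.fun_neg, deriv_comp_neg, neg_neg]; exact h.kap.b2 _ }
  lo := h.lo
  hi := h.hi
  bd j hj s := by
    rw [iteratedDeriv_comp_neg, smul_eq_mul, abs_mul, abs_pow, abs_neg, abs_one, one_pow, one_mul]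
    exact h.bd j hj _

lemma mono_neg (α : List ℕ) (κ : ℝ → ℝ) (s : ℝ) :
    mono α (fun s => κ (-s)) s = (-1) ^ α.sum * mono α κ (-s) := by
  unfold mono
  induction α with
  | nil => simp
  | cons a α ih =>
    simp only [List.map_cons, List.prod_cons, List.sum_cons]
    rw [ih, iteratedDeriv_comp_neg, smul_eq_mul, pow_add]; ring

lemma mono_per (α : List ℕ) {κ : ℝ → ℝ} {L : ℝ} (h : ∀ s, κ (s + L) = κ s) :
    Function.Periodic (mono α κ) L := by
  intro s
  have e : ∀ j, iteratedDeriv j κ (s + L) = iteratedDeriv j κ s := fun j => by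
    have := congrFun (iteratedDeriv_comp_add_const (n := j) (f := κ) (s := L)) s
    simp only [h] at this
    exact this.symm
  simp only [mono, e]

lemma mint_neg (α : List ℕ) {κ : ℝ → ℝ} {L : ℝ} (h : ∀ s, κ (s + L) = κ s) :
    mint L α (fun s => κ (-s)) = (-1) ^ α.sum * mint L α κ := by
  unfold mint
  simp only [mono_neg]
  rw [intervalIntegral.integral_const_mul, intervalIntegral.integral_comp_neg]
  have := (mono_per α h).intervalIntegral_add_eq (-L) 0
  rw [neg_add_cancel, zero_add] at this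
  rw [neg_zero, this]

/-- composition with the reflection -/
def cj : (ℂ → ℂ) ≃ₗ[ℂ] (ℂ → ℂ) where
  toFun u z := u (conj z)
  invFun u z := u (conj z)
  map_add' _ _ := rfl
  map_smul' _ _ := rfl
  left_inv u := by ext z; simp
  right_inv u := by ext z; simp

lemma cj_test {Ω : Set ℂ} {u : ℂ → ℂ} (hu : u ∈ testC Ω) : cj u ∈ testC (ms Ω) :=
  ⟨hu.1.comp conjCLE.contDiff, hu.2.1.comp_homeomorph conjCLE.toHomeomorph,
    (closure_minimal (t := (fun z => conj z) ⁻¹' tsupport u) (fun _ hz => subset_tsupport u hz)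
      ((isClosed_tsupport u).preimage continuous_conj)).trans (preimage_mono hu.2.2)⟩

lemma int_conj (F : ℂ → ℝ) : ∫ z, F (conj z) = ∫ z, F z := by
  simpa using int_iso 0 conjLIE F

lemma mass_cj (u : ℂ → ℂ) : massC (cj u) = massC u := int_conj fun z => ‖u z‖ ^ 2

lemma energy_cj {u : ℂ → ℂ} (hu : ContDiff ℝ ∞ u) : energyC (cj u) = energyC u := by
  refine Eq.trans ?_ (int_conj fun z => ‖d1 u z‖ ^ 2 + ‖d2 u z‖ ^ 2)
  unfold energyC
  congr 1; ext z
  have h2 : HasFDerivAt (cj u) _ z :=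
    (hu.differentiable (by simp) _).hasFDerivAt.comp z conjCLE.hasFDerivAt
  simp [d1, d2, h2.fderiv]

lemma CC_ms {Ω : Set ℂ} {k : ℕ} {l : ℝ} (h : CC Ω k l) : CC (ms Ω) k l := by
  obtain ⟨W, h1, h2, h3, l', h4, h5⟩ := h
  refine ⟨W.map (cj : (ℂ → ℂ) →ₗ[ℂ] (ℂ → ℂ)), ?_, ?_, inferInstance, l', h4, ?_⟩
  · rintro _ ⟨u, hu, rfl⟩
    exact cj_test (h1 hu)
  · rw [LinearEquiv.finrank_map_eq, h2]
  · rintro _ ⟨u, hu, rfl⟩
    have := h5 u hu
    rwa [← mass_cj, ← energy_cj (h1 hu).1] at this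

lemma Ft_ms {Ω : Set ℂ} (ho : IsOpen Ω) (hb : Bornology.IsBounded Ω) {μ : ℝ} (hμ : 1 ≤ μ) :
    Ft (ms Ω) μ = Ft Ω μ := by
  obtain ⟨C, -, h1⟩ := HL_GO hb
  obtain ⟨C', -, h2⟩ := HL_GO (bdd_ms hb)
  have e1 := hsq_GO_eq (by linarith) (h2 μ hμ).ne_top (h1 μ hμ).ne_top
    fun k l _ => ⟨fun h => ms_ms Ω ▸ CC_ms h, CC_ms⟩
  have e2 : vol (ms Ω) = vol Ω :=
    conjLIE.measurePreserving.measure_preimage ho.measurableSet.nullMeasurableSet
  rw [Ft, Ft, e1, measureReal_def, measureReal_def, e2]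

end MIR

theorem st_mir : St_MIR := by
  intro N n K Ω γ L h
  refine ⟨MIR.ms Ω, fun i => MIR.mc (γ i), ⟨h.one_le, MIR.fam_mc h.fam, ?_, h.card, fun i => ?_⟩,
    fun μ hμ => MIR.Ft_ms h.fam.opn h.fam.bdd hμ, fun α => ?_⟩
  · obtain ⟨a, h1, h2⟩ := h.box
    refine ⟨a.re + (1 + K / 2 - a.im : ℝ) * I, h1, fun z hz => ?_⟩
    obtain ⟨⟨a1, a2⟩, a3, a4⟩ := h2 _ hz
    simp only [add_re, add_im, conj_re, conj_im] at a1 a2 a3 a4
    simp only [mem_Icc, add_re, add_im, ofReal_re, ofReal_im, mul_re, mul_im, I_re, I_im]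
    refine ⟨⟨?_, ?_⟩, ?_, ?_⟩ <;> linarith
  · rw [MIR.kap_mc]
    exact MIR.bnd_neg (h.bnd i)
  · simp only [mI, MIR.kap_mc, Finset.mul_sum]
    exact Finset.sum_congr rfl fun i _ => MIR.mint_neg α (h.bnd i).kap.per

end Pool.Agent.Lib.ISO
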