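import Pool.Agent.Lib.ISO.BlueE

/-! The graded algebra of operator families on the cylinder. -/

open scoped InnerProductSpace ENNReal ContDiff ComplexConjugate Topology
open MeasureTheory Complex Set Filter

noncomputable section

namespace Pool.Agent.Lib.ISO.NF

open Pool.Agent.Lib.MP_312682_mp

/-! ## Monomials -/

lemma mono_append (α β : List ℕ) (κ : ℝ → ℝ) (s : ℝ) :
    mono (α ++ β) κ s = mono α κ s * mono β κ s := by simp [mono]

lemma mono_cons (a : ℕ) (β : List ℕ) (κ : ℝ → ℝ) (s : ℝ) :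
    mono (a :: β) κ s = iteratedDeriv a κ s * mono β κ s := by simp [mono]

lemma wt_append (α β : List ℕ) : wt (α ++ β) = wt α + wt β := by simp [wt]; ring

lemma wt_cons (a : ℕ) (β : List ℕ) : wt (a :: β) = wt β + a + 1 := by simp [wt]; ring

lemma s_iter {κ : ℝ → ℝ} (h : ContDiff ℝ ∞ κ) (j : ℕ) : ContDiff ℝ ∞ (iteratedDeriv j κ) := by
  rw [iteratedDeriv_eq_iterate]; exact h.iterate_deriv j

lemma s_mono {κ : ℝ → ℝ} (h : ContDiff ℝ ∞ κ) (α : List ℕ) : ContDiff ℝ ∞ (mono α κ) := by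
  induction α with
  | nil => exact (contDiff_const : ContDiff ℝ ∞ fun _ : ℝ => (1 : ℝ))
  | cons a β ih =>
    rw [funext (mono_cons a β κ)]
    exact (s_iter h a).mul ih

lemma per_iter {κ : ℝ → ℝ} {L : ℝ} (h : ∀ s, κ (s + L) = κ s) (j : ℕ) (s : ℝ) :
    iteratedDeriv j κ (s + L) = iteratedDeriv j κ s := by
  induction j generalizing s with
  | zero => simpa using h s
  | succ j ih => rw [iteratedDeriv_succ]; exact per_deriv ih s

lemma per_mono {κ : ℝ → ℝ} {L : ℝ} (h : ∀ s, κ (s + L) = κ s) (α : List ℕ) (s : ℝ) :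
    mono α κ (s + L) = mono α κ s := by
  simp only [mono, per_iter h]

def msum (l : List (List ℕ)) (κ : ℝ → ℝ) (s : ℝ) : ℝ := (l.map fun γ => mono γ κ s).sum

lemma s_msum {κ : ℝ → ℝ} (h : ContDiff ℝ ∞ κ) (l : List (List ℕ)) : ContDiff ℝ ∞ (msum l κ) := by
  induction l with
  | nil => exact (contDiff_const : ContDiff ℝ ∞ fun _ : ℝ => (0 : ℝ))
  | cons a β ih =>
    have : msum (a :: β) κ = fun s => mono a κ s + msum β κ s := by ext s; simp [msum]
    rw [this]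
    exact (s_mono h a).add ih

lemma deriv_mono (α : List ℕ) : ∃ l : List (List ℕ), (∀ γ ∈ l, wt γ = wt α + 1) ∧
    ∀ κ : ℝ → ℝ, ContDiff ℝ ∞ κ → deriv (mono α κ) = msum l κ := by
  induction α with
  | nil =>
    refine ⟨[], by simp, fun κ _ => ?_⟩
    ext s
    exact deriv_const s (1 : ℝ)
  | cons a β ih =>
    obtain ⟨l, h1, h2⟩ := ih
    refine ⟨((a + 1) :: β) :: l.map (a :: ·), ?_, fun κ hκ => ?_⟩
    · intro γ hγ
      rcases List.mem_cons.1 hγ with rfl | hγ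
      · simp [wt_cons]; ring
      · obtain ⟨γ', h, rfl⟩ := List.mem_map.1 hγ
        simp [wt_cons, h1 _ h]; ring
    · ext s
      rw [funext (mono_cons a β κ), deriv_fun_mul ((s_iter hκ a).differentiable (by simp) s)
        ((s_mono hκ β).differentiable (by simp) s), h2 κ hκ, ← iteratedDeriv_succ]
      simp [msum, mono_cons, List.sum_map_mul_left, Function.comp_def]

lemma deriv_msum (l : List (List ℕ)) {w : ℕ} (h : ∀ γ ∈ l, wt γ = w) :
    ∃ l' : List (List ℕ), (∀ γ ∈ l', wt γ = w + 1) ∧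
    ∀ κ : ℝ → ℝ, ContDiff ℝ ∞ κ → deriv (msum l κ) = msum l' κ := by
  induction l with
  | nil =>
    refine ⟨[], by simp, fun κ _ => ?_⟩
    ext s
    exact deriv_const s (0 : ℝ)
  | cons a β ih =>
    obtain ⟨l, h1, h2⟩ := ih fun γ hγ => h γ (List.mem_cons_of_mem _ hγ)
    obtain ⟨l', h3, h4⟩ := deriv_mono a
    refine ⟨l' ++ l, fun γ hγ => ?_, fun κ hκ => ?_⟩
    · rcases List.mem_append.1 hγ with hγ | hγ
      · rw [h3 γ hγ, h a List.mem_cons_self]
      · exact h1 γ hγ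
    · have : msum (a :: β) κ = fun s => mono a κ s + msum β κ s := by ext s; simp [msum]
      ext s
      rw [this, deriv_fun_add ((s_mono hκ a).differentiable (by simp) s)
        ((s_msum hκ β).differentiable (by simp) s), h2 κ hκ, h4 κ hκ]
      simp [msum]

lemma iter_mono (α : List ℕ) (j : ℕ) : ∃ l : List (List ℕ), (∀ γ ∈ l, wt γ = wt α + j) ∧
    ∀ κ : ℝ → ℝ, ContDiff ℝ ∞ κ → iteratedDeriv j (mono α κ) = msum l κ := by
  induction j with
  | zero => exact ⟨[α], by simp, fun κ _ => by ext s; simp [msum]⟩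
  | succ j ih =>
    obtain ⟨l, h1, h2⟩ := ih
    obtain ⟨l', h3, h4⟩ := deriv_msum l h1
    exact ⟨l', h3, fun κ hκ => by rw [iteratedDeriv_succ, h2 κ hκ, h4 κ hκ]⟩

lemma mono_le {N : ℕ} {K L : ℝ} {κ : ℝ → ℝ} (h : Bnd N K L κ) (α : List ℕ) (hα : wt α ≤ N) (s : ℝ) :
    |mono α κ s| ≤ K ^ N := by
  have h1 := h.kap.one_le
  suffices |mono α κ s| ≤ K ^ wt α from this.trans (pow_le_pow_right₀ h1 hα)
  induction α with
  | nil => simp [mono, wt]
  | cons a β ih =>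
    rw [wt_cons] at hα ⊢
    rw [mono_cons, abs_mul, pow_succ, mul_comm]
    refine mul_le_mul ((ih (by omega)).trans (pow_le_pow_right₀ h1 (by omega)))
      (h.bd a (by omega) s) (abs_nonneg _) (by positivity)

lemma msum_le {N : ℕ} {K L : ℝ} {κ : ℝ → ℝ} (h : Bnd N K L κ) (l : List (List ℕ))
    (hl : ∀ γ ∈ l, wt γ ≤ N) (s : ℝ) : |msum l κ s| ≤ l.length * K ^ N := by
  induction l with
  | nil => simp [msum]
  | cons a β ih =>
    have : msum (a :: β) κ s = mono a κ s + msum β κ s := by simp [msum]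
    rw [this, List.length_cons]
    have h1 := mono_le h a (hl a List.mem_cons_self) s
    have h2 := ih fun γ hγ => hl γ (List.mem_cons_of_mem _ hγ)
    refine (abs_add_le _ _).trans ?_
    push_cast; linarith

/-! ## Families -/

structure Par where
  L : ℝ
  δ : ℝ
  μ : ℝ
  κ : ℝ → ℝ
  ok : ∃ K, Adk 0 K L δ μ κ

def Par.Ad (x : Par) (N : ℕ) (K : ℝ) : Prop := Adk N K x.L x.δ x.μ x.κ

lemma Adk_mono {N N' : ℕ} {K L δ μ : ℝ} {κ : ℝ → ℝ} (h : Adk N K L δ μ κ) (hN : N' ≤ N) :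
    Adk N' K L δ μ κ :=
  ⟨⟨h.kap, h.lo, h.hi, fun j hj => h.bd j (hj.trans hN)⟩, h.dpos, h.big, h.small⟩

namespace Par

variable (x : Par)

lemma hL : 0 < x.L := by
  obtain ⟨K, h⟩ := x.ok
  have := h.kap.one_le
  exact lt_of_lt_of_le (by positivity) h.lo

lemma hδ : 0 < x.δ := x.ok.choose_spec.dpos
lemma hD : 1 ≤ x.μ * x.δ := x.ok.choose_spec.big

lemma hμ : 1 ≤ x.μ := by
  obtain ⟨K, h⟩ := x.ok
  have h1 := one_le_pow₀ (n := 3) h.kap.one_le
  have h2 := h.small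
  have h3 := h.big
  have h4 := h.dpos
  by_contra hc
  nlinarith

lemma μ0 : 0 < x.μ := lt_of_lt_of_le one_pos x.hμ
lemma sκ : ContDiff ℝ ∞ x.κ := x.ok.choose_spec.kap.smooth
lemma per (s : ℝ) : x.κ (s + x.L) = x.κ s := x.ok.choose_spec.kap.per s
lemma Jpos {z : ℂ} (hz : z.im ∈ Icc 0 x.δ) : 99 / 100 ≤ Jf x.κ z :=
  (x.ok.choose_spec.kap.J_ge x.ok.choose_spec.small hz).1

end Par

abbrev Fm := (x : Par) → (L2 (nu x.L x.δ) →L[ℂ] L2 (nu x.L x.δ))

lemma bd_mono {a C D t : ℝ} {q q' : ℕ} (h : a ≤ C * D ^ q * t) (hD : 1 ≤ D) (ht : 0 ≤ t)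
    (hq : q ≤ q') : a ≤ |C| * D ^ q' * t := by
  refine h.trans (mul_le_mul_of_nonneg_right ?_ ht)
  exact mul_le_mul (le_abs_self _) (pow_le_pow_right₀ hD hq) (by positivity) (abs_nonneg _)

/-- families of size `μ^(-N)` up to powers of `μ δ` -/
def Sm (N : ℕ) : Submodule ℂ Fm where
  carrier := {T | ∃ N' q : ℕ, ∀ K, ∃ C, ∀ x : Par, x.Ad N' K →
    ‖T x‖ ≤ C * (x.μ * x.δ) ^ q * (x.μ ^ N)⁻¹}
  add_mem' := by
    rintro S T ⟨n, q, h⟩ ⟨n', q', h'⟩
    refine ⟨max n n', max q q', fun K => ?_⟩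
    obtain ⟨C, h⟩ := h K
    obtain ⟨C', h'⟩ := h' K
    refine ⟨|C| + |C'|, fun x hx => ?_⟩
    have := x.μ0
    have a := bd_mono (h x (Adk_mono hx (le_max_left _ _))) x.hD (by positivity) (le_max_left q q')
    have b := bd_mono (h' x (Adk_mono hx (le_max_right _ _))) x.hD (by positivity)
      (le_max_right q q')
    refine (norm_add_le _ _).trans ?_
    linarith
  zero_mem' := ⟨0, 0, fun _ => ⟨0, fun x _ => by simp⟩⟩
  smul_mem' := by
    rintro c T ⟨n, q, h⟩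
    refine ⟨n, q, fun K => ?_⟩
    obtain ⟨C, h⟩ := h K
    refine ⟨‖c‖ * C, fun x hx => ?_⟩
    rw [Pi.smul_apply, norm_smul, mul_assoc, mul_assoc, ← mul_assoc C]
    exact mul_le_mul_of_nonneg_left (h x hx) (norm_nonneg _)

lemma Sm_mul {a b : ℕ} {S T : Fm} (hS : S ∈ Sm a) (hT : T ∈ Sm b) : S * T ∈ Sm (a + b) := by
  obtain ⟨n, q, h⟩ := hS
  obtain ⟨n', q', h'⟩ := hT
  refine ⟨max n n', q + q', fun K => ?_⟩
  obtain ⟨C, h⟩ := h K
  obtain ⟨C', h'⟩ := h' K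
  refine ⟨C * C', fun x hx => ?_⟩
  refine (nmul (h x (Adk_mono hx (le_max_left _ _))) (h' x (Adk_mono hx (le_max_right _ _)))).trans
    (le_of_eq ?_)
  rw [pow_add, pow_add, mul_inv]; ring

lemma Sm_mono {a b : ℕ} (h : a ≤ b) {T : Fm} (hT : T ∈ Sm b) : T ∈ Sm a := by
  obtain ⟨n, q, h'⟩ := hT
  refine ⟨n, q, fun K => ?_⟩
  obtain ⟨C, h'⟩ := h' K
  refine ⟨|C|, fun x hx => ?_⟩
  have := x.μ0
  have := x.hδ
  refine (bd_mono (h' x hx) x.hD (by positivity) le_rfl).trans ?_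
  gcongr
  exact x.hμ

lemma Sm_of_le {T : Fm} {c : ℝ} (h : ∀ x, ‖T x‖ ≤ c) : T ∈ Sm 0 :=
  ⟨0, 0, fun _ => ⟨c, fun x _ => by simpa using h x⟩⟩

lemma Sm_mul0 {N : ℕ} {a T b : Fm} (ha : a ∈ Sm 0) (hT : T ∈ Sm N) (hb : b ∈ Sm 0) :
    a * T * b ∈ Sm N := by
  simpa using Sm_mul (Sm_mul ha hT) hb

lemma Sm_one : (1 : Fm) ∈ Sm 0 := Sm_of_le fun _ => norm_one_le'

/-- multiplication by a scalar function -/
def sf (g : Par → ℂ → ℂ) : Fm := fun x => sm (nu x.L x.δ) (g x)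
def Ct (g : Par → ℂ → ℂ) : Prop := ∀ x z, z.im ∈ Icc 0 x.δ → ContinuousAt (g x) z

lemma Ct.bs {g : Par → ℂ → ℂ} (h : Ct g) (x : Par) : Bs (nu x.L x.δ) (g x) := Bs_rect (h x)

lemma smul_mm {α : Type*} [MeasurableSpace α] {ν : Measure α} {M : α → Mat} (h : Bd ν M) (c : ℂ) :
    c • mm ν M = mm ν fun z => c • M z := by
  rw [← sm_mul_mm (Bs.const c) h]
  ext1 f
  ext1
  filter_upwards [sm_coe (Bs.const (ν := ν) c) (mm ν M f), Lp.coeFn_smul c (mm ν M f)] with z h1 h2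
  rw [smul_apply, h2, mul_apply_eq_comp, h1, Pi.smul_apply]

lemma sf_mul {g h : Par → ℂ → ℂ} (hg : Ct g) (hh : Ct h) :
    sf g * sf h = sf fun x z => g x z * h x z := funext fun x => sm_mul (hg.bs x) (hh.bs x)

lemma sf_add {g h : Par → ℂ → ℂ} (hg : Ct g) (hh : Ct h) :
    sf g + sf h = sf fun x z => g x z + h x z := funext fun x => by
  simp only [sf, sm, Pi.add_apply]
  rw [mm_add (hg.bs x).bd (hh.bs x).bd]
  exact mm_eq_of fun z => (add_smul _ _ _).symm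

lemma smul_sm {α : Type*} [MeasurableSpace α] {ν : Measure α} {f : α → ℂ} (h : Bs ν f) (c : ℂ) :
    c • sm ν f = sm ν fun z => c * f z := by
  rw [sm, smul_mm h.bd]
  exact mm_eq_of fun z => smul_smul _ _ _

lemma sf_smul {g : Par → ℂ → ℂ} (hg : Ct g) (c : ℂ) : c • sf g = sf fun x z => c * g x z :=
  funext fun x => smul_sm (hg.bs x) c

lemma sf_one : sf (fun _ _ => 1) = 1 := funext fun _ => sm_one

lemma sf_zero : sf (fun _ _ => 0) = 0 := funext fun _ => by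
  simp only [sf, sm, zero_smul]; exact mm_zero

lemma sf_congr {g h : Par → ℂ → ℂ} (e : ∀ x z, z.im ∈ Icc 0 x.δ → g x z = h x z) : sf g = sf h :=
  funext fun x => sm_congr (by
    filter_upwards [ae_rect x.L x.δ] with z hz
    exact e x z (Ioc_subset_Icc_self hz.2))

/-- scaled monomial -/
def mg (α : List ℕ) (x : Par) (z : ℂ) : ℂ := ((x.μ ^ wt α)⁻¹ : ℝ) * (mono α x.κ z.re : ℝ)
def ms (α : List ℕ) : Fm := sf (mg α)

lemma ct_re {a : Par → ℝ → ℝ} (h : ∀ x, Continuous (a x)) : Ct fun x z => (a x z.re : ℝ) :=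
  fun x _ _ => (continuous_ofReal.comp ((h x).comp continuous_re)).continuousAt

lemma ct_mono (α : List ℕ) : Ct fun x z => (mono α x.κ z.re : ℝ) :=
  ct_re fun x => (s_mono x.sκ α).continuous

lemma ct_mg (α : List ℕ) : Ct (mg α) := fun x z hz => continuousAt_const.mul (ct_mono α x z hz)

lemma ms_apply (α : List ℕ) (x : Par) :
    ms α x = (((x.μ ^ wt α)⁻¹ : ℝ) : ℂ) • sms x.L x.δ (mono α x.κ) :=
  (smul_sm ((ct_mono α).bs x) _).symm

lemma ms_mul (α β : List ℕ) : ms α * ms β = ms (α ++ β) := by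
  rw [ms, ms, sf_mul (ct_mg _) (ct_mg _)]
  refine sf_congr fun x z _ => ?_
  simp only [mg, mono_append, wt_append, pow_add, mul_inv]
  push_cast; ring

lemma ms_nil : ms [] = 1 := by
  rw [← sf_one]; exact sf_congr fun x z _ => by simp [mg, wt, mono]

lemma ms_mem (α : List ℕ) : ms α ∈ Sm (wt α) := by
  refine ⟨wt α, 0, fun K => ⟨K ^ wt α, fun x hx => ?_⟩⟩
  have := x.μ0
  have := hx.kap.one_le
  refine sm_norm_le (by positivity) (ae_of_all _ fun z => ?_)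
  rw [mg, norm_mul, norm_real, norm_real, Real.norm_of_nonneg (by positivity), pow_zero, mul_one,
    mul_comm]
  gcongr
  exact mono_le hx.toBnd α le_rfl _

end Pool.Agent.Lib.ISO.NF
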