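import Pool.Agent.Lib.ISO.B_NF1

/-! Expansions of operator families. -/

open scoped InnerProductSpace ENNReal ContDiff ComplexConjugate Topology
open MeasureTheory Complex Set Filter

set_option linter.unusedSectionVars false

noncomputable section

namespace Pool.Agent.Lib.ISO.NF

open Pool.Agent.Lib.MP_312682_mp

def op (f : Sy) : Fm := fun x => opw x.L x.δ x.μ f
def pF : Fm := fun x => p0 (nu x.L x.δ)
def PF : Fm := fun x => PK x.L x.δ x.μ
def cm (M : Mat) : Fm := fun x => mm (nu x.L x.δ) fun _ => M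

lemma P1_mem : P1 ∈ Wa := Algebra.subset_adjoin (mem_insert _ _)
lemma Dsy_mem : Dsy ∈ Wa := Algebra.subset_adjoin (mem_insert_of_mem _ (mem_insert _ _))
lemma csy_mem (T : Y →L[ℂ] Y) : csy T ∈ Wa :=
  Algebra.subset_adjoin (mem_insert_of_mem _ (mem_insert_of_mem _ (mem_range_self _)))

/-- expansions starting at the weight `w` -/
def Ex (N w : ℕ) : Submodule ℂ Fm :=
  Submodule.span ℂ ({T | ∃ α, ∃ f ∈ Wa, w ≤ wt α ∧ T = ms α * op f} ∪ Sm N)

lemma Ex_gen {N w : ℕ} {α : List ℕ} {f : Sy} (hf : f ∈ Wa) (h : w ≤ wt α) :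
    ms α * op f ∈ Ex N w := Submodule.subset_span (Or.inl ⟨α, f, hf, h, rfl⟩)

lemma Ex_sm {N w : ℕ} {T : Fm} (h : T ∈ Sm N) : T ∈ Ex N w := Submodule.subset_span (Or.inr h)

lemma Ex_ind {N w : ℕ} {U : Submodule ℂ Fm} (a b : Fm)
    (h1 : ∀ α, ∀ f ∈ Wa, w ≤ wt α → a * (ms α * op f) * b ∈ U) (h2 : ∀ R ∈ Sm N, a * R * b ∈ U)
    {T : Fm} (hT : T ∈ Ex N w) : a * T * b ∈ U := by
  induction hT using Submodule.span_induction with
  | mem T hT =>
    rcases hT with ⟨α, f, hf, h, rfl⟩ | hT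
    exacts [h1 α f hf h, h2 T hT]
  | zero => simp
  | add S T _ _ hS hT => rw [mul_add, add_mul]; exact U.add_mem hS hT
  | smul c T _ hT => rw [mul_smul_comm, smul_mul_assoc]; exact U.smul_mem c hT

lemma Ex_mono {N w w' : ℕ} (h : w ≤ w') {T : Fm} (hT : T ∈ Ex N w') : T ∈ Ex N w := by
  simpa using Ex_ind (U := Ex N w) 1 1 (fun α f hf hα => by simpa using Ex_gen hf (h.trans hα))
    (fun R hR => by simpa using Ex_sm hR) hT

variable (hT : St_TAY) (hO : St_OP)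
include hT hO

lemma op_io {f : Sy} (hf : f ∈ Wa) (x : Par) (n : ℤ) :
    op f x ∘L io x.L x.δ n = io x.L x.δ n ∘L f (x.μ * x.δ) (xi x.L n / x.μ) := by
  obtain ⟨C, q, h⟩ := (hT f hf).1
  exact ((hO _ _ x.hL x.hδ).2.1 _ _ fun n => h _ _ x.hD).2 n

lemma op_mem {f : Sy} (hf : f ∈ Wa) : op f ∈ Sm 0 := by
  obtain ⟨C, q, h⟩ := (hT f hf).1
  refine ⟨0, q, fun K => ⟨C, fun x _ => ?_⟩⟩
  simpa [op, opw] using ((hO _ _ x.hL x.hδ).2.1 _ _ fun n => h _ _ x.hD).1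

lemma op_eq {f : Sy} (hf : f ∈ Wa) {T : Fm} (h : ∀ x n,
    T x ∘L io x.L x.δ n = io x.L x.δ n ∘L f (x.μ * x.δ) (xi x.L n / x.μ)) : op f = T :=
  funext fun x => (hO _ _ x.hL x.hδ).1 _ _ fun n => by rw [op_io hT hO hf, h]

lemma op_mul {f g : Sy} (hf : f ∈ Wa) (hg : g ∈ Wa) : op (f * g) = op f * op g :=
  op_eq hT hO (mul_mem hf hg) fun x n => by
    change (op f x ∘L op g x) ∘L _ = _ ∘L (f _ _ ∘L g _ _)
    rw [ContinuousLinearMap.comp_assoc, op_io hT hO hg, ← ContinuousLinearMap.comp_assoc,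
      op_io hT hO hf, ContinuousLinearMap.comp_assoc]

lemma op_smul {f : Sy} (hf : f ∈ Wa) (c : ℂ) : op (c • f) = c • op f :=
  op_eq hT hO (Wa.smul_mem hf c) fun x n => by
    simp only [Pi.smul_apply, ContinuousLinearMap.smul_comp, ContinuousLinearMap.comp_smul,
      op_io hT hO hf]

lemma op_one : op 1 = 1 := op_eq hT hO (one_mem _) fun _ _ => rfl

lemma op_P : op P1 = PF := op_eq hT hO P1_mem fun x n => (hO _ _ x.hL x.hδ).2.2.1 _ n x.μ0

lemma op_cm (M : Mat) : op (csy (mm nu1 fun _ => M)) = cm M :=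
  op_eq hT hO (csy_mem _) fun x n => (hO _ _ x.hL x.hδ).2.2.2.1 (fun _ => M) n continuous_const

lemma op_r : op (Dsy * csy (sm nu1 fun r => (r : ℂ))) = sf fun x z => (x.μ * z.im : ℝ) :=
  op_eq hT hO (mul_mem Dsy_mem (csy_mem _)) fun x n => by
    have h := (hO _ _ x.hL x.hδ).2.2.2.1 (fun r => (r : ℂ) • (1 : Mat)) n (by fun_prop)
    have b : Bs (nu x.L x.δ) fun z => ((z.im / x.δ : ℝ) : ℂ) :=
      Bs_rect fun _ _ => Continuous.continuousAt (by fun_prop)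
    have e : sf (fun x z => (x.μ * z.im : ℝ)) x = ((x.μ * x.δ : ℝ) : ℂ) •
        sm (nu x.L x.δ) fun z => ((z.im / x.δ : ℝ) : ℂ) := by
      rw [smul_sm b]
      refine sm_congr (ae_of_all _ fun z => ?_)
      have := x.hδ.ne'
      simp only [← ofReal_mul]
      congr 1; field_simp
    rw [e, ContinuousLinearMap.smul_comp, sm, h]
    simp only [Pi.mul_apply, Dsy, csy, smul_mul_assoc, one_mul, ContinuousLinearMap.comp_smul, sm]

lemma Ex_Sm {N w v : ℕ} (h : v ≤ N) (h' : v ≤ w) {T : Fm} (hT' : T ∈ Ex N w) : T ∈ Sm v := by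
  simpa using Ex_ind (U := Sm v) 1 1 (fun α f hf hα => by
    simpa using Sm_mono (by omega) (Sm_mul (ms_mem α) (op_mem hT hO hf)))
    (fun R hR => by simpa using Sm_mono h hR) hT'

lemma Ex_op {N : ℕ} {f : Sy} (hf : f ∈ Wa) : op f ∈ Ex N 0 := by
  simpa [ms_nil] using Ex_gen (N := N) (α := []) hf (Nat.zero_le _)

lemma Ex_ms {N : ℕ} (α : List ℕ) : ms α ∈ Ex N (wt α) := by
  simpa [op_one hT hO] using Ex_gen (N := N) (α := α) (one_mem Wa) le_rfl

lemma Ex_side {N w : ℕ} (α : List ℕ) {g : Sy} (hg : g ∈ Wa) {T : Fm} (h : T ∈ Ex N w) :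
    ms α * T * op g ∈ Ex N (wt α + w) := by
  refine Ex_ind _ _ (fun β f hf hβ => ?_) (fun R hR => Ex_sm (Sm_mul0
    (Sm_mono (Nat.zero_le _) (ms_mem α)) hR (op_mem hT hO hg))) h
  rw [← mul_assoc, ms_mul, mul_assoc, ← op_mul hT hO hf hg]
  exact Ex_gen (mul_mem hf hg) (by rw [wt_append]; omega)

omit hT hO in
lemma sf_msum (l : List (List ℕ)) {w : ℕ} (hl : ∀ γ ∈ l, wt γ = w) :
    sf (fun x z => ((x.μ ^ w)⁻¹ : ℝ) * (msum l x.κ z.re : ℝ)) = (l.map ms).sum := by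
  induction l with
  | nil => simpa [msum] using sf_zero
  | cons a β ih =>
    rw [List.map_cons, List.sum_cons, ← ih fun γ hγ => hl γ (List.mem_cons_of_mem _ hγ), ms,
      sf_add (h := fun x z => ((x.μ ^ w)⁻¹ : ℝ) * (msum β x.κ z.re : ℝ)) (ct_mg a) fun x z hz =>
        continuousAt_const.mul (ct_re (fun x => (s_msum x.sκ β).continuous) x z hz)]
    refine sf_congr fun x z _ => ?_
    simp [msum, mg, hl a List.mem_cons_self, mul_add]

omit hT hO in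
lemma Ex_iter {N : ℕ} (β : List ℕ) (j : ℕ) {f : Sy} (hf : f ∈ Wa) :
    sf (fun x z => ((x.μ ^ (wt β + j))⁻¹ : ℝ) * (iteratedDeriv j (mono β x.κ) z.re : ℝ)) * op f ∈
      Ex N (wt β + j) := by
  obtain ⟨l, h1, h2⟩ := iter_mono β j
  rw [sf_congr (h := fun x z => ((x.μ ^ (wt β + j))⁻¹ : ℝ) * (msum l x.κ z.re : ℝ))
    fun x z _ => by rw [h2 _ x.sκ], sf_msum l h1, ← List.sum_map_mul_right]
  refine list_sum_mem fun T hT => ?_
  obtain ⟨γ, hγ, rfl⟩ := List.mem_map.1 hT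
  exact Ex_gen hf (h1 γ hγ).ge

variable (hC : St_COM)
include hC

lemma Ex_comm {N : ℕ} {f : Sy} (hf : f ∈ Wa) (β : List ℕ) :
    op f * ms β - ms β * op f ∈ Ex N (wt β + 1) := by
  obtain ⟨F, hF, F0, q, h⟩ := hC f hf (N + 1)
  let t : ℕ → Fm := fun j => sf (fun x z => ((x.μ ^ (wt β + j))⁻¹ : ℝ) *
    (iteratedDeriv j (mono β x.κ) z.re : ℝ)) * op (F j)
  have t0 : t 0 = ms β * op f := by simp only [t, F0, add_zero, iteratedDeriv_zero]; rfl
  have e : op f * ms β - ms β * op f = (op f * ms β - ∑ j ∈ Finset.range (N + 1), t j) +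
      ∑ j ∈ Finset.range N, t (j + 1) := by
    rw [Finset.sum_range_succ', t0]; abel
  rw [e]
  refine add_mem (Ex_sm (Sm_mono (Nat.le_succ N) ?_)) (sum_mem fun j _ =>
    Ex_mono (by omega) (Ex_iter β (j + 1) (hF _)))
  choose l h1 h2 using iter_mono β
  refine ⟨wt β + N + 3, q, fun K => ?_⟩
  obtain ⟨C, h⟩ := h K
  let K' := (∑ j ∈ Finset.range (N + 4), ((l j).length : ℝ)) * K ^ (wt β + N + 3)
  refine ⟨C * K', fun x hx => ?_⟩
  have k1 := hx.kap.one_le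
  have h3 := h x.L x.δ x.μ K' (mono β x.κ) k1 hx.lo hx.hi x.hδ x.hμ x.hD
    ⟨s_mono x.sκ β, per_mono x.per β⟩ fun j hj s => by
      rw [h2 j _ x.sκ]
      refine (msum_le hx.toBnd _ (fun γ hγ => by rw [h1 j γ hγ]; omega) s).trans ?_
      refine mul_le_mul_of_nonneg_right ?_ (by positivity)
      exact Finset.single_le_sum (f := fun j => ((l j).length : ℝ)) (fun _ _ => by positivity)
        (Finset.mem_range.2 (by omega))
  have e2 : (op f * ms β - ∑ j ∈ Finset.range (N + 1), t j) x = (((x.μ ^ wt β)⁻¹ : ℝ) : ℂ) •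
      (opw x.L x.δ x.μ f * sms x.L x.δ (mono β x.κ) - ∑ j ∈ Finset.range (N + 1),
        (((x.μ ^ j)⁻¹ : ℝ) : ℂ) • (sms x.L x.δ (iteratedDeriv j (mono β x.κ)) *
          opw x.L x.δ x.μ (F j))) := by
    rw [Pi.sub_apply, Pi.mul_apply, ms_apply, Finset.sum_apply, smul_sub, mul_smul_comm,
      Finset.smul_sum]
    refine congrArg₂ _ rfl (Finset.sum_congr rfl fun j _ => ?_)
    rw [smul_smul, ← smul_mul_assoc, sms,
      smul_sm ((ct_re fun x => (s_iter (s_mono x.sκ β) j).continuous).bs x), ← ofReal_mul,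
      ← mul_inv, ← pow_add]
    rfl
  rw [e2, norm_smul]
  refine (mul_le_of_le_one_left (norm_nonneg _) ?_).trans h3
  have := x.μ0
  rw [norm_real, Real.norm_of_nonneg (by positivity)]
  exact inv_le_one_of_one_le₀ (one_le_pow₀ x.hμ)

lemma Ex_mul {N w w' : ℕ} {S T : Fm} (hS : S ∈ Ex N w) (hT' : T ∈ Ex N w') :
    S * T ∈ Ex N (w + w') := by
  have h0 := Ex_Sm hT hO (Nat.zero_le _) (Nat.zero_le _) hT'
  rw [← one_mul S]
  refine Ex_ind 1 T (fun α f hf hα => ?_) (fun R hR => Ex_sm (Sm_mul0 Sm_one hR h0)) hS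
  rw [one_mul, ← mul_one (_ * T)]
  refine Ex_ind _ 1 (fun β g hg hβ => ?_) (fun R hR => Ex_sm (Sm_mul0
    (Ex_Sm hT hO (Nat.zero_le N) (Nat.zero_le _) (Ex_gen hf hα)) hR Sm_one)) hT'
  have e : ms α * op f * (ms β * op g) * 1 = ms α * ms β * (op f * op g) +
      ms α * (op f * ms β - ms β * op f) * op g := by noncomm_ring
  rw [e, ms_mul, ← op_mul hT hO hf hg]
  exact add_mem (Ex_gen (mul_mem hf hg) (by rw [wt_append]; omega))
    (Ex_mono (by omega) (Ex_side hT hO α hg (Ex_comm hT hO hC hf β)))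

lemma Ex_mul0 {N w : ℕ} {S T : Fm} (hS : S ∈ Ex N 0) (hT' : T ∈ Ex N w) : S * T ∈ Ex N w := by
  simpa using Ex_mul hT hO hC hS hT'

lemma Ex_mul0' {N w : ℕ} {S T : Fm} (hS : S ∈ Ex N w) (hT' : T ∈ Ex N 0) : S * T ∈ Ex N w := by
  simpa using Ex_mul hT hO hC hS hT'

lemma Ex_one {N : ℕ} : (1 : Fm) ∈ Ex N 0 := by
  rw [← op_one hT hO]; exact Ex_op hT hO (one_mem _)

lemma Ex_pow {N : ℕ} {B : Fm} (hB : B ∈ Ex N 1) (j : ℕ) : B ^ j ∈ Ex N j := by
  induction j with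
  | zero => simpa using Ex_one hT hO hC
  | succ j ih => rw [pow_succ]; exact Ex_mul hT hO hC ih hB

/-- Neumann series -/
lemma Ex_inv {N : ℕ} {B Z : Fm} (hB : B ∈ Ex N 1) (hZ : Z ∈ Sm 0) (h : (1 - B) * Z = 1) :
    Z ∈ Ex N 0 := by
  have e : Z = ∑ j ∈ Finset.range N, B ^ j + B ^ N * Z := by
    have h1 := geom_sum_mul_neg B N
    calc Z = (1 - B ^ N) * Z + B ^ N * Z := by noncomm_ring
      _ = _ := by rw [← h1, mul_assoc, h, mul_one]
  rw [e]
  refine add_mem (sum_mem fun j _ => Ex_mono (Nat.zero_le _) (Ex_pow hT hO hC hB j)) (Ex_sm ?_)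
  exact Sm_mul (Ex_Sm hT hO le_rfl le_rfl (Ex_pow hT hO hC hB N)) hZ

end Pool.Agent.Lib.ISO.NF
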