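import Pool.Agent.Lib.ISO.BlueE

open scoped InnerProductSpace ENNReal ContDiff ComplexConjugate Topology
open MeasureTheory Complex Set Filter

noncomputable section

namespace Pool.Agent.Lib.ISO

open Pool.Agent.Lib.MP_312682_mp

namespace OP

variable {L δ : ℝ}

lemma mp_sc (hδ : 0 < δ) : MeasurePreserving (fun z : ℂ => z.im / δ) (nu L δ)
    (volume (Ioc 0 L) • ENNReal.ofReal δ • nu1) := by
  have h1 : MeasurePreserving (fun x : ℝ => x * δ⁻¹) volume (ENNReal.ofReal δ • volume) :=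
    ⟨by fun_prop, by
      rw [Real.map_volume_mul_right (inv_ne_zero hδ.ne'), inv_inv, abs_of_pos hδ]⟩
  have h2 := h1.restrict_preimage (s := Ioc 0 1) measurableSet_Ioc
  have e : (fun x : ℝ => x * δ⁻¹) ⁻¹' Ioc 0 1 = Ioc 0 δ := by
    ext x
    simp only [mem_preimage, mem_Ioc, ← div_eq_mul_inv, lt_div_iff₀ hδ, div_le_one hδ, zero_mul]
  rw [e, Measure.restrict_smul] at h2
  have h3 : MeasurePreserving Prod.snd (rho L δ)
      (volume (Ioc 0 L) • volume.restrict (Ioc 0 δ)) :=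
    ⟨measurable_snd, by rw [rho, Measure.map_snd_prod, Measure.restrict_apply_univ]⟩
  have h4 := ((h2.smul_measure (volume (Ioc 0 L))).comp h3).comp (mp_rect L δ).symm
  have e2 : (fun z : ℂ => z.im / δ) = ((fun x : ℝ => x * δ⁻¹) ∘ Prod.snd) ∘
      (measurableEquivRealProd.symm.symm) := by
    ext z
    simp [div_eq_mul_inv]
  rw [e2]
  exact h4

lemma ae_sc (hδ : 0 < δ) {p : ℝ → Prop} (h : ∀ᵐ r ∂nu1, p r) : ∀ᵐ z ∂nu L δ, p (z.im / δ) :=
  (mp_sc hδ).quasiMeasurePreserving.ae (Measure.ae_smul_measure (Measure.ae_smul_measure h _) _)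

lemma memLp_io (hδ : 0 < δ) {α : ℝ → ℂ} (hα : Continuous α) (y : Y) :
    MemLp (fun z : ℂ => α z.re • y (z.im / δ)) 2 (nu L δ) := by
  have h1 : MemLp (fun z : ℂ => y (z.im / δ)) 2 (nu L δ) :=
    (((Lp.memLp y).smul_measure ENNReal.ofReal_ne_top).smul_measure
      (by simp)).comp_measurePreserving (mp_sc hδ)
  have hc : Continuous fun z : ℂ => α z.re := hα.comp continuous_re
  obtain ⟨C, hC⟩ := bound_rect (L := L) (δ := δ) (f := fun z : ℂ => α z.re)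
    fun _ _ => hc.continuousAt
  refine h1.of_le_mul (c := C) (hc.aestronglyMeasurable.smul h1.1) ?_
  filter_upwards [hC] with z hz
  rw [norm_smul]
  exact mul_le_mul_of_nonneg_right hz (norm_nonneg _)

lemma inner_ten (hL : 0 < L) (hδ : 0 < δ) {α α' : ℝ → ℂ} {y y' : Y} {u u' : L2 (nu L δ)}
    (hu : u =ᵐ[nu L δ] fun z => α z.re • y (z.im / δ))
    (hu' : u' =ᵐ[nu L δ] fun z => α' z.re • y' (z.im / δ)) :
    ⟪u, u'⟫_ℂ = (∫ s in (0 : ℝ)..L, conj (α s) * α' s) * δ * ⟪y, y'⟫_ℂ := by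
  have h1 : ⟪u, u'⟫_ℂ = ∫ z, (conj (α z.re) * α' z.re) *
      ⟪y (z.im / δ), y' (z.im / δ)⟫_ℂ ∂nu L δ := by
    rw [L2.inner_def]
    refine integral_congr_ae ?_
    filter_upwards [hu, hu'] with z h1 h2
    rw [h1, h2, inner_smul_left, inner_smul_right, mul_assoc]
  rw [h1, ← (mp_rect L δ).integral_comp']
  have h2 := integral_prod_mul (μ := volume.restrict (Ioc 0 L)) (ν := volume.restrict (Ioc 0 δ))
    (fun s => conj (α s) * α' s) (fun x => ⟪y (x / δ), y' (x / δ)⟫_ℂ)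
  have h3 := intervalIntegral.integral_comp_div (a := 0) (b := δ)
    (fun r => ⟪y r, y' r⟫_ℂ) hδ.ne'
  rw [zero_div, div_self hδ.ne', intervalIntegral.integral_of_le hδ.le,
    intervalIntegral.integral_of_le zero_le_one] at h3
  rw [h3, ← intervalIntegral.integral_of_le hL.le] at h2
  rw [L2.inner_def, mul_assoc, ← real_smul]
  refine Eq.trans ?_ h2
  rw [rho]
  refine integral_congr_ae (Eventually.of_forall fun p => ?_)
  simp

/-- the tangential factor -/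
def al (L δ : ℝ) (n : ℤ) (s : ℝ) : ℂ := ex L n s * ((√δ : ℝ) : ℂ)⁻¹

lemma c_al (L δ : ℝ) (n : ℤ) : Continuous (al L δ n) := (continuous_ex L n).mul continuous_const

lemma sq_inv (hδ : 0 < δ) : conj (((√δ : ℝ) : ℂ)⁻¹) * ((√δ : ℝ) : ℂ)⁻¹ * δ = 1 := by
  have h : ((√δ : ℝ) : ℂ) * ((√δ : ℝ) : ℂ) = δ := by
    rw [← ofReal_mul, Real.mul_self_sqrt hδ.le]
  have h0 : ((√δ : ℝ) : ℂ) ≠ 0 := ofReal_ne_zero.2 (Real.sqrt_pos.2 hδ).ne'
  rw [map_inv₀, conj_ofReal, ← h]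
  field_simp

lemma int_al (hL : 0 < L) (hδ : 0 < δ) (n : ℤ) (g : ℝ → ℝ) :
    (∫ s in (0 : ℝ)..L, conj (al L δ n s) * al L δ n s * g s) * δ =
      (((∫ s in (0 : ℝ)..L, g s) / L : ℝ) : ℂ) := by
  have e : ∀ s, conj (al L δ n s) * al L δ n s * g s =
      (conj (((√δ : ℝ) : ℂ)⁻¹) * ((√δ : ℝ) : ℂ)⁻¹ * (L⁻¹ : ℝ)) * g s := fun s => by
    rw [← conj_ex_mul hL n s, al, map_mul]
    ring
  simp_rw [e]
  rw [intervalIntegral.integral_const_mul, intervalIntegral.integral_ofReal]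
  push_cast
  linear_combination ((L : ℂ)⁻¹ * ((∫ s in (0 : ℝ)..L, g s : ℝ) : ℂ)) * sq_inv hδ

lemma int_al1 (hL : 0 < L) (hδ : 0 < δ) (n : ℤ) :
    (∫ s in (0 : ℝ)..L, conj (al L δ n s) * al L δ n s) * δ = 1 := by
  have h := int_al hL hδ n fun _ => 1
  simp only [ofReal_one, mul_one, intervalIntegral.integral_const, sub_zero, smul_eq_mul,
    div_self hL.ne'] at h
  exact h

lemma ex_add (L : ℝ) (n k : ℤ) (s : ℝ) : exp (I * xi L k * s) * ex L n s = ex L (n + k) s := by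
  rw [ex, ex, xi, mul_left_comm, ← exp_add]
  congr 2
  push_cast
  ring

lemma int_al0 (hL : 0 < L) {n m : ℤ} (h : n ≠ m) :
    ∫ s in (0 : ℝ)..L, conj (al L δ n s) * al L δ m s = 0 := by
  have e : ∀ s, conj (al L δ n s) * al L δ m s =
      (conj (((√δ : ℝ) : ℂ)⁻¹) * ((√δ : ℝ) : ℂ)⁻¹ * (L⁻¹ : ℝ)) * exp (I * xi L (m - n) * s) :=
    fun s => by
      have h1 := ex_add L n (m - n) s
      rw [add_sub_cancel] at h1
      rw [← conj_ex_mul hL n s, al, al, map_mul, ← h1]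
      ring
  simp_rw [e]
  have hL' : (L : ℂ) ≠ 0 := ofReal_ne_zero.2 hL.ne'
  have hc : I * xi L (m - n) ≠ 0 := by
    refine mul_ne_zero I_ne_zero (ofReal_ne_zero.2 ?_)
    refine mul_ne_zero (by positivity) ?_
    exact_mod_cast sub_ne_zero.2 h.symm
  have h1 : I * xi L (m - n) * L = ((m - n : ℤ) : ℂ) * (2 * Real.pi * I) := by
    rw [xi]
    push_cast
    field_simp
  rw [intervalIntegral.integral_const_mul, integral_exp_mul_complex hc, h1, exp_int_mul_two_pi_mul_I]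
  simp

lemma exists_io (hL : 0 < L) (hδ : 0 < δ) (n : ℤ) : ∃ T : Y →L[ℂ] L2 (nu L δ), ∀ y,
    T y =ᵐ[nu L δ] fun z => (ex L n z.re * ((√δ : ℝ) : ℂ)⁻¹) • y (z.im / δ) := by
  let A : Y →ₗ[ℂ] L2 (nu L δ) :=
    { toFun := fun y => (memLp_io hδ (c_al L δ n) y).toLp _
      map_add' := fun y y' => by
        rw [← MemLp.toLp_add]
        refine MemLp.toLp_congr _ _ ?_
        filter_upwards [ae_sc (L := L) hδ (Lp.coeFn_add y y')] with z hz
        rw [hz, Pi.add_apply, Pi.add_apply, smul_add]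
      map_smul' := fun c y => by
        rw [RingHom.id_apply, ← MemLp.toLp_const_smul]
        refine MemLp.toLp_congr _ _ ?_
        filter_upwards [ae_sc (L := L) hδ (Lp.coeFn_smul c y)] with z hz
        rw [hz, Pi.smul_apply, Pi.smul_apply, smul_comm] }
  have hA : ∀ y, A y =ᵐ[nu L δ] fun z => al L δ n z.re • y (z.im / δ) := fun y =>
    (memLp_io hδ (c_al L δ n) y).coeFn_toLp
  refine ⟨A.mkContinuous 1 fun y => ?_, hA⟩
  have h := inner_ten hL hδ (hA y) (hA y)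
  rw [int_al1 hL hδ, one_mul] at h
  rw [one_mul, @norm_eq_sqrt_re_inner ℂ, @norm_eq_sqrt_re_inner ℂ _ _ _ _ y, h]

lemma io_coe (hL : 0 < L) (hδ : 0 < δ) (n : ℤ) (y : Y) :
    io L δ n y =ᵐ[nu L δ] fun z => al L δ n z.re • y (z.im / δ) := by
  rw [io, dif_pos (exists_io hL hδ n)]
  exact (exists_io hL hδ n).choose_spec y

lemma inner_io (hL : 0 < L) (hδ : 0 < δ) (n : ℤ) (y y' : Y) :
    ⟪io L δ n y, io L δ n y'⟫_ℂ = ⟪y, y'⟫_ℂ := by
  rw [inner_ten hL hδ (io_coe hL hδ n y) (io_coe hL hδ n y'), int_al1 hL hδ, one_mul]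

lemma inner_io0 (hL : 0 < L) (hδ : 0 < δ) {n m : ℤ} (h : n ≠ m) (y y' : Y) :
    ⟪io L δ n y, io L δ m y'⟫_ℂ = 0 := by
  rw [inner_ten hL hδ (io_coe hL hδ n y) (io_coe hL hδ m y'), int_al0 hL h, zero_mul, zero_mul]

lemma bound1 {E : Type} [NormedAddCommGroup E] {f : ℝ → E} (hf : Continuous f) :
    ∃ C, ∀ᵐ r ∂nu1, ‖f r‖ ≤ C := by
  obtain ⟨C, hC⟩ := (isCompact_Icc (a := (0 : ℝ)) (b := 1)).exists_bound_of_continuousOn
    hf.continuousOn
  exact ⟨C, (ae_restrict_mem measurableSet_Ioc).mono fun r hr => hC r (Ioc_subset_Icc_self hr)⟩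

lemma t1_coe {a b c : ℝ → ℂ} (ha : Continuous a) (hb : Continuous b) (hc : Continuous c) :
    t1 a b c =ᵐ[nu1] fun r => (!₂[a r, b r, c r] : E3) := by
  have h := continuous_E3 ha hb hc
  obtain ⟨C, hC⟩ := bound1 h
  exact tl_coe (MemLp.of_bound h.aestronglyMeasurable C hC)

lemma io_t1 (hL : 0 < L) (hδ : 0 < δ) (n : ℤ) {a b c a' b' c' : ℝ → ℂ} (ha : Continuous a)
    (hb : Continuous b) (hc : Continuous c)
    (ea : ∀ x, a' x = ((√δ : ℝ) : ℂ)⁻¹ * a (x / δ)) (eb : ∀ x, b' x = ((√δ : ℝ) : ℂ)⁻¹ * b (x / δ))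
    (ec : ∀ x, c' x = ((√δ : ℝ) : ℂ)⁻¹ * c (x / δ)) :
    io L δ n (t1 a b c) = tv L δ n a' b' c' := by
  have ha' : Continuous a' := by rw [show a' = _ from funext ea]; fun_prop
  have hb' : Continuous b' := by rw [show b' = _ from funext eb]; fun_prop
  have hc' : Continuous c' := by rw [show c' = _ from funext ec]; fun_prop
  refine Lp.ext ?_
  filter_upwards [io_coe hL hδ n (t1 a b c), ae_sc (L := L) hδ (t1_coe ha hb hc),
    tv_coe (L := L) (δ := δ) n ha' hb' hc'] with z h1 h2 h3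
  rw [h1, h2, h3, ea, eb, ec, al]
  refine E3_ext ?_ ?_ ?_ <;> simp [mul_assoc]

lemma io_f1 (hL : 0 < L) (hδ : 0 < δ) (n j : ℤ) : io L δ n (f1 j) = fr L δ (n, j) := by
  refine io_t1 hL hδ n (continuous_ex 1 j) continuous_zero continuous_zero (fun x => ?_)
    (fun x => by simp) fun x => by simp
  have h0 : (δ : ℂ) ≠ 0 := ofReal_ne_zero.2 hδ.ne'
  rw [ex, ex, Real.sqrt_one, ofReal_one, inv_one, one_mul]
  congr 2
  push_cast
  field_simp

lemma mm_io (hL : 0 < L) (hδ : 0 < δ) {M : ℝ → Mat} (n : ℤ) (hM : Continuous M) :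
    mm (nu L δ) (fun z => M (z.im / δ)) ∘L io L δ n = io L δ n ∘L mm nu1 M := by
  have b1 : Bd (nu L δ) fun z => M (z.im / δ) :=
    Bd_rect fun _ _ => (hM.comp (by fun_prop)).continuousAt
  have b2 : Bd nu1 M :=
    ⟨(continuous_act.comp hM).aestronglyMeasurable, bound1 (continuous_act.comp hM)⟩
  refine ContinuousLinearMap.ext fun y => Lp.ext ?_
  filter_upwards [mm_coe b1 (io L δ n y), io_coe hL hδ n y, io_coe hL hδ n (mm nu1 M y),
    ae_sc (L := L) hδ (mm_coe b2 y)] with z h1 h2 h3 h4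
  rw [ContinuousLinearMap.comp_apply, ContinuousLinearMap.comp_apply, h1, h2, h3, h4, map_smul]

lemma sm_io (hL : 0 < L) (hδ : 0 < δ) (n k : ℤ) :
    sm (nu L δ) (fun z => exp (I * xi L k * z.re)) ∘L io L δ n = io L δ (n + k) := by
  have b1 : Bs (nu L δ) fun z => exp (I * xi L k * z.re) := Bs_rect fun _ _ => by fun_prop
  refine ContinuousLinearMap.ext fun y => Lp.ext ?_
  filter_upwards [sm_coe b1 (io L δ n y), io_coe hL hδ n y, io_coe hL hδ (n + k) y] with z h1 h2 h3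
  rw [ContinuousLinearMap.comp_apply, h1, h2, h3, smul_smul, al, al, ← mul_assoc, ex_add]

lemma sms_coe (hL : 0 < L) (hδ : 0 < δ) {a : ℝ → ℝ} (ha : Continuous a) (n : ℤ) (y : Y) :
    sms L δ a (io L δ n y) =ᵐ[nu L δ] fun z => (a z.re * al L δ n z.re) • y (z.im / δ) := by
  have b1 : Bs (nu L δ) fun z => (a z.re : ℂ) := Bs_rect fun _ _ => by fun_prop
  filter_upwards [sm_coe b1 (io L δ n y), io_coe hL hδ n y] with z h1 h2
  rw [sms, h1, h2, smul_smul]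

lemma inner_sms (hL : 0 < L) (hδ : 0 < δ) {a a' : ℝ → ℝ} (n : ℤ) (y y' : Y) (ha : Continuous a)
    (ha' : Continuous a') : ⟪sms L δ a (io L δ n y), sms L δ a' (io L δ n y')⟫_ℂ =
      ((∫ s in (0 : ℝ)..L, a s * a' s) / L : ℝ) * ⟪y, y'⟫_ℂ := by
  rw [inner_ten (α := fun s => a s * al L δ n s) (α' := fun s => a' s * al L δ n s) hL hδ
    (sms_coe hL hδ ha n y) (sms_coe hL hδ ha' n y'), ← int_al hL hδ n]
  congr 3
  ext s
  rw [map_mul, conj_ofReal]
  push_cast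
  ring

end OP

end Pool.Agent.Lib.ISO
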