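import Pool.Agent.Lib.ISO.BlueV

/-! Block PSI: the expansion of the second variation. -/

noncomputable section

namespace Pool.Agent.Lib.ISO

namespace PSI

theorem ins (σ : ℝ) (ρ : ℝ → ℝ → ℝ) (h : InS (-2) ρ) : InS 0 (ph3 σ + ρ - sy 0 1) := by
  obtain ⟨g, hg, he⟩ := h
  have hm : ∀ (a : ℕ) (b : ℤ), 2 * a + b ≤ 0 → sy a b ∈ SyL 0 := fun a b hab =>
    Submodule.subset_span ⟨a, b, hab, rfl⟩
  have hg0 : g ∈ SyL 0 := by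
    refine Submodule.span_mono ?_ hg
    rintro f ⟨a, b, hab, rfl⟩
    exact ⟨a, b, by omega, rfl⟩
  refine ⟨σ • ((1 / 2 : ℝ) • sy 0 0 - (1 / 2 : ℝ) • sy 1 (-2)) +
    ((1 / 2 : ℝ) • sy 1 (-3) - (5 / 8 : ℝ) • sy 2 (-5)) + g, ?_, fun τ s hτ hs => ?_⟩
  · refine add_mem (add_mem (Submodule.smul_mem _ _ (sub_mem ?_ ?_)) (sub_mem ?_ ?_)) hg0 <;>
      exact Submodule.smul_mem _ _ (hm _ _ (by norm_num))
  · simp only [ph3, Pi.add_apply, Pi.sub_apply, Pi.smul_apply, smul_eq_mul, he τ s hτ hs]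
    ring

theorem one (R μ C B : ℝ) (N : ℕ) (a : ℕ → ℝ) (hR : 0 < R) (hμ : 0 < μ)
    (h : |B - ∑ n ∈ Finset.range N, a n / (μ * R) ^ n| ≤ C / (μ * R) ^ N) :
    |R ^ 2 * B - ∑ n ∈ Finset.range N, R ^ 2 * a n / R ^ n / μ ^ n| ≤
      R ^ 2 * C / R ^ N / μ ^ N := by
  have e : R ^ 2 * B - ∑ n ∈ Finset.range N, R ^ 2 * a n / R ^ n / μ ^ n =
      R ^ 2 * (B - ∑ n ∈ Finset.range N, a n / (μ * R) ^ n) := by
    rw [mul_sub, Finset.mul_sum]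
    congr 1
    refine Finset.sum_congr rfl fun n _ => ?_
    rw [mul_pow]
    field_simp
  have e2 : R ^ 2 * C / R ^ N / μ ^ N = R ^ 2 * (C / (μ * R) ^ N) := by
    rw [mul_pow]
    field_simp
  rw [e, e2, abs_mul, abs_of_pos (pow_pos hR 2)]
  exact mul_le_mul_of_nonneg_left h (pow_pos hR 2).le

theorem two (R C x p y : ℝ) (m : ℕ) (hR : 0 < R) (h : |x - p| ≤ C * y) :
    |R ^ 2 * x / R ^ (2 * m + 5) - (R ^ (2 * m + 3))⁻¹ * p| ≤ (R ^ (2 * m + 3))⁻¹ * C * y := by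
  have e : R ^ 2 * x / R ^ (2 * m + 5) - (R ^ (2 * m + 3))⁻¹ * p =
      (R ^ (2 * m + 3))⁻¹ * (x - p) := by
    field_simp
    ring
  have h0 : 0 < (R ^ (2 * m + 3))⁻¹ := by positivity
  rw [e, abs_mul, abs_of_pos h0, mul_assoc]
  exact mul_le_mul_of_nonneg_left h h0.le

end PSI

open PSI in
theorem st_psi (hSYM : St_SYM) (hPS1 : St_PS1) (hPS2 : St_PS2) : St_PSI := by
  intro N
  obtain ⟨ρ, hρ, hr⟩ := hSYM N 1 (Or.inl rfl)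
  obtain ⟨ρ', hρ', hr'⟩ := hSYM N (-1) (Or.inr rfl)
  obtain ⟨ψ, h1, h2⟩ := hPS2 1 ρ N (Or.inl rfl) hρ
  obtain ⟨ψ', h1', h2'⟩ := hPS2 (-1) ρ' N (Or.inr rfl) hρ'
  have hR : 0 < R1 := by norm_num [R1]
  have hr0 : 0 < r0 := by norm_num [r0]
  refine ⟨fun n k => R1 ^ 2 * ψ n k / R1 ^ n + r0 ^ 2 * ψ' n k / r0 ^ n, fun k => ?_,
    fun m hm => ?_⟩
  · obtain ⟨C, μ0, h⟩ := hPS1 N k _ _ (ins 1 ρ hρ) hr (ins (-1) ρ' hρ') hr'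
    obtain ⟨C1, h3⟩ := h1 k
    obtain ⟨C2, h4⟩ := h1' k
    refine ⟨C + (R1 ^ 2 * C1 / R1 ^ N + r0 ^ 2 * C2 / r0 ^ N), max μ0 2, fun μ g hμ hg => ?_⟩
    have hμ2 : 2 ≤ μ := (le_max_right _ _).trans hμ
    have a0 := h μ g ((le_max_left _ _).trans hμ) hg
    have a1 := one R1 μ C1 _ N (fun n => ψ n k) hR (by linarith)
      (h3 (μ * R1) (by unfold R1; linarith))
    have a2 := one r0 μ C2 _ N (fun n => ψ' n k) hr0 (by linarith)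
      (h4 (μ * r0) (by unfold r0; linarith))
    simp only [add_div, Finset.sum_add_distrib]
    rw [abs_le] at a0 a1 a2 ⊢
    constructor <;> linarith [a0.1, a0.2, a1.1, a1.2, a2.1, a2.2]
  · obtain ⟨C1, h3⟩ := h2 m hm
    obtain ⟨C2, h4⟩ := h2' m hm
    refine ⟨(R1 ^ (2 * m + 3))⁻¹ * C1 + (r0 ^ (2 * m + 3))⁻¹ * C2, fun k hk => ?_⟩
    have a1 := two R1 C1 _ _ _ m hR (h3 k hk)
    have a2 := two r0 C2 _ _ _ m hr0 (h4 k hk)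
    rw [abs_le] at a1 a2 ⊢
    constructor <;> nlinarith [a1.1, a1.2, a2.1, a2.2]

end Pool.Agent.Lib.ISO
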