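import Pool.Agent.Lib.MP_312682_mp.Abs

/-! Row SEC, abstract part: the symmetric second difference of the squared Hilbert-Schmidt norm
of a perturbed resolvent. -/

open scoped InnerProductSpace ENNReal

noncomputable section

namespace Pool.Agent.Lib.ISO.SEC

open Pool.Agent.Lib.MP_312682_mp

variable {X : Type*} [NormedAddCommGroup X] [InnerProductSpace ℂ X] [CompleteSpace X]

lemma err_bound {W V B1 B2 R : X →L[ℂ] X} {m e : ℝ} (hm : 1 ≤ m) (he : 0 ≤ e) (he1 : e ≤ 1)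
    (nW : ‖W‖ ≤ 2) (nV : ‖V‖ ≤ 2) (n1 : ‖B1‖ ≤ m * e) (n2 : ‖B2‖ ≤ m * e ^ 2)
    (n3 : ‖R‖ ≤ m * e ^ 3) (h : V = W - W * (B1 + B2 + R) * V) :
    ‖V - (W - W * B1 * W + W * (B1 * W * B1 - B2) * W)‖ ≤ 500 * m ^ 3 * e ^ 3 := by
  set D := B1 + B2 + R with hD
  have e2 : e ^ 2 ≤ e := by nlinarith
  have e3 : e ^ 3 ≤ e ^ 2 := by nlinarith
  have e0 : 0 ≤ e ^ 3 := by positivity
  have m2 : m ≤ m ^ 3 := le_self_pow₀ hm (by norm_num)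
  have m3 : m ^ 2 ≤ m ^ 3 := by nlinarith
  have nE : ‖B2 + R‖ ≤ 2 * m * e ^ 2 := (nadd n2 n3).trans (by nlinarith)
  have nD : ‖D‖ ≤ 3 * m * e := (nadd (nadd n1 n2) n3).trans (by nlinarith)
  have h3 : V = W - W * D * (W - W * D * (W - W * D * V)) := by rw [← h, ← h, ← h]
  have key : V - (W - W * B1 * W + W * (B1 * W * B1 - B2) * W) =
      W * ((B2 + R) * W * D + B1 * W * (B2 + R)) * W - W * R * W - W * D * W * D * W * D * V := by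
    nth_rw 1 [h3]
    rw [hD]
    noncomm_ring
  rw [key]
  refine (nsub (nsub (nmul (nmul nW (nadd (nmul (nmul nE nW) nD) (nmul (nmul n1 nW) nE))) nW)
    (nmul (nmul nW n3) nW)) (nmul (nmul (nmul (nmul (nmul (nmul nW nD) nW) nD) nW) nD) nV)).trans ?_
  have a1 : m * e ^ 3 ≤ m ^ 3 * e ^ 3 := by gcongr
  have a2 : m ^ 2 * e ^ 3 ≤ m ^ 3 * e ^ 3 := by gcongr
  nlinarith

lemma para (a b c : X) (ε : ℝ) :
    ‖a + (ε : ℂ) • b + ((ε ^ 2 : ℝ) : ℂ) • c‖ ^ 2 +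
      ‖a + ((-ε : ℝ) : ℂ) • b + (((-ε) ^ 2 : ℝ) : ℂ) • c‖ ^ 2 - 2 * ‖a‖ ^ 2 =
      2 * ε ^ 2 * (‖b‖ ^ 2 + 2 * (⟪a, c⟫_ℂ).re) + 2 * ε ^ 4 * ‖c‖ ^ 2 := by
  have h1 := parallelogram_law_with_norm ℂ (a + ((ε ^ 2 : ℝ) : ℂ) • c) ((ε : ℂ) • b)
  have h2 := @norm_add_sq ℂ _ _ _ _ a (((ε ^ 2 : ℝ) : ℂ) • c)
  rw [inner_smul_right, norm_smul, Complex.norm_real, Real.norm_of_nonneg (sq_nonneg ε),
    RCLike.re_to_complex, Complex.re_ofReal_mul] at h2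
  rw [norm_smul, Complex.norm_real, Real.norm_eq_abs] at h1
  rw [neg_sq, Complex.ofReal_neg, neg_smul, add_right_comm a, add_right_comm a (-_),
    ← sub_eq_add_neg]
  rw [mul_pow, sq_abs] at h1
  nlinarith

theorem abs_sec {ι : Type*} {v : ι → X} {p P A0 A1 A2 Z0 W : X →L[ℂ] X} (hp : Proj p)
    (hv : Pars v p) (hP : Proj P) {c m : ℝ} (hG : HL (p * P * p) c) (hm : 1 ≤ m)
    (n1 : ‖A1‖ ≤ m) (n2 : ‖A2‖ ≤ m) (n0 : ‖Z0‖ ≤ 2) (z0 : Z0 * (1 + P * A0 * P) = 1)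
    (hW : W = P * Z0 * P) :
    ∃ F, HasSum (fun i => ‖(p * P * (-(W * A1 * W)) * P * p) (v i)‖ ^ 2 +
      2 * (⟪(p * P * W * P * p) (v i),
        (p * P * (W * (A1 * W * A1 - A2) * W) * P * p) (v i)⟫_ℂ).re) F ∧
    ∀ (ε : ℝ) (A A' Z Z' : X →L[ℂ] X), |ε| ≤ 1 →
      ‖A - A0 - (ε : ℂ) • A1 - ((ε ^ 2 : ℝ) : ℂ) • A2‖ ≤ m * |ε| ^ 3 →
      ‖A' - A0 - ((-ε : ℝ) : ℂ) • A1 - (((-ε) ^ 2 : ℝ) : ℂ) • A2‖ ≤ m * |-ε| ^ 3 →
      ‖Z‖ ≤ 2 → ‖Z'‖ ≤ 2 → (1 + P * A * P) * Z = 1 → (1 + P * A' * P) * Z' = 1 →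
      |hsq (p * P * Z * P * p) + hsq (p * P * Z' * P * p) - 2 * hsq (p * P * Z0 * P * p) -
        2 * ε ^ 2 * F| ≤ 1000000 * m ^ 6 * |ε| ^ 3 * c ^ 2 := by
  have hc := hG.1
  have mid : ∀ Y : X →L[ℂ] X, p * P * (P * Y * P) * P * p = p * P * Y * P * p := fun Y => by
    calc _ = p * (P * P) * Y * (P * P) * p := by noncomm_ring
      _ = _ := by rw [hP.idem]
  have nP : ∀ Y : X →L[ℂ] X, ‖Y‖ ≤ 2 → ‖P * Y * P‖ ≤ 2 := fun Y h =>
    (nmul (nmul hP.norm_le h) hP.norm_le).trans (by norm_num)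
  have nW : ‖W‖ ≤ 2 := hW ▸ nP _ n0
  have fr : ∀ (Y : X →L[ℂ] X), HasSum (fun i => ‖(p * P * Y * P * p) (v i)‖ ^ 2)
      (hsq (p * P * Y * P * p)) := fun Y =>
    hasSum_frame hp hv (by rw [mul_assoc, hp.idem]) (hG.mid hp hP le_rfl).ne_top
  set Y1 := -(W * A1 * W) with hY1
  set Y2 := W * (A1 * W * A1 - A2) * W with hY2
  have m2 : m ≤ m ^ 2 := by nlinarith
  have nY1 : ‖Y1‖ ≤ 4 * m ^ 2 := by
    rw [hY1, norm_neg]; exact (nmul (nmul nW n1) nW).trans (by linarith)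
  have nY2 : ‖Y2‖ ≤ 12 * m ^ 2 :=
    (nmul (nmul nW (nsub (nmul (nmul n1 nW) n1) n2)) nW).trans (by nlinarith)
  have lin : ∀ (a b : ℂ) i, (p * P * (W + a • Y1 + b • Y2) * P * p) (v i) =
      (p * P * W * P * p) (v i) + a • (p * P * Y1 * P * p) (v i) +
        b • (p * P * Y2 * P * p) (v i) := fun a b i => by
    simp only [mul_add, add_mul, mul_smul_comm, smul_mul_assoc, add_apply,
      smul_apply]
  have sF : Summable fun i => ‖(p * P * Y1 * P * p) (v i)‖ ^ 2 +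
      2 * (⟪(p * P * W * P * p) (v i), (p * P * Y2 * P * p) (v i)⟫_ℂ).re := by
    have := (((fr (W + ((1 : ℝ) : ℂ) • Y1 + ((1 ^ 2 : ℝ) : ℂ) • Y2)).add
      (fr (W + ((-1 : ℝ) : ℂ) • Y1 + (((-1) ^ 2 : ℝ) : ℂ) • Y2))).sub ((fr W).mul_left 2)).sub
      ((fr Y2).mul_left 2)
    refine (this.summable.mul_left (1 / 2)).congr fun i => ?_
    rw [lin, lin, para]
    ring
  refine ⟨_, sF.hasSum, ?_⟩
  have one : ∀ (ε : ℝ) (A Z : X →L[ℂ] X), |ε| ≤ 1 →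
      ‖A - A0 - (ε : ℂ) • A1 - ((ε ^ 2 : ℝ) : ℂ) • A2‖ ≤ m * |ε| ^ 3 → ‖Z‖ ≤ 2 →
      (1 + P * A * P) * Z = 1 → |hsq (p * P * Z * P * p) -
        hsq (p * P * (W + (ε : ℂ) • Y1 + ((ε ^ 2 : ℝ) : ℂ) • Y2) * P * p)| ≤
        300000 * m ^ 6 * |ε| ^ 3 * c ^ 2 := by
    intro ε A Z hε nR nZ hZ
    have he := abs_nonneg ε
    have s1 : ‖(ε : ℂ)‖ = |ε| := by rw [Complex.norm_real, Real.norm_eq_abs]
    have s2 : ‖((ε ^ 2 : ℝ) : ℂ)‖ = |ε| ^ 2 := by rw [Complex.norm_real, Real.norm_eq_abs, abs_pow]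
    have e2 : |ε| ^ 2 ≤ 1 := pow_le_one₀ he hε
    have e3 : |ε| ^ 3 ≤ 1 := pow_le_one₀ he hε
    have hV : P * Z * P = W - W * ((ε : ℂ) • A1 + ((ε ^ 2 : ℝ) : ℂ) • A2 +
        (A - A0 - (ε : ℂ) • A1 - ((ε ^ 2 : ℝ) : ℂ) • A2)) * (P * Z * P) := by
      have a1 : Z0 - Z = Z0 * P * (A - A0) * P * Z := by
        calc Z0 - Z = Z0 * ((1 + P * A * P) * Z) - Z0 * (1 + P * A0 * P) * Z := by
              rw [hZ, z0, mul_one, one_mul]
          _ = _ := by noncomm_ring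
      have a2 : (ε : ℂ) • A1 + ((ε ^ 2 : ℝ) : ℂ) • A2 +
          (A - A0 - (ε : ℂ) • A1 - ((ε ^ 2 : ℝ) : ℂ) • A2) = A - A0 := by abel
      rw [a2, hW]
      calc P * Z * P = P * Z0 * P - P * (Z0 - Z) * P := by noncomm_ring
        _ = _ := by rw [a1]; noncomm_ring
    have nE := err_bound hm he hε nW (nP Z nZ)
      (by rw [norm_smul, s1, mul_comm]; gcongr) (by rw [norm_smul, s2, mul_comm]; gcongr) nR hV
    have eS : W - W * (ε : ℂ) • A1 * W + W * ((ε : ℂ) • A1 * W * (ε : ℂ) • A1 -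
        ((ε ^ 2 : ℝ) : ℂ) • A2) * W = W + (ε : ℂ) • Y1 + ((ε ^ 2 : ℝ) : ℂ) • Y2 := by
      rw [hY1, hY2]
      simp only [mul_sub, sub_mul, mul_smul_comm, smul_mul_assoc, smul_sub, smul_neg, smul_smul,
        Complex.ofReal_pow, sq, Complex.ofReal_mul]
      abel
    rw [eS] at nE
    set S := W + (ε : ℂ) • Y1 + ((ε ^ 2 : ℝ) : ℂ) • Y2 with hS
    have nS : ‖S‖ ≤ 18 * m ^ 2 := by
      refine (nadd (nadd nW (x := 2) (y := 4 * m ^ 2) ?_) (y := 12 * m ^ 2) ?_).trans (by nlinarith)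
      · rw [norm_smul, s1]
        exact (mul_le_mul hε nY1 (norm_nonneg _) zero_le_one).trans (by linarith)
      · rw [norm_smul, s2]
        exact (mul_le_mul e2 nY2 (norm_nonneg _) zero_le_one).trans (by linarith)
    have := hsq_add_sub_le (hG.mid hp hP nS) (hG.mid hp hP nE)
    rw [show p * P * S * P * p + p * P * (P * Z * P - S) * P * p = p * P * (P * Z * P) * P * p by
      noncomm_ring, mid] at this
    refine this.trans ?_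
    have m3 : m ^ 2 ≤ m ^ 3 := by nlinarith
    have b1 : 2 * (18 * m ^ 2 * c) + 500 * m ^ 3 * |ε| ^ 3 * c ≤ 600 * m ^ 3 * c := by
      have : m ^ 2 * c ≤ m ^ 3 * c := by gcongr
      have : m ^ 3 * |ε| ^ 3 * c ≤ m ^ 3 * 1 * c := by gcongr
      have : 0 ≤ m ^ 3 * c := by positivity
      nlinarith
    calc _ ≤ 500 * m ^ 3 * |ε| ^ 3 * c * (600 * m ^ 3 * c) := by gcongr
      _ = _ := by ring
  intro ε A A' Z Z' hε nR nR' nZ nZ' hZ hZ'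
  have o1 := one ε A Z hε nR nZ hZ
  have o2 := one (-ε) A' Z' (by rwa [abs_neg]) nR' nZ' hZ'
  rw [abs_neg] at o2
  have k1 := (((fr (W + (ε : ℂ) • Y1 + ((ε ^ 2 : ℝ) : ℂ) • Y2)).add
      (fr (W + ((-ε : ℝ) : ℂ) • Y1 + (((-ε) ^ 2 : ℝ) : ℂ) • Y2))).sub ((fr W).mul_left 2))
  simp only [lin, para] at k1
  have k2 := k1.unique ((sF.hasSum.mul_left (2 * ε ^ 2)).add ((fr Y2).mul_left (2 * ε ^ 4)))
  have k3 := (hG.mid hp hP nY2).hsq_le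
  have k4 := hsq_nonneg (p * P * Y2 * P * p)
  have k5 : p * P * W * P * p = p * P * Z0 * P * p := by rw [hW, mid]
  rw [← k5]
  have he := abs_nonneg ε
  have k6 : ε ^ 4 ≤ |ε| ^ 3 := by
    have : ε ^ 4 = |ε| ^ 3 * |ε| := by
      rw [← pow_succ, ← abs_pow]; exact (abs_of_nonneg (by positivity : 0 ≤ ε ^ 4)).symm
    rw [this]
    exact mul_le_of_le_one_right (by positivity) hε
  have k7 : ε ^ 4 * hsq (p * P * Y2 * P * p) ≤ 144 * (m ^ 6 * |ε| ^ 3 * c ^ 2) := by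
    have : m ^ 4 ≤ m ^ 6 := pow_le_pow_right₀ hm (by norm_num)
    calc _ ≤ |ε| ^ 3 * (12 * m ^ 2 * c) ^ 2 := by gcongr
      _ = 144 * (m ^ 4 * |ε| ^ 3 * c ^ 2) := by ring
      _ ≤ _ := by gcongr
  have k8 : 0 ≤ ε ^ 4 * hsq (p * P * Y2 * P * p) := by positivity
  have k9 : 0 ≤ m ^ 6 * |ε| ^ 3 * c ^ 2 := by positivity
  rw [abs_le] at o1 o2 ⊢
  constructor <;> linarith [o1.1, o1.2, o2.1, o2.2]

/-- the compressed resolvent is self-adjoint -/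
lemma star_W {P A0 Z0 : X →L[ℂ] X} (hP : Proj P) (hA : star A0 = A0)
    (z0 : Z0 * (1 + P * A0 * P) = 1) : star (P * Z0 * P) = P * Z0 * P := by
  have h1 := congrArg star z0
  simp only [star_mul, star_add, star_one, hP.sa, hA] at h1
  have h2 : star Z0 = Z0 := by
    calc star Z0 = Z0 * (1 + P * A0 * P) * star Z0 := by rw [z0, one_mul]
      _ = Z0 * ((1 + P * (A0 * P)) * star Z0) := by noncomm_ring
      _ = Z0 := by rw [h1, mul_one]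
  rw [star_mul, star_mul, hP.sa, h2, mul_assoc]

lemma W_apply {P A0 Z0 : X →L[ℂ] X} (z0 : Z0 * (1 + P * A0 * P) = 1) {w y : X} (hw : P w = w)
    (h : P (A0 w + w) = P y) : (P * Z0 * P) y = w := by
  have := congrArg (fun T : X →L[ℂ] X => T w) z0
  simp only [mul_apply_eq_comp, add_apply, one_apply_eq_self, hw] at this ⊢
  rw [← h, map_add P, hw, add_comm, this, hw]

lemma inner_sa {T : X →L[ℂ] X} (h : star T = T) (x y : X) : ⟪x, T y⟫_ℂ = ⟪T x, y⟫_ℂ := by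
  rw [← ContinuousLinearMap.adjoint_inner_left, ← ContinuousLinearMap.star_eq_adjoint, h]

end Pool.Agent.Lib.ISO.SEC
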