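import Pool.Agent.Lib.ISO.BlueV

/-! Row SEC, Fourier modes on the cylinder. -/

open scoped InnerProductSpace ENNReal ContDiff ComplexConjugate Topology
open MeasureTheory Complex Set Filter

noncomputable section

namespace Pool.Agent.Lib.ISO.SEC

open Pool.Agent.Lib.MP_312682_mp

variable {L δ μ : ℝ}

lemma sm_deriv {u : ℝ → ℂ} (hu : ContDiff ℝ ∞ u) : ContDiff ℝ ∞ (deriv u) :=
  (contDiff_infty_iff_deriv.1 hu).2

lemma hd {u : ℝ → ℂ} (hu : ContDiff ℝ ∞ u) (x : ℝ) : HasDerivAt u (deriv u x) x :=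
  (hu.differentiable (by simp) x).hasDerivAt

/-- divergence free fields are orthogonal to the gradients -/
lemma orth (hL : 0 < L) (hδ : 0 < δ) (n : ℤ) {a b c : ℝ → ℂ} (ha : ContDiff ℝ ∞ a)
    (hb : ContDiff ℝ ∞ b) (hc : ContDiff ℝ ∞ c)
    (h : ∀ x ∈ Icc 0 δ, deriv c x = μ * a x - I * xi L n * b x) :
    PK L δ μ (tv L δ n a b c) = 0 := by
  refine PC_eq (Submodule.zero_mem _) ?_
  rintro _ ⟨φ, hφ, rfl⟩
  obtain ⟨p1, p2, ε, hε, p3⟩ := hφ
  rw [sub_zero, inner_eq_zero_symm, L2.inner_def]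
  have se : ContDiff ℝ ∞ fun z : ℂ => ex L n z.re := (contDiff_ex L n).comp contDiff_re'
  have sc := contDiff_conj' p1
  have sG1 : ContDiff ℝ ∞ fun z : ℂ => ex L n z.re * b z.im := se.mul (hb.comp contDiff_im')
  have sG2 : ContDiff ℝ ∞ fun z : ℂ => ex L n z.re * c z.im := se.mul (hc.comp contDiff_im')
  have sF1 := sc.mul sG1
  have sF2 := sc.mul sG2
  have i1 := ibp1 hL.le hδ.le (fun z _ => (sF1.of_le (by simp)).contDiffAt)
    (fun z => by simp [p2, ex_periodic hL])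
  have i2 := ibp2 hL.le hδ.le (fun z _ => (sF2.of_le (by simp)).contDiffAt)
    (fun z hz => by
      rw [p3 z (by rcases hz with hz | hz; exacts [Or.inl (by linarith), Or.inr (by linarith)])]
      simp)
  rw [← add_zero (0 : ℂ)]
  nth_rw 1 [← i1]
  rw [← i2, ← integral_add (integrable_rect fun _ _ => (continuous_d1 sF1).continuousAt)
    (integrable_rect fun _ _ => (continuous_d2 sF2).continuousAt)]
  refine integral_congr_ae ?_
  filter_upwards [tl_coe (memLp_Dv_rect (L := L) (δ := δ) μ p1), ae_rect L δ,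
    tv_coe (L := L) (δ := δ) n ha.continuous hb.continuous hc.continuous] with z e1 e2 e3
  rw [DL, e1, e3, inner_E3,
    d1_mul (sc.differentiable (by simp) z) (sG1.differentiable (by simp) z),
    d2_mul (sc.differentiable (by simp) z) (sG2.differentiable (by simp) z),
    (d_conj (p1.differentiable (by simp) z)).1, (d_conj (p1.differentiable (by simp) z)).2,
    (d_ten (hd_ex L n z.re) (hd hb z.im)).1, (d_ten (hd_ex L n z.re) (hd hc z.im)).2,
    h _ (Ioc_subset_Icc_self e2.2)]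
  simp only [Dv_0, Dv_1, Dv_2, PiLp.smul_apply, PiLp.toLp_apply,
    Matrix.cons_val_zero, Matrix.cons_val_one, Matrix.cons_val, smul_eq_mul, map_mul,
    conj_ofReal, xi]
  ring

/-- gradient of a mode -/
def Dm (L δ μ : ℝ) (n : ℤ) (u : ℝ → ℂ) : L2 (nu L δ) :=
  tv L δ n (fun x => μ * u x) (fun x => I * xi L n * u x) (deriv u)

/-- scalar mode -/
def Ef (L δ : ℝ) (n : ℤ) (f : ℝ → ℂ) : L2 (nu L δ) := tv L δ n f 0 0

lemma P_Dm (hL : 0 < L) (hδ : 0 < δ) (n : ℤ) {u : ℝ → ℂ} (hu : ContDiff ℝ ∞ u) (h0 : u 0 = 0)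
    (h1 : u δ = 0) : PK L δ μ (Dm L δ μ n u) = Dm L δ μ n u := by
  have se : ContDiff ℝ ∞ fun z : ℂ => ex L n z.re := (contDiff_ex L n).comp contDiff_re'
  have hw : Dm L δ μ n u = DL (nu L δ) μ fun z => ex L n z.re * u z.im := by
    rw [Dm, tv, DL]
    refine congrArg _ (funext fun z => ?_)
    have := d_ten (hd_ex L n z.re) (hd hu z.im)
    refine E3_ext ?_ ?_ ?_
    · simp; ring
    · simp [this.1, xi]; ring
    · simp [this.2]
  refine PC_self ?_
  rw [hw]
  refine mem_cyl_cl hδ μ (se.mul (hu.comp contDiff_im')) (fun z => by simp [ex_periodic hL])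
    fun z hz => ?_
  rcases hz with hz | hz <;> simp [hz, h0, h1]

lemma Ef_smul (n : ℤ) (c : ℂ) {f : ℝ → ℂ} (hf : Continuous f) :
    Ef L δ n (fun x => c * f x) = c • Ef L δ n f := by
  ext1
  filter_upwards [Lp.coeFn_smul c (Ef L δ n f),
    tv_coe (L := L) (δ := δ) n hf continuous_zero continuous_zero,
    tv_coe (L := L) (δ := δ) n (a := fun x => c * f x) (by fun_prop) continuous_zero
      continuous_zero] with z e1 e2 e3
  rw [e1, Pi.smul_apply, Ef, Ef, e2, e3]
  refine E3_ext ?_ ?_ ?_ <;> simp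
  ring

lemma p0_Ef (n : ℤ) {f : ℝ → ℂ} (hf : Continuous f) : p0 _ (Ef L δ n f) = Ef L δ n f :=
  p0_tv n hf continuous_zero continuous_zero

lemma p0_Dm (n : ℤ) {u : ℝ → ℂ} (hu : ContDiff ℝ ∞ u) :
    p0 _ (Dm L δ μ n u) = (μ : ℂ) • Ef L δ n u := by
  have := hu.continuous
  rw [← Ef_smul n _ this]
  exact p0_tv n (by fun_prop) (by fun_prop) (sm_deriv hu).continuous

/-- the projection only sees the divergence -/
lemma P_red (hL : 0 < L) (hδ : 0 < δ) (hμ : 0 < μ) (n : ℤ) {a b c F : ℝ → ℂ}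
    (ha : ContDiff ℝ ∞ a) (hb : ContDiff ℝ ∞ b) (hc : ContDiff ℝ ∞ c) (hF : ContDiff ℝ ∞ F)
    (h : ∀ x ∈ Icc 0 δ, F x = μ * a x - I * xi L n * b x - deriv c x) :
    PK L δ μ (tv L δ n a b c) = (μ : ℂ)⁻¹ • PK L δ μ (Ef L δ n F) := by
  have hμ' : (μ : ℂ) ≠ 0 := by exact_mod_cast hμ.ne'
  have cF := hF.continuous
  rw [← map_smul, ← Ef_smul n _ cF, ← sub_eq_zero, ← map_sub, Ef,
    tv_sub n (a := fun x => a x - (μ : ℂ)⁻¹ * F x) (b := b) (c := c) ha.continuous hb.continuous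
      hc.continuous (by fun_prop) continuous_zero continuous_zero (fun _ => rfl) (by simp)
      (by simp)]
  refine orth hL hδ n (by fun_prop) hb hc fun x hx => ?_
  rw [h x hx]
  field_simp
  ring

lemma inner_tv (hL : 0 < L) (hδ : 0 < δ) (n m : ℤ) {f g h f' g' h' : ℝ → ℂ} (hf : Continuous f)
    (hg : Continuous g) (hh : Continuous h) (hf' : Continuous f') (hg' : Continuous g')
    (hh' : Continuous h') :
    ⟪tv L δ n f g h, tv L δ m f' g' h'⟫_ℂ = if n = m then ∫ x in (0 : ℝ)..δ,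
        (conj (f x) * f' x + conj (g x) * g' x + conj (h x) * h' x) else 0 := by
  have cn := continuous_ex L n
  have cm := continuous_ex L m
  rw [L2.inner_def]
  have : ∫ z, ⟪tv L δ n f g h z, tv L δ m f' g' h' z⟫_ℂ ∂nu L δ =
      ∫ z, (conj (ex L n z.re) * ex L m z.re) * (conj (f z.im) * f' z.im + conj (g z.im) * g' z.im +
        conj (h z.im) * h' z.im) ∂nu L δ := by
    refine integral_congr_ae ?_
    filter_upwards [tv_coe (L := L) (δ := δ) n hf hg hh,
      tv_coe (L := L) (δ := δ) m hf' hg' hh'] with z e2 e3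
    rw [e2, e3, inner_E3]
    simp
    ring
  rw [this, int_rect hL.le hδ.le (integrable_rect fun _ _ => Continuous.continuousAt (by fun_prop))]
  simp only [add_re, ofReal_re, mul_re, I_re, mul_zero, ofReal_im, I_im, mul_one, sub_self,
    add_zero, add_im, mul_im, zero_add, intervalIntegral.integral_const_mul,
    intervalIntegral.integral_mul_const]
  split_ifs with e
  · subst e
    have hL' : (L : ℂ) ≠ 0 := by exact_mod_cast hL.ne'
    simp [conj_ex_mul hL, hL']
  · have hd : ∀ s, HasDerivAt (fun s => conj (ex L n s) * ex L m s)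
        (I * (xi L m - xi L n : ℝ) * (conj (ex L n s) * ex L m s)) s := fun s => by
      refine ((hd_ex L n s).star.mul (hd_ex L m s)).congr_deriv ?_
      simp [xi]
      ring
    have h1 := intervalIntegral.integral_eq_sub_of_hasDerivAt (a := 0) (b := L)
      (fun s _ => hd s) (Continuous.intervalIntegrable (by fun_prop) _ _)
    have h2 : ∀ j, ex L j L = ex L j 0 := fun j => by simpa using ex_periodic hL j 0
    rw [intervalIntegral.integral_const_mul, h2, h2, sub_self] at h1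
    have h3 : (xi L m - xi L n : ℝ) ≠ 0 := by
      rw [xi, xi, ← mul_sub]
      refine mul_ne_zero (by positivity) (sub_ne_zero.2 ?_)
      exact_mod_cast Ne.symm e
    rw [(mul_eq_zero.1 h1).resolve_left (mul_ne_zero I_ne_zero (by exact_mod_cast h3)), zero_mul]

lemma inner_Ef (hL : 0 < L) (hδ : 0 < δ) (n m : ℤ) {f g : ℝ → ℂ} (hf : Continuous f)
    (hg : Continuous g) : ⟪Ef L δ n f, Ef L δ m g⟫_ℂ = if n = m then ipc δ f g else 0 := by
  rw [Ef, Ef, inner_tv hL hδ n m hf continuous_zero continuous_zero hg continuous_zero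
    continuous_zero]
  simp [ipc]

lemma norm_Ef (hL : 0 < L) (hδ : 0 < δ) (n : ℤ) {f : ℝ → ℂ} (hf : Continuous f) :
    ‖Ef L δ n f‖ ^ 2 = nn δ f := by
  have := inner_Ef hL hδ n n hf hf
  rw [if_pos rfl, inner_self_eq_norm_sq_to_K, ipc] at this
  simp only [conj_mul', ← ofReal_pow, intervalIntegral.integral_ofReal] at this
  have h2 : ((‖Ef L δ n f‖ ^ 2 : ℝ) : ℂ) = (nn δ f : ℝ) := by
    rw [nn, ← this]; simp
  exact_mod_cast h2

/-- the shift factor -/
def Ek (k : ℕ) (s : ℝ) : ℂ := exp (I * k * s)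
def Ek' (k : ℕ) (s : ℝ) : ℂ := exp (-(I * k * s))

lemma Ek_mul (k : ℕ) (s : ℝ) : Ek k s * Ek' k s = 1 := by
  rw [Ek, Ek', ← exp_add, add_neg_cancel, exp_zero]

lemma xi_two_pi (n : ℤ) : xi (2 * Real.pi) n = n := by
  rw [xi, div_self (by positivity), one_mul]

lemma ex_add (k : ℕ) (n : ℤ) (s : ℝ) :
    ex (2 * Real.pi) (n + k) s = ex (2 * Real.pi) n s * Ek k s := by
  rw [ex, ex, Ek, mul_assoc _ (exp _), ← exp_add, div_self (by positivity)]
  push_cast
  ring_nf

lemma ex_sub (k : ℕ) (n : ℤ) (s : ℝ) :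
    ex (2 * Real.pi) (n - k) s = ex (2 * Real.pi) n s * Ek' k s := by
  rw [ex, ex, Ek', mul_assoc _ (exp _), ← exp_add, div_self (by positivity)]
  push_cast
  ring_nf

lemma deriv_rh (k : ℕ) (s : ℝ) : deriv (rh k) s = -(2 * k * Real.sin (k * s)) := by
  have := ((hasDerivAt_id s).const_mul (k : ℝ)).cos.const_mul 2
  refine (HasDerivAt.deriv this).trans ?_
  simp only [id]
  ring

lemma rh_eq (k : ℕ) (s : ℝ) : (rh k s : ℂ) = Ek k s + Ek' k s := by
  rw [rh, Ek, Ek']
  push_cast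
  rw [two_cos]
  ring_nf

lemma drh_eq (k : ℕ) (s : ℝ) : ((deriv (rh k) s : ℝ) : ℂ) = I * k * (Ek k s - Ek' k s) := by
  rw [deriv_rh, Ek, Ek']
  push_cast
  rw [mul_right_comm, two_sin]
  ring_nf

lemma abs_rh (k : ℕ) (s : ℝ) : |rh k s| ≤ 2 := by
  have := Real.abs_cos_le_one (k * s)
  rw [rh, abs_mul, abs_two]
  linarith

lemma abs_drh (k : ℕ) (s : ℝ) : |deriv (rh k) s| ≤ 2 * k := by
  have := Real.abs_sin_le_one (k * s)
  rw [deriv_rh, abs_neg, abs_mul, abs_of_nonneg (by positivity : (0 : ℝ) ≤ 2 * k)]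
  exact mul_le_of_le_one_right (by positivity) this

lemma cont_rh (k : ℕ) : Continuous (rh k) := by unfold rh; fun_prop

lemma cont_drh (k : ℕ) : Continuous (deriv (rh k)) := by
  rw [show deriv (rh k) = _ from funext (deriv_rh k)]; fun_prop

/-- the matrix of the form -/
def Mt (μ x y t : ℝ) : Mat := !![(-x / (4 * μ ^ 2) : ℝ), 0, 0; 0, x, y; 0, y, t]

lemma Bd_Mt {x y t : ℂ → ℝ} (hx : ∀ z, z.im ∈ Icc 0 δ → ContinuousAt x z)
    (hy : ∀ z, z.im ∈ Icc 0 δ → ContinuousAt y z) (ht : ∀ z, z.im ∈ Icc 0 δ → ContinuousAt t z) :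
    Bd (nu L δ) fun z => Mt μ (x z) (y z) (t z) := by
  refine Bd_rect fun z hz => continuousAt_pi.2 fun i => continuousAt_pi.2 fun j => ?_
  have a1 := hx z hz
  have a2 := hy z hz
  have a3 := ht z hz
  fin_cases i <;> fin_cases j <;> simp [Mt] <;> fun_prop

lemma norm_Mt (hμ : 1 ≤ μ) (x y t : ℝ) : ‖act (Mt μ x y t)‖ ≤ 2 * |x| + 2 * |y| + |t| := by
  refine (norm_act_le _).trans ?_
  have h : |x| / (4 * μ ^ 2) ≤ |x| := div_le_self (abs_nonneg _) (by nlinarith)
  simp [Mt, Fin.sum_univ_three]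
  linarith

lemma star_Mt (μ x y t : ℝ) : star (Mt μ x y t) = Mt μ x y t := by
  ext i j
  fin_cases i <;> fin_cases j <;> simp [Mt]

lemma mm_smul {α : Type*} [MeasurableSpace α] {ν : Measure α} {M : α → Mat} (hM : Bd ν M) (c : ℂ) :
    c • mm ν M = mm ν fun z => c • M z := by
  have hc : Bd ν fun z => c • M z := by
    simpa using (Bd.const (c • (1 : Mat))).mul hM
  ext1 f
  ext1
  filter_upwards [Lp.coeFn_smul c (mm ν M f), mm_coe hM f, mm_coe hc f] with z e1 e2 e3
  rw [smul_apply, e1, Pi.smul_apply, e2, e3, act_smul, smul_apply]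

end Pool.Agent.Lib.ISO.SEC
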