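import Pool.Agent.Lib.ISO.SDefs

/-! Differential monomials and the explicit coefficients. -/

open scoped ContDiff

noncomputable section

namespace Pool.Agent.Lib.ISO

/-- the monomial `∏ κ^(α i)` -/
def mono (α : List ℕ) (κ : ℝ → ℝ) (s : ℝ) : ℝ := (α.map fun j => iteratedDeriv j κ s).prod
def wt (α : List ℕ) : ℕ := α.length + α.sum
def mint (L : ℝ) (α : List ℕ) (κ : ℝ → ℝ) : ℝ := ∫ s in (0 : ℝ)..L, mono α κ s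
/-- number of differentiated factors -/
def nd (α : List ℕ) : ℕ := α.countP fun j => j != 0
/-- normal form under integration by parts -/
def Nrm (α : List ℕ) : Prop :=
  nd α = 0 ∨ 3 ≤ nd α ∨ ∃ r p, 1 ≤ r ∧ α = r :: r :: List.replicate p 0
def Tame (r : ℕ) (α : List ℕ) : Prop :=
  2 ≤ α.length ∧ (α.sum + 1 ≤ 2 * r ∨ (α.sum = 2 * r ∧ 3 ≤ nd α))

/-- smooth periodic function -/
structure Per (L : ℝ) (κ : ℝ → ℝ) : Prop where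
  smooth : ContDiff ℝ ∞ κ
  per : ∀ s, κ (s + L) = κ s

def uu (x : ℕ) : ℝ :=
  ((x : ℝ) - 1 / 2) * (x + 1) * ((x.factorial : ℝ) / ∏ i ∈ Finset.range (x + 1), ((i : ℝ) - 1 / 2)) ^ 2

/-- ratio of the quartic to the quadratic coefficient in the invariant of weight `2m+2` -/
def Sc (m : ℕ) : ℝ := 2 - uu (m + 1) / 8 + 4 * ((m : ℝ) + 2) * (m + 3 / 2) -
  5 / 3 * ((m : ℝ) + 2) * (m + 3 / 2) * (m + 5 / 2)

/-- coefficient of `k^(2m)` in the bubble integral, without the factor `√π` -/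
def beta (m : ℕ) (a b : ℝ) : ℝ :=
  (-1) ^ m * Real.Gamma (a + b + m - 1 / 2) * (∏ i ∈ Finset.range m, (a + i)) *
    (∏ i ∈ Finset.range m, (b + i)) / (m.factorial * Real.Gamma (a + b + 2 * m))

def cA (m : ℕ) : ℝ := 1 / 2 * beta (m + 2) (1 / 2) (1 / 2) - 1 / 2 * beta (m + 2) (3 / 2) (-1 / 2)

def cB (m : ℕ) : ℝ := 1 / 2 * beta (m + 1) 1 1 - 2 * beta (m + 1) 1 2 + 1 / 2 * beta (m + 1) 2 2 +
  beta (m + 1) 1 3 + 2 * (1 / 2 * beta (m + 1) (1 / 2) (3 / 2) - 2 * beta (m + 1) (1 / 2) (5 / 2) +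
    25 / 16 * beta (m + 1) (1 / 2) (7 / 2) - 11 / 4 * beta (m + 1) (-1 / 2) (5 / 2) +
    65 / 8 * beta (m + 1) (-1 / 2) (7 / 2) - 175 / 32 * beta (m + 1) (-1 / 2) (9 / 2) -
    1 / 8 * beta (m + 1) (3 / 2) (3 / 2) + 5 / 32 * beta (m + 1) (3 / 2) (5 / 2))

def St_GAM : Prop := ∀ m, cA m ≠ 0 ∧ cB m = cA m * (Sc m - 2)

/-- the two second-order combinations have opposite signs and grow -/
def St_K8 : Prop := ∀ m : ℕ, 3 ≤ m → Sc (m + 2) - 2 * Sc (m + 1) + Sc m ≤ -m ∧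
  (m : ℝ) ≤ (Sc (m + 2) - 2 * Sc (m + 1) + Sc m) -
    2 * m * (Sc (m + 3) - 3 * Sc (m + 2) + 3 * Sc (m + 1) - Sc m) +
    (m : ℝ) ^ 2 * (Sc (m + 4) - 4 * Sc (m + 3) + 6 * Sc (m + 2) - 4 * Sc (m + 1) + Sc m)

/-- normal form of the integral of a monomial -/
def St_IBP : Prop := ∀ α, ∃ (s : Finset (List ℕ)) (c : List ℕ → ℝ),
  (∀ β ∈ s, β.length = α.length ∧ β.sum = α.sum ∧ Nrm β) ∧
  ∀ L κ, Per L κ → mint L α κ = ∑ β ∈ s, c β * mint L β κ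

/-- Riemann sums of symbols -/
def St_POI : Prop := ∀ N : ℕ, ∃ c, ∀ (g : ℕ → ℝ → ℂ) (C h : ℝ),
  (∀ j x, HasDerivAt (g j) (g (j + 1) x) x) → (∀ j ≤ N + 2, ∀ x, ‖g j x‖ ≤ C / (1 + x ^ 2)) →
  0 < h → h ≤ 1 → (Summable fun n : ℤ => g 0 (h * n)) ∧
    ‖(h : ℂ) * ∑' n : ℤ, g 0 (h * n) - ∫ x, g 0 x‖ ≤ c * C * h ^ N

/-- removal of the auxiliary parameter `D` -/
def St_LIM : Prop := ∀ {S A : Type} [Fintype A] (w : A → ℕ) (v : A → S → ℝ) (F : S → ℝ → ℝ)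
  (Γ : A → ℝ → ℝ) (N q : ℕ) (P : ℝ → S → Prop), (∀ a, w a < N) → (∀ x, ∃ K, P K x) →
  (∃ C, ∀ a D, 1 ≤ D → |Γ a D| ≤ C * D ^ q) → (∀ K, ∃ B, ∀ x, P K x → ∀ a, |v a x| ≤ B) →
  (∀ K, ∃ C D0 c, 0 < c ∧ ∀ x, P K x → ∀ μ D, D0 ≤ D → 1 ≤ D → C * D ≤ μ → 1 ≤ μ →
    |F x μ - ∑ a, μ / μ ^ w a * (Γ a D * v a x)| ≤
      C * (D ^ q * (μ / μ ^ N) + μ ^ 4 * Real.exp (-(c * D)))) →
  ∃ c : A → ℝ, ∀ K, ∃ C μ0, ∀ x, P K x → ∀ μ, μ0 ≤ μ →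
    |F x μ - ∑ a, μ / μ ^ w a * (c a * v a x)| ≤ C * (μ * √μ / μ ^ N)

end Pool.Agent.Lib.ISO
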