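import Pool.Agent.Lib.ISO.Base

/-! Part K (markers) and the topological half of part G: statements of the blocks. -/

open scoped ContDiff ComplexConjugate
open Complex

noncomputable section

namespace Pool.Agent.Lib.ISO

/-- Fourier coefficient of a function of period `2π` -/
def fc (k : ℝ → ℝ) (j : ℤ) : ℂ :=
  (2 * Real.pi : ℂ)⁻¹ * ∫ s in (0 : ℝ)..(2 * Real.pi), (k s : ℂ) * exp (-(I * j * s))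

/-- coefficients of a real smooth function -/
structure Sq (z : ℤ → ℂ) : Prop where
  cj : ∀ j, z (-j) = conj (z j)
  dec : ∀ r : ℕ, Summable fun j : ℤ => |(j : ℝ)| ^ r * ‖z j‖

def Hs (r : ℕ) (z : ℤ → ℂ) : ℝ := ∑' j : ℤ, (j : ℝ) ^ (2 * r) * ‖z j‖ ^ 2
def cv (z w : ℤ → ℂ) (j : ℤ) : ℂ := ∑' i : ℤ, z i * w (j - i)
def Qs (r : ℕ) (z : ℤ → ℂ) : ℝ :=
  (∑' p : ℤ × ℤ, (p.1 : ℂ) ^ r * z p.1 * conj ((p.2 : ℂ) ^ r * z p.2) * cv z z (p.2 - p.1)).re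
def An (z : ℤ → ℂ) : ℝ := ∑' j : ℤ, (1 + |(j : ℝ)|) * ‖z j‖
def Tm (r : ℕ) (z : ℤ → ℂ) : ℝ := √((Hs r z + Hs 0 z) * (Hs (r - 1) z + Hs 0 z))
def Iv (m : ℕ) (z : ℤ → ℂ) : ℝ := Hs m z + Sc m * Qs (m - 1) z

/-- what equality of the invariants of even weight gives -/
def Inv (C : ℕ → ℝ) (B : ℝ) (z z' : ℤ → ℂ) : Prop := ∀ m, 2 ≤ m →
  |Iv m z - Iv m z'| ≤ C m * B ^ (2 * m + 2) * (Tm (m - 1) z + Tm (m - 1) z')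

def win (W : ℕ) : Finset ℤ := Finset.Icc (-(W : ℤ)) W
def qf (v a : ℤ → ℂ) (W : ℕ) : ℝ :=
  (∑ t ∈ win W, ∑ t' ∈ win W, a t * conj (a t') * v (t' - t)).re
def mom (e : ℕ) (a : ℤ → ℂ) (W : ℕ) : ℝ := ∑ t ∈ win W, (t : ℝ) ^ e * ‖a t‖ ^ 2
/-- the envelope of `z` at the frequency `W²` -/
def sh (z : ℤ → ℂ) (W : ℕ) (A : ℝ) (t : ℤ) : ℂ := z ((W : ℤ) ^ 2 + t) / A
def yy (W : ℕ) (ξ : ℤ) : ℝ := (ξ : ℝ) ^ 2 / (W : ℝ) ^ 4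
def Nr (W : ℕ) (z : ℤ → ℂ) : ℝ := ∑' ξ : ℤ,
  if 2 * |(|ξ| - (W : ℤ) ^ 2)| ≤ (W : ℤ) ^ 2 then (1 + (|(ξ : ℝ)| - (W : ℝ) ^ 2) ^ 2) * ‖z ξ‖ ^ 2
  else 0
def Jk (m W : ℕ) (z : ℤ → ℂ) : ℝ := ∑' ξ : ℤ,
  if (W : ℤ) < |ξ| ∧ (W : ℤ) ^ 2 < 2 * |(|ξ| - (W : ℤ) ^ 2)| then
    (yy W ξ ^ m + yy W ξ ^ (m + 4)) * ‖z ξ‖ ^ 2 else 0
def Hi (e W : ℕ) (z : ℤ → ℂ) : ℝ := ∑' ξ : ℤ, if (W : ℤ) < |ξ| then yy W ξ ^ e * ‖z ξ‖ ^ 2 else 0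
def er (m W : ℕ) (z : ℤ → ℂ) : ℝ :=
  (W : ℝ)⁻¹ * (Nr W z / (W : ℝ) ^ 4 + Jk m W z) + ((W : ℝ) ^ (2 * m))⁻¹

def gm (a : ℤ → ℂ) (W : ℕ) (ξ : ℤ) : ℂ := a (ξ - (W : ℤ) ^ 2) + conj (a (-ξ - (W : ℤ) ^ 2))
def amp (M W : ℕ) : ℝ := ((W : ℝ) ^ (2 * M))⁻¹
/-- marker of order `M` at the frequency `W²` with envelope `a` -/
def Mk (M W : ℕ) (a z : ℤ → ℂ) : Prop :=
  (∑' ξ : ℤ, if (W : ℤ) < |ξ| then (ξ : ℝ) ^ (2 * (2 * M + 8)) * ‖z ξ - amp M W * gm a W ξ‖ ^ 2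
    else 0) < amp M W ^ 2
def Env (J : ℕ) (a : ℤ → ℂ) : Prop := (∀ t : ℤ, (J : ℤ) < |t| → a t = 0) ∧ ∀ t, ‖a t‖ ≤ J

structure Out (η T : ℝ) (J W : ℕ) (A : ℝ) (a z z' : ℤ → ℂ) : Prop where
  le : J ≤ W
  n0 : |mom 0 (sh z' W A) W - mom 0 a J| ≤ η
  n1 : |mom 1 (sh z' W A) W - mom 1 a J| ≤ η
  n2 : 4 * mom 2 (sh z' W A) W + T * |qf (cv z' z') (sh z' W A) W - qf (cv z z) a J| ≤
    4 * mom 2 a J + η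
  rd' : ∀ i : ℤ, |i| ≤ J → ‖cv z' z' ((W : ℤ) ^ 2 + i) / (2 * A) -
    ∑ t ∈ win W, z' (i - t) * sh z' W A t‖ ≤ η
  rd : ∀ i : ℤ, |i| ≤ J → ‖cv z z ((W : ℤ) ^ 2 + i) / (2 * A) - ∑ t ∈ win J, z (i - t) * a t‖ ≤ η
  near : ∀ t ∈ win W, ‖sh z W A t - a t‖ ≤ η

/-- one-sided domination -/
def Dm (z z' : ℤ → ℂ) : Prop := ∀ (J : ℕ) (a : ℤ → ℂ) (η : ℝ), 0 < η → Env J a →
  ∃ (W : ℕ) (A : ℝ), 0 < A ∧ Out η 0 J W A a z z' ∧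
    |qf (cv z' z') (sh z' W A) W - qf (cv z z) a J| ≤ η

def ra (l : ℤ →₀ ℚ × ℚ) (t : ℤ) : ℂ := ((l t).1 : ℂ) + ((l t).2 : ℂ) * I

/-- the generic property -/
def Gm (W0 : ℕ → ℕ → ℕ) (z : ℤ → ℂ) : Prop := ∀ (j : ℕ) (l : ℤ →₀ ℚ × ℚ), Env j (ra l) →
  ∃ M W, j ≤ M ∧ W0 j M ≤ W ∧ Mk M W (ra l) z

def St_FOU : Prop := ∀ k, Per (2 * Real.pi) k → Sq (fc k) ∧
  (∀ r, mint (2 * Real.pi) [r, r] k = 2 * Real.pi * Hs r (fc k)) ∧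
  (∀ r, mint (2 * Real.pi) [r, r, 0, 0] k = 2 * Real.pi * Qs r (fc k)) ∧
  cv (fc k) (fc k) 0 = ((∫ s in (0 : ℝ)..(2 * Real.pi), k s ^ 2) / (2 * Real.pi) : ℝ) ∧
  fc k 0 = ((∫ s in (0 : ℝ)..(2 * Real.pi), k s) / (2 * Real.pi) : ℝ) ∧
  (∀ s : ℝ, HasSum (fun j : ℤ => fc k j * exp (I * j * s)) (k s)) ∧
  ∀ r j, fc (iteratedDeriv r k) j = (I * j) ^ r * fc k j

def St_TAME : Prop := ∀ r α, 1 ≤ r → Tame r α → ∃ C, 0 ≤ C ∧ ∀ k B, Per (2 * Real.pi) k → 1 ≤ B →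
  An (fc k) ≤ B → |mint (2 * Real.pi) α k| ≤ C * B ^ α.length * Tm r (fc k)

def St_MAS : Prop := ∀ (m : ℕ) (B : ℝ), 2 ≤ m → ∃ C, ∀ (W : ℕ) z, 4 ≤ W → Sq z → An z ≤ B →
  ∀ i ≤ 4, |Hs (m + i) z / (W : ℝ) ^ (4 * (m + i)) - Hi (m + i) W z| ≤ C * er m W z ∧
    |Qs (m + i - 1) z / (W : ℝ) ^ (4 * (m + i)) -
      2 * qf (cv z z) (sh z W 1) W / (W : ℝ) ^ 4| ≤ C * er m W z ∧
    Tm (m + i - 1) z / (W : ℝ) ^ (4 * (m + i)) ≤ C * er m W z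

def St_RD : Prop := ∀ (m : ℕ) (B : ℝ), ∃ C, ∀ (W : ℕ) z, 4 ≤ W → Sq z → An z ≤ B →
  ∀ i : ℤ, 2 * |i| ≤ W → ‖cv z z ((W : ℤ) ^ 2 + i) - 2 * ∑ t ∈ win W, z (i - t) * sh z W 1 t‖ ≤
    C * (W : ℝ)⁻¹ * √(Nr W z + Jk m W z)

def St_K4 : Prop := ∀ (C : ℕ → ℝ) (M J : ℕ) (B η : ℝ), 0 < η → ∃ W0, ∀ W, W0 ≤ W → ∀ z z' a,
  Sq z → Sq z' → An z ≤ B → An z' ≤ B → Env J a → Inv C B z z' → Mk M W a z →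
  Out η (2 * M + 4) J W (amp M W) a z z'

def St_DM : Prop := ∀ C : ℕ → ℝ, ∃ W0 : ℕ → ℕ → ℕ, ∀ z z', Sq z → Sq z' →
  (∀ B, 1 ≤ B → An z ≤ B → An z' ≤ B → Inv C B z z') → Gm W0 z → Dm z z'

def St_K5 : Prop := ∀ z z', Sq z → Sq z' → Dm z z' → Dm z' z → cv z z 0 = cv z' z' 0 →
  ∀ j, ‖cv z z j‖ = ‖cv z' z' j‖

def St_K6 : Prop := ∀ z z', Sq z → Sq z' → Dm z z' → (∀ j, ‖cv z z j‖ = ‖cv z' z' j‖) →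
  (∀ j, ‖z j‖ = ‖z' j‖) ∧ ∀ (d : ℕ) (y : ℂ), 1 ≤ d → ∃ u : ℂ, ‖u‖ = 1 ∧ ∀ i : ℤ,
    (z' i * conj (z' (i - d)) * conj (y * u)).re = (z i * conj (z (i - d)) * conj y).re

def St_K7 : Prop := ∀ z z', Sq z → Sq z' → Dm z z' → z 0 ≠ 0 → (∀ j, ‖z j‖ = ‖z' j‖) →
  (∀ (d : ℕ) (y : ℂ), 1 ≤ d → ∃ u : ℂ, ‖u‖ = 1 ∧ ∀ i : ℤ,
    (z' i * conj (z' (i - d)) * conj (y * u)).re = (z i * conj (z (i - d)) * conj y).re) →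
  ∃ (e σ : ℤ) (α : ℝ), (e = 1 ∨ e = -1) ∧ (σ = 1 ∨ σ = -1) ∧
    ∀ j, z j = e * exp (I * j * α) * z' (σ * j)

/-! ## The space of curves -/

/-- normalised curvature: the derivative of the tangent angle in the parameter -/
def kf (f : ℕ → UniformFun ℝ ℂ) (u : ℝ) : ℝ :=
  (UniformFun.toFun (f 2) u * conj (UniformFun.toFun (f 1) u)).im / ‖UniformFun.toFun (f 1) 0‖ ^ 2

/-- embeddings are stable in the `C¹` norm -/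
def St_EMB : Prop := ∀ f ∈ Jordan, ∃ η > 0, ∀ γ γ' : ℝ → ℂ, (∀ t, HasDerivAt γ (γ' t) t) →
  Function.Periodic γ (2 * Real.pi) → (∀ t, ‖γ t - UniformFun.toFun (f 0) t‖ ≤ η) →
  (∀ t, ‖γ' t - UniformFun.toFun (f 1) t‖ ≤ η) → Set.InjOn γ (Set.Ico 0 (2 * Real.pi))

def St_BAIRE : Prop := BaireSpace Jordan

def St_OPEN : Prop := (∀ f ∈ Jordan, Per (2 * Real.pi) (kf f)) ∧ ∀ (M W J : ℕ) a, Env J a →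
  IsOpen {f : Jordan | Mk M W a (fc (kf f.1))}

def St_DENSE : Prop := ∀ (j J : ℕ) (W0 : ℕ → ℕ) a, Env J a →
  Dense {f : Jordan | ∃ M W, j ≤ M ∧ W0 M ≤ W ∧ Mk M W a (fc (kf f.1))}

end Pool.Agent.Lib.ISO
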