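import Mathlib

/-! The space of smooth Jordan curves in the plane `ℂ`, with the `C^∞` topology. -/

namespace Pool.Agent.Lib.ISO

/-- Smooth simple closed curves of period `2π` and constant speed. A curve is recorded with all its
derivatives, `f n` being the `n`-th derivative, so that the topology induced by the product of the
spaces of functions with uniform convergence is the `C^∞` topology. -/
def Jordan : Set (ℕ → UniformFun ℝ ℂ) :=
  {f | (∀ n t, HasDerivAt (UniformFun.toFun (f n)) (UniformFun.toFun (f (n + 1)) t) t) ∧
    Function.Periodic (UniformFun.toFun (f 0)) (2 * Real.pi) ∧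
    Set.InjOn (UniformFun.toFun (f 0)) (Set.Ico 0 (2 * Real.pi)) ∧
    ∃ v : ℝ, 0 < v ∧ ∀ t, ‖UniformFun.toFun (f 1) t‖ = v}

end Pool.Agent.Lib.ISO
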